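import Pool.Agent.Lib.H45Osc.Stat

/-!
# Project Woodin, chunk N5: bookkeeping (Ulam partition of `ω₁`)
-/

set_option autoImplicit false

namespace H94W

open Ordinal Cardinal

universe u v w

open Pool.Agent.Lib.H45Osc in
theorem isOmega1_Iio : IsOmega1 (Set.Iio (ω_ 1 : Ordinal.{u})) := by
  constructor
  · rintro ⟨i, hi⟩
    have h1 : (Set.Iio i).Countable := by
      rw [← le_aleph0_iff_set_countable, Cardinal.mk_Iio_ordinal, lift_le_aleph0]
      have h2 : i < (ℵ_ 1 : Cardinal.{u}).ord := by rw [ord_aleph]; exact hi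
      rw [lt_ord, ← succ_aleph0, Order.lt_succ_iff] at h2
      exact h2
    exact h1.preimage Subtype.val_injective |>.mono (fun j hj => hj)
  · intro h
    rw [Set.countable_univ_iff, ← mk_le_aleph0_iff, Cardinal.mk_Iio_ordinal, lift_le_aleph0,
      card_omega] at h
    exact absurd h (not_le.2 (by rw [← succ_aleph0]; exact Order.lt_succ _))

open Pool.Agent.Lib.H45Osc in
theorem exists_book : ∃ b : Set.Iio (ω_ 1 : Ordinal.{u}) → Set.Iio (ω_ 1 : Ordinal.{u}) × ℕ,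
    ∀ p, IsStationary {ξ | b ξ = p ∧ p.1 < ξ} := by
  classical
  have hW := isOmega1_Iio.{u}
  have : Nonempty (Set.Iio (ω_ 1 : Ordinal.{u})) := hW.nonempty
  -- injections
  have h1 : ∀ ξ : Set.Iio (ω_ 1 : Ordinal.{u}),
      ∃ f : Set.Iio (ω_ 1 : Ordinal.{u}) → ℕ, Set.InjOn f (Set.Iio ξ) := by
    intro ξ
    exact Set.countable_iff_exists_injOn.1 (hW.countable_Iio ξ)
  choose f hf using h1
  have h2 : ∀ a : Set.Iio (ω_ 1 : Ordinal.{u}), ∃ n, IsStationary
      {ξ ∈ Set.Ioi a | f ξ a = n} := by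
    intro a
    have h3 : IsStationary (Set.Ioi a) := (hW.isClub_Ioi a).isStationary hW.cof_ne
    exact hW.pigeon h3 (fun n ξ => f ξ a = n) (fun ξ _ => ⟨_, rfl⟩)
  choose N hN using h2
  have h3 : ∃ n, ¬ {a | N a = n}.Countable := by
    by_contra hcon
    push Not at hcon
    apply hW.not_countable
    refine (Set.countable_iUnion hcon).mono ?_
    intro a _
    exact Set.mem_iUnion.2 ⟨N a, rfl⟩
  obtain ⟨n, hn⟩ := h3
  have h4 : #(Set.Iio (ω_ 1 : Ordinal.{u}) × ℕ) ≤ #{a | N a = n} := by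
    have h5 : #(Set.Iio (ω_ 1 : Ordinal.{u})) = ℵ_ 1 := by
      rw [Cardinal.mk_Iio_ordinal, card_omega, lift_aleph]
      simp
    have h6 : ℵ_ 1 ≤ #{a | N a = n} := by
      rw [← succ_aleph0, Order.succ_le_iff]
      by_contra h7
      exact hn (le_aleph0_iff_set_countable.1 (not_lt.1 h7))
    refine le_trans ?_ h6
    rw [mk_prod, h5, mk_nat, lift_aleph0, Cardinal.lift_uzero, mul_aleph0_eq (aleph0_le_aleph 1)]
  obtain ⟨h⟩ := h4
  refine ⟨fun ξ => if hx : ∃ p, (h p).1 < ξ ∧ f ξ (h p).1 = n then hx.choose else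
    Classical.arbitrary _, ?_⟩
  intro p
  have h5 : IsStationary ({ξ ∈ Set.Ioi (h p).1 | f ξ (h p).1 = N (h p).1} ∩ Set.Ioi p.1) :=
    hW.inter_club (hN (h p).1) (hW.isClub_Ioi p.1)
  refine h5.mono ?_
  rintro ξ ⟨⟨h6, h7⟩, h8⟩
  refine ⟨?_, h8⟩
  rw [(h p).2] at h7
  have hx : ∃ p, (h p).1 < ξ ∧ f ξ (h p).1 = n := ⟨p, h6, h7⟩
  show (if hx : ∃ p, (h p).1 < ξ ∧ f ξ (h p).1 = n then hx.choose else _) = p
  rw [dif_pos hx]
  have h9 := hx.choose_spec
  have h10 := hf ξ h9.1 h6 (h9.2.trans h7.symm)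
  exact h.injective (Subtype.ext h10)

end H94W
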