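import Pool.Agent.Lib.H94W.Defs

/-!
# Project Woodin, chunk F: basic facts on stationary sets and conditions
-/

set_option autoImplicit false

namespace H94W

open Ordinal Cardinal ZFSet

universe u v w

/-! ### Closures and combinations of countable families -/

/-- The closure of `S` under the family `F` and pairing. -/
inductive FCl (F : ℕ → ZFSet.{u} → ZFSet.{u}) (S : Set ZFSet.{u}) : ZFSet.{u} → Prop
  | base {x : ZFSet.{u}} : x ∈ S → FCl F S x
  | emp : FCl F S ∅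
  | fn (n : ℕ) {x : ZFSet.{u}} (h : FCl F S x) : FCl F S (F n x)
  | pr {x y : ZFSet.{u}} : FCl F S x → FCl F S y → FCl F S (pair x y)

/-- One step of the closure. -/
def fclStep (F : ℕ → ZFSet.{u} → ZFSet.{u}) (S : Set ZFSet.{u}) : Set ZFSet.{u} :=
  S ∪ ((⋃ n, F n '' S) ∪ (fun p : ZFSet.{u} × ZFSet.{u} => pair p.1 p.2) '' (S ×ˢ S))

theorem fclStep_countable (F : ℕ → ZFSet.{u} → ZFSet.{u}) {S : Set ZFSet.{u}}
    (h : S.Countable) : (fclStep F S).Countable :=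
  h.union ((Set.countable_iUnion fun n => h.image _).union ((h.prod h).image _))

theorem fclStep_iterate_countable (F : ℕ → ZFSet.{u} → ZFSet.{u}) {S : Set ZFSet.{u}}
    (h : S.Countable) (k : ℕ) : ((fclStep F)^[k] S).Countable := by
  induction k with
  | zero => exact h
  | succ k ih =>
    rw [Function.iterate_succ_apply']
    exact fclStep_countable F ih

theorem fclStep_iterate_mono (F : ℕ → ZFSet.{u} → ZFSet.{u}) (S : Set ZFSet.{u}) :
    Monotone fun k : ℕ => (fclStep F)^[k] S := by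
  apply monotone_nat_of_le_succ
  intro k
  show (fclStep F)^[k] S ⊆ (fclStep F)^[k + 1] S
  rw [Function.iterate_succ_apply']
  exact Set.subset_union_left

theorem FCl.countable (F : ℕ → ZFSet.{u} → ZFSet.{u}) {S : Set ZFSet.{u}} (h : S.Countable) :
    {x | FCl F S x}.Countable := by
  have h1 : (insert ∅ S : Set ZFSet.{u}).Countable := h.insert ∅
  refine (Set.countable_iUnion fun k => fclStep_iterate_countable F h1 k).mono ?_
  intro x hx
  rw [Set.mem_iUnion]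
  induction hx with
  | base hx => exact ⟨0, Or.inr hx⟩
  | emp => exact ⟨0, Or.inl rfl⟩
  | fn n _ ih =>
    obtain ⟨k, hk⟩ := ih
    refine ⟨k + 1, ?_⟩
    rw [Function.iterate_succ_apply']
    exact Or.inr (Or.inl (Set.mem_iUnion.2 ⟨n, _, hk, rfl⟩))
  | pr _ _ ih1 ih2 =>
    obtain ⟨k, hk⟩ := ih1
    obtain ⟨l, hl⟩ := ih2
    refine ⟨max k l + 1, ?_⟩
    rw [Function.iterate_succ_apply']
    refine Or.inr (Or.inr ⟨(_, _), ⟨?_, ?_⟩, rfl⟩)
    · exact fclStep_iterate_mono F _ (le_max_left k l) hk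
    · exact fclStep_iterate_mono F _ (le_max_right k l) hl

theorem FCl.good (F : ℕ → ZFSet.{u} → ZFSet.{u}) {S : Set ZFSet.{u}} (h : S.Countable) :
    Good F {x | FCl F S x} :=
  ⟨FCl.countable F h, ⟨∅, FCl.emp⟩, fun n _ hx => FCl.fn n hx, fun _ hx _ hy => FCl.pr hx hy⟩

theorem FCl.mono {F : ℕ → ZFSet.{u} → ZFSet.{u}} {S T : Set ZFSet.{u}} (h : S ⊆ T)
    {x : ZFSet.{u}} (hx : FCl F S x) : FCl F T x := by
  induction hx with
  | base hx => exact FCl.base (h hx)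
  | emp => exact FCl.emp
  | fn n _ ih => exact FCl.fn n ih
  | pr _ _ ih1 ih2 => exact FCl.pr ih1 ih2

/-- The closure is finitary. -/
theorem FCl.directed {F : ℕ → ZFSet.{u} → ZFSet.{u}} {S : Set ZFSet.{u}} {ι : Type w}
    [Nonempty ι] {T : ι → Set ZFSet.{u}} (hT : ∀ i j, ∃ k, T i ⊆ T k ∧ T j ⊆ T k)
    (hS : ∀ x ∈ S, ∃ i, x ∈ T i) {x : ZFSet.{u}} (hx : FCl F S x) : ∃ i, FCl F (T i) x := by
  induction hx with
  | base hx =>
    obtain ⟨i, hi⟩ := hS _ hx
    exact ⟨i, FCl.base hi⟩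
  | emp => exact ⟨Classical.arbitrary ι, FCl.emp⟩
  | fn n _ ih =>
    obtain ⟨i, hi⟩ := ih
    exact ⟨i, FCl.fn n hi⟩
  | pr _ _ ih1 ih2 =>
    obtain ⟨i, hi⟩ := ih1
    obtain ⟨j, hj⟩ := ih2
    obtain ⟨k, h1, h2⟩ := hT i j
    exact ⟨k, FCl.pr (hi.mono h1) (hj.mono h2)⟩

/-- Combination of two countable families. -/
def fcomb (F G : ℕ → ZFSet.{u} → ZFSet.{u}) (n : ℕ) : ZFSet.{u} → ZFSet.{u} :=
  Sum.elim F G (Equiv.natSumNatEquivNat.symm n)

theorem good_fcomb {F G : ℕ → ZFSet.{u} → ZFSet.{u}} {X : Set ZFSet.{u}} :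
    Good (fcomb F G) X ↔ Good F X ∧ Good G X := by
  constructor
  · rintro ⟨h1, h2, h3, h4⟩
    refine ⟨⟨h1, h2, fun n x hx => ?_, h4⟩, ⟨h1, h2, fun n x hx => ?_, h4⟩⟩
    · have := h3 (Equiv.natSumNatEquivNat (Sum.inl n)) x hx
      simpa only [fcomb, Equiv.symm_apply_apply, Sum.elim_inl] using this
    · have := h3 (Equiv.natSumNatEquivNat (Sum.inr n)) x hx
      simpa only [fcomb, Equiv.symm_apply_apply, Sum.elim_inr] using this
  · rintro ⟨⟨h1, h2, h3, h4⟩, ⟨_, _, h5, _⟩⟩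
    refine ⟨h1, h2, fun n x hx => ?_, h4⟩
    unfold fcomb
    rcases Equiv.natSumNatEquivNat.symm n with m | m
    · exact h3 m x hx
    · exact h5 m x hx

/-- Given countably many (indexed) countable families and a countable set there is a countable
set closed under the first family containing the second. -/
theorem exists_good (F : ℕ → ZFSet.{u} → ZFSet.{u}) (S : Set ZFSet.{u}) (hS : S.Countable) :
    ∃ X, Good F X ∧ S ⊆ X :=
  ⟨{x | FCl F S x}, FCl.good F hS, fun _ hx => FCl.base hx⟩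

theorem Ltd.union {δ : Ordinal.{u}} {η ζ : ZFSet.{u}} (h1 : Ltd δ η) (h2 : Ltd δ ζ) :
    Ltd δ (η ∪ ζ) := by
  obtain ⟨α, hα, rfl⟩ := h1
  obtain ⟨β, hβ, rfl⟩ := h2
  rcases le_total α β with h | h
  · refine ⟨β, hβ, ?_⟩
    have h3 : α.toZFSet ⊆ β.toZFSet := toZFSet_subset_toZFSet_iff.2 h
    ext y
    rw [mem_union]
    exact ⟨fun h4 => h4.elim (fun h5 => h3 h5) id, Or.inr⟩
  · refine ⟨α, hα, ?_⟩
    have h3 : β.toZFSet ⊆ α.toZFSet := toZFSet_subset_toZFSet_iff.2 h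
    ext y
    rw [mem_union]
    exact ⟨fun h4 => h4.elim id (fun h5 => h3 h5), Or.inl⟩

/-- The set `DOM η` is stationary. -/
theorem stat_DOM (η : ZFSet.{u}) : Stat η (DOM η) := by
  intro F
  obtain ⟨X, hX, _⟩ := exists_good F ∅ Set.countable_empty
  exact ⟨X, hX, trc_mem_DOM hX.1 η⟩

/-- Stationary sets cannot be split into two nonstationary ones. -/
theorem Stat.split {η a : ZFSet.{u}} (h : Stat η a) (p : ZFSet.{u} → Prop) :
    Stat η (ZFSet.sep p a) ∨ Stat η (ZFSet.sep (fun x => ¬ p x) a) := by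
  by_contra hcon
  rw [not_or] at hcon
  obtain ⟨h1, h2⟩ := hcon
  unfold Stat at h1 h2
  push Not at h1 h2
  obtain ⟨F, hF⟩ := h1
  obtain ⟨G, hG⟩ := h2
  obtain ⟨X, hX, hXa⟩ := h (fcomb F G)
  rw [good_fcomb] at hX
  by_cases hp : p (trc X η)
  · exact hF X hX.1 (mem_sep.2 ⟨hXa, hp⟩)
  · exact hG X hX.2 (mem_sep.2 ⟨hXa, hp⟩)

theorem Stat.mono {η a b : ZFSet.{u}} (h : Stat η a) (hab : a ⊆ b) : Stat η b := by
  intro F
  obtain ⟨X, hX, hXa⟩ := h F
  exact ⟨X, hX, hab hXa⟩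

/-- Club many `x` contain any given element of `V_η`. -/
theorem not_stat_notMem {η x : ZFSet.{u}} (hx : x ∈ V_ (rank η)) :
    ¬ Stat η (ZFSet.sep (fun y => x ∉ y) (DOM η)) := by
  intro h
  obtain ⟨X, hX, hXa⟩ := h (fun _ _ => x)
  rw [mem_sep] at hXa
  obtain ⟨y, hy⟩ := hX.2.1
  exact hXa.2 (mem_trc.2 ⟨hX.2.2.1 0 y hy, hx⟩)

/-- Lifting of stationary sets. -/
theorem stat_lift {η ζ a : ZFSet.{u}} (h : rank η ≤ rank ζ) (ha : Stat η a) :
    Stat ζ (ZFSet.sep (fun x => restr x η ∈ a) (DOM ζ)) := by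
  intro F
  obtain ⟨X, hX, hXa⟩ := ha F
  refine ⟨X, hX, mem_sep.2 ⟨trc_mem_DOM hX.1 ζ, ?_⟩⟩
  rw [restr_trc h]
  exact hXa

/-- Projection of stationary sets. -/
theorem stat_proj {η ζ a : ZFSet.{u}} (h : rank η ≤ rank ζ)
    (ha : Stat ζ (ZFSet.sep (fun x => restr x η ∈ a) (DOM ζ))) : Stat η a := by
  intro F
  obtain ⟨X, hX, hXa⟩ := ha F
  refine ⟨X, hX, ?_⟩
  have := (mem_sep.1 hXa).2
  rwa [restr_trc h] at this

theorem fodor_rank_left (η ζ : ZFSet.{u}) : rank η ≤ rank (η ∪ ζ) := by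
  rw [rank_union]; exact le_max_left _ _

theorem fodor_rank_right (η ζ : ZFSet.{u}) : rank ζ ≤ rank (η ∪ ζ) := by
  rw [rank_union]; exact le_max_right _ _

theorem trc_mem_meet {t t' : ZFSet.{u}} {X : Set ZFSet.{u}} (hX : X.Countable) :
    trc X (zfst t ∪ zfst t') ∈ meet t t' ↔ In X t ∧ In X t' := by
  unfold meet In
  rw [mem_sep, restr_trc (fodor_rank_left _ _), restr_trc (fodor_rank_right _ _)]
  exact and_iff_right (trc_mem_DOM hX _)

theorem compat_iff {δ : Ordinal.{u}} {t t' : ZFSet.{u}} (h1 : IsCond δ t) (h2 : IsCond δ t') :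
    Compat t t' ↔ Stat (zfst t ∪ zfst t') (meet t t') := by
  have _ := h1
  have _ := h2
  constructor
  · intro h F
    obtain ⟨X, hX, h3, h4⟩ := h F
    exact ⟨X, hX, (trc_mem_meet hX.1).2 ⟨h3, h4⟩⟩
  · intro h F
    obtain ⟨X, hX, h3⟩ := h F
    exact ⟨X, hX, (trc_mem_meet hX.1).1 h3⟩

theorem IsCond.fodor_ltd {δ : Ordinal.{u}} {t : ZFSet.{u}} (h : IsCond δ t) : Ltd δ (zfst t) := by
  obtain ⟨η, a, h1, _, _, rfl⟩ := h
  rwa [zfst_pair]

theorem isCond_meet {δ : Ordinal.{u}} {t t' : ZFSet.{u}} (h1 : IsCond δ t) (h2 : IsCond δ t')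
    (h : Compat t t') : IsCond δ (pair (zfst t ∪ zfst t') (meet t t')) ∧
      Le (pair (zfst t ∪ zfst t') (meet t t')) t ∧ Le (pair (zfst t ∪ zfst t') (meet t t')) t' := by
  refine ⟨⟨_, _, h1.fodor_ltd.union h2.fodor_ltd, ?_, (compat_iff h1 h2).1 h, rfl⟩, ⟨?_, ?_⟩, ⟨?_, ?_⟩⟩
  · intro x hx
    exact (mem_sep.1 hx).1
  · rw [zfst_pair]
    intro y hy
    exact mem_union.2 (Or.inl hy)
  · rw [zsnd_pair]
    intro x hx
    exact (mem_sep.1 hx).2.1
  · rw [zfst_pair]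
    intro y hy
    exact mem_union.2 (Or.inr hy)
  · rw [zsnd_pair]
    intro x hx
    exact (mem_sep.1 hx).2.2

/-- Extending a condition into a predense set, by a class function. -/
theorem exists_ext (δ : Ordinal.{u}) : ∃ ex : ZFSet.{u} → ZFSet.{u}, ∀ D t, Pred δ D →
    IsCond δ t → ∃ t' d, ex (pair D t) = pair t' d ∧ IsCond δ t' ∧ d ∈ D ∧ Le t' t ∧ Le t' d := by
  have key : ∀ p : ZFSet.{u}, ∃ q : ZFSet.{u}, ∀ D t, p = pair D t → Pred δ D →
      IsCond δ t → ∃ t' d, q = pair t' d ∧ IsCond δ t' ∧ d ∈ D ∧ Le t' t ∧ Le t' d := by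
    intro p
    by_cases h : Pred δ (zfst p) ∧ IsCond δ (zsnd p)
    · obtain ⟨hD, ht⟩ := h
      obtain ⟨d, hd, hc⟩ := hD.2 _ ht
      obtain ⟨h1, h2, h3⟩ := isCond_meet ht (hD.1 d hd) hc
      refine ⟨pair (pair (zfst (zsnd p) ∪ zfst d) (meet (zsnd p) d)) d, ?_⟩
      intro D t hp _ _
      subst hp
      rw [zfst_pair] at hd
      rw [zsnd_pair] at h1 h2 h3 ⊢
      exact ⟨_, d, rfl, h1, hd, h2, h3⟩
    · refine ⟨∅, ?_⟩
      intro D t hp hD ht
      subst hp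
      rw [zfst_pair, zsnd_pair] at h
      exact absurd ⟨hD, ht⟩ h
  choose ex hex using key
  exact ⟨ex, fun D t hD ht => hex (pair D t) D t rfl hD ht⟩

/-! ### Normality -/

/-- The pressing-down lemma. -/
theorem Stat.press {ξ b : ZFSet.{u}} (hb : Stat ξ b) (g : ZFSet.{u} → ZFSet.{u})
    {z : ZFSet.{u}} (hz : Ctbl z) (hg : ∀ x ∈ b, g x ∈ x ∨ g x ∈ z) :
    ∃ c, Stat ξ (ZFSet.sep (fun x => g x = c) b) := by
  by_contra hcon
  push Not at hcon
  have h1 : ∀ c, ∃ F : ℕ → ZFSet.{u} → ZFSet.{u}, ∀ X, Good F X →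
      trc X ξ ∉ ZFSet.sep (fun x => g x = c) b := by
    intro c
    have := hcon c
    unfold Stat at this
    push Not at this
    exact this
  choose F hF using h1
  obtain ⟨e, he⟩ := (Set.Countable.insert ∅ hz).exists_eq_range ⟨∅, Or.inl rfl⟩
  obtain ⟨X, hX, hXb⟩ := hb (fcomb (fun n p => F (zfst p) n (zsnd p)) (fun n _ => e n))
  rw [good_fcomb] at hX
  obtain ⟨hX1, hX2⟩ := hX
  have hzX : ∀ c ∈ z, c ∈ X := by
    intro c hc
    have : c ∈ Set.range e := by rw [← he]; exact Or.inr hc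
    obtain ⟨n, rfl⟩ := this
    obtain ⟨y, hy⟩ := hX2.2.1
    exact hX2.2.2.1 n y hy
  have hcX : g (trc X ξ) ∈ X := by
    rcases hg _ hXb with h2 | h2
    · exact (mem_trc.1 h2).1
    · exact hzX _ h2
  refine hF (g (trc X ξ)) X ⟨hX1.1, hX1.2.1, ?_, hX1.2.2.2⟩ (mem_sep.2 ⟨hXb, rfl⟩)
  intro n x hx
  have := hX1.2.2.1 n _ (hX1.2.2.2 _ hcX _ hx)
  simpa only [zfst_pair, zsnd_pair] using this

theorem IsCond.fodor_mem_V {δ : Ordinal.{u}} {t : ZFSet.{u}} (h : IsCond δ t) :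
    t ∈ V_ (Order.succ (Order.succ (Order.succ δ))) := by
  obtain ⟨η, a, ⟨α, hα, rfl⟩, h2, _, rfl⟩ := h
  rw [mem_vonNeumann]
  have hr : rank a ≤ Order.succ α := by
    have h3 : DOM α.toZFSet ⊆ powerset (V_ (rank α.toZFSet)) := fun x hx => (mem_sep.1 hx).1
    have h4 := rank_mono (h2.trans h3)
    rwa [rank_powerset, rank_vonNeumann, rank_toZFSet] at h4
  have hr2 : rank a ≤ δ := hr.trans (Order.succ_le_of_lt hα)
  have h5 : rank (pair α.toZFSet a) ≤ Order.succ (Order.succ δ) := by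
    unfold ZFSet.pair
    rw [rank_pair, rank_singleton, rank_pair, rank_toZFSet, max_le_iff]
    have h6 : Order.succ α ≤ Order.succ δ := Order.succ_le_succ hα.le
    have h7 : Order.succ (rank a) ≤ Order.succ δ := Order.succ_le_succ hr2
    exact ⟨Order.succ_le_succ h6, Order.succ_le_succ (max_le h6 h7)⟩
  exact h5.trans_lt (Order.lt_succ _)

/-- Fodor's lemma, as predense sets given by a class function: densely, `f` is either nowhere in
`x ∪ z` or constant. -/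
theorem fodor (δ : Ordinal.{u}) : ∃ nD nC : ZFSet.{u} → ZFSet.{u}, ∀ η f z, Ltd δ η → Ctbl z →
    Pred δ (nD (pair η (pair f z))) ∧
    ∀ t ∈ nD (pair η (pair f z)), η ⊆ zfst t ∧
      ((∀ x ∈ zsnd t, zapp f (restr x η) ∉ restr x η ∧ zapp f (restr x η) ∉ z) ∨
        ∀ x ∈ zsnd t, zapp f (restr x η) = nC (pair t (pair η (pair f z)))) := by
  classical
  refine ⟨fun p => ZFSet.sep (fun t => IsCond δ t ∧ zfst p ⊆ zfst t ∧
      ((∀ x ∈ zsnd t, zapp (zfst (zsnd p)) (restr x (zfst p)) ∉ restr x (zfst p) ∧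
          zapp (zfst (zsnd p)) (restr x (zfst p)) ∉ zsnd (zsnd p)) ∨
        ∃ c, ∀ x ∈ zsnd t, zapp (zfst (zsnd p)) (restr x (zfst p)) = c))
      (V_ (Order.succ (Order.succ (Order.succ δ)))),
    fun q => if h : ∃ c, ∀ x ∈ zsnd (zfst q),
      zapp (zfst (zsnd (zsnd q))) (restr x (zfst (zsnd q))) = c then h.choose else ∅, ?_⟩
  intro η f z hη hz
  simp only [zfst_pair, zsnd_pair]
  refine ⟨⟨?_, ?_⟩, ?_⟩
  · intro t ht
    exact (mem_sep.1 ht).2.1
  · rintro t ⟨ζ, a, hζ, ha1, ha2, rfl⟩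
    have hξ : Ltd δ (ζ ∪ η) := hζ.union hη
    -- every stationary subset of the lift gives a condition compatible with `t`
    have hcomp : ∀ b, Stat (ζ ∪ η) b →
        b ⊆ ZFSet.sep (fun x => restr x ζ ∈ a) (DOM (ζ ∪ η)) →
        IsCond δ (pair (ζ ∪ η) b) ∧ Compat (pair ζ a) (pair (ζ ∪ η) b) := by
      intro b hb hba
      refine ⟨⟨_, b, hξ, fun x hx => (mem_sep.1 (hba hx)).1, hb, rfl⟩, ?_⟩
      intro F
      obtain ⟨X, hX, hXb⟩ := hb F
      refine ⟨X, hX, ?_, ?_⟩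
      · unfold In
        rw [zfst_pair, zsnd_pair]
        have := (mem_sep.1 (hba hXb)).2
        rwa [restr_trc (fodor_rank_left _ _)] at this
      · unfold In
        rw [zfst_pair, zsnd_pair]
        exact hXb
    have hηs : η ⊆ ζ ∪ η := fun y hy => mem_union.2 (Or.inr hy)
    have hlift := stat_lift (fodor_rank_left ζ η) ha2
    rcases hlift.split (fun x => zapp f (restr x η) ∉ restr x η ∧ zapp f (restr x η) ∉ z) with
      h1 | h1
    · obtain ⟨h2, h3⟩ := hcomp _ h1 (fun x hx => (mem_sep.1 hx).1)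
      refine ⟨_, mem_sep.2 ⟨h2.fodor_mem_V, h2, ?_, ?_⟩, h3⟩
      · rw [zfst_pair]; exact hηs
      · left
        rw [zsnd_pair]
        intro x hx
        exact (mem_sep.1 hx).2
    · obtain ⟨c, hc⟩ := h1.press (fun x => zapp f (restr x η)) hz (by
        intro x hx
        have h4 := (mem_sep.1 hx).2
        by_contra h5
        rw [not_or] at h5
        exact h4 ⟨fun h6 => h5.1 (mem_restr.1 h6).1, h5.2⟩)
      obtain ⟨h2, h3⟩ := hcomp _ hc (fun x hx => (mem_sep.1 (mem_sep.1 hx).1).1)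
      refine ⟨_, mem_sep.2 ⟨h2.fodor_mem_V, h2, ?_, ?_⟩, h3⟩
      · rw [zfst_pair]; exact hηs
      · right
        refine ⟨c, ?_⟩
        rw [zsnd_pair]
        intro x hx
        exact (mem_sep.1 hx).2
  · intro t ht
    obtain ⟨_, _, h1, h2⟩ := mem_sep.1 ht
    refine ⟨h1, ?_⟩
    rcases h2 with h2 | h2
    · exact Or.inl h2
    · right
      rw [dif_pos h2]
      exact h2.choose_spec

/-! ### The trace on `ω₁` -/

theorem fodor_countable_Iio {α : Ordinal.{u}} (h : α < ω_ 1) : (Set.Iio α).Countable := by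
  rw [← Set.countable_coe_iff, ← Cardinal.mk_le_aleph0_iff, Cardinal.mk_Iio_ordinal]
  have h1 : α.card < ℵ_ 1 := by
    rw [← Cardinal.lt_ord, Cardinal.ord_aleph]
    exact h
  have h2 : α.card ≤ ℵ₀ := by
    rw [← Order.lt_succ_iff, Cardinal.succ_aleph0]
    exact h1
  rwa [Cardinal.lift_le_aleph0]

theorem ctbl_toZFSet {α : Ordinal.{u}} (h : α < ω_ 1) : Ctbl α.toZFSet := by
  unfold Ctbl
  have h1 : {y | y ∈ α.toZFSet} = toZFSet '' Set.Iio α := by
    ext y
    rw [Set.mem_ofPred_eq, mem_toZFSet_iff]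
    rfl
  rw [h1]
  exact (fodor_countable_Iio h).image _

open Classical in
/-- Enumeration of countable sets. -/
noncomputable def enumF (n : ℕ) (x : ZFSet.{u}) : ZFSet.{u} :=
  if h : Ctbl x ∧ {y | y ∈ x}.Nonempty then (h.1.exists_eq_range h.2).choose n else ∅

theorem mem_of_enumF {X : Set ZFSet.{u}} (hX : Good enumF X) {x y : ZFSet.{u}} (hx : x ∈ X)
    (hc : Ctbl x) (hy : y ∈ x) : y ∈ X := by
  have h : Ctbl x ∧ {y | y ∈ x}.Nonempty := ⟨hc, y, hy⟩
  have h1 := (h.1.exists_eq_range h.2).choose_spec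
  have h2 : y ∈ Set.range (h.1.exists_eq_range h.2).choose := by
    rw [← h1]; exact hy
  obtain ⟨n, hn⟩ := h2
  have h3 := hX.2.2.1 n x hx
  unfold enumF at h3
  rw [dif_pos h, hn] at h3
  exact h3

/-- The countable subsets of `V_{ω₁}` whose trace on `ω₁` is not an ordinal are not
stationary. -/
theorem not_stat_not_ord :
    ¬ Stat (ω_ 1 : Ordinal.{u}).toZFSet
      (ZFSet.sep (fun x => ¬ IsOrdinal (ZFSet.sep (fun y => y ∈ (ω_ 1 : Ordinal.{u}).toZFSet) x))
        (DOM (ω_ 1 : Ordinal.{u}).toZFSet)) := by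
  intro h
  obtain ⟨X, hX, hXa⟩ := h enumF
  apply (mem_sep.1 hXa).2
  rw [isOrdinal_iff_forall_mem_isOrdinal]
  constructor
  · intro y hy z hz
    rw [mem_sep, mem_trc] at hy ⊢
    obtain ⟨⟨hy1, hy2⟩, hy3⟩ := hy
    have hy4 := hy3
    rw [mem_toZFSet_iff] at hy3
    obtain ⟨α, hα, rfl⟩ := hy3
    refine ⟨⟨mem_of_enumF hX hy1 (ctbl_toZFSet hα) hz, ?_⟩, ?_⟩
    · rw [mem_vonNeumann] at hy2 ⊢
      exact (rank_lt_of_mem hz).trans hy2
    · exact (isOrdinal_toZFSet _).mem_trans hz hy4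
  · intro y hy
    exact (isOrdinal_toZFSet _).mem (mem_sep.1 hy).2

/-- A stationary subset of `ω₁` gives a stationary set of countable subsets of `V_{ω₁}`. -/
theorem stat_of_stationary {s : ZFSet.{u}} (hs : s ⊆ (ω_ 1 : Ordinal.{u}).toZFSet)
    (h : IsStationary {a : Set.Iio (ω_ 1 : Ordinal.{u}) | (a : Ordinal.{u}).toZFSet ∈ s}) :
    Stat (ω_ 1 : Ordinal.{u}).toZFSet
      (ZFSet.sep (fun x => ZFSet.sep (fun y => y ∈ (ω_ 1 : Ordinal.{u}).toZFSet) x ∈ s)
        (DOM (ω_ 1 : Ordinal.{u}).toZFSet)) := by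
  have _ := hs
  intro F
  let T : Ordinal.{u} → Set ZFSet.{u} := fun α => toZFSet '' Set.Iio α
  have hTm : ∀ α β : Ordinal.{u}, α ≤ β → T α ⊆ T β := fun α β hab =>
    Set.image_mono (Set.Iio_subset_Iio hab)
  have hTd : ∀ α β : Ordinal.{u}, T α ⊆ T (max α β) ∧ T β ⊆ T (max α β) := fun α β =>
    ⟨hTm _ _ (le_max_left _ _), hTm _ _ (le_max_right _ _)⟩
  let C : Set (Set.Iio (ω_ 1 : Ordinal.{u})) :=
    {a | ∀ β : Ordinal.{u}, β < ω_ 1 → FCl F (T a) β.toZFSet → β < a}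
  have hC : IsClub C := by
    constructor
    · intro d hd hne _ a ha β hβ hcl
      have hne' : Nonempty d := hne.to_subtype
      have h1 : ∃ b : d, FCl F (T (b : Set.Iio (ω_ 1 : Ordinal.{u}))) β.toZFSet := by
        refine FCl.directed (T := fun b : d => T (b : Set.Iio (ω_ 1 : Ordinal.{u}))) ?_ ?_ hcl
        · intro b c
          rcases le_total (b : Set.Iio (ω_ 1 : Ordinal.{u})) c with hbc | hbc
          · exact ⟨c, hTm _ _ hbc, subset_rfl⟩
          · exact ⟨b, subset_rfl, hTm _ _ hbc⟩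
        · rintro x ⟨γ, hγ, rfl⟩
          have hγ1 : γ < ω_ 1 := (show γ < (a : Ordinal.{u}) from hγ).trans a.2
          have hγ2 : (⟨γ, hγ1⟩ : Set.Iio (ω_ 1 : Ordinal.{u})) < a := hγ
          obtain ⟨b, hb, hb2, _⟩ := ha.exists_between hγ2
          exact ⟨⟨b, hb⟩, γ, hb2, rfl⟩
      obtain ⟨⟨b, hb⟩, hb1⟩ := h1
      have h2 : β < b := hd hb β hβ hb1
      exact lt_of_lt_of_le h2 (ha.1 hb)
    · intro a
      -- the next step
      have hstep : ∀ b : Set.Iio (ω_ 1 : Ordinal.{u}), ∃ c : Set.Iio (ω_ 1 : Ordinal.{u}),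
          b ≤ c ∧ ∀ β : Ordinal.{u}, β < ω_ 1 → FCl F (T b) β.toZFSet → β < c := by
        intro b
        let B : Set Ordinal.{u} := {β | β < ω_ 1 ∧ FCl F (T b) β.toZFSet}
        have hB : B.Countable := by
          have h1 : {x | FCl F (T b) x}.Countable :=
            FCl.countable F ((fodor_countable_Iio b.2).image _)
          have h2 : toZFSet '' B ⊆ {x | FCl F (T b) x} := by
            rintro x ⟨β, hβ, rfl⟩
            exact hβ.2
          exact Set.countable_of_injective_of_countable_image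
            (toZFSet_injective.injOn) (h1.mono h2)
        have hBc : Countable B := hB.to_subtype
        have hlim : Order.IsSuccLimit (ω_ 1 : Ordinal.{u}) := isSuccLimit_omega 1
        have h3 : (⨆ β : B, Order.succ (β : Ordinal.{u})) < ω_ 1 := by
          apply Ordinal.iSup_lt_omega_one
          intro β
          exact hlim.succ_lt β.2.1
        have h4 : max (b : Ordinal.{u}) (⨆ β : B, Order.succ (β : Ordinal.{u})) < ω_ 1 :=
          max_lt b.2 h3
        refine ⟨⟨_, h4⟩, ?_, ?_⟩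
        · exact le_max_left (b : Ordinal.{u}) _
        · intro β hβ hcl
          have h5 : Order.succ β ≤ ⨆ β : B, Order.succ (β : Ordinal.{u}) :=
            le_ciSup (f := fun β : B => Order.succ (β : Ordinal.{u})) Ordinal.bddAbove_of_small
              (⟨β, hβ, hcl⟩ : B)
          exact lt_of_lt_of_le (Order.lt_succ β) (h5.trans (le_max_right _ _))
      choose f hf1 hf2 using hstep
      let g : ℕ → Set.Iio (ω_ 1 : Ordinal.{u}) := fun n => f^[n] a
      have hg : ∀ n, g (n + 1) = f (g n) := fun n => Function.iterate_succ_apply' f n a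
      have hgm : Monotone g := by
        apply monotone_nat_of_le_succ
        intro n
        rw [hg]
        exact hf1 _
      have h6 : (⨆ n : ℕ, (g n : Ordinal.{u})) < ω_ 1 :=
        Ordinal.iSup_lt_omega_one fun n => (g n).2
      have h7 : ∀ n, (g n : Ordinal.{u}) ≤ ⨆ n : ℕ, (g n : Ordinal.{u}) := fun n =>
        le_ciSup (f := fun n : ℕ => (g n : Ordinal.{u})) Ordinal.bddAbove_of_small n
      refine ⟨⟨_, h6⟩, ?_, h7 0⟩
      intro β hβ hcl
      have h8 : ∃ n : ℕ, FCl F (T (g n)) β.toZFSet := by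
        refine FCl.directed (T := fun n : ℕ => T (g n)) ?_ ?_ hcl
        · intro m n
          exact ⟨max m n, hTm _ _ (hgm (le_max_left m n)), hTm _ _ (hgm (le_max_right m n))⟩
        · rintro x ⟨γ, hγ, rfl⟩
          obtain ⟨n, hn⟩ := exists_lt_of_lt_ciSup (show γ < ⨆ n : ℕ, (g n : Ordinal.{u}) from hγ)
          exact ⟨n, γ, hn, rfl⟩
      obtain ⟨n, hn⟩ := h8
      have h9 : β < f (g n) := hf2 (g n) β hβ hn
      rw [← hg] at h9
      exact lt_of_lt_of_le h9 (h7 (n + 1))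
  obtain ⟨a, ha, haC⟩ := h hC
  have hcount : (T a).Countable := (fodor_countable_Iio a.2).image _
  have hgood := FCl.good F hcount
  refine ⟨_, hgood, mem_sep.2 ⟨trc_mem_DOM hgood.1 _, ?_⟩⟩
  have hkey : ZFSet.sep (fun y => y ∈ (ω_ 1 : Ordinal.{u}).toZFSet)
      (trc {x | FCl F (T a) x} (ω_ 1 : Ordinal.{u}).toZFSet) = (a : Ordinal.{u}).toZFSet := by
    ext y
    rw [mem_sep, mem_trc, mem_toZFSet_iff, mem_toZFSet_iff]
    constructor
    · rintro ⟨⟨h1, _⟩, β, hβ, rfl⟩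
      exact ⟨β, haC β hβ h1, rfl⟩
    · rintro ⟨β, hβ, rfl⟩
      have hβ1 : β < ω_ 1 := (show β < (a : Ordinal.{u}) from hβ).trans a.2
      refine ⟨⟨FCl.base ⟨β, hβ, rfl⟩, ?_⟩, β, hβ1, rfl⟩
      rw [mem_vonNeumann, rank_toZFSet, rank_toZFSet]
      exact hβ1
  rw [hkey]
  exact ha

end H94W
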