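import Pool.Agent.Lib.H94W.KeyLemma
import Pool.Agent.Lib.H94W.Fodor

/-!
# Project Woodin, chunk C: Woodin cardinals have the capturing property

One step.  Let `𝒟` be predense, `ζ < δ`, `κ > ζ` and `F'` from `key_lemma`; let `X` be closed
under `F'` and under the class functions `(κ, h) ↦ zlam (V_ κ) (fun y => F_n (zapp h y))`
(for each function `F_n` of the countable family under consideration, which we assume to be
closed under this operation), `(κ, x) ↦ zlam (V_ κ) (fun _ => x)`,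
`(κ, (h, h')) ↦ zlam (V_ κ) (fun y => pair (zapp h (zfst y)) (zapp h' (zsnd y)))`, the identity on
`V_ κ`, and `(κ, h) ↦ zlam (V_ κ) (fun y => zapp h y if it is in V_κ, and ∅ otherwise)`.
Let `Y`, `t`, `z` be given by `key_lemma` and `X' = {zapp h y | h ∈ X, y ∈ Y}`.  Then
`X ∪ Y ⊆ X'`, `X'` is countable and closed under all `F_n` and pairing, `X' ∩ V_κ = Y`
(a value `zapp h y ∈ V_κ` is `zapp h' y` for the clipped function `h' ⊆ V_κ`), so `t ∈ X'`,
`trc X' (zfst t) = z ∈ zsnd t`, and `X' ∩ V_ξ = X ∩ V_ξ` for all `ξ ∈ X ∩ κ`, e.g. `ξ = ζ ∈ X`.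
Iterate `ω` times with bookkeeping for all the predense sets in `⋃ X_n`, with `ζ_n ∈ X_n`
increasing and above all the `zfst t_i`, `i < n`, and above `zfst t` for the given condition `t`.
-/

set_option autoImplicit false

namespace H94W

open Ordinal Cardinal ZFSet

universe u v w

/-! ### Bookkeeping -/

/-- A bookkeeping argument: if every task of a state can be done in a larger state then there is
an increasing sequence of states in which all tasks get done. -/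
theorem capt_dovetail {S : Type v} {A : Type w} (le : S → S → Prop) (hrefl : ∀ s, le s s)
    (htrans : ∀ r s t, le r s → le s t → le r t) (T : S → Set A) (hT : ∀ s, (T s).Countable)
    (hmono : ∀ s t, le s t → T s ⊆ T t) (done : S → A → Prop)
    (step : ∀ s, ∀ a ∈ T s, ∃ t, le s t ∧ done t a) (s₀ : S) :
    ∃ s : ℕ → S, s 0 = s₀ ∧ (∀ m n, m ≤ n → le (s m) (s n)) ∧
      ∀ n, ∀ a ∈ T (s n), ∃ m, done (s m) a := by
  classical
  by_cases hA : Nonempty A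
  swap
  · refine ⟨fun _ => s₀, rfl, fun _ _ _ => hrefl _, fun n a => (hA ⟨a⟩).elim⟩
  have henum : ∀ s, ∃ e : ℕ → A, T s ⊆ Set.range e := fun s =>
    Set.countable_iff_exists_subset_range.1 (hT s)
  choose enum henum using henum
  have hnext : ∀ s a, ∃ t, le s t ∧ (a ∈ T s → done t a) := by
    intro s a
    by_cases ha : a ∈ T s
    · obtain ⟨t, h1, h2⟩ := step s a ha
      exact ⟨t, h1, fun _ => h2⟩
    · exact ⟨s, hrefl s, fun h => (ha h).elim⟩
  choose next hnext1 hnext2 using hnext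
  let acc : ℕ → S × (ℕ → ℕ → A) := fun n => Nat.rec (s₀, fun _ => enum s₀)
    (fun n p => (next p.1 (p.2 n.unpair.1 n.unpair.2),
      Function.update p.2 (n + 1) (enum (next p.1 (p.2 n.unpair.1 n.unpair.2))))) n
  have hacc1 : ∀ n, (acc (n + 1)).1 = next (acc n).1 ((acc n).2 n.unpair.1 n.unpair.2) :=
    fun n => rfl
  have hacc2 : ∀ n, (acc (n + 1)).2 = Function.update (acc n).2 (n + 1) (enum (acc (n + 1)).1) :=
    fun n => rfl
  have hen : ∀ n i, i ≤ n → (acc n).2 i = enum (acc i).1 := by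
    intro n
    induction n with
    | zero =>
      intro i hi
      obtain rfl : i = 0 := Nat.le_zero.1 hi
      rfl
    | succ n ih =>
      intro i hi
      rw [hacc2]
      rcases Nat.lt_or_eq_of_le hi with h | h
      · rw [Function.update_of_ne (by omega)]
        exact ih i (by omega)
      · subst h
        rw [Function.update_self]
  have hle1 : ∀ n, le (acc n).1 (acc (n + 1)).1 := by
    intro n
    rw [hacc1]
    exact hnext1 _ _
  have hle : ∀ m n, m ≤ n → le (acc m).1 (acc n).1 := by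
    intro m n h
    induction n with
    | zero =>
      obtain rfl : m = 0 := Nat.le_zero.1 h
      exact hrefl _
    | succ n ih =>
      rcases Nat.lt_or_eq_of_le h with h | h
      · exact htrans _ _ _ (ih (by omega)) (hle1 n)
      · subst h
        exact hrefl _
  refine ⟨fun n => (acc n).1, rfl, hle, ?_⟩
  intro n a ha
  obtain ⟨k, hk⟩ := henum _ ha
  refine ⟨Nat.pair n k + 1, ?_⟩
  show done (acc (Nat.pair n k + 1)).1 a
  rw [hacc1, Nat.unpair_pair]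
  show done (next _ ((acc (Nat.pair n k)).2 n k)) a
  rw [hen _ _ (Nat.left_le_pair n k), hk]
  exact hnext2 _ _ (hmono _ _ (hle n _ (Nat.left_le_pair n k)) ha)

/-! ### One step -/

/-- `X` is a countable set closed under all codes (with the list `P`). -/
def CaptCl (δ : Ordinal.{u}) (P : ℕ → ZFSet.{u} → ZFSet.{u}) (X : Set ZFSet.{u}) : Prop :=
  X.Countable ∧ X.Nonempty ∧ (∀ c, ∀ x ∈ X, eval δ P c x ∈ X) ∧ ∀ x ∈ X, ∀ y ∈ X, pair x y ∈ X

open Classical in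
/-- Clipping a function on `v` to values in `v`. -/
noncomputable def captClip (p : ZFSet.{u}) : ZFSet.{u} :=
  zlam (zfst p) fun y => if zapp (zsnd p) y ∈ zfst p then zapp (zsnd p) y else ∅

theorem capt_pair_mem {κ : Ordinal.{u}} (hκ : Order.IsSuccLimit κ) {x y : ZFSet.{u}}
    (hx : x ∈ V_ κ) (hy : y ∈ V_ κ) : pair x y ∈ V_ κ := by
  rw [mem_vonNeumann] at hx hy ⊢
  simp only [pair, ZFSet.rank_pair, ZFSet.rank_singleton]
  refine max_lt (hκ.succ_lt (hκ.succ_lt hx)) (hκ.succ_lt (max_lt (hκ.succ_lt hx) (hκ.succ_lt hy)))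

theorem capt_rank_zfst (t : ZFSet.{u}) : rank (zfst t) ≤ rank t := by
  by_cases h : ∃ x y, t = pair x y
  · obtain ⟨x, y, rfl⟩ := h
    rw [zfst_pair]
    have h2 : x ∈ ({x} : ZFSet) := by simp
    have h3 : ({x} : ZFSet) ∈ pair x y := by simp [pair]
    exact ((rank_lt_of_mem h2).trans (rank_lt_of_mem h3)).le
  · unfold zfst
    rw [dif_neg h, ZFSet.rank_empty]
    exact bot_le

theorem capt_step {δ : Ordinal.{u}} {P : ℕ → ZFSet.{u} → ZFSet.{u}} {X : Set ZFSet.{u}}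
    (hX : CaptCl δ P X) (hclip : ∃ k, P k = captClip) {κ : Ordinal.{u}}
    (hκ : Order.IsSuccLimit κ) (hVκ : V_ κ ∈ X) {Y : Set ZFSet.{u}} (hYc : Y.Countable)
    (hYne : Y.Nonempty) (hYκ : ∀ y ∈ Y, y ∈ V_ κ) (hYp : ∀ y ∈ Y, ∀ y' ∈ Y, pair y y' ∈ Y)
    (hYf : ∀ f ∈ X, f ⊆ V_ κ → ∀ y ∈ Y, zapp f y ∈ Y) :
    ∃ X' : Set ZFSet.{u}, CaptCl δ P X' ∧ X ⊆ X' ∧ Y ⊆ X' ∧ ∀ x ∈ X', x ∈ V_ κ → x ∈ Y := by
  classical
  obtain ⟨hXc, hXne, hXf, hXp⟩ := hX
  have hsub : X ⊆ {x | ∃ h ∈ X, ∃ y ∈ Y, x = zapp h y} := by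
    intro x hx
    obtain ⟨y, hy⟩ := hYne
    refine ⟨zlam (V_ κ) (fun _ => x), ?_, y, hy, ?_⟩
    · have := hXf (.lam .snd) _ (hXp _ hVκ _ hx)
      simpa [eval] using this
    · rw [zapp_zlam (hYκ y hy)]
  refine ⟨{x | ∃ h ∈ X, ∃ y ∈ Y, x = zapp h y}, ⟨?_, ?_, ?_, ?_⟩, hsub, ?_, ?_⟩
  · have : {x | ∃ h ∈ X, ∃ y ∈ Y, x = zapp h y} ⊆ (fun p : ZFSet.{u} × ZFSet.{u} =>
        zapp p.1 p.2) '' (X ×ˢ Y) := by
      rintro x ⟨h, hh, y, hy, rfl⟩
      exact ⟨(h, y), ⟨hh, hy⟩, rfl⟩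
    exact ((hXc.prod hYc).image _).mono this
  · exact hXne.mono hsub
  · rintro c x ⟨h, hh, y, hy, rfl⟩
    refine ⟨zlam (V_ κ) (fun y => eval δ P c (zapp h y)), ?_, y, hy, ?_⟩
    · have := hXf (.lam (.comp c (.comp .app (.pair .snd .fst)))) _ (hXp _ hVκ _ hh)
      simpa [eval] using this
    · rw [zapp_zlam (hYκ y hy)]
  · rintro x ⟨h, hh, y, hy, rfl⟩ x' ⟨h', hh', y', hy', rfl⟩
    refine ⟨zlam (V_ κ) (fun w => pair (zapp h (zfst w)) (zapp h' (zsnd w))), ?_,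
      pair y y', hYp _ hy _ hy', ?_⟩
    · have := hXf (.lam (.pair (.comp .app (.pair (.comp .fst .snd) (.comp .fst .fst)))
        (.comp .app (.pair (.comp .snd .snd) (.comp .snd .fst))))) _
        (hXp _ hVκ _ (hXp _ hh _ hh'))
      simpa [eval] using this
    · rw [zapp_zlam (hYκ _ (hYp _ hy _ hy'))]
      simp
  · intro y hy
    refine ⟨zlam (V_ κ) (fun y => y), ?_, y, hy, ?_⟩
    · have := hXf (.lam .fst) _ (hXp _ hVκ _ hVκ)
      simpa [eval] using this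
    · rw [zapp_zlam (hYκ y hy)]
  · rintro x ⟨h, hh, y, hy, rfl⟩ hx
    obtain ⟨k, hk⟩ := hclip
    have h1 : captClip (pair (V_ κ) h) ∈ X := by
      have := hXf (.prim k) _ (hXp _ hVκ _ hh)
      simpa [eval, hk] using this
    have h2 : captClip (pair (V_ κ) h) ⊆ V_ κ := by
      intro w hw
      unfold captClip at hw
      rw [mem_zlam] at hw
      obtain ⟨a, ha, rfl⟩ := hw
      rw [zfst_pair] at ha
      refine capt_pair_mem hκ ha ?_
      split_ifs with h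
      · rwa [zfst_pair] at h
      · rw [mem_vonNeumann, ZFSet.rank_empty]
        exact hκ.bot_lt
    have h3 := hYf _ h1 h2 y hy
    unfold captClip at h3
    rw [zapp_zlam (by rw [zfst_pair]; exact hYκ y hy), zfst_pair, zsnd_pair, if_pos hx] at h3
    exact h3

/-! ### The capturing property -/

/-- The state of the construction: a closed set and an ordinal in it. -/
structure CaptSt (δ : Ordinal.{u}) (P : ℕ → ZFSet.{u} → ZFSet.{u}) where
  X : Set ZFSet.{u}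
  ζ : Ordinal.{u}
  cl : CaptCl δ P X
  lt : ζ < δ
  mem : ζ.toZFSet ∈ X

theorem capt_of_woodin {δ : Ordinal.{u}} (hW : IsWoodin δ) : Capt δ := by
  classical
  intro F t₀ ht₀
  obtain ⟨η₀, a₀, ⟨α₀, hα₀, rfl⟩, ha₀, hs₀, rfl⟩ := ht₀
  -- the functions given by the key lemma
  have key : ∀ p : ZFSet.{u}, ∃ (κ : Ordinal.{u}) (F' : ℕ → ZFSet.{u} → ZFSet.{u}),
      ∀ D, ∀ ζ < δ, p = pair D ζ.toZFSet → Pred δ D → ζ < κ ∧ κ < δ ∧ Order.IsSuccLimit κ ∧
      ∀ X, Good F' X →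
        ∃ t ∈ D, t ∈ V_ κ ∧ ∃ z ∈ zsnd t, ∃ Y : Set ZFSet.{u}, Y.Countable ∧
          (∀ y ∈ Y, y ∈ V_ κ) ∧ t ∈ Y ∧ (∀ y ∈ z, y ∈ Y) ∧ (∀ y ∈ X, y ∈ V_ κ → y ∈ Y) ∧
          (∀ y ∈ Y, ∀ y' ∈ Y, pair y y' ∈ Y) ∧
          (∀ f ∈ X, f ⊆ V_ κ → ∀ y ∈ Y, zapp f y ∈ Y) ∧
          (∀ y ∈ Y, y ∈ V_ (rank (zfst t)) → y ∈ z) ∧
          ∀ ξ < κ, ξ.toZFSet ∈ X → ∀ y ∈ Y, y ∈ V_ ξ → y ∈ X := by
    intro p
    by_cases h : ∃ D, ∃ ζ < δ, p = pair D ζ.toZFSet ∧ Pred δ D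
    · obtain ⟨D, ζ, hζ, rfl, hD⟩ := h
      obtain ⟨κ, h1, h2, h3, F', h4⟩ := key_lemma hW D hD ζ hζ
      refine ⟨κ, F', ?_⟩
      intro D' ζ' _ he _
      rw [pair_inj] at he
      obtain ⟨rfl, he⟩ := he
      obtain rfl := Ordinal.toZFSet_injective he
      exact ⟨h1, h2, h3, h4⟩
    · refine ⟨0, fun _ => id, ?_⟩
      intro D ζ hζ he hD
      exact (h ⟨D, ζ, hζ, he, hD⟩).elim
  choose κf F' hkey using key
  -- the list of functions
  let fam : (ℕ ⊕ ℕ) ⊕ Fin 3 → ZFSet.{u} → ZFSet.{u} := fun i => match i with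
    | .inl (.inl n) => F n
    | .inl (.inr n) => fun q => F' (zfst q) n (zsnd q)
    | .inr 0 => captClip
    | .inr 1 => fun p => V_ (κf p)
    | .inr 2 => fun _ => α₀.toZFSet
  obtain ⟨en, hen⟩ := exists_surjective_nat ((ℕ ⊕ ℕ) ⊕ Fin 3)
  let P : ℕ → ZFSet.{u} → ZFSet.{u} := fun n => fam (en n)
  have hP : ∀ i, ∃ k, P k = fam i := by
    intro i
    obtain ⟨k, hk⟩ := hen i
    exact ⟨k, by show fam (en k) = fam i; rw [hk]⟩
  have hfam : ∀ X, CaptCl δ P X → ∀ i, ∀ x ∈ X, fam i x ∈ X := by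
    intro X hX i x hx
    obtain ⟨k, hk⟩ := hP i
    have := hX.2.2.1 (.prim k) x hx
    simpa [eval, hk] using this
  -- the states
  let le : CaptSt δ P → CaptSt δ P → Prop := fun s t =>
    s.X ⊆ t.X ∧ s.ζ ≤ t.ζ ∧ ∀ y ∈ t.X, y ∈ V_ s.ζ → y ∈ s.X
  let T : CaptSt δ P → Set ZFSet.{u} := fun s => {D | D ∈ s.X ∧ Pred δ D}
  let done : CaptSt δ P → ZFSet.{u} → Prop := fun s D =>
    ∃ t ∈ D, t ∈ s.X ∧ rank (zfst t) ≤ s.ζ ∧ In s.X t
  have hstep : ∀ s, ∀ D ∈ T s, ∃ t, le s t ∧ done t D := by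
    rintro s D ⟨hDX, hD⟩
    have hpX : pair D s.ζ.toZFSet ∈ s.X := s.cl.2.2.2 _ hDX _ s.mem
    obtain ⟨hζκ, hκδ, hκ, hgood⟩ := hkey (pair D s.ζ.toZFSet) D s.ζ s.lt rfl hD
    have hVκ : V_ (κf (pair D s.ζ.toZFSet)) ∈ s.X := hfam s.X s.cl (.inr 1) _ hpX
    generalize κf (pair D s.ζ.toZFSet) = κ at hζκ hκδ hκ hgood hVκ
    have hG : Good (F' (pair D s.ζ.toZFSet)) s.X := by
      refine ⟨s.cl.1, s.cl.2.1, ?_, s.cl.2.2.2⟩
      intro n x hx
      have := hfam s.X s.cl (.inl (.inr n)) _ (s.cl.2.2.2 _ hpX _ hx)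
      simpa [fam] using this
    obtain ⟨t, htD, htκ, z, hz, Y, hYc, hYκ, htY, hzY, hXY, hYp, hYf, hYz, hYX⟩ := hgood _ hG
    obtain ⟨X', hX', hXX', hYX', hX'Y⟩ := capt_step s.cl (hP (.inr 0)) hκ hVκ hYc ⟨t, htY⟩ hYκ hYp hYf
    obtain ⟨η, a, ⟨τ, hτ, rfl⟩, ha, -, rfl⟩ := hD.1 t htD
    have hτκ : rank τ.toZFSet < κ := by
      have h1 := capt_rank_zfst (pair τ.toZFSet a)
      rw [zfst_pair] at h1
      exact lt_of_le_of_lt h1 (mem_vonNeumann.1 htκ)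
    rw [rank_toZFSet] at hτκ
    have hτX' : τ.toZFSet ∈ X' := by
      have := hX'.2.2.1 .fst _ (hYX' htY)
      simpa [eval] using this
    have hmax : (max s.ζ τ).toZFSet ∈ X' := by
      rcases le_total s.ζ τ with h | h
      · rw [max_eq_right h]; exact hτX'
      · rw [max_eq_left h]; exact hXX' s.mem
    refine ⟨⟨X', max s.ζ τ, hX', max_lt s.lt hτ, hmax⟩, ⟨hXX', le_max_left _ _, ?_⟩,
      pair τ.toZFSet a, htD, hYX' htY, ?_, ?_⟩
    · intro y hy hyζ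
      have h1 : y ∈ V_ κ := vonNeumann_subset_of_le hζκ.le hyζ
      exact hYX s.ζ hζκ s.mem y (hX'Y y hy h1) hyζ
    · rw [zfst_pair, rank_toZFSet]
      exact le_max_right _ _
    · unfold In
      rw [zfst_pair, zsnd_pair]
      rw [zsnd_pair] at hz
      rw [zfst_pair] at hYz
      have : trc X' τ.toZFSet = z := by
        ext y
        rw [mem_trc]
        constructor
        · rintro ⟨h1, h2⟩
          refine hYz y (hX'Y y h1 ?_) h2
          rw [rank_toZFSet] at h2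
          exact vonNeumann_subset_of_le hτκ.le h2
        · intro h1
          refine ⟨hYX' (hzY y h1), ?_⟩
          have h2 := ha hz
          unfold DOM at h2
          rw [mem_sep, mem_powerset] at h2
          exact h2.1 h1
      rw [this]
      exact hz
  -- the first state
  have : Nonempty Code := ⟨.id⟩
  obtain ⟨cen, hcen⟩ := exists_surjective_nat Code
  obtain ⟨X₀, hX₀, hX₀a⟩ := hs₀ (fun n => eval δ P (cen n))
  have hcl₀ : CaptCl δ P X₀ := by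
    refine ⟨hX₀.1, hX₀.2.1, ?_, hX₀.2.2.2⟩
    intro c x hx
    obtain ⟨n, rfl⟩ := hcen c
    exact hX₀.2.2.1 n x hx
  have hα₀X : α₀.toZFSet ∈ X₀ := by
    obtain ⟨x, hx⟩ := hcl₀.2.1
    exact hfam X₀ hcl₀ (.inr 2) x hx
  obtain ⟨s, hs0, hsle, hsdone⟩ := capt_dovetail le
    (fun s => ⟨subset_rfl, le_rfl, fun _ h _ => h⟩)
    (fun r s t h1 h2 => ⟨h1.1.trans h2.1, h1.2.1.trans h2.2.1, fun y hy hyζ =>
      h1.2.2 y (h2.2.2 y hy (vonNeumann_subset_of_le h1.2.1 hyζ)) hyζ⟩)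
    T (fun s => s.cl.1.mono fun D hD => hD.1)
    (fun s t h D hD => ⟨h.1 hD.1, hD.2⟩) done hstep ⟨X₀, α₀, hcl₀, hα₀, hα₀X⟩
  -- the trace of the union
  have htrU : ∀ m, ∀ η : ZFSet.{u}, rank η ≤ (s m).ζ →
      trc (⋃ n, (s n).X) η = trc (s m).X η := by
    intro m η hη
    ext y
    rw [mem_trc, mem_trc, Set.mem_iUnion]
    constructor
    · rintro ⟨⟨k, hk⟩, hy⟩
      refine ⟨?_, hy⟩
      rcases le_total k m with h | h
      · exact (hsle k m h).1 hk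
      · exact (hsle m k h).2.2 y hk (vonNeumann_subset_of_le hη hy)
    · rintro ⟨h1, h2⟩
      exact ⟨⟨m, h1⟩, h2⟩
  refine ⟨⋃ n, (s n).X, ⟨Set.countable_iUnion fun n => (s n).cl.1, ?_, ?_, ?_⟩, ?_, ?_⟩
  · obtain ⟨x, hx⟩ := (s 0).cl.2.1
    exact ⟨x, Set.mem_iUnion.2 ⟨0, hx⟩⟩
  · intro n x hx
    obtain ⟨m, hm⟩ := Set.mem_iUnion.1 hx
    exact Set.mem_iUnion.2 ⟨m, hfam _ (s m).cl (.inl (.inl n)) x hm⟩
  · intro x hx y hy
    obtain ⟨m, hm⟩ := Set.mem_iUnion.1 hx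
    obtain ⟨k, hk⟩ := Set.mem_iUnion.1 hy
    refine Set.mem_iUnion.2 ⟨max m k, (s (max m k)).cl.2.2.2 _ ?_ _ ?_⟩
    · exact (hsle m _ (le_max_left _ _)).1 hm
    · exact (hsle k _ (le_max_right _ _)).1 hk
  · unfold In
    rw [zfst_pair, zsnd_pair, htrU 0 _ (by rw [hs0, rank_toZFSet]), hs0]
    exact hX₀a
  · intro D hD hpD
    obtain ⟨n, hn⟩ := Set.mem_iUnion.1 hD
    obtain ⟨m, t, htD, htX, htr, htI⟩ := hsdone n D ⟨hn, hpD⟩
    refine ⟨t, htD, Set.mem_iUnion.2 ⟨m, htX⟩, ?_⟩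
    unfold In
    rw [htrU m _ htr]
    exact htI

end H94W
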