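import Pool.Agent.Lib.H94W.Defs

/-!
# Project Woodin: nice sets and clipped functions
-/

set_option autoImplicit false

namespace H94W

open Ordinal Cardinal ZFSet

universe u v w

namespace NB

/-! ### Facts on nice sets in the universe -/

section

variable {δ : Ordinal.{u}} {Z : ZFSet.{u}}

theorem nice_pair {x y : ZFSet.{u}} (h : Nice δ Z) (hx : x ∈ Z) (hy : y ∈ Z) :
    pair x y ∈ Z := by
  obtain ⟨θ, rfl, _, hθ, _⟩ := h
  rw [mem_vonNeumann] at hx hy ⊢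
  have e : pair x y = {{x}, {x, y}} := rfl
  rw [e, rank_pair, rank_singleton, rank_pair]
  have s1 := hθ.succ_lt hx
  have s2 := hθ.succ_lt hy
  exact max_lt (hθ.succ_lt s1) (hθ.succ_lt (max_lt s1 s2))

theorem nice_trans {x y : ZFSet.{u}} (h : Nice δ Z) (hx : x ∈ y) (hy : y ∈ Z) : x ∈ Z := by
  obtain ⟨θ, rfl, _, hθ, _⟩ := h
  rw [mem_vonNeumann] at hy ⊢
  exact (rank_lt_of_mem hx).trans hy

theorem nice_ltd {ζ : ZFSet.{u}} (h : Nice δ Z) (hζ : Ltd δ ζ) : ζ ∈ Z := by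
  obtain ⟨θ, rfl, hδ, hθ, _⟩ := h
  obtain ⟨α, hα, rfl⟩ := hζ
  rw [mem_vonNeumann, rank_toZFSet]
  exact hα.trans hδ

theorem nice_dom {η x : ZFSet.{u}} (h : Nice δ Z) (hη : η ∈ Z) (hx : x ∈ DOM η) : x ∈ Z := by
  obtain ⟨θ, rfl, hδ, hθ, _⟩ := h
  rw [mem_vonNeumann] at hη ⊢
  unfold DOM at hx
  rw [mem_sep, mem_powerset] at hx
  have h1 : rank x ≤ rank η := by
    rw [rank_le_iff]
    intro y hy
    exact mem_vonNeumann.1 (hx.1 hy)
  exact h1.trans_lt hη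

theorem nice_empty (h : Nice δ Z) : ∅ ∈ Z := by
  obtain ⟨θ, rfl, hδ, hθ, _⟩ := h
  rw [mem_vonNeumann, rank_empty]
  exact lt_of_le_of_lt zero_le hδ

theorem nice_app {f x : ZFSet.{u}} (h : Nice δ Z) (hf : f ∈ Z) : zapp f x ∈ Z := by
  rcases rank_zapp f x with h1 | h1
  · rw [h1]; exact nice_empty h
  · obtain ⟨θ, rfl, hδ, hθ, _⟩ := h
    rw [mem_vonNeumann] at hf ⊢
    exact h1.trans hf

theorem nice_one (h : Nice δ Z) : one ∈ Z := by
  obtain ⟨θ, rfl, hδ, hθ, _⟩ := h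
  rw [mem_vonNeumann, one, rank_singleton, rank_empty]
  exact hθ.succ_lt (lt_of_le_of_lt zero_le hδ)

end

/-- `⟨v, Z⟩ ↦ v` if `v ∈ Z`, and `∅` otherwise -/
def clipC : Code := .comp (.sep (.comp .mem .snd)) (.pair .fst .id)

theorem eval_clipC (δ : Ordinal.{u}) (P : ℕ → ZFSet.{u} → ZFSet.{u}) (x Z : ZFSet.{u}) :
    (x ∈ Z → eval δ P clipC (pair x Z) = x) ∧ (x ∉ Z → eval δ P clipC (pair x Z) = ∅) := by
  constructor
  · intro h
    ext y
    simp [clipC, eval, h]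
  · intro h
    ext y
    simp [clipC, eval, h]

/-- `⟨u, ⟨f, Z⟩⟩ ↦ f u` clipped -/
def clipA : Code :=
  .comp clipC (.pair (.comp .app (.pair (.comp .fst .snd) .fst)) (.comp .snd .snd))

theorem eval_clipA (δ : Ordinal.{u}) (P : ℕ → ZFSet.{u} → ZFSet.{u}) (x f Z : ZFSet.{u}) :
    eval δ P clipA (pair x (pair f Z)) = eval δ P clipC (pair (zapp f x) Z) := by
  simp [clipA, eval]

/-- `⟨ζ, ⟨f, Z⟩⟩ ↦` the clipped function `f` on `DOM ζ` -/
def lamA : Code := .comp (.lam clipA) (.pair (.comp .dom .fst) .snd)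

theorem eval_lamA (δ : Ordinal.{u}) (P : ℕ → ZFSet.{u} → ZFSet.{u}) (ζ f Z : ZFSet.{u}) :
    eval δ P lamA (pair ζ (pair f Z)) =
      zlam (DOM ζ) (fun x => eval δ P clipC (pair (zapp f x) Z)) := by
  simp only [lamA, eval, zfst_pair, zsnd_pair]
  apply zlam_congr
  intro y _
  exact eval_clipA δ P y f Z

/-- `ζ ↦` the identity on `DOM ζ` -/
def idA : Code := .comp (.lam .fst) (.pair .dom .id)

theorem eval_idA (δ : Ordinal.{u}) (P : ℕ → ZFSet.{u} → ZFSet.{u}) (ζ : ZFSet.{u}) :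
    eval δ P idA ζ = zlam (DOM ζ) (fun x => x) := by
  simp only [idA, eval, zfst_pair, zsnd_pair]

end NB

end H94W
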