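import Pool.Agent.Lib.H94W.Defs

/-!
# Project Woodin, chunk S: nice closure points

Let `C` be the class of ordinals `θ` such that `V_θ` is closed under all `F n`; it is closed and
unbounded.  Take a limit of `λ` many elements of `C`, where `λ` is a regular cardinal bigger than
the cardinality of `V_δ` and its power set.  (All `DOM η`, `η < δ`, are subsets of the power set
of `V_δ`.)
-/

set_option autoImplicit false

namespace H94W

open Ordinal Cardinal ZFSet

universe u v w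

namespace Clo

/-- bound of the values on `V_β` -/
noncomputable def gg (F : ℕ → ZFSet.{u} → ZFSet.{u}) (β : Ordinal.{u}) : Ordinal.{u} :=
  max β (⨆ p : ℕ × {x // x ∈ V_ β}, rank (F p.1 p.2.1))

theorem le_gg (F : ℕ → ZFSet.{u} → ZFSet.{u}) (β : Ordinal.{u}) : β ≤ gg F β := le_max_left _ _

theorem rank_le_gg (F : ℕ → ZFSet.{u} → ZFSet.{u}) {β : Ordinal.{u}} {x : ZFSet.{u}}
    (hx : x ∈ V_ β) (n : ℕ) : rank (F n x) ≤ gg F β :=
  (Ordinal.le_iSup (fun p : ℕ × {x // x ∈ V_ β} => rank (F p.1 p.2.1)) (n, ⟨x, hx⟩)).trans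
    (le_max_right _ _)

/-- a chain of ordinals -/
noncomputable def ch (F : ℕ → ZFSet.{u} → ZFSet.{u}) (α ξ : Ordinal.{u}) : Ordinal.{u} :=
  max (Order.succ α) (⨆ ζ : Set.Iio ξ, Order.succ (gg F (ch F α ζ.1)))
termination_by ξ
decreasing_by exact ζ.2

variable (F : ℕ → ZFSet.{u} → ZFSet.{u}) (α : Ordinal.{u})

theorem lt_ch (ξ : Ordinal.{u}) : α < ch F α ξ := by
  rw [ch]
  exact (Order.lt_succ α).trans_le (le_max_left _ _)

theorem gg_lt_ch {ζ ξ : Ordinal.{u}} (h : ζ < ξ) : gg F (ch F α ζ) < ch F α ξ := by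
  conv_rhs => rw [ch]
  refine (Order.lt_succ _).trans_le (le_trans ?_ (le_max_right _ _))
  exact Ordinal.le_iSup (fun ζ : Set.Iio ξ => Order.succ (gg F (ch F α ζ.1))) ⟨ζ, h⟩

theorem ch_lt {ζ ξ : Ordinal.{u}} (h : ζ < ξ) : ch F α ζ < ch F α ξ :=
  (le_gg F _).trans_lt (gg_lt_ch F α h)

theorem ch_le {ζ ξ : Ordinal.{u}} (h : ζ ≤ ξ) : ch F α ζ ≤ ch F α ξ := by
  rcases h.eq_or_lt with rfl | h
  · exact le_rfl
  · exact (ch_lt F α h).le

theorem exists_lt_ch {ξ β : Ordinal.{u}} (hξ : Order.IsSuccLimit ξ) (h : β < ch F α ξ) :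
    ∃ ζ < ξ, β < ch F α ζ := by
  rw [ch, lt_max_iff] at h
  rcases h with h | h
  · refine ⟨0, hξ.bot_lt, ?_⟩
    rw [ch]
    exact h.trans_le (le_max_left _ _)
  · obtain ⟨⟨ζ, hζ⟩, h1⟩ := Ordinal.lt_iSup_iff.1 h
    exact ⟨Order.succ ζ, hξ.succ_lt hζ,
      (Order.lt_succ_iff.1 h1).trans_lt (gg_lt_ch F α (Order.lt_succ ζ))⟩

end Clo

open Clo in
theorem exists_nice (δ : Ordinal.{u}) (F : ℕ → ZFSet.{u} → ZFSet.{u}) (α : Ordinal.{u}) :
    ∃ θ : Ordinal.{u}, α < θ ∧ Order.IsSuccLimit θ ∧ Nice δ (V_ θ) ∧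
      ∀ n, ∀ x ∈ V_ θ, F n x ∈ V_ θ := by
  classical
  let c : Cardinal.{u} := Order.succ (max ℵ₀ #(Shrink.{u} {y // y ∈ V_ δ}))
  have hreg : c.IsRegular := isRegular_succ (le_max_left _ _)
  have hcard : #(Shrink.{u} {y // y ∈ V_ δ}) < c :=
    (le_max_right _ _).trans_lt (Order.lt_succ _)
  have hlim : Order.IsSuccLimit c.ord := isSuccLimit_ord hreg.aleph0_le
  let a : Ordinal.{u} := max α δ
  have hex : ∀ β < ch F a c.ord, ∃ ζ < c.ord, β < ch F a ζ := fun β hβ =>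
    exists_lt_ch F a hlim hβ
  have hα : α < ch F a c.ord := (le_max_left _ _).trans_lt (lt_ch F a _)
  have hδ : δ < ch F a c.ord := (le_max_right _ _).trans_lt (lt_ch F a _)
  have hsucc : ∀ β < ch F a c.ord, Order.succ β < ch F a c.ord := by
    intro β hβ
    obtain ⟨ζ, hζ, h1⟩ := hex β hβ
    exact (Order.succ_le_of_lt h1).trans_lt (ch_lt F a hζ)
  have hθ : Order.IsSuccLimit (ch F a c.ord) := by
    refine ⟨?_, Order.isSuccPrelimit_of_succ_lt hsucc⟩
    rw [isMin_iff_eq_bot]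
    exact (lt_of_le_of_lt bot_le hα).ne'
  refine ⟨ch F a c.ord, hα, hθ, ⟨_, rfl, hδ, hθ, ?_⟩, ?_⟩
  · intro η hη G hG
    obtain ⟨η', hη', rfl⟩ := hη
    -- each element of the domain is in `V_δ`
    have hdom : ∀ y ∈ DOM η'.toZFSet, y ∈ V_ δ := by
      intro y hy
      unfold DOM at hy
      rw [mem_sep, mem_powerset, rank_toZFSet] at hy
      rw [mem_vonNeumann]
      refine lt_of_le_of_lt ?_ hη'
      rw [rank_le_iff]
      intro z hz
      exact mem_vonNeumann.1 (hy.1 hz)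
    have hpair : ∀ y : {y // y ∈ DOM η'.toZFSet}, ∃ ζ < c.ord,
        rank (pair y.1 (G y.1)) < ch F a ζ := by
      intro y
      apply hex
      have h1 : rank y.1 < ch F a c.ord := (mem_vonNeumann.1 (hdom _ y.2)).trans hδ
      have h2 := mem_vonNeumann.1 (hG _ y.2)
      have e : pair y.1 (G y.1) = {{y.1}, {y.1, G y.1}} := rfl
      rw [e, rank_pair, rank_singleton, rank_pair]
      exact max_lt (hsucc _ (hsucc _ h1)) (hsucc _ (max_lt (hsucc _ h1) (hsucc _ h2)))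
    choose z hz1 hz2 using hpair
    have hsup : (⨆ i : Shrink.{u} {y // y ∈ DOM η'.toZFSet},
        z ((equivShrink _).symm i)) < c.ord := by
      apply Ordinal.iSup_lt_of_lt_cof
      · rw [hreg.cof_ord]
        refine lt_of_le_of_lt ?_ hcard
        apply mk_le_of_injective (f := fun i : Shrink.{u} {y // y ∈ DOM η'.toZFSet} =>
          equivShrink.{u} {y // y ∈ V_ δ} ⟨((equivShrink _).symm i).1,
            hdom _ ((equivShrink _).symm i).2⟩)
        intro i j hij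
        have h1 := (equivShrink.{u} {y // y ∈ V_ δ}).injective hij
        rw [Subtype.mk.injEq] at h1
        exact (equivShrink.{u} {y // y ∈ DOM η'.toZFSet}).symm.injective (Subtype.ext h1)
      · intro i
        exact hz1 _
    rw [mem_vonNeumann]
    refine lt_of_le_of_lt ?_ (ch_lt F a hsup)
    rw [rank_le_iff]
    intro x hx
    obtain ⟨y, hy, rfl⟩ := mem_zlam.1 hx
    refine (hz2 ⟨y, hy⟩).trans_le (ch_le F a ?_)
    have h1 := Ordinal.le_iSup (fun i : Shrink.{u} {y // y ∈ DOM η'.toZFSet} =>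
      z ((equivShrink _).symm i)) (equivShrink _ ⟨y, hy⟩)
    simpa using h1
  · intro n x hx
    rw [mem_vonNeumann] at hx ⊢
    obtain ⟨ζ, hζ, h1⟩ := hex _ hx
    exact (rank_le_gg F (mem_vonNeumann.2 h1) n).trans_lt (gg_lt_ch F a hζ)

end H94W
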