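import Pool.Agent.Lib.H94W.Tree

/-!
# Project Woodin, chunk J, part 1: locally determined functions of a real, and the reals which
code an iteration on `ℕ`
-/

set_option autoImplicit false

namespace H94W

open Ordinal Cardinal ZFSet

universe u v w

/-! ### Locally determined functions on `ℕ → ℕ` -/

/-- `f c` depends only on an initial segment of `c`. -/
def Loc {α : Sort w} (f : (ℕ → ℕ) → α) : Prop :=
  ∀ c, ∃ n, ∀ c' : ℕ → ℕ, (∀ k < n, c' k = c k) → f c' = f c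

/-- The set `p` of reals is closed. -/
def Clo (p : (ℕ → ℕ) → Prop) : Prop :=
  ∀ c : ℕ → ℕ, (∀ n, ∃ c' : ℕ → ℕ, p c' ∧ ∀ k < n, c' k = c k) → p c

theorem Loc.const {α : Sort w} (a : α) : Loc (fun _ => a) := fun _ => ⟨0, fun _ _ => rfl⟩

theorem Loc.map {α : Sort v} {β : Sort w} {f : (ℕ → ℕ) → α} (g : α → β) (hf : Loc f) :
    Loc (fun c => g (f c)) := fun c => by
  obtain ⟨n, hn⟩ := hf c
  exact ⟨n, fun c' h => congrArg g (hn c' h)⟩

theorem Loc.map₂ {α : Sort u} {β : Sort v} {γ : Sort w} {f : (ℕ → ℕ) → α} {g : (ℕ → ℕ) → β}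
    (h : α → β → γ) (hf : Loc f) (hg : Loc g) : Loc (fun c => h (f c) (g c)) := fun c => by
  obtain ⟨n, hn⟩ := hf c
  obtain ⟨m, hm⟩ := hg c
  refine ⟨max n m, fun c' h' => ?_⟩
  show h (f c') (g c') = h (f c) (g c)
  rw [hn c' fun k hk => h' k (lt_of_lt_of_le hk (le_max_left _ _)),
    hm c' fun k hk => h' k (lt_of_lt_of_le hk (le_max_right _ _))]

theorem Loc.ev {k : (ℕ → ℕ) → ℕ} (hk : Loc k) : Loc (fun c => c (k c)) := fun c => by
  obtain ⟨n, hn⟩ := hk c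
  refine ⟨max n (k c + 1), fun c' h' => ?_⟩
  show c' (k c') = c (k c)
  rw [hn c' fun k hk => h' k (lt_of_lt_of_le hk (le_max_left _ _))]
  exact h' _ (lt_of_lt_of_le (Nat.lt_succ_self _) (le_max_right _ _))

theorem Loc.eq {α : Sort w} {f g : (ℕ → ℕ) → α} (hf : Loc f) (hg : Loc g) :
    Loc (fun c => f c = g c) := hf.map₂ Eq hg

theorem Loc.ne {α : Sort w} {f g : (ℕ → ℕ) → α} (hf : Loc f) (hg : Loc g) :
    Loc (fun c => f c ≠ g c) := hf.map₂ Ne hg

theorem Loc.and {p q : (ℕ → ℕ) → Prop} (hp : Loc p) (hq : Loc q) :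
    Loc (fun c => p c ∧ q c) := hp.map₂ And hq

theorem Loc.or {p q : (ℕ → ℕ) → Prop} (hp : Loc p) (hq : Loc q) :
    Loc (fun c => p c ∨ q c) := hp.map₂ Or hq

theorem Loc.iff {p q : (ℕ → ℕ) → Prop} (hp : Loc p) (hq : Loc q) :
    Loc (fun c => p c ↔ q c) := hp.map₂ Iff hq

theorem Clo.of_loc {p : (ℕ → ℕ) → Prop} (hp : Loc p) : Clo p := fun c h => by
  obtain ⟨n, hn⟩ := hp c
  obtain ⟨c', h1, h2⟩ := h n
  rw [← hn c' h2]
  exact h1

theorem Clo.all {α : Sort w} {p : α → (ℕ → ℕ) → Prop} (h : ∀ a, Clo (p a)) :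
    Clo (fun c => ∀ a, p a c) := fun c hc a =>
  h a c fun n => (hc n).imp fun _ h' => ⟨h'.1 a, h'.2⟩

theorem Clo.and {p q : (ℕ → ℕ) → Prop} (hp : Clo p) (hq : Clo q) :
    Clo (fun c => p c ∧ q c) := fun c hc =>
  ⟨hp c fun n => (hc n).imp fun _ h' => ⟨h'.1.1, h'.2⟩,
    hq c fun n => (hc n).imp fun _ h' => ⟨h'.1.2, h'.2⟩⟩

theorem Clo.imp {p q : (ℕ → ℕ) → Prop} (hq : Loc q) (hp : Clo p) :
    Clo (fun c => q c → p c) := fun c hc hqc => hp c fun n => by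
  obtain ⟨m, hm⟩ := hq c
  obtain ⟨c', h1, h2⟩ := hc (max n m)
  refine ⟨c', h1 ?_, fun k hk => h2 k (lt_of_lt_of_le hk (le_max_left _ _))⟩
  rw [hm c' fun k hk => h2 k (lt_of_lt_of_le hk (le_max_right _ _))]
  exact hqc

/-! ### The data coded by a real -/

/-- Positions of the data. -/
inductive Idx : Type
  | fn (a : Code) (i : ℕ)
  | pr (i j : ℕ)
  | tt
  | base (i : ℕ)
  | ix (i : ℕ)
  | N (i x : ℕ)
  | sd (i e : ℕ)
  | nj (i x : ℕ)
  | nf (i x : ℕ)
  | ne (i x : ℕ)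
  | tj (x : ℕ)
  | tf (x : ℕ)
  | te (x : ℕ)
  | g (i E : ℕ)
  | s (n : ℕ)
  | cl (n i : ℕ)
  | i0
  deriving Countable

/-- The position of a piece of data in a real. -/
noncomputable def en : Idx → ℕ := (Countable.exists_injective_nat Idx).choose

theorem en_inj : Function.Injective en := (Countable.exists_injective_nat Idx).choose_spec

section

variable (c : ℕ → ℕ)

noncomputable def fnc (a : Code) (i : ℕ) : ℕ := c (en (.fn a i))
noncomputable def prc (i j : ℕ) : ℕ := c (en (.pr i j))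
noncomputable def ttc : ℕ := c (en .tt)
noncomputable def sdc (i e : ℕ) : ℕ := c (en (.sd i e))
noncomputable def njc (i x : ℕ) : ℕ := c (en (.nj i x))
noncomputable def nfc (i x : ℕ) : ℕ := c (en (.nf i x))
noncomputable def nec (i x : ℕ) : ℕ := c (en (.ne i x))
noncomputable def tjc (x : ℕ) : ℕ := c (en (.tj x))
noncomputable def tfc (x : ℕ) : ℕ := c (en (.tf x))
noncomputable def tec (x : ℕ) : ℕ := c (en (.te x))
noncomputable def gc (i E : ℕ) : ℕ := c (en (.g i E))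
noncomputable def sc (n : ℕ) : ℕ := c (en (.s n))
noncomputable def clc (n i : ℕ) : ℕ := c (en (.cl n i))
noncomputable def i0c : ℕ := c (en .i0)
def Bc (i : ℕ) : Prop := c (en (.base i)) ≠ 0
def Ic (i : ℕ) : Prop := c (en (.ix i)) ≠ 0
def Nc (i x : ℕ) : Prop := c (en (.N i x)) ≠ 0
def Tc (x : ℕ) : Prop := x = ttc c
def memc (x y : ℕ) : Prop := Tc c (fnc c .mem (prc c x y))

end

section

variable {k l : (ℕ → ℕ) → ℕ}

theorem Loc.fnc (a : Code) (hk : Loc k) : Loc (fun c => fnc c a (k c)) :=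
  Loc.ev (hk.map fun i => en (.fn a i))
theorem Loc.prc (hk : Loc k) (hl : Loc l) : Loc (fun c => prc c (k c) (l c)) :=
  Loc.ev (hk.map₂ (fun i j => en (.pr i j)) hl)
theorem Loc.ttc : Loc (fun c => ttc c) := Loc.ev (Loc.const _)
theorem Loc.sdc (hk : Loc k) (hl : Loc l) : Loc (fun c => sdc c (k c) (l c)) :=
  Loc.ev (hk.map₂ (fun i j => en (.sd i j)) hl)
theorem Loc.njc (hk : Loc k) (hl : Loc l) : Loc (fun c => njc c (k c) (l c)) :=
  Loc.ev (hk.map₂ (fun i j => en (.nj i j)) hl)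
theorem Loc.nfc (hk : Loc k) (hl : Loc l) : Loc (fun c => nfc c (k c) (l c)) :=
  Loc.ev (hk.map₂ (fun i j => en (.nf i j)) hl)
theorem Loc.nec (hk : Loc k) (hl : Loc l) : Loc (fun c => nec c (k c) (l c)) :=
  Loc.ev (hk.map₂ (fun i j => en (.ne i j)) hl)
theorem Loc.tjc (hk : Loc k) : Loc (fun c => tjc c (k c)) :=
  Loc.ev (hk.map fun i => en (.tj i))
theorem Loc.tfc (hk : Loc k) : Loc (fun c => tfc c (k c)) :=
  Loc.ev (hk.map fun i => en (.tf i))
theorem Loc.tec (hk : Loc k) : Loc (fun c => tec c (k c)) :=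
  Loc.ev (hk.map fun i => en (.te i))
theorem Loc.gc (hk : Loc k) (hl : Loc l) : Loc (fun c => gc c (k c) (l c)) :=
  Loc.ev (hk.map₂ (fun i j => en (.g i j)) hl)
theorem Loc.sc (hk : Loc k) : Loc (fun c => sc c (k c)) :=
  Loc.ev (hk.map fun i => en (.s i))
theorem Loc.clc (hk : Loc k) (hl : Loc l) : Loc (fun c => clc c (k c) (l c)) :=
  Loc.ev (hk.map₂ (fun i j => en (.cl i j)) hl)
theorem Loc.i0c : Loc (fun c => i0c c) := Loc.ev (Loc.const _)
theorem Loc.Bc (hk : Loc k) : Loc (fun c => Bc c (k c)) :=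
  (Loc.ev (hk.map fun i => en (.base i))).ne (Loc.const 0)
theorem Loc.Ic (hk : Loc k) : Loc (fun c => Ic c (k c)) :=
  (Loc.ev (hk.map fun i => en (.ix i))).ne (Loc.const 0)
theorem Loc.Nc (hk : Loc k) (hl : Loc l) : Loc (fun c => Nc c (k c) (l c)) :=
  (Loc.ev (hk.map₂ (fun i j => en (.N i j)) hl)).ne (Loc.const 0)
theorem Loc.Tc (hk : Loc k) : Loc (fun c => Tc c (k c)) := hk.eq Loc.ttc
theorem Loc.memc (hk : Loc k) (hl : Loc l) : Loc (fun c => memc c (k c) (l c)) :=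
  Loc.Tc (Loc.fnc _ (Loc.prc hk hl))

end

/-- The real codes an algebra. -/
def AlgOk (δ : Ordinal.{u}) (P : ℕ → ZFSet.{u} → ZFSet.{u}) (c : ℕ → ℕ) : Prop :=
  (∀ x, fnc c .id x = x) ∧
  (∀ x y, fnc c .fst (prc c x y) = x) ∧
  (∀ x y, fnc c .snd (prc c x y) = y) ∧
  (∀ x, fnc c .one x = ttc c) ∧
  (∀ x y, fnc c .eq (prc c x y) = ttc c ↔ x = y) ∧
  (∀ a b x, fnc c (.comp a b) x = fnc c a (fnc c b x)) ∧
  (∀ a b x, fnc c (.pair a b) x = prc c (fnc c a x) (fnc c b x)) ∧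
  (∀ x, fnc c .not x = ttc c ↔ x ≠ ttc c) ∧
  (∀ a, (∀ x : ZFSet.{u}, eval δ P a x = H94W.one) → ∀ x, fnc c a x = ttc c)

/-- The real codes an iteration (first part of the axioms). -/
def PIOk1 (c : ℕ → ℕ) : Prop :=
  Bc c (ttc c) ∧
  (∀ x, Bc c x → ∀ a, Bc c (fnc c a x)) ∧
  (∀ x, Bc c x → ∀ y, Bc c y → Bc c (prc c x y)) ∧
  (∀ i, Ic c i → Bc c i) ∧
  (∀ i, Ic c i → Tc c (fnc c .ord i)) ∧
  (∀ i, Ic c i → ∀ x, Nc c i x → ∀ a, Nc c i (fnc c a x)) ∧
  (∀ i, Ic c i → ∀ x, Nc c i x → ∀ y, Nc c i y → Nc c i (prc c x y)) ∧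
  (∀ i, Ic c i → ∀ x, Nc c i x → (Bc c x ∨ (Ic c (njc c i x) ∧ memc c (njc c i x) i ∧
    Nc c (njc c i x) (nfc c i x) ∧ Nc c (njc c i x) (nec c i x) ∧
    Tc c (fnc c .ltd (nec c i x)) ∧
    x = fnc c .app (prc c (nfc c i x) (sdc c (njc c i x) (nec c i x)))))) ∧
  (∀ i, Ic c i → ∀ x, Bc c x → Nc c i x) ∧
  (∀ i, Ic c i → ∀ j, Ic c j → memc c j i → ∀ f, Nc c j f → ∀ e, Nc c j e →
    Tc c (fnc c .ltd e) → Nc c i (fnc c .app (prc c f (sdc c j e))))

/-- The real codes an iteration (second part of the axioms). -/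
def PIOk2 (c : ℕ → ℕ) : Prop :=
  (∀ x, (Bc c x ∨ (Ic c (tjc c x) ∧ Nc c (tjc c x) (tfc c x) ∧ Nc c (tjc c x) (tec c x) ∧
    Tc c (fnc c .ltd (tec c x)) ∧
    x = fnc c .app (prc c (tfc c x) (sdc c (tjc c x) (tec c x)))))) ∧
  (∀ i, Ic c i → ∀ e, Nc c i e → Tc c (fnc c .ltd e) → memc c (sdc c i e) (fnc c .dom e)) ∧
  (∀ i, Ic c i → ∀ e, Nc c i e → ∀ z, Nc c i z → Tc c (fnc c .ltd e) → Tc c (fnc c .ltd z) →
    fnc c .restr (prc c (sdc c i (fnc c .un (prc c e z))) z) = sdc c i z) ∧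
  (∀ i, Ic c i → ∀ e, Nc c i e → ∀ a, Nc c i a → Tc c (fnc c .ltd e) → memc c (sdc c i e) a →
    Tc c (fnc c .stat (prc c e a))) ∧
  (∀ i, Ic c i → ∀ E, Nc c i E → Tc c (fnc c .pred E) → (Nc c i (gc c i E) ∧
    memc c (gc c i E) E ∧
    memc c (sdc c i (fnc c .fst (gc c i E))) (fnc c .snd (gc c i E))))

/-- The additional data. -/
def XOk (c : ℕ → ℕ) : Prop :=
  Bc c (sc c 0) ∧ (∀ n, memc c (sc c (n + 1)) (sc c n)) ∧ Bc c (i0c c) ∧
    (∀ n i, Bc c i → Bc c (clc c n i))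

/-- The real codes an ill-founded iteration on `ℕ`. -/
def Ok (δ : Ordinal.{u}) (P : ℕ → ZFSet.{u} → ZFSet.{u}) (c : ℕ → ℕ) : Prop :=
  AlgOk δ P c ∧ PIOk1 c ∧ PIOk2 c ∧ XOk c

theorem AlgOk.clo (δ : Ordinal.{u}) (P : ℕ → ZFSet.{u} → ZFSet.{u}) : Clo (AlgOk δ P) := by
  unfold AlgOk
  repeat' first
    | exact Loc.const _
    | with_reducible apply Clo.and
    | with_reducible apply Clo.imp
    | (with_reducible apply Clo.all; intro)
    | apply Clo.of_loc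
    | apply Loc.fnc
    | apply Loc.prc
    | exact Loc.ttc
    | apply Loc.iff
    | apply Loc.ne
    | apply Loc.eq

theorem PIOk1.clo : Clo PIOk1 := by
  unfold PIOk1
  repeat' first
    | exact Loc.const _
    | with_reducible apply Clo.and
    | with_reducible apply Clo.imp
    | (with_reducible apply Clo.all; intro)
    | apply Clo.of_loc
    | apply Loc.fnc
    | apply Loc.prc
    | exact Loc.ttc
    | apply Loc.sdc
    | apply Loc.njc
    | apply Loc.nfc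
    | apply Loc.nec
    | apply Loc.Bc
    | apply Loc.Ic
    | apply Loc.Nc
    | apply Loc.Tc
    | apply Loc.memc
    | apply Loc.or
    | apply Loc.and
    | apply Loc.eq

theorem PIOk2.clo : Clo PIOk2 := by
  unfold PIOk2
  repeat' first
    | exact Loc.const _
    | with_reducible apply Clo.and
    | with_reducible apply Clo.imp
    | (with_reducible apply Clo.all; intro)
    | apply Clo.of_loc
    | apply Loc.fnc
    | apply Loc.prc
    | exact Loc.ttc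
    | apply Loc.sdc
    | apply Loc.tjc
    | apply Loc.tfc
    | apply Loc.tec
    | apply Loc.gc
    | apply Loc.Bc
    | apply Loc.Ic
    | apply Loc.Nc
    | apply Loc.Tc
    | apply Loc.memc
    | apply Loc.or
    | apply Loc.and
    | apply Loc.eq

theorem XOk.clo : Clo XOk := by
  unfold XOk
  repeat' first
    | exact Loc.const _
    | with_reducible apply Clo.and
    | with_reducible apply Clo.imp
    | (with_reducible apply Clo.all; intro)
    | apply Clo.of_loc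
    | apply Loc.sc
    | apply Loc.clc
    | exact Loc.i0c
    | apply Loc.Bc
    | apply Loc.memc

theorem Ok.clo (δ : Ordinal.{u}) (P : ℕ → ZFSet.{u} → ZFSet.{u}) : Clo (Ok δ P) :=
  (AlgOk.clo δ P).and (PIOk1.clo.and (PIOk2.clo.and XOk.clo))

end H94W
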