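import Pool.Agent.Lib.H94W.CodeLoc

/-!
# Project Woodin, chunk J: coding iterations on `ℕ` by reals, as branches

A real `c : ℕ → ℕ` codes (through a fixed injection of a countable index type `Idx` into `ℕ`)
functions `fn`, `pr` on `ℕ`, subsets `base`, `ix` of `ℕ`, the relation `N`, the function `sd`,
Skolem functions for the existential statements in `IsPI` (`N_iff`, `tot`, `gen`), a sequence
`s`, a function `cl n i` and numbers `i₀` (index of `γ`).  `Ok` is the set of the `c` such that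
the structure coded by `c` is an algebra and satisfies `IsPI` (with the Skolem functions as
witnesses) with `car = univ`, `s 0 ∈ base`, `s` is descending, `i₀ ∈ base`, `cl n i ∈ base` for
`i ∈ base`.  `Ok` is closed (`CodeLoc.lean`): if for all `n` there is `c' ∈ Ok` with
`pre c' n = pre c n` then `c ∈ Ok` (each instance of an axiom depends on finitely many values
of `c`).
The code `κ l` (`l` a list of length `n`) is the constantly false code if `l` is not of the form
`pre c' n` with `c' ∈ Ok`; otherwise it is the conjunction (on `⟨⟨γ, Φ⟩, w⟩`,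
`w = ⟨y_{n-1}, … ⟨y_0, ζ⟩⟩`) of the following statements which are determined by `l`:
for `i, j ∈ base`: `y_{fn c₀ i} = c₀ (y_i)`, `y_{pr i j} = ⟨y_i, y_j⟩`,
`y_i = y_j → i = j`, `y_i ∈ γ` if `i ∈ ix`, `y_{i₀} = γ`, `y_{s 0} = ζ`,
`y_{cl n i} = Φ (n, (ζ, y_i))`.
-/

set_option autoImplicit false

namespace H94W

open Ordinal Cardinal ZFSet

universe u v w

/-! ### The structure coded by a real -/

section

variable {δ : Ordinal.{u}} {P : ℕ → ZFSet.{u} → ZFSet.{u}} {c : ℕ → ℕ}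

/-- The algebra coded by a real. -/
noncomputable def algOf (h : AlgOk δ P c) : Alg δ P ℕ where
  fn := fnc c
  pr := prc c
  tt := ttc c
  fn_id := h.1
  fn_fst := h.2.1
  fn_snd := h.2.2.1
  fn_one := h.2.2.2.1
  fn_eq := h.2.2.2.2.1
  fn_comp := h.2.2.2.2.2.1
  fn_pair := h.2.2.2.2.2.2.1
  fn_not := h.2.2.2.2.2.2.2.1
  fn_valid := h.2.2.2.2.2.2.2.2

/-- The iteration coded by a real. -/
noncomputable def pdOf (c : ℕ → ℕ) : PD ℕ where
  car := Set.univ
  base := {i | Bc c i}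
  ix := {i | Ic c i}
  N i := {x | Nc c i x}
  sd := sdc c

theorem pdOf_isPI (h : AlgOk δ P c) (h1 : PIOk1 c) (h2 : PIOk2 c) :
    IsPI (algOf h) (pdOf c) := by
  obtain ⟨a1, a2, a3, a4, a5, a6, a7, a8, a9, a10⟩ := h1
  obtain ⟨b1, b2, b3, b4, b5⟩ := h2
  refine ⟨fun _ _ _ => trivial, fun _ _ _ _ => trivial, fun _ _ => trivial, a1, a2, a3, a4, a5,
    fun _ _ _ _ => trivial, a6, a7, ?_, fun _ _ _ _ _ => trivial, ?_, b2, b3, ?_, ?_⟩
  · intro i hi x
    constructor
    · intro hx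
      rcases a8 i hi x hx with hb | ⟨k1, k2, k3, k4, k5, k6⟩
      · exact Or.inl hb
      · exact Or.inr ⟨njc c i x, k1, k2, nfc c i x, k3, nec c i x, k4, k5, k6⟩
    · rintro (hb | ⟨j, k1, k2, f, k3, e, k4, k5, k6⟩)
      · exact a9 i hi x hb
      · rw [k6]
        exact a10 i hi j k1 k2 f k3 e k4 k5
  · intro x _
    rcases b1 x with hb | ⟨k1, k3, k4, k5, k6⟩
    · exact Or.inl hb
    · exact Or.inr ⟨tjc c x, k1, tfc c x, k3, tec c x, k4, k5, k6⟩
  · intro i hi e he a ha hl hm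
    exact b4 i hi e he a ha hl hm
  · intro i hi E hE hp
    obtain ⟨k1, k2, k3⟩ := b5 i hi E hE hp
    exact ⟨gc c i E, k1, k2, k3⟩

end

/-! ### The real coding a structure -/

open Classical in
/-- The values at the positions. -/
noncomputable def valOf {δ : Ordinal.{u}} {P : ℕ → ZFSet.{u} → ZFSet.{u}} (A : Alg δ P ℕ)
    (D : PD ℕ) (nj nf ne : ℕ → ℕ → ℕ) (tj tf te : ℕ → ℕ) (g : ℕ → ℕ → ℕ) (s : ℕ → ℕ)
    (cl : ℕ → ℕ → ℕ) (i0 : ℕ) : Idx → ℕ
  | .fn a i => A.fn a i
  | .pr i j => A.pr i j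
  | .tt => A.tt
  | .base i => if i ∈ D.base then 1 else 0
  | .ix i => if i ∈ D.ix then 1 else 0
  | .N i x => if x ∈ D.N i then 1 else 0
  | .sd i e => D.sd i e
  | .nj i x => nj i x
  | .nf i x => nf i x
  | .ne i x => ne i x
  | .tj x => tj x
  | .tf x => tf x
  | .te x => te x
  | .g i E => g i E
  | .s n => s n
  | .cl n i => cl n i
  | .i0 => i0

theorem exists_code {δ : Ordinal.{u}} {P : ℕ → ZFSet.{u} → ZFSet.{u}} (A : Alg δ P ℕ)
    (D : PD ℕ) (hD : IsPI A D) (hc : D.car = Set.univ) (s : ℕ → ℕ) (cl : ℕ → ℕ → ℕ) (i0 : ℕ)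
    (hs : s 0 ∈ D.base) (hs' : ∀ n, A.mem (s (n + 1)) (s n)) (hi : i0 ∈ D.base)
    (hcl : ∀ n, ∀ i ∈ D.base, cl n i ∈ D.base) :
    ∃ c : ℕ → ℕ, Ok δ P c ∧ (∀ a i, fnc c a i = A.fn a i) ∧ (∀ i j, prc c i j = A.pr i j) ∧
      (∀ i, Bc c i ↔ i ∈ D.base) ∧ (∀ i, Ic c i ↔ i ∈ D.ix) ∧ (∀ n, sc c n = s n) ∧
      (∀ n i, clc c n i = cl n i) ∧ i0c c = i0 := by
  classical
  have q1 : ∀ i x, ∃ j f e, i ∈ D.ix → x ∈ D.N i → (x ∈ D.base ∨ (j ∈ D.ix ∧ A.mem j i ∧
      f ∈ D.N j ∧ e ∈ D.N j ∧ A.T (A.fn .ltd e) ∧ x = A.fn .app (A.pr f (D.sd j e)))) := by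
    intro i x
    by_cases h : i ∈ D.ix ∧ x ∈ D.N i
    · rcases (hD.N_iff i h.1 x).1 h.2 with hb | ⟨j, k1, k2, f, k3, e, k4, k5, k6⟩
      · exact ⟨0, 0, 0, fun _ _ => Or.inl hb⟩
      · exact ⟨j, f, e, fun _ _ => Or.inr ⟨k1, k2, k3, k4, k5, k6⟩⟩
    · exact ⟨0, 0, 0, fun h1 h2 => absurd ⟨h1, h2⟩ h⟩
  choose nj nf ne hn using q1
  have q2 : ∀ x, ∃ j f e, (x ∈ D.base ∨ (j ∈ D.ix ∧
      f ∈ D.N j ∧ e ∈ D.N j ∧ A.T (A.fn .ltd e) ∧ x = A.fn .app (A.pr f (D.sd j e)))) := by
    intro x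
    rcases hD.tot x (by rw [hc]; trivial) with hb | ⟨j, k1, f, k3, e, k4, k5, k6⟩
    · exact ⟨0, 0, 0, Or.inl hb⟩
    · exact ⟨j, f, e, Or.inr ⟨k1, k3, k4, k5, k6⟩⟩
  choose tj tf te ht using q2
  have q3 : ∀ i E, ∃ t, i ∈ D.ix → E ∈ D.N i → A.T (A.fn .pred E) →
      t ∈ D.N i ∧ A.mem t E ∧ A.mem (D.sd i (A.fn .fst t)) (A.fn .snd t) := by
    intro i E
    by_cases h : i ∈ D.ix ∧ E ∈ D.N i ∧ A.T (A.fn .pred E)
    · obtain ⟨t, k⟩ := hD.gen i h.1 E h.2.1 h.2.2
      exact ⟨t, fun _ _ _ => k⟩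
    · exact ⟨0, fun h1 h2 h3 => absurd ⟨h1, h2, h3⟩ h⟩
  choose g hg using q3
  set val := valOf A D nj nf ne tj tf te g s cl i0 with hval
  set c : ℕ → ℕ := Function.extend en val (fun _ => 0) with hcdef
  have hcv : ∀ i, c (en i) = val i := fun i => en_inj.extend_apply val _ i
  have efn : fnc c = A.fn := by
    funext a i
    exact hcv _
  have epr : prc c = A.pr := by
    funext i j
    exact hcv _
  have ett : ttc c = A.tt := hcv _
  have esd : sdc c = D.sd := by
    funext i j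
    exact hcv _
  have enj : njc c = nj := by
    funext i j
    exact hcv _
  have enf : nfc c = nf := by
    funext i j
    exact hcv _
  have ene : nec c = ne := by
    funext i j
    exact hcv _
  have etj : tjc c = tj := by
    funext i
    exact hcv _
  have etf : tfc c = tf := by
    funext i
    exact hcv _
  have ete : tec c = te := by
    funext i
    exact hcv _
  have eg : gc c = g := by
    funext i j
    exact hcv _
  have es : sc c = s := by
    funext i
    exact hcv _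
  have ecl : clc c = cl := by
    funext i j
    exact hcv _
  have ei0 : i0c c = i0 := hcv _
  have eB : ∀ i, Bc c i ↔ i ∈ D.base := by
    intro i
    unfold Bc
    rw [hcv]
    show (if i ∈ D.base then 1 else 0) ≠ 0 ↔ _
    split_ifs with h <;> simp [h]
  have eI : ∀ i, Ic c i ↔ i ∈ D.ix := by
    intro i
    unfold Ic
    rw [hcv]
    show (if i ∈ D.ix then 1 else 0) ≠ 0 ↔ _
    split_ifs with h <;> simp [h]
  have eN : ∀ i x, Nc c i x ↔ x ∈ D.N i := by
    intro i x
    unfold Nc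
    rw [hcv]
    show (if x ∈ D.N i then 1 else 0) ≠ 0 ↔ _
    split_ifs with h <;> simp [h]
  have eT : ∀ x, Tc c x ↔ A.T x := by
    intro x
    unfold Tc Alg.T
    rw [ett]
  have em : ∀ x y, memc c x y ↔ A.mem x y := by
    intro x y
    unfold memc Alg.mem
    rw [efn, epr, eT]
  refine ⟨c, ⟨?_, ?_, ?_, ?_⟩, fun a i => by rw [efn], fun i j => by rw [epr], eB, eI,
    fun n => by rw [es], fun n i => by rw [ecl], ei0⟩
  · unfold AlgOk
    simp only [efn, epr, ett]
    exact ⟨A.fn_id, A.fn_fst, A.fn_snd, A.fn_one, A.fn_eq, A.fn_comp, A.fn_pair, A.fn_not,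
      A.fn_valid⟩
  · unfold PIOk1
    simp only [efn, epr, ett, eB, eI, eN, eT, em, esd, enj, enf, ene]
    exact ⟨hD.base_tt, hD.base_fn, hD.base_pr, fun i hi => hD.ix_sub hi, hD.ix_ord, hD.N_fn,
      hD.N_pr, fun i hi x hx => hn i x hi hx, fun i hi x hx => (hD.N_iff i hi x).2 (Or.inl hx),
      fun i hi j hj hji f hf e he hl => (hD.N_iff i hi _).2
        (Or.inr ⟨j, hj, hji, f, hf, e, he, hl, rfl⟩)⟩
  · unfold PIOk2
    simp only [efn, epr, eB, eI, eN, eT, em, esd, etj, etf, ete, eg]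
    exact ⟨ht, hD.sd_mem, hD.sd_coh, hD.ultra, fun i hi E hE hp => hg i E hi hE hp⟩
  · unfold XOk
    simp only [eB, em, es, ecl, ei0]
    exact ⟨hs, hs', hi, hcl⟩

/-! ### Statements about a real and a sequence -/

/-- Instances of the statements. -/
inductive Inst : Type
  | triv
  | fn (a : Code) (i : ℕ)
  | pr (i j : ℕ)
  | inj (i j : ℕ)
  | ix (i : ℕ)
  | g0
  | s0
  | cl (n i : ℕ)
  deriving Countable

/-- An enumeration of the instances. -/
noncomputable def enI : ℕ → Inst :=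
  (@exists_surjective_nat Inst ⟨Inst.triv⟩ inferInstance).choose

theorem enI_surj : Function.Surjective enI :=
  (@exists_surjective_nat Inst ⟨Inst.triv⟩ inferInstance).choose_spec

/-- A true statement. -/
def trivQ : QF := .eq (.v 0) (.v 0)

open Classical in
/-- The statements; variables: `0` is `γ`, `1` is `Φ`, `2` is `ζ`, `3 + i` is `y_i`. -/
noncomputable def stm (c : ℕ → ℕ) : Inst → QF
  | .triv => trivQ
  | .fn a i => if Bc c i then .eq (.v (fnc c a i + 3)) (.f a (.v (i + 3))) else trivQ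
  | .pr i j => if Bc c i ∧ Bc c j then .eq (.v (prc c i j + 3)) (.p (.v (i + 3)) (.v (j + 3)))
      else trivQ
  | .inj i j => if Bc c i ∧ Bc c j ∧ i ≠ j then .not (.eq (.v (i + 3)) (.v (j + 3))) else trivQ
  | .ix i => if Ic c i then .mem (.v (i + 3)) (.v 0) else trivQ
  | .g0 => .eq (.v (i0c c + 3)) (.v 0)
  | .s0 => .eq (.v (sc c 0 + 3)) (.v 2)
  | .cl n i => if Bc c i then .eq (.v (clc c n i + 3))
      (.f .app (.p (.v 1) (.p (.f (numC n) (.f .one (.v 0))) (.p (.v 2) (.v (i + 3)))))) else trivQ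

theorem Loc.ite {α : Sort w} {p : (ℕ → ℕ) → Prop} {f : (ℕ → ℕ) → α} {a : α} (hp : Loc p)
    (hf : Loc f) [∀ c, Decidable (p c)] : Loc (fun c => if p c then f c else a) := by
  intro c
  obtain ⟨n, hn⟩ := hp c
  obtain ⟨m, hm⟩ := hf c
  refine ⟨max n m, fun c' h' => ?_⟩
  have e1 := hn c' fun k hk => h' k (lt_of_lt_of_le hk (le_max_left _ _))
  have e2 := hm c' fun k hk => h' k (lt_of_lt_of_le hk (le_max_right _ _))
  show (if p c' then f c' else a) = if p c then f c else a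
  by_cases h : p c
  · rw [if_pos h, if_pos (by rw [e1]; exact h), e2]
  · rw [if_neg h, if_neg (by rw [e1]; exact h)]

theorem stm_loc (I : Inst) : Loc (fun c => stm c I) := by
  classical
  cases I with
  | triv => exact Loc.const _
  | fn a i =>
    exact Loc.ite (Loc.Bc (Loc.const i))
      ((Loc.fnc a (Loc.const i)).map fun k => QF.eq (.v (k + 3)) (.f a (.v (i + 3))))
  | pr i j =>
    exact Loc.ite ((Loc.Bc (Loc.const i)).and (Loc.Bc (Loc.const j)))
      ((Loc.prc (Loc.const i) (Loc.const j)).map fun k =>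
        QF.eq (.v (k + 3)) (.p (.v (i + 3)) (.v (j + 3))))
  | inj i j =>
    exact Loc.ite ((Loc.Bc (Loc.const i)).and ((Loc.Bc (Loc.const j)).and (Loc.const (i ≠ j))))
      (Loc.const _)
  | ix i => exact Loc.ite (Loc.Ic (Loc.const i)) (Loc.const _)
  | g0 => exact Loc.i0c.map fun k => QF.eq (.v (k + 3)) (.v 0)
  | s0 => exact (Loc.sc (Loc.const 0)).map fun k => QF.eq (.v (k + 3)) (.v 2)
  | cl n i =>
    exact Loc.ite (Loc.Bc (Loc.const i))
      ((Loc.clc (Loc.const n) (Loc.const i)).map fun k => QF.eq (.v (k + 3))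
        (.f .app (.p (.v 1) (.p (.f (numC n) (.f .one (.v 0))) (.p (.v 2) (.v (i + 3)))))))

/-! ### Codes of the statements -/

/-- Iterated second component. -/
def sndC : ℕ → Code
  | 0 => .id
  | n + 1 => .comp (sndC n) .snd

/-- The code of the variable `j`, acting on `⟨⟨γ, Φ⟩, ⟨y_{n-1}, … ⟨y_0, ζ⟩⟩⟩`. -/
def varC (n : ℕ) : ℕ → Code
  | 0 => .comp .fst .fst
  | 1 => .comp .snd .fst
  | 2 => .comp (sndC n) .snd
  | i + 3 => .comp (.comp .fst (sndC (n - 1 - i))) .snd

/-- The code of a tuple of codes. -/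
def tupleC : ℕ → (ℕ → Code) → Code
  | 0, _ => .one
  | k + 1, f => .pair (f 0) (tupleC k (fun i => f (i + 1)))

/-- Conjunction of codes. -/
def conjC : List Code → Code
  | [] => .one
  | a :: l => .comp .and (.pair a (conjC l))

/-- The values of the variables. -/
def rho {M : Type v} (γ Φ ζ : M) (y : ℕ → M) : ℕ → M
  | 0 => γ
  | 1 => Φ
  | 2 => ζ
  | i + 3 => y i

section

variable {δ : Ordinal.{u}} {P : ℕ → ZFSet.{u} → ZFSet.{u}} {M : Type v} (A : Alg δ P M)

theorem fn_sndC (ζ : M) (y : ℕ → M) (n m : ℕ) :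
    A.fn (sndC m) (wt A.pr ζ y (n + m)) = wt A.pr ζ y n := by
  induction m with
  | zero => exact A.fn_id _
  | succ m ih =>
    show A.fn (.comp (sndC m) .snd) (A.pr (y (n + m)) (wt A.pr ζ y (n + m))) = _
    rw [A.fn_comp, A.fn_snd, ih]

theorem fn_varC (γ Φ ζ : M) (y : ℕ → M) (n j : ℕ) (hj : j < n + 3) :
    A.fn (varC n j) (A.pr (A.pr γ Φ) (wt A.pr ζ y n)) = rho γ Φ ζ y j := by
  match j with
  | 0 => simp only [varC, A.fn_comp, A.fn_fst, rho]
  | 1 => simp only [varC, A.fn_comp, A.fn_fst, A.fn_snd, rho]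
  | 2 =>
    have := fn_sndC A ζ y 0 n
    rw [Nat.zero_add] at this
    simp only [varC, A.fn_comp, A.fn_snd, rho, this, wt]
  | i + 3 =>
    have := fn_sndC A ζ y (i + 1) (n - 1 - i)
    rw [show i + 1 + (n - 1 - i) = n by omega] at this
    simp only [varC, A.fn_comp, A.fn_snd, rho, this, wt, A.fn_fst]

theorem fn_tupleC (k : ℕ) (f : ℕ → Code) (x : M) :
    A.fn (tupleC k f) x = A.tup k (fun i => A.fn (f i) x) := by
  induction k generalizing f with
  | zero => exact A.fn_one x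
  | succ k ih => simp only [tupleC, A.fn_pair, ih, Alg.tup]

theorem tup_congr (k : ℕ) (ρ ρ' : ℕ → M) (h : ∀ i < k, ρ i = ρ' i) :
    A.tup k ρ = A.tup k ρ' := by
  induction k generalizing ρ ρ' with
  | zero => rfl
  | succ k ih =>
    simp only [Alg.tup]
    rw [h 0 (by omega), ih (fun i => ρ (i + 1)) (fun i => ρ' (i + 1))
      (fun i hi => h (i + 1) (by omega))]

/-- The code of a statement at level `n`. -/
def stC (n : ℕ) (φ : QF) : Code := .comp φ.code (tupleC (n + 3) (varC n))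

theorem T_stC (γ Φ ζ : M) (y : ℕ → M) (n : ℕ) (φ : QF) (hφ : φ.bd (n + 3)) :
    A.T (A.fn (stC n φ) (A.pr (A.pr γ Φ) (wt A.pr ζ y n))) ↔ A.evQ (rho γ Φ ζ y) φ := by
  unfold stC
  rw [A.fn_comp, fn_tupleC, tup_congr A (n + 3) _ (rho γ Φ ζ y)
    (fun i hi => fn_varC A γ Φ ζ y n i hi), A.T_code (n + 3) _ φ hφ]

theorem T_conjC (l : List Code) (x : M) :
    A.T (A.fn (conjC l) x) ↔ ∀ a ∈ l, A.T (A.fn a x) := by
  induction l with
  | nil =>
    simp only [conjC, List.not_mem_nil, false_imp_iff, implies_true, iff_true]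
    exact A.fn_one x
  | cons a l ih =>
    simp only [conjC, A.fn_comp, A.fn_pair, A.T_and, ih, List.mem_cons, forall_eq_or_imp]

theorem T_false (x : M) : ¬ A.T (A.fn (.comp .not .one) x) := by
  rw [A.fn_comp, A.fn_one, A.T_not]
  intro h
  exact h rfl

end

/-! ### The codes `κ` -/

open Classical in
/-- The list of the codes of the statements determined by the initial segment `l`. -/
noncomputable def kapL (l : List ℕ) : List Code :=
  (List.range l.length).map fun m =>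
    if h : ∃ φ : QF, φ.bd (l.length + 3) ∧ (∃ c : ℕ → ℕ, pre c l.length = l) ∧
      ∀ c : ℕ → ℕ, pre c l.length = l → stm c (enI m) = φ then stC l.length h.choose else .one

open Classical in
/-- The code `κ`. -/
noncomputable def kap (δ : Ordinal.{u}) (P : ℕ → ZFSet.{u} → ZFSet.{u}) (l : List ℕ) : Code :=
  if ∃ c, Ok δ P c ∧ pre c l.length = l then conjC (kapL l) else .comp .not .one

theorem pre_length (c : ℕ → ℕ) (n : ℕ) : (pre c n).length = n := by
  unfold pre; simp

theorem pre_eq_iff (c c' : ℕ → ℕ) (n : ℕ) : pre c' n = pre c n ↔ ∀ k < n, c' k = c k := by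
  unfold pre
  rw [List.map_inj_left]
  simp

section

variable {δ : Ordinal.{u}} {P : ℕ → ZFSet.{u} → ZFSet.{u}} {M : Type v} (A : Alg δ P M)

theorem kap_sound (c : ℕ → ℕ) (γ Φ ζ : M) (y : ℕ → M)
    (h : ∀ n, A.T (A.fn (kap δ P (pre c n)) (A.pr (A.pr γ Φ) (wt A.pr ζ y n)))) :
    Ok δ P c ∧ ∀ I, A.evQ (rho γ Φ ζ y) (stm c I) := by
  classical
  have h1 : ∀ n, (∃ c', Ok δ P c' ∧ ∀ k < n, c' k = c k) ∧
      ∀ a ∈ kapL (pre c n), A.T (A.fn a (A.pr (A.pr γ Φ) (wt A.pr ζ y n))) := by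
    intro n
    have h2 := h n
    unfold kap at h2
    split_ifs at h2 with h3
    · obtain ⟨c', h4, h5⟩ := h3
      rw [pre_length, pre_eq_iff] at h5
      exact ⟨⟨c', h4, h5⟩, (T_conjC A _ _).1 h2⟩
    · exact absurd h2 (T_false A _)
  refine ⟨Ok.clo δ P c fun n => (h1 n).1, fun I => ?_⟩
  obtain ⟨m, rfl⟩ := enI_surj I
  obtain ⟨n0, hn0⟩ := stm_loc (enI m) c
  set φ := stm c (enI m) with hφ
  set n := max (max n0 (m + 1)) φ.nv with hn
  have hb : φ.bd (n + 3) := QF.bd_mono (by omega) φ φ.bd_nv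
  have hex : ∃ ψ : QF, ψ.bd ((pre c n).length + 3) ∧
      (∃ c' : ℕ → ℕ, pre c' (pre c n).length = pre c n) ∧
      ∀ c' : ℕ → ℕ, pre c' (pre c n).length = pre c n → stm c' (enI m) = ψ := by
    refine ⟨φ, by rw [pre_length]; exact hb, ⟨c, by rw [pre_length]⟩, fun c' hc' => ?_⟩
    rw [pre_length, pre_eq_iff] at hc'
    exact hn0 c' fun k hk => hc' k (by omega)
  have hmem : stC (pre c n).length hex.choose ∈ kapL (pre c n) := by
    unfold kapL
    rw [List.mem_map]
    refine ⟨m, ?_, ?_⟩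
    · rw [List.mem_range, pre_length]
      omega
    · rw [dif_pos hex]
  have hch : hex.choose = φ := (hex.choose_spec.2.2 c (by rw [pre_length])).symm
  have h2 := (h1 n).2 _ hmem
  rw [hch, pre_length] at h2
  exact (T_stC A γ Φ ζ y n φ hb).1 h2

theorem kap_complete (c : ℕ → ℕ) (γ Φ ζ : M) (y : ℕ → M) (hc : Ok δ P c)
    (h : ∀ I, A.evQ (rho γ Φ ζ y) (stm c I)) (n : ℕ) :
    A.T (A.fn (kap δ P (pre c n)) (A.pr (A.pr γ Φ) (wt A.pr ζ y n))) := by
  classical
  unfold kap
  rw [if_pos ⟨c, hc, by rw [pre_length]⟩, T_conjC]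
  intro a ha
  unfold kapL at ha
  rw [List.mem_map] at ha
  obtain ⟨m, -, rfl⟩ := ha
  split_ifs with h1
  · have hch := h1.choose_spec.2.2 c (by rw [pre_length])
    have hb := h1.choose_spec.1
    rw [← hch] at hb ⊢
    rw [pre_length] at hb ⊢
    exact (T_stC A γ Φ ζ y n _ hb).2 (h _)
  · exact A.fn_one _

end

theorem code_pi (δ : Ordinal.{u}) (P : ℕ → ZFSet.{u} → ZFSet.{u}) : ∃ κ : List ℕ → Code,
    -- soundness
    (∀ (γ Φ ζ Z : ZFSet.{u}) (F : ℕ → ZFSet.{u} → ZFSet.{u}),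
      (∀ n : ℕ, ∀ y ∈ Z, zapp Φ (pair (n : Ordinal.{u}).toZFSet (pair ζ y)) = F n y) →
      ∀ (c : ℕ → ℕ) (y : ℕ → ZFSet.{u}), (∀ i, y i ∈ Z) →
      (∀ n, eval δ P (κ (pre c n)) (pair (pair γ Φ) (wt pair ζ y n)) = one) →
      ∃ X : Set ZFSet.{u}, Good F X ∧ γ ∈ X ∧ ζ ∈ X ∧ Bad δ P γ ζ X) ∧
    -- completeness
    (∀ (M : Type v) (A : Alg δ P M) (D : PD M),
      IsPI A D → D.car.Countable → ∀ γ ∈ D.base, ∀ Φ : M, (∀ i ∈ D.ix, A.mem i γ) →
      ∀ s : ℕ → M, s 0 ∈ D.base → (∀ n, s n ∈ D.car) → (∀ n, A.mem (s (n + 1)) (s n)) →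
      (∀ n, ∀ x ∈ D.base, A.fn .app (A.pr Φ (A.pr (A.fn (numC n) A.tt) (A.pr (s 0) x))) ∈ D.base) →
      ∃ (c : ℕ → ℕ) (y : ℕ → M), (∀ i, y i ∈ D.base) ∧
        ∀ n, A.T (A.fn (κ (pre c n)) (A.pr (A.pr γ Φ) (wt A.pr (s 0) y n)))) := by
  classical
  refine ⟨kap δ P, ?_, ?_⟩
  · intro γ Φ ζ Z F hF c y hy h
    obtain ⟨hok, hst⟩ := kap_sound (univAlg δ P) c γ Φ ζ y h
    have hst' : ∀ I, (stm c I).evU δ P (rho γ Φ ζ y) := fun I => (univ_evQ δ P _ _).1 (hst I)
    obtain ⟨o1, o2, o3, o4, o5, o6, o7⟩ := hok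
    have f1 : ∀ a i, Bc c i → y (fnc c a i) = eval δ P a (y i) := by
      intro a i hi
      have := hst' (.fn a i)
      simpa only [stm, if_pos hi, QF.evU, Tm.evU, rho] using this
    have f2 : ∀ i j, Bc c i → Bc c j → y (prc c i j) = pair (y i) (y j) := by
      intro i j hi hj
      have := hst' (.pr i j)
      simpa only [stm, if_pos (And.intro hi hj), QF.evU, Tm.evU, rho] using this
    have f3 : ∀ i j, Bc c i → Bc c j → y i = y j → i = j := by
      intro i j hi hj hij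
      by_contra hne
      have := hst' (.inj i j)
      simp only [stm, if_pos (And.intro hi (And.intro hj hne)), QF.evU, Tm.evU, rho] at this
      exact this hij
    have f4 : ∀ i, Ic c i → y i ∈ γ := by
      intro i hi
      have := hst' (.ix i)
      simpa only [stm, if_pos hi, QF.evU, Tm.evU, rho] using this
    have f5 : y (i0c c) = γ := by
      have := hst' .g0
      simpa only [stm, QF.evU, Tm.evU, rho] using this
    have f6 : y (sc c 0) = ζ := by
      have := hst' .s0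
      simpa only [stm, QF.evU, Tm.evU, rho] using this
    have f7 : ∀ n i, Bc c i → y (clc c n i) = F n (y i) := by
      intro n i hi
      have := hst' (.cl n i)
      simp only [stm, if_pos hi, QF.evU, Tm.evU, rho] at this
      rw [this, eval_numC]
      simp only [eval, zfst_pair, zsnd_pair]
      exact hF n (y i) (hy i)
    refine ⟨y '' {i | Bc c i}, ⟨?_, ?_, ?_, ?_⟩, ?_, ?_, ?_⟩
    · exact (Set.to_countable _).image y
    · exact ⟨y (ttc c), ttc c, o2.1, rfl⟩
    · rintro n _ ⟨i, hi, rfl⟩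
      exact ⟨clc c n i, o7 n i hi, f7 n i hi⟩
    · rintro _ ⟨i, hi, rfl⟩ _ ⟨j, hj, rfl⟩
      exact ⟨prc c i j, o2.2.2.1 i hi j hj, f2 i j hi hj⟩
    · exact ⟨i0c c, o6, f5⟩
    · exact ⟨sc c 0, o4, f6⟩
    · refine ⟨algOf o1, pdOf c, y, pdOf_isPI o1 o2 o3, rfl, ?_, rfl, ?_, ?_, ?_, sc c, o4, f6, o5⟩
      · intro i hi j hj hij
        exact f3 i j hi hj hij
      · intro i hi a
        exact f1 a i hi
      · intro i hi j hj
        exact f2 i j hi hj
      · intro i hi
        exact f4 i hi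
  · intro M A D hD hcar γ hγ Φ hix s hs0 hs hdesc hcl
    obtain ⟨A', D', m, hm⟩ := exists_isoNat A D hD hcar
    -- the inverse of `m`
    have hsurj : ∀ x ∈ D.car, ∃ i, m i = x := fun x hx => by
      obtain ⟨i, -, hi⟩ := hm.bij.surjOn hx
      exact ⟨i, hi⟩
    have hinj : ∀ i j, m i = m j → i = j := fun i j h => hm.bij.injOn trivial trivial h
    choose! m' hm' using hsurj
    set s' : ℕ → ℕ := fun n => m' (s n) with hs'
    have es' : ∀ n, m (s' n) = s n := fun n => hm' _ (hs n)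
    set cl' : ℕ → ℕ → ℕ := fun n i =>
      m' (A.fn .app (A.pr Φ (A.pr (A.fn (numC n) A.tt) (A.pr (s 0) (m i))))) with hcl'
    have ecl' : ∀ n, ∀ i ∈ D'.base, m (cl' n i) =
        A.fn .app (A.pr Φ (A.pr (A.fn (numC n) A.tt) (A.pr (s 0) (m i)))) := by
      intro n i hi
      exact hm' _ (hD.base_sub (hcl n _ ((hm.base i).1 hi)))
    have ei0 : m (m' γ) = γ := hm' _ (hD.base_sub hγ)
    obtain ⟨c, hok, c1, c2, c3, c4, c5, c6, c7⟩ := exists_code A' D' hm.pi hm.car s' cl' (m' γ)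
      ((hm.base _).2 (by rw [es']; exact hs0))
      (fun n => (hm.mem _ _).2 (by rw [es', es']; exact hdesc n))
      ((hm.base _).2 (by rw [ei0]; exact hγ))
      (fun n i hi => (hm.base _).2 (by rw [ecl' n i hi]; exact hcl n _ ((hm.base i).1 hi)))
    set y : ℕ → M := fun i => if i ∈ D'.base then m i else γ with hy
    have ey : ∀ i ∈ D'.base, y i = m i := fun i hi => if_pos hi
    refine ⟨c, y, ?_, kap_complete A c γ Φ (s 0) y hok ?_⟩
    · intro i
      by_cases h : i ∈ D'.base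
      · rw [ey i h]
        exact (hm.base i).1 h
      · rw [hy]
        simp only [if_neg h]
        exact hγ
    · intro I
      cases I with
      | triv => exact rfl
      | fn a i =>
        simp only [stm]
        split_ifs with h
        · rw [c3] at h
          have h' := hm.pi.base_fn i h a
          show y (fnc c a i) = A.fn a (y i)
          rw [c1, ey _ h', ey _ h, hm.fn]
        · exact rfl
      | pr i j =>
        simp only [stm]
        split_ifs with h
        · rw [c3, c3] at h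
          have h' := hm.pi.base_pr i h.1 j h.2
          show y (prc c i j) = A.pr (y i) (y j)
          rw [c2, ey _ h', ey _ h.1, ey _ h.2, hm.pr]
        · exact rfl
      | inj i j =>
        simp only [stm]
        split_ifs with h
        · rw [c3, c3] at h
          show ¬ y i = y j
          rw [ey _ h.1, ey _ h.2.1]
          exact fun e => h.2.2 (hinj i j e)
        · exact rfl
      | ix i =>
        simp only [stm]
        split_ifs with h
        · rw [c4] at h
          show A.mem (y i) γ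
          rw [ey _ (hm.pi.ix_sub h)]
          exact hix _ ((hm.ix i).1 h)
        · exact rfl
      | g0 =>
        show y (i0c c) = γ
        rw [c7, ey _ ((hm.base _).2 (by rw [ei0]; exact hγ)), ei0]
      | s0 =>
        show y (sc c 0) = s 0
        rw [c5, ey _ ((hm.base _).2 (by rw [es']; exact hs0)), es']
      | cl n i =>
        simp only [stm]
        split_ifs with h
        · rw [c3] at h
          show y (clc c n i) = A.fn .app (A.pr Φ (A.pr (A.fn (numC n) (A.fn .one γ))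
            (A.pr (s 0) (y i))))
          rw [c6, ey _ ((hm.base _).2 (by rw [ecl' n i h]; exact hcl n _ ((hm.base i).1 h))),
            ecl' n i h, ey _ h, A.fn_one]
        · exact rfl

end H94W
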