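import Mathlib

set_option autoImplicit false

/-!
# `Σ¹₃(B)` sets of reals and `Σ₁(ω₁)`-definability over `⟨H(ω₂), ∈, B, NS_{ω₁}⟩`: definitions

(The definitions are those of `Pool.Agent.Results.MP_ebf58a_lc.ClaimImpliesCH`.)  At the end:
Woodin cardinals.
-/

namespace H94W

open Cardinal Ordinal

universe u

/-! ### Universally Baire sets, and `Σ¹₃(B)` sets of reals -/

/-- `B ⊆ ω^ω` is universally Baire: for every compact Hausdorff space `X` and every continuous
`f : X → ω^ω`, the preimage `f⁻¹[B]` has the property of Baire in `X` (it differs from an open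
set by a meagre set). -/
def UniversallyBaire (B : Set (ℕ → ℕ)) : Prop :=
  ∀ (X : Type u) [TopologicalSpace X] [CompactSpace X] [T2Space X] (f : X → ℕ → ℕ),
    Continuous f → ∃ U : Set X, IsOpen U ∧ IsMeagre (symmDiff (f ⁻¹' B) U)

/-- Number terms: number variables `n_i`, zero, successor, sum, product, and the value
`y_i (t)` of the real variable `y_i` at a number term `t`. -/
inductive NumTerm : Type
  | var (i : ℕ) : NumTerm
  | zero : NumTerm
  | succ (t : NumTerm) : NumTerm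
  | add (s t : NumTerm) : NumTerm
  | mul (s t : NumTerm) : NumTerm
  | app (i : ℕ) (t : NumTerm) : NumTerm

/-- Formulas over `(ω, ω^ω, B)` with number quantifiers only: equations of number terms,
`y_i ∈ B`, negation, conjunction, and `∀ n_i`. -/
inductive ArithFormula : Type
  | eq (s t : NumTerm) : ArithFormula
  | inB (i : ℕ) : ArithFormula
  | not (φ : ArithFormula) : ArithFormula
  | and (φ ψ : ArithFormula) : ArithFormula
  | all (i : ℕ) (φ : ArithFormula) : ArithFormula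

/-- The value of a number term, the real variables being interpreted by `y` and the number
variables by `n`. -/
def NumTerm.val (y : ℕ → ℕ → ℕ) (n : ℕ → ℕ) : NumTerm → ℕ
  | .var i => n i
  | .zero => 0
  | .succ t => t.val y n + 1
  | .add s t => s.val y n + t.val y n
  | .mul s t => s.val y n * t.val y n
  | .app i t => y i (t.val y n)

/-- Satisfaction in `(ω, ω^ω, B)`. -/
def ArithFormula.Sat (B : Set (ℕ → ℕ)) (y : ℕ → ℕ → ℕ) : (ℕ → ℕ) → ArithFormula → Prop
  | n, .eq s t => s.val y n = t.val y n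
  | _, .inB i => y i ∈ B
  | n, .not φ => ¬ φ.Sat B y n
  | n, .and φ ψ => φ.Sat B y n ∧ ψ.Sat B y n
  | n, .all i φ => ∀ m : ℕ, φ.Sat B y (Function.update n i m)

/-- The interpretation of the real variables `y_0, y_1, y_2, y_3` by `x, y₁, y₂, y₃`. -/
def reals (x y₁ y₂ y₃ : ℕ → ℕ) : ℕ → ℕ → ℕ
  | 0 => x
  | 1 => y₁
  | 2 => y₂
  | 3 => y₃
  | _ => fun _ => 0

/-- `A` is `Σ¹₃(B)` (lightface): it is defined over `(ω, ω^ω, B)` by a formula
`∃ y₁ ∀ y₂ ∃ y₃ ψ(x, y₁, y₂, y₃)` where `ψ` has only number quantifiers. -/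
def IsSigma13 (B A : Set (ℕ → ℕ)) : Prop :=
  ∃ ψ : ArithFormula, A = {x | ∃ y₁ : ℕ → ℕ, ∀ y₂ : ℕ → ℕ, ∃ y₃ : ℕ → ℕ,
    ψ.Sat B (reals x y₁ y₂ y₃) (fun _ => 0)}

/-! ### The structure `M_B = ⟨H(ω₂), ∈, B, NS_{ω₁}⟩` -/

/-- `H(ω₂)`: the sets whose transitive closure has cardinality at most `ℵ₁`, i.e. which are
included in a transitive set of cardinality at most `ℵ₁`. -/
def H2 : Type (u + 1) :=
  {x : ZFSet.{u} // ∃ t : ZFSet.{u}, t.IsTransitive ∧ x ⊆ t ∧ t.card ≤ ℵ₁}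

/-- The real `f : ω → ω` as a set of ordered pairs of von Neumann natural numbers. -/
noncomputable def realSet (f : ℕ → ℕ) : ZFSet.{u} :=
  ZFSet.range fun n : ℕ => ZFSet.pair (n : Ordinal.{u}).toZFSet (f n : Ordinal.{u}).toZFSet

/-- `x` is in `NS_{ω₁}`: it is a nonstationary subset of `ω₁`. -/
def InNS (x : ZFSet.{u}) : Prop :=
  x ⊆ (ω_ 1).toZFSet ∧
    ¬ IsStationary {a : Set.Iio (ω_ 1 : Ordinal.{u}) | (a : Ordinal.{u}).toZFSet ∈ x}

/-- `Δ₀` formulas in the language with `∈`, a unary predicate for `B` and a unary predicate for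
`NS_{ω₁}`: atomic formulas, negation, conjunction, bounded quantification `∀ v_i ∈ v_j`. -/
inductive Delta0 : Type
  | mem (i j : ℕ) : Delta0
  | eq (i j : ℕ) : Delta0
  | inB (i : ℕ) : Delta0
  | inNS (i : ℕ) : Delta0
  | not (φ : Delta0) : Delta0
  | and (φ ψ : Delta0) : Delta0
  | ball (i j : ℕ) (φ : Delta0) : Delta0
  deriving Countable

/-- `Σ₁` formulas: a block of existential quantifiers followed by a `Δ₀` formula. -/
inductive Sigma1 : Type
  | base (φ : Delta0) : Sigma1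
  | ex (i : ℕ) (φ : Sigma1) : Sigma1
  deriving Countable

/-- Satisfaction of `Δ₀` formulas in `M_B`. -/
def Delta0.Sat (B : Set (ℕ → ℕ)) : (ℕ → H2.{u}) → Delta0 → Prop
  | v, .mem i j => (v i).1 ∈ (v j).1
  | v, .eq i j => v i = v j
  | v, .inB i => ∃ f ∈ B, (v i).1 = realSet f
  | v, .inNS i => InNS (v i).1
  | v, .not φ => ¬ φ.Sat B v
  | v, .and φ ψ => φ.Sat B v ∧ ψ.Sat B v
  | v, .ball i j φ => ∀ a : H2.{u}, a.1 ∈ (v j).1 → φ.Sat B (Function.update v i a)

/-- Satisfaction of `Σ₁` formulas in `M_B`. -/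
def Sigma1.Sat (B : Set (ℕ → ℕ)) : (ℕ → H2.{u}) → Sigma1 → Prop
  | v, .base φ => φ.Sat B v
  | v, .ex i φ => ∃ a : H2.{u}, φ.Sat B (Function.update v i a)

theorem omega1_mem_H2 : ∃ t : ZFSet.{u}, t.IsTransitive ∧ (ω_ 1 : Ordinal.{u}).toZFSet ⊆ t ∧
    t.card ≤ ℵ₁ :=
  ⟨(ω_ 1 : Ordinal.{u}).toZFSet, (ZFSet.isOrdinal_toZFSet _).isTransitive, fun _ h => h, by simp⟩

/-- `ω₁` as an element of `H(ω₂)`. -/
noncomputable def omega1 : H2.{u} := ⟨(ω_ 1).toZFSet, omega1_mem_H2⟩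

/-- The set of reals `A` is `Σ₁(ω₁)`-definable over `M_B`: for some `Σ₁` formula `φ(v₀, v₁)`,
the elements `x` of `H(ω₂)` with `M_B ⊨ φ(x, ω₁)` are exactly the elements of `A`. (All variables
other than `v₀` are interpreted by `ω₁`, the only parameter allowed.) -/
def IsSigma1Omega1 (B A : Set (ℕ → ℕ)) : Prop :=
  ∃ φ : Sigma1, ∀ x : H2.{u},
    φ.Sat B (fun i => if i = 0 then x else omega1) ↔ ∃ f ∈ A, x.1 = realSet f

/-! ### Basic facts -/

theorem ordNat_injective {m n : ℕ} (h : (m : Ordinal.{u}).toZFSet = (n : Ordinal.{u}).toZFSet) :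
    m = n := by
  have := Ordinal.toZFSet_injective h
  exact_mod_cast this

theorem realSet_injective : Function.Injective (realSet.{u}) := by
  intro f g h
  funext n
  have h1 : ZFSet.pair (n : Ordinal.{u}).toZFSet (f n : Ordinal.{u}).toZFSet ∈ realSet.{u} f := by
    unfold realSet
    rw [ZFSet.mem_range]
    exact ⟨n, rfl⟩
  rw [h] at h1
  unfold realSet at h1
  rw [ZFSet.mem_range] at h1
  obtain ⟨m, hm⟩ := h1
  rw [ZFSet.pair_inj] at hm
  have h2 := ordNat_injective hm.1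
  subst h2
  exact (ordNat_injective hm.2).symm

/-! ### Reals are in `H(ω₂)` -/

/-- A countable transitive set containing all ordered pairs of natural numbers. -/
noncomputable def smallSet : ZFSet.{u} :=
  ZFSet.range fun p : ℕ ⊕ (ℕ × ℕ) ⊕ (ℕ × ℕ) => match p with
    | .inl n => (n : Ordinal.{u}).toZFSet
    | .inr (.inl (n, m)) => {(n : Ordinal.{u}).toZFSet, (m : Ordinal.{u}).toZFSet}
    | .inr (.inr (n, m)) => ZFSet.pair (n : Ordinal.{u}).toZFSet (m : Ordinal.{u}).toZFSet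

theorem nat_mem_smallSet (n : ℕ) : (n : Ordinal.{u}).toZFSet ∈ smallSet.{u} := by
  unfold smallSet
  rw [ZFSet.mem_range]
  exact ⟨.inl n, rfl⟩

theorem two_mem_smallSet (n m : ℕ) :
    ({(n : Ordinal.{u}).toZFSet, (m : Ordinal.{u}).toZFSet} : ZFSet) ∈ smallSet.{u} := by
  unfold smallSet
  rw [ZFSet.mem_range]
  exact ⟨.inr (.inl (n, m)), rfl⟩

theorem smallSet_transitive : smallSet.{u}.IsTransitive := by
  intro y hy z hz
  have hy' := hy
  unfold smallSet at hy'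
  rw [ZFSet.mem_range] at hy'
  obtain ⟨p, hp⟩ := hy'
  rcases p with n | ⟨n, m⟩ | ⟨n, m⟩
  · simp only at hp
    subst hp
    rw [Ordinal.mem_toZFSet_iff] at hz
    obtain ⟨a, ha, rfl⟩ := hz
    obtain ⟨k, rfl⟩ := Ordinal.lt_omega0.1 (ha.trans (Ordinal.natCast_lt_omega0 n))
    exact nat_mem_smallSet k
  · simp only at hp
    subst hp
    rw [ZFSet.mem_pair] at hz
    rcases hz with rfl | rfl
    · exact nat_mem_smallSet n
    · exact nat_mem_smallSet m
  · simp only at hp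
    subst hp
    unfold ZFSet.pair at hz
    rw [ZFSet.mem_pair] at hz
    rcases hz with rfl | rfl
    · have := two_mem_smallSet.{u} n n
      rwa [ZFSet.pair_eq_singleton] at this
    · exact two_mem_smallSet n m

theorem smallSet_card : smallSet.{u}.card ≤ ℵ₁ := by
  have h := ZFSet.lift_card_range_le (f := fun p : ℕ ⊕ (ℕ × ℕ) ⊕ (ℕ × ℕ) => match p with
    | .inl n => (n : Ordinal.{u}).toZFSet
    | .inr (.inl (n, m)) => ({(n : Ordinal.{u}).toZFSet, (m : Ordinal.{u}).toZFSet} : ZFSet.{u})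
    | .inr (.inr (n, m)) => ZFSet.pair (n : Ordinal.{u}).toZFSet (m : Ordinal.{u}).toZFSet)
  have h2 : lift.{u} #(ℕ ⊕ (ℕ × ℕ) ⊕ (ℕ × ℕ)) ≤ ℵ₀ := by
    rw [Cardinal.lift_le_aleph0]
    exact Cardinal.mk_le_aleph0
  have h3 : smallSet.{u}.card ≤ ℵ₀ := by
    have := h.trans h2
    simpa [smallSet] using this
  exact h3.trans (Cardinal.aleph0_le_aleph 1)

theorem realSet_subset (f : ℕ → ℕ) : realSet.{u} f ⊆ smallSet.{u} := by
  intro x hx
  unfold realSet at hx
  rw [ZFSet.mem_range] at hx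
  obtain ⟨n, rfl⟩ := hx
  unfold smallSet
  rw [ZFSet.mem_range]
  exact ⟨.inr (.inr (n, f n)), rfl⟩

/-- A real as an element of `H(ω₂)`. -/
noncomputable def realH (f : ℕ → ℕ) : H2.{u} :=
  ⟨realSet f, smallSet, smallSet_transitive, realSet_subset f, smallSet_card⟩

section Woodin

open ZFSet

/-! ### Woodin cardinals -/

/-- Formulas of the language of set theory. -/
inductive Fml : Type
  | mem (i j : ℕ) : Fml
  | eq (i j : ℕ) : Fml
  | not (φ : Fml) : Fml
  | and (φ ψ : Fml) : Fml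
  | all (i : ℕ) (φ : Fml) : Fml

/-- Satisfaction of formulas in the class `M`, under the assignment `v`. -/
def Fml.Sat (M : Set ZFSet.{u}) : Fml → (ℕ → ZFSet.{u}) → Prop
  | .mem i j, v => v i ∈ v j
  | .eq i j, v => v i = v j
  | .not φ, v => ¬ φ.Sat M v
  | .and φ ψ, v => φ.Sat M v ∧ ψ.Sat M v
  | .all i φ, v => ∀ a ∈ M, φ.Sat M (Function.update v i a)

/-- `j : V → M` is an elementary embedding into the transitive class `M`. -/
structure IsEmb (j : ZFSet.{u} → ZFSet.{u}) (M : Set ZFSet.{u}) : Prop where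
  trans : ∀ x ∈ M, ∀ y ∈ x, y ∈ M
  maps : ∀ x, j x ∈ M
  elem : ∀ (φ : Fml) (v : ℕ → ZFSet.{u}), φ.Sat Set.univ v ↔ φ.Sat M (fun n => j (v n))

/-- The critical point of `j` is `κ`. -/
def Crit (j : ZFSet.{u} → ZFSet.{u}) (κ : Ordinal.{u}) : Prop :=
  (∀ β < κ, j β.toZFSet = β.toZFSet) ∧ j κ.toZFSet ≠ κ.toZFSet

/-- `δ` is a Woodin cardinal: for all `A ⊆ V_δ` there are arbitrarily large `κ < δ` such that for
all `lam < δ` there is an elementary embedding `j : V → M` with critical point `κ` such that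
`lam < j(κ)`, `V_lam ⊆ M` and `j(A) ∩ V_lam = A ∩ V_lam`. -/
def IsWoodin (δ : Ordinal.{u}) : Prop :=
  δ.card.ord = δ ∧ ∀ A : ZFSet.{u}, A ⊆ V_ δ → ∀ α < δ, ∃ κ, α < κ ∧ κ < δ ∧
    ∀ lam < δ, ∃ (j : ZFSet.{u} → ZFSet.{u}) (M : Set ZFSet.{u}), IsEmb j M ∧ Crit j κ ∧
      lam.toZFSet ∈ j κ.toZFSet ∧ (∀ x ∈ V_ lam, x ∈ M) ∧ ∀ x ∈ V_ lam, (x ∈ j A ↔ x ∈ A)

end Woodin

end H94W
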