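import Pool.Agent.Lib.H94W.Defs
import Pool.Agent.Lib.H94W.Stmt
import Pool.Agent.Lib.H45Osc.Stat

/-!
# Project Woodin, chunk O, part 1: Skolem functions and facts of the universe
-/

set_option autoImplicit false

namespace H94W

open Ordinal Cardinal ZFSet

universe u v w

/-! ### Countable ordinals -/

/-- The ordinals below `ω₁`. -/
abbrev J1 : Type (u + 1) := Set.Iio (ω_ 1 : Ordinal.{u})

/-- `ω₁` as a set. -/
noncomputable def w1 : ZFSet.{u} := (ω_ 1 : Ordinal.{u}).toZFSet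

theorem mem_w1 {x : ZFSet.{u}} : x ∈ w1.{u} ↔ ∃ a < (ω_ 1 : Ordinal.{u}), a.toZFSet = x :=
  Ordinal.mem_toZFSet_iff

theorem isOrdinal_w1 : IsOrdinal w1.{u} := isOrdinal_toZFSet _

theorem countable_Iio_iff {a : Ordinal.{u}} : (Set.Iio a).Countable ↔ a < ω_ 1 := by
  rw [← Cardinal.le_aleph0_iff_set_countable, Cardinal.mk_Iio_ordinal, Cardinal.lift_le_aleph0,
    ← Order.lt_succ_iff, Cardinal.succ_aleph0, ← Cardinal.lt_ord, Cardinal.ord_aleph]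

theorem setOf_toZFSet (a : Ordinal.{u}) :
    {y | y ∈ a.toZFSet} = Ordinal.toZFSet '' Set.Iio a := by
  ext y
  simp only [Set.mem_ofPred_eq, Ordinal.mem_toZFSet_iff, Set.mem_image, Set.mem_Iio]

theorem ctbl_toZFSet_iff {a : Ordinal.{u}} : Ctbl a.toZFSet ↔ a < ω_ 1 := by
  unfold Ctbl
  rw [setOf_toZFSet, ← countable_Iio_iff]
  exact ⟨fun h => Set.countable_of_injective_of_countable_image
    Ordinal.toZFSet_injective.injOn h, fun h => h.image _⟩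

theorem ctbl_of_mem_w1 {x : ZFSet.{u}} (hx : x ∈ w1.{u}) : Ctbl x := by
  obtain ⟨a, ha, rfl⟩ := mem_w1.1 hx
  exact ctbl_toZFSet_iff.2 ha

theorem mem_w1_of_ord {x : ZFSet.{u}} (hx : IsOrdinal x) (hc : Ctbl x) : x ∈ w1.{u} := by
  rw [← hx.toZFSet_rank_eq] at hc ⊢
  exact mem_w1.2 ⟨_, ctbl_toZFSet_iff.1 hc, rfl⟩

theorem isOmega1_I1 : Pool.Agent.Lib.H45Osc.IsOmega1 J1.{u} where
  countable_Iio := by
    intro i
    have h1 : (Set.Iio i.1).Countable := countable_Iio_iff.2 i.2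
    have h2 : Set.Iio i = (fun x : J1.{u} => x.1) ⁻¹' Set.Iio i.1 := rfl
    rw [h2]
    exact h1.preimage Subtype.val_injective
  not_countable := by
    intro h
    have h1 : (Set.Iio (ω_ 1 : Ordinal.{u})).Countable := by
      rw [← Set.countable_coe_iff]
      exact Set.countable_univ_iff.1 h
    exact absurd (countable_Iio_iff.1 h1) (lt_irrefl _)

/-! ### The constants -/

/-- The nonstationary ideal. -/
noncomputable def nsset : ZFSet.{u} := ZFSet.sep InNS (powerset w1)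

theorem mem_nsset {x : ZFSet.{u}} : x ∈ nsset.{u} ↔ InNS x := by
  unfold nsset
  rw [mem_sep, mem_powerset]
  exact ⟨fun h => h.2, fun h => ⟨h.1, h⟩⟩

/-- The set of reals `B`. -/
noncomputable def bset (B : Set (ℕ → ℕ)) : ZFSet.{u} := ZFSet.range fun f : B => realSet f.1

theorem mem_bset {B : Set (ℕ → ℕ)} {x : ZFSet.{u}} : x ∈ bset.{u} B ↔ ∃ f ∈ B, x = realSet f := by
  unfold bset
  rw [mem_range]
  constructor
  · rintro ⟨⟨f, hf⟩, rfl⟩; exact ⟨f, hf, rfl⟩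
  · rintro ⟨f, hf, rfl⟩; exact ⟨⟨f, hf⟩, rfl⟩

theorem ctbl_bset {B : Set (ℕ → ℕ)} (hB : B.Countable) : Ctbl (bset.{u} B) := by
  have h : {y | y ∈ bset.{u} B} ⊆ realSet '' B := by
    rintro y hy
    obtain ⟨f, hf, rfl⟩ := mem_bset.1 hy
    exact ⟨f, hf, rfl⟩
  exact (hB.image _).mono h

theorem ctbl_smallSet : Ctbl smallSet.{u} := by
  have h : {y | y ∈ smallSet.{u}} ⊆ Set.range fun p : ℕ ⊕ (ℕ × ℕ) ⊕ (ℕ × ℕ) => (match p with
    | .inl n => (n : Ordinal.{u}).toZFSet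
    | .inr (.inl (n, m)) => {(n : Ordinal.{u}).toZFSet, (m : Ordinal.{u}).toZFSet}
    | .inr (.inr (n, m)) => ZFSet.pair (n : Ordinal.{u}).toZFSet (m : Ordinal.{u}).toZFSet :
      ZFSet.{u}) := by
    intro y hy
    have hy' : y ∈ smallSet.{u} := hy
    unfold smallSet at hy'
    rw [mem_range] at hy'
    exact hy'
  exact (Set.countable_range _).mono h

/-! ### Skolem functions -/

open Classical in
/-- A Skolem function for the relation `R`. -/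
noncomputable def skol (R : ZFSet.{u} → ZFSet.{u} → Prop) (x : ZFSet.{u}) : ZFSet.{u} :=
  if h : ∃ y, R x y then h.choose else ∅

theorem skol_spec {R : ZFSet.{u} → ZFSet.{u} → Prop} {x : ZFSet.{u}} (h : ∃ y, R x y) :
    R x (skol R x) := by
  unfold skol
  rw [dif_pos h]
  exact h.choose_spec

/-- An element of the symmetric difference. -/
noncomputable def dif : ZFSet.{u} → ZFSet.{u} :=
  skol fun p z => (z ∈ zfst p ∧ z ∉ zsnd p) ∨ (z ∉ zfst p ∧ z ∈ zsnd p)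

theorem dif_spec {x y : ZFSet.{u}} (h : x ≠ y) :
    (dif (pair x y) ∈ x ∧ dif (pair x y) ∉ y) ∨ (dif (pair x y) ∉ x ∧ dif (pair x y) ∈ y) := by
  have h1 : ∃ z, (z ∈ zfst (pair x y) ∧ z ∉ zsnd (pair x y)) ∨
      (z ∉ zfst (pair x y) ∧ z ∈ zsnd (pair x y)) := by
    rw [zfst_pair, zsnd_pair]
    by_contra hne
    push Not at hne
    apply h
    ext z
    by_cases hz : z ∈ x
    · exact ⟨fun _ => (hne z).1 hz, fun _ => hz⟩
    · exact ⟨fun h => absurd h hz, fun h => absurd h ((hne z).2 hz)⟩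
  have := skol_spec (R := fun p z => (z ∈ zfst p ∧ z ∉ zsnd p) ∨ (z ∉ zfst p ∧ z ∈ zsnd p)) h1
  rw [zfst_pair, zsnd_pair] at this
  exact this

open Classical in
/-- An enumeration of a countable set. -/
noncomputable def gsel (x : ZFSet.{u}) : ℕ → ZFSet.{u} :=
  if h : ∃ g : ℕ → ZFSet.{u}, ∀ y ∈ x, ∃ n, g n = y then h.choose else fun _ => ∅

theorem gsel_spec {x : ZFSet.{u}} (h : Ctbl x) {y : ZFSet.{u}} (hy : y ∈ x) :
    ∃ n, gsel x n = y := by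
  have h1 : ∃ g : ℕ → ZFSet.{u}, ∀ y ∈ x, ∃ n, g n = y := by
    obtain ⟨g, hg⟩ := h.exists_eq_range ⟨y, hy⟩
    refine ⟨g, fun z hz => ?_⟩
    have : z ∈ Set.range g := hg ▸ hz
    exact this
  unfold gsel
  rw [dif_pos h1]
  exact h1.choose_spec y hy

open Classical in
/-- The enumeration functions: `⟨x, n⟩ ↦` the `n`-th element of `x`. -/
noncomputable def enumf (p : ZFSet.{u}) : ZFSet.{u} :=
  if h : ∃ n : ℕ, zsnd p = (n : Ordinal.{u}).toZFSet then gsel (zfst p) h.choose else ∅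

theorem enumf_pair (x : ZFSet.{u}) (n : ℕ) :
    enumf (pair x (n : Ordinal.{u}).toZFSet) = gsel x n := by
  have h : ∃ m : ℕ, zsnd (pair x (n : Ordinal.{u}).toZFSet) = (m : Ordinal.{u}).toZFSet :=
    ⟨n, zsnd_pair _ _⟩
  unfold enumf
  rw [dif_pos h, zfst_pair]
  have h1 := (zsnd_pair x (n : Ordinal.{u}).toZFSet).symm.trans h.choose_spec
  exact congrArg _ (ordNat_injective h1).symm

/-- The unordered pair. -/
noncomputable def upr (p : ZFSet.{u}) : ZFSet.{u} := {zfst p, zsnd p}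

theorem mem_upr {x y z : ZFSet.{u}} : z ∈ upr (pair x y) ↔ z = x ∨ z = y := by
  unfold upr
  rw [zfst_pair, zsnd_pair, mem_pair]

theorem mem_pair_upr {x y z : ZFSet.{u}} :
    z ∈ pair x y ↔ z = upr (pair x x) ∨ z = upr (pair x y) := by
  unfold upr
  rw [zfst_pair, zsnd_pair, zfst_pair, zsnd_pair]
  unfold ZFSet.pair
  rw [mem_pair, pair_eq_singleton]

/-- `c` is a club subset of `ω₁`. -/
def ClubZ (c : ZFSet.{u}) : Prop :=
  ∃ t : Set J1.{u}, IsClub t ∧ ∀ z, z ∈ c ↔ ∃ a ∈ t, a.1.toZFSet = z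

/-- A club disjoint from the given nonstationary set. -/
noncomputable def clb : ZFSet.{u} → ZFSet.{u} := skol fun x c => ClubZ c ∧ ∀ z ∈ c, z ∉ x

theorem clb_spec {x : ZFSet.{u}} (h : InNS x) : ClubZ (clb x) ∧ ∀ z ∈ clb x, z ∉ x := by
  apply skol_spec (R := fun x c => ClubZ c ∧ ∀ z ∈ c, z ∉ x)
  obtain ⟨t, ht, hd⟩ := not_isStationary_iff.1 h.2
  have key : ∀ z, z ∈ ZFSet.sep (fun z => ∃ a ∈ t, a.1.toZFSet = z) w1.{u} ↔
      ∃ a ∈ t, a.1.toZFSet = z := by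
    intro z
    rw [mem_sep]
    refine ⟨fun h => h.2, fun h => ⟨?_, h⟩⟩
    obtain ⟨a, _, rfl⟩ := h
    exact mem_w1.2 ⟨a.1, a.2, rfl⟩
  refine ⟨ZFSet.sep (fun z => ∃ a ∈ t, a.1.toZFSet = z) w1, ⟨t, ht, key⟩, ?_⟩
  intro z hz hzx
  obtain ⟨a, ha, rfl⟩ := (key z).1 hz
  exact Set.disjoint_left.1 hd (show a ∈ {a : J1.{u} | a.1.toZFSet ∈ x} from hzx) ha

theorem ClubZ.sub {c z : ZFSet.{u}} (h : ClubZ c) (hz : z ∈ c) : z ∈ w1.{u} := by
  obtain ⟨t, _, h2⟩ := h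
  obtain ⟨a, _, rfl⟩ := (h2 z).1 hz
  exact mem_w1.2 ⟨a.1, a.2, rfl⟩

/-- The next element of a club. -/
noncomputable def nxt : ZFSet.{u} → ZFSet.{u} := skol fun p z => z ∈ zfst p ∧ zsnd p ∈ z

theorem nxt_spec {c a : ZFSet.{u}} (h : ClubZ c) (ha : a ∈ w1.{u}) :
    nxt (pair c a) ∈ c ∧ a ∈ nxt (pair c a) := by
  have h1 : ∃ z, z ∈ zfst (pair c a) ∧ zsnd (pair c a) ∈ z := by
    rw [zfst_pair, zsnd_pair]
    obtain ⟨b, hb, rfl⟩ := mem_w1.1 ha
    obtain ⟨t, ht, h2⟩ := h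
    obtain ⟨j, hj⟩ := isOmega1_I1.exists_lt (⟨b, hb⟩ : J1.{u})
    obtain ⟨k, hk, hjk⟩ := ht.isCofinal j
    exact ⟨k.1.toZFSet, (h2 _).2 ⟨k, hk, rfl⟩,
      Ordinal.toZFSet_mem_toZFSet_iff.2 (lt_of_lt_of_le hj hjk)⟩
  have := skol_spec (R := fun p z => z ∈ zfst p ∧ zsnd p ∈ z) h1
  rw [zfst_pair, zsnd_pair] at this
  exact this

/-- A bound for a club below an ordinal that is not in it. -/
noncomputable def bnd : ZFSet.{u} → ZFSet.{u} :=
  skol fun p b => b ∈ zsnd p ∧ ∀ z ∈ zfst p, z ∈ zsnd p → b ∉ z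

theorem bnd_spec {c a : ZFSet.{u}} (h : ClubZ c) (ha : a ∈ w1.{u}) (ha0 : a ≠ ∅) (hac : a ∉ c) :
    bnd (pair c a) ∈ a ∧ ∀ z ∈ c, z ∈ a → bnd (pair c a) ∉ z := by
  have h1 : ∃ b, b ∈ zsnd (pair c a) ∧ ∀ z ∈ zfst (pair c a), z ∈ zsnd (pair c a) → b ∉ z := by
    rw [zfst_pair, zsnd_pair]
    obtain ⟨α, hα, rfl⟩ := mem_w1.1 ha
    obtain ⟨t, ht, h2⟩ := h
    by_contra hne
    push Not at hne
    have hα0 : α ≠ 0 := by
      rintro rfl
      exact ha0 (by simp)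
    have h3 : ∀ β < α, ∃ γ : J1.{u}, γ ∈ t ∧ β < γ.1 ∧ γ.1 < α := by
      intro β hβ
      obtain ⟨z, hz, hza, hbz⟩ := hne β.toZFSet (Ordinal.toZFSet_mem_toZFSet_iff.2 hβ)
      obtain ⟨γ, hγ, rfl⟩ := (h2 z).1 hz
      exact ⟨γ, hγ, Ordinal.toZFSet_mem_toZFSet_iff.1 hbz, Ordinal.toZFSet_mem_toZFSet_iff.1 hza⟩
    apply hac
    rw [h2]
    refine ⟨⟨α, hα⟩, ?_, rfl⟩
    apply ht.isLUB_mem (t := {γ | γ ∈ t ∧ γ.1 < α})
    · rintro γ ⟨h4, _⟩; exact h4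
    · obtain ⟨γ, h4, h5, h6⟩ := h3 0 (pos_iff_ne_zero.2 hα0)
      exact ⟨γ, h4, h6⟩
    · constructor
      · rintro γ ⟨_, h5⟩
        exact h5.le
      · intro β hβ
        by_contra hlt
        rw [not_le] at hlt
        obtain ⟨γ, h4, h5, h6⟩ := h3 β.1 hlt
        have := hβ ⟨h4, h6⟩
        exact absurd this (not_le.2 h5)
  have := skol_spec
    (R := fun p b => b ∈ zsnd p ∧ ∀ z ∈ zfst p, z ∈ zsnd p → b ∉ z) h1
  rw [zfst_pair, zsnd_pair] at this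
  exact this

/-- An element that is not in `ω₁`. -/
noncomputable def wit : ZFSet.{u} → ZFSet.{u} := skol fun x z => z ∈ x ∧ z ∉ w1.{u}

theorem wit_spec {x : ZFSet.{u}} (h : ¬ x ⊆ w1.{u}) : wit x ∈ x ∧ wit x ∉ w1.{u} := by
  apply skol_spec (R := fun x z => z ∈ x ∧ z ∉ w1.{u})
  by_contra hne
  push Not at hne
  exact h fun z hz => hne z hz

/-! ### Lists of functions -/

/-- Merging two lists of functions. -/
def mrg (E F : ℕ → ZFSet.{u} → ZFSet.{u}) (n : ℕ) : ZFSet.{u} → ZFSet.{u} :=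
  if n % 2 = 0 then E (n / 2) else F (n / 2)

theorem Has.left {P E F : ℕ → ZFSet.{u} → ZFSet.{u}} (h : Has P (mrg E F)) : Has P E := by
  intro n
  obtain ⟨k, hk⟩ := h (2 * n)
  refine ⟨k, hk.trans ?_⟩
  unfold mrg
  rw [if_pos (by omega)]
  congr 1
  omega

theorem Has.right {P E F : ℕ → ZFSet.{u} → ZFSet.{u}} (h : Has P (mrg E F)) : Has P F := by
  intro n
  obtain ⟨k, hk⟩ := h (2 * n + 1)
  refine ⟨k, hk.trans ?_⟩
  unfold mrg
  rw [if_neg (by omega)]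
  congr 1
  omega

/-- The functions used for the collapse. -/
noncomputable def EC (B : Set (ℕ → ℕ)) : ℕ → ZFSet.{u} → ZFSet.{u}
  | 0 => fun _ => w1
  | 1 => fun _ => nsset
  | 2 => fun _ => bset B
  | 3 => dif
  | 4 => enumf
  | 5 => upr
  | 6 => clb
  | 7 => nxt
  | 8 => bnd
  | _ => wit

end H94W
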