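import Pool.Agent.Lib.H94W.Coll1
import Pool.Agent.Lib.H94W.Fodor

/-!
# Project Woodin, chunk O, part 2: facts in algebras
-/

set_option autoImplicit false

namespace H94W

open Ordinal Cardinal ZFSet

universe u v w

/-- Indices of the functions used for the collapse in the list `P`. -/
structure KC (P : ℕ → ZFSet.{u} → ZFSet.{u}) (B : Set (ℕ → ℕ)) where
  w : ℕ
  n : ℕ
  b : ℕ
  d : ℕ
  e : ℕ
  u : ℕ
  c : ℕ
  x : ℕ
  y : ℕ
  t : ℕ
  hw : P w = fun _ => w1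
  hn : P n = fun _ => nsset
  hb : P b = fun _ => bset B
  hd : P d = dif
  he : P e = enumf
  hu : P u = upr
  hc : P c = clb
  hx : P x = nxt
  hy : P y = bnd
  ht : P t = wit

theorem exists_KC {P : ℕ → ZFSet.{u} → ZFSet.{u}} {B : Set (ℕ → ℕ)} (h : Has P (EC B)) :
    Nonempty (KC P B) := by
  obtain ⟨k0, h0⟩ := h 0
  obtain ⟨k1, h1⟩ := h 1
  obtain ⟨k2, h2⟩ := h 2
  obtain ⟨k3, h3⟩ := h 3
  obtain ⟨k4, h4⟩ := h 4
  obtain ⟨k5, h5⟩ := h 5
  obtain ⟨k6, h6⟩ := h 6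
  obtain ⟨k7, h7⟩ := h 7
  obtain ⟨k8, h8⟩ := h 8
  obtain ⟨k9, h9⟩ := h 9
  exact ⟨⟨k0, k1, k2, k3, k4, k5, k6, k7, k8, k9, h0, h1, h2, h3, h4, h5, h6, h7, h8, h9⟩⟩

/-- The constant `k`. -/
def cst (k : ℕ) : Code := .comp (.prim k) .one

variable {δ : Ordinal.{u}} {P : ℕ → ZFSet.{u} → ZFSet.{u}} {M : Type v} {B : Set (ℕ → ℕ)}

theorem Alg.fn_cst (A : Alg δ P M) (k : ℕ) (x : M) : A.fn (cst k) x = A.fn (.prim k) A.tt := by
  unfold cst
  rw [A.fn_comp, A.fn_one]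

theorem eval_cst (k : ℕ) (x : ZFSet.{u}) : eval δ P (cst k) x = P k one := rfl

/-- Assignments. -/
def en4 {M : Type v} (x y z t : M) (i : ℕ) : M :=
  match i with
  | 0 => x
  | 1 => y
  | 2 => z
  | _ => t

section

variable (A : Alg δ P M) (K : KC P B)

/-- `ω₁` of the algebra. -/
def Alg.W (K : KC P B) : M := A.fn (.prim K.w) A.tt

/-- The nonstationary ideal of the algebra. -/
def Alg.Nn (K : KC P B) : M := A.fn (.prim K.n) A.tt

/-- The set of reals of the algebra. -/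
def Alg.Bb (K : KC P B) : M := A.fn (.prim K.b) A.tt

include K in
theorem Alg.ext_mem {x y : M} (h : ∀ z, A.mem z x ↔ A.mem z y) : x = y := by
  by_contra hne
  have := A.transfer (.imp (.not (.eq (.v 0) (.v 1)))
    (.or (.and (.mem (.f (.prim K.d) (.p (.v 0) (.v 1))) (.v 0))
        (.not (.mem (.f (.prim K.d) (.p (.v 0) (.v 1))) (.v 1))))
      (.and (.not (.mem (.f (.prim K.d) (.p (.v 0) (.v 1))) (.v 0)))
        (.mem (.f (.prim K.d) (.p (.v 0) (.v 1))) (.v 1))))) (by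
      intro ρ
      simp only [QF.evU, Tm.evU, eval, K.hd]
      exact dif_spec) (en4 x y x x)
  rcases this hne with ⟨h1, h2⟩ | ⟨h1, h2⟩
  · exact h2 ((h _).1 h1)
  · exact h1 ((h _).2 h2)

theorem Alg.mem_sep (a : Code) (x z p : M) :
    A.mem x (A.fn (.sep a) (A.pr z p)) ↔ A.mem x z ∧ A.T (A.fn a (A.pr x p)) := by
  have h1 := A.transfer (.imp (.mem (.v 0) (.f (.sep a) (.p (.v 1) (.v 2))))
    (.and (.mem (.v 0) (.v 1)) (.tr (.f a (.p (.v 0) (.v 2)))))) (by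
      intro ρ
      simp only [QF.evU, Tm.evU, eval, zfst_pair, zsnd_pair, ZFSet.mem_sep]
      exact id) (en4 x z p p)
  have h2 := A.transfer (.imp (.and (.mem (.v 0) (.v 1)) (.tr (.f a (.p (.v 0) (.v 2)))))
    (.mem (.v 0) (.f (.sep a) (.p (.v 1) (.v 2))))) (by
      intro ρ
      simp only [QF.evU, Tm.evU, eval, zfst_pair, zsnd_pair, ZFSet.mem_sep]
      exact id) (en4 x z p p)
  exact ⟨h1, h2⟩

theorem Alg.mem_upr (x y z : M) :
    A.mem z (A.fn (.prim K.u) (A.pr x y)) ↔ z = x ∨ z = y := by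
  have h1 := A.transfer (.imp (.mem (.v 2) (.f (.prim K.u) (.p (.v 0) (.v 1))))
    (.or (.eq (.v 2) (.v 0)) (.eq (.v 2) (.v 1)))) (by
      intro ρ
      simp only [QF.evU, Tm.evU, eval, K.hu, H94W.mem_upr]
      exact id) (en4 x y z z)
  have h2 := A.transfer (.imp (.or (.eq (.v 2) (.v 0)) (.eq (.v 2) (.v 1)))
    (.mem (.v 2) (.f (.prim K.u) (.p (.v 0) (.v 1))))) (by
      intro ρ
      simp only [QF.evU, Tm.evU, eval, K.hu, H94W.mem_upr]
      exact id) (en4 x y z z)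
  exact ⟨h1, h2⟩

theorem Alg.mem_pr (x y z : M) :
    A.mem z (A.pr x y) ↔ z = A.fn (.prim K.u) (A.pr x x) ∨ z = A.fn (.prim K.u) (A.pr x y) := by
  have h1 := A.transfer (.imp (.mem (.v 2) (.p (.v 0) (.v 1)))
    (.or (.eq (.v 2) (.f (.prim K.u) (.p (.v 0) (.v 0))))
      (.eq (.v 2) (.f (.prim K.u) (.p (.v 0) (.v 1)))))) (by
      intro ρ
      simp only [QF.evU, Tm.evU, eval, K.hu, mem_pair_upr]
      exact id) (en4 x y z z)
  have h2 := A.transfer (.imp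
    (.or (.eq (.v 2) (.f (.prim K.u) (.p (.v 0) (.v 0))))
      (.eq (.v 2) (.f (.prim K.u) (.p (.v 0) (.v 1))))) (.mem (.v 2) (.p (.v 0) (.v 1)))) (by
      intro ρ
      simp only [QF.evU, Tm.evU, eval, K.hu, mem_pair_upr]
      exact id) (en4 x y z z)
  exact ⟨h1, h2⟩

theorem Alg.mem_irrefl (x : M) : ¬ A.mem x x :=
  A.transfer (.not (.mem (.v 0) (.v 0))) (by
      intro ρ
      simp only [QF.evU, Tm.evU]
      exact ZFSet.mem_irrefl _) (en4 x x x x)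

theorem Alg.ord_mem_trans' {x y z t : M} (hx : A.T (A.fn .ord x)) (ht : A.mem t x)
    (hz : A.mem z t) (hy : A.mem y z) : A.mem y t :=
  A.transfer (.imp (.and (.tr (.f .ord (.v 0))) (.and (.mem (.v 3) (.v 0))
    (.and (.mem (.v 2) (.v 3)) (.mem (.v 1) (.v 2))))) (.mem (.v 1) (.v 3))) (by
      intro ρ
      simp only [QF.evU, Tm.evU, eval, zb_eq_one]
      rintro ⟨h1, h2, h3, h4⟩
      exact h1.mem_trans' h4 h3 h2) (en4 x y z t) ⟨hx, ht, hz, hy⟩

theorem Alg.ord_tr {x y z : M} (hz : A.T (A.fn .ord z)) (hyz : A.mem y z)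
    (hxy : A.mem x y) : A.mem x z := by
  have := A.transfer (.imp (.and (.tr (.f .ord (.v 2)))
    (.and (.mem (.v 1) (.v 2)) (.mem (.v 0) (.v 1)))) (.mem (.v 0) (.v 2))) (by
      intro ρ
      simp only [QF.evU, Tm.evU, eval, zb_eq_one]
      rintro ⟨h1, h2, h3⟩
      exact h1.mem_trans h3 h2) (en4 x y z z)
  exact this ⟨hz, hyz, hxy⟩

theorem Alg.ord_W : A.T (A.fn .ord (A.W K)) := by
  have := A.transfer (.tr (.f .ord (.f (cst K.w) (.v 0)))) (by
      intro ρ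
      simp only [QF.evU, Tm.evU, eval, eval_cst, K.hw, zb_eq_one]
      exact isOrdinal_w1) (en4 A.tt A.tt A.tt A.tt)
  simp only [Alg.evQ, Alg.evT, Alg.fn_cst] at this
  exact this

theorem Alg.ord_of_mem_W {x : M} (hx : A.mem x (A.W K)) : A.T (A.fn .ord x) := by
  have := A.transfer (.imp (.mem (.v 0) (.f (cst K.w) (.v 0))) (.tr (.f .ord (.v 0)))) (by
      intro ρ
      simp only [QF.evU, Tm.evU, eval, eval_cst, K.hw, zb_eq_one]
      exact isOrdinal_w1.mem) (en4 x x x x)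
  simp only [Alg.evQ, Alg.evT, Alg.fn_cst] at this
  exact this hx

theorem Alg.ctbl_of_mem_W {x : M} (hx : A.mem x (A.W K)) : A.T (A.fn .ctbl x) := by
  have := A.transfer (.imp (.mem (.v 0) (.f (cst K.w) (.v 0))) (.tr (.f .ctbl (.v 0)))) (by
      intro ρ
      simp only [QF.evU, Tm.evU, eval, eval_cst, K.hw, zb_eq_one]
      exact ctbl_of_mem_w1) (en4 x x x x)
  simp only [Alg.evQ, Alg.evT, Alg.fn_cst] at this
  exact this hx

theorem Alg.rk_mem_W {x : M} (hx : A.mem x (A.W K)) : A.mem (A.fn .rk x) (A.W K) := by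
  have := A.transfer (.imp (.mem (.v 0) (.f (cst K.w) (.v 0)))
    (.mem (.f .rk (.v 0)) (.f (cst K.w) (.v 0)))) (by
      intro ρ
      simp only [QF.evU, Tm.evU, eval, eval_cst, K.hw]
      intro h
      rwa [(isOrdinal_w1.mem h).toZFSet_rank_eq]) (en4 x x x x)
  simp only [Alg.evQ, Alg.evT, Alg.fn_cst] at this
  exact this hx

theorem Alg.ltd_W (hδ : ω_ 1 < δ) : A.T (A.fn .ltd (A.W K)) := by
  have := A.transfer (.tr (.f .ltd (.f (cst K.w) (.v 0)))) (by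
      intro ρ
      simp only [QF.evU, Tm.evU, eval, eval_cst, K.hw, zb_eq_one]
      exact ⟨_, hδ, rfl⟩) (en4 A.tt A.tt A.tt A.tt)
  simp only [Alg.evQ, Alg.evT, Alg.fn_cst] at this
  exact this

/-! ### The critical points -/

/-- Code of `s ↦ s ∩ ω₁`. -/
def kapC (K : KC P B) : Code :=
  .comp (.sep (.comp .mem (.pair .fst (cst K.w)))) (.pair .id .id)

theorem eval_kapC (s : ZFSet.{u}) :
    eval δ P (kapC K) s = ZFSet.sep (fun y => y ∈ w1.{u}) s := by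
  simp only [kapC, eval, zfst_pair, zsnd_pair, eval_cst, K.hw, zb_eq_one]

theorem Alg.mem_kap (y s : M) :
    A.mem y (A.fn (kapC K) s) ↔ A.mem y s ∧ A.mem y (A.W K) := by
  unfold kapC
  rw [A.fn_comp, A.fn_pair, A.fn_id, A.mem_sep, A.fn_comp, A.fn_pair, A.fn_fst, A.fn_cst]
  rfl

theorem Alg.kap_mem_W {s : M} (hs : A.mem s (A.fn .dom (A.W K)))
    (ho : A.T (A.fn .ord (A.fn (kapC K) s))) : A.mem (A.fn (kapC K) s) (A.W K) := by
  have := A.transfer (.imp (.and (.mem (.v 0) (.f .dom (.f (cst K.w) (.v 0))))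
      (.tr (.f .ord (.f (kapC K) (.v 0)))))
    (.mem (.f (kapC K) (.v 0)) (.f (cst K.w) (.v 0)))) (by
      intro ρ
      simp only [QF.evU, Tm.evU, eval, eval_cst, eval_kapC, K.hw, zb_eq_one]
      rintro ⟨h1, h2⟩
      apply mem_w1_of_ord h2
      unfold DOM at h1
      rw [ZFSet.mem_sep] at h1
      exact h1.2.mono fun y hy => (ZFSet.mem_sep.1 hy).1) (en4 s s s s)
  simp only [Alg.evQ, Alg.evT, Alg.fn_cst] at this
  exact this ⟨hs, ho⟩

/-- Code of the trace on `ω₁` of the first component is not an ordinal. -/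
def notOrdC (K : KC P B) : Code := .comp .not (.comp .ord (.comp (kapC K) .fst))

theorem Alg.not_stat_notOrd (p : M) : ¬ A.T (A.fn .stat (A.pr (A.W K)
    (A.fn (.sep (notOrdC K)) (A.pr (A.fn .dom (A.W K)) p)))) := by
  have := A.transfer (.not (.tr (.f .stat (.p (.f (cst K.w) (.v 0))
    (.f (.sep (notOrdC K)) (.p (.f .dom (.f (cst K.w) (.v 0))) (.v 0))))))) (by
      intro ρ
      simp only [QF.evU, Tm.evU, eval, eval_cst, K.hw, zb_eq_one, notOrdC, zfst_pair, zsnd_pair,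
        eval_kapC, ne_eq]
      rintro ⟨_, h2⟩
      exact not_stat_not_ord h2) (en4 p p p p)
  simp only [Alg.evQ, Alg.evT, Alg.fn_cst] at this
  exact this

/-! ### Stationary sets -/

/-- Code of `x ↦ (ω₁, {s ∈ DOM ω₁ | s ∩ ω₁ ∈ x})`. -/
def bigC (K : KC P B) : Code :=
  .pair (cst K.w) (.comp (.sep (.comp .mem (.pair (.comp (kapC K) .fst) .snd)))
    (.pair (.comp .dom (cst K.w)) .id))

theorem Alg.fst_big (x : M) : A.fn .fst (A.fn (bigC K) x) = A.W K := by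
  unfold bigC
  rw [A.fn_pair, A.fn_fst, A.fn_cst]
  rfl

theorem Alg.mem_snd_big (s x : M) : A.mem s (A.fn .snd (A.fn (bigC K) x)) ↔
    A.mem s (A.fn .dom (A.W K)) ∧ A.mem (A.fn (kapC K) s) x := by
  unfold bigC
  rw [A.fn_pair, A.fn_snd, A.fn_comp, A.fn_pair, A.fn_id, A.mem_sep, A.fn_comp, A.fn_comp,
    A.fn_pair, A.fn_snd, A.fn_comp, A.fn_fst, A.fn_cst]
  rfl

theorem Alg.cond_big (hδ : ω_ 1 < δ) {x : M} (hx : ¬ A.mem x (A.Nn K))
    (hs : ∀ y, A.mem y x → A.mem y (A.W K)) : A.T (A.fn .cond (A.fn (bigC K) x)) := by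
  have := A.transfer (.imp (.and (.not (.mem (.v 0) (.f (cst K.n) (.v 0))))
      (.imp (.mem (.f (.prim K.t) (.v 0)) (.v 0))
        (.mem (.f (.prim K.t) (.v 0)) (.f (cst K.w) (.v 0)))))
      (.tr (.f .cond (.f (bigC K) (.v 0))))) (by
      intro ρ
      simp only [QF.evU, Tm.evU, eval, eval_cst, K.hw, K.hn, K.ht, zb_eq_one, bigC, zfst_pair,
        zsnd_pair, eval_kapC]
      rintro ⟨h1, h2⟩
      rw [mem_nsset] at h1
      have h3 : ρ 0 ⊆ w1.{u} := by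
        by_contra hne
        exact (wit_spec hne).2 (h2 (wit_spec hne).1)
      have h4 : IsStationary {a : J1.{u} | a.1.toZFSet ∈ ρ 0} := by
        by_contra hne
        exact h1 ⟨h3, hne⟩
      refine ⟨w1, _, ⟨_, hδ, rfl⟩, ?_, stat_of_stationary h3 h4, rfl⟩
      intro y hy
      exact (ZFSet.mem_sep.1 hy).1) (en4 x x x x)
  simp only [Alg.evQ, Alg.evT, Alg.fn_cst] at this
  exact this ⟨hx, fun h => hs _ h⟩

theorem Alg.nn_sub {x z : M} (hx : A.mem x (A.Nn K)) (hz : A.mem z x) : A.mem z (A.W K) := by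
  have := A.transfer (.imp (.and (.mem (.v 0) (.f (cst K.n) (.v 0))) (.mem (.v 1) (.v 0)))
      (.mem (.v 1) (.f (cst K.w) (.v 0)))) (by
      intro ρ
      simp only [QF.evU, Tm.evU, eval_cst, K.hw, K.hn]
      rintro ⟨h1, h2⟩
      exact (mem_nsset.1 h1).1 h2) (en4 x z x x)
  simp only [Alg.evQ, Alg.evT, Alg.fn_cst] at this
  exact this ⟨hx, hz⟩

theorem Alg.clb_facts {x z : M} (hx : A.mem x (A.Nn K)) (hz : A.mem z (A.fn (.prim K.c) x)) :
    A.mem z (A.W K) ∧ ¬ A.mem z x := by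
  have := A.transfer (.imp (.and (.mem (.v 0) (.f (cst K.n) (.v 0)))
      (.mem (.v 1) (.f (.prim K.c) (.v 0))))
      (.and (.mem (.v 1) (.f (cst K.w) (.v 0))) (.not (.mem (.v 1) (.v 0))))) (by
      intro ρ
      simp only [QF.evU, Tm.evU, eval, eval_cst, K.hw, K.hn, K.hc]
      rintro ⟨h1, h2⟩
      have h3 := clb_spec (mem_nsset.1 h1)
      exact ⟨h3.1.sub h2, h3.2 _ h2⟩) (en4 x z x x)
  simp only [Alg.evQ, Alg.evT, Alg.fn_cst] at this
  exact this ⟨hx, hz⟩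

theorem Alg.nxt_facts {x a : M} (hx : A.mem x (A.Nn K)) (ha : A.mem a (A.W K)) :
    A.mem (A.fn (.prim K.x) (A.pr (A.fn (.prim K.c) x) a)) (A.fn (.prim K.c) x) ∧
      A.mem a (A.fn (.prim K.x) (A.pr (A.fn (.prim K.c) x) a)) := by
  have := A.transfer (.imp (.and (.mem (.v 0) (.f (cst K.n) (.v 0)))
      (.mem (.v 1) (.f (cst K.w) (.v 0))))
      (.and (.mem (.f (.prim K.x) (.p (.f (.prim K.c) (.v 0)) (.v 1))) (.f (.prim K.c) (.v 0)))
        (.mem (.v 1) (.f (.prim K.x) (.p (.f (.prim K.c) (.v 0)) (.v 1)))))) (by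
      intro ρ
      simp only [QF.evU, Tm.evU, eval, eval_cst, K.hw, K.hn, K.hc, K.hx]
      rintro ⟨h1, h2⟩
      exact nxt_spec (clb_spec (mem_nsset.1 h1)).1 h2) (en4 x a x x)
  simp only [Alg.evQ, Alg.evT, Alg.fn_cst] at this
  exact this ⟨hx, ha⟩

theorem Alg.bnd_facts {x a b z : M} (hx : A.mem x (A.Nn K)) (ha : A.mem a (A.W K))
    (hb : A.mem b a) (hac : ¬ A.mem a (A.fn (.prim K.c) x)) :
    A.mem (A.fn (.prim K.y) (A.pr (A.fn (.prim K.c) x) a)) a ∧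
      (A.mem z (A.fn (.prim K.c) x) → A.mem z a →
        ¬ A.mem (A.fn (.prim K.y) (A.pr (A.fn (.prim K.c) x) a)) z) := by
  have := A.transfer (.imp (.and (.mem (.v 0) (.f (cst K.n) (.v 0)))
      (.and (.mem (.v 1) (.f (cst K.w) (.v 0)))
        (.and (.mem (.v 2) (.v 1)) (.not (.mem (.v 1) (.f (.prim K.c) (.v 0)))))))
      (.and (.mem (.f (.prim K.y) (.p (.f (.prim K.c) (.v 0)) (.v 1))) (.v 1))
        (.imp (.mem (.v 3) (.f (.prim K.c) (.v 0))) (.imp (.mem (.v 3) (.v 1))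
        (.not (.mem (.f (.prim K.y) (.p (.f (.prim K.c) (.v 0)) (.v 1))) (.v 3))))))) (by
      intro ρ
      simp only [QF.evU, Tm.evU, eval, eval_cst, K.hw, K.hn, K.hc, K.hy]
      rintro ⟨h1, h2, h3, h4⟩
      have h5 : ρ 1 ≠ ∅ := by
        intro h
        rw [h] at h3
        exact ZFSet.notMem_empty _ h3
      have h6 := bnd_spec (clb_spec (mem_nsset.1 h1)).1 h2 h5 h4
      exact ⟨h6.1, h6.2 _⟩) (en4 x a b z)
  simp only [Alg.evQ, Alg.evT, Alg.fn_cst] at this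
  exact this ⟨hx, ha, hb, hac⟩

theorem Alg.app_mem {x n m : M} (h : A.mem (A.pr n m) x) :
    A.mem (A.pr n (A.fn .app (A.pr x n))) x :=
  A.transfer (.imp (.mem (.p (.v 1) (.v 2)) (.v 0))
    (.mem (.p (.v 1) (.f .app (.p (.v 0) (.v 1)))) (.v 0))) (by
      intro ρ
      simp only [QF.evU, Tm.evU, eval, zfst_pair, zsnd_pair]
      intro h
      have h1 : ∃ y, ZFSet.pair (ρ 1) y ∈ ρ 0 := ⟨_, h⟩
      unfold zapp
      rw [dif_pos h1]
      exact h1.choose_spec) (en4 x n m m) h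

theorem Alg.app_idlam {s z t : M} (h : A.mem s z) :
    A.fn .app (A.pr (A.fn (.lam .fst) (A.pr z t)) s) = s :=
  A.transfer (.imp (.mem (.v 0) (.v 1))
    (.eq (.f .app (.p (.f (.lam .fst) (.p (.v 1) (.v 2))) (.v 0))) (.v 0))) (by
      intro ρ
      simp only [QF.evU, Tm.evU, eval, zfst_pair, zsnd_pair]
      intro h
      rw [zapp_zlam h]) (en4 s z t t) h

end

end H94W
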