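import Pool.Agent.Lib.H94W.Coll2

/-!
# Project Woodin, chunk O, part 3: codes of `Δ₀` formulas
-/

set_option autoImplicit false

namespace H94W

open Ordinal Cardinal ZFSet

universe u v w

variable {δ : Ordinal.{u}} {P : ℕ → ZFSet.{u} → ZFSet.{u}} {M : Type v} {B : Set (ℕ → ℕ)}

/-- Code of `⟨y, t⟩ ↦` the tuple `t` with the `i`-th component replaced by `y`. -/
def updC : ℕ → Code
  | 0 => .pair .fst (.comp .snd .snd)
  | i + 1 => .pair (.comp .fst .snd) (.comp (updC i) (.pair .fst (.comp .snd .snd)))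

theorem Alg.fn_updC (A : Alg δ P M) : ∀ (i k : ℕ) (ρ : ℕ → M) (y : M), i < k →
    A.fn (updC i) (A.pr y (A.tup k ρ)) = A.tup k (Function.update ρ i y)
  | i, 0, ρ, y, h => absurd h (Nat.not_lt_zero _)
  | 0, k + 1, ρ, y, _ => by
    simp only [updC, tup, A.fn_pair, A.fn_fst, A.fn_comp, A.fn_snd]
    congr 1
  | i + 1, k + 1, ρ, y, h => by
    have ih := A.fn_updC i k (fun i => ρ (i + 1)) y (Nat.lt_of_succ_lt_succ h)
    simp only [updC, tup, A.fn_pair, A.fn_fst, A.fn_comp, A.fn_snd, ih]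
    congr 1
    congr 1
    funext j
    by_cases hj : j = i
    · subst hj
      simp
    · rw [Function.update_of_ne hj, Function.update_of_ne (by omega)]

/-- A bound for the variables of a `Δ₀` formula. -/
def Delta0.nv : Delta0 → ℕ
  | .mem i j => max (i + 1) (j + 1)
  | .eq i j => max (i + 1) (j + 1)
  | .inB i => i + 1
  | .inNS i => i + 1
  | .not φ => φ.nv
  | .and φ ψ => max φ.nv ψ.nv
  | .ball i j φ => max (max (i + 1) (j + 1)) φ.nv

/-- The code of a `Δ₀` formula. -/
def dcode (K : KC P B) : Delta0 → Code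
  | .mem i j => .comp .mem (.pair (projC i) (projC j))
  | .eq i j => .comp .eq (.pair (projC i) (projC j))
  | .inB i => .comp .mem (.pair (projC i) (cst K.b))
  | .inNS i => .comp .mem (.pair (projC i) (cst K.n))
  | .not φ => .comp .not (dcode K φ)
  | .and φ ψ => .comp .and (.pair (dcode K φ) (dcode K ψ))
  | .ball i j φ => .comp .eq (.pair
      (.comp (.sep (.comp (.comp .not (dcode K φ)) (updC i))) (.pair (projC j) .id))
      (.comp .not .one))

/-- Truth of `Δ₀` formulas in an algebra. -/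
def DSat (A : Alg δ P M) (K : KC P B) : (ℕ → M) → Delta0 → Prop
  | ρ, .mem i j => A.mem (ρ i) (ρ j)
  | ρ, .eq i j => ρ i = ρ j
  | ρ, .inB i => A.mem (ρ i) (A.Bb K)
  | ρ, .inNS i => A.mem (ρ i) (A.Nn K)
  | ρ, .not φ => ¬ DSat A K ρ φ
  | ρ, .and φ ψ => DSat A K ρ φ ∧ DSat A K ρ ψ
  | ρ, .ball i j φ => ∀ a, A.mem a (ρ j) → DSat A K (Function.update ρ i a) φ

theorem Alg.notMem_empty (A : Alg δ P M) (x y : M) : ¬ A.mem x (A.fn (.comp .not .one) y) :=
  A.transfer (.not (.mem (.v 0) (.f (.comp .not .one) (.v 1)))) (by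
      intro ρ
      simp only [QF.evU, Tm.evU, eval]
      rw [zb_false (by simp)]
      exact ZFSet.notMem_empty _) (en4 x y x x)

theorem T_dcode (A : Alg δ P M) (K : KC P B) (k : ℕ) : ∀ (φ : Delta0) (ρ : ℕ → M), φ.nv ≤ k →
    (A.T (A.fn (dcode K φ) (A.tup k ρ)) ↔ DSat A K ρ φ)
  | .mem i j, ρ, h => by
    have h1 : i < k := lt_of_lt_of_le (Nat.lt_succ_self i) ((le_max_left _ _).trans h)
    have h2 : j < k := lt_of_lt_of_le (Nat.lt_succ_self j) ((le_max_right _ _).trans h)
    simp only [dcode, A.fn_comp, A.fn_pair, A.fn_projC k i ρ h1, A.fn_projC k j ρ h2, DSat]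
    exact Iff.rfl
  | .eq i j, ρ, h => by
    have h1 : i < k := lt_of_lt_of_le (Nat.lt_succ_self i) ((le_max_left _ _).trans h)
    have h2 : j < k := lt_of_lt_of_le (Nat.lt_succ_self j) ((le_max_right _ _).trans h)
    simp only [dcode, A.fn_comp, A.fn_pair, A.fn_projC k i ρ h1, A.fn_projC k j ρ h2, DSat,
      A.T_eq]
  | .inB i, ρ, h => by
    have h1 : i < k := lt_of_lt_of_le (Nat.lt_succ_self i) h
    simp only [dcode, A.fn_comp, A.fn_pair, A.fn_projC k i ρ h1, DSat, A.fn_cst]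
    exact Iff.rfl
  | .inNS i, ρ, h => by
    have h1 : i < k := lt_of_lt_of_le (Nat.lt_succ_self i) h
    simp only [dcode, A.fn_comp, A.fn_pair, A.fn_projC k i ρ h1, DSat, A.fn_cst]
    exact Iff.rfl
  | .not φ, ρ, h => by
    simp only [dcode, A.fn_comp, A.T_not, T_dcode A K k φ ρ h, DSat]
  | .and φ ψ, ρ, h => by
    simp only [dcode, A.fn_comp, A.fn_pair, A.T_and,
      T_dcode A K k φ ρ ((le_max_left _ _).trans h),
      T_dcode A K k ψ ρ ((le_max_right _ _).trans h), DSat]
  | .ball i j φ, ρ, h => by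
    have h1 : i < k := lt_of_lt_of_le (Nat.lt_succ_self i)
      ((le_max_left _ _).trans ((le_max_left _ _).trans h))
    have h2 : j < k := lt_of_lt_of_le (Nat.lt_succ_self j)
      ((le_max_right _ _).trans ((le_max_left _ _).trans h))
    have h3 : φ.nv ≤ k := (le_max_right _ _).trans h
    have ih := fun a => T_dcode A K k φ (Function.update ρ i a) h3
    have e1 : A.fn (dcode K (.ball i j φ)) (A.tup k ρ) = A.fn .eq (A.pr
        (A.fn (.sep (.comp (.comp .not (dcode K φ)) (updC i))) (A.pr (ρ j) (A.tup k ρ)))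
        (A.fn (.comp .not .one) (A.tup k ρ))) := by
      have e0 : dcode K (.ball i j φ) = .comp .eq (.pair
        (.comp (.sep (.comp (.comp .not (dcode K φ)) (updC i))) (.pair (projC j) .id))
        (.comp .not .one)) := rfl
      rw [e0, A.fn_comp, A.fn_pair, A.fn_comp (.sep _), A.fn_pair, A.fn_projC k j ρ h2, A.fn_id]
    have key : ∀ a, A.mem a (A.fn (.sep (.comp (.comp .not (dcode K φ)) (updC i)))
        (A.pr (ρ j) (A.tup k ρ))) ↔
        A.mem a (ρ j) ∧ ¬ DSat A K (Function.update ρ i a) φ := by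
      intro a
      rw [A.mem_sep, A.fn_comp, A.fn_updC i k ρ a h1, A.fn_comp, A.T_not, ih a]
    rw [e1, A.T_eq]
    have e2 : DSat A K ρ (.ball i j φ) ↔
      ∀ a, A.mem a (ρ j) → DSat A K (Function.update ρ i a) φ := Iff.rfl
    rw [e2]
    constructor
    · intro he a ha
      by_contra hne
      have := (key a).2 ⟨ha, hne⟩
      rw [he] at this
      exact A.notMem_empty _ _ this
    · intro hall
      apply A.ext_mem K
      intro z
      rw [key z]
      constructor
      · rintro ⟨h4, h5⟩; exact absurd (hall z h4) h5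
      · intro h4; exact absurd h4 (A.notMem_empty _ _)

/-- Elements of elements of `H(ω₂)` are in `H(ω₂)`. -/
theorem H2.of_mem (x : H2.{u}) {y : ZFSet.{u}} (hy : y ∈ x.1) :
    ∃ t : ZFSet.{u}, t.IsTransitive ∧ y ⊆ t ∧ t.card ≤ ℵ₁ := by
  obtain ⟨t, h1, h2, h3⟩ := x.2
  exact ⟨t, h1, h1.subset_of_mem (h2 hy), h3⟩

/-- `Δ₀` truth in the universe. -/
theorem DSat_univ (K : KC P B) : ∀ (φ : Delta0) (v : ℕ → H2.{u}),
    DSat (univAlg δ P) K (fun i => (v i).1) φ ↔ φ.Sat B v
  | .mem i j, v => by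
    show (univAlg δ P).mem _ _ ↔ (v i).1 ∈ (v j).1
    rw [univ_mem]
  | .eq i j, v => by
    show (v i).1 = (v j).1 ↔ v i = v j
    exact ⟨Subtype.ext, fun h => by rw [h]⟩
  | .inB i, v => by
    show (univAlg δ P).mem _ _ ↔ ∃ f ∈ B, (v i).1 = realSet f
    rw [univ_mem]
    show (v i).1 ∈ P K.b one ↔ _
    rw [K.hb]
    exact mem_bset
  | .inNS i, v => by
    show (univAlg δ P).mem _ _ ↔ InNS (v i).1
    rw [univ_mem]
    show (v i).1 ∈ P K.n one ↔ _
    rw [K.hn]
    exact mem_nsset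
  | .not φ, v => not_congr (DSat_univ K φ v)
  | .and φ ψ, v => and_congr (DSat_univ K φ v) (DSat_univ K ψ v)
  | .ball i j φ, v => by
    have e : ∀ a : H2.{u}, (fun l => (Function.update v i a l).1) =
        Function.update (fun l => (v l).1) i a.1 := by
      intro a
      funext l
      by_cases hl : l = i
      · subst hl; simp
      · rw [Function.update_of_ne hl, Function.update_of_ne hl]
    constructor
    · intro h a ha
      rw [← DSat_univ K φ, e]
      exact h a.1 ((univ_mem δ P _ _).2 ha)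
    · intro h a ha
      have ha' : a ∈ (v j).1 := (univ_mem δ P _ _).1 ha
      obtain ⟨b, rfl⟩ : ∃ b : H2.{u}, b.1 = a := ⟨⟨a, H2.of_mem _ ha'⟩, rfl⟩
      have h1 := h b ha'
      rw [← DSat_univ K φ, e] at h1
      exact h1

/-- `Δ₀` truth in an algebra, via a collapse. -/
theorem DSat_coll (A : Alg δ P M) (K : KC P B) (B' : Set (ℕ → ℕ)) (p : M → H2.{u})
    (hinj : Function.Injective p) (hmem : ∀ x y, (p x).1 ∈ (p y).1 ↔ A.mem x y)
    (hsurj : ∀ (a : H2.{u}) (y : M), a.1 ∈ (p y).1 → ∃ x, p x = a)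
    (hB : ∀ x, A.mem x (A.Bb K) ↔ ∃ f ∈ B', (p x).1 = realSet f)
    (hN : ∀ x, A.mem x (A.Nn K) ↔ InNS (p x).1) : ∀ (φ : Delta0) (ρ : ℕ → M),
    DSat A K ρ φ ↔ φ.Sat B' (fun i => p (ρ i))
  | .mem i j, ρ => (hmem _ _).symm
  | .eq i j, ρ => hinj.eq_iff.symm
  | .inB i, ρ => hB _
  | .inNS i, ρ => hN _
  | .not φ, ρ => not_congr (DSat_coll A K B' p hinj hmem hsurj hB hN φ ρ)
  | .and φ ψ, ρ => and_congr (DSat_coll A K B' p hinj hmem hsurj hB hN φ ρ)
      (DSat_coll A K B' p hinj hmem hsurj hB hN ψ ρ)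
  | .ball i j φ, ρ => by
    have e : ∀ a : M, (fun l => p (Function.update ρ i a l)) =
        Function.update (fun l => p (ρ l)) i (p a) := by
      intro a
      funext l
      by_cases hl : l = i
      · subst hl; simp
      · rw [Function.update_of_ne hl, Function.update_of_ne hl]
    constructor
    · intro h a ha
      obtain ⟨x, rfl⟩ := hsurj a _ ha
      rw [← e, ← DSat_coll A K B' p hinj hmem hsurj hB hN φ]
      exact h x ((hmem _ _).1 ha)
    · intro h a ha
      have h1 := h (p a) ((hmem _ _).2 ha)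
      rw [← e, ← DSat_coll A K B' p hinj hmem hsurj hB hN φ] at h1
      exact h1

end H94W
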