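import Pool.Agent.Lib.H94W.Long
import Pool.Agent.Lib.H94W.Coll3

/-!
# Project Woodin, chunk O, part 4: the collapse of the final model
-/

set_option autoImplicit false

namespace H94W

open Ordinal Cardinal ZFSet

universe u v w

/-! ### The collapse of a well-founded relation -/

section coll

variable {M : Type (u + 1)} [Small.{u} M] {r : M → M → Prop}

/-- The collapse of a well-founded relation on a small type. -/
noncomputable def coll (hr : WellFounded r) : M → ZFSet.{u} :=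
  hr.fix fun x ih => ZFSet.range fun y : {y // r y x} => ih y.1 y.2

theorem coll_eq (hr : WellFounded r) (x : M) :
    coll hr x = ZFSet.range fun y : {y // r y x} => coll hr y.1 := by
  unfold coll
  rw [hr.fix_eq]

theorem mem_coll (hr : WellFounded r) {x : M} {z : ZFSet.{u}} :
    z ∈ coll hr x ↔ ∃ y, r y x ∧ coll hr y = z := by
  rw [coll_eq, ZFSet.mem_range]
  exact ⟨fun ⟨⟨y, hy⟩, h⟩ => ⟨y, hy, h⟩, fun ⟨y, hy, h⟩ => ⟨⟨y, hy⟩, h⟩⟩

end coll

theorem small_of_card {M : Type (u + 1)} (h : #M ≤ ℵ₁) : Small.{u} M := by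
  have h1 : lift.{u, u + 1} #M ≤ lift.{u + 1, u} #((ℵ₁ : Cardinal.{u}).out) := by
    rw [Cardinal.mk_out]
    simpa using h
  obtain ⟨f⟩ := Cardinal.lift_mk_le'.1 h1
  exact small_of_injective f.injective

/-- The collapses are in `H(ω₂)`. -/
theorem coll_H2 {M : Type (u + 1)} [Small.{u} M] {r : M → M → Prop} (hr : WellFounded r)
    (h : #M ≤ ℵ₁) (x : M) :
    ∃ t : ZFSet.{u}, t.IsTransitive ∧ coll hr x ⊆ t ∧ t.card ≤ ℵ₁ := by
  refine ⟨ZFSet.range (coll hr), ?_, ?_, ?_⟩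
  · intro y hy z hz
    obtain ⟨a, rfl⟩ := ZFSet.mem_range.1 hy
    obtain ⟨b, _, rfl⟩ := (mem_coll hr).1 hz
    exact ZFSet.mem_range.2 ⟨b, rfl⟩
  · intro z hz
    obtain ⟨b, _, rfl⟩ := (mem_coll hr).1 hz
    exact ZFSet.mem_range.2 ⟨b, rfl⟩
  · have h1 := ZFSet.lift_card_range_le (f := coll hr)
    have h2 : lift.{u, u + 1} #M ≤ ℵ₁ := by simpa using h
    have h3 := h1.trans h2
    have h4 : (ℵ₁ : Cardinal.{u + 1}) = lift.{u + 1, u} ℵ₁ := by simp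
    rw [h4] at h3
    exact Cardinal.lift_le.1 h3

/-- Hereditarily countable sets. -/
def HC (x : ZFSet.{u}) : Prop := ∃ t : ZFSet.{u}, t.IsTransitive ∧ x ⊆ t ∧ Ctbl t

theorem HC.mem {x y : ZFSet.{u}} (h : HC x) (hy : y ∈ x) : HC y := by
  obtain ⟨t, h1, h2, h3⟩ := h
  exact ⟨t, h1, h1.subset_of_mem (h2 hy), h3⟩

theorem HC.ctbl {x : ZFSet.{u}} (h : HC x) : Ctbl x := by
  obtain ⟨t, h1, h2, h3⟩ := h
  exact h3.mono fun y hy => h2 hy

theorem HC.realSet (f : ℕ → ℕ) : HC (realSet.{u} f) :=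
  ⟨smallSet, smallSet_transitive, realSet_subset f, ctbl_smallSet⟩

theorem HC.nat (n : ℕ) : HC (n : Ordinal.{u}).toZFSet :=
  ⟨smallSet, smallSet_transitive, smallSet_transitive.subset_of_mem (nat_mem_smallSet n),
    ctbl_smallSet⟩

variable {δ : Ordinal.{u}} {P : ℕ → ZFSet.{u} → ZFSet.{u}} {B : Set (ℕ → ℕ)}

/-- The situation of the collapse. -/
structure Ctx (K : KC P B) (H : ZFSet.{u}) (X : Set ZFSet.{u}) (ν : J1.{u} → Ordinal.{u})
    (C : Set (ℕ → ℕ)) {M : Type (u + 1)} (A : Alg δ P M) (D : PD M) (e : ZFSet.{u} → M) :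
    Prop where
  L : IsLong δ P H X ν C A D e
  wf : WellFounded A.mem
  hδ : ω_ 1 < δ
  hH : H ∈ X
  nice : Nice δ H
  f1 : ∀ i ∈ D.ix, ∀ z ∈ D.N i, A.T (A.fn .ctbl z) → ∀ x ∈ D.car, A.mem x z → x ∈ D.N i
  f2 : ∀ z ∈ D.base, A.T (A.fn .ctbl z) → ∀ x ∈ D.car, A.mem x z → x ∈ D.base
  f3 : ∀ i ∈ D.ix, ∀ η ∈ D.N i, A.T (A.fn .ltd η) → ∀ x ∈ D.car,
        (A.mem x (D.sd i η) ↔ x ∈ D.N i ∧ A.mem (A.fn .rk x) η)

namespace Ctx

variable {K : KC P B} {H : ZFSet.{u}} {X : Set ZFSet.{u}} {ν : J1.{u} → Ordinal.{u}}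
  {C : Set (ℕ → ℕ)} {M : Type (u + 1)} {A : Alg δ P M} {D : PD M} {e : ZFSet.{u} → M}
  (c : Ctx K H X ν C A D e)

include c

theorem pos : 0 < δ := (omega_pos 1).trans c.hδ

theorem car_mem (x : M) : x ∈ D.car := by rw [c.L.car]; trivial

theorem one_mem : one ∈ X := c.L.emb.tt.1

theorem e_one : e one = A.tt := c.L.emb.tt.2

theorem sub_of_ctbl {x y : ZFSet.{u}} (hx : x ∈ X) (hc : Ctbl x) (hy : y ∈ x) : y ∈ X := by
  obtain ⟨n, hn⟩ := gsel_spec hc hy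
  have h1 := c.L.emb.cl_fn x hx (.comp (.prim K.e) (.pair .id (numC n)))
  have h2 : eval δ P (.comp (.prim K.e) (.pair .id (numC n))) x = y := by
    show P K.e (ZFSet.pair x (eval δ P (numC n) x)) = y
    rw [eval_numC, K.he, enumf_pair, hn]
  rwa [h2] at h1

theorem T_ctbl {x : ZFSet.{u}} (hx : x ∈ X) (hc : Ctbl x) : A.T (A.fn .ctbl (e x)) := by
  rw [← c.L.emb.fn x hx .ctbl]
  show e (zb (Ctbl x)) = A.tt
  rw [zb_true hc, c.e_one]

theorem e_const {k : ℕ} {z : ZFSet.{u}} (hk : P k = fun _ => z) :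
    z ∈ X ∧ e z = A.fn (.prim k) A.tt := by
  have h1 := c.L.emb.cl_fn one c.one_mem (.prim k)
  have h2 := c.L.emb.fn one c.one_mem (.prim k)
  have h3 : eval δ P (.prim k) one = z := by
    show P k one = z
    rw [hk]
  rw [h3] at h1 h2
  rw [c.e_one] at h2
  exact ⟨h1, h2⟩

theorem w1_mem : w1 ∈ X := (c.e_const K.hw).1

theorem e_w1 : e w1 = A.W K := (c.e_const K.hw).2

theorem bset_mem : bset B ∈ X := (c.e_const K.hb).1

theorem e_bset : e (bset B) = A.Bb K := (c.e_const K.hb).2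

theorem numC_tt (n : ℕ) :
    (n : Ordinal.{u}).toZFSet ∈ X ∧ A.fn (numC n) A.tt = e (n : Ordinal.{u}).toZFSet := by
  have h1 := c.L.emb.cl_fn one c.one_mem (numC n)
  have h2 := c.L.emb.fn one c.one_mem (numC n)
  rw [eval_numC] at h1 h2
  rw [c.e_one] at h2
  exact ⟨h1, h2.symm⟩

theorem base_N (ξ : J1.{u}) : D.base ⊆ D.N (e (ν ξ).toZFSet) := by
  have h : e (ν ξ).toZFSet ∈ D.ix := by rw [c.L.ix]; exact ⟨ξ, rfl⟩
  exact c.L.pi.base_sub_N h

theorem ix_mem (ξ : J1.{u}) : e (ν ξ).toZFSet ∈ D.ix := by rw [c.L.ix]; exact ⟨ξ, rfl⟩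

theorem ix_lt {ξ ζ : J1.{u}} : A.mem (e (ν ξ).toZFSet) (e (ν ζ).toZFSet) ↔ ξ < ζ := by
  rw [c.L.emb.mem (c.L.nu_mem ξ) (c.L.nu_mem ζ), Ordinal.toZFSet_mem_toZFSet_iff,
    c.L.mono.lt_iff_lt]

theorem N_mono {ξ ζ : J1.{u}} (h : ξ < ζ) : D.N (e (ν ξ).toZFSet) ⊆ D.N (e (ν ζ).toZFSet) :=
  c.L.pi.N_mono (c.ix_mem ξ) (c.ix_mem ζ) (c.ix_lt.2 h)

theorem Cs_N {ξ ζ : J1.{u}} (h : ξ < ζ) : D.Cs A (e (ν ξ).toZFSet) ⊆ D.N (e (ν ζ).toZFSet) :=
  c.L.pi.Cs_sub (c.ix_mem ξ) (c.ix_mem ζ) (c.ix_lt.2 h)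

theorem exists_N (x : M) : ∃ ξ : J1.{u}, x ∈ D.N (e (ν ξ).toZFSet) := by
  rcases c.L.pi.tot x (c.car_mem x) with h | ⟨i, hi, h⟩
  · obtain ⟨ξ⟩ := isOmega1_I1.{u}.nonempty
    exact ⟨ξ, c.base_N ξ h⟩
  · rw [c.L.ix] at hi
    obtain ⟨ξ, rfl⟩ := hi
    obtain ⟨ζ, hζ⟩ := isOmega1_I1.exists_lt ξ
    exact ⟨ζ, c.Cs_N hζ h⟩

theorem W_base : A.W K ∈ D.base := by
  rw [c.L.base, ← c.e_w1]
  exact ⟨_, c.w1_mem, rfl⟩

theorem W_N (ξ : J1.{u}) : A.W K ∈ D.N (e (ν ξ).toZFSet) := c.base_N ξ c.W_base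

theorem tt_N (ξ : J1.{u}) : A.tt ∈ D.N (e (ν ξ).toZFSet) := c.base_N ξ c.L.pi.base_tt

theorem ltd_W : A.T (A.fn .ltd (A.W K)) := A.ltd_W K c.hδ

/-! ### The critical points -/

omit c in
/-- The `ξ`-th critical point. -/
noncomputable def kap (K : KC P B) (ν : J1.{u} → Ordinal.{u}) (A : Alg δ P M) (D : PD M) (e : ZFSet.{u} → M)
    (ξ : J1.{u}) : M :=
  A.fn (kapC K) (D.sd (e (ν ξ).toZFSet) (A.W K))

theorem kap_ord (ξ : J1.{u}) : A.T (A.fn .ord (kap K ν A D e ξ)) := by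
  have h := c.L.pi.not_of_not_stat (c.ix_mem ξ) (c.W_N ξ) (c.tt_N ξ) c.ltd_W (notOrdC K)
    (A.not_stat_notOrd K A.tt)
  unfold notOrdC at h
  rw [A.fn_comp, A.T_not, not_not, A.fn_comp, A.fn_comp, A.fn_fst] at h
  exact h

theorem sd_dom (ξ : J1.{u}) : A.mem (D.sd (e (ν ξ).toZFSet) (A.W K)) (A.fn .dom (A.W K)) :=
  c.L.pi.sd_mem _ (c.ix_mem ξ) _ (c.W_N ξ) c.ltd_W

theorem kap_W (ξ : J1.{u}) : A.mem (kap K ν A D e ξ) (A.W K) :=
  A.kap_mem_W K (c.sd_dom ξ) (c.kap_ord ξ)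

theorem mem_kap (ξ : J1.{u}) (y : M) :
    A.mem y (kap K ν A D e ξ) ↔ y ∈ D.N (e (ν ξ).toZFSet) ∧ A.mem y (A.W K) := by
  unfold kap
  rw [A.mem_kap, c.f3 _ (c.ix_mem ξ) _ (c.W_N ξ) c.ltd_W y (c.car_mem y)]
  constructor
  · rintro ⟨⟨h1, _⟩, h2⟩; exact ⟨h1, h2⟩
  · rintro ⟨h1, h2⟩; exact ⟨⟨h1, A.rk_mem_W K h2⟩, h2⟩

theorem kap_mem {ξ ζ : J1.{u}} (h : ξ < ζ) : A.mem (kap K ν A D e ξ) (kap K ν A D e ζ) := by
  rw [c.mem_kap]
  refine ⟨?_, c.kap_W ξ⟩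
  apply c.Cs_N h
  unfold kap
  apply (c.L.pi.Cs_closed c.pos (c.ix_mem ξ)).1
  refine ⟨A.fn (.lam .fst) (A.pr (A.fn .dom (A.W K)) A.tt), ?_, A.W K, c.W_N ξ, c.ltd_W, ?_⟩
  · have hc := c.L.pi.N_fn _ (c.ix_mem ξ)
    exact hc _ (c.L.pi.N_pr _ (c.ix_mem ξ) _ (hc _ (c.W_N ξ) _) _ (c.tt_N ξ)) _
  · exact (A.app_idlam (c.sd_dom ξ)).symm

theorem lt_of_kap_mem {ξ ζ : J1.{u}} (h : A.mem (kap K ν A D e ξ) (kap K ν A D e ζ)) :
    ξ < ζ := by
  by_contra hne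
  rw [not_lt] at hne
  rcases hne.eq_or_lt with h1 | h1
  · rw [h1] at h
    exact A.mem_irrefl _ h
  · have h2 := c.kap_mem h1
    exact A.mem_irrefl _ (A.ord_tr (c.kap_ord ξ) h2 h)

/-! ### The collapse -/

variable [Small.{u} M]

theorem coll_inj {x y : M} (h : coll c.wf x = coll c.wf y) : x = y := by
  induction x using c.wf.induction generalizing y with
  | _ x ih =>
    apply A.ext_mem K
    intro z
    constructor
    · intro hz
      have h1 : coll c.wf z ∈ coll c.wf y := by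
        rw [← h]
        exact (mem_coll c.wf).2 ⟨z, hz, rfl⟩
      obtain ⟨z', hz', he⟩ := (mem_coll c.wf).1 h1
      rw [ih z hz he.symm]
      exact hz'
    · intro hz
      have h1 : coll c.wf z ∈ coll c.wf x := by
        rw [h]
        exact (mem_coll c.wf).2 ⟨z, hz, rfl⟩
      obtain ⟨z', hz', he⟩ := (mem_coll c.wf).1 h1
      rw [← ih z' hz' he]
      exact hz'

theorem coll_mem {x y : M} : coll c.wf x ∈ coll c.wf y ↔ A.mem x y := by
  constructor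
  · intro h
    obtain ⟨z, hz, he⟩ := (mem_coll c.wf).1 h
    rw [← c.coll_inj he]
    exact hz
  · intro h
    exact (mem_coll c.wf).2 ⟨x, h, rfl⟩

theorem coll_e {x : ZFSet.{u}} (hx : x ∈ X) (hc : HC x) : coll c.wf (e x) = x := by
  induction x using ZFSet.inductionOn with
  | _ x ih =>
    ext z
    constructor
    · intro hz
      obtain ⟨y, hy, rfl⟩ := (mem_coll c.wf).1 hz
      have h1 : y ∈ D.base := by
        apply c.f2 (e x) _ (c.T_ctbl hx hc.ctbl) y (c.car_mem y) hy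
        rw [c.L.base]
        exact ⟨x, hx, rfl⟩
      rw [c.L.base] at h1
      obtain ⟨y', hy', rfl⟩ := h1
      have h2 := (c.L.emb.mem hy' hx).1 hy
      rw [ih y' h2 hy' (hc.mem h2)]
      exact h2
    · intro hz
      have h1 := c.sub_of_ctbl hx hc.ctbl hz
      refine (mem_coll c.wf).2 ⟨e z, (c.L.emb.mem h1 hx).2 hz, ih z hz h1 (hc.mem hz)⟩

theorem coll_ord {x : M} (hx : A.T (A.fn .ord x)) : IsOrdinal (coll c.wf x) := by
  constructor
  · intro y hy z hz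
    obtain ⟨y', hy', rfl⟩ := (mem_coll c.wf).1 hy
    obtain ⟨z', hz', rfl⟩ := (mem_coll c.wf).1 hz
    exact c.coll_mem.2 (A.ord_tr hx hy' hz')
  · intro y z w hy hz hw
    obtain ⟨w', hw', rfl⟩ := (mem_coll c.wf).1 hw
    obtain ⟨z', hz', rfl⟩ := (mem_coll c.wf).1 hz
    obtain ⟨y', hy', rfl⟩ := (mem_coll c.wf).1 hy
    exact c.coll_mem.2 (A.ord_mem_trans' hx hw' hz' hy')

omit [Small.{u} M] in
theorem W_sub_H {y : M} (hy : A.mem y (A.W K)) : A.mem y (e H) := by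
  rw [← c.e_w1] at hy
  refine c.L.emb.ball c.w1_mem c.hH .mem ?_ y hy
  intro x hx
  show zb _ = one
  rw [zfst_pair, zsnd_pair]
  apply zb_true
  obtain ⟨θ, hθ, h1, _, _⟩ := c.nice
  obtain ⟨a, ha, rfl⟩ := mem_w1.1 hx
  rw [hθ, ZFSet.mem_vonNeumann, rank_toZFSet]
  exact ha.trans (c.hδ.trans h1)

theorem ctbl_coll {x : M} (hx : A.mem x (A.W K)) : Ctbl (coll c.wf x) := by
  obtain ⟨ξ, hξ⟩ := c.exists_N x
  have h1 : {y | A.mem y x} ⊆ {y | y ∈ D.N (e (ν ξ).toZFSet) ∧ A.mem y (e H)} := by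
    intro y hy
    have hy' : A.mem y x := hy
    exact ⟨c.f1 _ (c.ix_mem ξ) x hξ (A.ctbl_of_mem_W K hx) y (c.car_mem y) hy',
      c.W_sub_H (A.ord_tr (A.ord_W K) hx hy')⟩
  have h2 : {y | A.mem y x}.Countable := (c.L.small ξ).mono h1
  refine (h2.image (coll c.wf)).mono ?_
  intro z hz
  obtain ⟨y, hy, rfl⟩ := (mem_coll c.wf).1 hz
  exact ⟨y, hy, rfl⟩

theorem coll_mem_w1 {x : M} (hx : A.mem x (A.W K)) : coll c.wf x ∈ w1.{u} :=
  mem_w1_of_ord (c.coll_ord (A.ord_of_mem_W K hx)) (c.ctbl_coll hx)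

theorem coll_W : coll c.wf (A.W K) = w1 := by
  have h1 := c.coll_ord (A.ord_W K)
  have h2 : coll c.wf (A.W K) ⊆ w1 := by
    intro z hz
    obtain ⟨y, hy, rfl⟩ := (mem_coll c.wf).1 hz
    exact c.coll_mem_w1 hy
  rcases h1.eq_or_mem_of_subset isOrdinal_w1 h2 with h3 | h3
  · exact h3
  · exfalso
    apply isOmega1_I1.{u}.not_countable
    have h4 : Ctbl (coll c.wf (A.W K)) := ctbl_of_mem_w1 h3
    have h5 : (Set.range fun ξ : J1.{u} => coll c.wf (kap K ν A D e ξ)).Countable := by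
      apply h4.mono
      rintro _ ⟨ξ, rfl⟩
      exact c.coll_mem.2 (c.kap_W ξ)
    have h6 : Function.Injective fun ξ : J1.{u} => coll c.wf (kap K ν A D e ξ) := by
      intro ξ ζ h
      have h7 := c.coll_inj h
      rcases lt_trichotomy ξ ζ with h8 | h8 | h8
      · have := c.kap_mem h8
        rw [h7] at this
        exact absurd this (A.mem_irrefl _)
      · exact h8
      · have := c.kap_mem h8
        rw [h7] at this
        exact absurd this (A.mem_irrefl _)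
    rw [← Set.image_univ] at h5
    exact Set.countable_of_injective_of_countable_image h6.injOn h5

theorem exists_of_mem_w1 {z : ZFSet.{u}} (hz : z ∈ w1.{u}) :
    ∃ x, A.mem x (A.W K) ∧ coll c.wf x = z := by
  rw [← c.coll_W] at hz
  exact (mem_coll c.wf).1 hz

theorem coll_pr (x y : M) : coll c.wf (A.pr x y) = ZFSet.pair (coll c.wf x) (coll c.wf y) := by
  have key : ∀ a b : M, coll c.wf (A.fn (.prim K.u) (A.pr a b)) =
      upr (ZFSet.pair (coll c.wf a) (coll c.wf b)) := by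
    intro a b
    ext z
    rw [mem_coll, H94W.mem_upr]
    constructor
    · rintro ⟨y, hy, rfl⟩
      rcases (A.mem_upr K a b y).1 hy with rfl | rfl
      · exact Or.inl rfl
      · exact Or.inr rfl
    · rintro (rfl | rfl)
      · exact ⟨a, (A.mem_upr K a b a).2 (Or.inl rfl), rfl⟩
      · exact ⟨b, (A.mem_upr K a b b).2 (Or.inr rfl), rfl⟩
  ext z
  rw [mem_coll, mem_pair_upr, ← key, ← key]
  constructor
  · rintro ⟨a, ha, rfl⟩
    rcases (A.mem_pr K x y a).1 ha with rfl | rfl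
    · exact Or.inl rfl
    · exact Or.inr rfl
  · rintro (rfl | rfl)
    · exact ⟨_, (A.mem_pr K x y _).2 (Or.inl rfl), rfl⟩
    · exact ⟨_, (A.mem_pr K x y _).2 (Or.inr rfl), rfl⟩

/-! ### The critical sequence -/

theorem exists_f : ∃ f : J1.{u} → J1.{u}, Order.IsNormal f ∧
    ∀ ξ, (f ξ).1.toZFSet = coll c.wf (kap K ν A D e ξ) := by
  have h1 : ∀ ξ, ∃ a : J1.{u}, a.1.toZFSet = coll c.wf (kap K ν A D e ξ) := by
    intro ξ
    obtain ⟨a, ha, h⟩ := mem_w1.1 (c.coll_mem_w1 (c.kap_W ξ))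
    exact ⟨⟨a, ha⟩, h⟩
  choose f hf using h1
  refine ⟨f, ?_, hf⟩
  rw [Order.isNormal_iff]
  have hlt : ∀ (a : J1.{u}) (ζ : J1.{u}), a < f ζ ↔ a.1.toZFSet ∈ coll c.wf (kap K ν A D e ζ) := by
    intro a ζ
    rw [← hf, Ordinal.toZFSet_mem_toZFSet_iff]
    exact Iff.rfl
  refine ⟨?_, ?_⟩
  · intro ξ ζ h
    rw [hlt, hf]
    exact c.coll_mem.2 (c.kap_mem h)
  · intro o ho a ha
    by_contra hne
    rw [not_le, hlt, mem_coll] at hne
    obtain ⟨y, hy, hya⟩ := hne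
    rw [c.mem_kap] at hy
    have h2 : ∃ ζ < o, y ∈ D.N (e (ν ζ).toZFSet) := by
      rcases (c.L.pi.N_iff _ (c.ix_mem o) y).1 hy.1 with h3 | ⟨j, hj, h4, h5⟩
      · obtain ⟨b, hb⟩ := not_isMin_iff.1 ho.not_isMin
        exact ⟨b, hb, c.base_N b h3⟩
      · rw [c.L.ix] at hj
        obtain ⟨ζ, rfl⟩ := hj
        have h6 : ζ < o := c.ix_lt.1 h4
        have h7 : ¬ ζ ⋖ o := ho.isSuccPrelimit ζ
        obtain ⟨ζ', h8, h9⟩ := (not_covBy_iff h6).1 h7
        exact ⟨ζ', h9, c.Cs_N h8 h5⟩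
    obtain ⟨ζ, hζ, hyζ⟩ := h2
    have h3 : a < f ζ := by
      rw [hlt, ← hya]
      exact c.coll_mem.2 ((c.mem_kap ζ y).2 ⟨hyζ, hy.2⟩)
    exact absurd (ha ζ hζ) (not_le.2 h3)

omit c in
theorem isClub_preimage {f : J1.{u} → J1.{u}} (hf : Order.IsNormal f) {t : Set J1.{u}}
    (ht : IsClub t) : IsClub (f ⁻¹' t) := by
  constructor
  · intro d hd hne _ a ha
    apply ht.isLUB_mem (t := f '' d)
    · rintro _ ⟨x, hx, rfl⟩
      exact hd hx
    · exact hne.image f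
    · exact hf.map_isLUB ha hne
  · intro ξ
    obtain ⟨b, ⟨hb1, ⟨ζ, rfl⟩⟩, hb3⟩ :=
      (ht.inter isOmega1_I1.cof_ne hf.isClub_range).isCofinal (f ξ)
    exact ⟨ζ, hb1, hf.strictMono.le_iff_le.1 hb3⟩

theorem mem_Nn (x : M) : A.mem x (A.Nn K) ↔ InNS (coll c.wf x) := by
  constructor
  · intro hx
    refine ⟨?_, ?_⟩
    · intro z hz
      obtain ⟨y, hy, rfl⟩ := (mem_coll c.wf).1 hz
      exact c.coll_mem_w1 (A.nn_sub K hx hy)
    · rw [not_isStationary_iff]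
      refine ⟨{a : J1.{u} | a.1.toZFSet ∈ coll c.wf (A.fn (.prim K.c) x)}, ⟨?_, ?_⟩, ?_⟩
      · intro d hd hne _ a ha
        show a.1.toZFSet ∈ coll c.wf (A.fn (.prim K.c) x)
        by_contra hna
        obtain ⟨a', ha', hae⟩ := c.exists_of_mem_w1 (mem_w1.2 ⟨a.1, a.2, rfl⟩)
        -- `a` is not in `d`
        have had : a ∉ d := fun h => hna (hd h)
        obtain ⟨d0, hd0⟩ := hne
        have h1 : d0 < a := lt_of_le_of_ne (ha.1 hd0) (fun h => had (h ▸ hd0))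
        obtain ⟨b', hb', hbe⟩ := c.exists_of_mem_w1 (mem_w1.2 ⟨d0.1, d0.2, rfl⟩)
        have h2 : A.mem b' a' := by
          rw [← c.coll_mem, hbe, hae]
          exact Ordinal.toZFSet_mem_toZFSet_iff.2 h1
        have h3 : ¬ A.mem a' (A.fn (.prim K.c) x) := by
          rw [← c.coll_mem, hae]
          exact hna
        set b := A.fn (.prim K.y) (A.pr (A.fn (.prim K.c) x) a') with hb
        have h4 : A.mem b a' := (A.bnd_facts K (z := a') hx ha' h2 h3).1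
        have h5 : coll c.wf b ∈ a.1.toZFSet := by
          rw [← hae]
          exact c.coll_mem.2 h4
        obtain ⟨β, hβ, hβe⟩ := Ordinal.mem_toZFSet_iff.1 h5
        have hβ' : (⟨β, hβ.trans a.2⟩ : J1.{u}) < a := hβ
        obtain ⟨z, hz, hz1⟩ := (lt_isLUB_iff ha).1 hβ'
        have hz2 : z < a := lt_of_le_of_ne (ha.1 hz) (fun h => had (h ▸ hz))
        obtain ⟨z', hz', hze⟩ := c.exists_of_mem_w1 (mem_w1.2 ⟨z.1, z.2, rfl⟩)
        have h6 := (A.bnd_facts K (z := z') hx ha' h2 h3).2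
        apply h6
        · rw [← c.coll_mem, hze]
          exact hd hz
        · rw [← c.coll_mem, hze, hae]
          exact Ordinal.toZFSet_mem_toZFSet_iff.2 hz2
        · rw [← hb, ← c.coll_mem, ← hβe, hze]
          exact Ordinal.toZFSet_mem_toZFSet_iff.2 hz1
      · intro a
        obtain ⟨a', ha', hae⟩ := c.exists_of_mem_w1 (mem_w1.2 ⟨a.1, a.2, rfl⟩)
        obtain ⟨h1, h2⟩ := A.nxt_facts K hx ha'
        have h3 := c.coll_mem_w1 (A.clb_facts K hx h1).1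
        obtain ⟨b, hb, hbe⟩ := mem_w1.1 h3
        refine ⟨⟨b, hb⟩, ?_, ?_⟩
        · show b.toZFSet ∈ coll c.wf (A.fn (.prim K.c) x)
          rw [hbe]
          exact c.coll_mem.2 h1
        · have h4 := c.coll_mem.2 h2
          rw [hae, ← hbe, Ordinal.toZFSet_mem_toZFSet_iff] at h4
          exact h4.le
      · rw [Set.disjoint_left]
        intro a ha hac
        have ha' : a.1.toZFSet ∈ coll c.wf x := ha
        have hac' : a.1.toZFSet ∈ coll c.wf (A.fn (.prim K.c) x) := hac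
        obtain ⟨z, hz, hze⟩ := (mem_coll c.wf).1 hac'
        apply (A.clb_facts K hx hz).2
        rw [← c.coll_mem, hze]
        exact ha'
  · intro hx
    by_contra hne
    have hs : ∀ y, A.mem y x → A.mem y (A.W K) := by
      intro y hy
      rw [← c.coll_mem, c.coll_W]
      exact hx.1 (c.coll_mem.2 hy)
    have h1 := A.cond_big K c.hδ hne hs
    have h2 := c.L.sched _ h1
    apply hx.2
    intro t ht
    obtain ⟨f, hf, hfe⟩ := c.exists_f
    obtain ⟨ξ, hξ1, hξ2⟩ := h2 (isClub_preimage hf ht)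
    have hξ1' : A.mem (D.sd (e (ν ξ).toZFSet) (A.fn .fst (A.fn (bigC K) x)))
      (A.fn .snd (A.fn (bigC K) x)) := hξ1
    rw [A.fst_big, A.mem_snd_big] at hξ1'
    refine ⟨f ξ, ?_, hξ2⟩
    show (f ξ).1.toZFSet ∈ coll c.wf x
    rw [hfe]
    exact c.coll_mem.2 hξ1'.2

theorem mem_Bb (hB : B.Countable) {B' : Set (ℕ → ℕ)}
    (h1 : ∀ r, realSet.{u} r ∈ X → (r ∈ B' ↔ r ∈ B))
    (h2 : ∀ r ∈ B', realSet.{u} r ∉ X → r ∈ C) (x : M) :
    A.mem x (A.Bb K) ↔ ∃ f ∈ B', coll c.wf x = realSet f := by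
  have hb : A.Bb K ∈ D.base := by
    rw [c.L.base, ← c.e_bset]
    exact ⟨_, c.bset_mem, rfl⟩
  constructor
  · intro hx
    have hx2 : x ∈ D.base := by
      apply c.f2 _ hb _ x (c.car_mem x) hx
      rw [← c.e_bset]
      exact c.T_ctbl c.bset_mem (ctbl_bset hB)
    rw [c.L.base] at hx2
    obtain ⟨y, hy, rfl⟩ := hx2
    rw [← c.e_bset, c.L.emb.mem hy c.bset_mem] at hx
    obtain ⟨f, hf, rfl⟩ := mem_bset.1 hx
    exact ⟨f, (h1 f hy).2 hf, c.coll_e hy (HC.realSet f)⟩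
  · rintro ⟨f, hf, hx⟩
    by_cases hfX : realSet f ∈ X
    · have h3 := (h1 f hfX).1 hf
      rw [← c.coll_e hfX (HC.realSet f)] at hx
      rw [c.coll_inj hx, ← c.e_bset, c.L.emb.mem hfX c.bset_mem]
      exact mem_bset.2 ⟨f, h3, rfl⟩
    · exfalso
      apply c.L.avoid f (h2 f hf hfX) x
      intro n
      obtain ⟨hn1, hn2⟩ := c.numC_tt n
      obtain ⟨hm1, hm2⟩ := c.numC_tt (f n)
      have h3 : ZFSet.pair (n : Ordinal.{u}).toZFSet (f n : Ordinal.{u}).toZFSet ∈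
          realSet.{u} f := by
        unfold realSet
        rw [ZFSet.mem_range]
        exact ⟨n, rfl⟩
      have h4 : A.mem (A.pr (A.fn (numC n) A.tt) (A.fn (numC (f n)) A.tt)) x := by
        rw [← c.coll_mem, c.coll_pr, hx, hn2, hm2, c.coll_e hn1 (HC.nat n),
          c.coll_e hm1 (HC.nat _)]
        exact h3
      have h5 := A.app_mem h4
      rw [← c.coll_mem, c.coll_pr, hx, hn2, c.coll_e hn1 (HC.nat n)] at h5
      unfold realSet at h5
      rw [ZFSet.mem_range] at h5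
      obtain ⟨m, hm⟩ := h5
      rw [ZFSet.pair_inj] at hm
      have h6 := ordNat_injective hm.1
      subst h6
      apply c.coll_inj
      rw [hn2, ← hm.2, hm2, c.coll_e hm1 (HC.nat _)]

end Ctx

end H94W
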