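import Pool.Agent.Lib.H94W.Coll4

/-!
# Project Woodin, chunk O: collapse of the final model, transfer of `Σ₁` statements

`π : M → ZFSet`, `π x = {π y | y ∈ x}` (`M` is small).  `π` is injective (extensionality, by
transfer); its values are in `H(ω₂)` since `#M ≤ ℵ₁`.
(1) `π (e x) = x` for hereditarily countable `x ∈ X` (`∈`-induction, `pi_facts`; countable elements
of `X` are subsets of `X` if `P` contains the enumeration functions `⟨x, n⟩ ↦` the `n`-th element
of `x`).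
(2) `π (e ω₁) = ω₁`: it is an ordinal; each `x ∈ ω₁` of `M` is in some `N_ξ` and its elements are
then in `N_ξ ∩ H`, so `π x` is countable; let `κ_ξ = (sd (ν ξ) ω₁) ∩ ω₁`, an ordinal of `M`
(`not_stat_not_ord`, `ultra`), its elements are exactly the elements of `ω₁` in `N_ξ`
(`pi_facts`), `ξ ↦ π κ_ξ` is strictly increasing and continuous; every `x ∈ ω₁` of `M` is
in some `κ_ξ`.
(3) `NS`: for `x ∈ M`: `x ∈ nsset` in `M` iff `π x` is in the nonstationary ideal.  `→`: a club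
disjoint from `x` (by a class function in `E`) is mapped by `π` to a club.  `←`: if `x ⊆ ω₁` is not
in `nsset` in `M` then `(ω₁, {y ∈ DOM ω₁ | y ∩ ω₁ ∈ x})` is a condition (`stat_of_stationary`), and
by `sched` the set of `ξ` with `κ_ξ ∈ x` is stationary, so `π x` is stationary.
(4) `B`: for `x ∈ M`: `x ∈ {realSet f | f ∈ B}` (an element of `X`) in `M` iff `π x = realSet f`
for some `f ∈ B'`.
(5) By induction on `Δ₀` formulas `φ` there are codes `c_φ` such that (in `V`) `c_φ` of a tuple of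
parameters and of `v 0, …, v n` is the truth value of `φ` in `M_B`, and such that in `M`,
`c_φ (v)` is true iff `π ∘ v` satisfies `φ` in `M_{B'}`.
-/

set_option autoImplicit false

namespace H94W

open Ordinal Cardinal ZFSet

universe u v w

/-- Satisfaction of `Σ₁` formulas with witnesses in `X`. -/
def Sigma1.SatIn (B : Set (ℕ → ℕ)) (X : Set ZFSet.{u}) : (ℕ → H2.{u}) → Sigma1 → Prop
  | v, .base φ => φ.Sat B v
  | v, .ex i φ => ∃ a : H2.{u}, a.1 ∈ X ∧ φ.SatIn B X (Function.update v i a)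

theorem Sigma1.satIn_transfer {δ : Ordinal.{u}} {P : ℕ → ZFSet.{u} → ZFSet.{u}}
    {B : Set (ℕ → ℕ)} {K : KC P B} {H : ZFSet.{u}} {X : Set ZFSet.{u}}
    {ν : J1.{u} → Ordinal.{u}} {C : Set (ℕ → ℕ)} {M : Type (u + 1)} {A : Alg δ P M} {D : PD M}
    {e : ZFSet.{u} → M} (c : Ctx K H X ν C A D e) (B' : Set (ℕ → ℕ)) (p : M → H2.{u})
    (hinj : Function.Injective p) (hmem : ∀ x y, (p x).1 ∈ (p y).1 ↔ A.mem x y)
    (hsurj : ∀ (a : H2.{u}) (y : M), a.1 ∈ (p y).1 → ∃ x, p x = a)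
    (hB : ∀ x, A.mem x (A.Bb K) ↔ ∃ f ∈ B', (p x).1 = realSet f)
    (hN : ∀ x, A.mem x (A.Nn K) ↔ InNS (p x).1) :
    ∀ (φ : Sigma1) (v : ℕ → H2.{u}), (∀ i, (v i).1 ∈ X) → φ.SatIn B X v →
      φ.Sat B' (fun i => p (e (v i).1))
  | .base φ, v, hv, h => by
    have h' : φ.Sat B v := h
    rw [← DSat_univ (δ := δ) K, ← T_dcode (univAlg δ P) K φ.nv φ _ le_rfl] at h'
    have key : ∀ (k : ℕ) (ρ : ℕ → ZFSet.{u}), (∀ i, ρ i ∈ X) →
        (univAlg δ P).tup k ρ ∈ X ∧ e ((univAlg δ P).tup k ρ) = A.tup k (fun i => e (ρ i)) := by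
      intro k
      induction k with
      | zero => intro ρ _; exact ⟨c.one_mem, c.e_one⟩
      | succ k ih =>
        intro ρ hρ
        obtain ⟨h1, h2⟩ := ih (fun i => ρ (i + 1)) (fun i => hρ _)
        refine ⟨c.L.emb.cl_pair _ (hρ 0) _ h1, ?_⟩
        show e (ZFSet.pair (ρ 0) ((univAlg δ P).tup k (fun i => ρ (i + 1)))) =
          A.pr (e (ρ 0)) (A.tup k (fun i => e (ρ (i + 1))))
        rw [c.L.emb.pr _ (hρ 0) _ h1, h2]
    obtain ⟨h1, h2⟩ := key φ.nv (fun i => (v i).1) hv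
    have h3 : eval δ P (dcode K φ) ((univAlg δ P).tup φ.nv fun i => (v i).1) = one := h'
    have h4 := c.L.emb.fn _ h1 (dcode K φ)
    rw [h3, h2, c.e_one] at h4
    have h5 := (T_dcode A K φ.nv φ (fun i => e (v i).1) le_rfl).1 h4.symm
    exact (DSat_coll A K B' p hinj hmem hsurj hB hN φ _).1 h5
  | .ex i φ, v, hv, h => by
    obtain ⟨a, ha, h1⟩ := h
    have hv' : ∀ j, (Function.update v i a j).1 ∈ X := by
      intro j
      by_cases hj : j = i
      · subst hj; simpa using ha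
      · rw [Function.update_of_ne hj]; exact hv j
    have h2 := Sigma1.satIn_transfer c B' p hinj hmem hsurj hB hN φ _ hv' h1
    refine ⟨p (e a.1), ?_⟩
    have e1 : (fun j => p (e (Function.update v i a j).1)) =
        Function.update (fun j => p (e (v j).1)) i (p (e a.1)) := by
      funext j
      by_cases hj : j = i
      · subst hj; simp
      · rw [Function.update_of_ne hj, Function.update_of_ne hj]
    rw [← e1]
    exact h2

theorem sigma1_transfer {δ : Ordinal.{u}} (hδ : ω_ 1 < δ) (B : Set (ℕ → ℕ)) (hB : B.Countable) :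
    ∃ E : ℕ → ZFSet.{u} → ZFSet.{u}, ∀ P, Has P E → ∀ H, Nice δ H →
      ∀ (X : Set ZFSet.{u}) (ν : Set.Iio (ω_ 1 : Ordinal.{u}) → Ordinal.{u}) (C : Set (ℕ → ℕ))
      (M : Type (u + 1)) (A : Alg δ P M) (D : PD M) (e : ZFSet.{u} → M),
      IsLong δ P H X ν C A D e → Wf A Set.univ → H ∈ X →
      ∀ B' : Set (ℕ → ℕ), (∀ r, realSet.{u} r ∈ X → (r ∈ B' ↔ r ∈ B)) →
      (∀ r ∈ B', realSet.{u} r ∉ X → r ∈ C) →
      ∀ (r : ℕ → ℕ) (φ : Sigma1), realSet.{u} r ∈ X →
        Sigma1.SatIn B X (fun i => if i = 0 then realH r else omega1) φ →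
        φ.Sat B' (fun i => if i = 0 then realH.{u} r else omega1) := by
  obtain ⟨E₀, hE₀⟩ := pi_facts.{u, u + 1} δ
  refine ⟨mrg E₀ (EC B), ?_⟩
  intro P hP H hH X ν C M A D e hL hwf hHX B' h1 h2 r φ hr hsat
  obtain ⟨K⟩ := exists_KC hP.right
  have hwf' : WellFounded A.mem := by
    rw [wellFounded_iff_isEmpty_descending_chain]
    exact ⟨fun ⟨s, hs⟩ => hwf ⟨s, fun _ => trivial, hs⟩⟩
  have hpos : 0 < δ := (omega_pos 1).trans hδ
  have hwfi : Wf A D.ix := fun ⟨s, _, hs⟩ => hwf ⟨s, fun _ => trivial, hs⟩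
  obtain ⟨f1, f2, f3⟩ := hE₀ P hP.left M A D hL.pi hwfi hpos
  have c : Ctx K H X ν C A D e := ⟨hL, hwf', hδ, hHX, hH, f1, f2, f3⟩
  have : Small.{u} M := small_of_card hL.card
  let p : M → H2.{u} := fun x => ⟨coll c.wf x, coll_H2 c.wf hL.card x⟩
  have hinj : Function.Injective p := fun x y h => c.coll_inj (congrArg Subtype.val h)
  have hmem : ∀ x y, (p x).1 ∈ (p y).1 ↔ A.mem x y := fun x y => c.coll_mem
  have hsurj : ∀ (a : H2.{u}) (y : M), a.1 ∈ (p y).1 → ∃ x, p x = a := by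
    intro a y h
    obtain ⟨x, _, hx⟩ := (mem_coll c.wf).1 h
    exact ⟨x, Subtype.ext hx⟩
  have hBb : ∀ x, A.mem x (A.Bb K) ↔ ∃ f ∈ B', (p x).1 = realSet f := fun x =>
    c.mem_Bb hB h1 h2 x
  have hNn : ∀ x, A.mem x (A.Nn K) ↔ InNS (p x).1 := fun x => c.mem_Nn x
  have hv : ∀ i : ℕ, ((if i = 0 then realH r else omega1 : H2.{u})).1 ∈ X := by
    intro i
    split
    · exact hr
    · exact c.w1_mem
  have h3 := Sigma1.satIn_transfer c B' p hinj hmem hsurj hBb hNn φ _ hv hsat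
  have e1 : (fun i : ℕ => p (e ((if i = 0 then realH r else omega1 : H2.{u})).1)) =
      fun i => if i = 0 then realH.{u} r else omega1 := by
    funext i
    by_cases hi : i = 0
    · rw [if_pos hi]
      exact Subtype.ext (c.coll_e hr (HC.realSet r))
    · rw [if_neg hi]
      apply Subtype.ext
      show coll c.wf (e w1) = w1
      rw [c.e_w1, c.coll_W]
  rw [e1] at h3
  exact h3

end H94W
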