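import Mathlib

/-!
# Project Woodin (`MP_ebf58a_lc`), core definitions

The universe is `ZFSet.{u}`.  Instead of elementary submodels we use countable sets closed under
countable families of class functions `ZFSet → ZFSet`.
-/

set_option autoImplicit false

namespace H94W

open Ordinal Cardinal ZFSet

universe u v w

/-! ### A small toolkit for sets -/

/-- The truth value `1`. -/
noncomputable def one : ZFSet.{u} := {∅}

open Classical in
/-- The truth value of `p`. -/
noncomputable def zb (p : Prop) : ZFSet.{u} := if p then one else ∅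

theorem one_ne_empty : (one : ZFSet.{u}) ≠ ∅ := by
  intro h
  have h1 : (∅ : ZFSet.{u}) ∈ (one : ZFSet.{u}) := by simp [one]
  rw [h] at h1
  exact ZFSet.notMem_empty _ h1

@[simp] theorem zb_eq_one {p : Prop} : zb.{u} p = one ↔ p := by
  unfold zb
  split
  · simp [*]
  · simp [*, one_ne_empty.symm]

theorem zb_true {p : Prop} (h : p) : zb.{u} p = one := zb_eq_one.2 h

theorem zb_false {p : Prop} (h : ¬ p) : zb.{u} p = ∅ := by
  unfold zb; simp [h]

open Classical in
/-- First component of an ordered pair (junk value `∅`). -/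
noncomputable def zfst (p : ZFSet.{u}) : ZFSet.{u} :=
  if h : ∃ x y, p = pair x y then h.choose else ∅

open Classical in
/-- Second component of an ordered pair (junk value `∅`). -/
noncomputable def zsnd (p : ZFSet.{u}) : ZFSet.{u} :=
  if h : ∃ x y, p = pair x y then h.choose_spec.choose else ∅

@[simp] theorem zfst_pair (x y : ZFSet.{u}) : zfst (pair x y) = x := by
  have h : ∃ a b, pair x y = pair a b := ⟨x, y, rfl⟩
  unfold zfst
  rw [dif_pos h]
  exact (pair_inj.1 h.choose_spec.choose_spec).1.symm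

@[simp] theorem zsnd_pair (x y : ZFSet.{u}) : zsnd (pair x y) = y := by
  have h : ∃ a b, pair x y = pair a b := ⟨x, y, rfl⟩
  unfold zsnd
  rw [dif_pos h]
  exact (pair_inj.1 h.choose_spec.choose_spec).2.symm

/-- The function `y ↦ F y` with domain `d`, as a set of ordered pairs. -/
noncomputable def zlam (d : ZFSet.{u}) (F : ZFSet.{u} → ZFSet.{u}) : ZFSet.{u} :=
  range fun y : {y // y ∈ d} => pair y.1 (F y.1)

theorem mem_zlam {d : ZFSet.{u}} {F : ZFSet.{u} → ZFSet.{u}} {z : ZFSet.{u}} :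
    z ∈ zlam d F ↔ ∃ y ∈ d, z = pair y (F y) := by
  unfold zlam
  rw [mem_range]
  constructor
  · rintro ⟨⟨y, hy⟩, rfl⟩; exact ⟨y, hy, rfl⟩
  · rintro ⟨y, hy, rfl⟩; exact ⟨⟨y, hy⟩, rfl⟩

theorem zlam_congr {d : ZFSet.{u}} {F G : ZFSet.{u} → ZFSet.{u}} (h : ∀ y ∈ d, F y = G y) :
    zlam d F = zlam d G := by
  ext z
  rw [mem_zlam, mem_zlam]
  constructor
  · rintro ⟨y, hy, rfl⟩; exact ⟨y, hy, by rw [h y hy]⟩
  · rintro ⟨y, hy, rfl⟩; exact ⟨y, hy, by rw [h y hy]⟩

open Classical in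
/-- Function application (junk value `∅`). -/
noncomputable def zapp (f x : ZFSet.{u}) : ZFSet.{u} :=
  if h : ∃ y, pair x y ∈ f then h.choose else ∅

@[simp] theorem zapp_zlam {d : ZFSet.{u}} {F : ZFSet.{u} → ZFSet.{u}} {x : ZFSet.{u}}
    (hx : x ∈ d) : zapp (zlam d F) x = F x := by
  have h : ∃ y, pair x y ∈ zlam d F := ⟨F x, mem_zlam.2 ⟨x, hx, rfl⟩⟩
  unfold zapp
  rw [dif_pos h]
  obtain ⟨y, _, hy⟩ := mem_zlam.1 h.choose_spec
  rw [pair_inj] at hy
  rw [hy.2, hy.1]

theorem zapp_zlam_of_notMem {d : ZFSet.{u}} {F : ZFSet.{u} → ZFSet.{u}} {x : ZFSet.{u}}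
    (hx : x ∉ d) : zapp (zlam d F) x = ∅ := by
  unfold zapp
  rw [dif_neg]
  rintro ⟨y, hy⟩
  obtain ⟨z, hz, e⟩ := mem_zlam.1 hy
  rw [pair_inj] at e
  exact hx (e.1 ▸ hz)

/-- A value of a function has smaller rank than the function, unless it is the junk value. -/
theorem rank_zapp (f x : ZFSet.{u}) : zapp f x = ∅ ∨ rank (zapp f x) < rank f := by
  unfold zapp
  split
  · rename_i h
    right
    have h1 : pair x h.choose ∈ f := h.choose_spec
    have h2 : h.choose ∈ ({x, h.choose} : ZFSet) := by simp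
    have h3 : ({x, h.choose} : ZFSet) ∈ pair x h.choose := by simp [pair]
    exact (rank_lt_of_mem h2).trans ((rank_lt_of_mem h3).trans (rank_lt_of_mem h1))
  · left; rfl

/-! ### Countable closed sets, stationary sets, the countable stationary tower -/

/-- `X` is a nonempty countable set of sets closed under the functions `F n` and under pairing. -/
def Good (F : ℕ → ZFSet.{u} → ZFSet.{u}) (X : Set ZFSet.{u}) : Prop :=
  X.Countable ∧ X.Nonempty ∧ (∀ n, ∀ x ∈ X, F n x ∈ X) ∧ ∀ x ∈ X, ∀ y ∈ X, pair x y ∈ X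

/-- The set `x` is countable. -/
def Ctbl (x : ZFSet.{u}) : Prop := {y | y ∈ x}.Countable

/-- `x ∩ V_{rank η}`. -/
noncomputable def restr (x η : ZFSet.{u}) : ZFSet.{u} :=
  ZFSet.sep (fun y => y ∈ V_ (rank η)) x

theorem mem_restr {x η y : ZFSet.{u}} : y ∈ restr x η ↔ y ∈ x ∧ y ∈ V_ (rank η) := by
  unfold restr; rw [mem_sep]

/-- The trace `X ∩ V_{rank η}` of `X` as a set. -/
noncomputable def trc (X : Set ZFSet.{u}) (η : ZFSet.{u}) : ZFSet.{u} :=
  ZFSet.sep (fun x => x ∈ X) (V_ (rank η))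

/-- The set of countable subsets of `V_{rank η}`. -/
noncomputable def DOM (η : ZFSet.{u}) : ZFSet.{u} :=
  ZFSet.sep (fun x => {y | y ∈ x}.Countable) (powerset (V_ (rank η)))

/-- `a` is stationary at level `η`: for every countable family of class functions there is a
countable closed `X` whose trace on `V_{rank η}` is in `a`. -/
def Stat (η a : ZFSet.{u}) : Prop :=
  ∀ F : ℕ → ZFSet.{u} → ZFSet.{u}, ∃ X, Good F X ∧ trc X η ∈ a

/-- `η` is a von Neumann ordinal below `δ`. -/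
def Ltd (δ : Ordinal.{u}) (η : ZFSet.{u}) : Prop := ∃ α < δ, η = α.toZFSet

/-- `t` is a condition of the countable stationary tower `Q_{<δ}`: a pair of an ordinal
`η < δ` and a stationary set of countable subsets of `V_η`. -/
def IsCond (δ : Ordinal.{u}) (t : ZFSet.{u}) : Prop :=
  ∃ η a, Ltd δ η ∧ a ⊆ DOM η ∧ Stat η a ∧ t = pair η a

/-- `X` belongs to the condition `t = (η, a)`, i.e. its trace on `V_η` is in `a`. -/
def In (X : Set ZFSet.{u}) (t : ZFSet.{u}) : Prop := trc X (zfst t) ∈ zsnd t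

/-- The conditions `t`, `t'` are compatible. -/
def Compat (t t' : ZFSet.{u}) : Prop :=
  ∀ F : ℕ → ZFSet.{u} → ZFSet.{u}, ∃ X, Good F X ∧ In X t ∧ In X t'

/-- `D` is a predense set of conditions of `Q_{<δ}`. -/
def Pred (δ : Ordinal.{u}) (D : ZFSet.{u}) : Prop :=
  (∀ t ∈ D, IsCond δ t) ∧ ∀ t, IsCond δ t → ∃ t' ∈ D, Compat t t'

/-- The capturing property of `δ` (a consequence of `δ` being Woodin): inside every condition
and for every countable family of functions there is a countable closed `X` in the condition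
that meets every predense set `D ∈ X` in a condition of `X` to which `X` belongs. -/
def Capt (δ : Ordinal.{u}) : Prop :=
  ∀ (F : ℕ → ZFSet.{u} → ZFSet.{u}) (t : ZFSet.{u}), IsCond δ t →
    ∃ X, Good F X ∧ In X t ∧ ∀ D ∈ X, Pred δ D → ∃ t' ∈ D, t' ∈ X ∧ In X t'

/-- `Z` is a rank `V_θ` with `θ > δ` a limit, closed under functions with domain `DOM η`,
`η < δ`. -/
def Nice (δ : Ordinal.{u}) (Z : ZFSet.{u}) : Prop :=
  ∃ θ : Ordinal.{u}, Z = V_ θ ∧ δ < θ ∧ Order.IsSuccLimit θ ∧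
    ∀ (η : ZFSet.{u}), Ltd δ η → ∀ F : ZFSet.{u} → ZFSet.{u},
      (∀ y ∈ DOM η, F y ∈ Z) → zlam (DOM η) F ∈ Z

/-! ### Codes for class functions -/

/-- Codes for unary class functions.  `prim k` stands for the `k`-th function of a given
countable list `P`. -/
inductive Code : Type
  | id | fst | snd | one
  | eq | mem | not | and | app | un
  | ord | rk | ltd | dom | stat | cond | pred | restr | nice | ctbl
  | prim (k : ℕ)
  | comp (a b : Code)
  | pair (a b : Code)
  | sep (a : Code)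
  | lam (a : Code)
  deriving DecidableEq, Countable

/-- The class function coded by a code. -/
noncomputable def eval (δ : Ordinal.{u}) (P : ℕ → ZFSet.{u} → ZFSet.{u}) :
    Code → ZFSet.{u} → ZFSet.{u}
  | .id, x => x
  | .fst, x => zfst x
  | .snd, x => zsnd x
  | .one, _ => one
  | .eq, p => zb (zfst p = zsnd p)
  | .mem, p => zb (zfst p ∈ zsnd p)
  | .not, x => zb (x ≠ one)
  | .and, p => zb (zfst p = one ∧ zsnd p = one)
  | .app, p => zapp (zfst p) (zsnd p)
  | .un, p => zfst p ∪ zsnd p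
  | .ord, x => zb (IsOrdinal x)
  | .rk, x => (rank x).toZFSet
  | .ltd, x => zb (Ltd δ x)
  | .dom, x => DOM x
  | .stat, p => zb (Ltd δ (zfst p) ∧ Stat (zfst p) (zsnd p))
  | .cond, x => zb (IsCond δ x)
  | .pred, x => zb (Pred δ x)
  | .restr, p => H94W.restr (zfst p) (zsnd p)
  | .nice, x => zb (Nice δ x)
  | .ctbl, x => zb (Ctbl x)
  | .prim k, x => P k x
  | .comp a b, x => eval δ P a (eval δ P b x)
  | .pair a b, x => ZFSet.pair (eval δ P a x) (eval δ P b x)
  | .sep a, p => ZFSet.sep (fun y => eval δ P a (ZFSet.pair y (zsnd p)) = one) (zfst p)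
  | .lam a, p => zlam (zfst p) (fun y => eval δ P a (ZFSet.pair y (zsnd p)))

/-- Code of the ordinal successor (of an ordinal). -/
def succC : Code :=
  .comp (.sep (.comp .not (.comp .and (.pair (.comp .not .mem) (.comp .not .eq)))))
    (.pair (.comp .rk (.pair .id .id)) .id)

/-- Codes of the natural numbers. -/
def numC : ℕ → Code
  | 0 => .comp .not .one
  | n + 1 => .comp succC (numC n)

theorem rank_pair_self (α : Ordinal.{u}) :
    rank (ZFSet.pair α.toZFSet α.toZFSet) = Order.succ (Order.succ α) := by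
  simp [ZFSet.pair, rank_toZFSet]

theorem eval_succC (δ : Ordinal.{u}) (P : ℕ → ZFSet.{u} → ZFSet.{u}) (α : Ordinal.{u}) :
    eval δ P succC α.toZFSet = (Order.succ α).toZFSet := by
  ext y
  simp only [succC, eval, zfst_pair, zsnd_pair, mem_sep, zb_eq_one, rank_pair_self,
    Ordinal.mem_toZFSet_iff, ne_eq, not_and, not_not, Order.lt_succ_iff]
  constructor
  · rintro ⟨_, h⟩
    by_cases h1 : ∃ a < α, a.toZFSet = y
    · obtain ⟨a, ha, rfl⟩ := h1
      exact ⟨a, ha.le, rfl⟩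
    · exact ⟨α, le_rfl, (h h1).symm⟩
  · rintro ⟨β, hβ, rfl⟩
    refine ⟨⟨β, hβ.trans (Order.le_succ _), rfl⟩, ?_⟩
    intro h1
    rcases hβ.lt_or_eq with h3 | h3
    · exact absurd ⟨β, h3, rfl⟩ h1
    · rw [h3]

theorem eval_numC (δ : Ordinal.{u}) (P : ℕ → ZFSet.{u} → ZFSet.{u}) (n : ℕ) (x : ZFSet.{u}) :
    eval δ P (numC n) x = (n : Ordinal.{u}).toZFSet := by
  induction n with
  | zero =>
    have h : eval δ P (numC 0) x = zb (one ≠ one) := rfl
    rw [h, zb_false (by simp)]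
    simp
  | succ n ih =>
    show eval δ P succC (eval δ P (numC n) x) = _
    rw [ih, eval_succC]
    congr 1

/-! ### Algebras -/

/-- A `P`-algebra: a set `M` on which the codes and pairing act, satisfying the universal
theory of the universe of sets. -/
structure Alg (δ : Ordinal.{u}) (P : ℕ → ZFSet.{u} → ZFSet.{u}) (M : Type v) where
  fn : Code → M → M
  pr : M → M → M
  tt : M
  fn_id : ∀ x, fn .id x = x
  fn_fst : ∀ x y, fn .fst (pr x y) = x
  fn_snd : ∀ x y, fn .snd (pr x y) = y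
  fn_one : ∀ x, fn .one x = tt
  fn_eq : ∀ x y, fn .eq (pr x y) = tt ↔ x = y
  fn_comp : ∀ a b x, fn (.comp a b) x = fn a (fn b x)
  fn_pair : ∀ a b x, fn (.pair a b) x = pr (fn a x) (fn b x)
  fn_not : ∀ x, fn .not x = tt ↔ x ≠ tt
  fn_valid : ∀ c, (∀ x : ZFSet.{u}, eval δ P c x = one) → ∀ x, fn c x = tt

/-- Terms in the variables `v 0, v 1, …`. -/
inductive Tm : Type
  | v (i : ℕ)
  | f (c : Code) (t : Tm)
  | p (s t : Tm)

/-- Quantifier-free formulas. -/
inductive QF : Type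
  | tr (t : Tm)
  | eq (s t : Tm)
  | mem (s t : Tm)
  | not (φ : QF)
  | and (φ ψ : QF)
  | or (φ ψ : QF)
  | imp (φ ψ : QF)

section

variable (δ : Ordinal.{u}) (P : ℕ → ZFSet.{u} → ZFSet.{u})

/-- Value of a term in the universe. -/
noncomputable def Tm.evU (ρ : ℕ → ZFSet.{u}) : Tm → ZFSet.{u}
  | .v i => ρ i
  | .f c t => eval δ P c (t.evU ρ)
  | .p s t => ZFSet.pair (s.evU ρ) (t.evU ρ)

/-- Truth of a quantifier-free formula in the universe. -/
def QF.evU (ρ : ℕ → ZFSet.{u}) : QF → Prop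
  | .tr t => t.evU δ P ρ = one
  | .eq s t => s.evU δ P ρ = t.evU δ P ρ
  | .mem s t => s.evU δ P ρ ∈ t.evU δ P ρ
  | .not φ => ¬ φ.evU ρ
  | .and φ ψ => φ.evU ρ ∧ ψ.evU ρ
  | .or φ ψ => φ.evU ρ ∨ ψ.evU ρ
  | .imp φ ψ => φ.evU ρ → ψ.evU ρ

end

namespace Alg

variable {δ : Ordinal.{u}} {P : ℕ → ZFSet.{u} → ZFSet.{u}} {M : Type v} (A : Alg δ P M)

/-- `x` is (the truth value) true. -/
def T (x : M) : Prop := x = A.tt

/-- The membership relation of the algebra. -/
def mem (x y : M) : Prop := A.T (A.fn .mem (A.pr x y))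

/-- Value of a term in an algebra. -/
def evT (A : Alg δ P M) (ρ : ℕ → M) : Tm → M
  | .v i => ρ i
  | .f c t => A.fn c (A.evT ρ t)
  | .p s t => A.pr (A.evT ρ s) (A.evT ρ t)

/-- Truth of a quantifier-free formula in an algebra. -/
def evQ (A : Alg δ P M) (ρ : ℕ → M) : QF → Prop
  | .tr t => A.T (A.evT ρ t)
  | .eq s t => A.evT ρ s = A.evT ρ t
  | .mem s t => A.mem (A.evT ρ s) (A.evT ρ t)
  | .not φ => ¬ A.evQ ρ φ
  | .and φ ψ => A.evQ ρ φ ∧ A.evQ ρ ψ
  | .or φ ψ => A.evQ ρ φ ∨ A.evQ ρ ψ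
  | .imp φ ψ => A.evQ ρ φ → A.evQ ρ ψ

end Alg

/-- The universe itself is an algebra. -/
noncomputable def univAlg (δ : Ordinal.{u}) (P : ℕ → ZFSet.{u} → ZFSet.{u}) :
    Alg δ P ZFSet.{u} where
  fn c x := eval δ P c x
  pr := ZFSet.pair
  tt := one
  fn_id _ := rfl
  fn_fst x y := by simp [eval]
  fn_snd x y := by simp [eval]
  fn_one _ := rfl
  fn_eq x y := by simp [eval]
  fn_comp _ _ _ := rfl
  fn_pair _ _ _ := rfl
  fn_not x := by simp [eval]
  fn_valid c h x := h x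

/-! ### The transfer principle -/

/-- Code of the `i`-th component of a tuple `⟨x₀, ⟨x₁, …⟩⟩`. -/
def projC : ℕ → Code
  | 0 => .fst
  | i + 1 => .comp (projC i) .snd

/-- Code of a term, acting on tuples. -/
def Tm.code : Tm → Code
  | .v i => projC i
  | .f c t => .comp c t.code
  | .p s t => .pair s.code t.code

/-- Negation of a truth value. -/
def QF.code : QF → Code
  | .tr t => .comp .eq (.pair t.code .one)
  | .eq s t => .comp .eq (.pair s.code t.code)
  | .mem s t => .comp .mem (.pair s.code t.code)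
  | .not φ => .comp .not φ.code
  | .and φ ψ => .comp .and (.pair φ.code ψ.code)
  | .or φ ψ => .comp .not (.comp .and (.pair (.comp .not φ.code) (.comp .not ψ.code)))
  | .imp φ ψ => .comp .not (.comp .and (.pair φ.code (.comp .not ψ.code)))

namespace Tm

/-- All variables of the term are `< k`. -/
def bd (k : ℕ) : Tm → Prop
  | .v i => i < k
  | .f _ t => t.bd k
  | .p s t => s.bd k ∧ t.bd k

/-- A bound for the variables of a term. -/
def nv : Tm → ℕ
  | .v i => i + 1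
  | .f _ t => t.nv
  | .p s t => max s.nv t.nv

theorem bd_mono {k l : ℕ} (h : k ≤ l) : ∀ t : Tm, t.bd k → t.bd l
  | .v _, hi => lt_of_lt_of_le hi h
  | .f _ t, ht => bd_mono h t ht
  | .p s t, hst => ⟨bd_mono h s hst.1, bd_mono h t hst.2⟩

theorem bd_nv : ∀ t : Tm, t.bd t.nv
  | .v i => Nat.lt_succ_self i
  | .f _ t => bd_nv t
  | .p s t => ⟨bd_mono (le_max_left _ _) s (bd_nv s), bd_mono (le_max_right _ _) t (bd_nv t)⟩

end Tm

namespace QF

/-- All variables of the formula are `< k`. -/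
def bd (k : ℕ) : QF → Prop
  | .tr t => t.bd k
  | .eq s t => s.bd k ∧ t.bd k
  | .mem s t => s.bd k ∧ t.bd k
  | .not φ => φ.bd k
  | .and φ ψ => φ.bd k ∧ ψ.bd k
  | .or φ ψ => φ.bd k ∧ ψ.bd k
  | .imp φ ψ => φ.bd k ∧ ψ.bd k

/-- A bound for the variables of a formula. -/
def nv : QF → ℕ
  | .tr t => t.nv
  | .eq s t => max s.nv t.nv
  | .mem s t => max s.nv t.nv
  | .not φ => φ.nv
  | .and φ ψ => max φ.nv ψ.nv
  | .or φ ψ => max φ.nv ψ.nv
  | .imp φ ψ => max φ.nv ψ.nv

theorem bd_mono {k l : ℕ} (h : k ≤ l) : ∀ φ : QF, φ.bd k → φ.bd l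
  | .tr t, ht => t.bd_mono h ht
  | .eq s t, hst => ⟨s.bd_mono h hst.1, t.bd_mono h hst.2⟩
  | .mem s t, hst => ⟨s.bd_mono h hst.1, t.bd_mono h hst.2⟩
  | .not φ, hφ => bd_mono h φ hφ
  | .and φ ψ, hst => ⟨bd_mono h φ hst.1, bd_mono h ψ hst.2⟩
  | .or φ ψ, hst => ⟨bd_mono h φ hst.1, bd_mono h ψ hst.2⟩
  | .imp φ ψ, hst => ⟨bd_mono h φ hst.1, bd_mono h ψ hst.2⟩

theorem bd_nv : ∀ φ : QF, φ.bd φ.nv
  | .tr t => t.bd_nv
  | .eq s t => ⟨s.bd_mono (le_max_left _ _) s.bd_nv, t.bd_mono (le_max_right _ _) t.bd_nv⟩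
  | .mem s t => ⟨s.bd_mono (le_max_left _ _) s.bd_nv, t.bd_mono (le_max_right _ _) t.bd_nv⟩
  | .not φ => bd_nv φ
  | .and φ ψ => ⟨bd_mono (le_max_left _ _) φ (bd_nv φ), bd_mono (le_max_right _ _) ψ (bd_nv ψ)⟩
  | .or φ ψ => ⟨bd_mono (le_max_left _ _) φ (bd_nv φ), bd_mono (le_max_right _ _) ψ (bd_nv ψ)⟩
  | .imp φ ψ => ⟨bd_mono (le_max_left _ _) φ (bd_nv φ), bd_mono (le_max_right _ _) ψ (bd_nv ψ)⟩

end QF

namespace Alg

variable {δ : Ordinal.{u}} {P : ℕ → ZFSet.{u} → ZFSet.{u}} {M : Type v} (A : Alg δ P M)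

/-- The tuple `⟨ρ 0, ⟨ρ 1, … ⟨ρ (k-1), tt⟩⟩⟩`. -/
def tup : ℕ → (ℕ → M) → M
  | 0, _ => A.tt
  | k + 1, ρ => A.pr (ρ 0) (tup k (fun i => ρ (i + 1)))

theorem fn_projC : ∀ (k i : ℕ) (ρ : ℕ → M), i < k → A.fn (projC i) (A.tup k ρ) = ρ i
  | 0, i, ρ, h => absurd h (Nat.not_lt_zero _)
  | k + 1, 0, ρ, _ => by simp [projC, tup, A.fn_fst]
  | k + 1, i + 1, ρ, h => by
    have := fn_projC k i (fun i => ρ (i + 1)) (Nat.lt_of_succ_lt_succ h)
    simp only [projC, tup, A.fn_comp, A.fn_snd]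
    exact this

theorem fn_tmCode (k : ℕ) (ρ : ℕ → M) : ∀ t : Tm, t.bd k → A.fn t.code (A.tup k ρ) = A.evT ρ t
  | .v i, h => A.fn_projC k i ρ h
  | .f c t, h => by simp only [Tm.code, A.fn_comp, evT, fn_tmCode k ρ t h]
  | .p s t, h => by simp only [Tm.code, A.fn_pair, evT, fn_tmCode k ρ s h.1, fn_tmCode k ρ t h.2]

/-- Transfer of implications between codes. -/
theorem tr_imp (c d : Code) (h : ∀ x : ZFSet.{u}, eval δ P c x = one → eval δ P d x = one)
    (x : M) (hx : A.T (A.fn c x)) : A.T (A.fn d x) := by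
  let e : Code := .comp .eq (.pair (.comp .eq (.pair c .one))
    (.comp .eq (.pair (.pair (.comp .eq (.pair c .one)) (.comp .eq (.pair d .one)))
      (.pair .one .one))))
  have he : ∀ x : ZFSet.{u}, eval δ P e x = one := by
    intro x
    have h' := h x
    simp only [e, eval, zfst_pair, zsnd_pair, zb_eq_one, pair_inj]
    by_cases hc : eval δ P c x = one
    · simp [hc, h' hc, zb_true]
    · have h1 : (zb (eval δ P c x = one) : ZFSet.{u}) = ∅ := zb_false hc
      rw [h1]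
      symm
      apply zb_false
      intro h2
      exact hc h2.1
  have h1 := A.fn_valid e he x
  simp only [e, A.fn_comp, A.fn_pair, A.fn_eq, A.fn_one] at h1
  have hc : A.fn .eq (A.pr (A.fn c x) A.tt) = A.tt := (A.fn_eq _ _).2 hx
  rw [hc] at h1
  have h2 := (A.fn_eq _ _).1 h1.symm
  have h3 := congrArg (A.fn .snd) h2
  rw [A.fn_snd, A.fn_snd] at h3
  exact (A.fn_eq _ _).1 h3

theorem T_not (x : M) : A.T (A.fn .not x) ↔ ¬ A.T x := A.fn_not x

theorem T_eq (x y : M) : A.T (A.fn .eq (A.pr x y)) ↔ x = y := A.fn_eq x y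

theorem T_and (x y : M) : A.T (A.fn .and (A.pr x y)) ↔ A.T x ∧ A.T y := by
  constructor
  · intro h
    refine ⟨?_, ?_⟩
    · have := A.tr_imp .and .fst (by intro u hu; simpa [eval] using (zb_eq_one.1 hu).1) _ h
      rwa [A.fn_fst] at this
    · have := A.tr_imp .and .snd (by intro u hu; simpa [eval] using (zb_eq_one.1 hu).2) _ h
      rwa [A.fn_snd] at this
  · rintro ⟨hx, hy⟩
    have hx' : x = A.tt := hx
    have hy' : y = A.tt := hy
    have := A.fn_valid (.comp .and (.pair .one .one)) (by intro u; simp [eval]) x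
    rw [A.fn_comp, A.fn_pair, A.fn_one] at this
    rw [hx', hy']
    exact this

theorem T_code (k : ℕ) (ρ : ℕ → M) : ∀ φ : QF, φ.bd k →
    (A.T (A.fn φ.code (A.tup k ρ)) ↔ A.evQ ρ φ)
  | .tr t, h => by
    simp only [QF.code, A.fn_comp, A.fn_pair, A.fn_one, A.T_eq, A.fn_tmCode k ρ t h, evQ]
    exact Iff.rfl
  | .eq s t, h => by
    simp only [QF.code, A.fn_comp, A.fn_pair, A.T_eq, A.fn_tmCode k ρ t h.2,
      A.fn_tmCode k ρ s h.1, evQ]
  | .mem s t, h => by
    simp only [QF.code, A.fn_comp, A.fn_pair, A.fn_tmCode k ρ t h.2,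
      A.fn_tmCode k ρ s h.1, evQ, mem]
  | .not φ, h => by
    simp only [QF.code, A.fn_comp, A.T_not, T_code k ρ φ h, evQ]
  | .and φ ψ, h => by
    simp only [QF.code, A.fn_comp, A.fn_pair, A.T_and, T_code k ρ φ h.1, T_code k ρ ψ h.2, evQ]
  | .or φ ψ, h => by
    simp only [QF.code, A.fn_comp, A.fn_pair, A.T_not, A.T_and, T_code k ρ φ h.1,
      T_code k ρ ψ h.2, evQ]
    tauto
  | .imp φ ψ, h => by
    simp only [QF.code, A.fn_comp, A.fn_pair, A.T_not, A.T_and, T_code k ρ φ h.1,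
      T_code k ρ ψ h.2, evQ]
    tauto

end Alg

theorem univ_evT (δ : Ordinal.{u}) (P : ℕ → ZFSet.{u} → ZFSet.{u}) (ρ : ℕ → ZFSet.{u}) :
    ∀ t : Tm, (univAlg δ P).evT ρ t = t.evU δ P ρ
  | .v _ => rfl
  | .f c t => by
    show eval δ P c _ = eval δ P c _
    rw [univ_evT δ P ρ t]
  | .p s t => by
    show ZFSet.pair _ _ = ZFSet.pair _ _
    rw [univ_evT δ P ρ s, univ_evT δ P ρ t]

theorem univ_mem (δ : Ordinal.{u}) (P : ℕ → ZFSet.{u} → ZFSet.{u}) (x y : ZFSet.{u}) :
    (univAlg δ P).mem x y ↔ x ∈ y := by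
  show eval δ P .mem (pair x y) = one ↔ _
  simp [eval]

theorem univ_evQ (δ : Ordinal.{u}) (P : ℕ → ZFSet.{u} → ZFSet.{u}) (ρ : ℕ → ZFSet.{u}) :
    ∀ φ : QF, (univAlg δ P).evQ ρ φ ↔ φ.evU δ P ρ
  | .tr t => by
    show (univAlg δ P).evT ρ t = one ↔ _
    rw [univ_evT]; rfl
  | .eq s t => by
    show (univAlg δ P).evT ρ s = (univAlg δ P).evT ρ t ↔ _
    rw [univ_evT, univ_evT]; rfl
  | .mem s t => by
    show (univAlg δ P).mem ((univAlg δ P).evT ρ s) ((univAlg δ P).evT ρ t) ↔ _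
    rw [univ_evT, univ_evT, univ_mem]; rfl
  | .not φ => not_congr (univ_evQ δ P ρ φ)
  | .and φ ψ => and_congr (univ_evQ δ P ρ φ) (univ_evQ δ P ρ ψ)
  | .or φ ψ => or_congr (univ_evQ δ P ρ φ) (univ_evQ δ P ρ ψ)
  | .imp φ ψ => imp_congr (univ_evQ δ P ρ φ) (univ_evQ δ P ρ ψ)

/-- Decoding tuples in the universe. -/
noncomputable def untup (u : ZFSet.{u}) (i : ℕ) : ZFSet.{u} := zfst (zsnd^[i] u)

/-- **Transfer principle**: a quantifier-free formula that is true in the universe for all values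
of its variables is true in every algebra. -/
theorem Alg.transfer {δ : Ordinal.{u}} {P : ℕ → ZFSet.{u} → ZFSet.{u}} {M : Type v}
    (A : Alg δ P M) (φ : QF) (h : ∀ ρ : ℕ → ZFSet.{u}, φ.evU δ P ρ) (ρ : ℕ → M) : A.evQ ρ φ := by
  rw [← A.T_code φ.nv ρ φ φ.bd_nv]
  apply A.fn_valid
  intro x
  -- evaluate the code at an arbitrary set, which need not be a tuple
  have key : ∀ (i : ℕ) (x : ZFSet.{u}), eval δ P (projC i) x = untup x i := by
    intro i
    induction i with
    | zero => intro x; rfl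
    | succ i ih =>
      intro x
      show eval δ P (projC i) (zsnd x) = _
      rw [ih]
      rfl
  have key2 : ∀ t : Tm, eval δ P t.code x = t.evU δ P (untup x) := by
    intro t
    induction t with
    | v i => exact key i x
    | f c t ih => show eval δ P c _ = eval δ P c _; rw [ih]
    | p s t ih1 ih2 => show ZFSet.pair _ _ = ZFSet.pair _ _; rw [ih1, ih2]
  have key3 : ∀ φ : QF, eval δ P φ.code x = one ↔ φ.evU δ P (untup x) := by
    intro φ
    induction φ with
    | tr t => simp only [QF.code, eval, zfst_pair, zsnd_pair, zb_eq_one, key2, QF.evU]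
    | eq s t => simp only [QF.code, eval, zfst_pair, zsnd_pair, zb_eq_one, key2, QF.evU]
    | mem s t => simp only [QF.code, eval, zfst_pair, zsnd_pair, zb_eq_one, key2, QF.evU]
    | not φ ih => simp only [QF.code, eval, zb_eq_one, ne_eq, ih, QF.evU]
    | and φ ψ ih1 ih2 =>
      simp only [QF.code, eval, zfst_pair, zsnd_pair, zb_eq_one, ih1, ih2, QF.evU]
    | or φ ψ ih1 ih2 =>
      simp only [QF.code, eval, zfst_pair, zsnd_pair, zb_eq_one, ne_eq, ih1, ih2, QF.evU]
      tauto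
    | imp φ ψ ih1 ih2 =>
      simp only [QF.code, eval, zfst_pair, zsnd_pair, zb_eq_one, ne_eq, ih1, ih2, QF.evU]
      tauto
  exact (key3 φ).2 (h _)

end H94W
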