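import Pool.Agent.Lib.H94W.Core
import Pool.Agent.Lib.H94W.Stmt

/-!
# Project Woodin (`MP_ebf58a_lc`): further definitions (iterations, badness, Woodin cardinals)
-/

set_option autoImplicit false

namespace H94W

open Ordinal Cardinal ZFSet

universe u v w

/-! ### Basic facts on traces -/

theorem mem_trc {X : Set ZFSet.{u}} {η y : ZFSet.{u}} :
    y ∈ trc X η ↔ y ∈ X ∧ y ∈ V_ (rank η) := by
  unfold trc; rw [mem_sep]; exact and_comm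

theorem restr_trc {X : Set ZFSet.{u}} {η ζ : ZFSet.{u}} (h : rank η ≤ rank ζ) :
    restr (trc X ζ) η = trc X η := by
  ext y
  rw [mem_restr, mem_trc, mem_trc]
  constructor
  · rintro ⟨⟨h1, _⟩, h3⟩; exact ⟨h1, h3⟩
  · rintro ⟨h1, h2⟩
    refine ⟨⟨h1, ?_⟩, h2⟩
    rw [mem_vonNeumann] at h2 ⊢
    exact lt_of_lt_of_le h2 h

theorem trc_mem_DOM {X : Set ZFSet.{u}} (hX : X.Countable) (η : ZFSet.{u}) :
    trc X η ∈ DOM η := by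
  unfold DOM
  rw [mem_sep, mem_powerset]
  refine ⟨fun y hy => (mem_trc.1 hy).2, ?_⟩
  exact hX.mono fun y hy => (mem_trc.1 hy).1

/-- The common refinement of the conditions `t`, `t'`. -/
noncomputable def meet (t t' : ZFSet.{u}) : ZFSet.{u} :=
  ZFSet.sep (fun x => restr x (zfst t) ∈ zsnd t ∧ restr x (zfst t') ∈ zsnd t')
    (DOM (zfst t ∪ zfst t'))

/-- `t'` is stronger than `t`. -/
def Le (t' t : ZFSet.{u}) : Prop :=
  zfst t ⊆ zfst t' ∧ ∀ x ∈ zsnd t', restr x (zfst t) ∈ zsnd t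

/-- The list `P` contains all the functions `E n`. -/
def Has (P E : ℕ → ZFSet.{u} → ZFSet.{u}) : Prop := ∀ n, ∃ k, P k = E n

/-! ### Iterations -/

/-- The data of an iteration inside an algebra `M`: the carrier, the first model `base`, the set
`ix` of indices of the steps, the model `N i` before step `i`, and the functions
`sd i : η ↦ [id_η]` of step `i` (so that `sd i η` is `j '' V_η` for the embedding `j` of
step `i`). -/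
structure PD (M : Type v) where
  car : Set M
  base : Set M
  ix : Set M
  N : M → Set M
  sd : M → M → M

/-- No infinite descending `∈`-sequence in `S`. -/
def Wf {δ : Ordinal.{u}} {P : ℕ → ZFSet.{u} → ZFSet.{u}} {M : Type v} (A : Alg δ P M)
    (S : Set M) : Prop :=
  ¬ ∃ s : ℕ → M, (∀ n, s n ∈ S) ∧ ∀ n, A.mem (s (n + 1)) (s n)

/-- The elements `[f]` of the ultrapower of `N i`, i.e. the `f (sd i η)` with `f, η ∈ N i`. -/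
def PD.Cs {δ : Ordinal.{u}} {P : ℕ → ZFSet.{u} → ZFSet.{u}} {M : Type v} (A : Alg δ P M)
    (D : PD M) (i : M) : Set M :=
  {x | ∃ f ∈ D.N i, ∃ η ∈ D.N i, A.T (A.fn .ltd η) ∧ x = A.fn .app (A.pr f (D.sd i η))}

/-- `D` is a (pre-)iteration of its base by generic ultrapowers of the countable stationary
tower. -/
structure IsPI {δ : Ordinal.{u}} {P : ℕ → ZFSet.{u} → ZFSet.{u}} {M : Type v} (A : Alg δ P M)
    (D : PD M) : Prop where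
  car_fn : ∀ x ∈ D.car, ∀ c, A.fn c x ∈ D.car
  car_pr : ∀ x ∈ D.car, ∀ y ∈ D.car, A.pr x y ∈ D.car
  base_sub : D.base ⊆ D.car
  base_tt : A.tt ∈ D.base
  base_fn : ∀ x ∈ D.base, ∀ c, A.fn c x ∈ D.base
  base_pr : ∀ x ∈ D.base, ∀ y ∈ D.base, A.pr x y ∈ D.base
  ix_sub : D.ix ⊆ D.base
  ix_ord : ∀ i ∈ D.ix, A.T (A.fn .ord i)
  N_car : ∀ i ∈ D.ix, D.N i ⊆ D.car
  N_fn : ∀ i ∈ D.ix, ∀ x ∈ D.N i, ∀ c, A.fn c x ∈ D.N i
  N_pr : ∀ i ∈ D.ix, ∀ x ∈ D.N i, ∀ y ∈ D.N i, A.pr x y ∈ D.N i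
  N_iff : ∀ i ∈ D.ix, ∀ x, x ∈ D.N i ↔ x ∈ D.base ∨ ∃ j ∈ D.ix, A.mem j i ∧ x ∈ D.Cs A j
  sd_car : ∀ i ∈ D.ix, ∀ η ∈ D.N i, A.T (A.fn .ltd η) → D.sd i η ∈ D.car
  tot : ∀ x ∈ D.car, x ∈ D.base ∨ ∃ i ∈ D.ix, x ∈ D.Cs A i
  sd_mem : ∀ i ∈ D.ix, ∀ η ∈ D.N i, A.T (A.fn .ltd η) → A.mem (D.sd i η) (A.fn .dom η)
  sd_coh : ∀ i ∈ D.ix, ∀ η ∈ D.N i, ∀ ζ ∈ D.N i, A.T (A.fn .ltd η) → A.T (A.fn .ltd ζ) →
    A.fn .restr (A.pr (D.sd i (A.fn .un (A.pr η ζ))) ζ) = D.sd i ζ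
  ultra : ∀ i ∈ D.ix, ∀ η ∈ D.N i, ∀ a ∈ D.N i, A.T (A.fn .ltd η) → A.mem (D.sd i η) a →
    A.T (A.fn .stat (A.pr η a))
  gen : ∀ i ∈ D.ix, ∀ E ∈ D.N i, A.T (A.fn .pred E) →
    ∃ t ∈ D.N i, A.mem t E ∧ A.mem (D.sd i (A.fn .fst t)) (A.fn .snd t)

/-- `e` is an embedding of the closed set `X` of sets into the algebra. -/
structure Emb {δ : Ordinal.{u}} {P : ℕ → ZFSet.{u} → ZFSet.{u}} {M : Type v} (A : Alg δ P M)
    (X : Set ZFSet.{u}) (e : ZFSet.{u} → M) : Prop where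
  cl_fn : ∀ x ∈ X, ∀ c, eval δ P c x ∈ X
  cl_pair : ∀ x ∈ X, ∀ y ∈ X, pair x y ∈ X
  ne : X.Nonempty
  fn : ∀ x ∈ X, ∀ c, e (eval δ P c x) = A.fn c (e x)
  pr : ∀ x ∈ X, ∀ y ∈ X, e (pair x y) = A.pr (e x) (e y)

/-- There is an iteration, living on `ℕ`, with base isomorphic to `X` and indices in `X ∩ γ`,
which is ill-founded below `η`. -/
def Bad (δ : Ordinal.{u}) (P : ℕ → ZFSet.{u} → ZFSet.{u}) (γ η : ZFSet.{u})
    (X : Set ZFSet.{u}) : Prop :=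
  ∃ (A : Alg δ P ℕ) (D : PD ℕ) (y : ℕ → ZFSet.{u}), IsPI A D ∧ D.car = Set.univ ∧
    Set.InjOn y D.base ∧ y '' D.base = X ∧
    (∀ i ∈ D.base, ∀ c, y (A.fn c i) = eval δ P c (y i)) ∧
    (∀ i ∈ D.base, ∀ j ∈ D.base, y (A.pr i j) = pair (y i) (y j)) ∧
    (∀ i ∈ D.ix, y i ∈ γ) ∧
    ∃ s : ℕ → ℕ, s 0 ∈ D.base ∧ y (s 0) = η ∧ ∀ n, A.mem (s (n + 1)) (s n)

end H94W
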