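import Pool.Agent.Lib.H94W.Ult

/-!
# Project Woodin, chunk M: existence of generic filters avoiding countably many reals

One builds a descending sequence of conditions.  To make sure that the name `u = (η, f)` does
not read `r`: given a condition `t`, w.l.o.g. `η ⊆ zfst t`, there is `n` such that
`{x ∈ zsnd t | f (x ∩ V_η) (n) ≠ r n}` is stationary (for the model); otherwise the function
`n ↦` (the unique `m` such that `{x ∈ zsnd t | f (x ∩ V_η) (n) ≠ m}` is not stationary) of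
the model reads `r`.
-/

set_option autoImplicit false

namespace H94W

open Ordinal Cardinal ZFSet

universe u v w

/-- The element `x` of the pre-algebra is a function whose values at the natural numbers are given
by `r`. -/
def Reads {M : Type v} (B : PA M) (x : M) (r : ℕ → ℕ) : Prop :=
  ∀ n, B.eq (B.fn .app (B.pr x (B.fn (numC n) B.tt))) (B.fn (numC (r n)) B.tt)

namespace Gen

/-- The environment with values `l` and then `a`. -/
def vec {α : Type w} (a : α) : List α → ℕ → α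
  | [], _ => a
  | x :: _, 0 => x
  | _ :: l, n + 1 => vec a l n

theorem vec_mem {α : Type w} {S : Set α} {a : α} (ha : a ∈ S) :
    ∀ (l : List α), (∀ x ∈ l, x ∈ S) → ∀ i, vec a l i ∈ S
  | [], _, _ => ha
  | x :: _, h, 0 => h x (by simp)
  | _ :: l, h, n + 1 => vec_mem ha l (fun x hx => h x (by simp [hx])) n

section Congr

variable {δ : Ordinal.{u}} {P : ℕ → ZFSet.{u} → ZFSet.{u}} {M : Type v} {B : PA M} {S : Set M}

theorem refl (h : B.IsOn δ P S) {x : M} (hx : x ∈ S) : B.eq x x :=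
  h.valid (.eq (.v 0) (.v 0)) (fun _ => rfl) (vec B.tt [x]) (vec_mem h.tt _ (by simp [hx]))

theorem symm (h : B.IsOn δ P S) {x y : M} (hx : x ∈ S) (hy : y ∈ S) (e : B.eq x y) : B.eq y x :=
  h.valid (.imp (.eq (.v 0) (.v 1)) (.eq (.v 1) (.v 0))) (fun _ h => Eq.symm h)
    (vec B.tt [x, y]) (vec_mem h.tt _ (by simp [hx, hy])) e

theorem trans (h : B.IsOn δ P S) {x y z : M} (hx : x ∈ S) (hy : y ∈ S) (hz : z ∈ S)
    (e : B.eq x y) (e' : B.eq y z) : B.eq x z :=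
  h.valid (.imp (.and (.eq (.v 0) (.v 1)) (.eq (.v 1) (.v 2))) (.eq (.v 0) (.v 2)))
    (fun _ h => Eq.trans h.1 h.2)
    (vec B.tt [x, y, z]) (vec_mem h.tt _ (by simp [hx, hy, hz])) ⟨e, e'⟩

theorem fn_congr (h : B.IsOn δ P S) {x y : M} (hx : x ∈ S) (hy : y ∈ S) (c : Code)
    (e : B.eq x y) : B.eq (B.fn c x) (B.fn c y) :=
  h.valid (.imp (.eq (.v 0) (.v 1)) (.eq (.f c (.v 0)) (.f c (.v 1))))
    (fun ρ h => by
      have h' : ρ 0 = ρ 1 := h
      show eval δ P c (ρ 0) = eval δ P c (ρ 1)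
      rw [h'])
    (vec B.tt [x, y]) (vec_mem h.tt _ (by simp [hx, hy])) e

theorem pr_congr (h : B.IsOn δ P S) {x y x' y' : M} (hx : x ∈ S) (hy : y ∈ S) (hx' : x' ∈ S)
    (hy' : y' ∈ S) (e : B.eq x x') (e' : B.eq y y') : B.eq (B.pr x y) (B.pr x' y') :=
  h.valid (.imp (.and (.eq (.v 0) (.v 2)) (.eq (.v 1) (.v 3)))
    (.eq (.p (.v 0) (.v 1)) (.p (.v 2) (.v 3))))
    (fun ρ h => by
      have h1 : ρ 0 = ρ 2 := h.1
      have h2 : ρ 1 = ρ 3 := h.2
      show ZFSet.pair (ρ 0) (ρ 1) = ZFSet.pair (ρ 2) (ρ 3)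
      rw [h1, h2])
    (vec B.tt [x, y, x', y']) (vec_mem h.tt _ (by simp [hx, hy, hx', hy'])) ⟨e, e'⟩

theorem T_congr (h : B.IsOn δ P S) {x y : M} (hx : x ∈ S) (hy : y ∈ S) (e : B.eq x y)
    (hT : B.T x) : B.T y :=
  h.valid (.imp (.and (.eq (.v 0) (.v 1)) (.tr (.v 0))) (.tr (.v 1)))
    (fun ρ h => by
      have h1 : ρ 0 = ρ 1 := h.1
      have h2 : ρ 0 = one := h.2
      show ρ 1 = one
      rw [← h1, h2])
    (vec B.tt [x, y]) (vec_mem h.tt _ (by simp [hx, hy])) ⟨e, hT⟩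

theorem evT_mem (h : B.IsOn δ P S) {ρ : ℕ → M} (hρ : ∀ i, ρ i ∈ S) : ∀ t : Tm, B.evT ρ t ∈ S
  | .v i => hρ i
  | .f c t => h.fn _ (evT_mem h hρ t) c
  | .p s t => h.pr _ (evT_mem h hρ s) _ (evT_mem h hρ t)

theorem jn_evT {G : Set M} (hB : B.IsOn δ P S) (h : UltProps δ P B S G) {ρ : ℕ → M}
    (hρ : ∀ i, ρ i ∈ S) : ∀ t : Tm,
    (ult B G).eq (jn B (B.evT ρ t)) ((ult B G).evT (fun i => jn B (ρ i)) t)
  | .v i => refl h.isOn (h.jn_mem _ (hρ i))
  | .f c t => by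
    have ih := jn_evT hB h hρ t
    have m1 := evT_mem hB hρ t
    have m2 : (ult B G).evT (fun i => jn B (ρ i)) t ∈ names B S :=
      evT_mem h.isOn (fun i => h.jn_mem _ (hρ i)) t
    have m3 := h.jn_mem _ m1
    exact trans h.isOn (h.jn_mem _ (hB.fn _ m1 c)) (h.isOn.fn _ m3 c) (h.isOn.fn _ m2 c)
      (h.jn_fn _ m1 c) (fn_congr h.isOn m3 m2 c ih)
  | .p s t => by
    have ih1 := jn_evT hB h hρ s
    have ih2 := jn_evT hB h hρ t
    have s1 := evT_mem hB hρ s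
    have s2 : (ult B G).evT (fun i => jn B (ρ i)) s ∈ names B S :=
      evT_mem h.isOn (fun i => h.jn_mem _ (hρ i)) s
    have s3 := h.jn_mem _ s1
    have m1 := evT_mem hB hρ t
    have m2 : (ult B G).evT (fun i => jn B (ρ i)) t ∈ names B S :=
      evT_mem h.isOn (fun i => h.jn_mem _ (hρ i)) t
    have m3 := h.jn_mem _ m1
    exact trans h.isOn (h.jn_mem _ (hB.pr _ s1 _ m1)) (h.isOn.pr _ s3 _ m3)
      (h.isOn.pr _ s2 _ m2) (h.jn_pr _ s1 _ m1) (pr_congr h.isOn s3 m3 s2 m2 ih1 ih2)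

/-- Equations between terms go over to the ultrapower. -/
theorem jn_eq {G : Set M} (hB : B.IsOn δ P S) (h : UltProps δ P B S G) {ρ : ℕ → M}
    (hρ : ∀ i, ρ i ∈ S) (s t : Tm) (e : B.eq (B.evT ρ s) (B.evT ρ t)) :
    (ult B G).eq ((ult B G).evT (fun i => jn B (ρ i)) s)
      ((ult B G).evT (fun i => jn B (ρ i)) t) := by
  have m1 := evT_mem hB hρ (.f .eq (.p s t))
  have m2 : (ult B G).evT (fun i => jn B (ρ i)) (.f .eq (.p s t)) ∈ names B S :=
    evT_mem h.isOn (fun i => h.jn_mem _ (hρ i)) _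
  exact T_congr h.isOn (h.jn_mem _ m1) m2 (jn_evT hB h hρ (.f .eq (.p s t)))
    ((h.T_jn _ m1).2 e)

end Congr

/-! ### The Rasiowa–Sikorski lemma -/

theorem rs {α : Type w} {ι : Type v} [Countable ι] [Nonempty ι] (p : α → Prop)
    (le : α → α → Prop) (D : ι → α → Prop)
    (h : ∀ i t, p t → ∃ t', p t' ∧ le t' t ∧ D i t') (t₀ : α) (h₀ : p t₀) :
    ∃ s : ℕ → α, s 0 = t₀ ∧ (∀ n, p (s n)) ∧ (∀ n, le (s (n + 1)) (s n)) ∧
      ∀ i, ∃ n, D i (s n) := by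
  obtain ⟨g, hg⟩ := exists_surjective_nat ι
  choose! f hf using h
  let s : ℕ → α := fun n => Nat.rec t₀ (fun n t => f (g n) t) n
  have hp : ∀ n, p (s n) := by
    intro n
    induction n with
    | zero => exact h₀
    | succ n ih => exact (hf (g n) (s n) ih).1
  refine ⟨s, rfl, hp, fun n => (hf (g n) (s n) (hp n)).2.1, fun i => ?_⟩
  obtain ⟨n, rfl⟩ := hg i
  exact ⟨n + 1, (hf (g n) (s n) (hp n)).2.2⟩

/-! ### Facts in the universe -/

theorem restr_restr {x η ζ : ZFSet.{u}} (h : rank η ≤ rank ζ) :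
    restr (restr x ζ) η = restr x η := by
  ext y
  rw [mem_restr, mem_restr, mem_restr]
  constructor
  · rintro ⟨⟨h1, _⟩, h3⟩; exact ⟨h1, h3⟩
  · rintro ⟨h1, h2⟩
    refine ⟨⟨h1, ?_⟩, h2⟩
    rw [mem_vonNeumann] at h2 ⊢
    exact lt_of_lt_of_le h2 h

theorem le_trans' {r s t : ZFSet.{u}} (h1 : Le r s) (h2 : Le s t) : Le r t := by
  refine ⟨fun x hx => h1.1 (h2.1 hx), fun x hx => ?_⟩
  have := h2.2 _ (h1.2 x hx)
  rwa [restr_restr (rank_mono h2.1)] at this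

theorem le_refl' {δ : Ordinal.{u}} {t : ZFSet.{u}} (h : IsCond δ t) : Le t t := by
  obtain ⟨η, a, _, h2, _, rfl⟩ := h
  refine ⟨fun x hx => hx, fun x hx => ?_⟩
  rw [zsnd_pair] at hx
  rw [zfst_pair, zsnd_pair]
  have h3 : restr x η = x := by
    ext y
    rw [mem_restr]
    constructor
    · exact fun h => h.1
    · intro hy
      refine ⟨hy, ?_⟩
      have h4 := h2 hx
      unfold DOM at h4
      rw [mem_sep, mem_powerset] at h4
      exact h4.1 hy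
  rwa [h3]

/-- Lifting of a condition. -/
noncomputable def liftF (q : ZFSet.{u}) : ZFSet.{u} :=
  pair (zfst (zfst q) ∪ zsnd q)
    (ZFSet.sep (fun x => restr x (zfst (zfst q)) ∈ zsnd (zfst q)) (DOM (zfst (zfst q) ∪ zsnd q)))

theorem liftF_spec {δ : Ordinal.{u}} {t η : ZFSet.{u}} (ht : IsCond δ t) (hη : Ltd δ η) :
    IsCond δ (liftF (pair t η)) ∧ Le (liftF (pair t η)) t ∧
      zfst (liftF (pair t η)) ∪ η = zfst (liftF (pair t η)) := by
  unfold liftF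
  simp only [zfst_pair, zsnd_pair, Le]
  refine ⟨⟨_, _, ?_, ?_, ?_, rfl⟩, ⟨?_, ?_⟩, ?_⟩
  · obtain ⟨ζ, a, h1, h2, h3, rfl⟩ := ht
    rw [zfst_pair]
    exact h1.union hη
  · intro x hx
    exact (mem_sep.1 hx).1
  · obtain ⟨ζ, a, h1, h2, h3, rfl⟩ := ht
    rw [zfst_pair, zsnd_pair]
    exact stat_lift (rank_mono (fun x hx => mem_union.2 (Or.inl hx))) h3
  · exact fun x hx => mem_union.2 (Or.inl hx)
  · intro x hx
    exact (mem_sep.1 hx).2
  · ext x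
    simp only [mem_union]
    tauto

/-- The condition decides that the value at `m` is different from `k`, with positive truth
value. -/
def decQ (q m k : ZFSet.{u}) : Prop :=
  Stat (zfst (zfst q)) (ZFSet.sep (fun x =>
    zapp (zapp (zfst (zsnd q)) (restr x (zsnd (zsnd q)))) m ≠ k) (zsnd (zfst q)))

open Classical in
/-- The values at natural numbers which are decided by the condition. -/
noncomputable def decF (q : ZFSet.{u}) : ZFSet.{u} :=
  zlam (ω : Ordinal.{u}).toZFSet (fun m =>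
    if h : ∃ k, ¬ decQ q m k then h.choose else ∅)

theorem decF_spec {δ : Ordinal.{u}} {t η f k : ZFSet.{u}} (m : ℕ) (ht : IsCond δ t)
    (h : ¬ Stat (zfst t) (ZFSet.sep (fun x =>
      zapp (zapp f (restr x η)) (m : Ordinal.{u}).toZFSet ≠ k) (zsnd t))) :
    zapp (decF (pair t (pair f η))) (m : Ordinal.{u}).toZFSet = k := by
  have hm : (m : Ordinal.{u}).toZFSet ∈ (ω : Ordinal.{u}).toZFSet :=
    Ordinal.mem_toZFSet_iff.2 ⟨m, Ordinal.natCast_lt_omega0 m, rfl⟩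
  unfold decF
  rw [zapp_zlam hm]
  have hQ : ∀ k, decQ (pair t (pair f η)) (m : Ordinal.{u}).toZFSet k ↔
      Stat (zfst t) (ZFSet.sep (fun x =>
        zapp (zapp f (restr x η)) (m : Ordinal.{u}).toZFSet ≠ k) (zsnd t)) := by
    intro k
    simp only [decQ, zfst_pair, zsnd_pair]
  have h1 : ∃ k, ¬ decQ (pair t (pair f η)) (m : Ordinal.{u}).toZFSet k :=
    ⟨k, fun h' => h ((hQ k).1 h')⟩
  rw [dif_pos h1]
  have h2 := h1.choose_spec
  rw [hQ] at h2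
  by_contra hne
  have hst : Stat (zfst t) (zsnd t) := by
    obtain ⟨ζ, a, _, _, h3, rfl⟩ := ht
    rwa [zfst_pair, zsnd_pair]
  rcases hst.split (fun x => zapp (zapp f (restr x η)) (m : Ordinal.{u}).toZFSet ≠ k) with h3 | h3
  · exact h h3
  · apply h2
    refine h3.mono ?_
    intro x hx
    rw [mem_sep] at hx ⊢
    refine ⟨hx.1, ?_⟩
    have h4 := not_not.1 hx.2
    rw [h4]
    exact fun h5 => hne h5.symm

/-- Code of `(x, (f, η)) ↦` the truth value of `f (x ∩ V_η) (m) ≠ k`. -/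
def rC (m k : ℕ) : Code :=
  .comp .not (.comp .eq (.pair (.comp .app (.pair (.comp .app (.pair (.comp .fst .snd)
    (.comp .restr (.pair .fst (.comp .snd .snd))))) (numC m))) (numC k)))

theorem eval_rC (δ : Ordinal.{u}) (P : ℕ → ZFSet.{u} → ZFSet.{u}) (m k : ℕ)
    (x f η : ZFSet.{u}) : eval δ P (rC m k) (pair x (pair f η)) = one ↔
      zapp (zapp f (restr x η)) (m : Ordinal.{u}).toZFSet ≠ (k : Ordinal.{u}).toZFSet := by
  simp only [rC, eval, zfst_pair, zsnd_pair, zb_eq_one, eval_numC, ne_eq]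

theorem eval_sep_rC (δ : Ordinal.{u}) (P : ℕ → ZFSet.{u} → ZFSet.{u}) (m k : ℕ)
    (a f η : ZFSet.{u}) : eval δ P (.sep (rC m k)) (pair a (pair f η)) =
      ZFSet.sep (fun x => zapp (zapp f (restr x η)) (m : Ordinal.{u}).toZFSet ≠
        (k : Ordinal.{u}).toZFSet) a := by
  show ZFSet.sep (fun y => eval δ P (rC m k) (ZFSet.pair y (zsnd (pair a (pair f η)))) = one)
    (zfst (pair a (pair f η))) = _
  simp only [zfst_pair, zsnd_pair, eval_rC]

end Gen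

open Gen in
theorem exists_generic (δ : Ordinal.{u}) (hδ : 0 < δ) :
    ∃ E : ℕ → ZFSet.{u} → ZFSet.{u}, ∀ P, Has P E → ∀ (M : Type v) (B : PA M) (S : Set M),
      B.IsOn δ P S →
      ∀ d : ℕ → M, (∀ n, d n ∈ S) → (∀ E ∈ S, B.T (B.fn .pred E) → ∃ n, B.eq E (d n)) →
      ∀ u : ℕ → M × M, (∀ n, u n ∈ names B S) →
      ∀ C : Set (ℕ → ℕ), C.Countable → (∀ r ∈ C, ∀ x ∈ S, ¬ Reads B x r) →
      ∀ t₀ ∈ S, B.T (B.fn .cond t₀) →
      ∃ G : Set M, GenF B S G ∧ t₀ ∈ G ∧ ∀ r ∈ C, ∀ n, ¬ Reads (ult B G) (u n) r := by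
  obtain ⟨E₁, hE₁⟩ := ult_props.{u, v} (δ := δ) hδ
  obtain ⟨ex, hex⟩ := exists_ext δ
  refine ⟨fun n => match n with
    | 0 => ex
    | 1 => liftF
    | 2 => decF
    | n + 3 => E₁ n, ?_⟩
  intro P hP M B S hB d hdS hd u hu C hC hCr t₀ ht₀ hc₀
  obtain ⟨k0, hk0⟩ : ∃ k, P k = ex := hP 0
  obtain ⟨k1, hk1⟩ : ∃ k, P k = liftF := hP 1
  obtain ⟨k2, hk2⟩ : ∃ k, P k = decF := hP 2
  have hP₁ : Has P E₁ := fun n => hP (n + 3)
  -- validities
  have Vrefl : ∀ t ∈ S, B.T (B.fn .cond t) → B.T (B.fn leC (B.pr t t)) := by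
    intro t ht h
    exact hB.valid (.imp (.tr (.f .cond (.v 0))) (.tr (.f leC (.p (.v 0) (.v 0)))))
      (fun ρ h => (eval_leC δ P _ _).2 (le_refl' (zb_eq_one.1 h)))
      (vec B.tt [t]) (vec_mem hB.tt _ (by simp [ht])) h
  have Vtrans : ∀ r ∈ S, ∀ s ∈ S, ∀ t ∈ S, B.T (B.fn leC (B.pr r s)) →
      B.T (B.fn leC (B.pr s t)) → B.T (B.fn leC (B.pr r t)) := by
    intro r hr s hs t ht h h'
    exact hB.valid (.imp (.and (.tr (.f leC (.p (.v 0) (.v 1)))) (.tr (.f leC (.p (.v 1) (.v 2)))))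
      (.tr (.f leC (.p (.v 0) (.v 2)))))
      (fun ρ h => (eval_leC δ P _ _).2 (le_trans' ((eval_leC δ P _ _).1 h.1)
        ((eval_leC δ P _ _).1 h.2)))
      (vec B.tt [r, s, t]) (vec_mem hB.tt _ (by simp [hr, hs, ht])) ⟨h, h'⟩
  have Vext : ∀ t ∈ S, ∀ D ∈ S, B.T (B.fn .cond t) → B.T (B.fn .pred D) →
      ∃ t' ∈ S, ∃ d' ∈ S, B.T (B.fn .cond t') ∧ B.mem d' D ∧ B.T (B.fn leC (B.pr t' t)) ∧
        B.T (B.fn leC (B.pr t' d')) := by
    intro t ht D hD h h'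
    have := hB.valid (.imp (.and (.tr (.f .cond (.v 0))) (.tr (.f .pred (.v 1))))
      (.and (.tr (.f .cond (.f .fst (.f (.prim k0) (.p (.v 1) (.v 0))))))
      (.and (.mem (.f .snd (.f (.prim k0) (.p (.v 1) (.v 0)))) (.v 1))
      (.and (.tr (.f leC (.p (.f .fst (.f (.prim k0) (.p (.v 1) (.v 0)))) (.v 0))))
      (.tr (.f leC (.p (.f .fst (.f (.prim k0) (.p (.v 1) (.v 0))))
        (.f .snd (.f (.prim k0) (.p (.v 1) (.v 0)))))))))))
      (fun ρ h => by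
        obtain ⟨t', d', h1, h2, h3, h4, h5⟩ := hex (ρ 1) (ρ 0) (zb_eq_one.1 h.2)
          (zb_eq_one.1 h.1)
        simp only [QF.evU, Tm.evU, eval, hk0, h1, zfst_pair, zsnd_pair, zb_eq_one]
        exact ⟨h2, h3, (eval_leC δ P _ _).2 h4, (eval_leC δ P _ _).2 h5⟩)
      (vec B.tt [t, D]) (vec_mem hB.tt _ (by simp [ht, hD])) ⟨h, h'⟩
    have m : B.fn (.prim k0) (B.pr D t) ∈ S := hB.fn _ (hB.pr _ hD _ ht) _
    exact ⟨_, hB.fn _ m .fst, _, hB.fn _ m .snd, this⟩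
  have Vlift : ∀ t ∈ S, ∀ η ∈ S, B.T (B.fn .cond t) → B.T (B.fn .ltd η) →
      ∃ t' ∈ S, B.T (B.fn .cond t') ∧ B.T (B.fn leC (B.pr t' t)) ∧
        B.eq (B.fn .un (B.pr (B.fn .fst t') η)) (B.fn .fst t') := by
    intro t ht η hη h h'
    have := hB.valid (.imp (.and (.tr (.f .cond (.v 0))) (.tr (.f .ltd (.v 1))))
      (.and (.tr (.f .cond (.f (.prim k1) (.p (.v 0) (.v 1)))))
      (.and (.tr (.f leC (.p (.f (.prim k1) (.p (.v 0) (.v 1))) (.v 0))))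
      (.eq (.f .un (.p (.f .fst (.f (.prim k1) (.p (.v 0) (.v 1)))) (.v 1)))
        (.f .fst (.f (.prim k1) (.p (.v 0) (.v 1))))))))
      (fun ρ h => by
        obtain ⟨h1, h2, h3⟩ := liftF_spec (zb_eq_one.1 h.1 : IsCond δ (ρ 0))
          (zb_eq_one.1 h.2 : Ltd δ (ρ 1))
        simp only [QF.evU, Tm.evU, eval, hk1, zfst_pair, zsnd_pair, zb_eq_one]
        exact ⟨h1, (eval_leC δ P _ _).2 h2, h3⟩)
      (vec B.tt [t, η]) (vec_mem hB.tt _ (by simp [ht, hη])) ⟨h, h'⟩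
    exact ⟨_, hB.fn _ (hB.pr _ ht _ hη) (.prim k1), this⟩
  have VA : ∀ (m k : ℕ), ∀ t ∈ S, ∀ f ∈ S, ∀ η ∈ S, B.T (B.fn .cond t) →
      B.eq (B.fn .un (B.pr (B.fn .fst t) η)) (B.fn .fst t) →
      B.T (B.fn .stat (B.pr (B.fn .fst t) (B.fn (.sep (rC m k)) (B.pr (B.fn .snd t)
        (B.pr f η))))) →
      ∃ t' ∈ S, B.T (B.fn .cond t') ∧ B.T (B.fn leC (B.pr t' t)) ∧
        B.eq (B.fn .un (B.pr (B.fn .fst t') η)) (B.fn .fst t') ∧
        B.eq (B.fn (.sep (rC m k)) (B.pr (B.fn .snd t') (B.pr f η))) (B.fn .snd t') := by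
    intro m k t ht f hf η hη h1 h2 h3
    have := hB.valid (.imp (.and (.tr (.f .cond (.v 0))) (.and
        (.eq (.f .un (.p (.f .fst (.v 0)) (.v 2))) (.f .fst (.v 0)))
        (.tr (.f .stat (.p (.f .fst (.v 0)) (.f (.sep (rC m k)) (.p (.f .snd (.v 0))
          (.p (.v 1) (.v 2)))))))))
      (.and (.tr (.f .cond (.p (.f .fst (.v 0)) (.f (.sep (rC m k)) (.p (.f .snd (.v 0))
          (.p (.v 1) (.v 2)))))))
      (.and (.tr (.f leC (.p (.p (.f .fst (.v 0)) (.f (.sep (rC m k)) (.p (.f .snd (.v 0))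
          (.p (.v 1) (.v 2))))) (.v 0))))
      (.and (.eq (.f .un (.p (.f .fst (.p (.f .fst (.v 0)) (.f (.sep (rC m k))
          (.p (.f .snd (.v 0)) (.p (.v 1) (.v 2)))))) (.v 2)))
        (.f .fst (.p (.f .fst (.v 0)) (.f (.sep (rC m k))
          (.p (.f .snd (.v 0)) (.p (.v 1) (.v 2)))))))
      (.eq (.f (.sep (rC m k)) (.p (.f .snd (.p (.f .fst (.v 0)) (.f (.sep (rC m k))
          (.p (.f .snd (.v 0)) (.p (.v 1) (.v 2)))))) (.p (.v 1) (.v 2))))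
        (.f .snd (.p (.f .fst (.v 0)) (.f (.sep (rC m k))
          (.p (.f .snd (.v 0)) (.p (.v 1) (.v 2)))))))))))
      (fun ρ h => by
        obtain ⟨h1, h2, h3⟩ := h
        have h1' : IsCond δ (ρ 0) := zb_eq_one.1 h1
        have e : ∀ a, eval δ P (.sep (rC m k)) (pair a (pair (ρ 1) (ρ 2))) =
          ZFSet.sep (fun x => zapp (zapp (ρ 1) (restr x (ρ 2))) (m : Ordinal.{u}).toZFSet ≠
            (k : Ordinal.{u}).toZFSet) a := fun a => eval_sep_rC δ P m k a (ρ 1) (ρ 2)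
        have h2' : zfst (ρ 0) ∪ ρ 2 = zfst (ρ 0) := by
          simpa only [QF.evU, Tm.evU, eval, zfst_pair, zsnd_pair] using h2
        have h3' : Stat (zfst (ρ 0)) (eval δ P (.sep (rC m k)) (pair (zsnd (ρ 0))
            (pair (ρ 1) (ρ 2)))) := by
          have h4 : eval δ P .stat (pair (zfst (ρ 0)) (eval δ P (.sep (rC m k))
            (pair (zsnd (ρ 0)) (pair (ρ 1) (ρ 2))))) = one := h3
          have h5 : Ltd δ (zfst (pair (zfst (ρ 0)) (eval δ P (.sep (rC m k))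
            (pair (zsnd (ρ 0)) (pair (ρ 1) (ρ 2)))))) ∧
            Stat (zfst (pair (zfst (ρ 0)) (eval δ P (.sep (rC m k))
            (pair (zsnd (ρ 0)) (pair (ρ 1) (ρ 2)))))) (zsnd (pair (zfst (ρ 0))
              (eval δ P (.sep (rC m k))
            (pair (zsnd (ρ 0)) (pair (ρ 1) (ρ 2)))))) := zb_eq_one.1 h4
          rw [zfst_pair, zsnd_pair] at h5
          exact h5.2
        show eval δ P .cond (pair (zfst (ρ 0)) (eval δ P (.sep (rC m k)) (pair (zsnd (ρ 0))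
            (pair (ρ 1) (ρ 2))))) = one ∧
          eval δ P leC (pair (pair (zfst (ρ 0)) (eval δ P (.sep (rC m k)) (pair (zsnd (ρ 0))
            (pair (ρ 1) (ρ 2))))) (ρ 0)) = one ∧
          zfst (pair (zfst (pair (zfst (ρ 0)) (eval δ P (.sep (rC m k)) (pair (zsnd (ρ 0))
            (pair (ρ 1) (ρ 2)))))) (ρ 2)) ∪ zsnd (pair (zfst (pair (zfst (ρ 0))
              (eval δ P (.sep (rC m k)) (pair (zsnd (ρ 0))
            (pair (ρ 1) (ρ 2)))))) (ρ 2)) = zfst (pair (zfst (ρ 0))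
              (eval δ P (.sep (rC m k)) (pair (zsnd (ρ 0))
            (pair (ρ 1) (ρ 2))))) ∧
          eval δ P (.sep (rC m k)) (pair (zsnd (pair (zfst (ρ 0)) (eval δ P (.sep (rC m k))
            (pair (zsnd (ρ 0)) (pair (ρ 1) (ρ 2)))))) (pair (ρ 1) (ρ 2))) =
            zsnd (pair (zfst (ρ 0)) (eval δ P (.sep (rC m k)) (pair (zsnd (ρ 0))
            (pair (ρ 1) (ρ 2)))))
        simp only [e] at h3' ⊢
        simp only [zfst_pair, zsnd_pair]
        obtain ⟨ζ, a, c1, c2, c3, c4⟩ := h1'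
        rw [c4] at h2' h3' ⊢
        simp only [zfst_pair, zsnd_pair] at h2' h3' ⊢
        refine ⟨zb_eq_one.2 ⟨ζ, _, c1, fun x hx => c2 (mem_sep.1 hx).1, h3', rfl⟩,
          (eval_leC δ P _ _).2 ?_, h2', ?_⟩
        · refine ⟨?_, ?_⟩
          · simp only [zfst_pair]
            exact fun x hx => hx
          · intro x hx
            simp only [zfst_pair, zsnd_pair] at hx ⊢
            have hx' := (mem_sep.1 hx).1
            have hself : Le (pair ζ a) (pair ζ a) := le_refl' ⟨ζ, a, c1, c2, c3, rfl⟩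
            have := hself.2 x (by rwa [zsnd_pair])
            rwa [zfst_pair, zsnd_pair] at this
        · ext x
          simp only [mem_sep]
          tauto)
      (vec B.tt [t, f, η]) (vec_mem hB.tt _ (by simp [ht, hf, hη])) ⟨h1, h2, h3⟩
    exact ⟨_, hB.pr _ (hB.fn _ ht .fst) _ (hB.fn _ (hB.pr _ (hB.fn _ ht .snd) _
      (hB.pr _ hf _ hη)) (.sep (rC m k))), this⟩
  have VB : ∀ (m k : ℕ), ∀ t ∈ S, ∀ f ∈ S, ∀ η ∈ S, B.T (B.fn .cond t) →
      ¬ B.T (B.fn .stat (B.pr (B.fn .fst t) (B.fn (.sep (rC m k)) (B.pr (B.fn .snd t)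
        (B.pr f η))))) →
      B.eq (B.fn .app (B.pr (B.fn (.prim k2) (B.pr t (B.pr f η))) (B.fn (numC m) B.tt)))
        (B.fn (numC k) B.tt) := by
    intro m k t ht f hf η hη h1 h2
    exact hB.valid (.imp (.and (.tr (.f .cond (.v 0))) (.not (.tr (.f .stat (.p (.f .fst (.v 0))
        (.f (.sep (rC m k)) (.p (.f .snd (.v 0)) (.p (.v 1) (.v 2)))))))))
      (.eq (.f .app (.p (.f (.prim k2) (.p (.v 0) (.p (.v 1) (.v 2)))) (.f (numC m) (.v 3))))
        (.f (numC k) (.v 3))))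
      (fun ρ h => by
        obtain ⟨h1, h2⟩ := h
        have h1' : IsCond δ (ρ 0) := zb_eq_one.1 h1
        show zapp (zfst (pair (P k2 (pair (ρ 0) (pair (ρ 1) (ρ 2)))) (eval δ P (numC m) (ρ 3))))
          (zsnd (pair (P k2 (pair (ρ 0) (pair (ρ 1) (ρ 2)))) (eval δ P (numC m) (ρ 3)))) =
          eval δ P (numC k) (ρ 3)
        rw [zfst_pair, zsnd_pair, eval_numC, eval_numC, hk2]
        apply decF_spec m h1'
        intro h3
        apply h2
        show zb (Ltd δ (zfst (pair (zfst (ρ 0)) (eval δ P (.sep (rC m k)) (pair (zsnd (ρ 0))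
          (pair (ρ 1) (ρ 2)))))) ∧ Stat (zfst (pair (zfst (ρ 0)) (eval δ P (.sep (rC m k))
            (pair (zsnd (ρ 0)) (pair (ρ 1) (ρ 2)))))) (zsnd (pair (zfst (ρ 0))
            (eval δ P (.sep (rC m k)) (pair (zsnd (ρ 0)) (pair (ρ 1) (ρ 2))))))) = one
        rw [zb_eq_one, zfst_pair, zsnd_pair, eval_sep_rC]
        refine ⟨?_, h3⟩
        obtain ⟨ζ, a, c1, c2, c3, c4⟩ := h1'
        rw [c4, zfst_pair]
        exact c1)
      (vec B.tt [t, f, η]) (vec_mem hB.tt _ (by simp [ht, hf, hη])) ⟨h1, h2⟩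
  -- the generic sequence
  have hCc : Countable C := hC.to_subtype
  let D : ℕ ⊕ (C × ℕ) → M → Prop := fun i t => match i with
    | .inl j => B.T (B.fn .pred (d j)) → ∃ d' ∈ S, B.mem d' (d j) ∧ B.T (B.fn leC (B.pr t d'))
    | .inr (r, n) => ∃ m, B.eq (B.fn .un (B.pr (B.fn .fst t) (u n).1)) (B.fn .fst t) ∧
        B.eq (B.fn (.sep (rC m (r.1 m))) (B.pr (B.fn .snd t) (B.pr (u n).2 (u n).1)))
          (B.fn .snd t)
  obtain ⟨s, hs0, hsp, hsle, hsD⟩ := rs (fun t => t ∈ S ∧ B.T (B.fn .cond t))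
    (fun t' t => B.T (B.fn leC (B.pr t' t))) D (by
      rintro (j | ⟨r, n⟩) t ⟨ht, hct⟩
      · by_cases hpj : B.T (B.fn .pred (d j))
        · obtain ⟨t', ht', d', hd', h1, h2, h3, h4⟩ := Vext t ht (d j) (hdS j) hct hpj
          exact ⟨t', ⟨ht', h1⟩, h3, fun _ => ⟨d', hd', h2, h4⟩⟩
        · exact ⟨t, ⟨ht, hct⟩, Vrefl t ht hct, fun h => absurd h hpj⟩
      · obtain ⟨hu1, hu2, hu3⟩ := hu n
        obtain ⟨t₁, ht₁, c1, c2, c3⟩ := Vlift t ht (u n).1 hu1 hct hu3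
        by_cases hex : ∃ m, B.T (B.fn .stat (B.pr (B.fn .fst t₁) (B.fn (.sep (rC m (r.1 m)))
          (B.pr (B.fn .snd t₁) (B.pr (u n).2 (u n).1)))))
        · obtain ⟨m, hm⟩ := hex
          obtain ⟨t', ht', h1, h2, h3, h4⟩ := VA m (r.1 m) t₁ ht₁ (u n).2 hu2 (u n).1 hu1 c1 c3 hm
          exact ⟨t', ⟨ht', h1⟩, Vtrans t' ht' t₁ ht₁ t ht h2 c2, m, h3, h4⟩
        · exfalso
          push Not at hex
          refine hCr r.1 r.2 (B.fn (.prim k2) (B.pr t₁ (B.pr (u n).2 (u n).1)))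
            (hB.fn _ (hB.pr _ ht₁ _ (hB.pr _ hu2 _ hu1)) _) ?_
          intro m
          exact VB m (r.1 m) t₁ ht₁ (u n).2 hu2 (u n).1 hu1 c1 (hex m)) t₀ ⟨ht₀, hc₀⟩
  have hsmono : ∀ i j, i ≤ j → B.T (B.fn leC (B.pr (s j) (s i))) := by
    intro i j hij
    induction j, hij using Nat.le_induction with
    | base => exact Vrefl _ (hsp i).1 (hsp i).2
    | succ j hij ih => exact Vtrans _ (hsp (j + 1)).1 _ (hsp j).1 _ (hsp i).1 (hsle j) ih
  have hG : GenF B S (Set.range s) := by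
    refine ⟨?_, ?_, ?_, ⟨s 0, 0, rfl⟩, ?_⟩
    · rintro _ ⟨n, rfl⟩; exact (hsp n).1
    · rintro _ ⟨n, rfl⟩; exact (hsp n).2
    · rintro _ ⟨i, rfl⟩ _ ⟨j, rfl⟩
      exact ⟨s (max i j), ⟨_, rfl⟩, hsmono _ _ (le_max_left _ _), hsmono _ _ (le_max_right _ _)⟩
    · intro E hES hE
      obtain ⟨j, hj⟩ := hd E hES hE
      obtain ⟨n, hn⟩ := hsD (.inl j)
      have hpj : B.T (B.fn .pred (d j)) :=
        T_congr hB (hB.fn _ hES _) (hB.fn _ (hdS j) _) (fn_congr hB hES (hdS j) .pred hj) hE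
      obtain ⟨d', hd', h1, h2⟩ := hn hpj
      refine ⟨s n, ⟨n, rfl⟩, d', hd', ?_, h2⟩
      exact hB.valid (.imp (.and (.eq (.v 0) (.v 1)) (.mem (.v 2) (.v 1))) (.mem (.v 2) (.v 0)))
        (fun ρ h => by
          have h1 : ρ 0 = ρ 1 := h.1
          have h2 : ρ 2 ∈ ρ 1 := h.2
          show ρ 2 ∈ ρ 0
          rw [h1]; exact h2)
        (vec B.tt [E, d j, d']) (vec_mem hB.tt _ (by simp [hES, hdS j, hd'])) ⟨hj, h1⟩
  refine ⟨Set.range s, hG, ⟨0, hs0⟩, ?_⟩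
  intro r hr n hread
  have hU := hE₁ P hP₁ M B S (Set.range s) hB hG
  obtain ⟨i, m, h1, h2⟩ := hsD (.inr (⟨r, hr⟩, n))
  obtain ⟨hu1, hu2, hu3⟩ := hu n
  have hsS := (hsp i).1
  have hfst : B.fn .fst (s i) ∈ S := hB.fn _ hsS _
  have hsnd : B.fn .snd (s i) ∈ S := hB.fn _ hsS _
  have hun : B.fn .un (B.pr (B.fn .fst (s i)) (u n).1) ∈ S := hB.fn _ (hB.pr _ hfst _ hu1) _
  have hltd : B.T (B.fn .ltd (B.fn .fst (s i))) :=
    hB.valid (.imp (.tr (.f .cond (.v 0))) (.tr (.f .ltd (.f .fst (.v 0)))))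
      (fun ρ h => by
        obtain ⟨ζ, a, c1, c2, c3, c4⟩ := (zb_eq_one.1 h : IsCond δ (ρ 0))
        show zb (Ltd δ (zfst (ρ 0))) = one
        rw [zb_eq_one, c4, zfst_pair]
        exact c1)
      (vec B.tt [s i]) (vec_mem hB.tt _ (by simp [hsS])) (hsp i).2
  have hltd' : B.T (B.fn .ltd (B.fn .un (B.pr (B.fn .fst (s i)) (u n).1))) :=
    hB.valid (.imp (.and (.tr (.f .ltd (.v 0))) (.tr (.f .ltd (.v 1))))
      (.tr (.f .ltd (.f .un (.p (.v 0) (.v 1))))))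
      (fun ρ h => by
        have c1 : Ltd δ (ρ 0) := zb_eq_one.1 h.1
        have c2 : Ltd δ (ρ 1) := zb_eq_one.1 h.2
        show zb (Ltd δ (zfst (pair (ρ 0) (ρ 1)) ∪ zsnd (pair (ρ 0) (ρ 1)))) = one
        rw [zb_eq_one, zfst_pair, zsnd_pair]
        exact c1.union c2)
      (vec B.tt [B.fn .fst (s i), (u n).1]) (vec_mem hB.tt _ (by simp [hfst, hu1])) ⟨hltd, hu3⟩
  have w1 := hU.sdn_cond (s i) ⟨i, rfl⟩
  have w2 := hU.sdn_coh _ hfst _ hu1 hltd hu3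
  have w3 := hU.sdn_congr _ hun _ hfst hltd' h1
  have w4 := hU.name_eq (u n) (hu n)
  have w5 := jn_eq hB hU (ρ := vec B.tt [B.fn .snd (s i), (u n).2, (u n).1])
    (vec_mem hB.tt _ (by simp [hsnd, hu1, hu2]))
    (.f (.sep (rC m (r m))) (.p (.v 0) (.p (.v 1) (.v 2)))) (.v 0) h2
  have w6 := hread m
  have n1 := hU.sdn_mem_names _ hfst hltd
  have n2 := hU.sdn_mem_names _ hu1 hu3
  have n3 := hU.sdn_mem_names _ hun hltd'
  have n4 := hU.jn_mem _ hsnd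
  have n5 := hU.jn_mem _ hu2
  have n6 := hU.jn_mem _ hu1
  have n7 := hU.isOn.tt
  -- variables: 0 = seed of `fst (s i)`, 1 = seed of `η`, 2 = seed of the union,
  -- 3 = `snd (s i)`, 4 = `f`, 5 = `η`, 6 = the name, 7 = `tt`
  refine hU.isOn.valid (.not (.and (.mem (.v 0) (.v 3)) (.and
      (.eq (.f .restr (.p (.v 2) (.v 5))) (.v 1)) (.and (.eq (.v 2) (.v 0)) (.and
      (.eq (.v 6) (.f .app (.p (.v 4) (.v 1)))) (.and
      (.eq (.f (.sep (rC m (r m))) (.p (.v 3) (.p (.v 4) (.v 5)))) (.v 3))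
      (.eq (.f .app (.p (.v 6) (.f (numC m) (.v 7)))) (.f (numC (r m)) (.v 7)))))))))
    ?_ (vec (ult B (Set.range s)).tt [sdn B (B.fn .fst (s i)), sdn B (u n).1,
      sdn B (B.fn .un (B.pr (B.fn .fst (s i)) (u n).1)), jn B (B.fn .snd (s i)),
      jn B (u n).2, jn B (u n).1, u n])
    (vec_mem n7 _ (by
      intro x hx
      simp only [List.mem_cons, List.not_mem_nil, or_false] at hx
      rcases hx with rfl | rfl | rfl | rfl | rfl | rfl | rfl
      · exact n1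
      · exact n2
      · exact n3
      · exact n4
      · exact n5
      · exact n6
      · exact hu n)) ⟨w1, w2, w3, w4, w5, w6⟩
  intro ρ
  rintro ⟨v1, v2, v3, v4, v5, v6⟩
  have v1' : ρ 0 ∈ ρ 3 := v1
  have v2' : restr (ρ 2) (ρ 5) = ρ 1 := by
    simpa only [QF.evU, Tm.evU, eval, zfst_pair, zsnd_pair] using v2
  have v3' : ρ 2 = ρ 0 := v3
  have v4' : ρ 6 = zapp (ρ 4) (ρ 1) := by
    simpa only [QF.evU, Tm.evU, eval, zfst_pair, zsnd_pair] using v4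
  have v5' : eval δ P (.sep (rC m (r m))) (pair (ρ 3) (pair (ρ 4) (ρ 5))) = ρ 3 := v5
  rw [eval_sep_rC] at v5'
  have v6' : zapp (ρ 6) (m : Ordinal.{u}).toZFSet = ((r m : ℕ) : Ordinal.{u}).toZFSet := by
    have : zapp (zfst (pair (ρ 6) (eval δ P (numC m) (ρ 7))))
      (zsnd (pair (ρ 6) (eval δ P (numC m) (ρ 7)))) = eval δ P (numC (r m)) (ρ 7) := v6
    rwa [zfst_pair, zsnd_pair, eval_numC, eval_numC] at this
  rw [← v5'] at v1'
  have v7 := (mem_sep.1 v1').2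
  apply v7
  rw [← v3', v2', ← v4']
  exact v6'

end H94W
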