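import Pool.Agent.Lib.H94W.Defs

/-!
# Project Woodin, chunk A: elementary embeddings `j : V → M`
-/

set_option autoImplicit false

namespace H94W

open Ordinal Cardinal ZFSet

universe u v w

/-- `Δ₀` formulas. -/
inductive D0 : Type
  | mem (i j : ℕ) : D0
  | eq (i j : ℕ) : D0
  | not (φ : D0) : D0
  | and (φ ψ : D0) : D0
  | ball (i j : ℕ) (φ : D0) : D0

/-- Satisfaction of `Δ₀` formulas; `ball i j φ` is `∀ v_i ∈ v_j, φ`. -/
def D0.Sat : D0 → (ℕ → ZFSet.{u}) → Prop
  | .mem i j, v => v i ∈ v j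
  | .eq i j, v => v i = v j
  | .not φ, v => ¬ φ.Sat v
  | .and φ ψ, v => φ.Sat v ∧ ψ.Sat v
  | .ball i j φ, v => ∀ a ∈ v j, φ.Sat (Function.update v i a)

/-! ### Translation to first-order formulas -/

/-- A bound for the variables of a formula. -/
def Fml.nv : Fml → ℕ
  | .mem i j => max i j + 1
  | .eq i j => max i j + 1
  | .not φ => φ.nv
  | .and φ ψ => max φ.nv ψ.nv
  | .all i φ => max (i + 1) φ.nv

theorem Fml.sat_congr (M : Set ZFSet.{u}) : ∀ (φ : Fml) (v w : ℕ → ZFSet.{u}),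
    (∀ n < φ.nv, v n = w n) → (φ.Sat M v ↔ φ.Sat M w)
  | .mem i j, v, w, h => by
    simp only [Fml.Sat]
    rw [h i (Nat.lt_succ_of_le (le_max_left i j)), h j (Nat.lt_succ_of_le (le_max_right i j))]
  | .eq i j, v, w, h => by
    simp only [Fml.Sat]
    rw [h i (Nat.lt_succ_of_le (le_max_left i j)), h j (Nat.lt_succ_of_le (le_max_right i j))]
  | .not φ, v, w, h => not_congr (Fml.sat_congr M φ v w h)
  | .and φ ψ, v, w, h =>
    and_congr
      (Fml.sat_congr M φ v w fun n hn => h n (lt_of_lt_of_le hn (le_max_left _ _)))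
      (Fml.sat_congr M ψ v w fun n hn => h n (lt_of_lt_of_le hn (le_max_right _ _)))
  | .all i φ, v, w, h => by
    simp only [Fml.Sat]
    apply forall₂_congr
    intro a _
    apply Fml.sat_congr M φ
    intro n hn
    by_cases hi : n = i
    · subst hi; simp
    · rw [Function.update_of_ne hi, Function.update_of_ne hi]
      exact h n (lt_of_lt_of_le hn (le_max_right _ _))

/-- The first-order formula of a `Δ₀` formula. -/
def D0.toFml : D0 → Fml
  | .mem i j => .mem i j
  | .eq i j => .eq i j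
  | .not φ => .not φ.toFml
  | .and φ ψ => .and φ.toFml ψ.toFml
  | .ball i j φ =>
    .all (max (max i j + 1) φ.toFml.nv)
      (.not (.and (.mem (max (max i j + 1) φ.toFml.nv) j)
        (.not (.all i (.not (.and (.eq i (max (max i j + 1) φ.toFml.nv)) (.not φ.toFml)))))))

theorem D0.toFml_sat {M : Set ZFSet.{u}} (hM : ∀ x ∈ M, ∀ y ∈ x, y ∈ M) :
    ∀ (φ : D0) (v : ℕ → ZFSet.{u}), (∀ n, v n ∈ M) → (φ.Sat v ↔ φ.toFml.Sat M v)
  | .mem i j, v, _ => Iff.rfl
  | .eq i j, v, _ => Iff.rfl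
  | .not φ, v, hv => not_congr (D0.toFml_sat hM φ v hv)
  | .and φ ψ, v, hv => and_congr (D0.toFml_sat hM φ v hv) (D0.toFml_sat hM ψ v hv)
  | .ball i j φ, v, hv => by
    simp only [D0.Sat, D0.toFml, Fml.Sat]
    obtain ⟨k, hk⟩ : ∃ k, k = max (max i j + 1) φ.toFml.nv := ⟨_, rfl⟩
    rw [← hk]
    have hki : k ≠ i := by have := le_max_left (max i j + 1) φ.toFml.nv; have := le_max_left i j; omega
    have hkj : k ≠ j := by have := le_max_left (max i j + 1) φ.toFml.nv; have := le_max_right i j; omega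
    have hkn : φ.toFml.nv ≤ k := by have := le_max_right (max i j + 1) φ.toFml.nv; omega
    have upd : ∀ a, ∀ n, Function.update v i a n ∈ M ∨ a ∉ M := by
      intro a n
      by_cases ha : a ∈ M
      · left
        by_cases hn : n = i
        · subst hn; simpa using ha
        · rw [Function.update_of_ne hn]; exact hv n
      · right; exact ha
    have cong : ∀ a, (φ.toFml.Sat M (Function.update (Function.update v k a) i a) ↔
        φ.toFml.Sat M (Function.update v i a)) := by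
      intro a
      apply Fml.sat_congr
      intro n hn
      by_cases hi : n = i
      · subst hi; simp
      · rw [Function.update_of_ne hi, Function.update_of_ne hi, Function.update_of_ne]
        omega
    constructor
    · intro h b hb
      rintro ⟨h1, h2⟩
      rw [Function.update_self, Function.update_of_ne hkj.symm] at h1
      apply h2
      intro a _
      rintro ⟨h3, h4⟩
      rw [Function.update_self, Function.update_of_ne hki, Function.update_self] at h3
      subst h3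
      apply h4
      rw [cong]
      have := h a h1
      rwa [D0.toFml_sat hM φ _ (fun n => (upd a n).resolve_right (fun h => h hb))] at this
    · intro h a ha
      have haM : a ∈ M := hM _ (hv j) a ha
      rw [D0.toFml_sat hM φ _ (fun n => (upd a n).resolve_right (fun h => h haM))]
      by_contra hc
      apply h a haM
      refine ⟨?_, ?_⟩
      · rw [Function.update_self, Function.update_of_ne hkj.symm]; exact ha
      · intro h5
        apply h5 a haM
        refine ⟨?_, ?_⟩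
        · rw [Function.update_self, Function.update_of_ne hki, Function.update_self]
        · rw [cong]; exact hc

/-- `Δ₀` formulas are preserved by elementary embeddings into transitive classes. -/
theorem D0.pres {j : ZFSet.{u} → ZFSet.{u}} {M : Set ZFSet.{u}} (h : IsEmb j M) (φ : D0)
    (v : ℕ → ZFSet.{u}) : φ.Sat v ↔ φ.Sat (fun n => j (v n)) := by
  rw [D0.toFml_sat (M := Set.univ) (fun _ _ _ _ => Set.mem_univ _) φ v (fun _ => Set.mem_univ _),
    D0.toFml_sat h.trans φ (fun n => j (v n)) (fun n => h.maps _)]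
  exact h.elem _ _

/-- A relation on assignments is `Δ₀`. -/
def IsD0 (R : (ℕ → ZFSet.{u}) → Prop) : Prop := ∃ φ : D0, ∀ v, R v ↔ φ.Sat v

/-! ### The calculus of `Δ₀` relations

Bounded quantifiers use `cons`: the bound variable is variable `0` inside the quantifier and the
other variables are shifted by one. -/

/-- Put `a` in front of the assignment `v`. -/
def cons (a : ZFSet.{u}) (v : ℕ → ZFSet.{u}) : ℕ → ZFSet.{u}
  | 0 => a
  | n + 1 => v n

/-- A bound for the variables of a `Δ₀` formula. -/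
def D0.nv : D0 → ℕ
  | .mem i j => max i j + 1
  | .eq i j => max i j + 1
  | .not φ => φ.nv
  | .and φ ψ => max φ.nv ψ.nv
  | .ball i j φ => max (max i j + 1) φ.nv

theorem D0.sat_congr : ∀ (φ : D0) (v w : ℕ → ZFSet.{u}),
    (∀ n < φ.nv, v n = w n) → (φ.Sat v ↔ φ.Sat w)
  | .mem i j, v, w, h => by
    simp only [D0.Sat]
    rw [h i (Nat.lt_succ_of_le (le_max_left i j)), h j (Nat.lt_succ_of_le (le_max_right i j))]
  | .eq i j, v, w, h => by
    simp only [D0.Sat]
    rw [h i (Nat.lt_succ_of_le (le_max_left i j)), h j (Nat.lt_succ_of_le (le_max_right i j))]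
  | .not φ, v, w, h => not_congr (D0.sat_congr φ v w h)
  | .and φ ψ, v, w, h =>
    and_congr
      (D0.sat_congr φ v w fun n hn => h n (lt_of_lt_of_le hn (le_max_left _ _)))
      (D0.sat_congr ψ v w fun n hn => h n (lt_of_lt_of_le hn (le_max_right _ _)))
  | .ball i j φ, v, w, h => by
    simp only [D0.Sat]
    rw [h j (lt_of_lt_of_le (Nat.lt_succ_of_le (le_max_right i j)) (le_max_left _ _))]
    apply forall₂_congr
    intro a _
    apply D0.sat_congr φ
    intro n hn
    by_cases hi : n = i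
    · subst hi; simp
    · rw [Function.update_of_ne hi, Function.update_of_ne hi]
      exact h n (lt_of_lt_of_le hn (le_max_right _ _))

theorem D0.subst_aux : ∀ (φ : D0) (σ : ℕ → ℕ), IsD0.{u} (fun v => φ.Sat (fun n => v (σ n)))
  | .mem i j, σ => ⟨.mem (σ i) (σ j), fun _ => Iff.rfl⟩
  | .eq i j, σ => ⟨.eq (σ i) (σ j), fun _ => Iff.rfl⟩
  | .not φ, σ => by
    obtain ⟨ψ, hψ⟩ := D0.subst_aux φ σ
    exact ⟨.not ψ, fun v => not_congr (hψ v)⟩
  | .and φ₁ φ₂, σ => by
    obtain ⟨ψ₁, h₁⟩ := D0.subst_aux φ₁ σ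
    obtain ⟨ψ₂, h₂⟩ := D0.subst_aux φ₂ σ
    exact ⟨.and ψ₁ ψ₂, fun v => and_congr (h₁ v) (h₂ v)⟩
  | .ball i j φ, σ => by
    obtain ⟨k, hk⟩ : ∃ k, ∀ n < φ.nv, σ n < k := by
      refine ⟨(Finset.range φ.nv).sup σ + 1, fun n hn => ?_⟩
      exact Nat.lt_succ_of_le (Finset.le_sup (Finset.mem_range.2 hn))
    obtain ⟨ψ, hψ⟩ := D0.subst_aux φ (Function.update σ i k)
    refine ⟨.ball k (σ j) ψ, fun v => ?_⟩
    simp only [D0.Sat]
    apply forall₂_congr
    intro a _
    rw [← hψ]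
    apply D0.sat_congr
    intro n hn
    by_cases hi : n = i
    · subst hi; simp
    · rw [Function.update_of_ne hi, Function.update_of_ne hi, Function.update_of_ne]
      exact (hk n hn).ne

namespace IsD0

variable {R S : (ℕ → ZFSet.{u}) → Prop}

/-- Substitution of variables. -/
theorem subst (h : IsD0 R) (σ : ℕ → ℕ) : IsD0 (fun v => R (fun n => v (σ n))) := by
  obtain ⟨φ, hφ⟩ := h
  obtain ⟨ψ, hψ⟩ := D0.subst_aux φ σ
  exact ⟨ψ, fun v => (hφ _).trans (hψ v)⟩

theorem mem (i j : ℕ) : IsD0.{u} (fun v => v i ∈ v j) := ⟨.mem i j, fun _ => Iff.rfl⟩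

theorem eq (i j : ℕ) : IsD0.{u} (fun v => v i = v j) := ⟨.eq i j, fun _ => Iff.rfl⟩

theorem not (h : IsD0 R) : IsD0 (fun v => ¬ R v) := by
  obtain ⟨φ, hφ⟩ := h
  exact ⟨.not φ, fun v => not_congr (hφ v)⟩

theorem and (h : IsD0 R) (h' : IsD0 S) : IsD0 (fun v => R v ∧ S v) := by
  obtain ⟨φ, hφ⟩ := h
  obtain ⟨ψ, hψ⟩ := h'
  exact ⟨.and φ ψ, fun v => and_congr (hφ v) (hψ v)⟩

theorem congr (h : IsD0 R) (h' : ∀ v, S v ↔ R v) : IsD0 S := by
  obtain ⟨φ, hφ⟩ := h
  exact ⟨φ, fun v => (h' v).trans (hφ v)⟩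

theorem or (h : IsD0 R) (h' : IsD0 S) : IsD0 (fun v => R v ∨ S v) :=
  (h.not.and h'.not).not.congr fun v => by tauto

theorem imp (h : IsD0 R) (h' : IsD0 S) : IsD0 (fun v => R v → S v) :=
  (h.and h'.not).not.congr fun v => by tauto

theorem iff (h : IsD0 R) (h' : IsD0 S) : IsD0 (fun v => (R v ↔ S v)) :=
  ((h.imp h').and (h'.imp h)).congr fun v => by tauto

theorem ball (j : ℕ) (h : IsD0 R) : IsD0 (fun v => ∀ a ∈ v j, R (cons a v)) := by
  obtain ⟨φ, hφ⟩ := h
  -- shift the variables by one and keep variable `0` for the bound variable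
  obtain ⟨k, hk⟩ : ∃ k, k = max (j + 1) (φ.nv + 1) := ⟨_, rfl⟩
  obtain ⟨ψ, hψ⟩ := D0.subst_aux.{u} φ (fun n => if n = 0 then k else n - 1)
  refine ⟨.ball k j ψ, fun v => ?_⟩
  simp only [D0.Sat]
  apply forall₂_congr
  intro a _
  rw [hφ, ← hψ]
  apply D0.sat_congr
  intro n hn
  cases n with
  | zero => simp [cons]
  | succ n =>
    have h1 : n ≠ k := by omega
    simp [cons, Function.update_of_ne h1]

theorem bex (j : ℕ) (h : IsD0 R) : IsD0 (fun v => ∃ a ∈ v j, R (cons a v)) :=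
  (ball j h.not).not.congr fun v => by simp

/-- The basic use of elementarity. -/
theorem pres {j : ZFSet.{u} → ZFSet.{u}} {M : Set ZFSet.{u}} (h : IsD0 R) (hj : IsEmb j M)
    (v : ℕ → ZFSet.{u}) : R v ↔ R (fun n => j (v n)) := by
  obtain ⟨φ, hφ⟩ := h
  rw [hφ, hφ]
  exact D0.pres hj φ v

/-! Some `Δ₀` relations. -/

theorem sub (i j : ℕ) : IsD0.{u} (fun v => v i ⊆ v j) :=
  (ball i (mem 0 (j + 1))).congr fun _ => Iff.rfl

/-- `v i = {v j, v k}` -/
theorem upair (i j k : ℕ) : IsD0.{u} (fun v => v i = {v j, v k}) :=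
  ((mem j i).and ((mem k i).and (ball i ((eq 0 (j + 1)).or (eq 0 (k + 1)))))).congr fun v => by
    show _ ↔ (v j ∈ v i ∧ v k ∈ v i ∧ ∀ a ∈ v i, a = v j ∨ a = v k)
    constructor
    · intro h
      rw [h]
      simp
    · rintro ⟨h1, h2, h3⟩
      ext z
      rw [mem_pair]
      constructor
      · exact h3 z
      · rintro (rfl | rfl)
        · exact h1
        · exact h2

/-- `v i = (v j, v k)` -/
theorem pair (i j k : ℕ) : IsD0.{u} (fun v => v i = ZFSet.pair (v j) (v k)) :=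
  (bex i (bex (i + 1) ((upair 0 (j + 2) (j + 2)).and ((upair 1 (j + 2) (k + 2)).and
    (upair (i + 2) 0 1))))).congr fun v => by
    show _ ↔ (∃ b ∈ v i, ∃ a ∈ v i, a = {v j, v j} ∧ b = {v j, v k} ∧ v i = {a, b})
    constructor
    · intro h
      refine ⟨{v j, v k}, ?_, {v j, v j}, ?_, rfl, rfl, ?_⟩
      · rw [h]; simp [ZFSet.pair]
      · rw [h]; simp [ZFSet.pair]
      · rw [h]; simp [ZFSet.pair]
    · rintro ⟨b, _, a, _, rfl, rfl, h⟩
      rw [h]; simp [ZFSet.pair]

/-- `(v i, v j) ∈ v k` -/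
theorem pairMem (i j k : ℕ) : IsD0.{u} (fun v => ZFSet.pair (v i) (v j) ∈ v k) :=
  (bex k (pair 0 (i + 1) (j + 1))).congr fun v => by
    show _ ↔ ∃ p ∈ v k, p = ZFSet.pair (v i) (v j)
    constructor
    · intro h; exact ⟨_, h, rfl⟩
    · rintro ⟨p, hp, rfl⟩; exact hp

/-- `v i` is an ordered pair -/
theorem isPair (i : ℕ) : IsD0.{u} (fun v => ∃ x y, v i = ZFSet.pair x y) :=
  (bex i (bex 0 (bex 1 (pair (i + 3) 1 0)))).congr fun v => by
    show _ ↔ ∃ u ∈ v i, ∃ x ∈ u, ∃ y ∈ u, v i = ZFSet.pair x y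
    constructor
    · rintro ⟨x, y, h⟩
      refine ⟨{x, y}, by rw [h]; simp [ZFSet.pair], x, by simp, y, by simp, h⟩
    · rintro ⟨_, _, x, _, y, _, h⟩
      exact ⟨x, y, h⟩

/-- quantification over the pairs in `v j`: `∀ x y, (x, y) ∈ v j → R (cons y (cons x v))`. -/
theorem ballPair (j : ℕ) (h : IsD0 R) :
    IsD0 (fun v => ∀ x y, ZFSet.pair x y ∈ v j → R (cons y (cons x v))) :=
  (ball j (ball 0 (ball 0 (ball 1 ((pair 3 1 0).imp
    ((subst h (fun n => if n = 0 then 0 else if n = 1 then 1 else n + 2) :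
      IsD0 (fun v => R (fun n => v (if n = 0 then 0 else if n = 1 then 1 else n + 2)))))))))).congr
    fun v => by
    have hc : ∀ p u x y : ZFSet.{u}, (fun n => cons y (cons x (cons u (cons p v)))
        (if n = 0 then 0 else if n = 1 then 1 else n + 2)) = cons y (cons x v) := by
      intro p u x y
      funext n
      match n with
      | 0 => rfl
      | 1 => rfl
      | n + 2 => rfl
    constructor
    · intro h p hp u _ x _ y _ e
      have e' : p = ZFSet.pair x y := e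
      show R (fun n => cons y (cons x (cons u (cons p v)))
        (if n = 0 then 0 else if n = 1 then 1 else n + 2))
      rw [hc]
      exact h x y (e' ▸ hp)
    · intro h x y hxy
      have := h (ZFSet.pair x y) hxy {x, y} (by show _ ∈ ZFSet.pair x y; simp [ZFSet.pair])
        x (by show x ∈ ({x, y} : ZFSet); simp) y (by show y ∈ ({x, y} : ZFSet); simp) rfl
      change R (fun n => cons y (cons x (cons {x, y} (cons (ZFSet.pair x y) v)))
        (if n = 0 then 0 else if n = 1 then 1 else n + 2)) at this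
      rw [hc] at this
      exact this

theorem bexPair (j : ℕ) (h : IsD0 R) :
    IsD0 (fun v => ∃ x y, ZFSet.pair x y ∈ v j ∧ R (cons y (cons x v))) :=
  (ballPair j h.not).not.congr fun v => by
    constructor
    · rintro ⟨x, y, h1, h2⟩ h3
      exact h3 x y h1 h2
    · intro h1
      by_contra h2
      exact h1 fun x y hxy hR => h2 ⟨x, y, hxy, hR⟩

end IsD0

/-- The assignment `x, y, z, w, w, …`. -/
def env4 (x y z w : ZFSet.{u}) : ℕ → ZFSet.{u}
  | 0 => x
  | 1 => y
  | 2 => z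
  | _ => w

section facts

variable {j : ZFSet.{u} → ZFSet.{u}} {M : Set ZFSet.{u}} (h : IsEmb j M)

include h

theorem IsEmb.mem_iff (x y : ZFSet.{u}) : j x ∈ j y ↔ x ∈ y :=
  ((IsD0.mem 0 1).pres h (env4 x y y y)).symm

theorem IsEmb.inj (x y : ZFSet.{u}) : j x = j y ↔ x = y :=
  ((IsD0.eq 0 1).pres h (env4 x y y y)).symm

theorem IsEmb.subset_iff (x y : ZFSet.{u}) : j x ⊆ j y ↔ x ⊆ y :=
  ((IsD0.sub 0 1).pres h (env4 x y y y)).symm

theorem IsEmb.empty : j ∅ = ∅ := by
  have h1 := ((IsD0.ball 0 (IsD0.eq 0 0).not).pres h (env4 ∅ ∅ ∅ ∅)).1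
    (fun a ha => absurd ha (notMem_empty a))
  rw [eq_empty]
  intro y hy
  exact h1 y hy rfl

theorem IsEmb.pair (x y : ZFSet.{u}) : j (pair x y) = pair (j x) (j y) :=
  ((IsD0.pair 0 1 2).pres h (env4 (ZFSet.pair x y) x y y)).1 rfl

theorem IsEmb.insert (x y : ZFSet.{u}) : j (insert x y) = insert (j x) (j y) := by
  have h1 := (((IsD0.mem 1 0).and ((IsD0.sub 2 0).and
    (IsD0.ball 0 ((IsD0.eq 0 2).or (IsD0.mem 0 3))))).pres h
    (env4 (Insert.insert x y) x y y)).1 (by
      refine ⟨?_, ?_, ?_⟩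
      · show x ∈ Insert.insert x y; simp
      · show y ⊆ Insert.insert x y
        intro z hz
        simp [hz]
      · intro a ha
        exact mem_insert_iff.1 ha)
  obtain ⟨h2, h3, h4⟩ := h1
  ext z
  rw [mem_insert_iff]
  constructor
  · exact h4 z
  · rintro (rfl | h5)
    · exact h2
    · exact h3 h5

theorem IsEmb.zfst (x : ZFSet.{u}) : j (zfst x) = zfst (j x) := by
  by_cases hx : ∃ a b, x = ZFSet.pair a b
  · obtain ⟨a, b, rfl⟩ := hx
    rw [h.pair, zfst_pair, zfst_pair]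
  · have hx' : ¬ ∃ a b, j x = ZFSet.pair a b :=
      fun h' => hx (((IsD0.isPair 0).pres h (env4 x x x x)).2 h')
    unfold H94W.zfst
    rw [dif_neg hx, dif_neg hx', h.empty]

theorem IsEmb.zsnd (x : ZFSet.{u}) : j (zsnd x) = zsnd (j x) := by
  by_cases hx : ∃ a b, x = ZFSet.pair a b
  · obtain ⟨a, b, rfl⟩ := hx
    rw [h.pair, zsnd_pair, zsnd_pair]
  · have hx' : ¬ ∃ a b, j x = ZFSet.pair a b :=
      fun h' => hx (((IsD0.isPair 0).pres h (env4 x x x x)).2 h')
    unfold H94W.zsnd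
    rw [dif_neg hx, dif_neg hx', h.empty]

omit h in
/-- Evaluation of a function that is single-valued at `x`. -/
theorem zapp_eq_of_mem {f x y : ZFSet.{u}} (hf : ∀ z, ZFSet.pair x z ∈ f → z = y)
    (hy : ZFSet.pair x y ∈ f) : H94W.zapp f x = y := by
  have h1 : ∃ y, ZFSet.pair x y ∈ f := ⟨y, hy⟩
  unfold H94W.zapp
  rw [dif_pos h1]
  exact hf _ h1.choose_spec

omit h in
theorem zapp_of_forall_notMem {f x : ZFSet.{u}} (hf : ∀ y, ZFSet.pair x y ∉ f) :
    H94W.zapp f x = ∅ := by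
  unfold H94W.zapp
  rw [dif_neg]
  rintro ⟨y, hy⟩
  exact hf y hy

/-- `j` commutes with the application of functions (when `f` is single-valued at `x`). -/
theorem IsEmb.zapp (f x : ZFSet.{u}) (hf : ∀ y z, ZFSet.pair x y ∈ f → ZFSet.pair x z ∈ f → y = z) :
    j (zapp f x) = zapp (j f) (j x) := by
  by_cases hx : ∃ y, ZFSet.pair x y ∈ f
  · obtain ⟨y, hy⟩ := hx
    rw [zapp_eq_of_mem (fun z hz => hf z y hz hy) hy]
    symm
    apply zapp_eq_of_mem
    · have h1 := ((IsD0.ballPair 0 ((IsD0.eq 1 3).imp (IsD0.eq 0 4))).pres h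
        (env4 f x y y)).1 (by
          intro a b hab e
          have e' : a = x := e
          subst e'
          exact hf b y hab hy)
      intro z hz
      exact h1 (j x) z hz rfl
    · rw [← h.pair, h.mem_iff]; exact hy
  · have hx' : ∀ y, ZFSet.pair x y ∉ f := fun y hy => hx ⟨y, hy⟩
    rw [zapp_of_forall_notMem hx', h.empty]
    symm
    apply zapp_of_forall_notMem
    have h1 := ((IsD0.ballPair 0 (IsD0.eq 1 3).not).pres h
        (env4 f x x x)).1 (by
          intro a b hab e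
          have e' : a = x := e
          subst e'
          exact hx' b hab)
    intro y hy
    exact h1 (j x) y hy rfl

theorem IsEmb.isTransitive {x : ZFSet.{u}} (hx : x.IsTransitive) : (j x).IsTransitive :=
  ((IsD0.ball 0 (IsD0.sub 0 1)).pres h (env4 x x x x)).1 hx

theorem IsEmb.isOrdinal {x : ZFSet.{u}} (hx : x.IsOrdinal) : (j x).IsOrdinal := by
  rw [isOrdinal_iff_forall_mem_isTransitive] at hx ⊢
  refine ⟨h.isTransitive hx.1, ?_⟩
  exact ((IsD0.ball 0 (IsD0.ball 0 (IsD0.sub 0 1))).pres h (env4 x x x x)).1 hx.2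

theorem IsEmb.succ (α : Ordinal.{u}) :
    j (Order.succ α).toZFSet = Insert.insert (j α.toZFSet) (j α.toZFSet) := by
  rw [toZFSet_succ, h.insert]

/-- The first ordinals are fixed. -/
theorem IsEmb.nat (n : ℕ) : j (n : Ordinal.{u}).toZFSet = (n : Ordinal.{u}).toZFSet := by
  induction n with
  | zero => simp [h.empty]
  | succ n ih =>
    have e : ((n + 1 : ℕ) : Ordinal.{u}) = Order.succ (n : Ordinal.{u}) := by simp
    rw [e, h.succ, ih, toZFSet_succ]

theorem IsEmb.omega : j (ω : Ordinal.{u}).toZFSet = (ω : Ordinal.{u}).toZFSet := by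
  have ho : (j (ω : Ordinal.{u}).toZFSet).IsOrdinal := h.isOrdinal (isOrdinal_toZFSet _)
  -- `ω` is closed under successors and all its elements are `0` or successors
  have h1 := ((IsD0.ball 0 (IsD0.bex 1 ((IsD0.mem 1 0).and (IsD0.ball 0
    ((IsD0.eq 0 2).or (IsD0.mem 0 2)))))).pres h (env4 (ω : Ordinal.{u}).toZFSet ∅ ∅ ∅)).1 (by
      intro a ha
      obtain ⟨α, hα, rfl⟩ := Ordinal.mem_toZFSet_iff.1 (show a ∈ (ω : Ordinal.{u}).toZFSet from ha)
      refine ⟨(Order.succ α).toZFSet, ?_, ?_, ?_⟩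
      · show (Order.succ α).toZFSet ∈ (ω : Ordinal.{u}).toZFSet
        rw [toZFSet_mem_toZFSet_iff]
        exact isSuccLimit_omega0.succ_lt hα
      · show α.toZFSet ∈ (Order.succ α).toZFSet
        rw [toZFSet_mem_toZFSet_iff]; exact Order.lt_succ α
      · intro b hb
        have hb' : b ∈ (Order.succ α).toZFSet := hb
        rw [toZFSet_succ, mem_insert_iff] at hb'
        exact hb')
  have h3 := ((IsD0.ball 0 ((IsD0.eq 0 2).or (IsD0.bex 0 (IsD0.ball 1
    ((IsD0.eq 0 1).or (IsD0.mem 0 1)))))).pres h (env4 (ω : Ordinal.{u}).toZFSet ∅ ∅ ∅)).1 (by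
      intro a ha
      obtain ⟨α, hα, rfl⟩ := Ordinal.mem_toZFSet_iff.1 (show a ∈ (ω : Ordinal.{u}).toZFSet from ha)
      obtain ⟨n, rfl⟩ := lt_omega0.1 hα
      cases n with
      | zero => left; show ((0 : ℕ) : Ordinal.{u}).toZFSet = ∅; simp
      | succ n =>
        right
        have e : ((n + 1 : ℕ) : Ordinal.{u}) = Order.succ (n : Ordinal.{u}) := by simp
        rw [e]
        refine ⟨(n : Ordinal.{u}).toZFSet, ?_, ?_⟩
        · show (n : Ordinal.{u}).toZFSet ∈ (Order.succ (n : Ordinal.{u})).toZFSet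
          rw [toZFSet_mem_toZFSet_iff]; exact Order.lt_succ _
        · intro b hb
          have hb' : b ∈ (Order.succ (n : Ordinal.{u})).toZFSet := hb
          rw [toZFSet_succ, mem_insert_iff] at hb'
          exact hb')
  have h0 : (∅ : ZFSet.{u}) ∈ j (ω : Ordinal.{u}).toZFSet := by
    rw [← h.empty, h.mem_iff, ← toZFSet_zero, toZFSet_mem_toZFSet_iff]
    exact omega0_pos
  obtain ⟨o, he⟩ : ∃ o : Ordinal.{u}, j (ω : Ordinal.{u}).toZFSet = o.toZFSet :=
    ⟨_, ho.toZFSet_rank_eq.symm⟩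
  rw [he]
  congr 1
  rw [he] at h0
  have h1' : ∀ a ∈ o.toZFSet, ∃ b ∈ o.toZFSet, a ∈ b ∧ ∀ c ∈ b, c = a ∨ c ∈ a := by
    intro a ha
    exact h1 a (show a ∈ j (ω : Ordinal.{u}).toZFSet by rw [he]; exact ha) |>.imp fun b hb =>
      ⟨by rw [← he]; exact hb.1, hb.2⟩
  have h3' : ∀ a ∈ o.toZFSet, a = ∅ ∨ ∃ b ∈ a, ∀ c ∈ a, c = b ∨ c ∈ b := by
    intro a ha
    have := h3 a (show a ∈ j (ω : Ordinal.{u}).toZFSet by rw [he]; exact ha)
    rcases this with h4 | h4
    · left
      have h4' : a = j ∅ := h4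
      rw [h4', h.empty]
    · right; exact h4
  apply le_antisymm
  · -- every element is a natural number
    by_contra hlt
    rw [not_le] at hlt
    rcases h3' (ω : Ordinal.{u}).toZFSet (toZFSet_mem_toZFSet_iff.2 hlt) with h4 | ⟨b, hb, hb'⟩
    · rw [← toZFSet_zero] at h4
      exact omega0_ne_zero (toZFSet_injective h4)
    · obtain ⟨β, hβ, rfl⟩ := Ordinal.mem_toZFSet_iff.1 hb
      rcases hb' (Order.succ β).toZFSet
        (toZFSet_mem_toZFSet_iff.2 (isSuccLimit_omega0.succ_lt hβ)) with h5 | h5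
      · exact (Order.lt_succ β).ne' (toZFSet_injective h5)
      · exact (Order.lt_succ β).not_gt (toZFSet_mem_toZFSet_iff.1 h5)
  · apply omega0_le_of_isSuccLimit
    refine ⟨?_, ?_⟩
    · rw [isMin_iff_eq_bot]
      rintro rfl
      rw [Ordinal.bot_eq_zero, toZFSet_zero] at h0
      exact notMem_empty _ h0
    · intro a hao
      obtain ⟨ha1, ha2⟩ := hao
      obtain ⟨b, hb, hab, -⟩ := h1' a.toZFSet (toZFSet_mem_toZFSet_iff.2 ha1)
      obtain ⟨β, hβ, rfl⟩ := Ordinal.mem_toZFSet_iff.1 hb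
      exact ha2 (toZFSet_mem_toZFSet_iff.1 hab) hβ

/-- Countable sets are mapped to their pointwise images. -/
theorem IsEmb.countable {x : ZFSet.{u}} (hx : Ctbl x) (y : ZFSet.{u}) :
    y ∈ j x ↔ ∃ z ∈ x, y = j z := by
  constructor
  · intro hy
    have hne : {y | y ∈ x}.Nonempty := by
      by_contra hne
      rw [Set.not_nonempty_iff_eq_empty] at hne
      have hx0 : x = ∅ := by
        rw [eq_empty]
        intro z hz
        have : z ∈ {y | y ∈ x} := hz
        rw [hne] at this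
        exact this
      rw [hx0, h.empty] at hy
      exact notMem_empty _ hy
    obtain ⟨g, hg⟩ := hx.exists_eq_range hne
    -- the enumeration as a set
    let G : ZFSet.{u} := ZFSet.range fun n : ULift.{u} ℕ =>
      ZFSet.pair ((n.down : Ordinal.{u}).toZFSet) (g n.down)
    have hG : ∀ p, p ∈ G ↔ ∃ n : ℕ, p = ZFSet.pair ((n : Ordinal.{u}).toZFSet) (g n) := by
      intro p
      simp only [G, mem_range]
      constructor
      · rintro ⟨⟨n⟩, rfl⟩; exact ⟨n, rfl⟩
      · rintro ⟨n, rfl⟩; exact ⟨⟨n⟩, rfl⟩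
    have h1 := ((IsD0.ball 0 (IsD0.bex 2 (IsD0.pairMem 0 1 4))).pres h
      (env4 x (ω : Ordinal.{u}).toZFSet G G)).1 (by
        intro a ha
        have ha' : a ∈ Set.range g := by rw [← hg]; exact ha
        obtain ⟨n, rfl⟩ := ha'
        refine ⟨(n : Ordinal.{u}).toZFSet, ?_, ?_⟩
        · show (n : Ordinal.{u}).toZFSet ∈ (ω : Ordinal.{u}).toZFSet
          rw [toZFSet_mem_toZFSet_iff]
          exact natCast_lt_omega0 n
        · show ZFSet.pair _ _ ∈ G
          exact (hG _).2 ⟨n, rfl⟩)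
    obtain ⟨m, hm, hm'⟩ := h1 y hy
    have hm1 : m ∈ j (ω : Ordinal.{u}).toZFSet := hm
    have hm2 : ZFSet.pair m y ∈ j G := hm'
    rw [h.omega] at hm1
    obtain ⟨α, hα, rfl⟩ := Ordinal.mem_toZFSet_iff.1 hm1
    obtain ⟨n, rfl⟩ := lt_omega0.1 hα
    refine ⟨g n, ?_, ?_⟩
    · have : g n ∈ {y | y ∈ x} := by rw [hg]; exact ⟨n, rfl⟩
      exact this
    · have h2 := ((IsD0.ballPair 0 ((IsD0.eq 1 3).imp (IsD0.eq 0 4))).pres h
        (env4 G ((n : Ordinal.{u}).toZFSet) (g n) (g n))).1 (by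
          intro a b hab e
          have e' : a = (n : Ordinal.{u}).toZFSet := e
          subst e'
          obtain ⟨k, hk⟩ := (hG _).1 (show ZFSet.pair _ b ∈ G from hab)
          rw [ZFSet.pair_inj] at hk
          have e2 := Nat.cast_injective (toZFSet_injective hk.1)
          show b = g n
          rw [hk.2, e2])
      exact h2 (n : Ordinal.{u}).toZFSet y hm2 (h.nat n).symm
  · rintro ⟨z, hz, rfl⟩
    exact (h.mem_iff z x).2 hz

theorem Crit.isSuccLimit {κ : Ordinal.{u}} (hκ : Crit j κ) : Order.IsSuccLimit κ := by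
  refine ⟨?_, ?_⟩
  · rw [isMin_iff_eq_bot]
    rintro rfl
    apply hκ.2
    rw [Ordinal.bot_eq_zero, toZFSet_zero, h.empty]
  · intro a hak
    apply hκ.2
    have e : κ = Order.succ a := hak.succ_eq.symm
    rw [e, h.succ, hκ.1 a hak.lt, toZFSet_succ]

theorem Crit.mem {κ : Ordinal.{u}} (hκ : Crit j κ) : κ.toZFSet ∈ j κ.toZFSet := by
  have ho : (j κ.toZFSet).IsOrdinal := h.isOrdinal (isOrdinal_toZFSet κ)
  have hs : κ.toZFSet ⊆ j κ.toZFSet := by
    intro y hy
    obtain ⟨β, hβ, rfl⟩ := Ordinal.mem_toZFSet_iff.1 hy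
    rw [← hκ.1 β hβ, h.mem_iff]
    exact hy
  rcases (IsOrdinal.subset_iff_eq_or_mem (isOrdinal_toZFSet κ) ho).1 hs with h1 | h1
  · exact absurd h1.symm hκ.2
  · exact h1

/-- The rank of `j x` is at most `j` of the rank of `x`. -/
theorem IsEmb.rank_le (x : ZFSet.{u}) (α : Ordinal.{u}) (hx : rank x ≤ α) :
    rank (j x) ≤ rank (j α.toZFSet) := by
  -- the set of pairs `(ξ, y)` with `ξ ≤ α` and `y ⊆ V_ξ`
  let R : ZFSet.{u} := ZFSet.sep (fun p => rank (H94W.zsnd p) ≤ rank (H94W.zfst p))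
    (ZFSet.prod (Order.succ α).toZFSet (V_ (Order.succ α)))
  have hR : ∀ ξ y, ZFSet.pair ξ y ∈ R ↔ (∃ β ≤ α, ξ = β.toZFSet) ∧ rank y ≤ rank ξ := by
    intro ξ y
    simp only [R, mem_sep, pair_mem_prod, zfst_pair, zsnd_pair, Ordinal.mem_toZFSet_iff,
      Order.lt_succ_iff]
    constructor
    · rintro ⟨⟨⟨β, hβ, rfl⟩, _⟩, h2⟩
      exact ⟨⟨β, hβ, rfl⟩, h2⟩
    · rintro ⟨⟨β, hβ, rfl⟩, h2⟩
      refine ⟨⟨⟨β, hβ, rfl⟩, ?_⟩, h2⟩
      rw [mem_vonNeumann, Order.lt_succ_iff]
      rw [rank_toZFSet] at h2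
      exact h2.trans hβ
  have h1 := ((IsD0.ballPair 0 (IsD0.ball 0 (IsD0.bex 2 (IsD0.pairMem 0 1 4)))).pres h
    (env4 R R R R)).1 (by
      intro ξ y hxy y' hy'
      obtain ⟨⟨β, hβ, rfl⟩, h2⟩ := (hR ξ y).1 hxy
      have hy'' : y' ∈ y := hy'
      have h3 : rank y' < β := by
        rw [rank_toZFSet] at h2
        exact lt_of_lt_of_le (rank_lt_of_mem hy'') h2
      refine ⟨(rank y').toZFSet, ?_, ?_⟩
      · show (rank y').toZFSet ∈ β.toZFSet
        rw [toZFSet_mem_toZFSet_iff]; exact h3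
      · show ZFSet.pair _ _ ∈ R
        refine (hR _ _).2 ⟨⟨_, (h3.le.trans hβ), rfl⟩, ?_⟩
        show rank y' ≤ rank (rank y').toZFSet
        rw [rank_toZFSet])
  have h2 : ∀ y ξ, ZFSet.pair ξ y ∈ j R → rank y ≤ rank ξ := by
    intro y
    induction y using ZFSet.inductionOn with
    | _ y ih =>
      intro ξ hy
      rw [ZFSet.rank_le_iff]
      intro y' hy'
      obtain ⟨ξ', hξ', hm⟩ := h1 ξ y hy y' hy'
      exact lt_of_le_of_lt (ih y' hy' ξ' hm) (rank_lt_of_mem hξ')
  apply h2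
  rw [← h.pair, h.mem_iff]
  exact (hR _ _).2 ⟨⟨α, le_rfl, rfl⟩, by rw [rank_toZFSet]; exact hx⟩

/-- `j` is the identity on `V_κ`. -/
theorem Crit.fix {κ : Ordinal.{u}} (hκ : Crit j κ) {x : ZFSet.{u}} (hx : x ∈ V_ κ) :
    j x = x := by
  have key : ∀ (α : Ordinal.{u}) (x : ZFSet.{u}), rank x = α → α < κ → j x = x := by
    intro α
    induction α using WellFoundedLT.induction with
    | _ α ih =>
      intro x hx hα
      ext y
      constructor
      · intro hy
        have h1 : rank y < α := by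
          have h2 := h.rank_le x α hx.le
          rw [hκ.1 α hα, rank_toZFSet] at h2
          exact lt_of_lt_of_le (rank_lt_of_mem hy) h2
        rw [← ih _ h1 y rfl (h1.trans hα), h.mem_iff] at hy
        exact hy
      · intro hy
        have h1 : rank y < α := hx ▸ rank_lt_of_mem hy
        rw [← ih _ h1 y rfl (h1.trans hα), h.mem_iff]
        exact hy
  exact key _ x rfl (mem_vonNeumann.1 hx)

/-- Elements of `j x` of rank `< κ` are elements of `x`. -/
theorem Crit.mem_low {κ : Ordinal.{u}} (hκ : Crit j κ) {x y : ZFSet.{u}} (hy : y ∈ V_ κ) :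
    y ∈ j x ↔ y ∈ x := by
  conv_lhs => rw [← Crit.fix h hκ hy]
  exact h.mem_iff y x

end facts

end H94W
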