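import Pool.Agent.Lib.H94W.JLib

/-!
# Project Woodin, chunk B: the key lemma on Woodin cardinals and the tower

Let `𝒟` be predense.  For `κ < δ`, `x ∈ DOM (κ+1)` (a countable subset of `V_{κ+1}`), `t ∈ 𝒟`
with `zfst t ∈ κ` (so `t ∈ V_κ`, `κ` being a limit), `z ∈ zsnd t` let `Cl_n (x, t, z)` be the
stages of the closure of `(x ∩ V_κ) ∪ z ∪ {t}` under
pairing and the functions `zapp f`, `f ∈ x` (each stage adds pairs and values of elements of the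
previous one).  Let `SP (x)` say: there are `t ∈ 𝒟`, `zfst t ∈ κ`, and `z ∈ zsnd t` such that all
`y ∈ ⋃ Cl_n (x, t, z)` satisfy: `y ∈ V_{rank (zfst t)} → y ∈ z` and
`y ∈ V_ξ → y ∈ x` for all ordinals `ξ ∈ x ∩ κ`.  Let `a_κ` be the set of `x ∈ DOM (κ+1)` without
`SP`.  Claim: `a_κ` is not stationary for unboundedly many `κ < δ` (`κ` the critical point of
embeddings given by the Woodin property for `A = 𝒟`; note that the choice of `κ` precedes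
that of `lam`).  Suppose `a_κ` is stationary, so that
`(κ+1, a_κ)` is a condition; let `b ∈ 𝒟` be compatible with it; let `lam < δ` be
large, with `b`, `zfst b`, elements of `zsnd b`, ... in `V_lam` and `zfst b ∈ lam`, and `j : V → M` as
in the definition of Woodin, for `lam`; in particular `b ∈ j 𝒟` and `zfst b ∈ lam ⊆ j κ`.
Choose a countable `X`, closed under `j`, pairing,
application `zapp` (of pairs), ..., containing `b`, and in both conditions.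
`x = trc X (κ+1) ∈ a_κ`, so `j x ∈ j a_κ` and by elementarity, for `b ∈ j 𝒟` and
`z = trc X (zfst b) ∈ zsnd b` there is `y` in some stage `n` of `M`'s closure of `j x, b, z`
which violates the conclusion.  But by induction on `n` all elements of the `n`-th stage are in
`X` (`j x = j '' x ⊆ X`, `j x ∩ j (V_κ) = j '' (x ∩ V_κ) = x ∩ V_κ ⊆ X`, `z ⊆ X`, `b ∈ X`).  So if
`y ∈ V_{rank (zfst b)}` then `y ∈ z`, and if `y ∈ V_ξ`, `ξ ∈ j x ∩ j κ` then `ξ ∈ x ∩ κ` and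
`y ∈ X ∩ V_ξ ⊆ x ∩ V_κ`, so that `y = j y ∈ j x`.  Contradiction.

The elementarity of `j` is used for the `Δ₀` statement `KAll` with the parameters `a_κ`, `𝒟`, `κ`,
`V_κ`, the power set of `V_κ`, the graph `Z` of application and the set `R` of the pairs `(ξ, y)` with
`ξ < κ`, `y ∈ V_ξ`.
-/

set_option autoImplicit false

namespace H94W

open Ordinal Cardinal ZFSet

universe u v w

/-! ### The closure -/

/-- The stages of the closure of `(x ∩ V_κ) ∪ z ∪ {t}` under pairing and the functions in `x`. -/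
inductive Cl (κ : Ordinal.{u}) (x t z : ZFSet.{u}) : ℕ → ZFSet.{u} → Prop
  | bx (n : ℕ) (y : ZFSet.{u}) : y ∈ x → y ∈ V_ κ → Cl κ x t z n y
  | bz (n : ℕ) (y : ZFSet.{u}) : y ∈ z → Cl κ x t z n y
  | bt (n : ℕ) : Cl κ x t z n t
  | pr (n : ℕ) (y y' : ZFSet.{u}) : Cl κ x t z n y → Cl κ x t z n y' →
      Cl κ x t z (n + 1) (ZFSet.pair y y')
  | ap (n : ℕ) (f y : ZFSet.{u}) : f ∈ x → Cl κ x t z n y → Cl κ x t z (n + 1) (zapp f y)

theorem Cl.succ {κ : Ordinal.{u}} {x t z : ZFSet.{u}} {n : ℕ} {y : ZFSet.{u}}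
    (h : Cl κ x t z n y) : Cl κ x t z (n + 1) y := by
  induction h with
  | bx n y h1 h2 => exact .bx _ _ h1 h2
  | bz n y h1 => exact .bz _ _ h1
  | bt n => exact .bt _
  | pr n y y' _ _ ih1 ih2 => exact .pr _ _ _ ih1 ih2
  | ap n f y h1 _ ih => exact .ap _ _ _ h1 ih

theorem Cl.mono {κ : Ordinal.{u}} {x t z : ZFSet.{u}} {n m : ℕ} (hnm : n ≤ m) {y : ZFSet.{u}}
    (h : Cl κ x t z n y) : Cl κ x t z m y := by
  induction hnm with
  | refl => exact h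
  | step _ ih => exact ih.succ

theorem Cl.countable {κ : Ordinal.{u}} {x t z : ZFSet.{u}} (hx : {y | y ∈ x}.Countable)
    (hz : {y | y ∈ z}.Countable) (n : ℕ) : {y | Cl κ x t z n y}.Countable := by
  have hb : ({y | y ∈ x} ∪ {y | y ∈ z} ∪ {t} : Set ZFSet.{u}).Countable :=
    (hx.union hz).union (Set.countable_singleton t)
  induction n with
  | zero =>
    apply hb.mono
    intro y hy
    have hy' : Cl κ x t z 0 y := hy
    cases hy' with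
    | bx _ _ h1 _ => exact Or.inl (Or.inl h1)
    | bz _ _ h1 => exact Or.inl (Or.inr h1)
    | bt _ => exact Or.inr rfl
  | succ n ih =>
    have h1 : (Set.image2 ZFSet.pair {y | Cl κ x t z n y} {y | Cl κ x t z n y}).Countable :=
      ih.image2 ih _
    have h2 : (Set.image2 zapp {y | y ∈ x} {y | Cl κ x t z n y}).Countable :=
      hx.image2 ih _
    apply ((hb.union h1).union h2).mono
    intro y hy
    have hy' : Cl κ x t z (n + 1) y := hy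
    cases hy' with
    | bx _ _ h1 _ => exact Or.inl (Or.inl (Or.inl (Or.inl h1)))
    | bz _ _ h1 => exact Or.inl (Or.inl (Or.inl (Or.inr h1)))
    | bt _ => exact Or.inl (Or.inl (Or.inr rfl))
    | pr _ y y' h1 h2 => exact Or.inl (Or.inr ⟨y, h1, y', h2, rfl⟩)
    | ap _ f y h1 h2 => exact Or.inr ⟨f, h1, y, h2, rfl⟩

/-- `V_κ` is closed under pairing for limits `κ`. -/
theorem pair_mem_V {κ : Ordinal.{u}} (hκ : Order.IsSuccLimit κ) {x y : ZFSet.{u}}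
    (hx : x ∈ V_ κ) (hy : y ∈ V_ κ) : ZFSet.pair x y ∈ V_ κ := by
  rw [mem_vonNeumann] at hx hy ⊢
  unfold ZFSet.pair
  rw [rank_pair, rank_singleton, rank_pair]
  exact max_lt (hκ.succ_lt (hκ.succ_lt hx))
    (hκ.succ_lt (max_lt (hκ.succ_lt hx) (hκ.succ_lt hy)))

theorem Cl.mem_V {κ : Ordinal.{u}} (hκ : Order.IsSuccLimit κ) {x t z : ZFSet.{u}}
    (hx : ∀ f ∈ x, f ⊆ V_ κ) (ht : t ∈ V_ κ) (hz : ∀ y ∈ z, y ∈ V_ κ) {n : ℕ} {y : ZFSet.{u}}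
    (h : Cl κ x t z n y) : y ∈ V_ κ := by
  induction h with
  | bx n y h1 h2 => exact h2
  | bz n y h1 => exact hz y h1
  | bt n => exact ht
  | pr n y y' _ _ ih1 ih2 => exact pair_mem_V hκ ih1 ih2
  | ap n f y h1 _ _ =>
    rw [mem_vonNeumann]
    rcases rank_zapp f y with h2 | h2
    · rw [h2, rank_empty]
      exact hκ.bot_lt
    · exact lt_of_lt_of_le h2 (subset_vonNeumann.1 (hx f h1))

/-! ### The `Δ₀` statement -/

/-- `q` is a set of pairs `(n, y)`, `y` in stage `n`. -/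
def KStep (q z s η x VK Z : ZFSet.{u}) : Prop :=
  ∀ n y, ZFSet.pair n y ∈ q → (y ∈ x ∧ y ∈ VK) ∨ y ∈ z ∨ y = ZFSet.pair η s ∨
    ∃ m ∈ n, (∃ y1 ∈ VK, ∃ y2 ∈ VK, ZFSet.pair m y1 ∈ q ∧ ZFSet.pair m y2 ∈ q ∧
      y = ZFSet.pair y1 y2) ∨
      (∃ f ∈ x, ∃ y1 ∈ VK, ZFSet.pair m y1 ∈ q ∧ ZFSet.pair (ZFSet.pair f y1) y ∈ Z)

/-- Some element of `q` violates the conclusion. -/
def KBad (q z η x κ R : ZFSet.{u}) : Prop :=
  ∃ n y, ZFSet.pair n y ∈ q ∧ ((ZFSet.pair η y ∈ R ∧ y ∉ z) ∨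
    ∃ ξ ∈ x, ξ ∈ κ ∧ ZFSet.pair ξ y ∈ R ∧ y ∉ x)

/-- The statement to which elementarity is applied. -/
def KAll (a D κ VK W Z R : ZFSet.{u}) : Prop :=
  ∀ x ∈ a, ∀ η s, ZFSet.pair η s ∈ D → η ∈ κ → ∀ z ∈ s, ∃ q ∈ W,
    KStep q z s η x VK Z ∧ KBad q z η x κ R

/-- `((v i, v j), v k) ∈ v l` -/
theorem IsD0.pairPairMem (i j k l : ℕ) :
    IsD0.{u} (fun v => ZFSet.pair (ZFSet.pair (v i) (v j)) (v k) ∈ v l) :=
  (IsD0.bexPair l ((IsD0.pair 1 (i + 2) (j + 2)).and (IsD0.eq 0 (k + 2)))).congr fun v => by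
    show _ ↔ ∃ x y, ZFSet.pair x y ∈ v l ∧ x = ZFSet.pair (v i) (v j) ∧ y = v k
    constructor
    · intro h; exact ⟨_, _, h, rfl, rfl⟩
    · rintro ⟨x, y, h, rfl, rfl⟩; exact h

theorem isD0_KAll :
    IsD0.{u} (fun v => KAll (v 0) (v 1) (v 2) (v 3) (v 4) (v 5) (v 6)) := by
  -- inside: `q, z, s, η, x, a, D, κ, VK, W, Z, R`
  have c1 := (IsD0.mem.{u} 0 6).and (IsD0.mem 0 10)
  have c4a := IsD0.bex.{u} 11 (IsD0.bex 12 ((IsD0.pairMem 2 1 5).and ((IsD0.pairMem 2 0 5).and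
          (IsD0.pair 3 1 0))))
  have c4b := IsD0.bex.{u} 7 (IsD0.bex 12 ((IsD0.pairMem 2 0 5).and (IsD0.pairPairMem 1 0 3 15)))
  have c4 := IsD0.bex.{u} 1 (c4a.or c4b)
  have p1 := IsD0.ballPair.{u} 0 (c1.or ((IsD0.mem 0 3).or ((IsD0.pair 0 5 4).or c4)))
  have p2 := IsD0.bexPair.{u} 0 (((IsD0.pairMem 5 0 13).and (IsD0.mem 0 3).not).or
      (IsD0.bex 6 ((IsD0.mem 0 10).and ((IsD0.pairMem 0 1 14).and (IsD0.mem 1 7).not))))
  have h1 := IsD0.ball.{u} 0 (IsD0.ballPair 2 ((IsD0.mem 1 5).imp (IsD0.ball 0 (IsD0.bex 8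
    (p1.and p2)))))
  exact h1

/-- The assignment given by a list. -/
def envl (l : List ZFSet.{u}) : ℕ → ZFSet.{u} := fun n => l.getD n ∅

/-! ### The special points -/

/-- The property `SP` of the header. -/
def SP (D : ZFSet.{u}) (κ : Ordinal.{u}) (x : ZFSet.{u}) : Prop :=
  ∃ t ∈ D, zfst t ∈ κ.toZFSet ∧ ∃ z ∈ zsnd t, ∀ n y, Cl κ x t z n y →
    (y ∈ V_ (rank (zfst t)) → y ∈ z) ∧ ∀ ξ < κ, ξ.toZFSet ∈ x → y ∈ V_ ξ → y ∈ x

/-- The graph of application. -/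
noncomputable def ZZ (κ : Ordinal.{u}) : ZFSet.{u} :=
  zlam (ZFSet.prod (V_ (Order.succ κ)) (V_ κ)) (fun p => zapp (zfst p) (zsnd p))

/-- The pairs `(ξ, y)`, `y ∈ V_ξ`, `ξ < κ`. -/
noncomputable def RR (κ : Ordinal.{u}) : ZFSet.{u} :=
  ZFSet.sep (fun p => ∃ β < κ, ∃ y ∈ V_ β, p = ZFSet.pair β.toZFSet y) (V_ κ)

theorem mem_RR {κ : Ordinal.{u}} (hκ : Order.IsSuccLimit κ) {ξ y : ZFSet.{u}} :
    ZFSet.pair ξ y ∈ RR κ ↔ ∃ β < κ, ξ = β.toZFSet ∧ y ∈ V_ β := by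
  unfold RR
  rw [mem_sep]
  constructor
  · rintro ⟨_, β, hβ, y', hy', e⟩
    rw [ZFSet.pair_inj] at e
    exact ⟨β, hβ, e.1, e.2 ▸ hy'⟩
  · rintro ⟨β, hβ, rfl, hy⟩
    refine ⟨pair_mem_V hκ ?_ ?_, β, hβ, y, hy, rfl⟩
    · rw [mem_vonNeumann, rank_toZFSet]; exact hβ
    · exact vonNeumann_subset_of_le hβ.le hy

/-- a condition `t` with `zfst t ∈ κ` is in `V_κ`, `κ` a limit -/
theorem cond_mem_V {δ κ : Ordinal.{u}} (hκ : Order.IsSuccLimit κ) {t : ZFSet.{u}}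
    (ht : IsCond δ t) (h : zfst t ∈ κ.toZFSet) : t ∈ V_ κ := by
  obtain ⟨η, a, ⟨β, hβ, rfl⟩, ha, _, rfl⟩ := ht
  rw [zfst_pair, toZFSet_mem_toZFSet_iff] at h
  apply pair_mem_V hκ
  · rw [mem_vonNeumann, rank_toZFSet]; exact h
  · have h1 : a ⊆ V_ (Order.succ β) := by
      intro x hx
      have h2 := ha hx
      unfold DOM at h2
      rw [mem_sep, mem_powerset, rank_toZFSet] at h2
      rw [vonNeumann_succ, mem_powerset]
      exact h2.1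
    rw [mem_vonNeumann]
    exact lt_of_le_of_lt (subset_vonNeumann.1 h1) (hκ.succ_lt h)

/-- The set of the points without `SP`. -/
noncomputable def aa (D : ZFSet.{u}) (κ : Ordinal.{u}) : ZFSet.{u} :=
  ZFSet.sep (fun x => ¬ SP D κ x) (DOM (Order.succ κ).toZFSet)

theorem dom_sub {κ : Ordinal.{u}} {x : ZFSet.{u}} (hx : x ∈ DOM (Order.succ κ).toZFSet) :
    (∀ f ∈ x, f ⊆ V_ κ) ∧ {y | y ∈ x}.Countable := by
  unfold DOM at hx
  rw [mem_sep, mem_powerset, rank_toZFSet] at hx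
  refine ⟨fun f hf => ?_, hx.2⟩
  have h1 := hx.1 hf
  rwa [vonNeumann_succ, mem_powerset] at h1

/-- The statement is true in the universe. -/
theorem kAll_true {δ κ : Ordinal.{u}} (hκ : Order.IsSuccLimit κ) {D : ZFSet.{u}}
    (hD : ∀ t ∈ D, IsCond δ t) :
    KAll (aa D κ) D κ.toZFSet (V_ κ) (powerset (V_ κ)) (ZZ κ) (RR κ) := by
  intro x hx η s hD' hη z hz
  unfold aa at hx
  rw [mem_sep] at hx
  obtain ⟨hxD, hxS⟩ := hx
  obtain ⟨hx1, hx2⟩ := dom_sub hxD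
  have hcond := hD _ hD'
  have htV : ZFSet.pair η s ∈ V_ κ := cond_mem_V hκ hcond (by rw [zfst_pair]; exact hη)
  obtain ⟨β, hβ, rfl⟩ := Ordinal.mem_toZFSet_iff.1 hη
  -- elements of `z` are in `V_κ`
  have hzV : ∀ y ∈ z, y ∈ V_ κ := by
    obtain ⟨η', a', _, ha, _, e⟩ := hcond
    rw [ZFSet.pair_inj] at e
    have h1 := ha (e.2 ▸ hz)
    unfold DOM at h1
    rw [mem_sep, mem_powerset, ← e.1, rank_toZFSet] at h1
    intro y hy
    exact vonNeumann_subset_of_le hβ.le (h1.1 hy)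
  have hCl : ∀ {n y}, Cl κ x (ZFSet.pair β.toZFSet s) z n y → y ∈ V_ κ := fun h =>
    h.mem_V hκ hx1 htV hzV
  have hnat : ∀ n : ℕ, (n : Ordinal.{u}).toZFSet ∈ V_ κ := by
    intro n
    rw [mem_vonNeumann, rank_toZFSet]
    exact lt_of_lt_of_le (natCast_lt_omega0 n) (omega0_le_of_isSuccLimit hκ)
  let q : ZFSet.{u} := ZFSet.sep (fun p => ∃ (n : ℕ) (y : ZFSet.{u}),
    p = ZFSet.pair (n : Ordinal.{u}).toZFSet y ∧ Cl κ x (ZFSet.pair β.toZFSet s) z n y) (V_ κ)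
  have hq : ∀ n' y, ZFSet.pair n' y ∈ q ↔ ∃ n : ℕ, n' = (n : Ordinal.{u}).toZFSet ∧
      Cl κ x (ZFSet.pair β.toZFSet s) z n y := by
    intro n' y
    simp only [q, mem_sep]
    constructor
    · rintro ⟨_, n, y', e, h⟩
      rw [ZFSet.pair_inj] at e
      exact ⟨n, e.1, e.2 ▸ h⟩
    · rintro ⟨n, rfl, h⟩
      exact ⟨pair_mem_V hκ (hnat n) (hCl h), n, y, rfl, h⟩
  refine ⟨q, ?_, ?_, ?_⟩
  · rw [mem_powerset]
    intro p hp
    exact (mem_sep.1 hp).1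
  · intro n' y hy
    obtain ⟨n, rfl, h⟩ := (hq n' y).1 hy
    cases h with
    | bx _ _ h1 h2 => exact Or.inl ⟨h1, h2⟩
    | bz _ _ h1 => exact Or.inr (Or.inl h1)
    | bt _ => exact Or.inr (Or.inr (Or.inl rfl))
    | pr k y1 y2 h1 h2 =>
      refine Or.inr (Or.inr (Or.inr ⟨(k : Ordinal.{u}).toZFSet, ?_, Or.inl
        ⟨y1, hCl h1, y2, hCl h2, (hq _ _).2 ⟨k, rfl, h1⟩, (hq _ _).2 ⟨k, rfl, h2⟩, rfl⟩⟩))
      rw [toZFSet_mem_toZFSet_iff]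
      exact_mod_cast Nat.lt_succ_self k
    | ap k f y1 h1 h2 =>
      refine Or.inr (Or.inr (Or.inr ⟨(k : Ordinal.{u}).toZFSet, ?_, Or.inr
        ⟨f, h1, y1, hCl h2, (hq _ _).2 ⟨k, rfl, h2⟩, ?_⟩⟩))
      · rw [toZFSet_mem_toZFSet_iff]
        exact_mod_cast Nat.lt_succ_self k
      · unfold ZZ
        rw [mem_zlam]
        refine ⟨ZFSet.pair f y1, ?_, ?_⟩
        · rw [pair_mem_prod]
          refine ⟨?_, hCl h2⟩
          rw [vonNeumann_succ, mem_powerset]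
          exact hx1 f h1
        · rw [zfst_pair, zsnd_pair]
  · -- the violation
    by_contra hcon
    apply hxS
    refine ⟨ZFSet.pair β.toZFSet s, hD', by rw [zfst_pair]; exact hη, z,
      by rw [zsnd_pair]; exact hz, ?_⟩
    intro n y hy
    rw [zfst_pair, rank_toZFSet]
    refine ⟨?_, ?_⟩
    · intro hyβ
      by_contra hyz
      exact hcon ⟨_, y, (hq _ _).2 ⟨n, rfl, hy⟩, Or.inl ⟨(mem_RR hκ).2 ⟨β, hβ, rfl, hyβ⟩, hyz⟩⟩
    · intro ξ hξ hξx hyξ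
      by_contra hyx
      exact hcon ⟨_, y, (hq _ _).2 ⟨n, rfl, hy⟩, Or.inr ⟨ξ.toZFSet, hξx,
        toZFSet_mem_toZFSet_iff.2 hξ, (mem_RR hκ).2 ⟨ξ, hξ, rfl, hyξ⟩, hyx⟩⟩

/-- Members of `j (RR κ)` are real. -/
theorem jRR {j : ZFSet.{u} → ZFSet.{u}} {M : Set ZFSet.{u}} (h : IsEmb j M) {κ : Ordinal.{u}}
    (hκ : Order.IsSuccLimit κ) : ∀ y ξ, ZFSet.pair ξ y ∈ j (RR κ) → rank y < rank ξ := by
  have h1 := ((IsD0.ballPair 0 (IsD0.bex 1 (IsD0.ball 1 (IsD0.pairMem 1 0 4)))).pres h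
    (envl [RR κ])).1 (by
      intro ξ y hxy
      obtain ⟨β, hβ, rfl, hy⟩ := (mem_RR hκ).1 (show ZFSet.pair ξ y ∈ RR κ from hxy)
      rw [mem_vonNeumann] at hy
      refine ⟨(rank y).toZFSet, ?_, ?_⟩
      · show (rank y).toZFSet ∈ β.toZFSet
        rw [toZFSet_mem_toZFSet_iff]; exact hy
      · intro y' hy'
        have hy'' : y' ∈ y := hy'
        show ZFSet.pair (rank y).toZFSet y' ∈ RR κ
        rw [mem_RR hκ]
        exact ⟨rank y, hy.trans hβ, rfl, mem_vonNeumann.2 (rank_lt_of_mem hy'')⟩)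
  intro y
  induction y using ZFSet.inductionOn with
  | _ y ih =>
    intro ξ hy
    obtain ⟨ξ', hξ', hm⟩ := h1 ξ y hy
    have hξ'' : ξ' ∈ ξ := hξ'
    refine lt_of_le_of_lt ?_ (rank_lt_of_mem hξ'')
    rw [ZFSet.rank_le_iff]
    intro y' hy'
    exact ih y' hy' ξ' (hm y' hy')

/-- The set `aa D κ` is not stationary. -/
theorem not_stat {δ : Ordinal.{u}} (hδ : Order.IsSuccLimit δ) {D : ZFSet.{u}} (hD : Pred δ D)
    {κ : Ordinal.{u}} (hκδ : κ < δ)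
    (hW : ∀ lam < δ, ∃ (j : ZFSet.{u} → ZFSet.{u}) (M : Set ZFSet.{u}), IsEmb j M ∧ Crit j κ ∧
      lam.toZFSet ∈ j κ.toZFSet ∧ (∀ x ∈ V_ lam, x ∈ M) ∧ ∀ x ∈ V_ lam, (x ∈ j D ↔ x ∈ D)) :
    ¬ Stat (Order.succ κ).toZFSet (aa D κ) := by
  intro hS
  have hp : IsCond δ (ZFSet.pair (Order.succ κ).toZFSet (aa D κ)) :=
    ⟨_, _, ⟨Order.succ κ, hδ.succ_lt hκδ, rfl⟩, fun x hx => (mem_sep.1 hx).1, hS, rfl⟩
  obtain ⟨b, hb, hcomp⟩ := hD.2 _ hp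
  have hbc := hD.1 b hb
  obtain ⟨η, s, ⟨β, hβ, hηβ⟩, hs, _, hbe⟩ := hbc
  have hbV : b ∈ V_ δ := cond_mem_V hδ (hD.1 b hb) (by
    rw [hbe, zfst_pair, hηβ, toZFSet_mem_toZFSet_iff]; exact hβ)
  have hlam : max (Order.succ (rank b)) (Order.succ β) < δ :=
    max_lt (hδ.succ_lt (mem_vonNeumann.1 hbV)) (hδ.succ_lt hβ)
  obtain ⟨j, M, hj, hcrit, hlamj, _, hjD⟩ := hW _ hlam
  have hκ : Order.IsSuccLimit κ := Crit.isSuccLimit hj hcrit
  have hbj : b ∈ j D := (hjD b (mem_vonNeumann.2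
    (lt_of_lt_of_le (Order.lt_succ _) (le_max_left _ _)))).2 hb
  have hηj : η ∈ j κ.toZFSet := by
    have h1 : (j κ.toZFSet).IsTransitive := hj.isTransitive (isOrdinal_toZFSet κ).isTransitive
    apply h1.mem_trans ?_ hlamj
    rw [hηβ, toZFSet_mem_toZFSet_iff]
    exact lt_of_lt_of_le (Order.lt_succ _) (le_max_right _ _)
  -- the countable set
  let F : ℕ → ZFSet.{u} → ZFSet.{u} := fun n => match n with
    | 0 => j
    | 1 => fun p => zapp (j (ZZ κ)) p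
    | _ => fun _ => b
  obtain ⟨X, hX, hX1, hX2⟩ := hcomp F
  have hXj : ∀ y ∈ X, j y ∈ X := fun y hy => hX.2.2.1 0 y hy
  have hXap : ∀ y ∈ X, zapp (j (ZZ κ)) y ∈ X := fun y hy => hX.2.2.1 1 y hy
  have hXb : b ∈ X := by
    obtain ⟨y, hy⟩ := hX.2.1
    exact hX.2.2.1 2 y hy
  have hXpr : ∀ y ∈ X, ∀ y' ∈ X, ZFSet.pair y y' ∈ X := hX.2.2.2
  unfold In at hX1 hX2
  rw [zfst_pair, zsnd_pair] at hX1
  obtain ⟨x, hxe⟩ : ∃ x, x = trc X (Order.succ κ).toZFSet := ⟨_, rfl⟩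
  rw [← hxe] at hX1
  have hxX : ∀ y, y ∈ x ↔ y ∈ X ∧ y ∈ V_ (Order.succ κ) := by
    intro y; rw [hxe, mem_trc, rank_toZFSet]
  obtain ⟨z, hze⟩ : ∃ z, z = trc X η := ⟨_, rfl⟩
  have hzX : ∀ y, y ∈ z ↔ y ∈ X ∧ y ∈ V_ β := by
    intro y; rw [hze, mem_trc, hηβ, rank_toZFSet]
  have hzs : z ∈ s := by
    rw [hbe, zfst_pair, zsnd_pair] at hX2
    rw [hze]; exact hX2
  have hxc : Ctbl x := by
    have h1 := (mem_sep.1 hX1).1
    exact (dom_sub h1).2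
  -- elementarity
  have hall : KAll (j (aa D κ)) (j D) (j κ.toZFSet) (j (V_ κ)) (j (powerset (V_ κ))) (j (ZZ κ))
      (j (RR κ)) := (isD0_KAll.pres hj (envl [aa D κ, D, κ.toZFSet, V_ κ, powerset (V_ κ), ZZ κ,
        RR κ])).1 (kAll_true hκ hD.1)
  obtain ⟨q, _, hstep, hbad⟩ := hall (j x) ((hj.mem_iff _ _).2 hX1) η s (hbe ▸ hbj) hηj z hzs
  -- single-valuedness of `j (ZZ κ)`
  have hsv := ((IsD0.ballPair 0 (IsD0.ballPair 2 ((IsD0.eq 3 1).imp (IsD0.eq 2 0)))).pres hj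
    (envl [ZZ κ])).1 (by
      intro c y hcy c' y' hcy' hcc
      have h1 : ZFSet.pair c y ∈ ZZ κ := hcy
      have h2 : ZFSet.pair c' y' ∈ ZZ κ := hcy'
      have h3 : c = c' := hcc
      show y = y'
      unfold ZZ at h1 h2
      obtain ⟨p, _, e⟩ := mem_zlam.1 h1
      obtain ⟨p', _, e'⟩ := mem_zlam.1 h2
      rw [ZFSet.pair_inj] at e e'
      rw [e.2, e'.2, ← e.1, ← e'.1, h3])
  have hval : ∀ c y, ZFSet.pair c y ∈ j (ZZ κ) → zapp (j (ZZ κ)) c = y := by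
    intro c y hcy
    apply zapp_eq_of_mem _ hcy
    intro z' hz'
    exact hsv c z' hz' c y hcy rfl
  -- elements of `j x`
  have hjx : ∀ y, y ∈ j x ↔ ∃ y' ∈ x, y = j y' := fun y => hj.countable hxc y
  have hjxlow : ∀ y ∈ j x, y ∈ j (V_ κ) → y ∈ x := by
    intro y hy hyV
    obtain ⟨y', hy', rfl⟩ := (hjx y).1 hy
    rw [hj.mem_iff] at hyV
    rw [Crit.fix hj hcrit hyV]
    exact hy'
  -- all elements of the stages are in `X`
  have hqX : ∀ n y, ZFSet.pair n y ∈ q → y ∈ X := by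
    intro n
    induction n using ZFSet.inductionOn with
    | _ n ih =>
      intro y hy
      rcases hstep n y hy with h1 | h1 | h1 | ⟨m, hm, h1 | h1⟩
      · exact ((hxX y).1 (hjxlow y h1.1 h1.2)).1
      · exact ((hzX y).1 h1).1
      · rw [h1, ← hbe]; exact hXb
      · obtain ⟨y1, _, y2, _, h2, h3, rfl⟩ := h1
        exact hXpr _ (ih m hm y1 h2) _ (ih m hm y2 h3)
      · obtain ⟨f, hf, y1, _, h2, h3⟩ := h1
        obtain ⟨f', hf', rfl⟩ := (hjx f).1 hf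
        rw [← hval _ _ h3]
        exact hXap _ (hXpr _ (hXj f' ((hxX f').1 hf').1) _ (ih m hm y1 h2))
  obtain ⟨n, y, hny, h1 | ⟨ξ, hξx, hξκ, hξR, hyx⟩⟩ := hbad
  · apply h1.2
    rw [hzX]
    refine ⟨hqX n y hny, ?_⟩
    have h2 := jRR hj hκ y η h1.1
    rw [hηβ, rank_toZFSet] at h2
    exact mem_vonNeumann.2 h2
  · apply hyx
    obtain ⟨ξ', hξ', rfl⟩ := (hjx ξ).1 hξx
    rw [hj.mem_iff] at hξκ
    obtain ⟨γ, hγ, rfl⟩ := Ordinal.mem_toZFSet_iff.1 hξκ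
    have h2 := jRR hj hκ y _ hξR
    rw [hcrit.1 γ hγ, rank_toZFSet] at h2
    have hyκ : y ∈ V_ κ := mem_vonNeumann.2 (h2.trans hγ)
    have h3 : y ∈ x := by
      rw [hxX]
      exact ⟨hqX n y hny, vonNeumann_subset_of_le (Order.le_succ κ) hyκ⟩
    rw [← Crit.fix hj hcrit hyκ, hj.mem_iff]
    exact h3

theorem key_lemma {δ : Ordinal.{u}} (hW : IsWoodin δ) (D : ZFSet.{u}) (hD : Pred δ D)
    (κ₀ : Ordinal.{u}) (hκ₀ : κ₀ < δ) :
    ∃ κ : Ordinal.{u}, κ₀ < κ ∧ κ < δ ∧ Order.IsSuccLimit κ ∧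
      ∃ F : ℕ → ZFSet.{u} → ZFSet.{u}, ∀ X, Good F X →
        ∃ t ∈ D, t ∈ V_ κ ∧ ∃ z ∈ zsnd t, ∃ Y : Set ZFSet.{u}, Y.Countable ∧
          (∀ y ∈ Y, y ∈ V_ κ) ∧ t ∈ Y ∧ (∀ y ∈ z, y ∈ Y) ∧ (∀ y ∈ X, y ∈ V_ κ → y ∈ Y) ∧
          (∀ y ∈ Y, ∀ y' ∈ Y, pair y y' ∈ Y) ∧
          (∀ f ∈ X, f ⊆ V_ κ → ∀ y ∈ Y, zapp f y ∈ Y) ∧
          (∀ y ∈ Y, y ∈ V_ (rank (zfst t)) → y ∈ z) ∧
          ∀ ξ < κ, ξ.toZFSet ∈ X → ∀ y ∈ Y, y ∈ V_ ξ → y ∈ X := by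
  -- `δ` is a limit
  have hδ : Order.IsSuccLimit δ := by
    obtain ⟨κ, _, hκδ, h1⟩ := hW.2 ∅ (fun x hx => absurd hx (notMem_empty x)) κ₀ hκ₀
    obtain ⟨j, M, hj, hcrit, _⟩ := h1 κ₀ hκ₀
    have hκ := Crit.isSuccLimit hj hcrit
    have h2 : ω ≤ δ := (omega0_le_of_isSuccLimit hκ).trans hκδ.le
    rw [← hW.1]
    apply isSuccLimit_ord
    have h3 := Ordinal.card_le_card h2
    rwa [card_omega0] at h3
  have hDV : D ⊆ V_ δ := by
    intro t ht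
    apply cond_mem_V hδ (hD.1 t ht)
    obtain ⟨η, a, ⟨β, hβ, rfl⟩, _, _, rfl⟩ := hD.1 t ht
    rw [zfst_pair, toZFSet_mem_toZFSet_iff]; exact hβ
  obtain ⟨κ, hκ1, hκ2, hκ3⟩ := hW.2 D hDV κ₀ hκ₀
  have hκ : Order.IsSuccLimit κ := by
    obtain ⟨j, M, hj, hcrit, _⟩ := hκ3 κ₀ hκ₀
    exact Crit.isSuccLimit hj hcrit
  have hns := not_stat hδ hD hκ2 hκ3
  unfold Stat at hns
  obtain ⟨F, hF⟩ := not_forall.1 hns
  refine ⟨κ, hκ1, hκ2, hκ, F, fun X hX => ?_⟩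
  have h1 : trc X (Order.succ κ).toZFSet ∉ aa D κ := fun h => hF ⟨X, hX, h⟩
  have h2 : trc X (Order.succ κ).toZFSet ∈ DOM (Order.succ κ).toZFSet := trc_mem_DOM hX.1 _
  obtain ⟨x, hxe⟩ : ∃ x, x = trc X (Order.succ κ).toZFSet := ⟨_, rfl⟩
  rw [← hxe] at h1 h2
  have hxX : ∀ y, y ∈ x ↔ y ∈ X ∧ y ∈ V_ (Order.succ κ) := by
    intro y; rw [hxe, mem_trc, rank_toZFSet]
  have hSP : SP D κ x := by
    by_contra h3
    exact h1 (mem_sep.2 ⟨h2, h3⟩)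
  obtain ⟨t, ht, htκ, z, hz, hcl⟩ := hSP
  have htV := cond_mem_V hκ (hD.1 t ht) htκ
  have hzc : (∀ y ∈ z, y ∈ V_ κ) ∧ {y | y ∈ z}.Countable := by
    obtain ⟨η, a, ⟨β, hβ, rfl⟩, ha, _, rfl⟩ := hD.1 t ht
    rw [zfst_pair, toZFSet_mem_toZFSet_iff] at htκ
    rw [zsnd_pair] at hz
    have h3 := ha hz
    unfold DOM at h3
    rw [mem_sep, mem_powerset, rank_toZFSet] at h3
    exact ⟨fun y hy => vonNeumann_subset_of_le htκ.le (h3.1 hy), h3.2⟩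
  obtain ⟨hx1, hx2⟩ := dom_sub h2
  refine ⟨t, ht, htV, z, hz, {y | ∃ n, Cl κ x t z n y}, ?_, ?_, ?_, ?_, ?_, ?_, ?_, ?_, ?_⟩
  · have h3 : {y | ∃ n, Cl κ x t z n y} = ⋃ n, {y | Cl κ x t z n y} := by
      ext y; simp
    rw [h3]
    exact Set.countable_iUnion fun n => Cl.countable hx2 hzc.2 n
  · rintro y ⟨n, hy⟩
    exact hy.mem_V hκ hx1 htV hzc.1
  · exact ⟨0, .bt 0⟩
  · intro y hy
    exact ⟨0, .bz 0 y hy⟩
  · intro y hy hyV
    refine ⟨0, .bx 0 y ?_ hyV⟩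
    rw [hxX]
    exact ⟨hy, vonNeumann_subset_of_le (Order.le_succ κ) hyV⟩
  · rintro y ⟨n, hy⟩ y' ⟨n', hy'⟩
    exact ⟨max n n' + 1, .pr _ _ _ (hy.mono (le_max_left _ _)) (hy'.mono (le_max_right _ _))⟩
  · rintro f hf hfV y ⟨n, hy⟩
    refine ⟨n + 1, .ap _ _ _ ?_ hy⟩
    rw [hxX]
    refine ⟨hf, ?_⟩
    rw [vonNeumann_succ, mem_powerset]
    exact hfV
  · rintro y ⟨n, hy⟩
    exact (hcl n y hy).1
  · rintro ξ hξ hξX y ⟨n, hy⟩ hyξ
    have h3 : ξ.toZFSet ∈ x := by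
      rw [hxX]
      refine ⟨hξX, ?_⟩
      rw [mem_vonNeumann, rank_toZFSet]
      exact hξ.trans (Order.lt_succ κ)
    exact ((hxX y).1 ((hcl n y hy).2 ξ hξ h3 hyξ)).1

end H94W
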