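import Pool.Agent.Lib.H94W.LStep
import Pool.Agent.Lib.H94W.Clip

/-!
# Project Woodin, chunk N3: invariants of the long iteration
-/

set_option autoImplicit false

namespace H94W

open Ordinal Cardinal ZFSet

universe u v w

variable {X : Set ZFSet.{u}}

/-- The invariants: the terms in `S` form a model, its elements in `H` (`cH` is a code for the
constant `H`) are countably many up to equality, and no real in `C` is read. -/
structure Inv (δ : Ordinal.{u}) (P : ℕ → ZFSet.{u} → ZFSet.{u}) (B : PA (FT X)) (k : ℕ)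
    (C : Set (ℕ → ℕ)) (S : Set (FT X)) : Prop where
  isOn : B.IsOn δ P S
  small : ∃ h : ℕ → FT X, (∀ n, h n ∈ S) ∧
    ∀ x ∈ S, B.mem x (B.fn (.prim k) B.tt) → ∃ n, B.eq x (h n)
  avoid : ∀ r ∈ C, ∀ x ∈ S, ¬ Reads B x r

namespace LI

/-! ### Terms without seeds -/

theorem val_mem {δ : Ordinal.{u}} {P : ℕ → ZFSet.{u} → ZFSet.{u}}
    (hX : ∀ x ∈ X, ∀ c, eval δ P c x ∈ X) (hXp : ∀ x ∈ X, ∀ y ∈ X, pair x y ∈ X) :
    ∀ t : FT X, t.mx = ⊥ → t.val δ P ∈ X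
  | .base x, _ => x.2
  | .sd ξ t, h => by
    exfalso
    have h1 : max (ξ : WithBot I1.{u}) t.mx = ⊥ := h
    rw [max_eq_bot] at h1
    exact WithBot.coe_ne_bot h1.1
  | .fn c t, h => hX _ (val_mem hX hXp t h) c
  | .pr s t, h => by
    have h1 : max s.mx t.mx = ⊥ := h
    rw [max_eq_bot] at h1
    exact hXp _ (val_mem hX hXp s h1.1) _ (val_mem hX hXp t h1.2)

section

variable {δ : Ordinal.{u}} {P : ℕ → ZFSet.{u} → ZFSet.{u}} {h1 : (one : ZFSet.{u}) ∈ X}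
  {T : FT X → Prop}

theorem evT_val {ρ : ℕ → FT X} (hρ : ∀ i, (ρ i).mx = ⊥) : ∀ t : Tm,
    ((termPA h1 T).evT ρ t).mx = ⊥ ∧
      ((termPA h1 T).evT ρ t).val δ P = t.evU δ P (fun i => (ρ i).val δ P)
  | .v i => ⟨hρ i, rfl⟩
  | .f c t => by
    have ih := evT_val hρ t
    refine ⟨ih.1, ?_⟩
    show eval δ P c (((termPA h1 T).evT ρ t).val δ P) = eval δ P c _
    rw [ih.2]
  | .p s t => by
    have ih1 := evT_val hρ s
    have ih2 := evT_val hρ t
    refine ⟨?_, ?_⟩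
    · show max ((termPA h1 T).evT ρ s).mx ((termPA h1 T).evT ρ t).mx = ⊥
      rw [ih1.1, ih2.1, max_self]
    · show ZFSet.pair (((termPA h1 T).evT ρ s).val δ P) (((termPA h1 T).evT ρ t).val δ P) =
        ZFSet.pair _ _
      rw [ih1.2, ih2.2]

theorem eq_val (hT : ∀ t : FT X, t.mx = ⊥ → (T t ↔ t.val δ P = one)) {s t : FT X}
    (hs : s.mx = ⊥) (ht : t.mx = ⊥) :
    (termPA h1 T).eq s t ↔ s.val δ P = t.val δ P := by
  have h : (FT.fn .eq (.pr s t)).mx = ⊥ := by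
    show max s.mx t.mx = ⊥
    rw [hs, ht, max_self]
  have h2 := hT _ h
  show T (.fn .eq (.pr s t)) ↔ _
  rw [h2]
  show eval δ P .eq (ZFSet.pair (s.val δ P) (t.val δ P)) = one ↔ _
  simp only [eval, zfst_pair, zsnd_pair, zb_eq_one]

theorem mem_val (hT : ∀ t : FT X, t.mx = ⊥ → (T t ↔ t.val δ P = one)) {s t : FT X}
    (hs : s.mx = ⊥) (ht : t.mx = ⊥) :
    (termPA h1 T).mem s t ↔ s.val δ P ∈ t.val δ P := by
  have h : (FT.fn .mem (.pr s t)).mx = ⊥ := by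
    show max s.mx t.mx = ⊥
    rw [hs, ht, max_self]
  have h2 := hT _ h
  show T (.fn .mem (.pr s t)) ↔ _
  rw [h2]
  show eval δ P .mem (ZFSet.pair (s.val δ P) (t.val δ P)) = one ↔ _
  simp only [eval, zfst_pair, zsnd_pair, zb_eq_one]

theorem evQ_val (hT : ∀ t : FT X, t.mx = ⊥ → (T t ↔ t.val δ P = one)) {ρ : ℕ → FT X}
    (hρ : ∀ i, (ρ i).mx = ⊥) : ∀ φ : QF,
    ((termPA h1 T).evQ ρ φ ↔ φ.evU δ P (fun i => (ρ i).val δ P))
  | .tr t => by
    have ih := evT_val (δ := δ) (P := P) (h1 := h1) (T := T) hρ t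
    show T ((termPA h1 T).evT ρ t) ↔ t.evU δ P _ = one
    rw [hT _ ih.1, ih.2]
  | .eq s t => by
    have ih1 := evT_val (δ := δ) (P := P) (h1 := h1) (T := T) hρ s
    have ih2 := evT_val (δ := δ) (P := P) (h1 := h1) (T := T) hρ t
    show (termPA h1 T).eq ((termPA h1 T).evT ρ s) ((termPA h1 T).evT ρ t) ↔
      s.evU δ P _ = t.evU δ P _
    rw [eq_val hT ih1.1 ih2.1, ih1.2, ih2.2]
  | .mem s t => by
    have ih1 := evT_val (δ := δ) (P := P) (h1 := h1) (T := T) hρ s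
    have ih2 := evT_val (δ := δ) (P := P) (h1 := h1) (T := T) hρ t
    show (termPA h1 T).mem ((termPA h1 T).evT ρ s) ((termPA h1 T).evT ρ t) ↔
      s.evU δ P _ ∈ t.evU δ P _
    rw [mem_val hT ih1.1 ih2.1, ih1.2, ih2.2]
  | .not φ => not_congr (evQ_val hT hρ φ)
  | .and φ ψ => and_congr (evQ_val hT hρ φ) (evQ_val hT hρ ψ)
  | .or φ ψ => or_congr (evQ_val hT hρ φ) (evQ_val hT hρ ψ)
  | .imp φ ψ => imp_congr (evQ_val hT hρ φ) (evQ_val hT hρ ψ)

end

/-! ### Finitely many variables -/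

theorem evT_congr {M : Type v} (B : PA M) {k : ℕ} {ρ ρ' : ℕ → M} (h : ∀ i < k, ρ i = ρ' i) :
    ∀ t : Tm, t.bd k → B.evT ρ t = B.evT ρ' t
  | .v i, hi => h i hi
  | .f c t, ht => by
    show B.fn c _ = B.fn c _
    rw [evT_congr B h t ht]
  | .p s t, hst => by
    show B.pr _ _ = B.pr _ _
    rw [evT_congr B h s hst.1, evT_congr B h t hst.2]

theorem evQ_congr {M : Type v} (B : PA M) {k : ℕ} {ρ ρ' : ℕ → M} (h : ∀ i < k, ρ i = ρ' i) :
    ∀ φ : QF, φ.bd k → (B.evQ ρ φ ↔ B.evQ ρ' φ)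
  | .tr t, ht => by
    show B.T _ ↔ B.T _
    rw [evT_congr B h t ht]
  | .eq s t, hst => by
    show B.eq _ _ ↔ B.eq _ _
    rw [evT_congr B h s hst.1, evT_congr B h t hst.2]
  | .mem s t, hst => by
    show B.mem _ _ ↔ B.mem _ _
    rw [evT_congr B h s hst.1, evT_congr B h t hst.2]
  | .not φ, hφ => not_congr (evQ_congr B h φ hφ)
  | .and φ ψ, hst => and_congr (evQ_congr B h φ hst.1) (evQ_congr B h ψ hst.2)
  | .or φ ψ, hst => or_congr (evQ_congr B h φ hst.1) (evQ_congr B h ψ hst.2)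
  | .imp φ ψ, hst => imp_congr (evQ_congr B h φ hst.1) (evQ_congr B h ψ hst.2)

end LI

open LI

/-- The terms without seeds. -/
theorem inv_base (δ : Ordinal.{u}) (P : ℕ → ZFSet.{u} → ZFSet.{u}) (H : ZFSet.{u}) (k : ℕ)
    (hk : P k = fun _ => H) (hX : ∀ x ∈ X, ∀ c, eval δ P c x ∈ X)
    (hXp : ∀ x ∈ X, ∀ y ∈ X, pair x y ∈ X) (h1 : (one : ZFSet.{u}) ∈ X)
    (hXH : {x | x ∈ X ∧ x ∈ H}.Countable) (C : Set (ℕ → ℕ))
    (hC : ∀ r ∈ C, ∀ x ∈ X, ¬ ∀ n : ℕ,
      zapp x (n : Ordinal.{u}).toZFSet = (r n : Ordinal.{u}).toZFSet)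
    (T : FT X → Prop) (hT : ∀ t : FT X, t.mx = ⊥ → (T t ↔ t.val δ P = one)) :
    Inv δ P (termPA h1 T) k C {t | t.mx = ⊥} := by
  have htt : (termPA h1 T).tt.mx = ⊥ := rfl
  refine ⟨⟨htt, fun x hx c => hx, ?_, ?_, ?_⟩, ?_, ?_⟩
  · intro x hx y hy
    show max x.mx y.mx = ⊥
    rw [show x.mx = ⊥ from hx, show y.mx = ⊥ from hy, max_self]
  · intro φ hφ ρ hρ
    exact (evQ_val hT hρ φ).2 (hφ _)
  · exact (hT _ htt).2 rfl
  · obtain ⟨f, hf⟩ := (hXH.insert one).exists_eq_range ⟨one, Set.mem_insert _ _⟩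
    have hfX : ∀ n, f n ∈ X := by
      intro n
      have h2 : f n ∈ insert one {x | x ∈ X ∧ x ∈ H} := by rw [hf]; exact ⟨n, rfl⟩
      rcases h2 with h2 | h2
      · rw [h2]; exact h1
      · exact h2.1
    refine ⟨fun n => .base ⟨f n, hfX n⟩, fun n => rfl, ?_⟩
    intro x hx hxH
    rw [mem_val hT hx (by exact htt)] at hxH
    have h2 : ((termPA h1 T).fn (.prim k) (termPA h1 T).tt).val δ P = H := by
      show P k one = H
      rw [hk]
    rw [h2] at hxH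
    have h3 : x.val δ P ∈ Set.range f := by
      rw [← hf]
      exact Or.inr ⟨val_mem hX hXp x hx, hxH⟩
    obtain ⟨n, hn⟩ := h3
    refine ⟨n, (eq_val hT hx (by rfl)).2 ?_⟩
    exact hn.symm
  · intro r hr x hx hread
    apply hC r hr _ (val_mem hX hXp x hx)
    intro n
    have h2 := hread n
    rw [eq_val hT (by
      show max x.mx ⊥ = ⊥
      rw [show x.mx = ⊥ from hx, max_self]) (by rfl)] at h2
    have h3 : ((termPA h1 T).fn .app ((termPA h1 T).pr x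
        ((termPA h1 T).fn (numC n) (termPA h1 T).tt))).val δ P =
        zapp (x.val δ P) (eval δ P (numC n) one) := by
      show eval δ P .app (ZFSet.pair (x.val δ P) (eval δ P (numC n) one)) = _
      simp only [eval, zfst_pair, zsnd_pair]
    have h4 : ((termPA h1 T).fn (numC (r n)) (termPA h1 T).tt).val δ P =
        eval δ P (numC (r n)) one := rfl
    rw [h3, h4, eval_numC, eval_numC] at h2
    exact h2

/-- Directed unions (only finitely many variables occur in a formula). -/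
theorem inv_union (δ : Ordinal.{u}) (P : ℕ → ZFSet.{u} → ZFSet.{u}) (B : PA (FT X)) (k : ℕ)
    (C : Set (ℕ → ℕ)) {ι : Type w} [LinearOrder ι] [Countable ι] [Nonempty ι]
    (S : ι → Set (FT X)) (hS : Monotone S) (h : ∀ i, Inv δ P B k C (S i)) :
    Inv δ P B k C (⋃ i, S i) := by
  classical
  obtain ⟨i0⟩ := ‹Nonempty ι›
  refine ⟨⟨?_, ?_, ?_, ?_, (h i0).isOn.T_tt⟩, ?_, ?_⟩
  · exact Set.mem_iUnion.2 ⟨i0, (h i0).isOn.tt⟩
  · intro x hx c
    obtain ⟨i, hi⟩ := Set.mem_iUnion.1 hx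
    exact Set.mem_iUnion.2 ⟨i, (h i).isOn.fn x hi c⟩
  · intro x hx y hy
    obtain ⟨i, hi⟩ := Set.mem_iUnion.1 hx
    obtain ⟨j, hj⟩ := Set.mem_iUnion.1 hy
    exact Set.mem_iUnion.2 ⟨max i j, (h _).isOn.pr x (hS (le_max_left _ _) hi) y
      (hS (le_max_right _ _) hj)⟩
  · intro φ hφ ρ hρ
    have key : ∀ n, ∃ i, ∀ m < n, ρ m ∈ S i := by
      intro n
      induction n with
      | zero => exact ⟨i0, fun m hm => absurd hm (Nat.not_lt_zero _)⟩
      | succ n ih =>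
        obtain ⟨i, hi⟩ := ih
        obtain ⟨j, hj⟩ := Set.mem_iUnion.1 (hρ n)
        refine ⟨max i j, fun m hm => ?_⟩
        rcases Nat.lt_succ_iff_lt_or_eq.1 hm with h1 | h1
        · exact hS (le_max_left _ _) (hi m h1)
        · rw [h1]; exact hS (le_max_right _ _) hj
    obtain ⟨i, hi⟩ := key φ.nv
    have h2 := (h i).isOn.valid φ hφ (fun m => if m < φ.nv then ρ m else B.tt) (by
      intro m
      by_cases hm : m < φ.nv
      · simp only [hm, if_true]; exact hi m hm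
      · simp only [hm, if_false]; exact (h i).isOn.tt)
    refine (evQ_congr B ?_ φ φ.bd_nv).1 h2
    intro m hm
    simp only [hm, if_true]
  · choose f hf1 hf2 using fun i => (h i).small
    have : Nonempty (ι × ℕ) := ⟨(i0, 0)⟩
    obtain ⟨g, hg⟩ := exists_surjective_nat (ι × ℕ)
    refine ⟨fun n => f (g n).1 (g n).2, fun n => Set.mem_iUnion.2 ⟨_, hf1 _ _⟩, ?_⟩
    intro x hx hxH
    obtain ⟨i, hi⟩ := Set.mem_iUnion.1 hx
    obtain ⟨n, hn⟩ := hf2 i x hi hxH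
    obtain ⟨m, hm⟩ := hg (i, n)
    refine ⟨m, ?_⟩
    simp only [hm]
    exact hn
  · intro r hr x hx
    obtain ⟨i, hi⟩ := Set.mem_iUnion.1 hx
    exact (h i).avoid r hr x hi

namespace LI

/-- five variables -/
def as5 {M : Type v} (a b c d e : M) : ℕ → M
  | 0 => a
  | 1 => b
  | 2 => c
  | 3 => d
  | _ => e

theorem as5_mem {M : Type v} {S : Set M} {a b c d e : M} (ha : a ∈ S) (hb : b ∈ S) (hc : c ∈ S)
    (hd : d ∈ S) (he : e ∈ S) : ∀ i, as5 a b c d e i ∈ S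
  | 0 => ha
  | 1 => hb
  | 2 => hc
  | 3 => hd
  | _ + 4 => he

/-- application, as a value of a code -/
noncomputable def zapp' (δ : Ordinal.{u}) (P : ℕ → ZFSet.{u} → ZFSet.{u}) (f x : ZFSet.{u}) :
    ZFSet.{u} := eval δ P .app (ZFSet.pair f x)

/-- the clipped function with domain `ω` is in `H` -/
theorem lam_omega_mem {δ : Ordinal.{u}} (hδ : ω < δ) (P : ℕ → ZFSet.{u} → ZFSet.{u})
    {H : ZFSet.{u}} (hH : Nice δ H) (x : ZFSet.{u}) :
    eval δ P (.lam NB.clipA) (pair (ω : Ordinal.{u}).toZFSet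
      (pair x (ω : Ordinal.{u}).toZFSet)) ∈ H := by
  obtain ⟨θ, rfl, hδθ, hθ, _⟩ := hH
  rw [mem_vonNeumann]
  refine lt_of_le_of_lt ?_ (hδ.trans hδθ)
  simp only [eval, zfst_pair, zsnd_pair]
  rw [rank_le_iff]
  intro z hz
  obtain ⟨n, hn, rfl⟩ := mem_zlam.1 hz
  have hval : rank (eval δ P NB.clipA (pair n (pair x (ω : Ordinal.{u}).toZFSet))) < ω := by
    rw [NB.eval_clipA]
    by_cases h : zapp x n ∈ (ω : Ordinal.{u}).toZFSet
    · rw [(NB.eval_clipC δ P _ _).1 h]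
      obtain ⟨a, ha, hae⟩ := mem_toZFSet_iff.1 h
      rw [← hae, rank_toZFSet]; exact ha
    · rw [(NB.eval_clipC δ P _ _).2 h, rank_empty]; exact omega0_pos
  have hn' : rank n < ω := by
    obtain ⟨a, ha, rfl⟩ := mem_toZFSet_iff.1 hn
    rw [rank_toZFSet]; exact ha
  have hl : Order.IsSuccLimit (ω : Ordinal.{u}) := isSuccLimit_omega0
  have e : ∀ a b : ZFSet.{u}, pair a b = {{a}, {a, b}} := fun _ _ => rfl
  rw [e, rank_pair, rank_singleton, rank_pair]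
  have s1 := hl.succ_lt hn'
  have s2 := hl.succ_lt hval
  exact max_lt (hl.succ_lt s1) (hl.succ_lt (max_lt s1 s2))

end LI

/-- The successor step; `h` enumerates the elements of `Lt X ξ` in `H` (up to equality). If `x` reads `r` then the function
`n ↦ if x (n) is a natural number then x (n) else ∅` (with domain `ω`) is in `H`, so of the form
`f (sd ξ η)` with (clipping) `f, η ∈ H`. The list `E` contains the constant `ω`. -/
theorem inv_step {δ : Ordinal.{u}} (hδ : ω < δ) :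
    ∃ E : ℕ → ZFSet.{u} → ZFSet.{u}, ∀ P, Has P E → ∀ H, Nice δ H → ∀ k, P k = (fun _ => H) →
      ∀ (X : Set ZFSet.{u}) (h1 : (one : ZFSet.{u}) ∈ X) (T : FT X → Prop) (C : Set (ℕ → ℕ))
      (ξ : I1.{u}) (G : Set (FT X)), Inv δ P (termPA h1 T) k C (Lt X ξ) →
      StepOut δ P (termPA h1 T) ξ G →
      ∀ h : ℕ → FT X, (∀ n, h n ∈ Lt X ξ) →
      (∀ x ∈ Lt X ξ, (termPA h1 T).mem x ((termPA h1 T).fn (.prim k) (termPA h1 T).tt) →
        ∃ n, (termPA h1 T).eq x (h n)) →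
      (∀ a b, (h a, h b) ∈ names (termPA h1 T) (Lt X ξ) → ∀ r ∈ C,
        ¬ Reads (ult (termPA h1 T) G) (h a, h b) r) →
      Inv δ P (termPA h1 T) k C (Le1 X ξ) := by
  refine ⟨fun _ _ => (ω : Ordinal.{u}).toZFSet, ?_⟩
  intro P hP H hH k hk X h1 T C ξ G hInv hSO h hh hsm hread
  obtain ⟨j, hj⟩ := hP 0
  obtain ⟨B, hB⟩ : ∃ B : PA (FT X), B = termPA h1 T := ⟨_, rfl⟩
  have hfn : ∀ c t, B.fn c t = .fn c t := fun c t => by rw [hB]; rfl
  have hpr : ∀ s t, B.pr s t = .pr s t := fun s t => by rw [hB]; rfl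
  rw [← hB] at hInv hSO hsm hread ⊢
  have hon := hSO.isOn
  have hax := hon.ax
  have hsub : Lt X ξ ⊆ Le1 X ξ := fun t ht => show t.mx ≤ _ from le_of_lt ht
  have hsd : ∀ t ∈ Lt X ξ, FT.sd ξ t ∈ Le1 X ξ := by
    intro t ht
    show max (ξ : WithBot I1.{u}) t.mx ≤ ξ
    exact max_le le_rfl (le_of_lt ht)
  obtain ⟨cH, hcH⟩ : ∃ cH, cH = B.fn (.prim k) B.tt := ⟨_, rfl⟩
  have hcHL : cH ∈ Lt X ξ := by rw [hcH]; exact hInv.isOn.fn _ hInv.isOn.tt _
  -- the key: elements in `H` are values of names in `H`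
  have key : ∀ x ∈ Le1 X ξ, B.mem x cH → ∃ a b, B.T (B.fn .ltd (h b)) ∧
      B.eq x (B.fn .app (B.pr (h a) (.sd ξ (h b)))) := by
    intro x hx hxH
    obtain ⟨η, hη, f, hf, hl, hxe⟩ := hSO.name x hx
    rw [← hfn] at hl
    rw [← hfn, ← hpr] at hxe
    have hη1 := hsub hη
    have hf1 := hsub hf
    have hsη := hsd η hη
    have hmem := hSO.sd_mem η hη (by rw [← hfn]; exact hl)
    rw [← hfn] at hmem
    -- clipping
    obtain ⟨f', hf'⟩ : ∃ f', f' = B.fn NB.lamA (B.pr η (B.pr f cH)) := ⟨_, rfl⟩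
    have hf'L : f' ∈ Lt X ξ := by
      rw [hf']
      exact hInv.isOn.fn _ (hInv.isOn.pr _ hη _ (hInv.isOn.pr _ hf _ hcHL)) _
    have v1 := hon.valid (.imp (.and (.mem (.v 2) (.f .dom (.v 0)))
        (.and (.eq (.v 3) (.f .app (.p (.v 1) (.v 2))))
          (.mem (.v 3) (.f (.prim k) (.v 4)))))
        (.eq (.v 3) (.f .app (.p (.f NB.lamA (.p (.v 0) (.p (.v 1) (.f (.prim k) (.v 4)))))
          (.v 2))))) (by
      intro ρ
      simp only [QF.evU, Tm.evU]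
      rw [NB.eval_lamA]
      simp only [eval, zfst_pair, zsnd_pair, hk]
      rintro ⟨h2, h3, h4⟩
      rw [h3] at h4
      rw [zapp_zlam h2, (NB.eval_clipC δ P _ _).1 h4]
      exact h3) (as5 η f (.sd ξ η) x B.tt) (as5_mem hη1 hf1 hsη hx hon.tt)
    have e1 : B.eq x (B.fn .app (B.pr f' (.sd ξ η))) := by
      rw [hf', hcH]
      exact v1 ⟨hmem, hxe, by rw [hcH] at hxH; exact hxH⟩
    have v2 := hInv.isOn.valid (.imp (.tr (.f .ltd (.v 0)))
        (.mem (.f NB.lamA (.p (.v 0) (.p (.v 1) (.f (.prim k) (.v 4)))))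
          (.f (.prim k) (.v 4)))) (by
      intro ρ
      simp only [QF.evU, Tm.evU]
      rw [NB.eval_lamA]
      simp only [eval, zb_eq_one, hk]
      intro h2
      obtain ⟨θ, h3, h4, h5, h6⟩ := id hH
      apply h6 _ h2
      intro y _
      by_cases h : zapp (ρ 1) y ∈ H
      · rw [(NB.eval_clipC δ P _ _).1 h]; exact h
      · rw [(NB.eval_clipC δ P _ _).2 h]; exact NB.nice_empty hH) (as5 η f η η B.tt)
      (as5_mem hη hf hη hη hInv.isOn.tt)
    have m1 : B.mem f' cH := by rw [hf', hcH]; exact v2 hl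
    have v3 := hInv.isOn.valid (.imp (.tr (.f .ltd (.v 0)))
        (.mem (.v 0) (.f (.prim k) (.v 4)))) (by
      intro ρ
      simp only [QF.evU, Tm.evU, eval, zb_eq_one, hk]
      exact NB.nice_ltd hH) (as5 η f η η B.tt) (as5_mem hη hf hη hη hInv.isOn.tt)
    have m2 : B.mem η cH := by rw [hcH]; exact v3 hl
    obtain ⟨a, ha⟩ := hsm f' hf'L (by rw [← hcH]; exact m1)
    obtain ⟨b, hb⟩ := hsm η hη (by rw [← hcH]; exact m2)
    have v4 := hInv.isOn.valid (.imp (.tr (.f .ltd (.v 0))) (.imp (.eq (.v 0) (.v 1))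
        (.tr (.f .ltd (.v 1))))) (by
      intro ρ h2 h3
      have h3' : ρ 0 = ρ 1 := h3
      show eval δ P .ltd (ρ 1) = one
      rw [← h3']
      exact h2) (as5 η (h b) η η η) (as5_mem hη (hh b) hη hη hη)
    refine ⟨a, b, v4 hl hb, ?_⟩
    have e2 := hSO.sd_congr η hη (h b) (hh b) (by rw [← hfn]; exact hl) hb
    have hf'1 := hsub hf'L
    have ha1 := hsub (hh a)
    have hsb := hsd _ (hh b)
    have e3 := hax.pr_congr _ hf'1 _ hsη _ ha1 _ hsb ha e2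
    have e4 := hax.fn_congr _ (hon.pr _ hf'1 _ hsη) _ (hon.pr _ ha1 _ hsb) .app e3
    exact hax.trans _ hx _ (hon.fn _ (hon.pr _ hf'1 _ hsη) _) _
      (hon.fn _ (hon.pr _ ha1 _ hsb) _) e1 e4
  refine ⟨hon, ?_, ?_⟩
  · refine ⟨fun n => B.fn .app (B.pr (h (Nat.unpair n).1) (.sd ξ (h (Nat.unpair n).2))), ?_, ?_⟩
    · intro n
      exact hon.fn _ (hon.pr _ (hsub (hh _)) _ (hsd _ (hh _))) _
    · intro x hx hxH
      obtain ⟨a, b, _, he⟩ := key x hx (by rw [hcH]; exact hxH)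
      refine ⟨Nat.pair a b, ?_⟩
      simp only [Nat.unpair_pair]
      exact he
  · intro r hr x hx hrd
    obtain ⟨x', hx'⟩ : ∃ x', x' = B.fn (.lam NB.clipA) (B.pr (B.fn (.prim j) B.tt)
      (B.pr x (B.fn (.prim j) B.tt))) := ⟨_, rfl⟩
    have hW := hon.fn _ hon.tt (.prim j)
    have hx'L : x' ∈ Le1 X ξ := by
      rw [hx']
      exact hon.fn _ (hon.pr _ hW _ (hon.pr _ hx _ hW)) _
    have v5 := hon.valid (.mem (.f (.lam NB.clipA) (.p (.f (.prim j) (.v 4))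
        (.p (.v 0) (.f (.prim j) (.v 4))))) (.f (.prim k) (.v 4))) (by
      intro ρ
      show eval δ P (.lam NB.clipA) (ZFSet.pair (P j (ρ 4)) (ZFSet.pair (ρ 0) (P j (ρ 4)))) ∈
        P k (ρ 4)
      rw [hk, hj]
      exact lam_omega_mem hδ P hH (ρ 0)) (as5 x x x x B.tt) (as5_mem hx hx hx hx hon.tt)
    have m1 : B.mem x' cH := by rw [hx', hcH]; exact v5
    obtain ⟨a, b, hl, he⟩ := key x' hx'L m1
    have ha1 := hsub (hh a)
    have hsb := hsd _ (hh b)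
    obtain ⟨y, hy⟩ : ∃ y, y = B.fn .app (B.pr (h a) (.sd ξ (h b))) := ⟨_, rfl⟩
    have hyL : y ∈ Le1 X ξ := by rw [hy]; exact hon.fn _ (hon.pr _ ha1 _ hsb) _
    rw [← hy] at he
    have hry : Reads B y r := by
      intro n
      have v6 := hon.valid (.imp (.eq (.f .app (.p (.v 0) (.f (numC n) (.v 4))))
          (.f (numC (r n)) (.v 4)))
          (.imp (.eq (.f (.lam NB.clipA) (.p (.f (.prim j) (.v 4))
            (.p (.v 0) (.f (.prim j) (.v 4))))) (.v 1))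
          (.eq (.f .app (.p (.v 1) (.f (numC n) (.v 4)))) (.f (numC (r n)) (.v 4))))) (by
        intro ρ
        show zapp' δ P (ρ 0) (eval δ P (numC n) (ρ 4)) = eval δ P (numC (r n)) (ρ 4) →
          eval δ P (.lam NB.clipA) (ZFSet.pair (P j (ρ 4)) (ZFSet.pair (ρ 0) (P j (ρ 4)))) =
            ρ 1 → zapp' δ P (ρ 1) (eval δ P (numC n) (ρ 4)) = eval δ P (numC (r n)) (ρ 4)
        rw [hj, eval_numC, eval_numC]
        intro h2 h3
        rw [← h3]
        simp only [zapp', eval, zfst_pair, zsnd_pair] at h2 ⊢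
        have hnat : ∀ m : ℕ, (m : Ordinal.{u}).toZFSet ∈ (ω : Ordinal.{u}).toZFSet := fun m =>
          mem_toZFSet_iff.2 ⟨m, natCast_lt_omega0 m, rfl⟩
        rw [zapp_zlam (hnat n), NB.eval_clipA, h2, (NB.eval_clipC δ P _ _).1 (hnat _)])
        (as5 x y x x B.tt) (as5_mem hx hyL hx hx hon.tt)
      exact v6 (hrd n) (by rw [hx'] at he; exact he)
    rw [hfn, hpr] at hy
    rw [hy] at hry
    have hl' := hl
    rw [hfn] at hl'
    exact hread b a ⟨hh b, hh a, hl⟩ r hr (hSO.reads (h b) (hh b) (h a) (hh a) hl' r hry)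

end H94W
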