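import Pool.Agent.Lib.H94W.SubPI

/-!
# Project Woodin: iterations of length `ω₁`
-/

set_option autoImplicit false

namespace H94W

open Ordinal Cardinal ZFSet

universe u v w

/-- `(A, D)` is an iteration of length `ω₁` of the model `X`, with indices `ν ξ`, which avoids the
reals in `C`. -/
structure IsLong (δ : Ordinal.{u}) (P : ℕ → ZFSet.{u} → ZFSet.{u}) (H : ZFSet.{u})
    (X : Set ZFSet.{u}) (ν : Set.Iio (ω_ 1 : Ordinal.{u}) → Ordinal.{u}) (C : Set (ℕ → ℕ))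
    {M : Type v} (A : Alg δ P M) (D : PD M) (e : ZFSet.{u} → M) : Prop where
  pi : IsPI A D
  car : D.car = Set.univ
  emb : Emb A X e
  base : D.base = e '' X
  ix : D.ix = Set.range fun ξ => e (ν ξ).toZFSet
  mono : StrictMono ν
  nu_mem : ∀ ξ, (ν ξ).toZFSet ∈ X
  card : #M ≤ ℵ₁
  small : ∀ ξ, {x | x ∈ D.N (e (ν ξ).toZFSet) ∧ A.mem x (e H)}.Countable
  avoid : ∀ r ∈ C, ∀ x, ¬ ∀ n, A.fn .app (A.pr x (A.fn (numC n) A.tt)) = A.fn (numC (r n)) A.tt
  sched : ∀ t, A.T (A.fn .cond t) →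
    IsStationary {ξ | A.mem (D.sd (e (ν ξ).toZFSet) (A.fn .fst t)) (A.fn .snd t)}

end H94W
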