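import Pool.Agent.Lib.H94W.LInv
import Pool.Agent.Lib.H94W.LongDefs

/-!
# Project Woodin, chunk N4: the quotient of the terms is an iteration of length `ω₁`
-/

set_option autoImplicit false

namespace H94W

open Ordinal Cardinal ZFSet

universe u v w

namespace LQ

/-! ### The number of terms -/

/-- Labels of the nodes of a term. -/
abbrev Lab (X : Set ZFSet.{u}) : Type (u + 1) := (X ⊕ I1.{u}) ⊕ (Code ⊕ Unit)

/-- Arities. -/
def Ar (X : Set ZFSet.{u}) : Lab X → Type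
  | .inl (.inl _) => Empty
  | .inl (.inr _) => Unit
  | .inr (.inl _) => Unit
  | .inr (.inr _) => Bool

instance finite_Ar (X : Set ZFSet.{u}) : ∀ a : Lab X, Finite (Ar X a)
  | .inl (.inl _) => inferInstanceAs (Finite Empty)
  | .inl (.inr _) => inferInstanceAs (Finite Unit)
  | .inr (.inl _) => inferInstanceAs (Finite Unit)
  | .inr (.inr _) => inferInstanceAs (Finite Bool)

/-- The tree of a term. -/
def toW {X : Set ZFSet.{u}} : FT X → WType (Ar X)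
  | .base x => .mk (.inl (.inl x)) (fun i : Empty => i.elim)
  | .sd ξ t => .mk (.inl (.inr ξ)) (fun _ : Unit => toW t)
  | .fn c t => .mk (.inr (.inl c)) (fun _ : Unit => toW t)
  | .pr s t => .mk (.inr (.inr ())) (fun b : Bool => if b then toW s else toW t)

theorem toW_injective {X : Set ZFSet.{u}} : Function.Injective (toW (X := X)) := by
  intro s
  induction s with
  | base x =>
    intro t h
    cases t with
    | base y =>
      simp only [toW, WType.mk.injEq, Sum.inl.injEq] at h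
      rw [h.1]
    | sd ξ t => simp [toW] at h
    | fn c t => simp [toW] at h
    | pr s t => simp [toW] at h
  | sd ξ s ih =>
    intro t h
    cases t with
    | base y => simp [toW] at h
    | sd ζ t =>
      simp only [toW, WType.mk.injEq, Sum.inl.injEq, Sum.inr.injEq] at h
      obtain ⟨h1, h2⟩ := h
      subst h1
      have h3 := congrFun (eq_of_heq h2) ()
      rw [ih h3]
    | fn c t => simp [toW] at h
    | pr s t => simp [toW] at h
  | fn c s ih =>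
    intro t h
    cases t with
    | base y => simp [toW] at h
    | sd ζ t => simp [toW] at h
    | fn c t =>
      simp only [toW, WType.mk.injEq, Sum.inl.injEq, Sum.inr.injEq] at h
      obtain ⟨h1, h2⟩ := h
      subst h1
      have h3 := congrFun (eq_of_heq h2) ()
      rw [ih h3]
    | pr s t => simp [toW] at h
  | pr s s' ih1 ih2 =>
    intro t h
    cases t with
    | base y => simp [toW] at h
    | sd ζ t => simp [toW] at h
    | fn c t => simp [toW] at h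
    | pr t t' =>
      simp only [toW, WType.mk.injEq, true_and] at h
      have h3 := congrFun (eq_of_heq h) true
      have h4 := congrFun (eq_of_heq h) false
      simp only [if_true] at h3
      simp only [Bool.false_eq_true, if_false] at h4
      rw [ih1 h3, ih2 h4]

theorem card_I1 : #I1.{u} = ℵ₁ := by
  show #(Set.Iio (ω_ 1 : Ordinal.{u})) = _
  rw [Cardinal.mk_Iio_ordinal, card_omega, lift_aleph]
  simp

theorem card_FT {X : Set ZFSet.{u}} (hcard : #X ≤ ℵ₁) : #(FT X) ≤ ℵ₁ := by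
  have h1 : #(FT X) ≤ #(WType (Ar X)) := mk_le_of_injective toW_injective
  refine h1.trans ?_
  refine WType.cardinalMk_le_max_aleph0_of_finite'.trans ?_
  have h0 : ℵ₀ ≤ (ℵ₁ : Cardinal.{u + 1}) := aleph0_le_aleph 1
  refine max_le ?_ h0
  have h2 : #(Code ⊕ Unit) ≤ ℵ₀ := mk_le_aleph0
  have h3 : #(X ⊕ I1.{u}) ≤ ℵ₁ := by
    rw [mk_sum, Cardinal.lift_id, Cardinal.lift_id, card_I1]
    exact add_le_of_le h0 hcard le_rfl
  rw [Cardinal.lift_uzero]
  show #((X ⊕ I1.{u}) ⊕ (Code ⊕ Unit)) ≤ _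
  rw [mk_sum]
  refine add_le_of_le h0 ?_ ?_
  · rw [Cardinal.lift_uzero]; exact h3
  · refine le_trans ?_ h0
    rw [lift_le_aleph0]
    exact h2

/-! ### The whole set of terms -/

section

variable {X : Set ZFSet.{u}}

theorem exists_Lt_nat (ρ : ℕ → FT X) : ∃ ξ : I1.{u}, ∀ i, ρ i ∈ Lt X ξ := by
  have h1 : ∀ t : FT X, ∃ o : Ordinal.{u}, o < ω_ 1 ∧ ∀ ξ : I1.{u}, o ≤ (ξ : Ordinal.{u}) →
      t ∈ Lt X ξ := by
    intro t
    cases hm : t.mx with
    | bot =>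
      refine ⟨0, omega_pos 1, fun ξ _ => ?_⟩
      show t.mx < _
      rw [hm]
      exact WithBot.bot_lt_coe _
    | coe ζ =>
      refine ⟨Order.succ (ζ : Ordinal.{u}), (isSuccLimit_omega 1).succ_lt ζ.2, fun ξ hξ => ?_⟩
      show t.mx < _
      rw [hm]
      apply WithBot.coe_lt_coe.2
      have h2 : (ζ : Ordinal.{u}) < (ξ : Ordinal.{u}) := Order.succ_le_iff.1 hξ
      exact h2
  choose o ho1 ho2 using h1
  have h2 : (⨆ n : ℕ, o (ρ n)) < ω_ 1 := Ordinal.iSup_lt_omega_one fun n => ho1 _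
  refine ⟨⟨_, h2⟩, fun i => ho2 _ _ ?_⟩
  exact le_ciSup (f := fun n : ℕ => o (ρ n)) Ordinal.bddAbove_of_small i

theorem exists_Lt (t : FT X) : ∃ ξ : I1.{u}, t ∈ Lt X ξ := by
  obtain ⟨ξ, h⟩ := exists_Lt_nat (fun _ => t)
  exact ⟨ξ, h 0⟩

theorem isOn_univ {δ : Ordinal.{u}} {P : ℕ → ZFSet.{u} → ZFSet.{u}} {B : PA (FT X)}
    (h : ∀ ξ : I1.{u}, B.IsOn δ P (Lt X ξ)) : B.IsOn δ P Set.univ := by
  obtain ⟨ξ0, _⟩ := exists_Lt B.tt
  refine ⟨Set.mem_univ _, fun _ _ _ => Set.mem_univ _, fun _ _ _ _ => Set.mem_univ _, ?_,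
    (h ξ0).T_tt⟩
  intro φ hφ ρ _
  obtain ⟨ξ, hξ⟩ := exists_Lt_nat ρ
  exact (h ξ).valid φ hφ ρ hξ

end

end LQ

open LQ in
theorem isLong_of_terms {δ : Ordinal.{u}} (hδ : ω < δ) {P : ℕ → ZFSet.{u} → ZFSet.{u}}
    {H : ZFSet.{u}} (k : ℕ) (hk : P k = fun _ => H) {X : Set ZFSet.{u}}
    (hX : ∀ x ∈ X, ∀ c, eval δ P c x ∈ X) (hXp : ∀ x ∈ X, ∀ y ∈ X, pair x y ∈ X)
    (h1 : (one : ZFSet.{u}) ∈ X) (hcard : #X ≤ ℵ₁) (ν : I1.{u} → Ordinal.{u})
    (hν : StrictMono ν) (hνX : ∀ ξ, (ν ξ).toZFSet ∈ X) (C : Set (ℕ → ℕ))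
    (T : FT X → Prop) (G : I1.{u} → Set (FT X))
    (hbot : ∀ t : FT X, t.mx = ⊥ → (T t ↔ t.val δ P = one))
    (hinv : ∀ ξ, Inv δ P (termPA h1 T) k C (Lt X ξ))
    (hstep : ∀ ξ, StepOut δ P (termPA h1 T) ξ (G ξ))
    (hsched : ∀ t : FT X, T (.fn .cond t) → IsStationary {ξ : I1.{u} | t ∈ Lt X ξ ∧
      ∃ t' ∈ G ξ, t' ∈ Lt X ξ ∧ (termPA h1 T).eq t t'}) :
    ∃ (M : Type (u + 1)) (A : Alg δ P M) (D : PD M) (e : ZFSet.{u} → M),
      IsLong δ P H X ν C A D e := by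
  classical
  have _ := hδ
  have hon : (termPA h1 T).IsOn δ P Set.univ := isOn_univ fun ξ => (hinv ξ).isOn
  obtain ⟨Q, A, q, hq, -, q_tt, q_fn', q_pr', q_eq', q_T'⟩ :=
    PA.exists_quotient (termPA h1 T) Set.univ hon
  have q_fn : ∀ c t, q (.fn c t) = A.fn c (q t) := fun c t => q_fn' t (Set.mem_univ _) c
  have q_pr : ∀ s t, q (.pr s t) = A.pr (q s) (q t) := fun s t =>
    q_pr' s (Set.mem_univ _) t (Set.mem_univ _)
  have q_eq : ∀ s t, q s = q t ↔ (termPA h1 T).eq s t := fun s t =>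
    q_eq' s (Set.mem_univ _) t (Set.mem_univ _)
  have q_T : ∀ t, A.T (q t) ↔ T t := fun t => q_T' t (Set.mem_univ _)
  have q_mem : ∀ s t, A.mem (q s) (q t) ↔ (termPA h1 T).mem s t := by
    intro s t
    show A.T (A.fn .mem (A.pr (q s) (q t))) ↔ T (.fn .mem (.pr s t))
    rw [← q_pr, ← q_fn, q_T]
  -- the embedding
  let e : ZFSet.{u} → Q := fun x => if hx : x ∈ X then q (.base ⟨x, hx⟩) else A.tt
  have e_of : ∀ x (hx : x ∈ X), e x = q (.base ⟨x, hx⟩) := fun x hx => dif_pos hx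
  have e_val : ∀ t : FT X, t.mx = ⊥ → q t = e (t.val δ P) := by
    intro t ht
    rw [e_of _ (LI.val_mem hX hXp t ht), q_eq, LI.eq_val hbot ht rfl]
    rfl
  have e_inj : ∀ x ∈ X, ∀ y ∈ X, e x = e y → x = y := by
    intro x hx y hy hxy
    rw [e_of x hx, e_of y hy, q_eq, LI.eq_val hbot rfl rfl] at hxy
    exact hxy
  have e_fn : ∀ x ∈ X, ∀ c, e (eval δ P c x) = A.fn c (e x) := by
    intro x hx c
    rw [e_of x hx, ← q_fn, e_val _ rfl]
    rfl
  have e_pr : ∀ x ∈ X, ∀ y ∈ X, e (pair x y) = A.pr (e x) (e y) := by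
    intro x hx y hy
    rw [e_of x hx, e_of y hy, ← q_pr, e_val _ (by
      show max (⊥ : WithBot I1.{u}) ⊥ = ⊥
      exact max_self _)]
    rfl
  have e_mem : ∀ x ∈ X, ∀ y ∈ X, A.mem (e x) (e y) ↔ x ∈ y := by
    intro x hx y hy
    rw [e_of x hx, e_of y hy, q_mem, LI.mem_val hbot rfl rfl]
    rfl
  let ei : I1.{u} → Q := fun ξ => e (ν ξ).toZFSet
  have ei_inj : Function.Injective ei := by
    intro ξ ζ h
    have h2 := e_inj _ (hνX ξ) _ (hνX ζ) h
    exact hν.injective (toZFSet_injective h2)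
  have ei_mem : ∀ ξ ζ, A.mem (ei ξ) (ei ζ) ↔ ξ < ζ := by
    intro ξ ζ
    show A.mem (e _) (e _) ↔ _
    rw [e_mem _ (hνX ξ) _ (hνX ζ), toZFSet_mem_toZFSet_iff, hν.lt_iff_lt]
  -- the seeds
  let sd : Q → Q → Q := fun i y =>
    if h : ∃ (ξ : I1.{u}) (t : FT X), i = ei ξ ∧ t ∈ Lt X ξ ∧ q t = y then
      q (.sd h.choose h.choose_spec.choose) else A.tt
  have sd_of : ∀ (ξ : I1.{u}) (t : FT X), t ∈ Lt X ξ → A.T (A.fn .ltd (q t)) →
      sd (ei ξ) (q t) = q (.sd ξ t) := by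
    intro ξ t ht hl
    have h : ∃ (ξ' : I1.{u}) (t' : FT X), ei ξ = ei ξ' ∧ t' ∈ Lt X ξ' ∧ q t' = q t :=
      ⟨ξ, t, rfl, ht, rfl⟩
    show (if h : ∃ (ξ' : I1.{u}) (t' : FT X), ei ξ = ei ξ' ∧ t' ∈ Lt X ξ' ∧ q t' = q t then
      q (.sd h.choose h.choose_spec.choose) else A.tt) = _
    rw [dif_pos h]
    obtain ⟨h2, h3, h4⟩ := h.choose_spec.choose_spec
    have h5 : h.choose = ξ := (ei_inj h2).symm
    generalize h.choose_spec.choose = t' at h3 h4 ⊢
    generalize h.choose = ξ' at h2 h3 h4 h5 ⊢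
    subst h5
    rw [q_eq]
    refine (hstep ξ').sd_congr t' h3 t ht ?_ ?_
    · rw [← h4, ← q_fn, q_T] at hl
      exact hl
    · exact (q_eq _ _).1 h4
  let D : PD Q :=
    { car := Set.univ
      base := e '' X
      ix := Set.range ei
      N := fun i => {x | ∃ ξ : I1.{u}, i = ei ξ ∧ ∃ t ∈ Lt X ξ, q t = x}
      sd := sd }
  have N_iff : ∀ ξ x, x ∈ D.N (ei ξ) ↔ ∃ t ∈ Lt X ξ, q t = x := by
    intro ξ x
    constructor
    · rintro ⟨ζ, h2, h3⟩
      rw [ei_inj h2]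
      exact h3
    · intro h
      exact ⟨ξ, rfl, h⟩
  have Lt_fn : ∀ ξ : I1.{u}, ∀ t ∈ Lt X ξ, ∀ c, FT.fn c t ∈ Lt X ξ := fun ξ t ht c => ht
  have Lt_pr : ∀ ξ : I1.{u}, ∀ s ∈ Lt X ξ, ∀ t ∈ Lt X ξ, FT.pr s t ∈ Lt X ξ :=
    fun ξ s hs t ht => by
      have hs' : s.mx < (ξ : WithBot I1.{u}) := hs
      have ht' : t.mx < (ξ : WithBot I1.{u}) := ht
      exact max_lt hs' ht'
  -- the models
  have q_bot : ∀ t : FT X, t.mx = ⊥ → q t ∈ D.base := by
    intro t ht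
    rw [e_val t ht]
    exact ⟨_, LI.val_mem hX hXp t ht, rfl⟩
  have q_coe : ∀ (ζ : I1.{u}) (t : FT X), t.mx = (ζ : WithBot I1.{u}) → q t ∈ D.Cs A (ei ζ) := by
    intro ζ t ht
    obtain ⟨η, hη, f, hf, hl, he⟩ := (hstep ζ).name t ht.le
    have hl' : A.T (A.fn .ltd (q η)) := by rw [← q_fn, q_T]; exact hl
    refine ⟨q f, (N_iff ζ _).2 ⟨f, hf, rfl⟩, q η, (N_iff ζ _).2 ⟨η, hη, rfl⟩, hl', ?_⟩
    show q t = A.fn .app (A.pr (q f) (sd (ei ζ) (q η)))
    rw [sd_of ζ η hη hl', ← q_pr, ← q_fn, q_eq]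
    exact he
  have hPI : IsPI A D := by
    refine
      { car_fn := fun _ _ _ => Set.mem_univ _
        car_pr := fun _ _ _ _ => Set.mem_univ _
        base_sub := fun _ _ => Set.mem_univ _
        base_tt := ⟨one, h1, ?_⟩
        base_fn := ?_
        base_pr := ?_
        ix_sub := ?_
        ix_ord := ?_
        N_car := fun _ _ _ _ => Set.mem_univ _
        N_fn := ?_
        N_pr := ?_
        N_iff := ?_
        sd_car := fun _ _ _ _ _ => Set.mem_univ _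
        tot := ?_
        sd_mem := ?_
        sd_coh := ?_
        ultra := ?_
        gen := ?_ }
    · rw [e_of one h1]; exact q_tt
    · rintro _ ⟨x, hx, rfl⟩ c
      exact ⟨_, hX x hx c, e_fn x hx c⟩
    · rintro _ ⟨x, hx, rfl⟩ _ ⟨y, hy, rfl⟩
      exact ⟨_, hXp x hx y hy, e_pr x hx y hy⟩
    · rintro _ ⟨ξ, rfl⟩
      exact ⟨_, hνX ξ, rfl⟩
    · rintro _ ⟨ξ, rfl⟩
      show A.T (A.fn .ord (e (ν ξ).toZFSet))
      rw [← e_fn _ (hνX ξ)]
      have h2 : eval δ P .ord (ν ξ).toZFSet = one := by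
        simp only [eval, zb_eq_one]
        exact isOrdinal_toZFSet _
      rw [h2, e_of one h1]
      exact q_tt
    · rintro _ ⟨ξ, rfl⟩ x hx c
      obtain ⟨t, ht, rfl⟩ := (N_iff ξ x).1 hx
      rw [← q_fn]
      exact (N_iff ξ _).2 ⟨_, Lt_fn ξ t ht c, rfl⟩
    · rintro _ ⟨ξ, rfl⟩ x hx y hy
      obtain ⟨s, hs, rfl⟩ := (N_iff ξ x).1 hx
      obtain ⟨t, ht, rfl⟩ := (N_iff ξ y).1 hy
      rw [← q_pr]
      exact (N_iff ξ _).2 ⟨_, Lt_pr ξ s hs t ht, rfl⟩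
    · rintro _ ⟨ξ, rfl⟩ x
      rw [N_iff]
      constructor
      · rintro ⟨t, ht, rfl⟩
        have ht' : t.mx < (ξ : WithBot I1.{u}) := ht
        cases hm : t.mx with
        | bot => exact Or.inl (q_bot t hm)
        | coe ζ =>
          rw [hm] at ht'
          refine Or.inr ⟨ei ζ, ⟨ζ, rfl⟩, (ei_mem ζ ξ).2 (WithBot.coe_lt_coe.1 ht'), q_coe ζ t hm⟩
      · rintro (⟨y, hy, rfl⟩ | ⟨_, ⟨ζ, rfl⟩, hζ, f, hf, η, hη, hl, rfl⟩)
        · exact ⟨.base ⟨y, hy⟩, WithBot.bot_lt_coe _, (e_of y hy).symm⟩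
        · rw [ei_mem] at hζ
          obtain ⟨f', hf', rfl⟩ := (N_iff ζ f).1 hf
          obtain ⟨η', hη', rfl⟩ := (N_iff ζ η).1 hη
          refine ⟨.fn .app (.pr f' (.sd ζ η')), ?_, ?_⟩
          · have hc : (ζ : WithBot I1.{u}) < (ξ : WithBot I1.{u}) := WithBot.coe_lt_coe.2 hζ
            have h2 : f'.mx < (ζ : WithBot I1.{u}) := hf'
            have h3 : η'.mx < (ζ : WithBot I1.{u}) := hη'
            exact max_lt (h2.trans hc) (max_lt hc (h3.trans hc))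
          · rw [q_fn, q_pr, ← sd_of ζ η' hη' hl]
    · intro x _
      obtain ⟨t, rfl⟩ := hq x
      cases hm : t.mx with
      | bot => exact Or.inl (q_bot t hm)
      | coe ζ => exact Or.inr ⟨ei ζ, ⟨ζ, rfl⟩, q_coe ζ t hm⟩
    · rintro _ ⟨ξ, rfl⟩ η hη hl
      obtain ⟨η', hη', rfl⟩ := (N_iff ξ η).1 hη
      show A.mem (sd (ei ξ) (q η')) (A.fn .dom (q η'))
      rw [sd_of ξ η' hη' hl, ← q_fn, q_mem]
      rw [← q_fn, q_T] at hl
      exact (hstep ξ).sd_mem η' hη' hl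
    · rintro _ ⟨ξ, rfl⟩ η hη ζ hζ hl1 hl2
      obtain ⟨η', hη', rfl⟩ := (N_iff ξ η).1 hη
      obtain ⟨ζ', hζ', rfl⟩ := (N_iff ξ ζ).1 hζ
      show A.fn .restr (A.pr (sd (ei ξ) (A.fn .un (A.pr (q η') (q ζ')))) (q ζ')) =
        sd (ei ξ) (q ζ')
      have hl3 : A.T (A.fn .ltd (q (.fn .un (.pr η' ζ')))) := by
        have h2 := A.transfer (.imp (.and (.tr (.f .ltd (.v 0))) (.tr (.f .ltd (.v 1))))
          (.tr (.f .ltd (.f .un (.p (.v 0) (.v 1)))))) (by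
            intro ρ
            simp only [QF.evU, Tm.evU, eval, zb_eq_one, zfst_pair, zsnd_pair]
            rintro ⟨h2, h3⟩
            exact h2.union h3)
          (fun i' => match i' with | 0 => q η' | _ => q ζ')
        rw [q_fn, q_pr]
        exact h2 ⟨hl1, hl2⟩
      rw [← q_pr, ← q_fn, sd_of ξ _ (Lt_fn ξ _ (Lt_pr ξ _ hη' _ hζ') .un) hl3,
        sd_of ξ ζ' hζ' hl2, ← q_pr, ← q_fn, q_eq]
      rw [← q_fn, q_T] at hl1 hl2
      exact (hstep ξ).sd_coh η' hη' ζ' hζ' hl1 hl2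
    · rintro _ ⟨ξ, rfl⟩ η hη a ha hl hm
      obtain ⟨η', hη', rfl⟩ := (N_iff ξ η).1 hη
      obtain ⟨a', ha', rfl⟩ := (N_iff ξ a).1 ha
      have hm' : A.mem (sd (ei ξ) (q η')) (q a') := hm
      rw [sd_of ξ η' hη' hl, q_mem] at hm'
      rw [← q_fn, q_T] at hl
      rw [← q_pr, ← q_fn, q_T]
      exact (hstep ξ).sd_ultra η' hη' a' ha' hl hm'
    · rintro _ ⟨ξ, rfl⟩ E hE hp
      obtain ⟨E', hE', rfl⟩ := (N_iff ξ E).1 hE
      have hp' := hp
      rw [← q_fn, q_T] at hp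
      obtain ⟨t, ht, h2, h3⟩ := (hstep ξ).sd_gen E' hE' hp
      have h2' : A.mem (q t) (q E') := (q_mem _ _).2 h2
      refine ⟨q t, (N_iff ξ _).2 ⟨t, ht, rfl⟩, h2', ?_⟩
      show A.mem (sd (ei ξ) (A.fn .fst (q t))) (A.fn .snd (q t))
      have hl : A.T (A.fn .ltd (q (.fn .fst t))) := by
        have h4 := A.transfer (.imp (.and (.tr (.f .pred (.v 0))) (.mem (.v 1) (.v 0)))
          (.tr (.f .ltd (.f .fst (.v 1))))) (by
            intro ρ
            simp only [QF.evU, Tm.evU, eval, zb_eq_one]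
            rintro ⟨h4, h5⟩
            exact (h4.1 _ h5).ltd)
          (fun i' => match i' with | 0 => q E' | _ => q t)
        rw [q_fn]
        exact h4 ⟨hp', h2'⟩
      rw [← q_fn, ← q_fn, sd_of ξ _ (Lt_fn ξ t ht .fst) hl, q_mem]
      exact h3
  refine ⟨Q, A, D, e, ?_⟩
  refine
    { pi := hPI
      car := rfl
      emb := ⟨hX, hXp, ⟨one, h1⟩, e_fn, e_pr⟩
      base := rfl
      ix := rfl
      mono := hν
      nu_mem := hνX
      card := (mk_le_of_surjective hq).trans (card_FT hcard)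
      small := ?_
      avoid := ?_
      sched := ?_ }
  · intro ξ
    obtain ⟨h, hh1, hh2⟩ := (hinv ξ).small
    refine (Set.countable_range fun n => q (h n)).mono ?_
    rintro x ⟨hx1, hx2⟩
    obtain ⟨t, ht, rfl⟩ := (N_iff ξ x).1 hx1
    have hH : e H = q (.fn (.prim k) (.base ⟨one, h1⟩)) := by
      rw [e_val _ rfl]
      show e H = e (P k one)
      rw [hk]
    rw [hH, q_mem] at hx2
    obtain ⟨n, hn⟩ := hh2 t ht hx2
    exact ⟨n, ((q_eq _ _).2 hn).symm⟩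
  · intro r hr x hread
    obtain ⟨t, rfl⟩ := hq x
    obtain ⟨ξ, hξ⟩ := exists_Lt t
    apply (hinv ξ).avoid r hr t hξ
    intro n
    have h2 := hread n
    rw [← q_tt] at h2
    show (termPA h1 T).eq (.fn .app (.pr t (.fn (numC n) (.base ⟨one, h1⟩))))
      (.fn (numC (r n)) (.base ⟨one, h1⟩))
    rw [← q_eq, q_fn, q_pr, q_fn, q_fn]
    exact h2
  · intro x hx
    obtain ⟨t, rfl⟩ := hq x
    have hx' := hx
    rw [← q_fn, q_T] at hx
    refine (hsched t hx).mono ?_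
    rintro ξ ⟨ht, t', ht', ht'L, he⟩
    have he' : q t = q t' := (q_eq _ _).2 he
    show A.mem (sd (ei ξ) (A.fn .fst (q t))) (A.fn .snd (q t))
    rw [he'] at hx' ⊢
    have hl : A.T (A.fn .ltd (q (.fn .fst t'))) := by
      have h4 := A.transfer (.imp (.tr (.f .cond (.v 0))) (.tr (.f .ltd (.f .fst (.v 0))))) (by
          intro ρ
          simp only [QF.evU, Tm.evU, eval, zb_eq_one]
          intro h4
          exact h4.ltd)
        (fun _ => q t')
      rw [q_fn]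
      exact h4 hx'
    rw [← q_fn, ← q_fn, sd_of ξ _ (Lt_fn ξ t' ht'L .fst) hl, q_mem]
    exact (hstep ξ).sd_cond t' ht'

end H94W
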