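import Pool.Agent.Lib.H94W.Terms

/-!
# Project Woodin, chunk N2: one step of the long iteration

`nf ξ` is a homomorphism (up to equality) from the terms `t` with `mx t ≤ ξ` to the names over the
terms with `mx t < ξ`, so all quantifier-free truths of the ultrapower are pulled back.
(`B.fn`, `B.pr`, `B.tt`, `jn`, `sdn`, `(ult B G).fn`, `(ult B G).pr` do not depend on the truth
predicate `T` and on `G`, by `rfl`.)
-/

set_option autoImplicit false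

namespace H94W

open Ordinal Cardinal ZFSet

universe u v w

variable {X : Set ZFSet.{u}}

/-- The terms below `ξ`. -/
def Lt (X : Set ZFSet.{u}) (ξ : I1.{u}) : Set (FT X) := {t | t.mx < (ξ : WithBot I1.{u})}

/-- The terms up to `ξ`. -/
def Le1 (X : Set ZFSet.{u}) (ξ : I1.{u}) : Set (FT X) := {t | t.mx ≤ (ξ : WithBot I1.{u})}

/-- The facts on the step `ξ`. -/
structure StepOut (δ : Ordinal.{u}) (P : ℕ → ZFSet.{u} → ZFSet.{u}) (B : PA (FT X))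
    (ξ : I1.{u}) (G : Set (FT X)) : Prop where
  isOn : B.IsOn δ P (Le1 X ξ)
  name : ∀ t ∈ Le1 X ξ, ∃ η ∈ Lt X ξ, ∃ f ∈ Lt X ξ, B.T (.fn .ltd η) ∧
    B.eq t (.fn .app (.pr f (.sd ξ η)))
  sd_congr : ∀ η ∈ Lt X ξ, ∀ ζ ∈ Lt X ξ, B.T (.fn .ltd η) → B.eq η ζ →
    B.eq (.sd ξ η) (.sd ξ ζ)
  sd_mem : ∀ η ∈ Lt X ξ, B.T (.fn .ltd η) → B.mem (.sd ξ η) (.fn .dom η)
  sd_coh : ∀ η ∈ Lt X ξ, ∀ ζ ∈ Lt X ξ, B.T (.fn .ltd η) → B.T (.fn .ltd ζ) →
    B.eq (.fn .restr (.pr (.sd ξ (.fn .un (.pr η ζ))) ζ)) (.sd ξ ζ)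
  sd_ultra : ∀ η ∈ Lt X ξ, ∀ a ∈ Lt X ξ, B.T (.fn .ltd η) → B.mem (.sd ξ η) a →
    B.T (.fn .stat (.pr η a))
  sd_gen : ∀ E ∈ Lt X ξ, B.T (.fn .pred E) →
    ∃ t ∈ Lt X ξ, B.mem t E ∧ B.mem (.sd ξ (.fn .fst t)) (.fn .snd t)
  sd_cond : ∀ t ∈ G, B.mem (.sd ξ (.fn .fst t)) (.fn .snd t)
  /-- values of names, needed for the avoidance of reals -/
  reads : ∀ η ∈ Lt X ξ, ∀ f ∈ Lt X ξ, B.T (.fn .ltd η) → ∀ r : ℕ → ℕ,
    Reads B (.fn .app (.pr f (.sd ξ η))) r → Reads (ult B G) (η, f) r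

/-! ### Pulling back truths along a homomorphism into an algebra -/

theorem isOn_of_hom {δ : Ordinal.{u}} {P : ℕ → ZFSet.{u} → ZFSet.{u}} {M : Type v} {Q : Type w}
    {B : PA M} {S : Set M} (A : Alg δ P Q) (h : M → Q) (h_tt : B.tt ∈ S)
    (h_fn : ∀ x ∈ S, ∀ c, B.fn c x ∈ S) (h_pr : ∀ x ∈ S, ∀ y ∈ S, B.pr x y ∈ S)
    (e_tt : h B.tt = A.tt) (e_fn : ∀ x c, h (B.fn c x) = A.fn c (h x))
    (e_pr : ∀ x y, h (B.pr x y) = A.pr (h x) (h y))
    (e_T : ∀ x ∈ S, B.T x ↔ A.T (h x)) : B.IsOn δ P S := by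
  refine ⟨h_tt, h_fn, h_pr, ?_, ?_⟩
  · intro φ hφ ρ hρ
    have h1 := A.transfer φ hφ (fun i => h (ρ i))
    have hev : ∀ t : Tm, B.evT ρ t ∈ S ∧ h (B.evT ρ t) = A.evT (fun i => h (ρ i)) t := by
      intro t
      induction t with
      | v i => exact ⟨hρ i, rfl⟩
      | f c t ih =>
        refine ⟨h_fn _ ih.1 c, ?_⟩
        show h (B.fn c (B.evT ρ t)) = A.fn c _
        rw [e_fn, ih.2]
      | p s t ih1 ih2 =>
        refine ⟨h_pr _ ih1.1 _ ih2.1, ?_⟩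
        show h (B.pr (B.evT ρ s) (B.evT ρ t)) = A.pr _ _
        rw [e_pr, ih1.2, ih2.2]
    have key : ∀ φ : QF, A.evQ (fun i => h (ρ i)) φ ↔ B.evQ ρ φ := by
      intro φ
      induction φ with
      | tr t =>
        show A.T (A.evT _ t) ↔ B.T (B.evT ρ t)
        rw [← (hev t).2]; exact (e_T _ (hev t).1).symm
      | eq s t =>
        show A.evT _ s = A.evT _ t ↔ B.T (B.fn .eq (B.pr (B.evT ρ s) (B.evT ρ t)))
        rw [e_T _ (h_fn _ (h_pr _ (hev s).1 _ (hev t).1) _), e_fn, e_pr, (hev s).2, (hev t).2]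
        exact (A.T_eq _ _).symm
      | mem s t =>
        show A.T (A.fn .mem (A.pr (A.evT _ s) (A.evT _ t))) ↔
          B.T (B.fn .mem (B.pr (B.evT ρ s) (B.evT ρ t)))
        rw [e_T _ (h_fn _ (h_pr _ (hev s).1 _ (hev t).1) _), e_fn, e_pr, (hev s).2, (hev t).2]
      | not φ ih => exact not_congr ih
      | and φ ψ ih1 ih2 => exact and_congr ih1 ih2
      | or φ ψ ih1 ih2 => exact or_congr ih1 ih2
      | imp φ ψ ih1 ih2 => exact imp_congr ih1 ih2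
    exact (key φ).1 h1
  · rw [e_T _ h_tt, e_tt]
    exact rfl

/-! ### Facts on `clipL` and `Ltd` -/

theorem eval_clipL (δ : Ordinal.{u}) (P : ℕ → ZFSet.{u} → ZFSet.{u}) (x : ZFSet.{u}) :
    eval δ P clipL x = ZFSet.sep (fun _ => Ltd δ x) x := by
  simp only [clipL, eval, zfst_pair, zsnd_pair, zb_eq_one]

theorem eval_clipL_of_ltd {δ : Ordinal.{u}} (P : ℕ → ZFSet.{u} → ZFSet.{u}) {x : ZFSet.{u}}
    (hx : Ltd δ x) : eval δ P clipL x = x := by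
  rw [eval_clipL]
  ext y
  rw [mem_sep]
  exact ⟨fun h => h.1, fun h => ⟨h, hx⟩⟩

theorem ltd_clipL {δ : Ordinal.{u}} (hδ : 0 < δ) (P : ℕ → ZFSet.{u} → ZFSet.{u}) (x : ZFSet.{u}) :
    Ltd δ (eval δ P clipL x) := by
  by_cases hx : Ltd δ x
  · rw [eval_clipL_of_ltd P hx]; exact hx
  · refine ⟨0, hδ, ?_⟩
    rw [eval_clipL]
    ext y
    rw [mem_sep]
    constructor
    · intro h
      exact absurd h.2 hx
    · intro h
      rw [Ordinal.mem_toZFSet_iff] at h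
      obtain ⟨a, ha, -⟩ := h
      exact absurd ha (not_lt.2 zero_le)

/-! ### The step -/

theorem step_out {δ : Ordinal.{u}} (hδ : 0 < δ) {P : ℕ → ZFSet.{u} → ZFSet.{u}}
    (h1 : (one : ZFSet.{u}) ∈ X) (T : FT X → Prop) (ξ : I1.{u}) (G : Set (FT X))
    (hG : G ⊆ Lt X ξ) (hS : (termPA h1 T).IsOn δ P (Lt X ξ))
    (hU : UltProps δ P (termPA h1 T) (Lt X ξ) G)
    (hT : ∀ t : FT X, t.mx = (ξ : WithBot I1.{u}) →
      (T t ↔ (ult (termPA h1 T) G).T (nf h1 ξ t)))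
    (hGc : ∀ t ∈ G, (termPA h1 T).T (.fn .cond t)) :
    StepOut δ P (termPA h1 T) ξ G := by
  classical
  have hb : ∀ x : X, FT.base x ∈ Lt X ξ := fun x => WithBot.bot_lt_coe _
  -- normal forms
  have nf_lt : ∀ t ∈ Lt X ξ, nf h1 ξ t = jn (termPA h1 T) t := by
    intro t ht
    cases t with
    | base x => rfl
    | sd ζ η =>
      have ht' : max (ζ : WithBot I1.{u}) η.mx < ξ := ht
      simp only [nf, if_pos ht']
      rfl
    | fn c t =>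
      have ht' : t.mx < (ξ : WithBot I1.{u}) := ht
      simp only [nf, if_pos ht']
      rfl
    | pr s t =>
      have ht' : max s.mx t.mx < (ξ : WithBot I1.{u}) := ht
      simp only [nf, if_pos ht']
      rfl
  have nf_sd : ∀ η ∈ Lt X ξ, nf h1 ξ (.sd ξ η) = sdn (termPA h1 T) (.fn clipL η) := by
    intro η hη
    have h2 : ¬ max (ξ : WithBot I1.{u}) η.mx < ξ := fun h => lt_irrefl _ (lt_of_le_of_lt (le_max_left _ _) h)
    have hη' : η.mx < (ξ : WithBot I1.{u}) := hη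
    simp only [nf, if_neg h2, true_and, if_pos hη']
    rfl
  have nf_fn : ∀ c t, t ∉ Lt X ξ → nf h1 ξ (.fn c t) = (ult (termPA h1 T) G).fn c (nf h1 ξ t) := by
    intro c t ht
    have ht' : ¬ t.mx < (ξ : WithBot I1.{u}) := ht
    simp only [nf, if_neg ht']
    rfl
  have nf_pr : ∀ s t, FT.pr s t ∉ Lt X ξ →
      nf h1 ξ (.pr s t) = (ult (termPA h1 T) G).pr (nf h1 ξ s) (nf h1 ξ t) := by
    intro s t ht
    have ht' : ¬ max s.mx t.mx < (ξ : WithBot I1.{u}) := ht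
    simp only [nf, if_neg ht']
    rfl
  -- facts on `clipL`
  have clip_eq : ∀ η ∈ Lt X ξ, (termPA h1 T).T (.fn .ltd η) →
      (termPA h1 T).eq (.fn clipL η) η := by
    intro η hη hl
    exact hS.valid (.imp (.tr (.f .ltd (.v 0))) (.eq (.f clipL (.v 0)) (.v 0))) (by
      intro ρ h
      exact eval_clipL_of_ltd P (zb_eq_one.1 h)) (as4 η η η η) (as4_mem hη hη hη hη) hl
  have clip_ltd : ∀ η ∈ Lt X ξ, (termPA h1 T).T (.fn .ltd (.fn clipL η)) := by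
    intro η hη
    exact hS.valid (.tr (.f .ltd (.f clipL (.v 0)))) (by
      intro ρ
      exact zb_true (ltd_clipL hδ P _)) (as4 η η η η) (as4_mem hη hη hη hη)
  -- names
  have nf_mem : ∀ t, nf h1 ξ t ∈ names (termPA h1 T) (Lt X ξ) := by
    intro t
    induction t with
    | base x => exact hU.jn_mem _ (hb x)
    | sd ζ η _ =>
      by_cases h : FT.sd ζ η ∈ Lt X ξ
      · rw [nf_lt _ h]
        exact hU.jn_mem _ h
      · have h' : ¬ max (ζ : WithBot I1.{u}) η.mx < ξ := h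
        by_cases h2 : ζ = ξ ∧ η.mx < (ξ : WithBot I1.{u})
        · obtain ⟨rfl, h2⟩ := h2
          rw [nf_sd η h2]
          exact hU.sdn_mem_names _ (hS.fn η h2 clipL) (clip_ltd η h2)
        · simp only [nf, if_neg h', if_neg h2]
          exact hU.jn_mem _ (hb _)
    | fn c t ih =>
      by_cases h : t ∈ Lt X ξ
      · rw [nf_lt _ (show FT.fn c t ∈ Lt X ξ from h)]
        exact hU.jn_mem _ h
      · rw [nf_fn c t h]
        exact hU.isOn.fn _ ih c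
    | pr s t ih1 ih2 =>
      by_cases h : FT.pr s t ∈ Lt X ξ
      · rw [nf_lt _ h]
        exact hU.jn_mem _ h
      · rw [nf_pr s t h]
        exact hU.isOn.pr _ ih1 _ ih2
  -- the quotient of the ultrapower
  obtain ⟨Q, A, q, -, -, q_tt, q_fn, q_pr, q_eq, q_T⟩ :=
    PA.exists_quotient (ult (termPA h1 T) G) (names (termPA h1 T) (Lt X ξ)) hU.isOn
  let h : FT X → Q := fun t => q (nf h1 ξ t)
  have jn_q : ∀ t ∈ Lt X ξ, h t = q (jn (termPA h1 T) t) := by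
    intro t ht
    show q (nf h1 ξ t) = _
    rw [nf_lt t ht]
  have e_tt : h (termPA h1 T).tt = A.tt := by
    rw [jn_q _ hS.tt, (q_eq _ (hU.jn_mem _ hS.tt) _ hU.isOn.tt).2 hU.jn_tt, q_tt]
  have e_fn : ∀ x c, h (.fn c x) = A.fn c (h x) := by
    intro x c
    by_cases hx : x ∈ Lt X ξ
    · rw [jn_q x hx, jn_q _ (show FT.fn c x ∈ Lt X ξ from hx), ← q_fn _ (hU.jn_mem _ hx) c]
      exact (q_eq _ (hU.jn_mem _ (hS.fn x hx c)) _ (hU.isOn.fn _ (hU.jn_mem _ hx) c)).2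
        (hU.jn_fn x hx c)
    · show q (nf h1 ξ (.fn c x)) = A.fn c (q (nf h1 ξ x))
      rw [nf_fn c x hx, q_fn _ (nf_mem x) c]
  have e_pr : ∀ x y, h (.pr x y) = A.pr (h x) (h y) := by
    intro x y
    by_cases hxy : FT.pr x y ∈ Lt X ξ
    · have hxy' : max x.mx y.mx < (ξ : WithBot I1.{u}) := hxy
      have hx : x ∈ Lt X ξ := (max_lt_iff.1 hxy').1
      have hy : y ∈ Lt X ξ := (max_lt_iff.1 hxy').2
      rw [jn_q x hx, jn_q y hy, jn_q _ hxy, ← q_pr _ (hU.jn_mem _ hx) _ (hU.jn_mem _ hy)]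
      exact (q_eq _ (hU.jn_mem _ hxy) _ (hU.isOn.pr _ (hU.jn_mem _ hx) _ (hU.jn_mem _ hy))).2
        (hU.jn_pr x hx y hy)
    · show q (nf h1 ξ (.pr x y)) = A.pr (q (nf h1 ξ x)) (q (nf h1 ξ y))
      rw [nf_pr x y hxy, q_pr _ (nf_mem x) _ (nf_mem y)]
  have e_T : ∀ x ∈ Le1 X ξ, T x ↔ A.T (h x) := by
    intro x hx
    rw [q_T _ (nf_mem x)]
    rcases lt_or_eq_of_le (show x.mx ≤ (ξ : WithBot I1.{u}) from hx) with h2 | h2
    · rw [nf_lt x h2, hU.T_jn x h2]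
      exact Iff.rfl
    · exact hT x h2
  have hLL : ∀ x ∈ Lt X ξ, x ∈ Le1 X ξ := by
    intro x hx
    have hx' : x.mx < (ξ : WithBot I1.{u}) := hx
    exact hx'.le
  have hon : (termPA h1 T).IsOn δ P (Le1 X ξ) :=
    isOn_of_hom A h (hLL _ hS.tt) (fun x hx c => hx) (fun x hx y hy => by
      have hx' : x.mx ≤ (ξ : WithBot I1.{u}) := hx
      have hy' : y.mx ≤ (ξ : WithBot I1.{u}) := hy
      exact max_le hx' hy') e_tt e_fn e_pr e_T
  have fnL : ∀ x ∈ Le1 X ξ, ∀ c, FT.fn c x ∈ Le1 X ξ := fun x hx c => hx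
  have prL : ∀ x ∈ Le1 X ξ, ∀ y ∈ Le1 X ξ, FT.pr x y ∈ Le1 X ξ := fun x hx y hy =>
    hon.pr x hx y hy
  have sdLe : ∀ η ∈ Lt X ξ, FT.sd ξ η ∈ Le1 X ξ := by
    intro η hη
    have hη' : η.mx < (ξ : WithBot I1.{u}) := hη
    exact max_le le_rfl hη'.le
  have e_eq : ∀ x ∈ Le1 X ξ, ∀ y ∈ Le1 X ξ, (termPA h1 T).eq x y ↔ h x = h y := by
    intro x hx y hy
    have h2 := e_T (.fn .eq (.pr x y)) (hon.fn _ (hon.pr x hx y hy) _)
    rw [e_fn, e_pr, A.T_eq] at h2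
    exact h2
  have e_mem : ∀ x ∈ Le1 X ξ, ∀ y ∈ Le1 X ξ, (termPA h1 T).mem x y ↔ A.mem (h x) (h y) := by
    intro x hx y hy
    have h2 := e_T (.fn .mem (.pr x y)) (hon.fn _ (hon.pr x hx y hy) _)
    rw [e_fn, e_pr] at h2
    exact h2
  -- the seeds
  have h_sd : ∀ η ∈ Lt X ξ, (termPA h1 T).T (.fn .ltd η) → h (.sd ξ η) = q (sdn (termPA h1 T) η) := by
    intro η hη hl
    show q (nf h1 ξ (.sd ξ η)) = _
    rw [nf_sd η hη]
    exact (q_eq _ (hU.sdn_mem_names _ (hS.fn η hη clipL) (clip_ltd η hη)) _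
      (hU.sdn_mem_names η hη hl)).2
      (hU.sdn_congr _ (hS.fn η hη clipL) _ hη (clip_ltd η hη) (clip_eq η hη hl))
  have q_mem : ∀ u ∈ names (termPA h1 T) (Lt X ξ), ∀ w ∈ names (termPA h1 T) (Lt X ξ),
      ((ult (termPA h1 T) G).mem u w ↔ A.mem (q u) (q w)) := by
    intro u hu w hw
    have h2 := q_T _ (hU.isOn.fn _ (hU.isOn.pr u hu w hw) .mem)
    rw [q_fn _ (hU.isOn.pr u hu w hw), q_pr u hu w hw] at h2
    exact h2.symm
  have h_app : ∀ η ∈ Lt X ξ, ∀ f ∈ Lt X ξ, (termPA h1 T).T (.fn .ltd η) →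
      h (.fn .app (.pr f (.sd ξ η))) = q (η, f) := by
    intro η hη f hf hl
    have hn : (η, f) ∈ names (termPA h1 T) (Lt X ξ) := ⟨hη, hf, hl⟩
    have h2 := hU.name_eq (η, f) hn
    have hp := hU.isOn.pr _ (hU.jn_mem f hf) _ (hU.sdn_mem_names η hη hl)
    rw [e_fn, e_pr, h_sd η hη hl, jn_q f hf, ← q_pr _ (hU.jn_mem f hf) _
      (hU.sdn_mem_names η hη hl), ← q_fn _ hp]
    exact ((q_eq _ hn _ (hU.isOn.fn _ hp _)).2 h2).symm
  have h_num : ∀ n, h (.fn (numC n) (termPA h1 T).tt) = A.fn (numC n) A.tt := by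
    intro n
    rw [e_fn, e_tt]
  refine ⟨hon, ?_, ?_, ?_, ?_, ?_, ?_, ?_, ?_⟩
  · -- name
    intro t ht
    obtain ⟨hη, hf, hl⟩ := nf_mem t
    refine ⟨(nf h1 ξ t).1, hη, (nf h1 ξ t).2, hf, hl, ?_⟩
    rw [e_eq t ht _ (fnL _ (prL _ (hLL _ hf) _ (sdLe _ hη)) _), h_app _ hη _ hf hl]
  · -- sd_congr
    intro η hη ζ hζ hl he
    have hl' : (termPA h1 T).T (.fn .ltd ζ) := by
      exact hS.valid (.imp (.tr (.f .ltd (.v 0))) (.imp (.eq (.v 0) (.v 1))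
        (.tr (.f .ltd (.v 1))))) (by
        intro ρ h3 h4
        have h4' : ρ 0 = ρ 1 := h4
        have h3' : eval δ P .ltd (ρ 0) = one := h3
        rw [h4'] at h3'
        exact h3') (as4 η ζ η η) (as4_mem hη hζ hη hη) hl he
    rw [e_eq _ (sdLe η hη) _ (sdLe ζ hζ), h_sd η hη hl, h_sd ζ hζ hl']
    exact (q_eq _ (hU.sdn_mem_names η hη hl) _ (hU.sdn_mem_names ζ hζ hl')).2
      (hU.sdn_congr η hη ζ hζ hl he)
  · -- sd_mem
    intro η hη hl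
    rw [e_mem _ (sdLe η hη) _ (fnL _ (hLL _ hη) _), h_sd η hη hl, e_fn, jn_q η hη,
      ← q_fn _ (hU.jn_mem η hη)]
    exact (q_mem _ (hU.sdn_mem_names η hη hl) _ (hU.isOn.fn _ (hU.jn_mem η hη) _)).1
      (hU.sdn_mem η hη hl)
  · -- sd_coh
    intro η hη ζ hζ hl hl'
    have hun : FT.fn .un (.pr η ζ) ∈ Lt X ξ := hS.fn _ (hS.pr η hη ζ hζ) .un
    have hlun : (termPA h1 T).T (.fn .ltd (.fn .un (.pr η ζ))) := by
      exact hS.valid (.imp (.tr (.f .ltd (.v 0))) (.imp (.tr (.f .ltd (.v 1)))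
        (.tr (.f .ltd (.f .un (.p (.v 0) (.v 1))))))) (by
        intro ρ h3 h4
        have h3' : Ltd δ (ρ 0) := zb_eq_one.1 h3
        have h4' : Ltd δ (ρ 1) := zb_eq_one.1 h4
        have h5 : Ltd δ (eval δ P .un (pair (ρ 0) (ρ 1))) := by
          show Ltd δ (zfst (pair (ρ 0) (ρ 1)) ∪ zsnd (pair (ρ 0) (ρ 1)))
          rw [zfst_pair, zsnd_pair]
          exact h3'.union h4'
        exact zb_true h5) (as4 η ζ η η) (as4_mem hη hζ hη hη) hl hl'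
    have hsu := hU.sdn_mem_names _ hun hlun
    have hp := hU.isOn.pr _ hsu _ (hU.jn_mem ζ hζ)
    rw [e_eq _ (fnL _ (prL _ (sdLe _ hun) _ (hLL _ hζ)) _) _ (sdLe ζ hζ), e_fn, e_pr,
      h_sd _ hun hlun, h_sd ζ hζ hl', jn_q ζ hζ, ← q_pr _ hsu _ (hU.jn_mem ζ hζ), ← q_fn _ hp]
    exact (q_eq _ (hU.isOn.fn _ hp _) _ (hU.sdn_mem_names ζ hζ hl')).2
      (hU.sdn_coh η hη ζ hζ hl hl')
  · -- sd_ultra
    intro η hη a ha hl hm
    rw [e_mem _ (sdLe η hη) _ (hLL _ ha), h_sd η hη hl, jn_q a ha] at hm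
    exact hU.sdn_ultra η hη a ha hl
      ((q_mem _ (hU.sdn_mem_names η hη hl) _ (hU.jn_mem a ha)).2 hm)
  · -- sd_gen
    intro E hE hp
    obtain ⟨t, ht, htE, hm⟩ := hU.sdn_gen E hE hp
    have hfst : FT.fn .fst t ∈ Lt X ξ := hS.fn _ ht .fst
    have hsnd : FT.fn .snd t ∈ Lt X ξ := hS.fn _ ht .snd
    have hl : (termPA h1 T).T (.fn .ltd (.fn .fst t)) := by
      exact hS.valid (.imp (.tr (.f .pred (.v 0))) (.imp (.mem (.v 1) (.v 0))
        (.tr (.f .ltd (.f .fst (.v 1)))))) (by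
        intro ρ h3 h4
        have h3' : Pred δ (ρ 0) := zb_eq_one.1 h3
        have h4' : ρ 1 ∈ ρ 0 := h4
        obtain ⟨η, a, hη, -, -, he⟩ := h3'.1 _ h4'
        have h5 : Ltd δ (eval δ P .fst (ρ 1)) := by
          show Ltd δ (zfst (ρ 1))
          rw [he, zfst_pair]
          exact hη
        exact zb_true h5) (as4 E t E E) (as4_mem hE ht hE hE) hp htE
    refine ⟨t, ht, htE, ?_⟩
    rw [e_mem _ (sdLe _ hfst) _ (hLL _ hsnd), h_sd _ hfst hl, jn_q _ hsnd]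
    exact (q_mem _ (hU.sdn_mem_names _ hfst hl) _ (hU.jn_mem _ hsnd)).1 hm
  · -- sd_cond
    intro t ht
    have ht' := hG ht
    have hfst : FT.fn .fst t ∈ Lt X ξ := hS.fn _ ht' .fst
    have hsnd : FT.fn .snd t ∈ Lt X ξ := hS.fn _ ht' .snd
    have hl : (termPA h1 T).T (.fn .ltd (.fn .fst t)) := by
      exact hS.valid (.imp (.tr (.f .cond (.v 0))) (.tr (.f .ltd (.f .fst (.v 0))))) (by
        intro ρ h3
        have h3' : IsCond δ (ρ 0) := zb_eq_one.1 h3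
        obtain ⟨η, a, hη, -, -, he⟩ := h3'
        have h5 : Ltd δ (eval δ P .fst (ρ 0)) := by
          show Ltd δ (zfst (ρ 0))
          rw [he, zfst_pair]
          exact hη
        exact zb_true h5) (as4 t t t t) (as4_mem ht' ht' ht' ht') (hGc t ht)
    rw [e_mem _ (sdLe _ hfst) _ (hLL _ hsnd), h_sd _ hfst hl, jn_q _ hsnd]
    exact (q_mem _ (hU.sdn_mem_names _ hfst hl) _ (hU.jn_mem _ hsnd)).1 (hU.sdn_cond t ht)
  · -- reads
    intro η hη f hf hl r hr n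
    have hn : (η, f) ∈ names (termPA h1 T) (Lt X ξ) := ⟨hη, hf, hl⟩
    have hx : FT.fn .app (.pr f (.sd ξ η)) ∈ Le1 X ξ :=
      fnL _ (prL _ (hLL _ hf) _ (sdLe _ hη)) _
    have hnum : ∀ m, FT.fn (numC m) (termPA h1 T).tt ∈ Le1 X ξ := fun m =>
      fnL _ (hLL _ hS.tt) _
    have h2 : (termPA h1 T).eq (.fn .app (.pr (.fn .app (.pr f (.sd ξ η)))
        (.fn (numC n) (termPA h1 T).tt))) (.fn (numC (r n)) (termPA h1 T).tt) := hr n
    rw [e_eq _ (fnL _ (prL _ hx _ (hnum n)) _) _ (hnum (r n)), e_fn, e_pr, h_num, h_num,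
      h_app η hη f hf hl] at h2
    have hq : ∀ m, (ult (termPA h1 T) G).fn (numC m) (ult (termPA h1 T) G).tt ∈
        names (termPA h1 T) (Lt X ξ) := fun m => hU.isOn.fn _ hU.isOn.tt _
    have hqn : ∀ m, q ((ult (termPA h1 T) G).fn (numC m) (ult (termPA h1 T) G).tt) =
        A.fn (numC m) A.tt := fun m => by rw [q_fn _ hU.isOn.tt, q_tt]
    refine (q_eq _ (hU.isOn.fn _ (hU.isOn.pr _ hn _ (hq n)) _) _ (hq (r n))).1 ?_
    rw [q_fn _ (hU.isOn.pr _ hn _ (hq n)), q_pr _ hn _ (hq n), hqn, hqn]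
    exact h2

end H94W
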