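import Pool.Agent.Lib.H94W.LongAux

/-!
# Project Woodin, chunk N: iterations of length `ω₁`

See the files `Terms`, `LStep`, `LInv`, `LQuot`, `Book`, `LongAux`.  Here the generic filters
`G ξ` are chosen (with bookkeeping) and the invariants are proved by induction.
-/

set_option autoImplicit false

namespace H94W

open Ordinal Cardinal ZFSet

universe u v w

section

variable {X : Set ZFSet.{u}} (h1 : (one : ZFSet.{u}) ∈ X)

/-- `h` enumerates the elements of `H` of the model `Lt X ζ`, up to equality. -/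
def EnumL (k : ℕ) (ζ : I1.{u}) (T : FT X → Prop) (h : ℕ → FT X) : Prop :=
  (∀ n, h n ∈ Lt X ζ) ∧ ∀ x ∈ Lt X ζ,
    (termPA h1 T).mem x ((termPA h1 T).fn (.prim k) (termPA h1 T).tt) →
      ∃ n, (termPA h1 T).eq x (h n)

open Classical in
/-- A chosen enumeration. -/
noncomputable def enL (k : ℕ) (ζ : I1.{u}) (T : FT X → Prop) : ℕ → FT X :=
  if h : ∃ h, EnumL h1 k ζ T h then h.choose else fun _ => .base ⟨one, h1⟩

theorem enL_mem (k : ℕ) (ζ : I1.{u}) (T : FT X → Prop) (n : ℕ) : enL h1 k ζ T n ∈ Lt X ζ := by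
  unfold enL
  split
  · rename_i h
    exact h.choose_spec.1 n
  · exact lt_base _

theorem enL_spec {k : ℕ} {ζ : I1.{u}} {T : FT X → Prop} (h : ∃ h, EnumL h1 k ζ T h) :
    EnumL h1 k ζ T (enL h1 k ζ T) := by
  unfold enL
  rw [dif_pos h]
  exact h.choose_spec

theorem enumL_cut {k : ℕ} {ζ : I1.{u}} {T : FT X → Prop} {h : ℕ → FT X} :
    EnumL h1 k ζ (cut ζ T) h ↔ EnumL h1 k ζ T h := by
  unfold EnumL
  apply and_congr_right
  intro hm
  apply forall_congr'
  intro x
  apply imp_congr_right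
  intro hx
  apply imp_congr
  · exact mem_cut h1 hx (lt_fn (lt_base _) _)
  · apply exists_congr
    intro n
    exact eq_cut h1 hx (hm n)

/-- The trivial condition. -/
noncomputable def trivC : FT X :=
  .pr (.fn (.comp .not .one) (.base ⟨one, h1⟩))
    (.fn .dom (.fn (.comp .not .one) (.base ⟨one, h1⟩)))

open Classical in
/-- The start condition of stage `ξ`. -/
noncomputable def startC (k : ℕ) (b : I1.{u} → I1.{u} × ℕ) (ξ : I1.{u}) (T : FT X → Prop) : FT X :=
  if (b ξ).1 < ξ ∧ T (.fn .cond (enL h1 k (b ξ).1 (cut (b ξ).1 T) (b ξ).2)) then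
    enL h1 k (b ξ).1 (cut (b ξ).1 T) (b ξ).2
  else trivC h1

theorem startC_mem (k : ℕ) (b : I1.{u} → I1.{u} × ℕ) (ξ : I1.{u}) (T : FT X → Prop) :
    startC h1 k b ξ T ∈ Lt X ξ := by
  unfold startC
  split
  · rename_i h
    exact lt_of_lt_of_le (enL_mem h1 k _ _ _) (WithBot.coe_le_coe.2 h.1.le)
  · exact lt_pr (lt_fn (lt_base _) _) (lt_fn (lt_fn (lt_base _) _) _)

/-- The requirements for the generic filter of stage `ξ`. -/
def GoodG (k : ℕ) (b : I1.{u} → I1.{u} × ℕ) (C : Set (ℕ → ℕ)) (ξ : I1.{u}) (T : FT X → Prop)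
    (G : Set (FT X)) : Prop :=
  GenF (termPA h1 T) (Lt X ξ) G ∧ startC h1 k b ξ T ∈ G ∧
    ∀ i j, (enL h1 k ξ T i, enL h1 k ξ T j) ∈ names (termPA h1 T) (Lt X ξ) → ∀ r ∈ C,
      ¬ Reads (ult (termPA h1 T) G) (enL h1 k ξ T i, enL h1 k ξ T j) r

open Classical in
/-- The choice of the generic filter. -/
noncomputable def ruleL (k : ℕ) (b : I1.{u} → I1.{u} × ℕ) (C : Set (ℕ → ℕ)) (ξ : I1.{u})
    (T : FT X → Prop) : Set (FT X) :=
  if h : ∃ G, GoodG h1 k b C ξ T G then h.choose else ∅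

theorem ruleL_spec {k : ℕ} {b : I1.{u} → I1.{u} × ℕ} {C : Set (ℕ → ℕ)} {ξ : I1.{u}}
    {T : FT X → Prop} (h : ∃ G, GoodG h1 k b C ξ T G) :
    GoodG h1 k b C ξ T (ruleL h1 k b C ξ T) := by
  unfold ruleL
  rw [dif_pos h]
  exact h.choose_spec

end

theorem exists_long {δ : Ordinal.{u}} (hδ : ω < δ) :
    ∃ E : ℕ → ZFSet.{u} → ZFSet.{u}, ∀ P, Has P E → ∀ H, Nice δ H → (∃ k, P k = fun _ => H) →
      ∀ X : Set ZFSet.{u}, (∀ x ∈ X, ∀ c, eval δ P c x ∈ X) → (∀ x ∈ X, ∀ y ∈ X, pair x y ∈ X) →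
      X.Nonempty → #X ≤ ℵ₁ → {x | x ∈ X ∧ x ∈ H}.Countable →
      ∀ ν : Set.Iio (ω_ 1 : Ordinal.{u}) → Ordinal.{u}, StrictMono ν →
      (∀ ξ, (ν ξ).toZFSet ∈ X) →
      ∀ C : Set (ℕ → ℕ), C.Countable →
      (∀ r ∈ C, ∀ x ∈ X, ¬ ∀ n : ℕ, zapp x (n : Ordinal.{u}).toZFSet = (r n : Ordinal.{u}).toZFSet) →
      ∃ (M : Type (u + 1)) (A : Alg δ P M) (D : PD M) (e : ZFSet.{u} → M),
        IsLong δ P H X ν C A D e := by
  classical
  have h0 : (0 : Ordinal.{u}) < δ := lt_trans Ordinal.omega0_pos hδ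
  obtain ⟨E1, hE1⟩ := ult_props.{u, u + 1} h0
  obtain ⟨E2, hE2⟩ := exists_generic.{u, u + 1} δ h0
  obtain ⟨E3, hE3⟩ := inv_step.{u} hδ
  obtain ⟨b, hb⟩ := exists_book.{u}
  refine ⟨mixL E1 (mixL E2 E3), ?_⟩
  rintro P hP H hH ⟨k, hk⟩ X hX hXp hXne hcard hXH ν hν hνX C hC hCX
  have hP1 := hP.mixl
  have hP2 := hP.mixr.mixl
  have hP3 := hP.mixr.mixr
  have h1 : (one : ZFSet.{u}) ∈ X := by
    obtain ⟨x, hx⟩ := hXne
    exact hX x hx .one
  obtain ⟨T, G, hG, hbot, hTG⟩ := exists_truth h1 δ P (ruleL h1 k b C)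
  set B := termPA h1 T with hB
  -- one stage
  have stage : ∀ ξ : I1.{u}, Inv δ P B k C (Lt X ξ) →
      EnumL h1 k ξ T (enL h1 k ξ (cut ξ T)) ∧ GenF B (Lt X ξ) (G ξ) ∧
      startC h1 k b ξ (cut ξ T) ∈ G ξ ∧ StepOut δ P B ξ (G ξ) ∧ Inv δ P B k C (Le1 X ξ) := by
    intro ξ hξ
    have hon : B.IsOn δ P (Lt X ξ) := hξ.isOn
    have hon' : (termPA h1 (cut ξ T)).IsOn δ P (Lt X ξ) := (isOn_cut h1).2 hon
    have hen : EnumL h1 k ξ (cut ξ T) (enL h1 k ξ (cut ξ T)) := by
      apply enL_spec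
      obtain ⟨h, hh1, hh2⟩ := hξ.small
      exact ⟨h, (enumL_cut h1).2 ⟨hh1, hh2⟩⟩
    have hen' : EnumL h1 k ξ T (enL h1 k ξ (cut ξ T)) := (enumL_cut h1).1 hen
    have hgood : ∃ G, GoodG h1 k b C ξ (cut ξ T) G := by
      set B' := termPA h1 (cut ξ T) with hB'
      let enL' := enL h1 k ξ (cut ξ T)
      have htrivN : (ult B' ∅).tt ∈ names B' (Lt X ξ) := by
        refine ⟨(ult_tt_mem h1).1, (ult_tt_mem h1).2, ?_⟩
        exact hon'.valid (.tr (.f .ltd (.f (.comp .not .one) (.v 0)))) (by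
          intro ρ
          simp only [QF.evU, Tm.evU, eval, zb_eq_one]
          exact ⟨0, h0, by simp [zb]⟩) (fun _ => B'.tt) (fun _ => hon'.tt)
      let u : ℕ → FT X × FT X := fun n =>
        if (enL' n.unpair.1, enL' n.unpair.2) ∈ names B' (Lt X ξ) then
          (enL' n.unpair.1, enL' n.unpair.2) else (ult B' ∅).tt
      have hu : ∀ n, u n ∈ names B' (Lt X ξ) := by
        intro n
        by_cases h : (enL' n.unpair.1, enL' n.unpair.2) ∈ names B' (Lt X ξ)
        · simp only [u, if_pos h]; exact h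
        · simp only [u, if_neg h]; exact htrivN
      have hpred : ∀ E ∈ Lt X ξ, B'.T (B'.fn .pred E) → ∃ n, B'.eq E (enL' n) := by
        intro E hE hp
        apply hen.2 E hE
        exact hon'.valid (.imp (.tr (.f .pred (.v 0))) (.mem (.v 0) (.f (.prim k) (.v 1)))) (by
          intro ρ
          simp only [QF.evU, Tm.evU, eval, zb_eq_one, hk]
          exact fun h => pred_mem_nice hH h) (Gen.vec B'.tt [E])
          (Gen.vec_mem hon'.tt _ (by simp [hE])) hp
      have havoid : ∀ r ∈ C, ∀ x ∈ Lt X ξ, ¬ Reads B' x r := by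
        intro r hr x hx hread
        apply hξ.avoid r hr x hx
        intro n
        exact (eq_cut h1 (lt_fn (lt_pr hx (lt_fn (lt_base _) _)) _) (lt_fn (lt_base _) _)).1
          (hread n)
      have hst : B'.T (B'.fn .cond (startC h1 k b ξ (cut ξ T))) := by
        unfold startC
        split
        · rename_i h
          exact h.2
        · exact hon'.valid (.tr (.f .cond (.p (.f (.comp .not .one) (.v 0))
            (.f .dom (.f (.comp .not .one) (.v 0)))))) (by
            intro ρ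
            have e0 : (zb ((one : ZFSet.{u}) ≠ one) : ZFSet.{u}) = ∅ := zb_false (by simp)
            show zb (IsCond δ (pair (zb ((one : ZFSet.{u}) ≠ one)) (DOM (zb ((one : ZFSet.{u}) ≠ one))))) = one
            rw [e0, zb_eq_one]
            exact isCond_triv h0) (fun _ => B'.tt) (fun _ => hon'.tt)
      obtain ⟨G', hG1, hG2, hG3⟩ := hE2 P hP2 _ B' (Lt X ξ) hon' enL' (enL_mem h1 k ξ _) hpred u hu C
        hC havoid (startC h1 k b ξ (cut ξ T)) (startC_mem h1 k b ξ _) hst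
      refine ⟨G', hG1, hG2, ?_⟩
      intro i j hij r hr
      have := hG3 r hr (Nat.pair i j)
      have e : u (Nat.pair i j) = (enL' i, enL' j) := by
        simp only [u, Nat.unpair_pair]
        rw [if_pos hij]
      rwa [e] at this
    have hspec := ruleL_spec h1 hgood
    rw [← hG ξ] at hspec
    obtain ⟨hgen', hst, hread'⟩ := hspec
    have hgen : GenF B (Lt X ξ) (G ξ) := (genF_cut h1).1 hgen'
    have hU : UltProps δ P B (Lt X ξ) (G ξ) := hE1 P hP1 _ B _ _ hon hgen
    have hstep : StepOut δ P B ξ (G ξ) := by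
      apply step_out h0 h1 T ξ (G ξ) hgen.sub hon hU _ hgen.cond
      intro t ht
      rw [hTG ξ t ht]
      exact GU_cut h1 hgen.sub (nf_mem_LL h1 ξ t).1
        (lt_fn (lt_pr (lt_fn (nf_mem_LL h1 ξ t).1 _) (nf_mem_LL h1 ξ t).2) _)
    refine ⟨hen', hgen, hst, hstep, ?_⟩
    apply hE3 P hP3 H hH k hk X h1 T C ξ (G ξ) hξ hstep _ hen'.1 hen'.2
    intro i j hij r hr
    have hij' : (enL h1 k ξ (cut ξ T) i, enL h1 k ξ (cut ξ T) j) ∈
        names (termPA h1 (cut ξ T)) (Lt X ξ) :=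
      ⟨hij.1, hij.2.1, (cut_iff (lt_fn hij.1 _)).2 hij.2.2⟩
    have := hread' i j hij' r hr
    rwa [reads_cut h1 hgen.sub ⟨hij.1, hij.2.1⟩] at this
  -- the invariants
  have inv : ∀ ξ : I1.{u}, Inv δ P B k C (Lt X ξ) := by
    intro ξ
    induction ξ using WellFoundedLT.induction with
    | ind ξ ih =>
      have hc : Countable (Set.Iio ξ) := countable_Iio_I1 ξ
      let S : WithBot (Set.Iio ξ) → Set (FT X) := fun i =>
        match i with
        | ⊥ => {t | t.mx = ⊥}
        | (ζ : Set.Iio ξ) => Le1 X ζ.1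
      have hS : Monotone S := by
        intro i j hij
        cases i with
        | bot =>
          cases j with
          | bot => exact fun _ h => h
          | coe ζ =>
            intro t ht
            have ht' : t.mx = ⊥ := ht
            show t.mx ≤ _
            rw [ht']; exact bot_le
        | coe ζ =>
          cases j with
          | bot => exact absurd hij (not_le.2 (WithBot.bot_lt_coe ζ))
          | coe ζ' =>
            have h2 : ζ ≤ ζ' := WithBot.coe_le_coe.1 hij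
            intro t ht
            have ht' : t.mx ≤ ζ.1 := ht
            exact ht'.trans (WithBot.coe_le_coe.2 h2)
      have hinv : ∀ i, Inv δ P B k C (S i) := by
        intro i
        cases i with
        | bot => exact inv_base δ P H k hk hX hXp h1 hXH C hCX T hbot
        | coe ζ => exact (stage ζ.1 (ih ζ.1 ζ.2)).2.2.2.2
      have hLt : Lt X ξ = ⋃ i, S i := by
        ext t
        rw [Set.mem_iUnion]
        constructor
        · intro ht
          have ht' : t.mx < ξ := ht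
          cases hm : t.mx with
          | bot => exact ⟨⊥, hm⟩
          | coe ζ =>
            rw [hm] at ht'
            refine ⟨((⟨ζ, WithBot.coe_lt_coe.1 ht'⟩ : Set.Iio ξ) : WithBot (Set.Iio ξ)), ?_⟩
            show t.mx ≤ _
            rw [hm]
        · rintro ⟨i, hi⟩
          cases i with
          | bot =>
            have hi' : t.mx = ⊥ := hi
            show t.mx < _
            rw [hi']; exact WithBot.bot_lt_coe _
          | coe ζ =>
            have hi' : t.mx ≤ ζ.1 := hi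
            exact lt_of_le_of_lt hi' (WithBot.coe_lt_coe.2 ζ.2)
      rw [hLt]
      have : Countable (WithBot (Set.Iio ξ)) := inferInstanceAs (Countable (Option _))
      exact inv_union δ P B k C S hS hinv
  -- the scheduling
  have hsched : ∀ t : FT X, T (.fn .cond t) → IsStationary {ξ : I1.{u} | t ∈ Lt X ξ ∧
      ∃ t' ∈ G ξ, t' ∈ Lt X ξ ∧ B.eq t t'} := by
    intro t ht
    obtain ⟨ζ, hζ⟩ : ∃ ζ : I1.{u}, t ∈ Lt X ζ := exists_mem_Lt t
    have hon := (inv ζ).isOn
    have hen := (stage ζ (inv ζ)).1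
    have htH : B.mem t (B.fn (.prim k) B.tt) :=
      hon.valid (.imp (.tr (.f .cond (.v 0))) (.mem (.v 0) (.f (.prim k) (.v 1)))) (by
        intro ρ
        simp only [QF.evU, Tm.evU, eval, zb_eq_one, hk]
        exact fun h => cond_mem_nice hH h) (Gen.vec B.tt [t])
        (Gen.vec_mem hon.tt _ (by simp [hζ])) ht
    obtain ⟨n, hn⟩ := hen.2 t hζ htH
    refine (hb (ζ, n)).mono ?_
    rintro ξ ⟨hbξ, hlt⟩
    have hlt' : ζ < ξ := hlt
    have hle : (ζ : WithBot I1.{u}) ≤ ξ := WithBot.coe_le_coe.2 hlt'.le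
    refine ⟨lt_of_lt_of_le hζ hle, enL h1 k ζ (cut ζ T) n, ?_,
      lt_of_lt_of_le (enL_mem h1 k ζ _ n) hle, hn⟩
    have hst := (stage ξ (inv ξ)).2.2.1
    have hcond : T (.fn .cond (enL h1 k ζ (cut ζ T) n)) := by
      exact Gen.T_congr hon (lt_fn hζ _) (lt_fn (enL_mem h1 k ζ _ n) _)
        (Gen.fn_congr hon hζ (enL_mem h1 k ζ _ n) _ hn) ht
    have e1 : startC h1 k b ξ (cut ξ T) = enL h1 k ζ (cut ζ T) n := by
      unfold startC
      rw [hbξ]
      simp only
      rw [cut_cut hlt'.le, if_pos]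
      refine ⟨hlt', lt_of_lt_of_le (lt_fn (enL_mem h1 k ζ _ n) _) hle, hcond⟩
    rw [e1] at hst
    exact hst
  exact isLong_of_terms hδ k hk hX hXp h1 hcard ν hν hνX C T G hbot inv
    (fun ξ => (stage ξ (inv ξ)).2.2.2.1) hsched

end H94W
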