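import Pool.Agent.Lib.H94W.LQuot
import Pool.Agent.Lib.H94W.Book

/-!
# Project Woodin, chunk N: auxiliary lemmas for the long iteration
-/

set_option autoImplicit false

namespace H94W

open Ordinal Cardinal ZFSet

universe u v w

/-! ### Lists of functions -/

/-- The union of two lists. -/
def mixL (E E' : ℕ → ZFSet.{u} → ZFSet.{u}) : ℕ → ZFSet.{u} → ZFSet.{u} :=
  fun n => if n % 2 = 0 then E (n / 2) else E' (n / 2)

theorem Has.mixl {P E E' : ℕ → ZFSet.{u} → ZFSet.{u}} (h : Has P (mixL E E')) : Has P E := by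
  intro n
  obtain ⟨k, hk⟩ := h (2 * n)
  refine ⟨k, ?_⟩
  rw [hk]
  unfold mixL
  rw [if_pos (by omega)]
  congr 1
  omega

theorem Has.mixr {P E E' : ℕ → ZFSet.{u} → ZFSet.{u}} (h : Has P (mixL E E')) : Has P E' := by
  intro n
  obtain ⟨k, hk⟩ := h (2 * n + 1)
  refine ⟨k, ?_⟩
  rw [hk]
  unfold mixL
  rw [if_neg (by omega)]
  congr 1
  omega

/-! ### Changing the truth predicate outside a set -/

section congr

variable {X : Set ZFSet.{u}} (h1 : (one : ZFSet.{u}) ∈ X)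

theorem lt_fn {ξ : I1.{u}} {t : FT X} (h : t ∈ Lt X ξ) (c : Code) : FT.fn c t ∈ Lt X ξ := h

theorem lt_pr {ξ : I1.{u}} {s t : FT X} (hs : s ∈ Lt X ξ) (ht : t ∈ Lt X ξ) :
    FT.pr s t ∈ Lt X ξ := by
  show max s.mx t.mx < _
  exact max_lt hs ht

theorem lt_base {ξ : I1.{u}} (x : X) : FT.base x ∈ Lt X ξ := WithBot.bot_lt_coe ξ

theorem cut_iff {ξ : I1.{u}} {T : FT X → Prop} {t : FT X} (h : t ∈ Lt X ξ) : cut ξ T t ↔ T t :=
  ⟨fun h' => h'.2, fun h' => ⟨h, h'⟩⟩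

variable {ξ : I1.{u}} {T : FT X → Prop}

theorem evT_mem {T : FT X → Prop} {ρ : ℕ → FT X} (hρ : ∀ i, ρ i ∈ Lt X ξ) :
    ∀ t : Tm, (termPA h1 T).evT ρ t ∈ Lt X ξ
  | .v i => hρ i
  | .f c t => lt_fn (evT_mem hρ t) c
  | .p s t => lt_pr (evT_mem hρ s) (evT_mem hρ t)

theorem evT_cut {ρ : ℕ → FT X} :
    ∀ t : Tm, (termPA h1 (cut ξ T)).evT ρ t = (termPA h1 T).evT ρ t
  | .v i => rfl
  | .f c t => by
    show FT.fn c _ = FT.fn c _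
    rw [evT_cut t]
  | .p s t => by
    show FT.pr _ _ = FT.pr _ _
    rw [evT_cut s, evT_cut t]

theorem eq_cut {x y : FT X} (hx : x ∈ Lt X ξ) (hy : y ∈ Lt X ξ) :
    (termPA h1 (cut ξ T)).eq x y ↔ (termPA h1 T).eq x y :=
  cut_iff (lt_fn (lt_pr hx hy) _)

theorem mem_cut {x y : FT X} (hx : x ∈ Lt X ξ) (hy : y ∈ Lt X ξ) :
    (termPA h1 (cut ξ T)).mem x y ↔ (termPA h1 T).mem x y :=
  cut_iff (lt_fn (lt_pr hx hy) _)

theorem evQ_cut {ρ : ℕ → FT X} (hρ : ∀ i, ρ i ∈ Lt X ξ) :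
    ∀ φ : QF, (termPA h1 (cut ξ T)).evQ ρ φ ↔ (termPA h1 T).evQ ρ φ
  | .tr t => by
    show cut ξ T _ ↔ T _
    rw [evT_cut, cut_iff (evT_mem h1 hρ t)]
  | .eq s t => by
    show (termPA h1 (cut ξ T)).eq _ _ ↔ (termPA h1 T).eq _ _
    rw [evT_cut, evT_cut, eq_cut h1 (evT_mem h1 hρ s) (evT_mem h1 hρ t)]
  | .mem s t => by
    show (termPA h1 (cut ξ T)).mem _ _ ↔ (termPA h1 T).mem _ _
    rw [evT_cut, evT_cut, mem_cut h1 (evT_mem h1 hρ s) (evT_mem h1 hρ t)]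
  | .not φ => not_congr (evQ_cut hρ φ)
  | .and φ ψ => and_congr (evQ_cut hρ φ) (evQ_cut hρ ψ)
  | .or φ ψ => or_congr (evQ_cut hρ φ) (evQ_cut hρ ψ)
  | .imp φ ψ => imp_congr (evQ_cut hρ φ) (evQ_cut hρ ψ)

theorem isOn_cut {δ : Ordinal.{u}} {P : ℕ → ZFSet.{u} → ZFSet.{u}} :
    (termPA h1 (cut ξ T)).IsOn δ P (Lt X ξ) ↔ (termPA h1 T).IsOn δ P (Lt X ξ) := by
  constructor
  · intro h
    exact ⟨h.tt, h.fn, h.pr, fun φ hφ ρ hρ => (evQ_cut h1 hρ φ).1 (h.valid φ hφ ρ hρ),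
      (cut_iff (lt_base _)).1 h.T_tt⟩
  · intro h
    exact ⟨h.tt, h.fn, h.pr, fun φ hφ ρ hρ => (evQ_cut h1 hρ φ).2 (h.valid φ hφ ρ hρ),
      (cut_iff (lt_base _)).2 h.T_tt⟩

theorem genF_cut {G : Set (FT X)} :
    GenF (termPA h1 (cut ξ T)) (Lt X ξ) G ↔ GenF (termPA h1 T) (Lt X ξ) G := by
  constructor
  · intro h
    refine ⟨h.sub, fun t ht => (h.cond t ht).2, ?_, h.ne, ?_⟩
    · intro t ht t' ht'
      obtain ⟨s, hs, h2, h3⟩ := h.dir t ht t' ht'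
      exact ⟨s, hs, h2.2, h3.2⟩
    · intro E hE hp
      obtain ⟨t, ht, d, hd, h2, h3⟩ := h.gen E hE ⟨hE, hp⟩
      exact ⟨t, ht, d, hd, h2.2, h3.2⟩
  · intro h
    refine ⟨h.sub, fun t ht => ⟨lt_fn (h.sub ht) _, h.cond t ht⟩, ?_, h.ne, ?_⟩
    · intro t ht t' ht'
      obtain ⟨s, hs, h2, h3⟩ := h.dir t ht t' ht'
      exact ⟨s, hs, ⟨lt_fn (lt_pr (h.sub hs) (h.sub ht)) _, h2⟩,
        ⟨lt_fn (lt_pr (h.sub hs) (h.sub ht')) _, h3⟩⟩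
    · intro E hE hp
      obtain ⟨t, ht, d, hd, h2, h3⟩ := h.gen E hE hp.2
      exact ⟨t, ht, d, hd, ⟨lt_fn (lt_pr hd hE) _, h2⟩, ⟨lt_fn (lt_pr (h.sub ht) hd) _, h3⟩⟩

theorem GU_cut {G : Set (FT X)} (hG : G ⊆ Lt X ξ) {η a : FT X} (hη : η ∈ Lt X ξ)
    (ha : a ∈ Lt X ξ) : GU (termPA h1 (cut ξ T)) G η a ↔ GU (termPA h1 T) G η a := by
  unfold GU
  constructor
  · rintro ⟨t, ht, h⟩; exact ⟨t, ht, h.2⟩
  · rintro ⟨t, ht, h⟩
    exact ⟨t, ht, lt_fn (lt_pr (hG ht) (lt_pr hη ha)) _, h⟩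

/-- Pairs of terms below `ξ`. -/
def LL (X : Set ZFSet.{u}) (ξ : I1.{u}) : Set (FT X × FT X) := {u | u.1 ∈ Lt X ξ ∧ u.2 ∈ Lt X ξ}

theorem ult_fn_mem {T : FT X → Prop} {G : Set (FT X)} {u : FT X × FT X} (hu : u ∈ LL X ξ)
    (c : Code) : (ult (termPA h1 T) G).fn c u ∈ LL X ξ :=
  ⟨hu.1, lt_fn (lt_pr (lt_fn hu.1 _) hu.2) _⟩

theorem ult_pr_mem {T : FT X → Prop} {G : Set (FT X)} {u w : FT X × FT X} (hu : u ∈ LL X ξ)
    (hw : w ∈ LL X ξ) : (ult (termPA h1 T) G).pr u w ∈ LL X ξ :=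
  ⟨lt_fn (lt_pr hu.1 hw.1) _,
    lt_fn (lt_pr (lt_fn (lt_fn (lt_pr hu.1 hw.1) _) _)
      (lt_pr (lt_pr hu.1 hu.2) (lt_pr hw.1 hw.2))) _⟩

theorem ult_tt_mem {T : FT X → Prop} {G : Set (FT X)} :
    (ult (termPA h1 T) G).tt ∈ LL X ξ :=
  ⟨lt_fn (lt_base _) _, lt_fn (lt_pr (lt_fn (lt_fn (lt_base _) _) _) (lt_base _)) _⟩

theorem ult_T_cut {G : Set (FT X)} (hG : G ⊆ Lt X ξ) {u : FT X × FT X} (hu : u ∈ LL X ξ) :
    (ult (termPA h1 (cut ξ T)) G).T u ↔ (ult (termPA h1 T) G).T u :=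
  GU_cut h1 hG hu.1 (lt_fn (lt_pr (lt_fn hu.1 _) hu.2) _)

theorem reads_cut {G : Set (FT X)} (hG : G ⊆ Lt X ξ) {u : FT X × FT X} (hu : u ∈ LL X ξ)
    (r : ℕ → ℕ) :
    Reads (ult (termPA h1 (cut ξ T)) G) u r ↔ Reads (ult (termPA h1 T) G) u r := by
  unfold Reads
  apply forall_congr'
  intro n
  unfold PA.eq
  exact ult_T_cut h1 hG (ult_fn_mem h1 (G := G) (T := T)
    (ult_pr_mem h1 (ult_fn_mem h1 (ult_pr_mem h1 hu (ult_fn_mem h1 (ult_tt_mem h1) _)) _)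
      (ult_fn_mem h1 (ult_tt_mem h1) _)) _)

theorem jn_mem_LL {T : FT X → Prop} {t : FT X} (ht : t ∈ Lt X ξ) :
    jn (termPA h1 T) t ∈ LL X ξ :=
  ⟨lt_fn (lt_base _) _, lt_fn (lt_pr (lt_fn (lt_fn (lt_base _) _) _) ht) _⟩

theorem sdn_mem_LL {T : FT X → Prop} {t : FT X} (ht : t ∈ Lt X ξ) :
    sdn (termPA h1 T) t ∈ LL X ξ :=
  ⟨ht, lt_fn (lt_pr (lt_fn ht _) (lt_base _)) _⟩

theorem nf_mem_LL (ξ : I1.{u}) : ∀ t : FT X, nf h1 ξ t ∈ LL X ξ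
  | .base x => jn_mem_LL h1 (lt_base x)
  | .sd ζ η => by
    unfold nf
    split
    · rename_i h
      exact jn_mem_LL h1 h
    · split
      · rename_i h
        exact sdn_mem_LL h1 (lt_fn h.2 _)
      · exact jn_mem_LL h1 (lt_base _)
  | .fn c t => by
    unfold nf
    split
    · rename_i h
      exact jn_mem_LL h1 (lt_fn h _)
    · exact ult_fn_mem h1 (nf_mem_LL ξ t) c
  | .pr s t => by
    unfold nf
    split
    · rename_i h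
      exact jn_mem_LL h1 h
    · exact ult_pr_mem h1 (nf_mem_LL ξ s) (nf_mem_LL ξ t)

end congr

/-! ### Conditions and predense sets are in nice sets -/

theorem rank_cond {δ : Ordinal.{u}} {t : ZFSet.{u}} (h : IsCond δ t) :
    rank t ≤ Order.succ (Order.succ δ) := by
  obtain ⟨η, a, ⟨α, hα, rfl⟩, ha, _, rfl⟩ := h
  have h1 : rank a ≤ δ := by
    rw [rank_le_iff]
    intro x hx
    have h2 := ha hx
    unfold DOM at h2
    rw [mem_sep, mem_powerset, rank_toZFSet] at h2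
    have h3 : rank x ≤ α := by
      rw [rank_le_iff]
      intro y hy
      exact mem_vonNeumann.1 (h2.1 hy)
    exact h3.trans_lt hα
  have e : ZFSet.pair α.toZFSet a = {{α.toZFSet}, {α.toZFSet, a}} := rfl
  rw [e, rank_pair, rank_singleton, rank_pair, rank_toZFSet]
  have h4 : max (Order.succ α) (Order.succ (rank a)) ≤ Order.succ δ :=
    max_le (Order.succ_le_succ hα.le) (Order.succ_le_succ h1)
  apply max_le
  · exact Order.succ_le_succ (Order.succ_le_succ hα.le)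
  · exact Order.succ_le_succ h4

theorem cond_mem_nice {δ : Ordinal.{u}} {H t : ZFSet.{u}} (hH : Nice δ H) (h : IsCond δ t) :
    t ∈ H := by
  obtain ⟨θ, rfl, hδ, hθ, _⟩ := hH
  rw [mem_vonNeumann]
  exact (rank_cond h).trans_lt (hθ.succ_lt (hθ.succ_lt hδ))

theorem pred_mem_nice {δ : Ordinal.{u}} {H D : ZFSet.{u}} (hH : Nice δ H) (h : Pred δ D) :
    D ∈ H := by
  obtain ⟨θ, rfl, hδ, hθ, _⟩ := hH
  rw [mem_vonNeumann]
  have h1 : rank D ≤ Order.succ (Order.succ (Order.succ δ)) := by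
    rw [rank_le_iff]
    intro t ht
    exact Order.lt_succ_iff.2 (rank_cond (h.1 t ht))
  exact h1.trans_lt (hθ.succ_lt (hθ.succ_lt (hθ.succ_lt hδ)))

theorem isCond_triv {δ : Ordinal.{u}} (hδ : 0 < δ) : IsCond δ (pair ∅ (DOM ∅)) :=
  ⟨∅, DOM ∅, ⟨0, hδ, by simp⟩, fun _ h => h, stat_DOM _, rfl⟩

theorem countable_Iio_I1 (ξ : I1.{u}) : Countable (Set.Iio ξ) := by
  have h1 := fodor_countable_Iio ξ.2
  have h2 : (Set.Iio ξ).Countable := by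
    have h3 : Set.Iio ξ = (fun x : I1.{u} => x.1) ⁻¹' Set.Iio ξ.1 := rfl
    rw [h3]
    exact h1.preimage Subtype.val_injective
  exact h2.to_subtype

theorem exists_gt_I1 (ξ : I1.{u}) : ∃ ζ : I1.{u}, ξ < ζ := by
  have h1 : Order.IsSuccLimit (ω_ 1 : Ordinal.{u}) := Cardinal.isSuccLimit_omega 1
  exact ⟨⟨Order.succ ξ.1, h1.succ_lt ξ.2⟩, Order.lt_succ ξ.1⟩

theorem exists_mem_Lt {X : Set ZFSet.{u}} (t : FT X) : ∃ ζ : I1.{u}, t ∈ Lt X ζ := by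
  cases h : t.mx with
  | bot =>
    have : Nonempty I1.{u} := ⟨⟨0, Ordinal.omega_pos 1⟩⟩
    obtain ⟨ζ⟩ := this
    refine ⟨ζ, ?_⟩
    show t.mx < _
    rw [h]; exact WithBot.bot_lt_coe _
  | coe ξ =>
    obtain ⟨ζ, hζ⟩ := exists_gt_I1 ξ
    refine ⟨ζ, ?_⟩
    show t.mx < _
    rw [h]; exact WithBot.coe_lt_coe.2 hζ

end H94W
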