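import Pool.Agent.Lib.H94W.Defs

/-!
# Project Woodin, chunk D2: stretching by a measure

Let `𝒢` be a countable family containing `F` and closed under the operation
`F ↦ ((κ, h) ↦ zlam κ (fun ν => F (zapp h ν)))`, containing constant functions
`(κ, x) ↦ zlam κ (fun _ => x)`, the identity on `κ`, pairing
`(κ, (h, h')) ↦ zlam κ (fun ν => pair (zapp h ν) (zapp h' ν))`, and the function `h ↦ c_h`, where
`c_h ∈ H` is such that `{ν | clip (zapp h ν) = c_h}` is of measure one (`clip` replaces values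
outside `H` by a fixed element of `H`).  By recursion on `ξ < ω₁` choose `ν_ξ < κ` in all the
sets `{ν | clip (zapp h ν) = c_h}`, `h ∈ X_ξ`, and above all `ν_ζ`, `ζ < ξ`, where `X_ξ` is
the closure of `X₀ ∪ {κ} ∪ {ν_ζ | ζ < ξ}` under `𝒢` and pairing (countable).  Then
`X_{ξ+1} = {zapp h ν_ξ | h ∈ X_ξ}` and so `X_{ξ+1} ∩ H = X_ξ ∩ H`.  At limits take unions.
-/

set_option autoImplicit false

namespace H94W

open Ordinal Cardinal ZFSet

universe u v w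

/-- `μ` is a countably complete measure on `κ`, containing the tails, such that all functions
into `H` are constant on a set of measure one. -/
def IsMeas (κ : Ordinal.{u}) (H : ZFSet.{u}) (μ : Set (Set Ordinal.{u})) : Prop :=
  (∀ s : ℕ → Set Ordinal.{u}, (∀ n, s n ∈ μ) → ∃ ν < κ, ∀ n, ν ∈ s n) ∧
  (∀ α < κ, {ν | α < ν} ∈ μ) ∧
  ∀ g : Ordinal.{u} → ZFSet.{u}, (∀ ν, g ν ∈ H) → ∃ c ∈ H, {ν | g ν = c} ∈ μ

namespace Stretch

/-- The closure of `S` under the functions `G i` and under pairing. -/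
inductive Cl {ι : Type w} (G : ι → ZFSet.{u} → ZFSet.{u}) (S : Set ZFSet.{u}) : ZFSet.{u} → Prop
  | base {x : ZFSet.{u}} (h : x ∈ S) : Cl G S x
  | fn (i : ι) {x : ZFSet.{u}} (h : Cl G S x) : Cl G S (G i x)
  | pr {x y : ZFSet.{u}} (h : Cl G S x) (h' : Cl G S y) : Cl G S (pair x y)

theorem Cl.mono {ι : Type w} {G : ι → ZFSet.{u} → ZFSet.{u}} {S S' : Set ZFSet.{u}}
    (h : S ⊆ S') {x : ZFSet.{u}} (hx : Cl G S x) : Cl G S' x := by
  induction hx with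
  | base h1 => exact .base (h h1)
  | fn i _ ih => exact .fn i ih
  | pr _ _ ih ih' => exact .pr ih ih'

/-- One step of the closure. -/
def stp {ι : Type w} (G : ι → ZFSet.{u} → ZFSet.{u}) (C : Set ZFSet.{u}) : Set ZFSet.{u} :=
  C ∪ (⋃ i, G i '' C) ∪ Set.image2 pair C C

/-- The iterates of the closure. -/
def iter {ι : Type w} (G : ι → ZFSet.{u} → ZFSet.{u}) (S : Set ZFSet.{u}) : ℕ → Set ZFSet.{u}
  | 0 => S
  | n + 1 => stp G (iter G S n)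

theorem iter_mono {ι : Type w} (G : ι → ZFSet.{u} → ZFSet.{u}) (S : Set ZFSet.{u}) :
    Monotone (iter G S) := by
  refine monotone_nat_of_le_succ fun n => ?_
  intro x hx
  exact Or.inl (Or.inl hx)

theorem Cl.mem_iter {ι : Type w} {G : ι → ZFSet.{u} → ZFSet.{u}} {S : Set ZFSet.{u}}
    {x : ZFSet.{u}} (hx : Cl G S x) : ∃ n, x ∈ iter G S n := by
  induction hx with
  | base h1 => exact ⟨0, h1⟩
  | fn i _ ih =>
    obtain ⟨n, hn⟩ := ih
    exact ⟨n + 1, Or.inl (Or.inr (Set.mem_iUnion.2 ⟨i, _, hn, rfl⟩))⟩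
  | pr _ _ ih ih' =>
    obtain ⟨n, hn⟩ := ih
    obtain ⟨m, hm⟩ := ih'
    refine ⟨max n m + 1, Or.inr ⟨_, iter_mono G S (le_max_left n m) hn, _,
      iter_mono G S (le_max_right n m) hm, rfl⟩⟩

theorem countable_Cl {ι : Type w} [Countable ι] (G : ι → ZFSet.{u} → ZFSet.{u})
    {S : Set ZFSet.{u}} (hS : S.Countable) : {x | Cl G S x}.Countable := by
  have h1 : ∀ n, (iter G S n).Countable := by
    intro n
    induction n with
    | zero => exact hS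
    | succ n ih =>
      refine Set.Countable.union (Set.Countable.union ih ?_) (ih.image2 ih _)
      exact Set.countable_iUnion fun i => ih.image _
  refine (Set.countable_iUnion h1).mono ?_
  intro x hx
  exact Set.mem_iUnion.2 (Cl.mem_iter hx)

/-- Indices of the functions used in the construction. -/
inductive GI : Type
  | F (n : ℕ)
  | star (g : GI)
  | prd
  | const
  | idf
  | cc
  deriving Countable

/-- The functions used in the construction. -/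
noncomputable def GF (F : ℕ → ZFSet.{u} → ZFSet.{u}) (c : ZFSet.{u} → ZFSet.{u}) :
    GI → ZFSet.{u} → ZFSet.{u}
  | .F n, x => F n x
  | .star g, p => zlam (zfst p) (fun y => GF F c g (zapp (zsnd p) y))
  | .prd, p => zlam (zfst p) (fun y => pair (zapp (zfst (zsnd p)) y) (zapp (zsnd (zsnd p)) y))
  | .const, p => zlam (zfst p) (fun _ => zsnd p)
  | .idf, x => zlam x (fun y => y)
  | .cc, h => c h

section

variable {F : ℕ → ZFSet.{u} → ZFSet.{u}} {c : ZFSet.{u} → ZFSet.{u}} {κ : ZFSet.{u}}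

/-- The step of the construction. -/
theorem step {S : Set ZFSet.{u}} {ν : ZFSet.{u}} (hκ : κ ∈ S) (hν : ν ∈ κ) {x : ZFSet.{u}}
    (hx : Cl (GF F c) (insert ν S) x) : ∃ h, Cl (GF F c) S h ∧ x = zapp h ν := by
  have hk : Cl (GF F c) S κ := .base hκ
  induction hx with
  | @base x h1 =>
    rcases h1 with rfl | h1
    · refine ⟨_, .fn .idf hk, ?_⟩
      simp only [GF]
      rw [zapp_zlam hν]
    · refine ⟨_, .fn .const (.pr hk (.base h1)), ?_⟩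
      simp only [GF, zfst_pair, zsnd_pair]
      rw [zapp_zlam hν]
  | fn i _ ih =>
    obtain ⟨h, hh, rfl⟩ := ih
    refine ⟨_, .fn (.star i) (.pr hk hh), ?_⟩
    simp only [GF, zfst_pair, zsnd_pair]
    rw [zapp_zlam hν]
  | pr _ _ ih ih' =>
    obtain ⟨h, hh, rfl⟩ := ih
    obtain ⟨h', hh', rfl⟩ := ih'
    refine ⟨_, .fn .prd (.pr hk (.pr hh hh')), ?_⟩
    simp only [GF, zfst_pair, zsnd_pair]
    rw [zapp_zlam hν]

end

end Stretch

open Stretch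

theorem stretch {κ : Ordinal.{u}} {H : ZFSet.{u}} {μ : Set (Set Ordinal.{u})}
    (hμ : IsMeas κ H μ) (hH : H.Nonempty) (F : ℕ → ZFSet.{u} → ZFSet.{u})
    (X₀ : Set ZFSet.{u}) (hX₀ : X₀.Countable) :
    ∃ (X : Set ZFSet.{u}) (ν : Set.Iio (ω_ 1 : Ordinal.{u}) → Ordinal.{u}),
      X₀ ⊆ X ∧ κ.toZFSet ∈ X ∧ (∀ n, ∀ x ∈ X, F n x ∈ X) ∧ (∀ x ∈ X, ∀ y ∈ X, pair x y ∈ X) ∧
      #X ≤ ℵ₁ ∧ {x | x ∈ X ∧ x ∈ H}.Countable ∧ StrictMono ν ∧
      ∀ ξ, ν ξ < κ ∧ (ν ξ).toZFSet ∈ X := by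
  classical
  obtain ⟨h₀, hh₀⟩ := hH
  obtain ⟨hμ1, hμ2, hμ3⟩ := hμ
  -- the constant value of a function with domain `κ`
  have hc : ∀ h : ZFSet.{u}, ∃ c ∈ H,
      {ν : Ordinal.{u} | (if zapp h ν.toZFSet ∈ H then zapp h ν.toZFSet else h₀) = c} ∈ μ := by
    intro h
    refine hμ3 _ fun ν => ?_
    split_ifs with h1
    · exact h1
    · exact hh₀
  choose c hcH hcμ using hc
  -- nonemptiness of countable intersections of sets of measure one
  have hinter : ∀ T : Set (Set Ordinal.{u}), T.Countable → T ⊆ μ → ∃ ν < κ, ∀ s ∈ T, ν ∈ s := by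
    intro T hT hTμ
    rcases T.eq_empty_or_nonempty with rfl | hne
    · have := hμ1 (fun _ => {ν : Ordinal.{u} |
        (if zapp ∅ ν.toZFSet ∈ H then zapp ∅ ν.toZFSet else h₀) = c ∅}) (fun _ => hcμ ∅)
      obtain ⟨ν, h1, _⟩ := this
      exact ⟨ν, h1, fun s hs => absurd hs (Set.notMem_empty _)⟩
    · obtain ⟨f, rfl⟩ := hT.exists_eq_range hne
      obtain ⟨ν, h1, h2⟩ := hμ1 f fun n => hTμ ⟨n, rfl⟩
      refine ⟨ν, h1, ?_⟩
      rintro _ ⟨n, rfl⟩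
      exact h2 n
  -- the generators
  let ι := Set.Iio (ω_ 1 : Ordinal.{u})
  let Sg : ι → (ι → Ordinal.{u}) → Set ZFSet.{u} := fun ξ ν =>
    insert κ.toZFSet X₀ ∪ {x | ∃ ζ < ξ, x = (ν ζ).toZFSet}
  have hIio : ∀ ξ : ι, (Set.Iio ξ).Countable := by
    intro ξ
    have h1 : (Set.Iio (ξ : Ordinal.{u})).Countable := by
      rw [← Cardinal.le_aleph0_iff_set_countable, Cardinal.mk_Iio_ordinal]
      have h2 : (ξ : Ordinal.{u}).card < ℵ₁ := by
        rw [← Cardinal.lt_ord, Cardinal.ord_aleph]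
        exact ξ.2
      rw [← Cardinal.succ_aleph0, Order.lt_succ_iff] at h2
      exact Cardinal.lift_le_aleph0.2 h2
    refine Set.countable_of_injective_of_countable_image (f := fun ζ : ι => (ζ : Ordinal.{u}))
      (Subtype.val_injective.injOn) (h1.mono ?_)
    rintro _ ⟨ζ, hζ, rfl⟩
    exact hζ
  have hSgc : ∀ ξ ν, (Sg ξ ν).Countable := by
    intro ξ ν
    refine Set.Countable.union (hX₀.insert _) ?_
    have : {x : ZFSet.{u} | ∃ ζ < ξ, x = (ν ζ).toZFSet} = (fun ζ => (ν ζ).toZFSet) '' Set.Iio ξ := by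
      ext x
      constructor
      · rintro ⟨ζ, h1, rfl⟩; exact ⟨ζ, h1, rfl⟩
      · rintro ⟨ζ, h1, rfl⟩; exact ⟨ζ, h1, rfl⟩
    rw [this]
    exact (hIio ξ).image _
  -- existence of the next element
  have hex : ∀ (ξ : ι) (ν : ι → Ordinal.{u}), (∀ ζ < ξ, ν ζ < κ) → ∃ α < κ,
      (∀ h, Cl (GF F c) (Sg ξ ν) h →
        (if zapp h α.toZFSet ∈ H then zapp h α.toZFSet else h₀) = c h) ∧
      ∀ ζ < ξ, ν ζ < α := by
    intro ξ ν hν
    let T : Set (Set Ordinal.{u}) :=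
      ((fun h => {α : Ordinal.{u} | (if zapp h α.toZFSet ∈ H then zapp h α.toZFSet else h₀) = c h})
        '' {h | Cl (GF F c) (Sg ξ ν) h}) ∪ ((fun ζ => {α | ν ζ < α}) '' Set.Iio ξ)
    have hT : T.Countable :=
      ((countable_Cl _ (hSgc ξ ν)).image _).union ((hIio ξ).image _)
    have hTμ : T ⊆ μ := by
      rintro s (⟨h, _, rfl⟩ | ⟨ζ, hζ, rfl⟩)
      · exact hcμ h
      · exact hμ2 _ (hν ζ hζ)
    obtain ⟨α, h1, h2⟩ := hinter T hT hTμ
    exact ⟨α, h1, fun h hh => h2 _ (Or.inl ⟨h, hh, rfl⟩), fun ζ hζ => h2 _ (Or.inr ⟨ζ, hζ, rfl⟩)⟩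
  -- the recursion
  have hSgcongr : ∀ (ξ : ι) (ν ν' : ι → Ordinal.{u}), (∀ ζ < ξ, ν ζ = ν' ζ) → Sg ξ ν = Sg ξ ν' := by
    intro ξ ν ν' h
    show _ ∪ _ = _ ∪ _
    congr 1
    ext x
    constructor
    · rintro ⟨ζ, h1, rfl⟩; exact ⟨ζ, h1, by rw [h ζ h1]⟩
    · rintro ⟨ζ, h1, rfl⟩; exact ⟨ζ, h1, by rw [h ζ h1]⟩
  have hex' : ∀ (ξ : ι) (f : ∀ ζ : ι, ζ < ξ → Set.Iio κ), ∃ α : Set.Iio κ,
      (∀ h, Cl (GF F c) (Sg ξ (fun ζ => if h : ζ < ξ then (f ζ h : Ordinal.{u}) else 0)) h →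
        (if zapp h (α : Ordinal.{u}).toZFSet ∈ H then zapp h (α : Ordinal.{u}).toZFSet else h₀)
          = c h) ∧
      ∀ ζ (h : ζ < ξ), f ζ h < α := by
    intro ξ f
    obtain ⟨α, h1, h2, h3⟩ := hex ξ (fun ζ => if h : ζ < ξ then (f ζ h : Ordinal.{u}) else 0)
      (by
        intro ζ hζ
        rw [dif_pos hζ]
        exact (f ζ hζ).2)
    refine ⟨⟨α, h1⟩, h2, ?_⟩
    intro ζ hζ
    have := h3 ζ hζ
    rw [dif_pos hζ] at this
    exact this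
  choose nxt hnxt using hex'
  have wf : WellFounded ((· < ·) : ι → ι → Prop) := wellFounded_lt
  let ν : ι → Set.Iio κ := wf.fix (C := fun _ => Set.Iio κ) (fun ξ f => nxt ξ f)
  have hν : ∀ ξ : ι, (∀ h, Cl (GF F c) (Sg ξ (fun ζ => (ν ζ : Ordinal.{u}))) h →
        (if zapp h (ν ξ : Ordinal.{u}).toZFSet ∈ H then zapp h (ν ξ : Ordinal.{u}).toZFSet else h₀)
          = c h) ∧
      ∀ ζ, ζ < ξ → ν ζ < ν ξ := by
    intro ξ
    have e : ν ξ = nxt ξ (fun ζ _ => ν ζ) := wf.fix_eq _ _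
    have h := hnxt ξ (fun ζ _ => ν ζ)
    rw [← e] at h
    refine ⟨?_, h.2⟩
    intro g hg
    refine h.1 g ?_
    rw [hSgcongr ξ _ (fun ζ => (ν ζ : Ordinal.{u}))]
    · exact hg
    · intro ζ hζ
      rw [dif_pos hζ]
  -- the bottom set of generators
  have hbot : ∀ (ξ : ι) (x : ZFSet.{u}), Cl (GF F c) (Sg ξ (fun ζ => (ν ζ : Ordinal.{u}))) x →
      Cl (GF F c) (insert κ.toZFSet X₀) x ∨ ∃ ζ < ξ, Cl (GF F c)
        (insert (ν ζ : Ordinal.{u}).toZFSet (Sg ζ (fun ζ => (ν ζ : Ordinal.{u})))) x := by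
    intro ξ x hx
    have hle : ∀ ζ ζ' : ι, ζ ≤ ζ' →
        insert (ν ζ : Ordinal.{u}).toZFSet (Sg ζ (fun ζ => (ν ζ : Ordinal.{u}))) ⊆
        insert (ν ζ' : Ordinal.{u}).toZFSet (Sg ζ' (fun ζ => (ν ζ : Ordinal.{u}))) := by
      intro ζ ζ' h
      rintro y (rfl | hy | ⟨a, ha, rfl⟩)
      · rcases h.lt_or_eq with h1 | rfl
        · exact Or.inr (Or.inr ⟨ζ, h1, rfl⟩)
        · exact Or.inl rfl
      · exact Or.inr (Or.inl hy)
      · exact Or.inr (Or.inr ⟨a, ha.trans_le h, rfl⟩)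
    induction hx with
    | base h1 =>
      rcases h1 with h1 | ⟨ζ, hζ, rfl⟩
      · exact Or.inl (.base h1)
      · exact Or.inr ⟨ζ, hζ, .base (Or.inl rfl)⟩
    | fn i _ ih =>
      rcases ih with ih | ⟨ζ, hζ, ih⟩
      · exact Or.inl (.fn i ih)
      · exact Or.inr ⟨ζ, hζ, .fn i ih⟩
    | pr _ _ ih ih' =>
      rcases ih with ih | ⟨ζ, hζ, ih⟩
      · rcases ih' with ih' | ⟨ζ', hζ', ih'⟩
        · exact Or.inl (.pr ih ih')
        · exact Or.inr ⟨ζ', hζ', .pr (ih.mono fun y hy => Or.inr (Or.inl hy)) ih'⟩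
      · rcases ih' with ih' | ⟨ζ', hζ', ih'⟩
        · exact Or.inr ⟨ζ, hζ, .pr ih (ih'.mono fun y hy => Or.inr (Or.inl hy))⟩
        · refine Or.inr ⟨max ζ ζ', max_lt hζ hζ', .pr (ih.mono (hle _ _ (le_max_left _ _)))
            (ih'.mono (hle _ _ (le_max_right _ _)))⟩
  -- the trace on `H` does not grow
  have htr : ∀ (ξ : ι) (x : ZFSet.{u}), Cl (GF F c) (Sg ξ (fun ζ => (ν ζ : Ordinal.{u}))) x →
      x ∈ H → Cl (GF F c) (insert κ.toZFSet X₀) x := by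
    intro ξ
    induction ξ using wf.induction with
    | _ ξ IH =>
      intro x hx hxH
      rcases hbot ξ x hx with h1 | ⟨ζ, hζ, h1⟩
      · exact h1
      · have hκS : κ.toZFSet ∈ Sg ζ (fun ζ => (ν ζ : Ordinal.{u})) := Or.inl (Or.inl rfl)
        have hνκ : (ν ζ : Ordinal.{u}).toZFSet ∈ κ.toZFSet :=
          Ordinal.toZFSet_mem_toZFSet_iff.2 (ν ζ).2
        obtain ⟨g, hg, hxg⟩ := step hκS hνκ h1
        have h2 := (hν ζ).1 g hg
        rw [← hxg, if_pos hxH] at h2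
        refine IH ζ hζ x ?_ hxH
        rw [h2]
        exact .fn .cc hg
  have hlim : Order.IsSuccLimit (ω_ 1 : Ordinal.{u}) := Cardinal.isSuccLimit_omega 1
  have h0 : (0 : Ordinal.{u}) ∈ ι := hlim.bot_lt
  have hSmono : ∀ ξ ξ' : ι, ξ ≤ ξ' → Sg ξ (fun ζ => (ν ζ : Ordinal.{u})) ⊆
      Sg ξ' (fun ζ => (ν ζ : Ordinal.{u})) := by
    intro ξ ξ' h
    rintro y (hy | ⟨a, ha, rfl⟩)
    · exact Or.inl hy
    · exact Or.inr ⟨a, ha.trans_le h, rfl⟩
  refine ⟨{x | ∃ ξ : ι, Cl (GF F c) (Sg ξ (fun ζ => (ν ζ : Ordinal.{u}))) x},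
    fun ξ => (ν ξ : Ordinal.{u}), ?_, ?_, ?_, ?_, ?_, ?_, ?_, ?_⟩
  · intro x hx
    exact ⟨⟨0, h0⟩, .base (Or.inl (Or.inr hx))⟩
  · exact ⟨⟨0, h0⟩, .base (Or.inl (Or.inl rfl))⟩
  · rintro n x ⟨ξ, hξ⟩
    have h1 : Cl (GF F c) (Sg ξ (fun ζ => (ν ζ : Ordinal.{u}))) (GF F c (.F n) x) :=
      .fn (.F n) hξ
    exact ⟨ξ, by simpa only [GF] using h1⟩
  · rintro x ⟨ξ, hξ⟩ y ⟨ξ', hξ'⟩
    exact ⟨max ξ ξ', .pr (hξ.mono (hSmono _ _ (le_max_left _ _)))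
      (hξ'.mono (hSmono _ _ (le_max_right _ _)))⟩
  · have e : {x | ∃ ξ : ι, Cl (GF F c) (Sg ξ (fun ζ => (ν ζ : Ordinal.{u}))) x} =
        ⋃ ξ : ι, {x | Cl (GF F c) (Sg ξ (fun ζ => (ν ζ : Ordinal.{u}))) x} := by
      ext x
      simp
    rw [e]
    refine (Cardinal.mk_iUnion_le _).trans ?_
    have h1 : #ι ≤ ℵ₁ := by
      show #(Set.Iio (ω_ 1 : Ordinal.{u})) ≤ ℵ₁
      rw [Cardinal.mk_Iio_ordinal]
      simp
    have h2 : ⨆ ξ : ι, #{x | Cl (GF F c) (Sg ξ (fun ζ => (ν ζ : Ordinal.{u}))) x} ≤ ℵ₀ := by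
      have : Nonempty ι := ⟨⟨0, h0⟩⟩
      refine ciSup_le fun ξ => ?_
      exact Cardinal.le_aleph0_iff_set_countable.2 (countable_Cl _ (hSgc ξ _))
    refine (mul_le_mul' h1 h2).trans ?_
    rw [Cardinal.mul_eq_left (Cardinal.aleph0_le_aleph 1) (Cardinal.aleph0_le_aleph 1)
      Cardinal.aleph0_ne_zero]
  · refine (countable_Cl (GF F c) (hX₀.insert κ.toZFSet)).mono ?_
    rintro x ⟨⟨ξ, hξ⟩, hxH⟩
    exact htr ξ x hξ hxH
  · intro ξ ξ' h
    exact (hν ξ').2 ξ h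
  · intro ξ
    refine ⟨(ν ξ).2, ⟨Order.succ (ξ : Ordinal.{u}), hlim.succ_lt ξ.2⟩, ?_⟩
    exact .base (Or.inr ⟨ξ, Order.lt_succ (ξ : Ordinal.{u}), rfl⟩)

end H94W
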