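import Pool.Agent.Lib.H94W.JLib
import Pool.Agent.Lib.H94W.Stretch

/-!
# Project Woodin, chunk D1: measures from Woodin cardinals

Let `j` be an embedding with critical point `κ > rank H` and
`μ = {s | κ ∈ j {ν < κ | ν ∈ s}}` (as sets).  Countable completeness: apply `j` to the function
`n ↦ s n ∩ κ` with domain `ω`.  Functions `g : κ → H`: `c = (j g) (κ) ∈ j H = H`.
-/

set_option autoImplicit false

namespace H94W

open Ordinal Cardinal ZFSet

universe u v w

/-- The set of the ordinals in `s` below `κ`. -/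
noncomputable def zset (κ : Ordinal.{u}) (s : Set Ordinal.{u}) : ZFSet.{u} :=
  ZFSet.sep (fun x => rank x ∈ s) κ.toZFSet

theorem mem_zset {κ : Ordinal.{u}} {s : Set Ordinal.{u}} {x : ZFSet.{u}} :
    x ∈ zset κ s ↔ x ∈ κ.toZFSet ∧ rank x ∈ s := by
  unfold zset; rw [mem_sep]

theorem exists_meas_of_emb {j : ZFSet.{u} → ZFSet.{u}} {M : Set ZFSet.{u}} (h : IsEmb j M)
    {κ : Ordinal.{u}} (hκ : Crit j κ) {H : ZFSet.{u}} (hH : H ∈ V_ κ) :
    ∃ μ, IsMeas κ H μ := by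
  refine ⟨{s | κ.toZFSet ∈ j (zset κ s)}, ?_, ?_, ?_⟩
  · intro s hs
    by_contra hcon
    -- the set of the pairs `(n, s n ∩ κ)`
    let G : ZFSet.{u} := ZFSet.range fun n : ULift.{u} ℕ =>
      ZFSet.pair ((n.down : Ordinal.{u}).toZFSet) (zset κ (s n.down))
    have hG : ∀ p, p ∈ G ↔ ∃ n : ℕ, p = ZFSet.pair ((n : Ordinal.{u}).toZFSet) (zset κ (s n)) := by
      intro p
      simp only [G, mem_range]
      constructor
      · rintro ⟨⟨n⟩, rfl⟩; exact ⟨n, rfl⟩
      · rintro ⟨n, rfl⟩; exact ⟨⟨n⟩, rfl⟩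
    have hGc : Ctbl G := by
      unfold Ctbl
      have e : {y | y ∈ G} = Set.range fun n : ℕ =>
          ZFSet.pair ((n : Ordinal.{u}).toZFSet) (zset κ (s n)) := by
        ext p
        show p ∈ G ↔ _
        rw [hG, Set.mem_range]
        constructor
        · rintro ⟨n, rfl⟩; exact ⟨n, rfl⟩
        · rintro ⟨n, rfl⟩; exact ⟨n, rfl⟩
      rw [e]
      exact Set.countable_range _
    have h1 := ((IsD0.ball 0 (IsD0.bexPair 2 (IsD0.mem 2 0).not)).pres h
      (env4 κ.toZFSet G G G)).1 (by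
        intro a ha
        obtain ⟨ν, hν, rfl⟩ := Ordinal.mem_toZFSet_iff.1 (show a ∈ κ.toZFSet from ha)
        have h2 : ∃ n, ν ∉ s n := by
          by_contra h3
          exact hcon ⟨ν, hν, fun n => by_contra fun h4 => h3 ⟨n, h4⟩⟩
        obtain ⟨n, hn⟩ := h2
        refine ⟨(n : Ordinal.{u}).toZFSet, zset κ (s n), ?_, ?_⟩
        · exact (hG _).2 ⟨n, rfl⟩
        · intro h3
          have h4 : ν.toZFSet ∈ zset κ (s n) := h3
          rw [mem_zset, rank_toZFSet] at h4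
          exact hn h4.2)
    obtain ⟨m, T, hmT, hT⟩ := h1 κ.toZFSet (Crit.mem h hκ)
    have hmT' : ZFSet.pair m T ∈ j G := hmT
    have hT' : κ.toZFSet ∉ T := hT
    obtain ⟨z, hz, e⟩ := (h.countable hGc _).1 hmT'
    obtain ⟨n, rfl⟩ := (hG z).1 hz
    rw [h.pair, ZFSet.pair_inj] at e
    apply hT'
    rw [e.2]
    exact hs n
  · intro α hα
    have h1 := ((IsD0.ball 0 ((IsD0.mem 2 0).imp (IsD0.mem 0 3))).pres h
      (env4 κ.toZFSet α.toZFSet (zset κ {ν | α < ν}) ∅)).1 (by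
        intro a ha hαa
        have ha' : a ∈ κ.toZFSet := ha
        have hαa' : α.toZFSet ∈ a := hαa
        show a ∈ zset κ {ν | α < ν}
        rw [mem_zset]
        refine ⟨ha', ?_⟩
        show α < rank a
        have := rank_lt_of_mem hαa'
        rwa [rank_toZFSet] at this)
    have h2 := h1 κ.toZFSet (Crit.mem h hκ)
    apply h2
    show j α.toZFSet ∈ κ.toZFSet
    rw [hκ.1 α hα, toZFSet_mem_toZFSet_iff]
    exact hα
  · intro g hg
    let G : ZFSet.{u} := zlam κ.toZFSet (fun x => g (rank x))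
    have hfixH : j H = H := Crit.fix h hκ hH
    have h1 := ((IsD0.ball 0 (IsD0.bex 2 (IsD0.pairMem 1 0 4))).pres h
      (env4 κ.toZFSet H G G)).1 (by
        intro a ha
        have ha' : a ∈ κ.toZFSet := ha
        refine ⟨g (rank a), hg _, ?_⟩
        show ZFSet.pair a (g (rank a)) ∈ G
        exact mem_zlam.2 ⟨a, ha', rfl⟩)
    obtain ⟨c, hc, hc'⟩ := h1 κ.toZFSet (Crit.mem h hκ)
    have hcH : c ∈ H := by
      have hc2 : c ∈ j H := hc
      rwa [hfixH] at hc2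
    have hcG : ZFSet.pair κ.toZFSet c ∈ j G := hc'
    have hcκ : c ∈ V_ κ := (isTransitive_vonNeumann κ).mem_trans hcH hH
    have hjc : j c = c := Crit.fix h hκ hcκ
    refine ⟨c, hcH, ?_⟩
    have h3 := ((IsD0.ball 0 ((IsD0.pairMem 0 2 3).imp (IsD0.mem 0 4))).pres h
      (env4 κ.toZFSet c G (zset κ {ν | g ν = c}))).1 (by
        intro a ha hac
        have ha' : a ∈ κ.toZFSet := ha
        have hac' : ZFSet.pair a c ∈ G := hac
        show a ∈ zset κ {ν | g ν = c}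
        rw [mem_zset]
        refine ⟨ha', ?_⟩
        obtain ⟨y, _, e⟩ := mem_zlam.1 hac'
        rw [ZFSet.pair_inj] at e
        show g (rank a) = c
        rw [e.1, e.2])
    apply h3 κ.toZFSet (Crit.mem h hκ)
    show ZFSet.pair κ.toZFSet (j c) ∈ j G
    rw [hjc]
    exact hcG

theorem exists_meas (hW : ∀ α : Ordinal.{u}, ∃ δ > α, IsWoodin δ) (H : ZFSet.{u}) :
    ∃ κ μ, IsMeas κ H μ := by
  obtain ⟨δ, hδ, hWδ⟩ := hW (rank H)
  obtain ⟨κ, hκ1, _, h2⟩ := hWδ.2 ∅ (fun x hx => absurd hx (notMem_empty x)) (rank H) hδ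
  have h0 : (0 : Ordinal.{u}) < δ := lt_of_le_of_lt zero_le hδ
  obtain ⟨j, M, hj, hcrit, _⟩ := h2 0 h0
  obtain ⟨μ, hμ⟩ := exists_meas_of_emb hj hcrit (mem_vonNeumann.2 hκ1)
  exact ⟨κ, μ, hμ⟩

end H94W
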