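import Pool.Agent.Lib.H94W.Fodor

/-!
# Project Woodin, chunk E: precipitousness by a rank analysis

For conditions `t` and names `(η, f)` (`f` evaluated at `X` is `zapp f (trc X η)`), define by
recursion on ordinals the set `W_α` of all `(t, (η, f))`, `t` a condition with `η ⊆ zfst t`, such
that for all conditions `t' ≤ t` and all names `(η', f')` with `η' ⊆ zfst t'` and
`∀ x ∈ zsnd t', zapp f' (restr x η') ∈ zapp f (restr x η)` there are `β < α` and a condition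
`t'' ≤ t'` with `(t'', (η', f')) ∈ W_β`.  `W = ⋃ W_α` (replacement: one may restrict to the
names `f'` which are functions from `DOM η'` to `V_{rank f}`).  Claim: for all `t`, `(η, f)`,
`η ⊆ zfst t` there is `t' ≤ t` with `(t', (η, f)) ∈ W`.  Otherwise let `N` be the class of
`(t, (η, f))` with no `t' ≤ t` in `W`; for `(t, (η, f)) ∈ N` the set of all `t₁` such that there
is `(η₁, f₁)` with `(t₁, (η₁, f₁)) ∈ N` and `(t₁, (η₁, f₁)) < (t, (η, f))` is dense below `t`.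
Let `D (t, (η, f))` be this set together with all conditions incompatible with `t`.
Capturing gives one `X` meeting all these `D (t, ..) ∈ X`, and an infinite descending sequence
of values `zapp f_n (trc X η_n)`, contradiction.

`wD (η, f)` is the set of all conditions `t` with `(t, (η, f)) ∈ W`, `wR (t, (η, f))` the least
`α` with `(t, (η, f)) ∈ W_α`, and `wE (...)` is the set of all conditions `t` satisfying the
disjunction.
-/

set_option autoImplicit false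

namespace H94W

open Ordinal Cardinal ZFSet

universe u v w

namespace RankL

/-! ### Elementary facts -/

theorem restr_restr {x η ζ : ZFSet.{u}} (h : rank η ≤ rank ζ) :
    restr (restr x ζ) η = restr x η := by
  ext y
  rw [mem_restr, mem_restr, mem_restr]
  constructor
  · rintro ⟨⟨h1, _⟩, h3⟩; exact ⟨h1, h3⟩
  · rintro ⟨h1, h2⟩
    refine ⟨⟨h1, ?_⟩, h2⟩
    rw [mem_vonNeumann] at h2 ⊢
    exact lt_of_lt_of_le h2 h

theorem mem_DOM {η x : ZFSet.{u}} : x ∈ DOM η ↔ x ⊆ V_ (rank η) ∧ {y | y ∈ x}.Countable := by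
  unfold DOM
  rw [mem_sep, mem_powerset]

theorem restr_eq_self {η x : ZFSet.{u}} (h : x ∈ DOM η) : restr x η = x := by
  ext y
  rw [mem_restr]
  exact ⟨fun h1 => h1.1, fun h1 => ⟨h1, (mem_DOM.1 h).1 h1⟩⟩

theorem restr_mem_DOM {η ζ x : ZFSet.{u}} (h : x ∈ DOM ζ) : restr x η ∈ DOM η := by
  rw [mem_DOM]
  refine ⟨fun y hy => (mem_restr.1 hy).2, ?_⟩
  exact (mem_DOM.1 h).2.mono fun y hy => (mem_restr.1 hy).1

theorem IsCond.ltd {δ : Ordinal.{u}} {t : ZFSet.{u}} (h : IsCond δ t) : Ltd δ (zfst t) := by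
  obtain ⟨η, a, h1, _, _, rfl⟩ := h
  simpa using h1

theorem IsCond.sub {δ : Ordinal.{u}} {t x : ZFSet.{u}} (h : IsCond δ t) (hx : x ∈ zsnd t) :
    x ∈ DOM (zfst t) := by
  obtain ⟨η, a, _, h2, _, rfl⟩ := h
  simp only [zfst_pair, zsnd_pair] at hx ⊢
  exact h2 hx

theorem IsCond.stat {δ : Ordinal.{u}} {t : ZFSet.{u}} (h : IsCond δ t) :
    Stat (zfst t) (zsnd t) := by
  obtain ⟨η, a, _, _, h3, rfl⟩ := h
  simpa using h3

theorem le_refl' {δ : Ordinal.{u}} {t : ZFSet.{u}} (h : IsCond δ t) : Le t t :=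
  ⟨fun _ hx => hx, fun x hx => by rw [restr_eq_self (IsCond.sub h hx)]; exact hx⟩

theorem le_trans' {t t' t'' : ZFSet.{u}} (h1 : Le t'' t') (h2 : Le t' t) : Le t'' t := by
  refine ⟨fun x hx => h1.1 (h2.1 hx), fun x hx => ?_⟩
  have h3 := h2.2 _ (h1.2 x hx)
  rwa [restr_restr (rank_mono h2.1)] at h3

theorem in_of_le {t t' : ZFSet.{u}} {X : Set ZFSet.{u}} (h : Le t' t) (hX : In X t') : In X t := by
  have h3 := h.2 _ hX
  rwa [restr_trc (rank_mono h.1)] at h3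

theorem compat_of_le {δ : Ordinal.{u}} {t t' s : ZFSet.{u}} (hs : IsCond δ s) (h : Le s t)
    (h' : Le s t') : Compat t t' := by
  intro F
  obtain ⟨X, hX, h1⟩ := IsCond.stat hs F
  exact ⟨X, hX, in_of_le h h1, in_of_le h' h1⟩

/-- A common extension of two compatible conditions. -/
theorem exists_meet {δ : Ordinal.{u}} {t t' : ZFSet.{u}} (h1 : IsCond δ t) (h2 : IsCond δ t')
    (h : Compat t t') : ∃ s, IsCond δ s ∧ Le s t ∧ Le s t' :=
  ⟨_, isCond_meet h1 h2 h⟩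

/-- A condition can be extended so that its level contains a given ordinal. -/
theorem exists_lift {δ : Ordinal.{u}} {t η : ZFSet.{u}} (h : IsCond δ t) (hη : Ltd δ η) :
    ∃ s, IsCond δ s ∧ Le s t ∧ η ⊆ zfst s := by
  have h2 : IsCond δ (pair η (DOM η)) := ⟨η, DOM η, hη, fun _ hx => hx, stat_DOM η, rfl⟩
  have h3 : Compat t (pair η (DOM η)) := by
    intro F
    obtain ⟨X, hX, h1⟩ := IsCond.stat h F
    refine ⟨X, hX, h1, ?_⟩
    unfold In
    rw [zfst_pair, zsnd_pair]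
    exact trc_mem_DOM hX.1 η
  obtain ⟨s, hs, h4, h5⟩ := exists_meet h h2 h3
  refine ⟨s, hs, h4, ?_⟩
  have := h5.1
  rwa [zfst_pair] at this

/-- A condition can be split. -/
theorem exists_split {δ : Ordinal.{u}} {t : ZFSet.{u}} (h : IsCond δ t) (p : ZFSet.{u} → Prop) :
    ∃ s, IsCond δ s ∧ Le s t ∧ zfst s = zfst t ∧ ((∀ x ∈ zsnd s, p x) ∨ ∀ x ∈ zsnd s, ¬ p x) := by
  have key : ∀ q : ZFSet.{u} → Prop, Stat (zfst t) (ZFSet.sep q (zsnd t)) →
      IsCond δ (pair (zfst t) (ZFSet.sep q (zsnd t))) ∧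
        Le (pair (zfst t) (ZFSet.sep q (zsnd t))) t := by
    intro q hq
    refine ⟨⟨_, _, IsCond.ltd h, fun x hx => IsCond.sub h (mem_sep.1 hx).1, hq, rfl⟩, ?_, ?_⟩
    · rw [zfst_pair]
    · intro x hx
      rw [zsnd_pair, mem_sep] at hx
      rw [restr_eq_self (IsCond.sub h hx.1)]
      exact hx.1
  rcases (IsCond.stat h).split p with h1 | h1
  · obtain ⟨h2, h3⟩ := key _ h1
    refine ⟨_, h2, h3, zfst_pair _ _, Or.inl ?_⟩
    intro x hx
    rw [zsnd_pair, mem_sep] at hx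
    exact hx.2
  · obtain ⟨h2, h3⟩ := key _ h1
    refine ⟨_, h2, h3, zfst_pair _ _, Or.inr ?_⟩
    intro x hx
    rw [zsnd_pair, mem_sep] at hx
    exact hx.2

/-- A set containing all conditions. -/
noncomputable def CS (δ : Ordinal.{u}) : ZFSet.{u} :=
  prod δ.toZFSet (powerset (powerset (V_ δ)))

theorem mem_CS {δ : Ordinal.{u}} {t : ZFSet.{u}} (h : IsCond δ t) : t ∈ CS δ := by
  obtain ⟨η, a, ⟨α, hα, rfl⟩, h2, _, rfl⟩ := h
  unfold CS
  rw [mem_prod]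
  refine ⟨_, Ordinal.mem_toZFSet_iff.2 ⟨α, hα, rfl⟩, a, ?_, rfl⟩
  rw [mem_powerset]
  intro x hx
  rw [mem_powerset]
  intro y hy
  have h3 := (mem_DOM.1 (h2 hx)).1 hy
  rw [mem_vonNeumann, rank_toZFSet] at h3
  rw [mem_vonNeumann]
  exact h3.trans hα

/-! ### The rank analysis -/

/-- `(t', η', f')` is a move from `(t, η, f)`. -/
def Mv (δ : Ordinal.{u}) (t η f t' η' f' : ZFSet.{u}) : Prop :=
  IsCond δ t' ∧ Le t' t ∧ Ltd δ η' ∧ η' ⊆ zfst t' ∧
    ∀ x ∈ zsnd t', zapp f' (restr x η') ∈ zapp f (restr x η)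

/-- The stages `W_α`. -/
def Wst (δ : Ordinal.{u}) (α : Ordinal.{u}) (t η f : ZFSet.{u}) : Prop :=
  IsCond δ t ∧ η ⊆ zfst t ∧ ∀ t' η' f', Mv δ t η f t' η' f' →
    ∃ β, ∃ _ : β < α, ∃ t'', IsCond δ t'' ∧ Le t'' t' ∧ Wst δ β t'' η' f'
termination_by α

theorem wst_iff {δ α : Ordinal.{u}} {t η f : ZFSet.{u}} : Wst δ α t η f ↔
    IsCond δ t ∧ η ⊆ zfst t ∧ ∀ t' η' f', Mv δ t η f t' η' f' →
      ∃ β < α, ∃ t'', IsCond δ t'' ∧ Le t'' t' ∧ Wst δ β t'' η' f' := by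
  rw [Wst]
  simp only [exists_prop]

/-- `W_α` depends only on the values of the name. -/
theorem Wst.congr {δ α : Ordinal.{u}} {t η f g : ZFSet.{u}} (h : Wst δ α t η f)
    (hg : ∀ x ∈ zsnd t, zapp g (restr x η) = zapp f (restr x η)) : Wst δ α t η g := by
  rw [wst_iff] at h ⊢
  refine ⟨h.1, h.2.1, fun t' η' f' hm => h.2.2 t' η' f' ?_⟩
  refine ⟨hm.1, hm.2.1, hm.2.2.1, hm.2.2.2.1, fun x hx => ?_⟩
  have h1 := hm.2.2.2.2 x hx
  have h2 := hg _ (hm.2.1.2 x hx)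
  rw [restr_restr (rank_mono h.2.1)] at h2
  rwa [h2] at h1

open Classical in
/-- The normal form of a name with values in `V_ρ`. -/
noncomputable def nf (ρ : Ordinal.{u}) (η f : ZFSet.{u}) : ZFSet.{u} :=
  zlam (DOM η) fun y => if zapp f y ∈ V_ ρ then zapp f y else ∅

/-- A set containing all normal forms. -/
noncomputable def NS (δ ρ : Ordinal.{u}) : ZFSet.{u} :=
  powerset (prod (powerset (V_ δ)) (V_ (Order.succ ρ)))

theorem nf_mem {δ ρ : Ordinal.{u}} {η f : ZFSet.{u}} (hη : Ltd δ η) : nf ρ η f ∈ NS δ ρ := by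
  obtain ⟨α, hα, rfl⟩ := hη
  unfold NS
  rw [mem_powerset]
  intro z hz
  unfold nf at hz
  obtain ⟨y, hy, rfl⟩ := mem_zlam.1 hz
  rw [mem_prod]
  refine ⟨y, ?_, _, ?_, rfl⟩
  · rw [mem_powerset]
    intro w hw
    have h3 := (mem_DOM.1 hy).1 hw
    rw [mem_vonNeumann, rank_toZFSet] at h3
    rw [mem_vonNeumann]
    exact h3.trans hα
  · split_ifs with h
    · rw [mem_vonNeumann] at h ⊢
      exact h.trans (Order.lt_succ _)
    · rw [mem_vonNeumann, rank_empty]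
      exact lt_of_le_of_lt (zero_le) (Order.lt_succ _)

theorem zapp_nf {ρ : Ordinal.{u}} {η f y : ZFSet.{u}} (hy : y ∈ DOM η) (h : zapp f y ∈ V_ ρ) :
    zapp (nf ρ η f) y = zapp f y := by
  unfold nf
  rw [zapp_zlam hy, if_pos h]

theorem mem_V_of_mem_zapp {f y z : ZFSet.{u}} (h : z ∈ zapp f y) : z ∈ V_ (rank f) := by
  rw [mem_vonNeumann]
  rcases rank_zapp f y with h1 | h1
  · rw [h1] at h
    exact absurd h (ZFSet.notMem_empty _)
  · exact (rank_lt_of_mem h).trans h1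

/-- `W` is closed (replacement). -/
theorem wst_closed {δ : Ordinal.{u}} {t η f : ZFSet.{u}} (ht : IsCond δ t) (hη : η ⊆ zfst t)
    (h : ∀ t' η' f', Mv δ t η f t' η' f' →
      ∃ α t'', IsCond δ t'' ∧ Le t'' t' ∧ Wst δ α t'' η' f') : ∃ α, Wst δ α t η f := by
  classical
  -- the ordinals of the moves in normal form
  let T : ZFSet.{u} := prod (CS δ) (prod δ.toZFSet (NS δ (rank f)))
  let αf : ZFSet.{u} → Ordinal.{u} := fun z =>
    if hz : ∃ α t'', IsCond δ t'' ∧ Le t'' (zfst z) ∧ Wst δ α t'' (zfst (zsnd z)) (zsnd (zsnd z))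
    then hz.choose else 0
  let R : ZFSet.{u} := range fun z : {z // z ∈ T} => (αf z.1).toZFSet
  have hR : ∀ z ∈ T, αf z < rank R := by
    intro z hz
    have h1 : (αf z).toZFSet ∈ R := mem_range.2 ⟨⟨z, hz⟩, rfl⟩
    have h2 := rank_lt_of_mem h1
    rwa [rank_toZFSet] at h2
  refine ⟨rank R, ?_⟩
  rw [wst_iff]
  refine ⟨ht, hη, fun t' η' f' hm => ?_⟩
  obtain ⟨hm1, hm2, hm3, hm4, hm5⟩ := hm
  have hnf : ∀ x ∈ zsnd t', zapp (nf (rank f) η' f') (restr x η') = zapp f' (restr x η') := by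
    intro x hx
    exact zapp_nf (restr_mem_DOM (IsCond.sub hm1 hx)) (mem_V_of_mem_zapp (hm5 x hx))
  have hm' : Mv δ t η f t' η' (nf (rank f) η' f') := by
    refine ⟨hm1, hm2, hm3, hm4, fun x hx => ?_⟩
    rw [hnf x hx]
    exact hm5 x hx
  obtain ⟨α, hα⟩ := h _ _ _ hm'
  have hzT : pair t' (pair η' (nf (rank f) η' f')) ∈ T := by
    show _ ∈ prod _ _
    rw [mem_prod]
    refine ⟨t', mem_CS hm1, _, ?_, rfl⟩
    rw [mem_prod]
    refine ⟨η', ?_, _, nf_mem hm3, rfl⟩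
    obtain ⟨γ, hγ, hγ'⟩ := hm3
    exact Ordinal.mem_toZFSet_iff.2 ⟨γ, hγ, hγ'.symm⟩
  have hex : ∃ α t'', IsCond δ t'' ∧ Le t'' (zfst (pair t' (pair η' (nf (rank f) η' f')))) ∧
      Wst δ α t'' (zfst (zsnd (pair t' (pair η' (nf (rank f) η' f')))))
        (zsnd (zsnd (pair t' (pair η' (nf (rank f) η' f'))))) := by
    simp only [zfst_pair, zsnd_pair]
    exact ⟨α, hα⟩
  have hα' : αf (pair t' (pair η' (nf (rank f) η' f'))) = hex.choose := dif_pos hex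
  have hlt := hR _ hzT
  obtain ⟨t'', h1, h2, h3⟩ := hex.choose_spec
  rw [← hα'] at h3
  generalize αf (pair t' (pair η' (nf (rank f) η' f'))) = β at hlt h3
  rw [zfst_pair] at h2
  rw [zsnd_pair, zsnd_pair, zfst_pair] at h3
  refine ⟨_, hlt, t'', h1, h2, h3.congr ?_⟩
  intro x hx
  have h4 := hnf _ (h2.2 x hx)
  rw [restr_restr (rank_mono hm4)] at h4
  exact h4.symm

/-- `W` -/
def WW (δ : Ordinal.{u}) (t η f : ZFSet.{u}) : Prop := ∃ α, Wst δ α t η f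

theorem WW.cond {δ : Ordinal.{u}} {t η f : ZFSet.{u}} (h : WW δ t η f) : IsCond δ t := by
  obtain ⟨α, h⟩ := h
  rw [wst_iff] at h
  exact h.1

theorem WW.sub {δ : Ordinal.{u}} {t η f : ZFSet.{u}} (h : WW δ t η f) : η ⊆ zfst t := by
  obtain ⟨α, h⟩ := h
  rw [wst_iff] at h
  exact h.2.1

/-- the class `N` of the states with no extension in `W` -/
def NW (δ : Ordinal.{u}) (t η f : ZFSet.{u}) : Prop :=
  IsCond δ t ∧ Ltd δ η ∧ η ⊆ zfst t ∧ ∀ t', IsCond δ t' → Le t' t → ¬ WW δ t' η f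

theorem NW.mono {δ : Ordinal.{u}} {t t' η f : ZFSet.{u}} (h : NW δ t η f) (h1 : IsCond δ t')
    (h2 : Le t' t) : NW δ t' η f :=
  ⟨h1, h.2.1, fun _ hx => h2.1 (h.2.2.1 hx), fun s hs hs' => h.2.2.2 s hs (le_trans' hs' h2)⟩

theorem NW.step {δ : Ordinal.{u}} {t η f : ZFSet.{u}} (h : NW δ t η f) :
    ∃ t' η' f', Mv δ t η f t' η' f' ∧ NW δ t' η' f' := by
  by_contra hcon
  push Not at hcon
  have h1 := h.2.2.2 t h.1 (le_refl' h.1)
  apply h1
  apply wst_closed h.1 h.2.2.1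
  intro t' η' f' hm
  have h2 := hcon t' η' f' hm
  by_contra h3
  apply h2
  refine ⟨hm.1, hm.2.2.1, hm.2.2.2.1, fun s hs hs' hw => ?_⟩
  obtain ⟨α, hα⟩ := hw
  exact h3 ⟨α, s, hs, hs', hα⟩

/-- The predense set of a state (coded as `pair t (pair η f)`). -/
noncomputable def DS (δ : Ordinal.{u}) (p : ZFSet.{u}) : ZFSet.{u} :=
  ZFSet.sep (fun t' => IsCond δ t' ∧ (¬ Compat (zfst p) t' ∨
    ∃ η' f', Mv δ (zfst p) (zfst (zsnd p)) (zsnd (zsnd p)) t' η' f' ∧ NW δ t' η' f')) (CS δ)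

theorem mem_DS {δ : Ordinal.{u}} {p t' : ZFSet.{u}} : t' ∈ DS δ p ↔
    IsCond δ t' ∧ (¬ Compat (zfst p) t' ∨
    ∃ η' f', Mv δ (zfst p) (zfst (zsnd p)) (zsnd (zsnd p)) t' η' f' ∧ NW δ t' η' f') := by
  unfold DS
  rw [mem_sep]
  exact ⟨fun h => h.2, fun h => ⟨mem_CS h.1, h⟩⟩

theorem Mv.of_le {δ : Ordinal.{u}} {s t η f t' η' f' : ZFSet.{u}} (h : Mv δ s η f t' η' f')
    (hs : Le s t) : Mv δ t η f t' η' f' :=
  ⟨h.1, le_trans' h.2.1 hs, h.2.2.1, h.2.2.2.1, h.2.2.2.2⟩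

theorem pred_DS {δ : Ordinal.{u}} {t η f : ZFSet.{u}} (h : NW δ t η f) :
    Pred δ (DS δ (pair t (pair η f))) := by
  refine ⟨fun t' ht' => (mem_DS.1 ht').1, fun s hs => ?_⟩
  by_cases hc : Compat t s
  · obtain ⟨m, hm1, hm2, hm3⟩ := exists_meet h.1 hs hc
    obtain ⟨t', η', f', h1, h2⟩ := (h.mono hm1 hm2).step
    refine ⟨t', mem_DS.2 ⟨h1.1, Or.inr ⟨η', f', ?_, h2⟩⟩, ?_⟩
    · simp only [zfst_pair, zsnd_pair]
      exact h1.of_le hm2
    · exact compat_of_le h1.1 (le_trans' h1.2.1 hm3) (le_refl' h1.1)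
  · refine ⟨s, mem_DS.2 ⟨hs, Or.inl ?_⟩, compat_of_le hs (le_refl' hs) (le_refl' hs)⟩
    rw [zfst_pair]
    exact hc

open Classical in
/-- The chosen name of a move. -/
noncomputable def cn (δ : Ordinal.{u}) (p : ZFSet.{u}) : ZFSet.{u} :=
  if h : ∃ q, Mv δ (zfst (zsnd p)) (zfst (zsnd (zsnd p))) (zsnd (zsnd (zsnd p))) (zfst p)
    (zfst q) (zsnd q) ∧ NW δ (zfst p) (zfst q) (zsnd q) then pair (zfst p) (pair (zfst h.choose)
      (zsnd h.choose)) else ∅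

theorem cn_spec {δ : Ordinal.{u}} {t' p η' f' : ZFSet.{u}}
    (h : Mv δ (zfst p) (zfst (zsnd p)) (zsnd (zsnd p)) t' η' f') (h' : NW δ t' η' f') :
    ∃ η₁ f₁, cn δ (pair t' p) = pair t' (pair η₁ f₁) ∧
      Mv δ (zfst p) (zfst (zsnd p)) (zsnd (zsnd p)) t' η₁ f₁ ∧ NW δ t' η₁ f₁ := by
  have hex : ∃ q, Mv δ (zfst (zsnd (pair t' p))) (zfst (zsnd (zsnd (pair t' p))))
      (zsnd (zsnd (zsnd (pair t' p)))) (zfst (pair t' p)) (zfst q) (zsnd q) ∧
      NW δ (zfst (pair t' p)) (zfst q) (zsnd q) := by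
    refine ⟨pair η' f', ?_⟩
    simp only [zfst_pair, zsnd_pair]
    exact ⟨h, h'⟩
  have e : cn δ (pair t' p) = pair (zfst (pair t' p)) (pair (zfst hex.choose)
      (zsnd hex.choose)) := dif_pos hex
  have h1 := hex.choose_spec
  generalize hex.choose = q at e h1
  simp only [zfst_pair, zsnd_pair] at e h1
  exact ⟨zfst q, zsnd q, e, h1⟩

open Classical in
/-- Witnesses of incompatibility. -/
noncomputable def inc (p : ZFSet.{u}) (n : ℕ) (y : ZFSet.{u}) : ZFSet.{u} :=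
  if h : ∃ F : ℕ → ZFSet.{u} → ZFSet.{u}, ¬ ∃ X, Good F X ∧ In X (zfst p) ∧ In X (zsnd p)
  then h.choose n y else ∅

theorem inc_spec {t t' : ZFSet.{u}} (h : ¬ Compat t t') {X : Set ZFSet.{u}}
    (hX : Good (inc (pair t t')) X) (h1 : In X t) (h2 : In X t') : False := by
  have hex : ∃ F : ℕ → ZFSet.{u} → ZFSet.{u}, ¬ ∃ X, Good F X ∧ In X (zfst (pair t t')) ∧
      In X (zsnd (pair t t')) := by
    simp only [zfst_pair, zsnd_pair]
    unfold Compat at h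
    push Not at h
    obtain ⟨F, hF⟩ := h
    refine ⟨F, ?_⟩
    push Not
    exact hF
  have e : inc (pair t t') = hex.choose := by
    funext n y
    exact dif_pos hex
  rw [e] at hX
  apply hex.choose_spec
  refine ⟨X, hX, ?_, ?_⟩
  · rwa [zfst_pair]
  · rwa [zsnd_pair]

/-- The claim: `W` is dense. -/
theorem dense_WW {δ : Ordinal.{u}} (hδ : Capt δ) {t η f : ZFSet.{u}} (ht : IsCond δ t)
    (hη : Ltd δ η) (hs : η ⊆ zfst t) : ∃ t', IsCond δ t' ∧ Le t' t ∧ WW δ t' η f := by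
  by_contra hcon
  have hN : NW δ t η f := ⟨ht, hη, hs, fun t' h1 h2 h3 => hcon ⟨t', h1, h2, h3⟩⟩
  -- the family of functions
  let F : ℕ → ZFSet.{u} → ZFSet.{u} := fun n => match n with
    | 0 => fun _ => pair t (pair η f)
    | 1 => DS δ
    | 2 => cn δ
    | 3 => zfst
    | n + 4 => fun x => inc (zfst x) n (zsnd x)
  obtain ⟨X, hX, hXt, hcap⟩ := hδ F t ht
  have h0 : pair t (pair η f) ∈ X := by
    obtain ⟨x, hx⟩ := hX.2.1
    exact hX.2.2.1 0 x hx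
  have h1 : ∀ x ∈ X, DS δ x ∈ X := fun x hx => hX.2.2.1 1 x hx
  have h2 : ∀ x ∈ X, cn δ x ∈ X := fun x hx => hX.2.2.1 2 x hx
  have h3 : ∀ p ∈ X, Good (inc p) X := by
    intro p hp
    refine ⟨hX.1, hX.2.1, fun n y hy => ?_, hX.2.2.2⟩
    have := hX.2.2.1 (n + 4) (pair p y) (hX.2.2.2 p hp y hy)
    have e : F (n + 4) (pair p y) = inc p n y := by
      show inc (zfst (pair p y)) n (zsnd (pair p y)) = _
      rw [zfst_pair, zsnd_pair]
    rwa [e] at this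
  -- states in `X`
  have step : ∀ p : ZFSet.{u}, (∃ s η₁ f₁, p = pair s (pair η₁ f₁)) → p ∈ X → In X (zfst p) →
      zfst p ∈ X → NW δ (zfst p) (zfst (zsnd p)) (zsnd (zsnd p)) →
      ∃ q : ZFSet.{u}, ((∃ s η₁ f₁, q = pair s (pair η₁ f₁)) ∧ q ∈ X ∧ In X (zfst q) ∧
        zfst q ∈ X ∧ NW δ (zfst q) (zfst (zsnd q)) (zsnd (zsnd q))) ∧
        zapp (zsnd (zsnd q)) (trc X (zfst (zsnd q))) ∈
          zapp (zsnd (zsnd p)) (trc X (zfst (zsnd p))) := by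
    rintro p ⟨s, η₁, f₁, rfl⟩ hp1 hp2 hp3 hp4
    simp only [zfst_pair, zsnd_pair] at hp2 hp3 hp4 ⊢
    obtain ⟨t', ht1, ht2, ht3⟩ := hcap _ (h1 _ hp1) (pred_DS hp4)
    rw [mem_DS] at ht1
    obtain ⟨hc1, hc2⟩ := ht1
    rcases hc2 with hc2 | ⟨η', f', hm, hn⟩
    · rw [zfst_pair] at hc2
      exact (inc_spec hc2 (h3 _ (hX.2.2.2 _ hp3 _ ht2)) hp2 ht3).elim
    · obtain ⟨η₂, f₂, e, hm2, hn2⟩ := cn_spec hm hn
      have hq : pair t' (pair η₂ f₂) ∈ X := by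
        rw [← e]
        exact h2 _ (hX.2.2.2 _ ht2 _ hp1)
      simp only [zfst_pair, zsnd_pair] at hm2
      refine ⟨pair t' (pair η₂ f₂), ⟨⟨t', η₂, f₂, rfl⟩, hq, ?_, ?_, ?_⟩, ?_⟩
      · rwa [zfst_pair]
      · rwa [zfst_pair]
      · simpa only [zfst_pair, zsnd_pair] using hn2
      · simp only [zfst_pair, zsnd_pair]
        have h4 := hm2.2.2.2.2 _ ht3
        rwa [restr_trc (rank_mono hm2.2.2.2.1), restr_trc
          (rank_mono (fun x hx => hm2.2.1.1 (hp4.2.2.1 hx)))] at h4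
  have ht0 : t ∈ X := by
    have := hX.2.2.1 3 _ h0
    have e : F 3 (pair t (pair η f)) = t := zfst_pair _ _
    rwa [e] at this
  choose! nx hnx1 hnx2 using step
  let sq : ℕ → ZFSet.{u} := fun n => nx^[n] (pair t (pair η f))
  have hsq : ∀ n, (∃ s η₁ f₁, sq n = pair s (pair η₁ f₁)) ∧ sq n ∈ X ∧ In X (zfst (sq n)) ∧
        zfst (sq n) ∈ X ∧ NW δ (zfst (sq n)) (zfst (zsnd (sq n))) (zsnd (zsnd (sq n))) := by
    intro n
    induction n with
    | zero =>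
      refine ⟨⟨t, η, f, rfl⟩, h0, ?_, ?_, ?_⟩
      · show In X (zfst (pair t (pair η f)))
        rwa [zfst_pair]
      · show zfst (pair t (pair η f)) ∈ X
        rwa [zfst_pair]
      · show NW δ (zfst (pair t (pair η f))) (zfst (zsnd (pair t (pair η f))))
          (zsnd (zsnd (pair t (pair η f))))
        simpa only [zfst_pair, zsnd_pair] using hN
    | succ n ih =>
      have e : sq (n + 1) = nx (sq n) := Function.iterate_succ_apply' nx n _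
      rw [e]
      exact hnx1 _ ih.1 ih.2.1 ih.2.2.1 ih.2.2.2.1 ih.2.2.2.2
  have hdec : ∀ n, zapp (zsnd (zsnd (sq (n + 1)))) (trc X (zfst (zsnd (sq (n + 1))))) ∈
      zapp (zsnd (zsnd (sq n))) (trc X (zfst (zsnd (sq n)))) := by
    intro n
    have e : sq (n + 1) = nx (sq n) := Function.iterate_succ_apply' nx n _
    rw [e]
    have ih := hsq n
    exact hnx2 _ ih.1 ih.2.1 ih.2.2.1 ih.2.2.2.1 ih.2.2.2.2
  exact (wellFounded_iff_isEmpty_descending_chain.1 ZFSet.mem_wf).elim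
    ⟨fun n => zapp (zsnd (zsnd (sq n))) (trc X (zfst (zsnd (sq n)))), hdec⟩

end RankL

open RankL in
theorem rank_lemma {δ : Ordinal.{u}} (hδ : Capt δ) :
    ∃ wD wE wR : ZFSet.{u} → ZFSet.{u},
      (∀ η f, Ltd δ η → Pred δ (wD (pair η f))) ∧
      ∀ η₀ f₀ t₀ η₁ f₁, Ltd δ η₀ → Ltd δ η₁ → t₀ ∈ wD (pair η₀ f₀) →
        Pred δ (wE (pair t₀ (pair (pair η₀ f₀) (pair η₁ f₁)))) ∧
        ∀ t ∈ wE (pair t₀ (pair (pair η₀ f₀) (pair η₁ f₁))),
          ¬ Stat (zfst t ∪ zfst t₀) (meet t t₀) ∨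
          (η₀ ⊆ zfst t ∧ η₁ ⊆ zfst t ∧
            ∀ x ∈ zsnd t, zapp f₁ (restr x η₁) ∉ zapp f₀ (restr x η₀)) ∨
          (t ∈ wD (pair η₁ f₁) ∧
            wR (pair t (pair η₁ f₁)) ∈ wR (pair t₀ (pair η₀ f₀))) := by
  classical
  let wD : ZFSet.{u} → ZFSet.{u} := fun p =>
    ZFSet.sep (fun t => WW δ t (zfst p) (zsnd p)) (CS δ)
  let rk : ZFSet.{u} → Ordinal.{u} := fun p =>
    sInf {α | Wst δ α (zfst p) (zfst (zsnd p)) (zsnd (zsnd p))}
  let wR : ZFSet.{u} → ZFSet.{u} := fun p => (rk p).toZFSet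
  let wE : ZFSet.{u} → ZFSet.{u} := fun p =>
    ZFSet.sep (fun t => IsCond δ t ∧
      (¬ Stat (zfst t ∪ zfst (zfst p)) (meet t (zfst p)) ∨
        (zfst (zfst (zsnd p)) ⊆ zfst t ∧ zfst (zsnd (zsnd p)) ⊆ zfst t ∧
          ∀ x ∈ zsnd t, zapp (zsnd (zsnd (zsnd p))) (restr x (zfst (zsnd (zsnd p)))) ∉
            zapp (zsnd (zfst (zsnd p))) (restr x (zfst (zfst (zsnd p))))) ∨
        (t ∈ wD (zsnd (zsnd p)) ∧
          wR (pair t (zsnd (zsnd p))) ∈ wR (pair (zfst p) (zfst (zsnd p)))))) (CS δ)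
  have mem_wD : ∀ t η f, t ∈ wD (pair η f) ↔ WW δ t η f := by
    intro t η f
    show t ∈ ZFSet.sep _ _ ↔ _
    rw [mem_sep, zfst_pair, zsnd_pair]
    exact ⟨fun h => h.2, fun h => ⟨mem_CS h.cond, h⟩⟩
  refine ⟨wD, wE, wR, ?_, ?_⟩
  · intro η f hη
    refine ⟨fun t ht => ((mem_wD t η f).1 ht).cond, fun t ht => ?_⟩
    obtain ⟨s, hs1, hs2, hs3⟩ := exists_lift ht hη
    obtain ⟨t', h1, h2, h3⟩ := dense_WW hδ (f := f) hs1 hη hs3
    exact ⟨t', (mem_wD t' η f).2 h3, compat_of_le h1 (le_trans' h2 hs2) (le_refl' h1)⟩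
  · intro η₀ f₀ t₀ η₁ f₁ hη₀ hη₁ ht₀
    rw [mem_wD] at ht₀
    have mem_wE : ∀ t, t ∈ wE (pair t₀ (pair (pair η₀ f₀) (pair η₁ f₁))) ↔ IsCond δ t ∧
        (¬ Stat (zfst t ∪ zfst t₀) (meet t t₀) ∨
          (η₀ ⊆ zfst t ∧ η₁ ⊆ zfst t ∧
            ∀ x ∈ zsnd t, zapp f₁ (restr x η₁) ∉ zapp f₀ (restr x η₀)) ∨
          (t ∈ wD (pair η₁ f₁) ∧
            wR (pair t (pair η₁ f₁)) ∈ wR (pair t₀ (pair η₀ f₀)))) := by
      intro t
      show t ∈ ZFSet.sep _ _ ↔ _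
      rw [mem_sep]
      simp only [zfst_pair, zsnd_pair]
      exact ⟨fun h => h.2, fun h => ⟨mem_CS h.1, h⟩⟩
    refine ⟨⟨fun t ht => ((mem_wE t).1 ht).1, fun s hs => ?_⟩, fun t ht => ((mem_wE t).1 ht).2⟩
    by_cases hc : Compat s t₀
    · obtain ⟨m, hm1, hm2, hm3⟩ := exists_meet hs ht₀.cond hc
      obtain ⟨m', hm1', hm2', hm3'⟩ := exists_lift hm1 hη₁
      have hη₀m : η₀ ⊆ zfst m' := fun x hx => hm2'.1 (hm3.1 (ht₀.sub hx))
      obtain ⟨l, hl1, hl2, hl3, hl4⟩ := exists_split hm1'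
        (fun x => zapp f₁ (restr x η₁) ∈ zapp f₀ (restr x η₀))
      have hls : Le l s := le_trans' hl2 (le_trans' hm2' hm2)
      have hlt : Le l t₀ := le_trans' hl2 (le_trans' hm2' hm3)
      rcases hl4 with hl4 | hl4
      · -- the move
        have hmv : Mv δ t₀ η₀ f₀ l η₁ f₁ := ⟨hl1, hlt, hη₁, by rw [hl3]; exact hm3', hl4⟩
        have hr0 : Wst δ (rk (pair t₀ (pair η₀ f₀))) t₀ η₀ f₀ := by
          have h1 : (sInf {α | Wst δ α t₀ η₀ f₀}) ∈ {α | Wst δ α t₀ η₀ f₀} := csInf_mem ht₀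
          have h2 : rk (pair t₀ (pair η₀ f₀)) = sInf {α | Wst δ α t₀ η₀ f₀} := by
            show sInf _ = _
            simp only [zfst_pair, zsnd_pair]
          rw [h2]
          exact h1
        obtain ⟨β, hβ, t'', h1, h2, h3⟩ := (wst_iff.1 hr0).2.2 l η₁ f₁ hmv
        refine ⟨t'', (mem_wE t'').2 ⟨h1, Or.inr (Or.inr ⟨(mem_wD _ _ _).2 ⟨β, h3⟩, ?_⟩)⟩,
          compat_of_le h1 (le_trans' h2 hls) (le_refl' h1)⟩
        apply Ordinal.mem_toZFSet_iff.2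
        refine ⟨_, ?_, rfl⟩
        refine lt_of_le_of_lt ?_ hβ
        show sInf _ ≤ _
        simp only [zfst_pair, zsnd_pair]
        exact csInf_le' h3
      · refine ⟨l, (mem_wE l).2 ⟨hl1, Or.inr (Or.inl ⟨?_, ?_, hl4⟩)⟩,
          compat_of_le hl1 hls (le_refl' hl1)⟩
        · rw [hl3]; exact hη₀m
        · rw [hl3]; exact hm3'
    · refine ⟨s, (mem_wE s).2 ⟨hs, Or.inl ?_⟩, compat_of_le hs (le_refl' hs) (le_refl' hs)⟩
      rw [← compat_iff hs ht₀.cond]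
      exact hc

end H94W
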