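import Pool.Agent.Lib.H94W.PIBasic
import Pool.Agent.Lib.H94W.RankLemma

/-!
# Project Woodin, chunk G: one step preserves well-foundedness

`E` contains the functions `wD`, `wE`, `wR` of `rank_lemma`.  Given a descending sequence
`x_n = f_n (sd i η_n)` choose by recursion `t_n ∈ N i`, `t_n ∈ wD (η_n, f_n)`,
`sd i (zfst t_n) ∈ zsnd t_n`, with `wR (t_n, (η_n, f_n))` descending, using `gen` for
`wE (t_n, ((η_n, f_n), (η_{n+1}, f_{n+1})))`; the first two alternatives contradict `ultra` and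
`sd_coh`.
-/

set_option autoImplicit false

namespace H94W

open Ordinal Cardinal ZFSet

universe u v w

/-- Recursive choice of a sequence. -/
theorem exists_rec_seq {α : Type v} {Q : ℕ → α → Prop} {R : ℕ → α → α → Prop}
    (h0 : ∃ t, Q 0 t) (hs : ∀ n t, Q n t → ∃ t', Q (n + 1) t' ∧ R n t t') :
    ∃ t : ℕ → α, (∀ n, Q n (t n)) ∧ ∀ n, R n (t n) (t (n + 1)) := by
  let F : ∀ n, {t // Q n t} := fun n =>
    Nat.rec (motive := fun n => {t // Q n t}) ⟨h0.choose, h0.choose_spec⟩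
      (fun n ih => ⟨(hs n ih.1 ih.2).choose, (hs n ih.1 ih.2).choose_spec.1⟩) n
  exact ⟨fun n => (F n).1, fun n => (F n).2, fun n => (hs n (F n).1 (F n).2).choose_spec.2⟩

variable {δ : Ordinal.{u}} {P : ℕ → ZFSet.{u} → ZFSet.{u}} {M : Type v}

/-- The first component of an element of a predense set is a level. -/
theorem Alg.ltd_fst_of_pred (A : Alg δ P M) (d t : M) (hd : A.T (A.fn .pred d))
    (ht : A.mem t d) : A.T (A.fn .ltd (A.fn .fst t)) := by
  have t2 := A.transfer (.imp (.and (.tr (.f .pred (.v 0))) (.mem (.v 1) (.v 0)))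
    (.tr (.f .ltd (.f .fst (.v 1))))) (by
      intro ρ
      simp only [QF.evU, Tm.evU, eval, zb_eq_one]
      rintro ⟨h1, h2⟩
      obtain ⟨η', a, h3, _, _, h4⟩ := h1.1 _ h2
      rw [h4, zfst_pair]
      exact h3)
    (fun i' => match i' with | 0 => d | _ => t)
  exact t2 ⟨hd, ht⟩

/-- The code of the matrix of `meet`. -/
def meetC : Code :=
  .comp .and (.pair
    (.comp .mem (.pair (.comp .restr (.pair .fst (.comp .fst (.comp .fst .snd))))
      (.comp .snd (.comp .fst .snd))))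
    (.comp .mem (.pair (.comp .restr (.pair .fst (.comp .fst (.comp .snd .snd))))
      (.comp .snd (.comp .snd .snd)))))

theorem eval_meetC (t t' : ZFSet.{u}) :
    eval δ P (.sep meetC) (pair (DOM (zfst t ∪ zfst t')) (pair t t')) = meet t t' := by
  ext y
  simp only [meetC, eval, meet, mem_sep, zfst_pair, zsnd_pair, zb_eq_one]

/-- Conditions of `N i` whose seeds belong to them are compatible. -/
theorem IsPI.stat_meet {A : Alg δ P M} {D : PD M} (hD : IsPI A D) {i : M} (hi : i ∈ D.ix)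
    {t t' : M} (ht : t ∈ D.N i) (ht' : t' ∈ D.N i) (hl : A.T (A.fn .ltd (A.fn .fst t)))
    (hl' : A.T (A.fn .ltd (A.fn .fst t')))
    (hs : A.mem (D.sd i (A.fn .fst t)) (A.fn .snd t))
    (hs' : A.mem (D.sd i (A.fn .fst t')) (A.fn .snd t')) :
    A.T (A.fn .stat (A.pr (A.fn .un (A.pr (A.fn .fst t) (A.fn .fst t')))
      (A.fn (.sep meetC) (A.pr (A.fn .dom (A.fn .un (A.pr (A.fn .fst t) (A.fn .fst t'))))
        (A.pr t t'))))) := by
  by_contra hcon
  have hf : A.fn .fst t ∈ D.N i := hD.N_fn i hi _ ht _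
  have hf' : A.fn .fst t' ∈ D.N i := hD.N_fn i hi _ ht' _
  have hu : A.fn .un (A.pr (A.fn .fst t) (A.fn .fst t')) ∈ D.N i :=
    hD.N_fn i hi _ (hD.N_pr i hi _ hf _ hf') _
  have h1 := hD.not_of_not_stat hi hu (hD.N_pr i hi _ ht _ ht') (A.ltd_un _ _ hl hl') meetC hcon
  apply h1
  simp only [meetC, A.fn_comp, A.fn_pair, A.fn_snd, A.fn_fst]
  rw [A.T_and, hD.sd_coh' hi hf hf' hl hl', hD.sd_coh i hi _ hf _ hf' hl hl']
  exact ⟨hs, hs'⟩

theorem step_wf {δ : Ordinal.{u}} (hδ : Capt δ) :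
    ∃ E : ℕ → ZFSet.{u} → ZFSet.{u}, ∀ P, Has P E → ∀ (M : Type v) (A : Alg δ P M) (D : PD M),
      IsPI A D → ∀ i ∈ D.ix, Wf A (D.N i) → Wf A (D.Cs A i) := by
  obtain ⟨wD, wE, wR, hD1, hD2⟩ := rank_lemma hδ
  refine ⟨fun n => if n = 0 then wD else if n = 1 then wE else wR, ?_⟩
  intro P hP M A D hD i hi hwf
  obtain ⟨k₀, h₀⟩ := hP 0
  obtain ⟨k₁, h₁⟩ := hP 1
  obtain ⟨k₂, h₂⟩ := hP 2
  simp only [if_true] at h₀
  simp only [one_ne_zero, if_false, if_true] at h₁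
  have h₂' : P k₂ = wR := h₂
  clear h₂
  rintro ⟨x, hx, hdesc⟩
  choose f hf η hη hl hxe using hx
  -- the sets `wD (η_n, f_n)` are predense
  have hpD : ∀ n, A.T (A.fn .pred (A.fn (.prim k₀) (A.pr (η n) (f n)))) := by
    intro n
    have t1 := A.transfer (.imp (.tr (.f .ltd (.v 0)))
      (.tr (.f .pred (.f (.prim k₀) (.p (.v 0) (.v 1)))))) (by
        intro ρ
        simp only [QF.evU, Tm.evU, eval, zb_eq_one, h₀]
        exact fun h => hD1 _ _ h)
      (fun i' => match i' with | 0 => η n | _ => f n)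
    exact t1 (hl n)
  have hN2 : ∀ n, A.pr (η n) (f n) ∈ D.N i := fun n => hD.N_pr i hi _ (hη n) _ (hf n)
  let Q : ℕ → M → Prop := fun n t => t ∈ D.N i ∧
    A.mem t (A.fn (.prim k₀) (A.pr (η n) (f n))) ∧ A.mem (D.sd i (A.fn .fst t)) (A.fn .snd t)
  let R : ℕ → M → M → Prop := fun n t t' =>
    A.mem (A.fn (.prim k₂) (A.pr t' (A.pr (η (n + 1)) (f (n + 1)))))
      (A.fn (.prim k₂) (A.pr t (A.pr (η n) (f n))))
  have h0 : ∃ t, Q 0 t := by
    obtain ⟨t, ht, h1, h2⟩ := hD.gen i hi _ (hD.N_fn i hi _ (hN2 0) (.prim k₀)) (hpD 0)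
    exact ⟨t, ht, h1, h2⟩
  have hs : ∀ n t, Q n t → ∃ t', Q (n + 1) t' ∧ R n t t' := by
    rintro n t₀ ⟨ht₀, hm₀, hs₀⟩
    have hl₀ := A.ltd_fst_of_pred _ _ (hpD n) hm₀
    -- the predense set `wE`
    have t1 := A.transfer (.imp (.and (.and (.tr (.f .ltd (.v 0))) (.tr (.f .ltd (.v 3))))
        (.mem (.v 2) (.f (.prim k₀) (.p (.v 0) (.v 1)))))
      (.tr (.f .pred (.f (.prim k₁) (.p (.v 2) (.p (.p (.v 0) (.v 1)) (.p (.v 3) (.v 4)))))))) (by
        intro ρ
        simp only [QF.evU, Tm.evU, eval, zb_eq_one, h₀, h₁]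
        rintro ⟨⟨h1, h2⟩, h3⟩
        exact (hD2 _ _ _ _ _ h1 h2 h3).1)
      (fun i' => match i' with
        | 0 => η n | 1 => f n | 2 => t₀ | 3 => η (n + 1) | _ => f (n + 1))
    have hpE : A.T (A.fn .pred (A.fn (.prim k₁)
        (A.pr t₀ (A.pr (A.pr (η n) (f n)) (A.pr (η (n + 1)) (f (n + 1))))))) :=
      t1 ⟨⟨hl n, hl (n + 1)⟩, hm₀⟩
    have hqN : A.pr t₀ (A.pr (A.pr (η n) (f n)) (A.pr (η (n + 1)) (f (n + 1)))) ∈ D.N i :=
      hD.N_pr i hi _ ht₀ _ (hD.N_pr i hi _ (hN2 n) _ (hN2 (n + 1)))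
    obtain ⟨t, ht, htE, hts⟩ := hD.gen i hi _ (hD.N_fn i hi _ hqN (.prim k₁)) hpE
    have hlt := A.ltd_fst_of_pred _ _ hpE htE
    have hft : A.fn .fst t ∈ D.N i := hD.N_fn i hi _ ht _
    -- the alternatives
    have t2 := A.transfer (.imp (.and (.and (.and (.tr (.f .ltd (.v 0))) (.tr (.f .ltd (.v 3))))
          (.mem (.v 2) (.f (.prim k₀) (.p (.v 0) (.v 1)))))
          (.and (.mem (.v 5) (.f (.prim k₁) (.p (.v 2) (.p (.p (.v 0) (.v 1)) (.p (.v 3) (.v 4))))))
            (.mem (.v 6) (.f .snd (.v 5)))))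
      (.or (.not (.tr (.f .stat (.p (.f .un (.p (.f .fst (.v 5)) (.f .fst (.v 2))))
          (.f (.sep meetC) (.p (.f .dom (.f .un (.p (.f .fst (.v 5)) (.f .fst (.v 2)))))
            (.p (.v 5) (.v 2))))))))
        (.or (.and (.eq (.f .un (.p (.f .fst (.v 5)) (.v 0))) (.f .fst (.v 5)))
            (.and (.eq (.f .un (.p (.f .fst (.v 5)) (.v 3))) (.f .fst (.v 5)))
              (.not (.mem (.f .app (.p (.v 4) (.f .restr (.p (.v 6) (.v 3)))))
                (.f .app (.p (.v 1) (.f .restr (.p (.v 6) (.v 0)))))))))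
          (.and (.mem (.v 5) (.f (.prim k₀) (.p (.v 3) (.v 4))))
            (.mem (.f (.prim k₂) (.p (.v 5) (.p (.v 3) (.v 4))))
              (.f (.prim k₂) (.p (.v 2) (.p (.v 0) (.v 1))))))))) (by
        intro ρ
        have hm : eval δ P (.sep meetC) (pair (eval δ P .dom (eval δ P .un
            (pair (zfst (ρ 5)) (zfst (ρ 2))))) (pair (ρ 5) (ρ 2))) = meet (ρ 5) (ρ 2) := by
          have h1 : eval δ P .dom (eval δ P .un (pair (zfst (ρ 5)) (zfst (ρ 2)))) =
              DOM (zfst (ρ 5) ∪ zfst (ρ 2)) := by simp [eval]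
          rw [h1, eval_meetC]
        show _ → _
        rintro ⟨⟨⟨h1, h2⟩, h3⟩, h4, h5⟩
        simp only [Tm.evU, QF.evU, eval, zb_eq_one] at h1 h2
        have h3' : ρ 2 ∈ wD (pair (ρ 0) (ρ 1)) := by
          simpa only [Tm.evU, QF.evU, eval, h₀] using h3
        have h4' : ρ 5 ∈ wE (pair (ρ 2) (pair (pair (ρ 0) (ρ 1)) (pair (ρ 3) (ρ 4)))) := by
          simpa only [Tm.evU, QF.evU, eval, h₁] using h4
        have h5' : ρ 6 ∈ zsnd (ρ 5) := h5
        rcases (hD2 _ _ _ _ _ h1 h2 h3').2 _ h4' with h | h | h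
        · left
          show ¬ (eval δ P .stat _ = one)
          intro h6
          have h7 : eval δ P .stat (pair (zfst (ρ 5) ∪ zfst (ρ 2)) (meet (ρ 5) (ρ 2))) = one := by
            rw [← hm]
            simpa [Tm.evU, eval] using h6
          simp only [eval, zb_eq_one, zfst_pair, zsnd_pair] at h7
          exact h h7.2
        · right; left
          obtain ⟨ha, hb, hc⟩ := h
          have hun : ∀ y : ZFSet.{u}, y ⊆ zfst (ρ 5) → zfst (ρ 5) ∪ y = zfst (ρ 5) := by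
            intro y hy
            ext z
            rw [mem_union]
            exact ⟨fun h => h.elim (fun h => h) (fun h => hy h), Or.inl⟩
          simp only [Tm.evU, QF.evU, eval, zfst_pair, zsnd_pair]
          exact ⟨hun _ ha, hun _ hb, hc _ h5'⟩
        · right; right
          simp only [Tm.evU, QF.evU, eval, h₀, h₂']
          exact h)
      (fun i' => match i' with
        | 0 => η n | 1 => f n | 2 => t₀ | 3 => η (n + 1) | 4 => f (n + 1) | 5 => t
        | _ => D.sd i (A.fn .fst t))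
    rcases t2 ⟨⟨⟨hl n, hl (n + 1)⟩, hm₀⟩, htE, hts⟩ with h | h | h
    · exact absurd (hD.stat_meet hi ht ht₀ hlt hl₀ hts hs₀) h
    · exfalso
      have ha : A.fn .un (A.pr (A.fn .fst t) (η n)) = A.fn .fst t := h.1
      have hb : A.fn .un (A.pr (A.fn .fst t) (η (n + 1))) = A.fn .fst t := h.2.1
      have hc : ¬ A.mem (A.fn .app (A.pr (f (n + 1))
          (A.fn .restr (A.pr (D.sd i (A.fn .fst t)) (η (n + 1))))))
          (A.fn .app (A.pr (f n) (A.fn .restr (A.pr (D.sd i (A.fn .fst t)) (η n))))) := h.2.2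
      have ha' := hD.sd_coh i hi _ hft _ (hη n) hlt (hl n)
      have hb' := hD.sd_coh i hi _ hft _ (hη (n + 1)) hlt (hl (n + 1))
      rw [ha] at ha'
      rw [hb] at hb'
      rw [ha', hb'] at hc
      apply hc
      have := hdesc n
      rwa [hxe (n + 1), hxe n] at this
    · exact ⟨t, ⟨ht, h.1, hts⟩, h.2⟩
  obtain ⟨t, ht, htR⟩ := exists_rec_seq h0 hs
  exact hwf ⟨fun n => A.fn (.prim k₂) (A.pr (t n) (A.pr (η n) (f n))),
    fun n => hD.N_fn i hi _ (hD.N_pr i hi _ (ht n).1 _ (hN2 n)) _, htR⟩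

end H94W
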