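import Pool.Agent.Lib.H94W.CodePI
import Pool.Agent.Lib.H94W.StepWf
import Pool.Agent.Lib.H94W.Closure
import Pool.Agent.Lib.H94W.Clip

/-!
# Project Woodin, chunk K: iterability (nonexistence of bad sets)

Let `E` be the list of `step_wf`, `P ⊇ E`.  Say that `(γ, η)` (ordinals) fails if for every
`F : ℕ → ZFSet → ZFSet` there is `X`, `Good F X`, `γ, η ∈ X`, `Bad δ P γ η X`.  If no pair fails
choose `F^{γ,η}` and let `G` contain all `⟨⟨γ, η⟩, x⟩ ↦ F^{γ,η}_n x` (then `Good G X`,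
`γ, η ∈ X` implies `Good F^{γ,η} X`).

Suppose that `(γ, η)` is the lexicographically least failing pair.  Choose `F^{γ',η'}` for the
smaller pairs.  By `exists_nice` let `Z = V_θ`, `γ, η ∈ Z`, be nice, closed under all codes and
under all `⟨η', x⟩ ↦ F^{γ,η'}_n x`.  Let `Φ` be the set function with
`zapp Φ ⟨n, ⟨η', x⟩⟩ = F^{γ,η'}_n x` for `η' ∈ η`, `x ∈ Z`, and let `R` be given by
`tree_lemma` for `p = ⟨γ, Φ⟩`, `κ` from `code_pi` (the hypothesis `hno` holds by soundness).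
Let `F` contain: constant functions with values `Z, Φ, η, γ, R n`, all codes, all
`⟨⟨γ', η'⟩, x⟩ ↦ F^{γ',η'}_n x` for `γ' ∈ γ`.  Since `(γ, η)` fails there is `X` with
`Good F X`, and `A, D, y, s` on `ℕ` witnessing `Bad δ P γ η X`.  Let `e` be the inverse of `y`.
`mem` is well-founded on the base and on `ix`.

(1) `N β` is well-founded for each `β ∈ ix`: otherwise, by `bound`, there is a descending
sequence in `N β` starting with `e η''`, `η'' ∈ X` an ordinal, and so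
`Bad δ P (y β) η'' X` (restrict to `car = N β`, then transport to `ℕ` with `exists_isoNat`);
but `Good F^{y β, η''} X`.

(2) If `ix` is empty then `car = base` is well-founded, contradiction.  If `ix` has a largest
element `β` then `car = Cs β` is well-founded by `step_wf`, contradiction.

(3) Otherwise there is `β ∈ ix` with `s 1 ∈ N β`.  Let `D'` have `car = {x | x ∈ Z}` (in the
sense of the algebra), `base = {x ∈ N β | x ∈ Z}`, `ix = {i ∈ ix | i = β or β ∈ i}`,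
`N i ∩ {x | x ∈ Z}`, `sd` the same.  This satisfies `IsPI`
(for `x = f (sd i ζ) ∈ Z` one may replace `f ∈ N i` by the clipped function
`zlam (DOM ζ) (fun u => if f u ∈ Z then f u else ∅)`, which is in `Z` as `Z` is nice).
By completeness (with the sequence `s 1, s 2, …`) there are `c`, `y'`, with `y' i ∈ N β`,
`y' i ∈ Z`, satisfying all the constraints, which contradicts the choice of `R`
(`W = N β`, `ζ = s 1`, which is an element of `η` in the sense of the algebra).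
-/

set_option autoImplicit false

namespace H94W

open Ordinal Cardinal ZFSet

universe u v w

namespace NB

/-! ### Transfer to algebras -/

/-- three variables -/
def v3 {α : Type v} (a b c : α) : ℕ → α
  | 0 => a
  | 1 => b
  | _ => c

/-- four variables -/
def v4 {α : Type v} (a b c d : α) : ℕ → α
  | 0 => a
  | 1 => b
  | 2 => c
  | _ => d

section

variable {δ : Ordinal.{u}} {P : ℕ → ZFSet.{u} → ZFSet.{u}} {M : Type v} (A : Alg δ P M)

theorem A_pair {Z x y : M} (hZ : A.T (A.fn .nice Z)) (hx : A.mem x Z) (hy : A.mem y Z) :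
    A.mem (A.pr x y) Z := by
  have := A.transfer (.imp (.and (.tr (.f .nice (.v 0)))
    (.and (.mem (.v 1) (.v 0)) (.mem (.v 2) (.v 0)))) (.mem (.p (.v 1) (.v 2)) (.v 0))) (by
      intro ρ
      simp only [QF.evU, Tm.evU, eval, zb_eq_one]
      rintro ⟨h1, h2, h3⟩
      exact nice_pair h1 h2 h3) (v3 Z x y)
  exact this ⟨hZ, hx, hy⟩

theorem A_trans {Z x y : M} (hZ : A.T (A.fn .nice Z)) (hx : A.mem x y) (hy : A.mem y Z) :
    A.mem x Z := by
  have := A.transfer (.imp (.and (.tr (.f .nice (.v 0)))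
    (.and (.mem (.v 1) (.v 2)) (.mem (.v 2) (.v 0)))) (.mem (.v 1) (.v 0))) (by
      intro ρ
      simp only [QF.evU, Tm.evU, eval, zb_eq_one]
      rintro ⟨h1, h2, h3⟩
      exact nice_trans h1 h2 h3) (v3 Z x y)
  exact this ⟨hZ, hx, hy⟩

theorem A_ltd {Z x : M} (hZ : A.T (A.fn .nice Z)) (hx : A.T (A.fn .ltd x)) : A.mem x Z := by
  have := A.transfer (.imp (.and (.tr (.f .nice (.v 0))) (.tr (.f .ltd (.v 1))))
    (.mem (.v 1) (.v 0))) (by
      intro ρ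
      simp only [QF.evU, Tm.evU, eval, zb_eq_one]
      rintro ⟨h1, h2⟩
      exact nice_ltd h1 h2) (v3 Z x x)
  exact this ⟨hZ, hx⟩

theorem A_dom {Z x y : M} (hZ : A.T (A.fn .nice Z)) (hy : A.mem y Z) (hx : A.mem x (A.fn .dom y)) :
    A.mem x Z := by
  have := A.transfer (.imp (.and (.tr (.f .nice (.v 0)))
    (.and (.mem (.v 2) (.v 0)) (.mem (.v 1) (.f .dom (.v 2))))) (.mem (.v 1) (.v 0))) (by
      intro ρ
      simp only [QF.evU, Tm.evU, eval, zb_eq_one]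
      rintro ⟨h1, h2, h3⟩
      exact nice_dom h1 h2 h3) (v3 Z x y)
  exact this ⟨hZ, hy, hx⟩

theorem A_app {Z f x : M} (hZ : A.T (A.fn .nice Z)) (hf : A.mem f Z) :
    A.mem (A.fn .app (A.pr f x)) Z := by
  have := A.transfer (.imp (.and (.tr (.f .nice (.v 0))) (.mem (.v 1) (.v 0)))
    (.mem (.f .app (.p (.v 1) (.v 2))) (.v 0))) (by
      intro ρ
      simp only [QF.evU, Tm.evU, eval, zb_eq_one, zfst_pair, zsnd_pair]
      rintro ⟨h1, h2⟩
      exact nice_app h1 h2) (v3 Z f x)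
  exact this ⟨hZ, hf⟩

theorem A_lamA_mem {Z ζ f : M} (hZ : A.T (A.fn .nice Z)) (hζ : A.T (A.fn .ltd ζ)) :
    A.mem (A.fn lamA (A.pr ζ (A.pr f Z))) Z := by
  have := A.transfer (.imp (.and (.tr (.f .nice (.v 0))) (.tr (.f .ltd (.v 1))))
    (.mem (.f lamA (.p (.v 1) (.p (.v 2) (.v 0)))) (.v 0))) (by
      intro ρ
      simp only [QF.evU, Tm.evU]
      rw [eval_lamA]
      simp only [eval, zb_eq_one]
      rintro ⟨h1, h2⟩
      obtain ⟨θ, h3, h4, h5, h6⟩ := id h1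
      apply h6 _ h2
      intro y _
      by_cases h : zapp (ρ 2) y ∈ ρ 0
      · rw [(eval_clipC δ P _ _).1 h]; exact h
      · rw [(eval_clipC δ P _ _).2 h]; exact nice_empty h1) (v3 Z ζ f)
  exact this ⟨hZ, hζ⟩

theorem A_lamA_app {Z ζ f x : M} (hx : A.mem x (A.fn .dom ζ))
    (hf : A.mem (A.fn .app (A.pr f x)) Z) :
    A.fn .app (A.pr (A.fn lamA (A.pr ζ (A.pr f Z))) x) = A.fn .app (A.pr f x) := by
  have := A.transfer (.imp (.and (.mem (.v 3) (.f .dom (.v 1)))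
      (.mem (.f .app (.p (.v 2) (.v 3))) (.v 0)))
    (.eq (.f .app (.p (.f lamA (.p (.v 1) (.p (.v 2) (.v 0)))) (.v 3)))
      (.f .app (.p (.v 2) (.v 3))))) (by
      intro ρ
      simp only [QF.evU, Tm.evU]
      rw [eval_lamA]
      simp only [eval, zfst_pair, zsnd_pair]
      rintro ⟨h1, h2⟩
      rw [zapp_zlam h1, (eval_clipC δ P _ _).1 h2]) (v4 Z ζ f x)
  exact this ⟨hx, hf⟩

theorem A_idA {ζ x : M} (hx : A.mem x (A.fn .dom ζ)) :
    A.fn .app (A.pr (A.fn idA ζ) x) = x := by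
  have := A.transfer (.imp (.mem (.v 1) (.f .dom (.v 0)))
    (.eq (.f .app (.p (.f idA (.v 0)) (.v 1))) (.v 1))) (by
      intro ρ
      simp only [QF.evU, Tm.evU]
      rw [eval_idA]
      simp only [eval, zfst_pair, zsnd_pair]
      intro h1
      rw [zapp_zlam h1]) (v3 ζ x x)
  exact this hx

theorem A_tri {x y : M} (hx : A.T (A.fn .ord x)) (hy : A.T (A.fn .ord y)) :
    A.mem x y ∨ x = y ∨ A.mem y x := by
  have := A.transfer (.imp (.and (.tr (.f .ord (.v 0))) (.tr (.f .ord (.v 1))))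
    (.or (.mem (.v 0) (.v 1)) (.or (.eq (.v 0) (.v 1)) (.mem (.v 1) (.v 0))))) (by
      intro ρ
      simp only [QF.evU, Tm.evU, eval, zb_eq_one]
      rintro ⟨h1, h2⟩
      exact h1.mem_trichotomous h2) (v3 x y y)
  exact this ⟨hx, hy⟩

theorem A_rk {x y : M} (h : A.mem x y) : A.mem (A.fn .rk x) (A.fn .rk y) := by
  have := A.transfer (.imp (.mem (.v 0) (.v 1)) (.mem (.f .rk (.v 0)) (.f .rk (.v 1)))) (by
      intro ρ
      simp only [QF.evU, Tm.evU, eval]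
      intro h1
      rw [mem_toZFSet_iff]
      exact ⟨_, rank_lt_of_mem h1, rfl⟩) (v3 x y y)
  exact this h

end

/-! ### The clipped iteration -/

section

variable {δ : Ordinal.{u}} {P : ℕ → ZFSet.{u} → ZFSet.{u}} {M : Type v} {A : Alg δ P M} {D : PD M}

/-- the part of the iteration inside `Z`, after the step `β` -/
def clipPD (A : Alg δ P M) (D : PD M) (Z β : M) : PD M where
  car := {x | x ∈ D.car ∧ A.mem x Z}
  base := {x | x ∈ D.N β ∧ A.mem x Z}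
  ix := {i | i ∈ D.ix ∧ (i = β ∨ A.mem β i)}
  N i := {x | x ∈ D.N i ∧ A.mem x Z}
  sd := D.sd

/-- clipping: an element of `Cs i` that is in `Z` is in `Cs i` of the clipped iteration. -/
theorem clip_Cs (hD : IsPI A D) {Z β i x : M} (hi : i ∈ D.ix) (hZ : A.T (A.fn .nice Z))
    (hZb : Z ∈ D.base) (hx : x ∈ D.Cs A i) (hxZ : A.mem x Z) : x ∈ (clipPD A D Z β).Cs A i := by
  obtain ⟨f, hf, ζ, hζ, hl, rfl⟩ := hx
  refine ⟨A.fn lamA (A.pr ζ (A.pr f Z)), ⟨?_, A_lamA_mem A hZ hl⟩, ζ, ⟨hζ, A_ltd A hZ hl⟩, hl, ?_⟩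
  · exact hD.N_fn i hi _ (hD.N_pr i hi _ hζ _ (hD.N_pr i hi _ hf _ (hD.base_sub_N hi hZb))) _
  · exact (A_lamA_app A (hD.sd_mem i hi ζ hζ hl) hxZ).symm

theorem clip_Cs_sub {Z β i x : M} (hZ : A.T (A.fn .nice Z))
    (hx : x ∈ (clipPD A D Z β).Cs A i) : x ∈ D.Cs A i ∧ A.mem x Z := by
  obtain ⟨f, hf, ζ, hζ, hl, rfl⟩ := hx
  exact ⟨⟨f, hf.1, ζ, hζ.1, hl, rfl⟩, A_app A hZ hf.2⟩

theorem clip_isPI (hD : IsPI A D) {Z β : M} (hβ : β ∈ D.ix) (hZ : A.T (A.fn .nice Z))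
    (hZb : Z ∈ D.base) (hcl : ∀ c x, A.mem x Z → A.mem (A.fn c x) Z)
    (htt : A.mem A.tt Z) (hix : ∀ i ∈ D.ix, A.mem i Z) : IsPI A (clipPD A D Z β) := by
  have tri : ∀ i ∈ D.ix, A.mem i β ∨ (i = β ∨ A.mem β i) := fun i hi =>
    A_tri A (hD.ix_ord i hi) (hD.ix_ord β hβ)
  have sub : ∀ i, i ∈ D.ix → (i = β ∨ A.mem β i) → D.N β ⊆ D.N i := by
    intro i hi h
    rcases h with rfl | h
    · exact subset_rfl
    · exact hD.N_mono hβ hi h
  refine
    { car_fn := fun x hx c => ⟨hD.car_fn x hx.1 c, hcl c x hx.2⟩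
      car_pr := fun x hx y hy => ⟨hD.car_pr x hx.1 y hy.1, A_pair A hZ hx.2 hy.2⟩
      base_sub := fun x hx => ⟨hD.N_car β hβ hx.1, hx.2⟩
      base_tt := ⟨hD.base_sub_N hβ hD.base_tt, htt⟩
      base_fn := fun x hx c => ⟨hD.N_fn β hβ x hx.1 c, hcl c x hx.2⟩
      base_pr := fun x hx y hy => ⟨hD.N_pr β hβ x hx.1 y hy.1, A_pair A hZ hx.2 hy.2⟩
      ix_sub := fun i hi => ⟨hD.base_sub_N hβ (hD.ix_sub hi.1), hix i hi.1⟩
      ix_ord := fun i hi => hD.ix_ord i hi.1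
      N_car := fun i hi x hx => ⟨hD.N_car i hi.1 hx.1, hx.2⟩
      N_fn := fun i hi x hx c => ⟨hD.N_fn i hi.1 x hx.1 c, hcl c x hx.2⟩
      N_pr := fun i hi x hx y hy => ⟨hD.N_pr i hi.1 x hx.1 y hy.1, A_pair A hZ hx.2 hy.2⟩
      N_iff := ?_
      sd_car := fun i hi η hη hl => ⟨hD.sd_car i hi.1 η hη.1 hl,
        A_dom A hZ hη.2 (hD.sd_mem i hi.1 η hη.1 hl)⟩
      tot := ?_
      sd_mem := fun i hi η hη hl => hD.sd_mem i hi.1 η hη.1 hl
      sd_coh := fun i hi η hη ζ hζ hl hl' => hD.sd_coh i hi.1 η hη.1 ζ hζ.1 hl hl'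
      ultra := fun i hi η hη a ha hl h => hD.ultra i hi.1 η hη.1 a ha.1 hl h
      gen := ?_ }
  · intro i hi x
    constructor
    · rintro ⟨h1, h2⟩
      rcases (hD.N_iff i hi.1 x).1 h1 with h | ⟨j, hj, hji, h⟩
      · exact Or.inl ⟨hD.base_sub_N hβ h, h2⟩
      · rcases tri j hj with h3 | h3
        · exact Or.inl ⟨hD.Cs_sub hj hβ h3 h, h2⟩
        · exact Or.inr ⟨j, ⟨hj, h3⟩, hji, clip_Cs hD hj hZ hZb h h2⟩
    · rintro (⟨h1, h2⟩ | ⟨j, hj, hji, h⟩)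
      · exact ⟨sub i hi.1 hi.2 h1, h2⟩
      · obtain ⟨h3, h4⟩ := clip_Cs_sub hZ h
        exact ⟨hD.Cs_sub hj.1 hi.1 hji h3, h4⟩
  · intro x hx
    rcases hD.tot x hx.1 with h | ⟨j, hj, h⟩
    · exact Or.inl ⟨hD.base_sub_N hβ h, hx.2⟩
    · rcases tri j hj with h3 | h3
      · exact Or.inl ⟨hD.Cs_sub hj hβ h3 h, hx.2⟩
      · exact Or.inr ⟨j, ⟨hj, h3⟩, clip_Cs hD hj hZ hZb h hx.2⟩
  · intro i hi E hE hp
    obtain ⟨t, ht, h1, h2⟩ := hD.gen i hi.1 E hE.1 hp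
    exact ⟨t, ⟨ht, A_trans A hZ h1 hE.2⟩, h1, h2⟩

/-! ### The iteration before the step `β` -/

/-- the part of the iteration before the step `β` -/
def cutPD (A : Alg δ P M) (D : PD M) (β : M) : PD M where
  car := D.N β
  base := D.base
  ix := {i | i ∈ D.ix ∧ A.mem i β}
  N := D.N
  sd := D.sd

theorem cut_isPI (hD : IsPI A D) {β : M} (hβ : β ∈ D.ix) : IsPI A (cutPD A D β) := by
  refine
    { car_fn := fun x hx c => hD.N_fn β hβ x hx c
      car_pr := fun x hx y hy => hD.N_pr β hβ x hx y hy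
      base_sub := hD.base_sub_N hβ
      base_tt := hD.base_tt
      base_fn := hD.base_fn
      base_pr := hD.base_pr
      ix_sub := fun i hi => hD.ix_sub hi.1
      ix_ord := fun i hi => hD.ix_ord i hi.1
      N_car := fun i hi => hD.N_mono hi.1 hβ hi.2
      N_fn := fun i hi => hD.N_fn i hi.1
      N_pr := fun i hi => hD.N_pr i hi.1
      N_iff := ?_
      sd_car := ?_
      tot := ?_
      sd_mem := fun i hi => hD.sd_mem i hi.1
      sd_coh := fun i hi => hD.sd_coh i hi.1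
      ultra := fun i hi => hD.ultra i hi.1
      gen := fun i hi => hD.gen i hi.1 }
  · intro i hi x
    rw [show x ∈ (cutPD A D β).N i ↔ x ∈ D.N i from Iff.rfl, hD.N_iff i hi.1 x]
    constructor
    · rintro (h | ⟨j, hj, hji, h⟩)
      · exact Or.inl h
      · exact Or.inr ⟨j, ⟨hj, A.ord_trans j i β (hD.ix_ord β hβ) hi.2 hji⟩, hji, h⟩
    · rintro (h | ⟨j, hj, hji, h⟩)
      · exact Or.inl h
      · exact Or.inr ⟨j, hj.1, hji, h⟩
  · intro i hi η hη hl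
    apply hD.Cs_sub hi.1 hβ hi.2
    exact ⟨A.fn idA η, hD.N_fn i hi.1 η hη idA, η, hη, hl,
      (A_idA A (hD.sd_mem i hi.1 η hη hl)).symm⟩
  · intro x hx
    rcases (hD.N_iff β hβ x).1 hx with h | ⟨j, hj, hji, h⟩
    · exact Or.inl h
    · exact Or.inr ⟨j, ⟨hj, hji⟩, h⟩

/-! ### Transport to `ℕ` -/

theorem bad_of (hD : IsPI A D) (hc : D.car.Countable) {X : Set ZFSet.{u}} {e : ZFSet.{u} → M}
    (he : Emb A X e) (hb : D.base = e '' X) {γ η : ZFSet.{u}} (hγ : γ ∈ X) (hη : η ∈ X)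
    (hix : ∀ i ∈ D.ix, A.mem i (e γ)) (s : ℕ → M) (hs : ∀ n, s n ∈ D.car) (hs0 : s 0 = e η)
    (hsd : ∀ n, A.mem (s (n + 1)) (s n)) : Bad δ P γ η X := by
  classical
  obtain ⟨A', D', m, hI⟩ := exists_isoNat A D hD hc
  let g : M → ZFSet.{u} := fun x => if h : ∃ z, z ∈ X ∧ e z = x then h.choose else ∅
  have hg0 : ∀ x ∈ D.base, g x ∈ X ∧ e (g x) = x := by
    intro x hx
    rw [hb] at hx
    obtain ⟨z, hz, hzx⟩ := hx
    have h : ∃ z, z ∈ X ∧ e z = x := ⟨z, hz, hzx⟩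
    have e1 : g x = h.choose := dif_pos h
    rw [e1]
    exact h.choose_spec
  have hg : ∀ z ∈ X, g (e z) = z := by
    intro z hz
    have h1 := hg0 (e z) (by rw [hb]; exact ⟨z, hz, rfl⟩)
    exact he.inj h1.1 hz h1.2
  have hbX : ∀ z ∈ X, e z ∈ D.base := fun z hz => by rw [hb]; exact ⟨z, hz, rfl⟩
  have hm : ∀ x ∈ D.car, ∃ i, m i = x := by
    intro x hx
    obtain ⟨i, _, h⟩ := hI.bij.surjOn hx
    exact ⟨i, h⟩
  choose! mi hmi using hm
  refine ⟨A', D', g ∘ m, hI.pi, hI.car, ?_, ?_, ?_, ?_, ?_, fun n => mi (s n), ?_, ?_, ?_⟩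
  · intro i hi j hj hij
    have h1 := hg0 _ ((hI.base i).1 hi)
    have h2 := hg0 _ ((hI.base j).1 hj)
    have h3 : m i = m j := by
      rw [← h1.2, ← h2.2]
      exact congrArg e hij
    exact hI.bij.injOn (Set.mem_univ i) (Set.mem_univ j) h3
  · ext x
    constructor
    · rintro ⟨i, hi, rfl⟩
      exact (hg0 _ ((hI.base i).1 hi)).1
    · intro hx
      have h1 := hmi _ (hD.base_sub (hbX x hx))
      refine ⟨mi (e x), (hI.base _).2 (by rw [h1]; exact hbX x hx), ?_⟩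
      show g (m (mi (e x))) = x
      rw [h1, hg x hx]
  · intro i hi c
    have h1 := hg0 _ ((hI.base i).1 hi)
    show g (m (A'.fn c i)) = eval δ P c (g (m i))
    rw [hI.fn]
    conv_lhs => rw [← h1.2]
    rw [← he.fn _ h1.1 c, hg _ (he.cl_fn _ h1.1 c)]
  · intro i hi j hj
    have h1 := hg0 _ ((hI.base i).1 hi)
    have h2 := hg0 _ ((hI.base j).1 hj)
    show g (m (A'.pr i j)) = pair (g (m i)) (g (m j))
    rw [hI.pr]
    conv_lhs => rw [← h1.2, ← h2.2]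
    rw [← he.pr _ h1.1 _ h2.1, hg _ (he.cl_pair _ h1.1 _ h2.1)]
  · intro i hi
    have h0 := (hI.ix i).1 hi
    have h1 := hg0 _ (hD.ix_sub h0)
    have h2 := hix _ h0
    rw [← h1.2] at h2
    exact (he.mem h1.1 hγ).1 h2
  · show mi (s 0) ∈ D'.base
    rw [hI.base, hmi _ (hs 0), hs0]
    exact hbX η hη
  · show g (m (mi (s 0))) = η
    rw [hmi _ (hs 0), hs0, hg η hη]
  · intro n
    show A'.mem (mi (s (n + 1))) (mi (s n))
    rw [hI.mem, hmi _ (hs _), hmi _ (hs _)]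
    exact hsd n

/-- the models of a minimal iteration are well-founded -/
theorem wf_N (hD : IsPI A D) (hwf : Wf A D.ix) (hc : D.car.Countable) {X : Set ZFSet.{u}}
    {e : ZFSet.{u} → M} (he : Emb A X e) (hb : D.base = e '' X) {β : ZFSet.{u}} (hβX : β ∈ X)
    (hβ : e β ∈ D.ix) (hno : ∀ η ∈ X, IsOrdinal η → ¬ Bad δ P β η X) : Wf A (D.N (e β)) := by
  rintro ⟨t, ht, htd⟩
  obtain ⟨a, ha, hao, ham⟩ := bound A D hD hwf (t 0) (hD.N_car _ hβ (ht 0))
  rw [hb] at ha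
  obtain ⟨η, hη, rfl⟩ := ha
  have ho : IsOrdinal η := by
    rw [← he.fn η hη .ord, he.T (he.cl_fn η hη .ord)] at hao
    simpa [eval] using hao
  apply hno η hη ho
  apply bad_of (cut_isPI hD hβ) (hc.mono (hD.N_car _ hβ)) he hb hβX hη (fun i hi => hi.2)
    (fun n => match n with | 0 => e η | n + 1 => A.fn .rk (t n))
  · intro n
    cases n with
    | zero => exact hD.base_sub_N hβ (by rw [hb]; exact ⟨η, hη, rfl⟩)
    | succ n => exact hD.N_fn _ hβ _ (ht n) _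
  · rfl
  · intro n
    cases n with
    | zero => exact ham
    | succ n => exact A_rk A (htd n)

end

/-! ### The main argument -/

/-- the natural number coded by a set -/
noncomputable def natOf : ZFSet.{u} → ℕ :=
  Function.invFun fun n : ℕ => (n : Ordinal.{u}).toZFSet

theorem natOf_nat (n : ℕ) : natOf (n : Ordinal.{u}).toZFSet = n := by
  apply Function.leftInverse_invFun (f := fun n : ℕ => (n : Ordinal.{u}).toZFSet)
  intro a b h
  exact Nat.cast_injective (toZFSet_injective h)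

/-- `β` is not failing together with `η`. -/
def OK (δ : Ordinal.{u}) (P : ℕ → ZFSet.{u} → ZFSet.{u}) (γ η : Ordinal.{u}) : Prop :=
  ∃ F : ℕ → ZFSet.{u} → ZFSet.{u}, ∀ X, Good F X → γ.toZFSet ∈ X → η.toZFSet ∈ X →
    ¬ Bad δ P γ.toZFSet η.toZFSet X

/-- chunk J for algebras on `ℕ` -/
theorem cp (δ : Ordinal.{u}) (P : ℕ → ZFSet.{u} → ZFSet.{u}) : ∃ κ : List ℕ → Code,
    (∀ (γ Φ ζ Z : ZFSet.{u}) (F : ℕ → ZFSet.{u} → ZFSet.{u}),
      (∀ n : ℕ, ∀ y ∈ Z, zapp Φ (pair (n : Ordinal.{u}).toZFSet (pair ζ y)) = F n y) →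
      ∀ (c : ℕ → ℕ) (y : ℕ → ZFSet.{u}), (∀ i, y i ∈ Z) →
      (∀ n, eval δ P (κ (pre c n)) (pair (pair γ Φ) (wt pair ζ y n)) = one) →
      ∃ X : Set ZFSet.{u}, Good F X ∧ γ ∈ X ∧ ζ ∈ X ∧ Bad δ P γ ζ X) ∧
    (∀ (M : Type) (A : Alg δ P M) (D : PD M),
      IsPI A D → D.car.Countable → ∀ γ ∈ D.base, ∀ Φ : M, (∀ i ∈ D.ix, A.mem i γ) →
      ∀ s : ℕ → M, s 0 ∈ D.base → (∀ n, s n ∈ D.car) → (∀ n, A.mem (s (n + 1)) (s n)) →
      (∀ n, ∀ x ∈ D.base, A.fn .app (A.pr Φ (A.pr (A.fn (numC n) A.tt) (A.pr (s 0) x))) ∈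
        D.base) →
      ∃ (c : ℕ → ℕ) (y : ℕ → M), (∀ i, y i ∈ D.base) ∧
        ∀ n, A.T (A.fn (κ (pre c n)) (A.pr (A.pr γ Φ) (wt A.pr (s 0) y n)))) := by
  first
  | exact code_pi.{u, 0} δ P
  | (obtain ⟨κ, h1, h2⟩ := code_pi.{u, 0}
     exact ⟨κ, h1 δ P, h2 δ P⟩)

theorem ok_step {δ : Ordinal.{u}} {P : ℕ → ZFSet.{u} → ZFSet.{u}} (h0 : 0 < δ)
    (hstep : ∀ (M : Type) (A : Alg δ P M) (D : PD M), IsPI A D → ∀ i ∈ D.ix, Wf A (D.N i) →
      Wf A (D.Cs A i)) (γ η : Ordinal.{u}) (ih1 : ∀ γ' < γ, ∀ η', OK δ P γ' η')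
    (ih2 : ∀ η' < η, OK δ P γ η') : OK δ P γ η := by
  classical
  by_contra hf
  have hf : ∀ F : ℕ → ZFSet.{u} → ZFSet.{u}, ∃ X, Good F X ∧ γ.toZFSet ∈ X ∧ η.toZFSet ∈ X ∧
      Bad δ P γ.toZFSet η.toZFSet X := by
    intro F
    by_contra h
    apply hf
    refine ⟨F, fun X h1 h2 h3 h4 => h ⟨X, h1, h2, h3, h4⟩⟩
  choose! F1 hF1 using ih1
  choose! F2 hF2 using ih2
  have : Nonempty Code := ⟨Code.id⟩
  obtain ⟨en, hen⟩ := exists_surjective_nat Code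
  obtain ⟨κ, hκ1, hκ2⟩ := cp δ P
  -- the nice set
  let L1 : ℕ → ZFSet.{u} → ZFSet.{u} := fun n p =>
    match (Nat.unpair n).1 with
    | 0 => eval δ P (en (Nat.unpair n).2) p
    | _ => F2 (rank (zfst p)) (Nat.unpair n).2 (zsnd p)
  obtain ⟨θ, hθα, hθl, hnice, hθcl⟩ := exists_nice δ L1 (max γ η)
  obtain ⟨Z, hZdef⟩ : ∃ Z : ZFSet.{u}, Z = V_ θ := ⟨_, rfl⟩
  rw [← hZdef] at hnice hθcl
  have hcode : ∀ c, ∀ x ∈ Z, eval δ P c x ∈ Z := by
    intro c x hx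
    obtain ⟨k, rfl⟩ := hen c
    have := hθcl (Nat.pair 0 k) x hx
    simpa only [L1, Nat.unpair_pair] using this
  have hF2Z : ∀ k, ∀ p ∈ Z, F2 (rank (zfst p)) k (zsnd p) ∈ Z := by
    intro k p hp
    have := hθcl (Nat.pair 1 k) p hp
    simpa only [L1, Nat.unpair_pair] using this
  have hγZ : γ.toZFSet ∈ Z := by
    rw [hZdef, mem_vonNeumann, rank_toZFSet]; exact (le_max_left _ _).trans_lt hθα
  have hηZ : η.toZFSet ∈ Z := by
    rw [hZdef, mem_vonNeumann, rank_toZFSet]; exact (le_max_right _ _).trans_lt hθα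
  have hnZ : ∀ n : ℕ, (n : Ordinal.{u}).toZFSet ∈ Z := by
    intro n
    rw [← eval_numC δ P n γ.toZFSet]
    exact hcode _ _ hγZ
  -- the set function
  let Φ : ZFSet.{u} := zlam Z fun p => F2 (rank (zfst (zsnd p))) (natOf (zfst p)) (zsnd (zsnd p))
  have hΦZ : ∀ p ∈ Z, zapp Φ p ∈ Z := by
    intro p hp
    rw [zapp_zlam hp]
    exact hF2Z _ _ (hcode .snd p hp)
  have hΦ : ∀ (η' : Ordinal.{u}), η'.toZFSet ∈ Z → ∀ n : ℕ, ∀ x ∈ Z,
      zapp Φ (pair (n : Ordinal.{u}).toZFSet (pair η'.toZFSet x)) = F2 η' n x := by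
    intro η' hη' n x hx
    rw [zapp_zlam (nice_pair hnice (hnZ n) (nice_pair hnice hη' hx))]
    simp only [zfst_pair, zsnd_pair, rank_toZFSet, natOf_nat]
  -- no branch
  have hno : ∀ ζ ∈ η.toZFSet, ¬ ∃ (c : ℕ → ℕ) (y : ℕ → ZFSet.{u}), (∀ i, y i ∈ Z) ∧
      ∀ n, eval δ P (κ (pre c n)) (pair (pair γ.toZFSet Φ) (wt pair ζ y n)) = one := by
    rintro ζ hζ ⟨c, y, hy, hn⟩
    obtain ⟨η', hη', rfl⟩ := mem_toZFSet_iff.1 hζ
    obtain ⟨X, h1, h2, h3, h4⟩ := hκ1 γ.toZFSet Φ η'.toZFSet Z (F2 η')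
      (fun n y hy => hΦ η' (nice_trans hnice hζ hηZ) n y hy) c y hy hn
    exact hF2 η' hη' X h1 h2 h3 h4
  obtain ⟨R, hR⟩ := tree_lemma.{u, 0} δ P κ (pair γ.toZFSet Φ) Z η.toZFSet
    ⟨θ, hθl, hZdef⟩ hηZ hno
  -- the bad set
  let L2 : ℕ → ZFSet.{u} → ZFSet.{u} := fun n p =>
    match (Nat.unpair n).1 with
    | 0 => eval δ P (en (Nat.unpair n).2) p
    | 1 => Z
    | 2 => Φ
    | 3 => R (Nat.unpair n).2
    | _ => F1 (rank (zfst (zfst p))) (rank (zsnd (zfst p))) (Nat.unpair n).2 (zsnd p)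
  obtain ⟨X, hgX, hγX, hηX, A, D, y, hD, hcar, hinj, him, hyfn, hypr, hyix, s, hs0, hys0, hsd⟩ :=
    hf L2
  obtain ⟨hXc, hXne, hXcl, hXpair⟩ := hgX
  have hXcode : ∀ c, ∀ x ∈ X, eval δ P c x ∈ X := by
    intro c x hx
    obtain ⟨k, rfl⟩ := hen c
    have := hXcl (Nat.pair 0 k) x hx
    simpa only [L2, Nat.unpair_pair] using this
  have hZX : Z ∈ X := by
    have := hXcl (Nat.pair 1 0) _ hγX
    simpa only [L2, Nat.unpair_pair] using this
  have hΦX : Φ ∈ X := by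
    have := hXcl (Nat.pair 2 0) _ hγX
    simpa only [L2, Nat.unpair_pair] using this
  have hRX : ∀ n, R n ∈ X := by
    intro n
    have := hXcl (Nat.pair 3 n) _ hγX
    simpa only [L2, Nat.unpair_pair] using this
  have hF1X : ∀ γ' η' : Ordinal.{u}, γ'.toZFSet ∈ X → η'.toZFSet ∈ X → ∀ n, ∀ x ∈ X,
      F1 γ' η' n x ∈ X := by
    intro γ' η' h1 h2 n x hx
    have := hXcl (Nat.pair 4 n) _ (hXpair _ (hXpair _ h1 _ h2) _ hx)
    simpa only [L2, Nat.unpair_pair, zfst_pair, zsnd_pair, rank_toZFSet] using this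
  -- the inverse of `y`
  let e : ZFSet.{u} → ℕ := Function.invFunOn y D.base
  have he1 : ∀ x ∈ X, e x ∈ D.base ∧ y (e x) = x := by
    intro x hx
    rw [← him] at hx
    exact ⟨Function.invFunOn_mem hx, Function.invFunOn_eq hx⟩
  have hyX : ∀ i ∈ D.base, y i ∈ X := fun i hi => by rw [← him]; exact ⟨i, hi, rfl⟩
  have he2 : ∀ i ∈ D.base, e (y i) = i := by
    intro i hi
    have h := he1 _ (hyX i hi)
    exact hinj h.1 hi h.2
  have he : Emb A X e :=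
    { cl_fn := fun x hx c => hXcode c x hx
      cl_pair := hXpair
      ne := hXne
      fn := by
        intro x hx c
        have h := he1 x hx
        have h2 := hyfn _ h.1 c
        rw [h.2] at h2
        rw [← h2, he2 _ (hD.base_fn _ h.1 c)]
      pr := by
        intro x hx x' hx'
        have h := he1 x hx
        have h' := he1 x' hx'
        have h2 := hypr _ h.1 _ h'.1
        rw [h.2, h'.2] at h2
        rw [← h2, he2 _ (hD.base_pr _ h.1 _ h'.1)] }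
  have hb : D.base = e '' X := by
    ext i
    constructor
    · intro hi; exact ⟨y i, hyX i hi, he2 i hi⟩
    · rintro ⟨x, hx, rfl⟩; exact (he1 x hx).1
  have hc : ∀ S : Set ℕ, S.Countable := fun S => S.to_countable
  have hincar : ∀ i, i ∈ D.car := fun i => by rw [hcar]; exact Set.mem_univ i
  -- facts on the indices
  have hixγ : ∀ i ∈ D.ix, A.mem i (e γ.toZFSet) := by
    intro i hi
    have h1 := hD.ix_sub hi
    rw [← he2 i h1]
    exact (he.mem (hyX i h1) hγX).2 (hyix i hi)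
  have hixZ : ∀ i ∈ D.ix, A.mem i (e Z) := by
    intro i hi
    have h1 := hD.ix_sub hi
    rw [← he2 i h1]
    exact (he.mem (hyX i h1) hZX).2 (nice_trans hnice (hyix i hi) hγZ)
  have hwfb : Wf A D.base := by
    rintro ⟨t, ht, htd⟩
    have h : ∀ n, y (t (n + 1)) ∈ y (t n) := by
      intro n
      have h1 := htd n
      rw [← he2 _ (ht (n + 1)), ← he2 _ (ht n)] at h1
      exact (he.mem (hyX _ (ht _)) (hyX _ (ht _))).1 h1
    have h2 : StrictAnti fun n => rank (y (t n)) := strictAnti_nat_of_succ_lt fun n =>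
      rank_lt_of_mem (h n)
    exact not_strictAnti_of_wellFoundedLT _ h2
  have hwfi : Wf A D.ix := by
    rintro ⟨t, ht, htd⟩
    exact hwfb ⟨t, fun n => hD.ix_sub (ht n), htd⟩
  -- (1)
  have hwfN : ∀ β ∈ D.ix, Wf A (D.N β) := by
    intro β hβ
    have h1 := hD.ix_sub hβ
    have h2 := hyix β hβ
    obtain ⟨γ', hγ', hyβ⟩ := mem_toZFSet_iff.1 h2
    have h3 := he2 β h1
    rw [← hyβ] at h3
    have hγ'X : γ'.toZFSet ∈ X := by rw [hyβ]; exact hyX β h1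
    rw [← h3]
    apply wf_N hD hwfi (hc _) he hb hγ'X (by rw [h3]; exact hβ)
    intro η' hη' ho
    obtain ⟨η'', rfl⟩ : ∃ η'' : Ordinal.{u}, η''.toZFSet = η' := ⟨_, ho.toZFSet_rank_eq⟩
    exact hF1 γ' hγ' η'' X ⟨hXc, hXne, hF1X γ' η'' hγ'X hη', hXpair⟩ hγ'X hη'
  -- (2)
  have hcarwf : ¬ Wf A D.car := fun h => h ⟨s, fun n => hincar _, hsd⟩
  have hne : ∃ β, β ∈ D.ix := by
    by_contra hemp
    apply hcarwf
    rintro ⟨t, ht, htd⟩
    apply hwfb
    refine ⟨t, fun n => ?_, htd⟩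
    rcases hD.tot _ (ht n) with h | ⟨i, hi, _⟩
    · exact h
    · exact absurd ⟨i, hi⟩ hemp
  have hnomax : ∀ β ∈ D.ix, ∃ i ∈ D.ix, A.mem β i := by
    intro β hβ
    by_contra hmax
    push Not at hmax
    apply hcarwf
    rintro ⟨t, ht, htd⟩
    apply hstep ℕ A D hD β hβ (hwfN β hβ)
    refine ⟨t, fun n => ?_, htd⟩
    rcases hD.tot _ (ht n) with h | ⟨i, hi, h⟩
    · exact hD.N_sub_Cs h0 hβ (hD.base_sub_N hβ h)
    · rcases A_tri A (hD.ix_ord i hi) (hD.ix_ord β hβ) with h1 | h1 | h1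
      · exact hD.N_sub_Cs h0 hβ (hD.Cs_sub hi hβ h1 h)
      · rw [← h1]; exact h
      · exact absurd h1 (hmax i hi)
  -- (3)
  obtain ⟨β, hβ, hs1⟩ : ∃ β ∈ D.ix, s 1 ∈ D.N β := by
    rcases hD.tot _ (hincar (s 1)) with h | ⟨i, hi, h⟩
    · obtain ⟨β, hβ⟩ := hne
      exact ⟨β, hβ, hD.base_sub_N hβ h⟩
    · obtain ⟨β, hβ, hiβ⟩ := hnomax i hi
      exact ⟨β, hβ, hD.Cs_sub hi hβ hiβ h⟩
  have hZn : A.T (A.fn .nice (e Z)) := by
    rw [← he.fn Z hZX .nice, he.T (he.cl_fn Z hZX .nice)]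
    simpa [eval] using hnice
  have hcl : ∀ c x, A.mem x (e Z) → A.mem (A.fn c x) (e Z) := by
    intro c x hx
    have h := he.ball hZX hZX (.comp .mem (.pair (.comp c .fst) .snd)) (by
      intro z hz
      simp only [eval, zfst_pair, zsnd_pair, zb_eq_one]
      exact hcode c z hz) x hx
    simp only [A.fn_comp, A.fn_pair, A.fn_fst, A.fn_snd] at h
    exact h
  have hexZ : ∀ x ∈ X, x ∈ Z → A.mem (e x) (e Z) := fun x hx hxZ => (he.mem hx hZX).2 hxZ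
  have htt : A.mem A.tt (e Z) := by
    rw [← he.tt.2]
    exact hexZ _ he.tt.1 (nice_one hnice)
  have hD' := clip_isPI hD hβ hZn (by rw [hb]; exact ⟨Z, hZX, rfl⟩) hcl htt hixZ
  have hs0' : s 0 = e η.toZFSet := by rw [← hys0, he2 _ hs0]
  have hsZ : ∀ n, A.mem (s n) (e Z) := by
    intro n
    induction n with
    | zero => rw [hs0']; exact hexZ _ hηX hηZ
    | succ n ih => exact A_trans A hZn (hsd n) ih
  have hbN : ∀ x ∈ X, e x ∈ D.N β := fun x hx => hD.base_sub_N hβ (he1 x hx).1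
  have hΦA : ∀ u, A.mem u (e Z) → A.mem (A.fn .app (A.pr (e Φ) u)) (e Z) := by
    intro u hu
    have h := he.ball hZX (hXpair _ hΦX _ hZX)
      (.comp .mem (.pair (.comp .app (.pair (.comp .fst .snd) .fst)) (.comp .snd .snd))) (by
      intro z hz
      simp only [eval, zfst_pair, zsnd_pair, zb_eq_one]
      exact hΦZ z hz) u hu
    rw [he.pr _ hΦX _ hZX] at h
    simp only [A.fn_comp, A.fn_pair, A.fn_fst, A.fn_snd] at h
    exact h
  obtain ⟨c, y', hy', hcy⟩ := hκ2 ℕ A (clipPD A D (e Z) β) hD' (hc _) (e γ.toZFSet)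
    ⟨hbN _ hγX, hexZ _ hγX hγZ⟩ (e Φ) (fun i hi => hixγ i hi.1) (fun n => s (n + 1))
    ⟨hs1, hsZ 1⟩ (fun n => ⟨hincar _, hsZ _⟩) (fun n => hsd (n + 1)) (by
      intro n x hx
      refine ⟨hD.N_fn β hβ _ (hD.N_pr β hβ _ (hbN _ hΦX) _ (hD.N_pr β hβ _
        (hD.N_fn β hβ _ (hD.base_sub_N hβ hD.base_tt) _) _ (hD.N_pr β hβ _ hs1 _ hx.1))) _, ?_⟩
      exact hΦA _ (A_pair A hZn (hcl _ _ htt) (A_pair A hZn (hsZ 1) hx.2)))
  apply hR X (hXpair _ hγX _ hΦX) hZX hηX hRX ℕ A e he (D.N β) (hD.N_fn β hβ) (hD.N_pr β hβ)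
    hbN (hwfN β hβ) (s 1) hs1 (by rw [← hs0']; exact hsd 0)
  refine ⟨c, y', hy', ?_⟩
  rw [he.pr _ hγX _ hΦX]
  exact hcy

end NB

theorem nonbad {δ : Ordinal.{u}} (h0 : 0 < δ) (hδ : Capt δ) :
    ∃ E : ℕ → ZFSet.{u} → ZFSet.{u}, ∀ P, Has P E →
      ∃ G : ℕ → ZFSet.{u} → ZFSet.{u}, ∀ X, Good G X → ∀ γ ∈ X, ∀ η ∈ X,
        IsOrdinal γ → IsOrdinal η → ¬ Bad δ P γ η X := by
  obtain ⟨E, hE⟩ := step_wf.{u, 0} hδ
  refine ⟨E, fun P hP => ?_⟩
  have hstep := hE P hP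
  have key : ∀ γ η : Ordinal.{u}, NB.OK δ P γ η := by
    intro γ
    induction γ using WellFoundedLT.induction with
    | ind γ ih1 =>
      intro η
      induction η using WellFoundedLT.induction with
      | ind η ih2 => exact NB.ok_step h0 hstep γ η ih1 ih2
  choose F hF using key
  refine ⟨fun n p => F (rank (zfst (zfst p))) (rank (zsnd (zfst p))) n (zsnd p), ?_⟩
  intro X hX γ hγ η hη hγo hηo
  obtain ⟨γ', rfl⟩ : ∃ γ' : Ordinal.{u}, γ'.toZFSet = γ := ⟨_, hγo.toZFSet_rank_eq⟩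
  obtain ⟨η', rfl⟩ : ∃ η' : Ordinal.{u}, η'.toZFSet = η := ⟨_, hηo.toZFSet_rank_eq⟩
  obtain ⟨h1, h2, h3, h4⟩ := hX
  refine hF γ' η' X ⟨h1, h2, ?_, h4⟩ hγ hη
  intro n x hx
  have := h3 n _ (h4 _ (h4 _ hγ _ hη) _ hx)
  simpa only [zfst_pair, zsnd_pair, rank_toZFSet] using this

end H94W
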