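import Pool.Agent.Lib.H94W.Collapse
import Pool.Agent.Lib.H94W.NonBad
import Pool.Agent.Lib.H94W.Capture
import Pool.Agent.Lib.H94W.Measure

/-!
# Project Woodin, chunk P: the final assembly

`lemmaW`: given witnesses `a_i` of the `Σ₁` fact, take a Woodin cardinal `δ > ω₁`, a nice
`H = V_θ`, the list `P` of all the functions needed (`nonbad`, `exists_long`, `sigma1_transfer`,
`H`), the functions `G` of `nonbad`, a measure on some `κ` for `H`, and stretch the countable set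
of the `a_i` to a closed set `X`.  `S` is the set of reals of `X`, together with `B`.  If
`B' ∩ S = B` then the iteration of length `ω₁` avoids the reals of `B'` which are not in `X`.
-/

set_option autoImplicit false

namespace H94W

open Ordinal Cardinal ZFSet

universe u v w

/-! ### Small facts -/

theorem rank_pair_nat (m n : ℕ) :
    rank (pair (m : Ordinal.{u}).toZFSet (n : Ordinal.{u}).toZFSet) < ω := by
  simp only [ZFSet.pair, rank_pair, rank_singleton, rank_toZFSet, max_lt_iff]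
  have hl : Order.IsSuccLimit (ω : Ordinal.{u}) := Ordinal.isSuccLimit_omega0
  exact ⟨hl.succ_lt (hl.succ_lt (natCast_lt_omega0 m)),
    hl.succ_lt (max_lt (hl.succ_lt (natCast_lt_omega0 m)) (hl.succ_lt (natCast_lt_omega0 n)))⟩

theorem realSet_mem_V {θ : Ordinal.{u}} (hθ : ω < θ) (f : ℕ → ℕ) : realSet.{u} f ∈ V_ θ := by
  rw [mem_vonNeumann]
  refine lt_of_le_of_lt ?_ hθ
  rw [rank_le_iff]
  intro y hy
  unfold realSet at hy
  rw [mem_range] at hy
  obtain ⟨n, rfl⟩ := hy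
  exact rank_pair_nat _ _

open Classical in
/-- The real read by `x`, as a set. -/
noncomputable def rdSet (x : ZFSet.{u}) : ZFSet.{u} :=
  if h : ∃ r : ℕ → ℕ, ∀ n : ℕ, zapp x (n : Ordinal.{u}).toZFSet = (r n : Ordinal.{u}).toZFSet
  then realSet h.choose else ∅

theorem rdSet_eq {x : ZFSet.{u}} {r : ℕ → ℕ}
    (h : ∀ n : ℕ, zapp x (n : Ordinal.{u}).toZFSet = (r n : Ordinal.{u}).toZFSet) :
    rdSet x = realSet r := by
  have h' : ∃ r : ℕ → ℕ, ∀ n : ℕ, zapp x (n : Ordinal.{u}).toZFSet =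
    (r n : Ordinal.{u}).toZFSet := ⟨r, h⟩
  unfold rdSet
  rw [dif_pos h']
  congr 1
  funext n
  exact ordNat_injective ((h'.choose_spec n).symm.trans (h n))

/-- Witnesses of `Σ₁` facts. -/
theorem Sigma1.exists_wit (B : Set (ℕ → ℕ)) (φ : Sigma1) : ∀ v : ℕ → H2.{u}, φ.Sat B v →
    ∃ W : Set ZFSet.{u}, W.Countable ∧ ∀ X : Set ZFSet.{u}, W ⊆ X → φ.SatIn B X v := by
  induction φ with
  | base φ => intro v hv; exact ⟨∅, Set.countable_empty, fun _ _ => hv⟩
  | ex i φ ih =>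
    intro v hv
    obtain ⟨a, ha⟩ := hv
    obtain ⟨W, hW, h⟩ := ih _ ha
    refine ⟨insert a.1 W, hW.insert _, fun X hX => ⟨a, hX (Set.mem_insert _ _), ?_⟩⟩
    exact h X fun x hx => hX (Set.mem_insert_of_mem _ hx)

/-- `Σ₁` facts have countable support among the countable sets. -/
theorem lemmaW (hW : ∀ α : Ordinal.{u}, ∃ δ > α, IsWoodin δ) (B : Set (ℕ → ℕ)) (hB : B.Countable)
    (r : ℕ → ℕ) (φ : Sigma1)
    (h : φ.Sat B (fun i => if i = 0 then realH.{u} r else omega1)) :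
    ∃ S : Set (ℕ → ℕ), S.Countable ∧ B ⊆ S ∧ ∀ B' : Set (ℕ → ℕ), B'.Countable → B' ∩ S = B →
      φ.Sat B' (fun i => if i = 0 then realH.{u} r else omega1) := by
  classical
  obtain ⟨δ, hδ, hδW⟩ := hW (ω_ 1)
  have hδ' : ω_ 1 < δ := hδ
  have hωδ : ω < δ := lt_of_le_of_lt (omega0_le_omega 1) hδ'
  have h0δ : 0 < δ := omega0_pos.trans hωδ
  have hcapt := capt_of_woodin hδW
  obtain ⟨E₁, hE₁⟩ := nonbad h0δ hcapt
  obtain ⟨E₂, hE₂⟩ := exists_long hωδ
  obtain ⟨E₃, hE₃⟩ := sigma1_transfer hδ' B hB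
  obtain ⟨θ, hθ, hθl, hnice, -⟩ := exists_nice δ (fun _ x => x) δ
  -- the list of functions
  let P : ℕ → ZFSet.{u} → ZFSet.{u} := fun n =>
    if n % 4 = 0 then E₁ (n / 4) else if n % 4 = 1 then E₂ (n / 4)
    else if n % 4 = 2 then E₃ (n / 4) else fun _ => V_ θ
  have hP₁ : Has P E₁ := fun n => ⟨4 * n, by simp [P]⟩
  have hP₂ : Has P E₂ := fun n => ⟨4 * n + 1, by
    have h1 : (4 * n + 1) % 4 = 1 := by omega
    have h2 : (4 * n + 1) / 4 = n := by omega
    simp [P, h1, h2]⟩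
  have hP₃ : Has P E₃ := fun n => ⟨4 * n + 2, by
    have h1 : (4 * n + 2) % 4 = 2 := by omega
    have h2 : (4 * n + 2) / 4 = n := by omega
    simp [P, h1, h2]⟩
  have hPH : P 3 = fun _ => V_ θ := by simp [P]
  obtain ⟨G, hG⟩ := hE₁ P hP₁
  -- the model `X`
  obtain ⟨κ, μ, hμ⟩ := exists_meas hW (V_ θ)
  obtain ⟨W, hWc, hWs⟩ := Sigma1.exists_wit B φ _ h
  have : Nonempty Code := ⟨.id⟩
  obtain ⟨cc, hcc⟩ := exists_surjective_nat Code
  let F : ℕ → ZFSet.{u} → ZFSet.{u} := fun n =>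
    if n % 3 = 0 then eval δ P (cc (n / 3)) else if n % 3 = 1 then G (n / 3) else rdSet
  have hHne : (V_ θ).Nonempty := ⟨∅, by
    show ∅ ∈ V_ θ
    rw [mem_vonNeumann, rank_empty]
    exact h0δ.trans hθ⟩
  obtain ⟨X, ν, hX₀, hκX, hXF, hXp, hXc, hXH, hν, hνX⟩ :=
    stretch hμ hHne F (insert (realSet.{u} r) W) (hWc.insert _)
  have hXcode : ∀ x ∈ X, ∀ c, eval δ P c x ∈ X := by
    intro x hx c
    obtain ⟨n, rfl⟩ := hcc c
    have h1 := hXF (3 * n) x hx
    simpa [F] using h1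
  have hXG : ∀ n, ∀ x ∈ X, G n x ∈ X := by
    intro n x hx
    have h1 := hXF (3 * n + 1) x hx
    have h2 : (3 * n + 1) % 3 = 1 := by omega
    have h3 : (3 * n + 1) / 3 = n := by omega
    simpa [F, h2, h3] using h1
  have hXrd : ∀ x ∈ X, rdSet x ∈ X := by
    intro x hx
    have h1 := hXF 2 x hx
    simpa [F] using h1
  have hrX : realSet.{u} r ∈ X := hX₀ (Set.mem_insert _ _)
  have hHX : V_ θ ∈ X := by
    have h1 := hXcode _ hrX (.prim 3)
    simpa [eval, hPH] using h1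
  have hSc : {f : ℕ → ℕ | realSet.{u} f ∈ X}.Countable := by
    refine (hXH.preimage realSet_injective).mono ?_
    intro f hf
    exact ⟨hf, realSet_mem_V (hωδ.trans hθ) f⟩
  refine ⟨B ∪ {f : ℕ → ℕ | realSet.{u} f ∈ X}, hB.union hSc, Set.subset_union_left, ?_⟩
  intro B' hB'c hB'
  -- the iteration
  have hC : ∀ r ∈ {f : ℕ → ℕ | f ∈ B' ∧ realSet.{u} f ∉ X}, ∀ x ∈ X,
      ¬ ∀ n : ℕ, zapp x (n : Ordinal.{u}).toZFSet = (r n : Ordinal.{u}).toZFSet := by
    rintro f ⟨_, hf⟩ x hx hread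
    apply hf
    rw [← rdSet_eq hread]
    exact hXrd x hx
  obtain ⟨M, A, D, e, hL⟩ := hE₂ P hP₂ (V_ θ) hnice ⟨3, hPH⟩ X hXcode hXp ⟨_, hrX⟩ hXc hXH ν hν
    (fun ξ => (hνX ξ).2) {f : ℕ → ℕ | f ∈ B' ∧ realSet.{u} f ∉ X}
    (hB'c.mono fun f hf => hf.1) hC
  have hwf : Wf A Set.univ := by
    rw [← hL.car]
    refine wf_long G hG A D hL.pi X e hL.emb hXG hL.base κ.toZFSet hκX (isOrdinal_toZFSet κ) ?_
    intro i hi
    rw [hL.ix] at hi
    obtain ⟨ξ, rfl⟩ := hi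
    rw [hL.emb.mem (hνX ξ).2 hκX, mem_toZFSet_iff]
    exact ⟨ν ξ, (hνX ξ).1, rfl⟩
  refine hE₃ P hP₃ (V_ θ) hnice X ν _ M A D e hL hwf hHX B' ?_ ?_ r φ hrX
    (hWs X fun x hx => hX₀ (Set.mem_insert_of_mem _ hx))
  · intro f hf
    constructor
    · intro hfB'
      have : f ∈ B' ∩ (B ∪ {f : ℕ → ℕ | realSet.{u} f ∈ X}) := ⟨hfB', Or.inr hf⟩
      rwa [hB'] at this
    · intro hfB
      rw [← hB'] at hfB
      exact hfB.1
  · intro f hf hfX
    exact ⟨hf, hfX⟩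

/-! ### Deciding countably many facts -/

theorem exists_decided {ι : Type} [Countable ι] [Nonempty ι]
    (P : ι → Set (ℕ → ℕ) → Prop)
    (hP : ∀ i B, B.Countable → P i B → ∃ S : Set (ℕ → ℕ), S.Countable ∧ B ⊆ S ∧
      ∀ B' : Set (ℕ → ℕ), B'.Countable → B' ∩ S = B → P i B') :
    ∃ S b : Set (ℕ → ℕ), S.Countable ∧ b.Countable ∧ b ⊆ S ∧
      ∀ i, ∀ B' B'' : Set (ℕ → ℕ), B'.Countable → B''.Countable →
        B' ∩ S = b → B'' ∩ S = b → P i B' → P i B'' := by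
  classical
  obtain ⟨e, he⟩ := exists_surjective_nat ι
  let St : Type := {p : Set (ℕ → ℕ) × Set (ℕ → ℕ) // p.1.Countable ∧ p.2.Countable ∧ p.2 ⊆ p.1}
  have step : ∀ (i : ι) (s : St), ∃ s' : St, s.1.1 ⊆ s'.1.1 ∧ s'.1.2 ∩ s.1.1 = s.1.2 ∧
      ((∀ B' : Set (ℕ → ℕ), B'.Countable → B' ∩ s'.1.1 = s'.1.2 → P i B') ∨
       (∀ B' : Set (ℕ → ℕ), B'.Countable → B' ∩ s.1.1 = s.1.2 → ¬ P i B')) := by
    intro i s
    by_cases h : ∃ B' : Set (ℕ → ℕ), B'.Countable ∧ B' ∩ s.1.1 = s.1.2 ∧ P i B'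
    · obtain ⟨B, hBc, hBs, hPB⟩ := h
      obtain ⟨S, hS, hBS, hSB⟩ := hP i B hBc hPB
      refine ⟨⟨(s.1.1 ∪ S, B), s.2.1.union hS, hBc, hBS.trans Set.subset_union_right⟩, ?_, hBs,
        Or.inl ?_⟩
      · intro x hx
        exact Or.inl hx
      · intro B' hB'c hB'
        apply hSB B' hB'c
        have hB'' : B' ∩ (s.1.1 ∪ S) = B := hB'
        apply Set.Subset.antisymm
        · rintro f ⟨hf1, hf2⟩
          rw [← hB'']
          exact ⟨hf1, Or.inr hf2⟩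
        · intro f hf
          refine ⟨?_, hBS hf⟩
          rw [← hB''] at hf
          exact hf.1
    · refine ⟨s, fun _ h => h, ?_, Or.inr ?_⟩
      · exact Set.inter_eq_left.2 s.2.2.2
      · intro B' h1 h2 h3
        exact h ⟨B', h1, h2, h3⟩
  choose nx hnx1 hnx2 hnx3 using step
  let s0 : St := ⟨(∅, ∅), Set.countable_empty, Set.countable_empty, fun _ h => h⟩
  let s : ℕ → St := fun n => Nat.rec s0 (fun m st => nx (e m) st) n
  have hs : ∀ n, s (n + 1) = nx (e n) (s n) := fun n => rfl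
  have hmono : ∀ m n, m ≤ n → (s m).1.1 ⊆ (s n).1.1 := by
    intro m n hmn
    induction n, hmn using Nat.le_induction with
    | base => exact fun _ h => h
    | succ n _ ih =>
      intro x hx
      rw [hs]
      exact hnx1 _ _ (ih hx)
  have hcoh : ∀ m n, m ≤ n → (s n).1.2 ∩ (s m).1.1 = (s m).1.2 := by
    intro m n hmn
    induction n, hmn using Nat.le_induction with
    | base => exact Set.inter_eq_left.2 (s m).2.2.2
    | succ n hmn ih =>
      have h1 := hnx2 (e n) (s n)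
      rw [← hs] at h1
      have h2 := hmono m n hmn
      calc (s (n + 1)).1.2 ∩ (s m).1.1
          = ((s (n + 1)).1.2 ∩ (s n).1.1) ∩ (s m).1.1 := by
            rw [Set.inter_assoc, Set.inter_eq_right.2 h2]
        _ = (s n).1.2 ∩ (s m).1.1 := by rw [h1]
        _ = (s m).1.2 := ih
  have hsub : ∀ m n, m ≤ n → (s m).1.2 ⊆ (s n).1.2 := by
    intro m n hmn x hx
    rw [← hcoh m n hmn] at hx
    exact hx.1
  have hlim : ∀ B' : Set (ℕ → ℕ), B' ∩ (⋃ n, (s n).1.1) = ⋃ n, (s n).1.2 →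
      ∀ n, B' ∩ (s n).1.1 = (s n).1.2 := by
    intro B' hB' n
    apply Set.Subset.antisymm
    · rintro x ⟨hx1, hx2⟩
      have : x ∈ B' ∩ (⋃ n, (s n).1.1) := ⟨hx1, Set.mem_iUnion.2 ⟨n, hx2⟩⟩
      rw [hB', Set.mem_iUnion] at this
      obtain ⟨m, hm⟩ := this
      rcases le_total m n with h | h
      · exact hsub m n h hm
      · rw [← hcoh n m h]
        exact ⟨hm, hx2⟩
    · intro x hx
      have : x ∈ ⋃ n, (s n).1.2 := Set.mem_iUnion.2 ⟨n, hx⟩
      rw [← hB'] at this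
      exact ⟨this.1, (s n).2.2.2 hx⟩
  refine ⟨⋃ n, (s n).1.1, ⋃ n, (s n).1.2, Set.countable_iUnion (fun n => (s n).2.1),
    Set.countable_iUnion (fun n => (s n).2.2.1), ?_, ?_⟩
  · exact Set.iUnion_mono (fun n => (s n).2.2.2)
  · intro i B' B'' hB'c hB''c hB' hB'' hPB'
    obtain ⟨n, rfl⟩ := he i
    rcases hnx3 (e n) (s n) with h | h
    · rw [← hs] at h
      exact h B'' hB''c (hlim B'' hB'' (n + 1))
    · exact absurd hPB' (h B' hB'c (hlim B' hB' n))

/-! ### The property that can be switched on and off -/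

/-- `B` has an element `y₁` with `y₁ 0 = n` and `y₁ 1 = 0` that eventually dominates every
element `y₂` of `B` with `y₂ 0 = n`. -/
def Top (B : Set (ℕ → ℕ)) (n : ℕ) : Prop :=
  ∃ y₁ : ℕ → ℕ, y₁ ∈ B ∧ y₁ 0 = n ∧ y₁ 1 = 0 ∧
    ∀ y₂ : ℕ → ℕ, y₂ ∈ B → y₂ 0 = n → ∃ m, ∀ k, m ≤ k → y₂ k ≤ y₁ k

/-- The arithmetical formula `s ≤ t` (with `n_j` not occurring in `s` and `t`). -/
def leF (j : ℕ) (s t : NumTerm) : ArithFormula :=
  .not (.all j (.not (.eq (.add s (.var j)) t)))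

/-- The arithmetical formula expressing the matrix of `Top B (x 0)`. -/
def topF : ArithFormula :=
  .and (.and (.inB 1) (.and (.eq (.app 1 .zero) (.app 0 .zero))
      (.eq (.app 1 (.succ .zero)) .zero)))
    (.not (.and (.and (.inB 2) (.eq (.app 2 .zero) (.app 0 .zero)))
      (.all 0 (.not (.all 1 (.not (.and (leF 2 (.var 0) (.var 1))
        (.not (leF 2 (.app 2 (.var 1)) (.app 1 (.var 1)))))))))))

theorem topF_sat (B : Set (ℕ → ℕ)) (x y₁ y₂ y₃ : ℕ → ℕ) :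
    topF.Sat B (reals x y₁ y₂ y₃) (fun _ => 0) ↔
      (y₁ ∈ B ∧ y₁ 0 = x 0 ∧ y₁ 1 = 0) ∧
        (y₂ ∈ B → y₂ 0 = x 0 → ∃ m, ∀ k, m ≤ k → y₂ k ≤ y₁ k) := by
  have hle : ∀ a b : ℕ, (∃ j, a + j = b) ↔ a ≤ b := by
    intro a b
    constructor
    · rintro ⟨j, rfl⟩; exact Nat.le_add_right a j
    · intro h; exact ⟨b - a, by omega⟩
  simp only [topF, leF, ArithFormula.Sat, NumTerm.val, reals, Function.update_self, ne_eq,
    not_false_eq_true, Function.update_of_ne, zero_add, zero_ne_one, OfNat.one_ne_ofNat,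
    not_forall, not_not, not_and, not_exists, OfNat.zero_ne_ofNat, hle]
  constructor
  · rintro ⟨h1, h2⟩
    refine ⟨h1, fun h3 h4 => ?_⟩
    obtain ⟨m, hm⟩ := h2 ⟨h3, h4⟩
    exact ⟨m, hm⟩
  · rintro ⟨h1, h2⟩
    refine ⟨h1, ?_⟩
    rintro ⟨h3, h4⟩
    exact h2 h3 h4

theorem top_isSigma13 (B : Set (ℕ → ℕ)) : IsSigma13 B {x | Top B (x 0)} := by
  refine ⟨topF, ?_⟩
  ext x
  simp only [Set.mem_ofPred_eq, topF_sat]
  constructor
  · rintro ⟨y₁, h1, h2, h3, h4⟩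
    exact ⟨y₁, fun y₂ => ⟨fun _ => 0, ⟨h1, h2, h3⟩, fun h5 h6 => h4 y₂ h5 h6⟩⟩
  · rintro ⟨y₁, h⟩
    obtain ⟨_, ⟨h1, h2, h3⟩, _⟩ := h (fun _ => 0)
    refine ⟨y₁, h1, h2, h3, ?_⟩
    intro y₂ h5 h6
    obtain ⟨_, _, h7⟩ := h y₂
    exact h7 h5 h6

/-- A real outside a countable set which strictly dominates countably many reals. -/
theorem exists_dominating (S b : Set (ℕ → ℕ)) (hS : S.Countable) (hb : b.Countable)
    (n e : ℕ) : ∃ x : ℕ → ℕ, x ∉ S ∧ x 0 = n ∧ x 1 = e ∧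
      ∀ y ∈ b, ∃ m, ∀ k, m ≤ k → y k < x k := by
  classical
  obtain ⟨d, hd⟩ : ∃ d : ℕ → (ℕ → ℕ), b ⊆ Set.range d := by
    rcases b.eq_empty_or_nonempty with h | h
    · exact ⟨fun _ _ => 0, by simp [h]⟩
    · obtain ⟨d, hd⟩ := hb.exists_eq_range h
      exact ⟨d, hd.le⟩
  let X : Set ℕ → (ℕ → ℕ) := fun g k =>
    if k = 0 then n else if k = 1 then e
    else (∑ i ∈ Finset.range (k + 1), d i k) + 1 + (if k - 2 ∈ g then 1 else 0)
  have hX : Function.Injective X := by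
    intro g g' h
    ext k
    have := congrFun h (k + 2)
    simp only [X, Nat.add_eq_zero_iff, OfNat.ofNat_ne_zero, and_false, if_false,
      Nat.add_sub_cancel] at this
    have h1 : ¬ (k + 2 = 1) := by omega
    simp only [h1, if_false, Nat.add_left_cancel_iff] at this
    by_cases h2 : k ∈ g <;> by_cases h3 : k ∈ g' <;> simp [h2, h3] at this ⊢
  have hex : ∃ g, X g ∉ S := by
    by_contra hcon
    push Not at hcon
    have : Countable S := hS.to_subtype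
    have hc : Countable (Set ℕ) := by
      refine Function.Injective.countable (f := fun g => (⟨X g, hcon g⟩ : S)) ?_
      intro g g' h
      exact hX (congrArg Subtype.val h)
    obtain ⟨g, hg⟩ := exists_surjective_nat (Set ℕ)
    exact Function.cantor_surjective g hg
  obtain ⟨g, hg⟩ := hex
  refine ⟨X g, hg, by simp [X], by simp [X], ?_⟩
  intro y hy
  obtain ⟨i, rfl⟩ := hd hy
  refine ⟨i + 2, ?_⟩
  intro k hk
  have h1 : d i k ≤ ∑ i ∈ Finset.range (k + 1), d i k :=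
    Finset.single_le_sum (f := fun i => d i k) (fun _ _ => Nat.zero_le _)
      (Finset.mem_range.2 (by omega))
  have h2 : ¬ k = 0 := by omega
  have h3 : ¬ k = 1 := by omega
  simp only [X, h2, h3, if_false]
  omega

/-- The property `Top B n` can be prescribed by adding to `b` countably many reals outside
`S`. -/
theorem exists_toggle (S b : Set (ℕ → ℕ)) (hS : S.Countable) (hb : b.Countable)
    (hbS : b ⊆ S) (Z : Set ℕ) : ∃ B : Set (ℕ → ℕ), B.Countable ∧ B ∩ S = b ∧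
      ∀ n, Top B n ↔ n ∈ Z := by
  classical
  choose x hx1 hx2 hx3 hx4 using fun n : ℕ =>
    exists_dominating S b hS hb n (if n ∈ Z then 0 else 1)
  refine ⟨b ∪ Set.range x, hb.union (Set.countable_range x), ?_, ?_⟩
  · apply Set.Subset.antisymm
    · rintro y ⟨hy | ⟨n, rfl⟩, hyS⟩
      · exact hy
      · exact absurd hyS (hx1 n)
    · intro y hy
      exact ⟨Or.inl hy, hbS hy⟩
  · intro n
    constructor
    · rintro ⟨y₁, h1, h2, h3, h4⟩
      by_contra hn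
      obtain ⟨m, hm⟩ := h4 (x n) (Or.inr ⟨n, rfl⟩) (hx2 n)
      rcases h1 with h1 | ⟨k, rfl⟩
      · obtain ⟨m', hm'⟩ := hx4 n y₁ h1
        have e1 := hm (max m m') (le_max_left _ _)
        have e2 := hm' (max m m') (le_max_right _ _)
        omega
      · rw [hx2] at h2
        subst h2
        rw [hx3] at h3
        simp [hn] at h3
    · intro hn
      refine ⟨x n, Or.inr ⟨n, rfl⟩, hx2 n, by rw [hx3]; simp [hn], ?_⟩
      rintro y₂ (h1 | ⟨k, rfl⟩) h2
      · obtain ⟨m, hm⟩ := hx4 n y₂ h1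
        exact ⟨m, fun k hk => (hm k hk).le⟩
      · rw [hx2] at h2
        subst h2
        exact ⟨0, fun _ _ => le_rfl⟩

/-- Countable sets are universally Baire. -/
theorem universallyBaire_of_countable (B : Set (ℕ → ℕ)) (hB : B.Countable) :
    UniversallyBaire.{u} B := by
  intro X _ _ _ f hf
  have h1 : BaireMeasurableSet (f ⁻¹' B) := by
    have : f ⁻¹' B = ⋃ y ∈ B, f ⁻¹' {y} := by
      ext x
      simp
    rw [this]
    apply BaireMeasurableSet.biUnion hB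
    intro y _
    apply BaireMeasurableSet.of_compl
    apply IsOpen.baireMeasurableSet
    exact (isClosed_singleton.preimage hf).isOpen_compl
  obtain ⟨U, hU, hUe⟩ := h1.residualEq_isOpen
  refine ⟨U, hU, ?_⟩
  have : {x | (x ∈ f ⁻¹' B) ↔ (x ∈ U)} ∈ residual X := by
    have := Filter.eventuallyEq_set.1 hUe
    exact this
  unfold IsMeagre
  refine Filter.mem_of_superset this ?_
  intro x hx hcon
  rw [Set.mem_symmDiff] at hcon
  have hx' : (x ∈ f ⁻¹' B) ↔ (x ∈ U) := hx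
  rcases hcon with ⟨h1, h2⟩ | ⟨h1, h2⟩
  · exact h2 (hx'.1 h1)
  · exact h2 (hx'.2 h1)

/-- The main argument, from the countable supports. -/
theorem main_of_lemmaW
    (hL : ∀ (B : Set (ℕ → ℕ)), B.Countable → ∀ (r : ℕ → ℕ) (φ : Sigma1),
      φ.Sat B (fun i => if i = 0 then realH.{u} r else omega1) →
      ∃ S : Set (ℕ → ℕ), S.Countable ∧ B ⊆ S ∧ ∀ B' : Set (ℕ → ℕ), B'.Countable → B' ∩ S = B →
        φ.Sat B' (fun i => if i = 0 then realH.{u} r else omega1)) :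
    ∃ B : Set (ℕ → ℕ), B.Countable ∧ UniversallyBaire.{u} B ∧
      ∃ A, IsSigma13 B A ∧ ¬ IsSigma1Omega1.{u} B A := by
  classical
  -- the countably many `Σ₁(ω₁)` facts about constant reals
  let P : Sigma1 × ℕ → Set (ℕ → ℕ) → Prop := fun p B =>
    p.1.Sat B (fun i => if i = 0 then realH.{u} (fun _ => p.2) else omega1)
  have hP : ∀ i B, B.Countable → P i B → ∃ S : Set (ℕ → ℕ), S.Countable ∧ B ⊆ S ∧
      ∀ B' : Set (ℕ → ℕ), B'.Countable → B' ∩ S = B → P i B' :=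
    fun i B hB hi => hL B hB _ i.1 hi
  have : Nonempty Sigma1 := ⟨.base (.eq 0 0)⟩
  obtain ⟨S, b, hS, hb, hbS, hdec⟩ := exists_decided P hP
  -- the subsets of `ω` that are definable once `B ∩ S = b`
  let Th : Sigma1 → Set ℕ := fun φ =>
    {n | ∃ B : Set (ℕ → ℕ), B.Countable ∧ B ∩ S = b ∧ P (φ, n) B}
  obtain ⟨Z, hZ⟩ : ∃ Z : Set ℕ, ∀ φ, Th φ ≠ Z := by
    by_contra hcon
    push Not at hcon
    have hsurj : Function.Surjective Th := hcon
    have : Countable (Set ℕ) := hsurj.countable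
    obtain ⟨g, hg⟩ := exists_surjective_nat (Set ℕ)
    exact Function.cantor_surjective g hg
  obtain ⟨B, hBc, hBS, hB⟩ := exists_toggle S b hS hb hbS Z
  refine ⟨B, hBc, universallyBaire_of_countable B hBc, _, top_isSigma13 B, ?_⟩
  rintro ⟨φ, hφ⟩
  apply hZ φ
  ext n
  have h1 := hφ (realH.{u} (fun _ => n))
  have h2 : (∃ f ∈ {x : ℕ → ℕ | Top B (x 0)}, (realH.{u} (fun _ => n)).1 = realSet f) ↔
      Top B n := by
    constructor
    · rintro ⟨f, hf, he⟩
      have : (fun _ => n) = f := realSet_injective.{u} he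
      rw [← this] at hf
      exact hf
    · intro ht
      exact ⟨fun _ => n, ht, rfl⟩
  rw [h2, hB n] at h1
  rw [← h1]
  constructor
  · rintro ⟨B', hB'c, hB'S, hPB'⟩
    exact hdec (φ, n) B' B hB'c hBc hB'S hBS hPB'
  · intro hPB
    exact ⟨B, hBc, hBS, hPB⟩

theorem main (hW : ∀ α : Ordinal.{u}, ∃ δ > α, IsWoodin δ) :
    ∃ B : Set (ℕ → ℕ), B.Countable ∧ UniversallyBaire.{u} B ∧
      ∃ A, IsSigma13 B A ∧ ¬ IsSigma1Omega1.{u} B A :=
  main_of_lemmaW fun B hB r φ h => lemmaW hW B hB r φ h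

end H94W
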