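import Pool.Agent.Lib.H94W.Fodor

/-!
# Project Woodin, chunks G, H: basic facts on iterations

All facts about the algebra are obtained with `Alg.transfer` from quantifier-free facts that are
true in the universe (see `Alg.ord_trans` for an example).
-/

set_option autoImplicit false

namespace H94W

open Ordinal Cardinal ZFSet

universe u v w

variable {δ : Ordinal.{u}} {P : ℕ → ZFSet.{u} → ZFSet.{u}} {M : Type v}

/-- Example of the use of the transfer principle. -/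
theorem Alg.ord_trans (A : Alg δ P M) (x y z : M) (hz : A.T (A.fn .ord z)) (hyz : A.mem y z)
    (hxy : A.mem x y) : A.mem x z := by
  have := A.transfer (.imp (.and (.tr (.f .ord (.v 2)))
    (.and (.mem (.v 1) (.v 2)) (.mem (.v 0) (.v 1)))) (.mem (.v 0) (.v 2))) (by
      intro ρ
      simp only [QF.evU, Tm.evU, eval, zb_eq_one]
      rintro ⟨h1, h2, h3⟩
      exact h1.mem_trans h3 h2) (fun i => match i with | 0 => x | 1 => y | _ => z)
  exact this ⟨hz, hyz, hxy⟩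

/-- Induction along a well-founded set of an algebra. -/
theorem Wf.induct {A : Alg δ P M} {S : Set M} (h : Wf A S) {p : M → Prop}
    (H : ∀ i ∈ S, (∀ j ∈ S, A.mem j i → p j) → p i) : ∀ i ∈ S, p i := by
  have hw : WellFounded (fun a b : S => A.mem a.1 b.1) := by
    rw [wellFounded_iff_isEmpty_descending_chain]
    exact ⟨fun f => h ⟨fun n => (f.1 n).1, fun n => (f.1 n).2, fun n => f.2 n⟩⟩
  intro i hi
  exact hw.induction (C := fun i : S => p i.1) ⟨i, hi⟩
    (fun x ih => H x.1 x.2 fun j hj hji => ih ⟨j, hj⟩ hji)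

theorem rk_mem_of_le {z f α : ZFSet.{u}} (hα : IsOrdinal α) (h : rank z ≤ rank f)
    (hf : (rank f).toZFSet ∈ α) : (rank z).toZFSet ∈ α := by
  rw [← hα.toZFSet_rank_eq] at hf ⊢
  rw [Ordinal.toZFSet_mem_toZFSet_iff] at hf ⊢
  exact lt_of_le_of_lt h hf

theorem rank_zapp_le (f x : ZFSet.{u}) : rank (zapp f x) ≤ rank f := by
  rcases rank_zapp f x with h | h
  · rw [h, rank_empty]; exact bot_le
  · exact h.le

theorem rank_lt_pair_self (x : ZFSet.{u}) : rank x < rank (pair x x) := by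
  have h2 : x ∈ ({x} : ZFSet) := by simp
  have h3 : ({x} : ZFSet) ∈ pair x x := by simp [pair]
  exact (rank_lt_of_mem h2).trans (rank_lt_of_mem h3)

/-- Every element of an iteration has its rank below an ordinal of the base. (Induction along
`ix`: `zapp f x` is `∅` or of smaller rank than `f`.) -/
theorem bound (A : Alg δ P M) (D : PD M) (hD : IsPI A D) (hwf : Wf A D.ix) :
    ∀ x ∈ D.car, ∃ α ∈ D.base, A.T (A.fn .ord α) ∧ A.mem (A.fn .rk x) α := by
  have hb : ∀ x ∈ D.base, ∃ α ∈ D.base, A.T (A.fn .ord α) ∧ A.mem (A.fn .rk x) α := by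
    intro x hx
    refine ⟨A.fn .rk (A.pr x x), hD.base_fn _ (hD.base_pr _ hx _ hx) _, ?_⟩
    have := A.transfer (.and (.tr (.f .ord (.f .rk (.p (.v 0) (.v 0)))))
      (.mem (.f .rk (.v 0)) (.f .rk (.p (.v 0) (.v 0))))) (by
        intro ρ
        simp only [QF.evU, Tm.evU, eval, zb_eq_one, Ordinal.toZFSet_mem_toZFSet_iff]
        exact ⟨isOrdinal_toZFSet _, rank_lt_pair_self _⟩) (fun _ => x)
    exact this
  have key : ∀ i ∈ D.ix, ∀ x ∈ D.Cs A i,
      ∃ α ∈ D.base, A.T (A.fn .ord α) ∧ A.mem (A.fn .rk x) α := by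
    refine hwf.induct ?_
    intro i hi ih x hx
    obtain ⟨f, hf, η, hη, hl, rfl⟩ := hx
    have hfb : ∃ α ∈ D.base, A.T (A.fn .ord α) ∧ A.mem (A.fn .rk f) α := by
      rcases (hD.N_iff i hi f).1 hf with h | ⟨j, hj, hji, hfj⟩
      · exact hb f h
      · exact ih j hj hji f hfj
    obtain ⟨α, hα, ho, hm⟩ := hfb
    refine ⟨α, hα, ho, ?_⟩
    have := A.transfer (.imp (.and (.tr (.f .ord (.v 0))) (.mem (.f .rk (.v 1)) (.v 0)))
      (.mem (.f .rk (.f .app (.p (.v 1) (.v 2)))) (.v 0))) (by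
        intro ρ
        simp only [QF.evU, Tm.evU, eval, zb_eq_one, zfst_pair, zsnd_pair]
        rintro ⟨h1, h2⟩
        exact rk_mem_of_le h1 (rank_zapp_le _ _) h2)
      (fun i' => match i' with | 0 => α | 1 => f | _ => D.sd i η)
    exact this ⟨ho, hm⟩
  intro x hx
  rcases hD.tot x hx with h | ⟨i, hi, h⟩
  · exact hb x h
  · exact key i hi x h

/-- Elements of `i ∈ ix` that are in the base .. the models `N i` increase with `i`. -/
theorem IsPI.N_mono {A : Alg δ P M} {D : PD M} (hD : IsPI A D) {i j : M} (hi : i ∈ D.ix)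
    (hj : j ∈ D.ix) (h : A.mem i j) : D.N i ⊆ D.N j := by
  intro x hx
  rw [hD.N_iff j hj]
  rcases (hD.N_iff i hi x).1 hx with h1 | ⟨k, hk, hki, hxk⟩
  · exact Or.inl h1
  · exact Or.inr ⟨k, hk, A.ord_trans k i j (hD.ix_ord j hj) h hki, hxk⟩

theorem IsPI.Cs_sub {A : Alg δ P M} {D : PD M} (hD : IsPI A D) {i j : M} (hi : i ∈ D.ix)
    (hj : j ∈ D.ix) (h : A.mem i j) : D.Cs A i ⊆ D.N j := by
  intro x hx
  rw [hD.N_iff j hj]
  exact Or.inr ⟨i, hi, h, hx⟩

theorem IsPI.base_sub_N {A : Alg δ P M} {D : PD M} (hD : IsPI A D) {i : M} (hi : i ∈ D.ix) :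
    D.base ⊆ D.N i := by
  intro x hx
  rw [hD.N_iff i hi]
  exact Or.inl hx

/-- A function given by a code with a parameter, applied to a seed. -/
theorem Alg.app_lam (A : Alg δ P M) (c : Code) (d p s : M) (hs : A.mem s d) :
    A.fn .app (A.pr (A.fn (.lam c) (A.pr d p)) s) = A.fn c (A.pr s p) := by
  have := A.transfer (.imp (.mem (.v 0) (.v 1))
    (.eq (.f .app (.p (.f (.lam c) (.p (.v 1) (.v 2))) (.v 0))) (.f c (.p (.v 0) (.v 2))))) (by
      intro ρ
      simp only [QF.evU, Tm.evU, eval, zfst_pair, zsnd_pair]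
      intro h
      rw [zapp_zlam h])
    (fun i' => match i' with | 0 => s | 1 => d | _ => p)
  exact this hs

/-- The level `∅`. -/
theorem Alg.ltd_num (hδ : 0 < δ) (A : Alg δ P M) (x : M) : A.T (A.fn .ltd (A.fn (numC 0) x)) := by
  have := A.transfer (.tr (.f .ltd (.f (numC 0) (.v 0)))) (by
      intro ρ
      simp only [QF.evU, Tm.evU]
      rw [eval_numC]
      simp only [eval, zb_eq_one]
      exact ⟨0, hδ, by simp⟩) (fun _ => x)
  exact this

/-- `f (sd i η)` for a function given by a code with a parameter. -/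
theorem IsPI.mem_Cs_lam {A : Alg δ P M} {D : PD M} (hD : IsPI A D) {i : M} (hi : i ∈ D.ix)
    (c : Code) {η p : M} (hη : η ∈ D.N i) (hl : A.T (A.fn .ltd η)) (hp : p ∈ D.N i) :
    A.fn c (A.pr (D.sd i η) p) ∈ D.Cs A i := by
  refine ⟨A.fn (.lam c) (A.pr (A.fn .dom η) p), ?_, η, hη, hl, ?_⟩
  · exact hD.N_fn i hi _ (hD.N_pr i hi _ (hD.N_fn i hi _ hη _) _ hp) _
  · rw [A.app_lam _ _ _ _ (hD.sd_mem i hi η hη hl)]

/-- `N i` is included in its ultrapower (constant functions), if `0 < δ`. -/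
theorem IsPI.N_sub_Cs (hδ : 0 < δ) {A : Alg δ P M} {D : PD M} (hD : IsPI A D) {i : M}
    (hi : i ∈ D.ix) : D.N i ⊆ D.Cs A i := by
  intro x hx
  have h := hD.mem_Cs_lam hi .snd (hD.N_fn i hi x hx (numC 0)) (A.ltd_num hδ x) hx
  rwa [A.fn_snd] at h

theorem Alg.un_comm (A : Alg δ P M) (x y : M) : A.fn .un (A.pr x y) = A.fn .un (A.pr y x) := by
  have := A.transfer (.eq (.f .un (.p (.v 0) (.v 1))) (.f .un (.p (.v 1) (.v 0)))) (by
      intro ρ
      simp only [QF.evU, Tm.evU, eval, zfst_pair, zsnd_pair]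
      exact ZFSet.ext fun z => by simp only [mem_union]; exact or_comm)
    (fun i' => match i' with | 0 => x | _ => y)
  exact this

theorem Alg.ltd_un (A : Alg δ P M) (x y : M) (hx : A.T (A.fn .ltd x)) (hy : A.T (A.fn .ltd y)) :
    A.T (A.fn .ltd (A.fn .un (A.pr x y))) := by
  have := A.transfer (.imp (.and (.tr (.f .ltd (.v 0))) (.tr (.f .ltd (.v 1))))
    (.tr (.f .ltd (.f .un (.p (.v 0) (.v 1)))))) (by
      intro ρ
      simp only [QF.evU, Tm.evU, eval, zfst_pair, zsnd_pair, zb_eq_one]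
      rintro ⟨h1, h2⟩
      exact h1.union h2)
    (fun i' => match i' with | 0 => x | _ => y)
  exact this ⟨hx, hy⟩

theorem IsPI.sd_coh' {A : Alg δ P M} {D : PD M} (hD : IsPI A D) {i : M} (hi : i ∈ D.ix)
    {η ζ : M} (hη : η ∈ D.N i) (hζ : ζ ∈ D.N i) (h1 : A.T (A.fn .ltd η))
    (h2 : A.T (A.fn .ltd ζ)) :
    A.fn .restr (A.pr (D.sd i (A.fn .un (A.pr η ζ))) η) = D.sd i η := by
  rw [A.un_comm]
  exact hD.sd_coh i hi ζ hζ η hη h2 h1

/-- Ultrapowers are closed under the operations. -/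
theorem IsPI.Cs_closed (hδ : 0 < δ) {A : Alg δ P M} {D : PD M} (hD : IsPI A D) {i : M}
    (hi : i ∈ D.ix) : (∀ x ∈ D.Cs A i, ∀ c, A.fn c x ∈ D.Cs A i) ∧
      ∀ x ∈ D.Cs A i, ∀ y ∈ D.Cs A i, A.pr x y ∈ D.Cs A i := by
  have _ := hδ
  constructor
  · rintro x ⟨f, hf, η, hη, hl, rfl⟩ c
    have h := hD.mem_Cs_lam hi (.comp c (.comp .app (.pair .snd .fst))) hη hl hf
    rw [A.fn_comp, A.fn_comp, A.fn_pair, A.fn_snd, A.fn_fst] at h
    exact h
  · rintro x ⟨f, hf, η, hη, hl, rfl⟩ y ⟨g, hg, ζ, hζ, hl', rfl⟩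
    have hu : A.fn .un (A.pr η ζ) ∈ D.N i := hD.N_fn i hi _ (hD.N_pr i hi _ hη _ hζ) _
    have hlu := A.ltd_un η ζ hl hl'
    have h := hD.mem_Cs_lam hi
      (.pair (.comp .app (.pair (.comp .fst (.comp .fst .snd))
          (.comp .restr (.pair .fst (.comp .snd (.comp .fst .snd))))))
        (.comp .app (.pair (.comp .fst (.comp .snd .snd))
          (.comp .restr (.pair .fst (.comp .snd (.comp .snd .snd))))))) hu hlu
      (hD.N_pr i hi _ (hD.N_pr i hi _ hf _ hη) _ (hD.N_pr i hi _ hg _ hζ))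
    simp only [A.fn_comp, A.fn_pair, A.fn_snd, A.fn_fst] at h
    rw [hD.sd_coh' hi hη hζ hl hl', hD.sd_coh i hi η hη ζ hζ hl hl'] at h
    exact h

/-- Membership of the seeds in sets of `N i` given by a code is decided by clubs: if
`{x ∈ DOM η | c (x, p) = 1}` is not stationary then it does not contain `sd i η`. -/
theorem IsPI.not_of_not_stat {A : Alg δ P M} {D : PD M} (hD : IsPI A D) {i : M}
    (hi : i ∈ D.ix) {η p : M} (hη : η ∈ D.N i) (hp : p ∈ D.N i) (hl : A.T (A.fn .ltd η))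
    (c : Code) (h : ¬ A.T (A.fn .stat (A.pr η (A.fn (.sep c) (A.pr (A.fn .dom η) p))))) :
    ¬ A.T (A.fn c (A.pr (D.sd i η) p)) := by
  intro hT
  apply h
  refine hD.ultra i hi η hη _
    (hD.N_fn i hi _ (hD.N_pr i hi _ (hD.N_fn i hi _ hη _) _ hp) _) hl ?_
  have := A.transfer (.imp (.and (.mem (.v 0) (.v 1)) (.tr (.f c (.p (.v 0) (.v 2)))))
    (.mem (.v 0) (.f (.sep c) (.p (.v 1) (.v 2))))) (by
      intro ρ
      simp only [QF.evU, Tm.evU, eval, zfst_pair, zsnd_pair, mem_sep]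
      exact fun h => h)
    (fun i' => match i' with | 0 => D.sd i η | 1 => A.fn .dom η | _ => p)
  exact this ⟨hD.sd_mem i hi η hη hl, hT⟩

/-! ### Fodor's lemma in iterations -/

/-- The universal facts behind `pi_facts`. -/
theorem fodor_use {nD nC : ZFSet.{u} → ZFSet.{u}}
    (hF : ∀ η f z, Ltd δ η → Ctbl z →
      Pred δ (nD (pair η (pair f z))) ∧
      ∀ t ∈ nD (pair η (pair f z)), η ⊆ zfst t ∧
        ((∀ x ∈ zsnd t, zapp f (restr x η) ∉ restr x η ∧ zapp f (restr x η) ∉ z) ∨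
          ∀ x ∈ zsnd t, zapp f (restr x η) = nC (pair t (pair η (pair f z)))))
    {k₀ k₁ : ℕ} (h₀ : P k₀ = nD) (h₁ : P k₁ = nC) {A : Alg δ P M} {D : PD M} (hD : IsPI A D)
    {i : M} (hi : i ∈ D.ix) {η f z : M} (hη : η ∈ D.N i) (hf : f ∈ D.N i) (hz : z ∈ D.N i)
    (hl : A.T (A.fn .ltd η)) (hc : A.T (A.fn .ctbl z)) :
    (¬ A.mem (A.fn .app (A.pr f (D.sd i η))) (D.sd i η) ∧
      ¬ A.mem (A.fn .app (A.pr f (D.sd i η))) z) ∨ A.fn .app (A.pr f (D.sd i η)) ∈ D.N i := by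
  have hq : A.pr η (A.pr f z) ∈ D.N i := hD.N_pr i hi _ hη _ (hD.N_pr i hi _ hf _ hz)
  have hE : A.fn (.prim k₀) (A.pr η (A.pr f z)) ∈ D.N i := hD.N_fn i hi _ hq _
  have t1 := A.transfer (.imp (.and (.tr (.f .ltd (.v 0))) (.tr (.f .ctbl (.v 2))))
    (.tr (.f .pred (.f (.prim k₀) (.p (.v 0) (.p (.v 1) (.v 2))))))) (by
      intro ρ
      simp only [QF.evU, Tm.evU, eval, zb_eq_one, h₀]
      rintro ⟨h1, h2⟩
      exact (hF _ _ _ h1 h2).1)
    (fun i' => match i' with | 0 => η | 1 => f | _ => z)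
  have hp : A.T (A.fn .pred (A.fn (.prim k₀) (A.pr η (A.pr f z)))) := t1 ⟨hl, hc⟩
  obtain ⟨t, ht, htE, hts⟩ := hD.gen i hi _ hE hp
  have hft : A.fn .fst t ∈ D.N i := hD.N_fn i hi _ ht _
  have t2 := A.transfer (.imp (.and (.tr (.f .pred (.v 0))) (.mem (.v 1) (.v 0)))
    (.tr (.f .ltd (.f .fst (.v 1))))) (by
      intro ρ
      simp only [QF.evU, Tm.evU, eval, zb_eq_one]
      rintro ⟨h1, h2⟩
      obtain ⟨η', a, h3, _, _, h4⟩ := h1.1 _ h2
      rw [h4, zfst_pair]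
      exact h3)
    (fun i' => match i' with | 0 => A.fn (.prim k₀) (A.pr η (A.pr f z)) | _ => t)
  have hlt : A.T (A.fn .ltd (A.fn .fst t)) := t2 ⟨hp, htE⟩
  have t3 := A.transfer (.imp (.and (.and (.tr (.f .ltd (.v 0))) (.tr (.f .ctbl (.v 2))))
      (.mem (.v 3) (.f (.prim k₀) (.p (.v 0) (.p (.v 1) (.v 2))))))
    (.eq (.f .un (.p (.f .fst (.v 3)) (.v 0))) (.f .fst (.v 3)))) (by
      intro ρ
      simp only [QF.evU, Tm.evU, eval, zb_eq_one, h₀, zfst_pair, zsnd_pair]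
      rintro ⟨⟨h1, h2⟩, h3⟩
      have h4 := ((hF _ _ _ h1 h2).2 _ h3).1
      ext y
      rw [mem_union]
      exact ⟨fun h => h.elim (fun h => h) (fun h => h4 h), Or.inl⟩)
    (fun i' => match i' with | 0 => η | 1 => f | 2 => z | _ => t)
  have hun : A.fn .un (A.pr (A.fn .fst t) η) = A.fn .fst t := t3 ⟨⟨hl, hc⟩, htE⟩
  have hre : A.fn .restr (A.pr (D.sd i (A.fn .fst t)) η) = D.sd i η := by
    have := hD.sd_coh i hi _ hft η hη hlt hl
    rwa [hun] at this
  have t4 := A.transfer (.imp (.and (.and (.and (.tr (.f .ltd (.v 0))) (.tr (.f .ctbl (.v 2))))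
      (.mem (.v 3) (.f (.prim k₀) (.p (.v 0) (.p (.v 1) (.v 2)))))) (.mem (.v 4) (.f .snd (.v 3))))
    (.or (.and (.not (.mem (.f .app (.p (.v 1) (.f .restr (.p (.v 4) (.v 0)))))
        (.f .restr (.p (.v 4) (.v 0)))))
        (.not (.mem (.f .app (.p (.v 1) (.f .restr (.p (.v 4) (.v 0))))) (.v 2))))
      (.eq (.f .app (.p (.v 1) (.f .restr (.p (.v 4) (.v 0)))))
        (.f (.prim k₁) (.p (.v 3) (.p (.v 0) (.p (.v 1) (.v 2)))))))) (by
      intro ρ
      simp only [QF.evU, Tm.evU, eval, zb_eq_one, h₀, h₁, zfst_pair, zsnd_pair]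
      rintro ⟨⟨⟨h1, h2⟩, h3⟩, h4⟩
      rcases ((hF _ _ _ h1 h2).2 _ h3).2 with h5 | h5
      · exact Or.inl (h5 _ h4)
      · exact Or.inr (h5 _ h4))
    (fun i' => match i' with
      | 0 => η | 1 => f | 2 => z | 3 => t | _ => D.sd i (A.fn .fst t))
  have t5 : (¬ A.mem (A.fn .app (A.pr f (A.fn .restr (A.pr (D.sd i (A.fn .fst t)) η))))
        (A.fn .restr (A.pr (D.sd i (A.fn .fst t)) η)) ∧
      ¬ A.mem (A.fn .app (A.pr f (A.fn .restr (A.pr (D.sd i (A.fn .fst t)) η)))) z) ∨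
      A.fn .app (A.pr f (A.fn .restr (A.pr (D.sd i (A.fn .fst t)) η))) =
        A.fn (.prim k₁) (A.pr t (A.pr η (A.pr f z))) := t4 ⟨⟨⟨hl, hc⟩, htE⟩, hts⟩
  rw [hre] at t5
  rcases t5 with h | h
  · exact Or.inl h
  · right
    rw [h]
    exact hD.N_fn i hi _ (hD.N_pr i hi _ ht _ hq) _

theorem Alg.ctbl_empty (A : Alg δ P M) (x : M) : A.T (A.fn .ctbl (A.fn (numC 0) x)) := by
  have := A.transfer (.tr (.f .ctbl (.f (numC 0) (.v 0)))) (by
      intro ρ
      simp only [QF.evU, Tm.evU]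
      rw [eval_numC]
      simp only [eval, zb_eq_one]
      unfold Ctbl
      simp) (fun _ => x)
  exact this

theorem Alg.trich (A : Alg δ P M) (x y : M) (hx : A.T (A.fn .ord x)) (hy : A.T (A.fn .ord y)) :
    A.mem x y ∨ x = y ∨ A.mem y x := by
  have := A.transfer (.imp (.and (.tr (.f .ord (.v 0))) (.tr (.f .ord (.v 1))))
    (.or (.mem (.v 0) (.v 1)) (.or (.eq (.v 0) (.v 1)) (.mem (.v 1) (.v 0))))) (by
      intro ρ
      simp only [QF.evU, Tm.evU, eval, zb_eq_one]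
      rintro ⟨h1, h2⟩
      exact h1.mem_trichotomous h2)
    (fun i' => match i' with | 0 => x | _ => y)
  exact this ⟨hx, hy⟩

/-- **Fodor, countable completeness**: see the header of `fodor`.  `E` contains the two functions
`nD`, `nC` of `fodor`. -/
theorem pi_facts (δ : Ordinal.{u}) : ∃ E : ℕ → ZFSet.{u} → ZFSet.{u}, ∀ P, Has P E →
    ∀ (M : Type v) (A : Alg δ P M) (D : PD M), IsPI A D → Wf A D.ix → 0 < δ →
      -- elements of countable sets of `N i` are in `N i`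
      (∀ i ∈ D.ix, ∀ z ∈ D.N i, A.T (A.fn .ctbl z) → ∀ x ∈ D.car, A.mem x z → x ∈ D.N i) ∧
      (∀ z ∈ D.base, A.T (A.fn .ctbl z) → ∀ x ∈ D.car, A.mem x z → x ∈ D.base) ∧
      -- the elements of `sd i η` are the elements of `V_η` of `N i`
      (∀ i ∈ D.ix, ∀ η ∈ D.N i, A.T (A.fn .ltd η) → ∀ x ∈ D.car,
        (A.mem x (D.sd i η) ↔ x ∈ D.N i ∧ A.mem (A.fn .rk x) η)) := by
  obtain ⟨nD, nC, hF⟩ := fodor δ
  refine ⟨fun n => if n = 0 then nD else nC, ?_⟩
  intro P hP M A D hD hwf hδ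
  obtain ⟨k₀, h₀⟩ := hP 0
  obtain ⟨k₁, h₁⟩ := hP 1
  simp only [if_true] at h₀
  simp only [one_ne_zero, if_false] at h₁
  -- one step
  have star : ∀ i ∈ D.ix, ∀ z ∈ D.N i, A.T (A.fn .ctbl z) → ∀ x ∈ D.Cs A i, A.mem x z →
      x ∈ D.N i := by
    rintro i hi z hz hc x ⟨f, hf, η, hη, hl, rfl⟩ hx
    rcases fodor_use hF h₀ h₁ hD hi hη hf hz hl hc with h | h
    · exact absurd hx h.2
    · exact h
  have self : ∀ i ∈ D.ix, ∀ η ∈ D.N i, A.T (A.fn .ltd η) → ∀ x ∈ D.Cs A i,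
      A.mem x (D.sd i η) → x ∈ D.N i := by
    rintro i hi η hη hl x ⟨f, hf, ζ, hζ, hl', rfl⟩ hx
    have hu : A.fn .un (A.pr η ζ) ∈ D.N i := hD.N_fn i hi _ (hD.N_pr i hi _ hη _ hζ) _
    have hlu := A.ltd_un η ζ hl hl'
    have hp : A.pr f ζ ∈ D.N i := hD.N_pr i hi _ hf _ hζ
    have hf' : A.fn (.lam (.comp .app (.pair (.comp .fst .snd)
        (.comp .restr (.pair .fst (.comp .snd .snd))))))
        (A.pr (A.fn .dom (A.fn .un (A.pr η ζ))) (A.pr f ζ)) ∈ D.N i :=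
      hD.N_fn i hi _ (hD.N_pr i hi _ (hD.N_fn i hi _ hu _) _ hp) _
    have h := fodor_use hF h₀ h₁ hD hi hu hf' (hD.N_fn i hi _ hη (numC 0)) hlu
      (A.ctbl_empty η)
    rw [A.app_lam _ _ _ _ (hD.sd_mem i hi _ hu hlu)] at h
    simp only [A.fn_comp, A.fn_pair, A.fn_snd, A.fn_fst] at h
    rw [hD.sd_coh i hi η hη ζ hζ hl hl'] at h
    rcases h with h | h
    · exfalso
      apply h.1
      have h2 := hD.sd_coh' hi hη hζ hl hl'
      have h3 := A.transfer (.imp (.mem (.v 0) (.f .restr (.p (.v 1) (.v 2))))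
        (.mem (.v 0) (.v 1))) (by
          intro ρ
          simp only [QF.evU, Tm.evU, eval, zfst_pair, zsnd_pair]
          exact fun h => (mem_restr.1 h).1)
        (fun i' => match i' with
          | 0 => A.fn .app (A.pr f (D.sd i ζ)) | 1 => D.sd i (A.fn .un (A.pr η ζ)) | _ => η)
      have h4 : A.mem (A.fn .app (A.pr f (D.sd i ζ)))
          (A.fn .restr (A.pr (D.sd i (A.fn .un (A.pr η ζ))) η)) := by rw [h2]; exact hx
      exact h3 h4
    · exact h
  have gen : ∀ i ∈ D.ix, ∀ z, A.T (A.fn .ctbl z) → (∀ j ∈ D.ix, A.mem i j → z ∈ D.N j) →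
      (∀ x ∈ D.Cs A i, A.mem x z → x ∈ D.N i) → ∀ x ∈ D.car, A.mem x z → x ∈ D.N i := by
    intro i hi z hc hz hs
    have key : ∀ j ∈ D.ix, ∀ x ∈ D.Cs A j, A.mem x z → x ∈ D.N i := by
      refine hwf.induct ?_
      intro j hj ih x hx hxz
      rcases A.trich j i (hD.ix_ord j hj) (hD.ix_ord i hi) with h | h | h
      · exact hD.Cs_sub hj hi h hx
      · subst h; exact hs x hx hxz
      · have h1 := star j hj z (hz j hj h) hc x hx hxz
        rcases (hD.N_iff j hj x).1 h1 with h2 | ⟨k, hk, hkj, hxk⟩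
        · exact hD.base_sub_N hi h2
        · exact ih k hk hkj x hxk hxz
    intro x hx hxz
    rcases hD.tot x hx with h | ⟨j, hj, h⟩
    · exact hD.base_sub_N hi h
    · exact key j hj x h hxz
  refine ⟨?_, ?_, ?_⟩
  · intro i hi z hz hc
    exact gen i hi z hc (fun j hj hij => hD.N_mono hi hj hij hz) (star i hi z hz hc)
  · intro z hz hc
    have key : ∀ j ∈ D.ix, ∀ x ∈ D.Cs A j, A.mem x z → x ∈ D.base := by
      refine hwf.induct ?_
      intro j hj ih x hx hxz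
      have h1 := star j hj z (hD.base_sub_N hj hz) hc x hx hxz
      rcases (hD.N_iff j hj x).1 h1 with h2 | ⟨k, hk, hkj, hxk⟩
      · exact h2
      · exact ih k hk hkj x hxk hxz
    intro x hx hxz
    rcases hD.tot x hx with h | ⟨j, hj, h⟩
    · exact h
    · exact key j hj x h hxz
  · intro i hi η hη hl x hx
    constructor
    · intro h
      have hm := hD.sd_mem i hi η hη hl
      have t1 := A.transfer (.imp (.and (.and (.tr (.f .ltd (.v 0)))
          (.mem (.v 1) (.f .dom (.v 0)))) (.mem (.v 2) (.v 1)))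
        (.and (.mem (.f .rk (.v 2)) (.v 0)) (.tr (.f .ctbl (.v 1))))) (by
          intro ρ
          simp only [QF.evU, Tm.evU, eval, zb_eq_one]
          rintro ⟨⟨⟨α, hα, h1⟩, h2⟩, h3⟩
          unfold DOM at h2
          rw [mem_sep, mem_powerset] at h2
          refine ⟨?_, h2.2⟩
          have h4 := h2.1 h3
          rw [mem_vonNeumann] at h4
          rw [h1] at h4 ⊢
          rw [Ordinal.rank_toZFSet] at h4
          exact Ordinal.toZFSet_mem_toZFSet_iff.2 h4)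
        (fun i' => match i' with | 0 => η | 1 => D.sd i η | _ => x)
      have t2 : A.mem (A.fn .rk x) η ∧ A.T (A.fn .ctbl (D.sd i η)) := t1 ⟨⟨hl, hm⟩, h⟩
      refine ⟨?_, t2.1⟩
      refine gen i hi _ t2.2 ?_ (self i hi η hη hl) x hx h
      intro j hj hij
      apply hD.Cs_sub hi hj hij
      have h1 := hD.mem_Cs_lam hi .fst hη hl hη
      rwa [A.fn_fst] at h1
    · rintro ⟨hxN, hr⟩
      by_contra hcon
      have h1 : A.T (A.fn (.comp .not (.comp .mem (.pair .snd .fst))) (A.pr (D.sd i η) x)) := by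
        rw [A.fn_comp, A.fn_comp, A.fn_pair, A.fn_snd, A.fn_fst, A.T_not]
        exact hcon
      refine hD.not_of_not_stat hi hη hxN hl _ ?_ h1
      have t1 := A.transfer (.imp (.and (.tr (.f .ltd (.v 0))) (.mem (.f .rk (.v 1)) (.v 0)))
        (.not (.tr (.f .stat (.p (.v 0) (.f (.sep (.comp .not (.comp .mem (.pair .snd .fst))))
          (.p (.f .dom (.v 0)) (.v 1)))))))) (by
          intro ρ
          simp only [QF.evU, Tm.evU, eval, zb_eq_one, zfst_pair, zsnd_pair, ne_eq]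
          rintro ⟨⟨α, hα, h1⟩, h2⟩ h3
          refine not_stat_notMem (η := ρ 0) (x := ρ 1) ?_ h3.2
          rw [mem_vonNeumann, h1, Ordinal.rank_toZFSet]
          rw [h1] at h2
          exact Ordinal.toZFSet_mem_toZFSet_iff.1 h2)
        (fun i' => match i' with | 0 => η | _ => x)
      exact t1 ⟨hl, hr⟩

end H94W
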