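import Pool.Agent.Lib.H94W.PIBasic

/-!
# Project Woodin: pre-algebras (equality is interpreted by the truth predicate)
-/

set_option autoImplicit false

namespace H94W

open Ordinal Cardinal ZFSet

universe u v w

/-- A pre-algebra. -/
structure PA (M : Type v) where
  fn : Code → M → M
  pr : M → M → M
  tt : M
  T : M → Prop

namespace PA

variable {M : Type v} (B : PA M)

/-- Equality in a pre-algebra. -/
def eq (x y : M) : Prop := B.T (B.fn .eq (B.pr x y))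

/-- Membership in a pre-algebra. -/
def mem (x y : M) : Prop := B.T (B.fn .mem (B.pr x y))

/-- Value of a term. -/
def evT (ρ : ℕ → M) : Tm → M
  | .v i => ρ i
  | .f c t => B.fn c (evT ρ t)
  | .p s t => B.pr (evT ρ s) (evT ρ t)

/-- Truth of a quantifier-free formula. -/
def evQ (ρ : ℕ → M) : QF → Prop
  | .tr t => B.T (B.evT ρ t)
  | .eq s t => B.eq (B.evT ρ s) (B.evT ρ t)
  | .mem s t => B.mem (B.evT ρ s) (B.evT ρ t)
  | .not φ => ¬ evQ ρ φ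
  | .and φ ψ => evQ ρ φ ∧ evQ ρ ψ
  | .or φ ψ => evQ ρ φ ∨ evQ ρ ψ
  | .imp φ ψ => evQ ρ φ → evQ ρ ψ

/-- `S` is a set of elements of the pre-algebra, closed under the operations, which satisfies all
quantifier-free formulas that are valid in the universe. -/
structure IsOn (δ : Ordinal.{u}) (P : ℕ → ZFSet.{u} → ZFSet.{u}) (S : Set M) : Prop where
  tt : B.tt ∈ S
  fn : ∀ x ∈ S, ∀ c, B.fn c x ∈ S
  pr : ∀ x ∈ S, ∀ y ∈ S, B.pr x y ∈ S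
  valid : ∀ φ : QF, (∀ ρ : ℕ → ZFSet.{u}, φ.evU δ P ρ) → ∀ ρ : ℕ → M, (∀ i, ρ i ∈ S) →
    B.evQ ρ φ
  T_tt : B.T B.tt

end PA

variable {δ : Ordinal.{u}} {P : ℕ → ZFSet.{u} → ZFSet.{u}} {M : Type v}

/-- The axioms of `PA.isOn_of`. -/
structure PA.Ax (δ : Ordinal.{u}) (P : ℕ → ZFSet.{u} → ZFSet.{u}) (B : PA M) (S : Set M) :
    Prop where
  h_tt : B.tt ∈ S
  h_fn : ∀ x ∈ S, ∀ c, B.fn c x ∈ S
  h_pr : ∀ x ∈ S, ∀ y ∈ S, B.pr x y ∈ S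
  T_tt : B.T B.tt
  T_iff : ∀ x ∈ S, B.T x ↔ B.eq x B.tt
  refl : ∀ x ∈ S, B.eq x x
  symm : ∀ x ∈ S, ∀ y ∈ S, B.eq x y → B.eq y x
  trans : ∀ x ∈ S, ∀ y ∈ S, ∀ z ∈ S, B.eq x y → B.eq y z → B.eq x z
  fn_congr : ∀ x ∈ S, ∀ y ∈ S, ∀ c, B.eq x y → B.eq (B.fn c x) (B.fn c y)
  pr_congr : ∀ x ∈ S, ∀ y ∈ S, ∀ x' ∈ S, ∀ y' ∈ S, B.eq x x' → B.eq y y' →
    B.eq (B.pr x y) (B.pr x' y')
  fn_id : ∀ x ∈ S, B.eq (B.fn .id x) x
  fn_fst : ∀ x ∈ S, ∀ y ∈ S, B.eq (B.fn .fst (B.pr x y)) x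
  fn_snd : ∀ x ∈ S, ∀ y ∈ S, B.eq (B.fn .snd (B.pr x y)) y
  fn_one : ∀ x ∈ S, B.eq (B.fn .one x) B.tt
  fn_comp : ∀ a b, ∀ x ∈ S, B.eq (B.fn (.comp a b) x) (B.fn a (B.fn b x))
  fn_pair : ∀ a b, ∀ x ∈ S, B.eq (B.fn (.pair a b) x) (B.pr (B.fn a x) (B.fn b x))
  fn_not : ∀ x ∈ S, B.T (B.fn .not x) ↔ ¬ B.T x
  fn_valid : ∀ c, (∀ x : ZFSet.{u}, eval δ P c x = one) → ∀ x ∈ S, B.T (B.fn c x)

/-- The quotient algebra, from the axioms. -/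
theorem PA.Ax.quotient {B : PA M} {S : Set M} (h : B.Ax δ P S) :
    ∃ (Q : Type v) (A : Alg δ P Q) (q : M → Q), Function.Surjective q ∧
      (∀ a : Q, ∃ x ∈ S, q x = a) ∧ q B.tt = A.tt ∧
      (∀ x ∈ S, ∀ c, q (B.fn c x) = A.fn c (q x)) ∧
      (∀ x ∈ S, ∀ y ∈ S, q (B.pr x y) = A.pr (q x) (q y)) ∧
      (∀ x ∈ S, ∀ y ∈ S, q x = q y ↔ B.eq x y) ∧
      ∀ x ∈ S, A.T (q x) ↔ B.T x := by
  classical
  let s : Setoid S :=
    { r := fun x y => B.eq x.1 y.1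
      iseqv :=
        { refl := fun x => h.refl x.1 x.2
          symm := fun {x y} hxy => h.symm x.1 x.2 y.1 y.2 hxy
          trans := fun {x y z} hxy hyz => h.trans x.1 x.2 y.1 y.2 z.1 z.2 hxy hyz } }
  let Q := Quotient s
  let mk : S → Q := fun x => Quotient.mk s x
  have mk_eq : ∀ x y : S, mk x = mk y ↔ B.eq x.1 y.1 := fun x y => Quotient.eq (r := s)
  let tt' : S := ⟨B.tt, h.h_tt⟩
  let fn' : Code → Q → Q := fun c => Quotient.map (fun x : S => (⟨B.fn c x.1, h.h_fn x.1 x.2 c⟩ : S))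
    (fun x y hxy => h.fn_congr x.1 x.2 y.1 y.2 c hxy)
  let pr' : Q → Q → Q := Quotient.map₂
    (fun x y : S => (⟨B.pr x.1 y.1, h.h_pr x.1 x.2 y.1 y.2⟩ : S))
    (fun x x' hx y y' hy => h.pr_congr x.1 x.2 y.1 y.2 x'.1 x'.2 y'.1 y'.2 hx hy)
  have fn_mk : ∀ (c : Code) (x : S), fn' c (mk x) = mk ⟨B.fn c x.1, h.h_fn x.1 x.2 c⟩ :=
    fun c x => rfl
  have pr_mk : ∀ x y : S, pr' (mk x) (mk y) = mk ⟨B.pr x.1 y.1, h.h_pr x.1 x.2 y.1 y.2⟩ :=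
    fun x y => rfl
  have mk_tt : ∀ x : S, mk x = mk tt' ↔ B.T x.1 := fun x =>
    (mk_eq x tt').trans (h.T_iff x.1 x.2).symm
  have ind : ∀ {p : Q → Prop}, (∀ x : S, p (mk x)) → ∀ a, p a := fun hp a =>
    Quotient.inductionOn a hp
  let A : Alg δ P Q :=
    { fn := fn'
      pr := pr'
      tt := mk tt'
      fn_id := ind fun x => by
        rw [fn_mk, mk_eq]; exact h.fn_id x.1 x.2
      fn_fst := ind fun x => ind fun y => by
        rw [pr_mk, fn_mk, mk_eq]; exact h.fn_fst x.1 x.2 y.1 y.2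
      fn_snd := ind fun x => ind fun y => by
        rw [pr_mk, fn_mk, mk_eq]; exact h.fn_snd x.1 x.2 y.1 y.2
      fn_one := ind fun x => by
        rw [fn_mk, mk_eq]; exact h.fn_one x.1 x.2
      fn_eq := ind fun x => ind fun y => by
        rw [pr_mk, fn_mk, mk_tt, mk_eq]; exact Iff.rfl
      fn_comp := fun a b => ind fun x => by
        rw [fn_mk, fn_mk, fn_mk, mk_eq]; exact h.fn_comp a b x.1 x.2
      fn_pair := fun a b => ind fun x => by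
        rw [fn_mk, fn_mk, fn_mk, pr_mk, mk_eq]; exact h.fn_pair a b x.1 x.2
      fn_not := ind fun x => by
        rw [fn_mk, mk_tt, ne_eq, mk_tt]; exact h.fn_not x.1 x.2
      fn_valid := fun c hc => ind fun x => by
        rw [fn_mk, mk_tt]; exact h.fn_valid c hc x.1 x.2 }
  let q : M → Q := fun x => if hx : x ∈ S then mk ⟨x, hx⟩ else mk tt'
  have q_of : ∀ x (hx : x ∈ S), q x = mk ⟨x, hx⟩ := fun x hx => dif_pos hx
  have hsurj : ∀ a : Q, ∃ x ∈ S, q x = a := ind fun x => ⟨x.1, x.2, q_of x.1 x.2⟩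
  refine ⟨Q, A, q, fun a => ?_, hsurj, q_of _ h.h_tt, ?_, ?_, ?_, ?_⟩
  · obtain ⟨x, _, hx⟩ := hsurj a
    exact ⟨x, hx⟩
  · intro x hx c
    rw [q_of x hx, q_of _ (h.h_fn x hx c)]
    rfl
  · intro x hx y hy
    rw [q_of x hx, q_of y hy, q_of _ (h.h_pr x hx y hy)]
    rfl
  · intro x hx y hy
    rw [q_of x hx, q_of y hy, mk_eq]
  · intro x hx
    rw [q_of x hx]
    exact mk_tt ⟨x, hx⟩

theorem PA.Ax.isOn {B : PA M} {S : Set M} (h : B.Ax δ P S) : B.IsOn δ P S := by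
  obtain ⟨Q, A, q, _, _, htt, hfn, hpr, heq, hT⟩ := h.quotient
  refine ⟨h.h_tt, h.h_fn, h.h_pr, ?_, h.T_tt⟩
  intro φ hφ ρ hρ
  have h1 := A.transfer φ hφ (fun i => q (ρ i))
  have hev : ∀ t : Tm, B.evT ρ t ∈ S ∧ q (B.evT ρ t) = A.evT (fun i => q (ρ i)) t := by
    intro t
    induction t with
    | v i => exact ⟨hρ i, rfl⟩
    | f c t ih =>
      refine ⟨h.h_fn _ ih.1 c, ?_⟩
      show q (B.fn c (B.evT ρ t)) = A.fn c _
      rw [hfn _ ih.1 c, ih.2]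
    | p s t ih1 ih2 =>
      refine ⟨h.h_pr _ ih1.1 _ ih2.1, ?_⟩
      show q (B.pr (B.evT ρ s) (B.evT ρ t)) = A.pr _ _
      rw [hpr _ ih1.1 _ ih2.1, ih1.2, ih2.2]
  have key : ∀ φ : QF, A.evQ (fun i => q (ρ i)) φ ↔ B.evQ ρ φ := by
    intro φ
    induction φ with
    | tr t =>
      show A.T (A.evT _ t) ↔ B.T (B.evT ρ t)
      rw [← (hev t).2]; exact hT _ (hev t).1
    | eq s t =>
      show A.evT _ s = A.evT _ t ↔ B.eq (B.evT ρ s) (B.evT ρ t)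
      rw [← (hev s).2, ← (hev t).2]; exact heq _ (hev s).1 _ (hev t).1
    | mem s t =>
      show A.T (A.fn .mem (A.pr (A.evT _ s) (A.evT _ t))) ↔
        B.T (B.fn .mem (B.pr (B.evT ρ s) (B.evT ρ t)))
      rw [← (hev s).2, ← (hev t).2, ← hpr _ (hev s).1 _ (hev t).1,
        ← hfn _ (h.h_pr _ (hev s).1 _ (hev t).1)]
      exact hT _ (h.h_fn _ (h.h_pr _ (hev s).1 _ (hev t).1) _)
    | not φ ih => exact not_congr ih
    | and φ ψ ih1 ih2 => exact and_congr ih1 ih2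
    | or φ ψ ih1 ih2 => exact or_congr ih1 ih2
    | imp φ ψ ih1 ih2 => exact imp_congr ih1 ih2
  exact (key φ).1 h1

/-- Assignment of the first four variables. -/
def as4 {M : Type v} (a b c d : M) : ℕ → M
  | 0 => a
  | 1 => b
  | 2 => c
  | _ => d

theorem as4_mem {M : Type v} {S : Set M} {a b c d : M} (ha : a ∈ S) (hb : b ∈ S) (hc : c ∈ S)
    (hd : d ∈ S) : ∀ i, as4 a b c d i ∈ S
  | 0 => ha
  | 1 => hb
  | 2 => hc
  | _ + 3 => hd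

theorem PA.IsOn.ax {B : PA M} {S : Set M} (h : B.IsOn δ P S) : B.Ax δ P S where
  h_tt := h.tt
  h_fn := h.fn
  h_pr := h.pr
  T_tt := h.T_tt
  T_iff := by
    intro x hx
    have h1 := h.valid (.imp (.tr (.v 1)) (.imp (.tr (.v 0)) (.eq (.v 0) (.v 1)))) (by
      intro ρ h1 h2
      exact Eq.trans h2 (Eq.symm h1)) (as4 x B.tt x x) (as4_mem hx h.tt hx hx)
    have h2 := h.valid (.imp (.tr (.v 1)) (.imp (.eq (.v 0) (.v 1)) (.tr (.v 0)))) (by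
      intro ρ h1 h2
      exact Eq.trans h2 h1) (as4 x B.tt x x) (as4_mem hx h.tt hx hx)
    exact ⟨fun h3 => h1 h.T_tt h3, fun h3 => h2 h.T_tt h3⟩
  refl := fun x hx => h.valid (.eq (.v 0) (.v 0)) (fun ρ => rfl) (as4 x x x x)
    (as4_mem hx hx hx hx)
  symm := fun x hx y hy => h.valid (.imp (.eq (.v 0) (.v 1)) (.eq (.v 1) (.v 0)))
    (fun ρ h => Eq.symm h) (as4 x y x x) (as4_mem hx hy hx hx)
  trans := fun x hx y hy z hz => h.valid (.imp (.eq (.v 0) (.v 1)) (.imp (.eq (.v 1) (.v 2))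
    (.eq (.v 0) (.v 2)))) (fun ρ h1 h2 => Eq.trans h1 h2) (as4 x y z x) (as4_mem hx hy hz hx)
  fn_congr := fun x hx y hy c => h.valid (.imp (.eq (.v 0) (.v 1))
    (.eq (.f c (.v 0)) (.f c (.v 1)))) (fun ρ h => congrArg (eval δ P c) h) (as4 x y x x)
    (as4_mem hx hy hx hx)
  pr_congr := fun x hx y hy x' hx' y' hy' => h.valid (.imp (.eq (.v 0) (.v 2))
    (.imp (.eq (.v 1) (.v 3)) (.eq (.p (.v 0) (.v 1)) (.p (.v 2) (.v 3)))))
    (fun ρ h1 h2 => congrArg₂ ZFSet.pair h1 h2) (as4 x y x' y') (as4_mem hx hy hx' hy')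
  fn_id := fun x hx => h.valid (.eq (.f .id (.v 0)) (.v 0)) (fun ρ => rfl) (as4 x x x x)
    (as4_mem hx hx hx hx)
  fn_fst := fun x hx y hy => h.valid (.eq (.f .fst (.p (.v 0) (.v 1))) (.v 0))
    (fun ρ => zfst_pair _ _) (as4 x y x x) (as4_mem hx hy hx hx)
  fn_snd := fun x hx y hy => h.valid (.eq (.f .snd (.p (.v 0) (.v 1))) (.v 1))
    (fun ρ => zsnd_pair _ _) (as4 x y x x) (as4_mem hx hy hx hx)
  fn_one := fun x hx => h.valid (.imp (.tr (.v 1)) (.eq (.f .one (.v 0)) (.v 1)))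
    (fun ρ h => Eq.symm h) (as4 x B.tt x x) (as4_mem hx h.tt hx hx) h.T_tt
  fn_comp := fun a b x hx => h.valid (.eq (.f (.comp a b) (.v 0)) (.f a (.f b (.v 0))))
    (fun ρ => rfl) (as4 x x x x) (as4_mem hx hx hx hx)
  fn_pair := fun a b x hx => h.valid (.eq (.f (.pair a b) (.v 0)) (.p (.f a (.v 0)) (.f b (.v 0))))
    (fun ρ => rfl) (as4 x x x x) (as4_mem hx hx hx hx)
  fn_not := by
    intro x hx
    have h1 := h.valid (.imp (.tr (.f .not (.v 0))) (.not (.tr (.v 0)))) (by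
      intro ρ h1
      exact zb_eq_one.1 h1) (as4 x x x x) (as4_mem hx hx hx hx)
    have h2 := h.valid (.imp (.not (.tr (.v 0))) (.tr (.f .not (.v 0)))) (by
      intro ρ h1
      exact zb_eq_one.2 h1) (as4 x x x x) (as4_mem hx hx hx hx)
    exact ⟨h1, h2⟩
  fn_valid := fun c hc x hx => h.valid (.tr (.f c (.v 0))) (fun ρ => hc _) (as4 x x x x)
    (as4_mem hx hx hx hx)

/-- To prove `IsOn` it is enough to check the following axioms. -/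
theorem PA.isOn_of (B : PA M) (S : Set M) (h_tt : B.tt ∈ S) (h_fn : ∀ x ∈ S, ∀ c, B.fn c x ∈ S)
    (h_pr : ∀ x ∈ S, ∀ y ∈ S, B.pr x y ∈ S)
    (T_tt : B.T B.tt)
    (T_iff : ∀ x ∈ S, B.T x ↔ B.eq x B.tt)
    (refl : ∀ x ∈ S, B.eq x x)
    (symm : ∀ x ∈ S, ∀ y ∈ S, B.eq x y → B.eq y x)
    (trans : ∀ x ∈ S, ∀ y ∈ S, ∀ z ∈ S, B.eq x y → B.eq y z → B.eq x z)
    (fn_congr : ∀ x ∈ S, ∀ y ∈ S, ∀ c, B.eq x y → B.eq (B.fn c x) (B.fn c y))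
    (pr_congr : ∀ x ∈ S, ∀ y ∈ S, ∀ x' ∈ S, ∀ y' ∈ S, B.eq x x' → B.eq y y' →
      B.eq (B.pr x y) (B.pr x' y'))
    (fn_id : ∀ x ∈ S, B.eq (B.fn .id x) x)
    (fn_fst : ∀ x ∈ S, ∀ y ∈ S, B.eq (B.fn .fst (B.pr x y)) x)
    (fn_snd : ∀ x ∈ S, ∀ y ∈ S, B.eq (B.fn .snd (B.pr x y)) y)
    (fn_one : ∀ x ∈ S, B.eq (B.fn .one x) B.tt)
    (fn_comp : ∀ a b, ∀ x ∈ S, B.eq (B.fn (.comp a b) x) (B.fn a (B.fn b x)))
    (fn_pair : ∀ a b, ∀ x ∈ S, B.eq (B.fn (.pair a b) x) (B.pr (B.fn a x) (B.fn b x)))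
    (fn_not : ∀ x ∈ S, B.T (B.fn .not x) ↔ ¬ B.T x)
    (fn_valid : ∀ c, (∀ x : ZFSet.{u}, eval δ P c x = one) → ∀ x ∈ S, B.T (B.fn c x)) :
    B.IsOn δ P S :=
  PA.Ax.isOn ⟨h_tt, h_fn, h_pr, T_tt, T_iff, refl, symm, trans, fn_congr, pr_congr, fn_id, fn_fst,
    fn_snd, fn_one, fn_comp, fn_pair, fn_not, fn_valid⟩

/-- The quotient algebra. -/
theorem PA.exists_quotient (B : PA M) (S : Set M) (hB : B.IsOn δ P S) :
    ∃ (Q : Type v) (A : Alg δ P Q) (q : M → Q), Function.Surjective q ∧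
      (∀ a : Q, ∃ x ∈ S, q x = a) ∧ q B.tt = A.tt ∧
      (∀ x ∈ S, ∀ c, q (B.fn c x) = A.fn c (q x)) ∧
      (∀ x ∈ S, ∀ y ∈ S, q (B.pr x y) = A.pr (q x) (q y)) ∧
      (∀ x ∈ S, ∀ y ∈ S, q x = q y ↔ B.eq x y) ∧
      ∀ x ∈ S, A.T (q x) ↔ B.T x :=
  hB.ax.quotient

end H94W
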