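import Pool.Agent.Lib.H94W.PIBasic

/-!
# Project Woodin, chunk R: countable sub-iterations, transport to `ℕ`
-/

set_option autoImplicit false

namespace H94W

open Ordinal Cardinal ZFSet

universe u v w

variable {δ : Ordinal.{u}} {P : ℕ → ZFSet.{u} → ZFSet.{u}} {M : Type v}

/-! ### Algebras are infinite -/

/-- The term `x ↦ ⟨x, x⟩` iterated `n` times. -/
def dblT : ℕ → Tm
  | 0 => .v 0
  | n + 1 => .p (dblT n) (dblT n)

theorem dblT_evU (ρ : ℕ → ZFSet.{u}) :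
    ∀ n, (dblT n).evU δ P ρ = (fun x => ZFSet.pair x x)^[n] (ρ 0)
  | 0 => rfl
  | n + 1 => by
    rw [Function.iterate_succ_apply']
    show ZFSet.pair ((dblT n).evU δ P ρ) ((dblT n).evU δ P ρ) = _
    rw [dblT_evU ρ n]

theorem dblT_evT (A : Alg δ P M) (ρ : ℕ → M) :
    ∀ n, A.evT ρ (dblT n) = (fun x => A.pr x x)^[n] (ρ 0)
  | 0 => rfl
  | n + 1 => by
    rw [Function.iterate_succ_apply']
    show A.pr (A.evT ρ (dblT n)) (A.evT ρ (dblT n)) = _
    rw [dblT_evT A ρ n]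

theorem rank_lt_pair_self_R (x : ZFSet.{u}) : rank x < rank (ZFSet.pair x x) := by
  have h1 : x ∈ ({x, x} : ZFSet.{u}) := by simp
  have h2 : ({x, x} : ZFSet.{u}) ∈ ZFSet.pair x x := by simp [ZFSet.pair]
  exact (rank_lt_of_mem h1).trans (rank_lt_of_mem h2)

theorem dbl_strictMono (x : ZFSet.{u}) :
    StrictMono fun n : ℕ => rank ((fun x => ZFSet.pair x x)^[n] x) := by
  apply strictMono_nat_of_lt_succ
  intro n
  rw [Function.iterate_succ_apply']
  exact rank_lt_pair_self_R _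

/-- Algebras are infinite (so are all nonempty closed subsets): `x ↦ pr x x` is injective without
cycles. -/
theorem Alg.infinite_of_closed (A : Alg δ P M) {S : Set M} {x : M} (hx : x ∈ S)
    (hS : ∀ x ∈ S, ∀ y ∈ S, A.pr x y ∈ S) : S.Infinite := by
  have hmem : ∀ n, (fun x => A.pr x x)^[n] x ∈ S := by
    intro n
    induction n with
    | zero => exact hx
    | succ n ih => rw [Function.iterate_succ_apply']; exact hS _ ih _ ih
  have hne : ∀ m n : ℕ, m ≠ n → (fun x => A.pr x x)^[m] x ≠ (fun x => A.pr x x)^[n] x := by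
    intro m n hmn he
    have h := A.transfer (.not (.eq (dblT m) (dblT n))) (by
      intro ρ h
      have h' : (dblT m).evU δ P ρ = (dblT n).evU δ P ρ := h
      rw [dblT_evU, dblT_evU] at h'
      exact hmn ((dbl_strictMono (ρ 0)).injective (congrArg rank h'))) (fun _ => x)
    apply h
    show A.evT _ (dblT m) = A.evT _ (dblT n)
    rw [dblT_evT, dblT_evT]
    exact he
  refine Set.infinite_of_injective_forall_mem (f := fun n : ℕ => (fun x => A.pr x x)^[n] x) ?_ hmem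
  intro m n h
  by_contra hmn
  exact hne m n hmn h

/-! ### Countable sub-iterations -/

/-- Closure of a countable set under countably many binary functions. -/
theorem exists_closure {ι : Type*} [Countable ι] (h : ι → M → M → M) (S₀ : Set M)
    (hS₀ : S₀.Countable) :
    ∃ S : Set M, S.Countable ∧ S₀ ⊆ S ∧ ∀ k, ∀ x ∈ S, ∀ y ∈ S, h k x y ∈ S := by
  let st : Set M → Set M := fun S => S ∪ ⋃ k, Set.image2 (h k) S S
  have hst : ∀ S : Set M, S.Countable → (st S).Countable := by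
    intro S hS
    refine hS.union (Set.countable_iUnion fun k => ?_)
    exact hS.image2 hS (h k)
  have hc : ∀ n : ℕ, (st^[n] S₀).Countable := by
    intro n
    induction n with
    | zero => exact hS₀
    | succ n ih => rw [Function.iterate_succ_apply']; exact hst _ ih
  have hstep : ∀ n : ℕ, st^[n] S₀ ⊆ st^[n + 1] S₀ := by
    intro n
    rw [Function.iterate_succ_apply']
    exact Set.subset_union_left
  have hmono : Monotone fun n : ℕ => st^[n] S₀ := monotone_nat_of_le_succ hstep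
  refine ⟨⋃ n : ℕ, st^[n] S₀, Set.countable_iUnion hc, ?_, ?_⟩
  · exact Set.subset_iUnion (fun n : ℕ => st^[n] S₀) 0
  · intro k x hx y hy
    obtain ⟨a, ha⟩ := Set.mem_iUnion.1 hx
    obtain ⟨b, hb⟩ := Set.mem_iUnion.1 hy
    have ha' := hmono (le_max_left a b) ha
    have hb' := hmono (le_max_right a b) hb
    refine Set.mem_iUnion.2 ⟨max a b + 1, ?_⟩
    rw [Function.iterate_succ_apply']
    exact Set.mem_union_right _ (Set.mem_iUnion.2 ⟨k, Set.mem_image2_of_mem ha' hb'⟩)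

/-- Restriction of an iteration to a smaller carrier. -/
def PD.res (D : PD M) (S : Set M) : PD M where
  car := D.car ∩ S
  base := D.base ∩ S
  ix := D.ix ∩ S
  N i := D.N i ∩ S
  sd := D.sd

/-- Countable sub-iterations. -/
theorem exists_countable_sub (A : Alg δ P M) (D : PD M) (hD : IsPI A D) (s : ℕ → M)
    (g : ℕ → M → M) :
    ∃ S : Set M, S.Countable ∧ (∀ n, s n ∈ S) ∧ (∀ n, ∀ x ∈ S, g n x ∈ S) ∧
      IsPI A (D.res S) := by
  classical
  -- witnesses for `N_iff`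
  have hN : ∀ i x : M, ∃ j f η : M, i ∈ D.ix → x ∈ D.N i → x ∉ D.base →
      j ∈ D.ix ∧ A.mem j i ∧ f ∈ D.N j ∧ η ∈ D.N j ∧ A.T (A.fn .ltd η) ∧
        x = A.fn .app (A.pr f (D.sd j η)) := by
    intro i x
    by_cases h : i ∈ D.ix ∧ x ∈ D.N i ∧ x ∉ D.base
    · rcases (hD.N_iff i h.1 x).1 h.2.1 with h1 | ⟨j, hj, hji, f, hf, η, hη, hl, hx⟩
      · exact absurd h1 h.2.2
      · exact ⟨j, f, η, fun _ _ _ => ⟨hj, hji, hf, hη, hl, hx⟩⟩
    · exact ⟨x, x, x, fun h1 h2 h3 => absurd ⟨h1, h2, h3⟩ h⟩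
  choose wj wf wη hw using hN
  -- witnesses for `tot`
  have hT : ∀ x : M, ∃ j f η : M, x ∈ D.car → x ∉ D.base →
      j ∈ D.ix ∧ f ∈ D.N j ∧ η ∈ D.N j ∧ A.T (A.fn .ltd η) ∧
        x = A.fn .app (A.pr f (D.sd j η)) := by
    intro x
    by_cases h : x ∈ D.car ∧ x ∉ D.base
    · rcases hD.tot x h.1 with h1 | ⟨j, hj, f, hf, η, hη, hl, hx⟩
      · exact absurd h1 h.2
      · exact ⟨j, f, η, fun _ _ => ⟨hj, hf, hη, hl, hx⟩⟩
    · exact ⟨x, x, x, fun h1 h2 => absurd ⟨h1, h2⟩ h⟩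
  choose tj tf tη ht using hT
  -- witnesses for `gen`
  have hG : ∀ i E : M, ∃ t : M, i ∈ D.ix → E ∈ D.N i → A.T (A.fn .pred E) →
      t ∈ D.N i ∧ A.mem t E ∧ A.mem (D.sd i (A.fn .fst t)) (A.fn .snd t) := by
    intro i E
    by_cases h : i ∈ D.ix ∧ E ∈ D.N i ∧ A.T (A.fn .pred E)
    · obtain ⟨t, h1, h2, h3⟩ := hD.gen i h.1 E h.2.1 h.2.2
      exact ⟨t, fun _ _ _ => ⟨h1, h2, h3⟩⟩
    · exact ⟨E, fun h1 h2 h3 => absurd ⟨h1, h2, h3⟩ h⟩
  choose wt hwt using hG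
  obtain ⟨S, hSc, hS₀, hS⟩ := exists_closure (M := M) (ι := Code ⊕ ℕ ⊕ Fin 9)
    (fun k x y => match k with
      | .inl c => A.fn c x
      | .inr (.inl n) => g n x
      | .inr (.inr 0) => A.pr x y
      | .inr (.inr 1) => D.sd x y
      | .inr (.inr 2) => wj x y
      | .inr (.inr 3) => wf x y
      | .inr (.inr 4) => wη x y
      | .inr (.inr 5) => tj x
      | .inr (.inr 6) => tf x
      | .inr (.inr 7) => tη x
      | .inr (.inr 8) => wt x y)
    (Set.range s ∪ {A.tt}) ((Set.countable_range s).union (Set.countable_singleton _))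
  have Stt : A.tt ∈ S := hS₀ (Or.inr rfl)
  have Ss : ∀ n, s n ∈ S := fun n => hS₀ (Or.inl ⟨n, rfl⟩)
  have Sfn : ∀ x ∈ S, ∀ c, A.fn c x ∈ S := fun x hx c => hS (.inl c) x hx x hx
  have Sg : ∀ n, ∀ x ∈ S, g n x ∈ S := fun n x hx => hS (.inr (.inl n)) x hx x hx
  have Spr : ∀ x ∈ S, ∀ y ∈ S, A.pr x y ∈ S := fun x hx y hy => hS (.inr (.inr 0)) x hx y hy
  have Ssd : ∀ x ∈ S, ∀ y ∈ S, D.sd x y ∈ S := fun x hx y hy => hS (.inr (.inr 1)) x hx y hy
  have Swj : ∀ x ∈ S, ∀ y ∈ S, wj x y ∈ S := fun x hx y hy => hS (.inr (.inr 2)) x hx y hy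
  have Swf : ∀ x ∈ S, ∀ y ∈ S, wf x y ∈ S := fun x hx y hy => hS (.inr (.inr 3)) x hx y hy
  have Swη : ∀ x ∈ S, ∀ y ∈ S, wη x y ∈ S := fun x hx y hy => hS (.inr (.inr 4)) x hx y hy
  have Stj : ∀ x ∈ S, tj x ∈ S := fun x hx => hS (.inr (.inr 5)) x hx x hx
  have Stf : ∀ x ∈ S, tf x ∈ S := fun x hx => hS (.inr (.inr 6)) x hx x hx
  have Stη : ∀ x ∈ S, tη x ∈ S := fun x hx => hS (.inr (.inr 7)) x hx x hx
  have Swt : ∀ x ∈ S, ∀ y ∈ S, wt x y ∈ S := fun x hx y hy => hS (.inr (.inr 8)) x hx y hy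
  have hCs : ∀ j, j ∈ S → ∀ x, x ∈ (D.res S).Cs A j → x ∈ D.Cs A j ∧ x ∈ S := by
    rintro j hj x ⟨f, hf, η, hη, hl, hx⟩
    refine ⟨⟨f, hf.1, η, hη.1, hl, hx⟩, ?_⟩
    rw [hx]
    exact Sfn _ (Spr _ hf.2 _ (Ssd _ hj _ hη.2)) _
  refine ⟨S, hSc, Ss, Sg, ?_⟩
  constructor
  · rintro x ⟨h1, h2⟩ c; exact ⟨hD.car_fn x h1 c, Sfn x h2 c⟩
  · rintro x ⟨h1, h2⟩ y ⟨h3, h4⟩; exact ⟨hD.car_pr x h1 y h3, Spr x h2 y h4⟩
  · rintro x ⟨h1, h2⟩; exact ⟨hD.base_sub h1, h2⟩
  · exact ⟨hD.base_tt, Stt⟩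
  · rintro x ⟨h1, h2⟩ c; exact ⟨hD.base_fn x h1 c, Sfn x h2 c⟩
  · rintro x ⟨h1, h2⟩ y ⟨h3, h4⟩; exact ⟨hD.base_pr x h1 y h3, Spr x h2 y h4⟩
  · rintro x ⟨h1, h2⟩; exact ⟨hD.ix_sub h1, h2⟩
  · rintro x ⟨h1, _⟩; exact hD.ix_ord x h1
  · rintro i ⟨h1, _⟩ x ⟨h3, h4⟩; exact ⟨hD.N_car i h1 h3, h4⟩
  · rintro i ⟨h1, _⟩ x ⟨h3, h4⟩ c; exact ⟨hD.N_fn i h1 x h3 c, Sfn x h4 c⟩
  · rintro i ⟨h1, _⟩ x ⟨h3, h4⟩ y ⟨h5, h6⟩; exact ⟨hD.N_pr i h1 x h3 y h5, Spr x h4 y h6⟩
  · rintro i ⟨hi, hiS⟩ x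
    constructor
    · rintro ⟨hx, hxS⟩
      by_cases hb : x ∈ D.base
      · exact Or.inl ⟨hb, hxS⟩
      · obtain ⟨h1, h2, h3, h4, h5, h6⟩ := hw i x hi hx hb
        exact Or.inr ⟨wj i x, ⟨h1, Swj i hiS x hxS⟩, h2, wf i x, ⟨h3, Swf i hiS x hxS⟩,
          wη i x, ⟨h4, Swη i hiS x hxS⟩, h5, h6⟩
    · rintro (⟨h1, h2⟩ | ⟨j, ⟨hj, hjS⟩, hji, hx⟩)
      · exact ⟨(hD.N_iff i hi x).2 (Or.inl h1), h2⟩
      · obtain ⟨h1, h2⟩ := hCs j hjS x hx
        exact ⟨(hD.N_iff i hi x).2 (Or.inr ⟨j, hj, hji, h1⟩), h2⟩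
  · rintro i ⟨hi, hiS⟩ η ⟨hη, hηS⟩ hl
    exact ⟨hD.sd_car i hi η hη hl, Ssd i hiS η hηS⟩
  · rintro x ⟨hx, hxS⟩
    by_cases hb : x ∈ D.base
    · exact Or.inl ⟨hb, hxS⟩
    · obtain ⟨h1, h3, h4, h5, h6⟩ := ht x hx hb
      exact Or.inr ⟨tj x, ⟨h1, Stj x hxS⟩, tf x, ⟨h3, Stf x hxS⟩,
        tη x, ⟨h4, Stη x hxS⟩, h5, h6⟩
  · rintro i ⟨hi, _⟩ η ⟨hη, _⟩ hl
    exact hD.sd_mem i hi η hη hl
  · rintro i ⟨hi, _⟩ η ⟨hη, _⟩ ζ ⟨hζ, _⟩ hl hl'
    exact hD.sd_coh i hi η hη ζ hζ hl hl'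
  · rintro i ⟨hi, _⟩ η ⟨hη, _⟩ a ⟨ha, _⟩ hl hm
    exact hD.ultra i hi η hη a ha hl hm
  · rintro i ⟨hi, hiS⟩ E ⟨hE, hES⟩ hp
    obtain ⟨h1, h2, h3⟩ := hwt i E hi hE hp
    exact ⟨wt i E, ⟨h1, Swt i hiS E hES⟩, h2, h3⟩

/-! ### Transport to `ℕ` -/

/-- The structure `(A', D')` on `ℕ` is isomorphic, via `m`, to the countable iteration
`(A, D)`. -/
structure IsoNat (A : Alg δ P M) (D : PD M) (A' : Alg δ P ℕ) (D' : PD ℕ) (m : ℕ → M) :
    Prop where
  pi : IsPI A' D'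
  car : D'.car = Set.univ
  bij : Set.BijOn m Set.univ D.car
  fn : ∀ c i, m (A'.fn c i) = A.fn c (m i)
  pr : ∀ i j, m (A'.pr i j) = A.pr (m i) (m j)
  base : ∀ i, i ∈ D'.base ↔ m i ∈ D.base
  ix : ∀ i, i ∈ D'.ix ↔ m i ∈ D.ix
  N : ∀ i ∈ D'.ix, ∀ x, x ∈ D'.N i ↔ m x ∈ D.N (m i)
  mem : ∀ i j, A'.mem i j ↔ A.mem (m i) (m j)

theorem exists_isoNat (A : Alg δ P M) (D : PD M) (hD : IsPI A D) (hc : D.car.Countable) :
    ∃ A' D' m, IsoNat A D A' D' m := by
  classical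
  have htt : A.tt ∈ D.car := hD.base_sub hD.base_tt
  have hinf : D.car.Infinite := A.infinite_of_closed htt hD.car_pr
  have _ : Countable D.car := hc.to_subtype
  have _ : Infinite D.car := hinf.to_subtype
  obtain ⟨⟨eq⟩⟩ : Nonempty (Nonempty (ℕ ≃ D.car)) := by
    obtain ⟨hd⟩ := nonempty_denumerable D.car
    exact ⟨⟨(Denumerable.eqv D.car).symm⟩⟩
  let m : ℕ → M := fun i => (eq i : M)
  let n : M → ℕ := fun x => if h : x ∈ D.car then eq.symm ⟨x, h⟩ else 0
  have hm : ∀ i, m i ∈ D.car := fun i => (eq i).2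
  have hmn : ∀ x ∈ D.car, m (n x) = x := by
    intro x hx
    show ((eq (if h : x ∈ D.car then eq.symm ⟨x, h⟩ else 0) : D.car) : M) = x
    rw [dif_pos hx, Equiv.apply_symm_apply]
  have hinj : ∀ i j, m i = m j → i = j := by
    intro i j h
    exact eq.injective (Subtype.ext h)
  have hnm : ∀ i, n (m i) = i := fun i => hinj _ _ (hmn _ (hm i))
  let A' : Alg δ P ℕ :=
    { fn := fun c i => n (A.fn c (m i))
      pr := fun i j => n (A.pr (m i) (m j))
      tt := n A.tt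
      fn_id := fun x => by
        show n (A.fn .id (m x)) = x
        rw [A.fn_id, hnm]
      fn_fst := fun x y => by
        show n (A.fn .fst (m (n (A.pr (m x) (m y))))) = x
        rw [hmn _ (hD.car_pr _ (hm x) _ (hm y)), A.fn_fst, hnm]
      fn_snd := fun x y => by
        show n (A.fn .snd (m (n (A.pr (m x) (m y))))) = y
        rw [hmn _ (hD.car_pr _ (hm x) _ (hm y)), A.fn_snd, hnm]
      fn_one := fun x => by
        show n (A.fn .one (m x)) = n A.tt
        rw [A.fn_one]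
      fn_eq := fun x y => by
        show n (A.fn .eq (m (n (A.pr (m x) (m y))))) = n A.tt ↔ x = y
        rw [hmn _ (hD.car_pr _ (hm x) _ (hm y))]
        constructor
        · intro h
          have h1 := congrArg m h
          rw [hmn _ (hD.car_fn _ (hD.car_pr _ (hm x) _ (hm y)) _), hmn _ htt] at h1
          exact hinj _ _ ((A.fn_eq _ _).1 h1)
        · intro h
          rw [(A.fn_eq _ _).2 (congrArg m h)]
      fn_comp := fun a b x => by
        show n (A.fn (.comp a b) (m x)) = n (A.fn a (m (n (A.fn b (m x)))))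
        rw [hmn _ (hD.car_fn _ (hm x) _), A.fn_comp]
      fn_pair := fun a b x => by
        show n (A.fn (.pair a b) (m x)) = n (A.pr (m (n (A.fn a (m x)))) (m (n (A.fn b (m x)))))
        rw [hmn _ (hD.car_fn _ (hm x) _), hmn _ (hD.car_fn _ (hm x) _), A.fn_pair]
      fn_not := fun x => by
        show n (A.fn .not (m x)) = n A.tt ↔ x ≠ n A.tt
        constructor
        · intro h h'
          have h1 := congrArg m h
          rw [hmn _ (hD.car_fn _ (hm x) _), hmn _ htt] at h1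
          apply (A.fn_not _).1 h1
          rw [h', hmn _ htt]
        · intro h
          have h1 : m x ≠ A.tt := by
            intro h2
            apply h
            rw [← h2, hnm]
          rw [(A.fn_not _).2 h1]
      fn_valid := fun c h x => by
        show n (A.fn c (m x)) = n A.tt
        rw [A.fn_valid c h] }
  have hfn : ∀ c i, m (A'.fn c i) = A.fn c (m i) := fun c i => hmn _ (hD.car_fn _ (hm i) _)
  have hpr : ∀ i j, m (A'.pr i j) = A.pr (m i) (m j) :=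
    fun i j => hmn _ (hD.car_pr _ (hm i) _ (hm j))
  have hT : ∀ i, A'.T i ↔ A.T (m i) := by
    intro i
    show i = n A.tt ↔ m i = A.tt
    constructor
    · intro h; rw [h, hmn _ htt]
    · intro h; rw [← h, hnm]
  have hmem : ∀ i j, A'.mem i j ↔ A.mem (m i) (m j) := by
    intro i j
    show A'.T (A'.fn .mem (A'.pr i j)) ↔ A.T (A.fn .mem (A.pr (m i) (m j)))
    rw [hT, hfn, hpr]
  let D' : PD ℕ :=
    { car := Set.univ
      base := {i | m i ∈ D.base}
      ix := {i | m i ∈ D.ix}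
      N := fun i => {x | m x ∈ D.N (m i)}
      sd := fun i η => n (D.sd (m i) (m η)) }
  have hsd : ∀ i η, m i ∈ D.ix → m η ∈ D.N (m i) → A.T (A.fn .ltd (m η)) →
      m (D'.sd i η) = D.sd (m i) (m η) :=
    fun i η hi hη hl => hmn _ (hD.sd_car _ hi _ hη hl)
  have hCs : ∀ i, m i ∈ D.ix → ∀ x, x ∈ D'.Cs A' i ↔ m x ∈ D.Cs A (m i) := by
    intro i hi x
    constructor
    · rintro ⟨f, hf, η, hη, hl, hx⟩
      have hl' : A.T (A.fn .ltd (m η)) := by rw [← hfn]; exact (hT _).1 hl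
      refine ⟨m f, hf, m η, hη, hl', ?_⟩
      rw [hx, hfn, hpr, hsd i η hi hη hl']
    · rintro ⟨f, hf, η, hη, hl, hx⟩
      have hfc : m (n f) = f := hmn _ (hD.N_car _ hi hf)
      have hηc : m (n η) = η := hmn _ (hD.N_car _ hi hη)
      have hl' : A.T (A.fn .ltd (m (n η))) := by rw [hηc]; exact hl
      refine ⟨n f, ?_, n η, ?_, ?_, ?_⟩
      · show m (n f) ∈ D.N (m i)
        rw [hfc]; exact hf
      · show m (n η) ∈ D.N (m i)
        rw [hηc]; exact hη
      · rw [hT, hfn]; exact hl'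
      · apply hinj
        rw [hx, hfn, hpr, hfc, hsd i (n η) hi (by rw [hηc]; exact hη) hl', hηc]
  refine ⟨A', D', m, ?_, rfl, ?_, hfn, hpr, fun i => Iff.rfl, fun i => Iff.rfl,
    fun i _ x => Iff.rfl, hmem⟩
  · constructor
    · intro x _ c; exact Set.mem_univ _
    · intro x _ y _; exact Set.mem_univ _
    · intro x _; exact Set.mem_univ _
    · show m (n A.tt) ∈ D.base
      rw [hmn _ htt]; exact hD.base_tt
    · intro x hx c
      show m (A'.fn c x) ∈ D.base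
      rw [hfn]; exact hD.base_fn _ hx c
    · intro x hx y hy
      show m (A'.pr x y) ∈ D.base
      rw [hpr]; exact hD.base_pr _ hx _ hy
    · intro i hi; exact hD.ix_sub hi
    · intro i hi
      rw [hT, hfn]; exact hD.ix_ord _ hi
    · intro i _ x _; exact Set.mem_univ _
    · intro i hi x hx c
      show m (A'.fn c x) ∈ D.N (m i)
      rw [hfn]; exact hD.N_fn _ hi _ hx c
    · intro i hi x hx y hy
      show m (A'.pr x y) ∈ D.N (m i)
      rw [hpr]; exact hD.N_pr _ hi _ hx _ hy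
    · intro i hi x
      show m x ∈ D.N (m i) ↔ m x ∈ D.base ∨ ∃ j ∈ D'.ix, A'.mem j i ∧ x ∈ D'.Cs A' j
      rw [hD.N_iff _ hi]
      apply or_congr Iff.rfl
      constructor
      · rintro ⟨j, hj, hji, hx⟩
        have hjc : m (n j) = j := hmn _ (hD.base_sub (hD.ix_sub hj))
        refine ⟨n j, ?_, ?_, ?_⟩
        · show m (n j) ∈ D.ix
          rw [hjc]; exact hj
        · rw [hmem, hjc]; exact hji
        · rw [hCs _ (by rw [hjc]; exact hj), hjc]; exact hx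
      · rintro ⟨j, hj, hji, hx⟩
        exact ⟨m j, hj, (hmem _ _).1 hji, (hCs j hj x).1 hx⟩
    · intro i _ η _ _; exact Set.mem_univ _
    · intro x _
      show m x ∈ D.base ∨ ∃ i ∈ D'.ix, x ∈ D'.Cs A' i
      rcases hD.tot (m x) (hm x) with h | ⟨i, hi, hx⟩
      · exact Or.inl h
      · right
        have hic : m (n i) = i := hmn _ (hD.base_sub (hD.ix_sub hi))
        refine ⟨n i, ?_, ?_⟩
        · show m (n i) ∈ D.ix
          rw [hic]; exact hi
        · rw [hCs _ (by rw [hic]; exact hi), hic]; exact hx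
    · intro i hi η hη hl
      have hl' : A.T (A.fn .ltd (m η)) := by rw [← hfn]; exact (hT _).1 hl
      rw [hmem, hsd i η hi hη hl', hfn]
      exact hD.sd_mem _ hi _ hη hl'
    · intro i hi η hη ζ hζ hl hl'
      have h1 : A.T (A.fn .ltd (m η)) := by rw [← hfn]; exact (hT _).1 hl
      have h2 : A.T (A.fn .ltd (m ζ)) := by rw [← hfn]; exact (hT _).1 hl'
      have hu : m (A'.fn .un (A'.pr η ζ)) = A.fn .un (A.pr (m η) (m ζ)) := by rw [hfn, hpr]
      have h3 : A.T (A.fn .ltd (A.fn .un (A.pr (m η) (m ζ)))) := by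
        have := A.transfer (.imp (.and (.tr (.f .ltd (.v 0))) (.tr (.f .ltd (.v 1))))
          (.tr (.f .ltd (.f .un (.p (.v 0) (.v 1)))))) (by
            intro ρ
            simp only [QF.evU, Tm.evU, eval, zb_eq_one, zfst_pair, zsnd_pair]
            rintro ⟨h1, h2⟩
            exact h1.union h2) (fun i => match i with | 0 => m η | _ => m ζ)
        exact this ⟨h1, h2⟩
      have hN : m (A'.fn .un (A'.pr η ζ)) ∈ D.N (m i) := by
        rw [hu]; exact hD.N_fn _ hi _ (hD.N_pr _ hi _ hη _ hζ) _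
      apply hinj
      rw [hfn, hpr, hsd i _ hi hN (by rw [hu]; exact h3), hsd i ζ hi hζ h2, hu]
      exact hD.sd_coh _ hi _ hη _ hζ h1 h2
    · intro i hi η hη a ha hl hma
      have h1 : A.T (A.fn .ltd (m η)) := by rw [← hfn]; exact (hT _).1 hl
      rw [hmem, hsd i η hi hη h1] at hma
      rw [hT, hfn, hpr]
      exact hD.ultra _ hi _ hη _ ha h1 hma
    · intro i hi E hE hp
      have hp' : A.T (A.fn .pred (m E)) := by rw [← hfn]; exact (hT _).1 hp
      obtain ⟨t, ht, htE, hts⟩ := hD.gen _ hi _ hE hp'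
      have htc : m (n t) = t := hmn _ (hD.N_car _ hi ht)
      have hlt : A.T (A.fn .ltd (A.fn .fst t)) := by
        have := A.transfer (.imp (.and (.tr (.f .pred (.v 1))) (.mem (.v 0) (.v 1)))
          (.tr (.f .ltd (.f .fst (.v 0))))) (by
            intro ρ
            simp only [QF.evU, Tm.evU, eval, zb_eq_one]
            rintro ⟨h1, h2⟩
            obtain ⟨η, a, h3, _, _, h4⟩ := h1.1 _ h2
            rw [h4, zfst_pair]
            exact h3) (fun i => match i with | 0 => t | _ => m E)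
        exact this ⟨hp', htE⟩
      refine ⟨n t, ?_, ?_, ?_⟩
      · show m (n t) ∈ D.N (m i)
        rw [htc]; exact ht
      · rw [hmem, htc]; exact htE
      · have hf : m (A'.fn .fst (n t)) = A.fn .fst t := by rw [hfn, htc]
        rw [hmem, hsd i _ hi (by rw [hf]; exact hD.N_fn _ hi _ ht _) (by rw [hf]; exact hlt),
          hf, hfn, htc]
        exact hts
  · refine ⟨fun i _ => hm i, fun i _ j _ h => hinj i j h, ?_⟩
    intro x hx
    exact ⟨n x, Set.mem_univ _, hmn x hx⟩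

/-! ### Embeddings -/

theorem Emb.tt {A : Alg δ P M} {X : Set ZFSet.{u}} {e : ZFSet.{u} → M} (h : Emb A X e) :
    one ∈ X ∧ e one = A.tt := by
  obtain ⟨x, hx⟩ := h.ne
  have h1 : one ∈ X := h.cl_fn x hx .one
  refine ⟨h1, ?_⟩
  have h2 := h.fn x hx .one
  rw [A.fn_one] at h2
  exact h2

theorem Emb.T {A : Alg δ P M} {X : Set ZFSet.{u}} {e : ZFSet.{u} → M} (h : Emb A X e)
    {x : ZFSet.{u}} (hx : x ∈ X) : A.T (e x) ↔ x = one := by
  constructor
  · intro h1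
    by_contra hne
    have h2 : eval δ P .not x = one := zb_true hne
    have h3 := h.fn x hx .not
    rw [h2, h.tt.2] at h3
    exact (A.fn_not _).1 h3.symm h1
  · intro h1
    rw [h1]
    exact h.tt.2

/-- Embeddings reflect equality and membership. -/
theorem Emb.inj {A : Alg δ P M} {X : Set ZFSet.{u}} {e : ZFSet.{u} → M} (h : Emb A X e) :
    Set.InjOn e X := by
  intro x hx y hy he
  have h1 : A.T (e (eval δ P .eq (ZFSet.pair x y))) := by
    rw [h.fn _ (h.cl_pair x hx y hy), h.pr x hx y hy]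
    exact (A.fn_eq _ _).2 he
  have h2 := (h.T (h.cl_fn _ (h.cl_pair x hx y hy) _)).1 h1
  simpa [eval] using h2

theorem Emb.mem {A : Alg δ P M} {X : Set ZFSet.{u}} {e : ZFSet.{u} → M} (h : Emb A X e)
    {x y : ZFSet.{u}} (hx : x ∈ X) (hy : y ∈ X) : A.mem (e x) (e y) ↔ x ∈ y := by
  have h1 : A.mem (e x) (e y) ↔ A.T (e (eval δ P .mem (ZFSet.pair x y))) := by
    rw [h.fn _ (h.cl_pair x hx y hy), h.pr x hx y hy]
    exact Iff.rfl
  rw [h1, h.T (h.cl_fn _ (h.cl_pair x hx y hy) _)]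
  simp [eval]

/-- Statements with a quantifier bounded by an element of `X` go up: if `c (x, p) = 1` for all
`x ∈ z` then this is true in the algebra. -/
theorem Emb.ball {A : Alg δ P M} {X : Set ZFSet.{u}} {e : ZFSet.{u} → M} (h : Emb A X e)
    {z p : ZFSet.{u}} (hz : z ∈ X) (hp : p ∈ X) (c : Code)
    (hc : ∀ x ∈ z, eval δ P c (pair x p) = one) (x : M) (hx : A.mem x (e z)) :
    A.T (A.fn c (A.pr x (e p))) := by
  have h1 : eval δ P (.sep c) (ZFSet.pair z p) = z := by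
    show ZFSet.sep (fun y => eval δ P c (ZFSet.pair y (zsnd (ZFSet.pair z p))) = one)
      (zfst (ZFSet.pair z p)) = z
    rw [zsnd_pair, zfst_pair]
    ext y
    rw [mem_sep]
    exact ⟨fun h => h.1, fun h => ⟨h, hc y h⟩⟩
  have h2 : A.fn (.sep c) (A.pr (e z) (e p)) = e z := by
    rw [← h.pr z hz p hp, ← h.fn _ (h.cl_pair z hz p hp), h1]
  have h3 := A.transfer (.imp (.mem (.v 0) (.f (.sep c) (.p (.v 1) (.v 2))))
    (.tr (.f c (.p (.v 0) (.v 2))))) (by
      intro ρ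
      simp only [QF.evU, Tm.evU]
      intro h4
      have h5 : ρ 0 ∈ ZFSet.sep (fun y => eval δ P c (ZFSet.pair y
        (zsnd (ZFSet.pair (ρ 1) (ρ 2)))) = one) (zfst (ZFSet.pair (ρ 1) (ρ 2))) := h4
      rw [mem_sep, zsnd_pair] at h5
      exact h5.2) (fun i => match i with | 0 => x | 1 => e z | _ => e p)
  apply h3
  show A.mem x (A.fn (.sep c) (A.pr (e z) (e p)))
  rw [h2]
  exact hx

/-- Well-foundedness of long iterations from the nonexistence of bad sets. -/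
theorem wf_long (G : ℕ → ZFSet.{u} → ZFSet.{u})
    (hG : ∀ X, Good G X → ∀ γ ∈ X, ∀ η ∈ X, IsOrdinal γ → IsOrdinal η → ¬ Bad δ P γ η X)
    (A : Alg δ P M) (D : PD M) (hD : IsPI A D) (X : Set ZFSet.{u}) (e : ZFSet.{u} → M)
    (he : Emb A X e) (hX : ∀ n, ∀ x ∈ X, G n x ∈ X) (hb : D.base = e '' X) (γ : ZFSet.{u})
    (hγ : γ ∈ X) (hγo : IsOrdinal γ) (hix : ∀ i ∈ D.ix, A.mem i (e γ)) : Wf A D.car := by
  classical
  rintro ⟨s, hs, hdec⟩
  -- the inverse of `e`
  let r : M → ZFSet.{u} := Function.invFunOn e X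
  have hr1 : ∀ x ∈ D.base, r x ∈ X := by
    intro x hx
    rw [hb] at hx
    exact Function.invFunOn_mem hx
  have hr2 : ∀ x ∈ D.base, e (r x) = x := by
    intro x hx
    rw [hb] at hx
    exact Function.invFunOn_eq hx
  have heb : ∀ x ∈ X, e x ∈ D.base := by
    intro x hx
    rw [hb]
    exact ⟨x, hx, rfl⟩
  have hr3 : ∀ x ∈ X, r (e x) = x := by
    intro x hx
    exact he.inj (hr1 _ (heb x hx)) hx (hr2 _ (heb x hx))
  -- `ix` is well-founded
  have hwf : Wf A D.ix := by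
    rintro ⟨t, ht, htd⟩
    have h1 : ∀ n, r (t (n + 1)) ∈ r (t n) := by
      intro n
      have h2 := htd n
      rw [← hr2 _ (hD.ix_sub (ht (n + 1))), ← hr2 _ (hD.ix_sub (ht n)),
        he.mem (hr1 _ (hD.ix_sub (ht (n + 1)))) (hr1 _ (hD.ix_sub (ht n)))] at h2
      exact h2
    have h3 : ∀ n, rank (r (t (n + 1))) < rank (r (t n)) := fun n => rank_lt_of_mem (h1 n)
    obtain ⟨n, hn⟩ := WellFounded.not_rel_apply_succ (r := fun a b : Ordinal.{u} => a < b)
      (fun n => rank (r (t n)))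
    exact hn (h3 n)
  obtain ⟨α, hα, hαo, hαm⟩ := bound A D hD hwf (s 0) (hs 0)
  -- the descending sequence of ordinals
  let s' : ℕ → M := fun n => match n with | 0 => α | n + 1 => A.fn .rk (s n)
  have hs'dec : ∀ n, A.mem (s' (n + 1)) (s' n) := by
    intro n
    cases n with
    | zero => exact hαm
    | succ n =>
      have := A.transfer (.imp (.mem (.v 0) (.v 1)) (.mem (.f .rk (.v 0)) (.f .rk (.v 1)))) (by
        intro ρ
        simp only [QF.evU, Tm.evU, eval]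
        intro h
        exact (Ordinal.mem_toZFSet_iff).2 ⟨_, rank_lt_of_mem h, rfl⟩)
        (fun i => match i with | 0 => s (n + 1) | _ => s n)
      exact this (hdec n)
  have hs'car : ∀ n, s' n ∈ D.car := by
    intro n
    cases n with
    | zero => exact hD.base_sub hα
    | succ n => exact hD.car_fn _ (hs n) _
  obtain ⟨S, hSc, hSs, hSg, hSpi⟩ := exists_countable_sub A D hD
    (fun n => match n with | 0 => e γ | n + 1 => s' n)
    (fun n x => if x ∈ D.base then e (G n (r x)) else x)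
  have hSγ : e γ ∈ S := hSs 0
  have hSs' : ∀ n, s' n ∈ S := fun n => hSs (n + 1)
  -- the countable closed set
  let X' : Set ZFSet.{u} := {x | x ∈ X ∧ e x ∈ S}
  have hX'c : X'.Countable := by
    refine Set.MapsTo.countable_of_injOn (f := e) (t := S) ?_ ?_ hSc
    · intro x hx; exact hx.2
    · exact he.inj.mono fun x hx => hx.1
  have hgood : Good G X' := by
    refine ⟨hX'c, ⟨γ, hγ, hSγ⟩, ?_, ?_⟩
    · rintro n x ⟨h1, h2⟩
      refine ⟨hX n x h1, ?_⟩
      have h3 := hSg n _ h2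
      rw [if_pos (heb x h1), hr3 x h1] at h3
      exact h3
    · rintro x ⟨h1, h2⟩ y ⟨h3, h4⟩
      refine ⟨he.cl_pair x h1 y h3, ?_⟩
      rw [he.pr x h1 y h3]
      exact (hSpi.base_pr _ ⟨heb x h1, h2⟩ _ ⟨heb y h3, h4⟩).2
  have hηX : r α ∈ X := hr1 α hα
  have hηX' : r α ∈ X' := ⟨hηX, by rw [hr2 α hα]; exact hSs' 0⟩
  have hηo : IsOrdinal (r α) := by
    have h1 : A.T (e (eval δ P .ord (r α))) := by
      rw [he.fn _ hηX, hr2 α hα]; exact hαo
    have h2 := (he.T (he.cl_fn _ hηX _)).1 h1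
    simpa [eval] using h2
  apply hG X' hgood γ ⟨hγ, hSγ⟩ (r α) hηX' hγo hηo
  -- transport to `ℕ`
  obtain ⟨A', D', m, hiso⟩ := exists_isoNat A (D.res S) hSpi
    (hSc.mono fun x hx => hx.2)
  have hbm : ∀ i ∈ D'.base, m i ∈ D.base ∧ m i ∈ S := fun i hi => (hiso.base i).1 hi
  have hminj : ∀ i j, m i = m j → i = j :=
    fun i j h => hiso.bij.injOn (Set.mem_univ i) (Set.mem_univ j) h
  have hmsurj : ∀ x ∈ D.car, x ∈ S → ∃ i, m i = x := by
    intro x hx hxS
    obtain ⟨i, _, hi⟩ := hiso.bij.surjOn (show x ∈ (D.res S).car from ⟨hx, hxS⟩)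
    exact ⟨i, hi⟩
  refine ⟨A', D', fun i => r (m i), hiso.pi, hiso.car, ?_, ?_, ?_, ?_, ?_, ?_⟩
  · intro i hi j hj h
    have h1 : r (m i) = r (m j) := h
    have h2 : m i = m j := by
      rw [← hr2 _ (hbm i hi).1, ← hr2 _ (hbm j hj).1, h1]
    exact hminj _ _ h2
  · ext x
    constructor
    · rintro ⟨i, hi, rfl⟩
      exact ⟨hr1 _ (hbm i hi).1, by rw [hr2 _ (hbm i hi).1]; exact (hbm i hi).2⟩
    · rintro ⟨h1, h2⟩
      obtain ⟨i, hi⟩ := hmsurj (e x) (hD.base_sub (heb x h1)) h2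
      refine ⟨i, ?_, ?_⟩
      · rw [hiso.base i, hi]
        exact ⟨heb x h1, h2⟩
      · show r (m i) = x
        rw [hi, hr3 x h1]
  · intro i hi c
    have h1 := hr1 _ (hbm i hi).1
    have h2 := hr2 _ (hbm i hi).1
    show r (m (A'.fn c i)) = eval δ P c (r (m i))
    rw [hiso.fn]
    have h3 : A.fn c (m i) = e (eval δ P c (r (m i))) := by rw [he.fn _ h1, h2]
    rw [h3, hr3 _ (he.cl_fn _ h1 c)]
  · intro i hi j hj
    have h1 := hr1 _ (hbm i hi).1
    have h2 := hr2 _ (hbm i hi).1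
    have h1' := hr1 _ (hbm j hj).1
    have h2' := hr2 _ (hbm j hj).1
    show r (m (A'.pr i j)) = ZFSet.pair (r (m i)) (r (m j))
    rw [hiso.pr]
    have h3 : A.pr (m i) (m j) = e (ZFSet.pair (r (m i)) (r (m j))) := by
      rw [he.pr _ h1 _ h1', h2, h2']
    rw [h3, hr3 _ (he.cl_pair _ h1 _ h1')]
  · intro i hi
    have h0 : m i ∈ D.ix ∧ m i ∈ S := (hiso.ix i).1 hi
    have hbi : m i ∈ D.base := hD.ix_sub h0.1
    have h1 := hix _ h0.1
    rw [← hr2 _ hbi, he.mem (hr1 _ hbi) hγ] at h1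
    exact h1
  · have hex : ∀ n, ∃ i, m i = s' n := fun n => hmsurj _ (hs'car n) (hSs' n)
    choose q hq using hex
    refine ⟨q, ?_, ?_, ?_⟩
    · rw [hiso.base, hq 0]
      exact ⟨hα, hSs' 0⟩
    · show r (m (q 0)) = r α
      rw [hq 0]
    · intro n
      rw [hiso.mem, hq, hq]
      exact hs'dec n

end H94W
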