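import Pool.Agent.Lib.H94W.Generic

/-!
# Project Woodin, chunk N1: formal terms for the long iteration
-/

set_option autoImplicit false

namespace H94W

open Ordinal Cardinal ZFSet

universe u v w

/-- The index set `ω₁`. -/
abbrev I1 : Type (u + 1) := Set.Iio (ω_ 1 : Ordinal.{u})

/-- Formal terms: elements of the base, seeds `sd ξ t`, codes applied to terms, pairs. -/
inductive FT (X : Set ZFSet.{u}) : Type (u + 1)
  | base (x : X) : FT X
  | sd (ξ : I1.{u}) (t : FT X) : FT X
  | fn (c : Code) (t : FT X) : FT X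
  | pr (s t : FT X) : FT X

namespace FT

variable {X : Set ZFSet.{u}}

/-- The largest index of a seed occurring in the term. -/
noncomputable def mx : FT X → WithBot I1.{u}
  | .base _ => ⊥
  | .sd ξ t => max (ξ : WithBot I1.{u}) t.mx
  | .fn _ t => t.mx
  | .pr s t => max s.mx t.mx

/-- Evaluation of the terms without seeds. -/
noncomputable def val (δ : Ordinal.{u}) (P : ℕ → ZFSet.{u} → ZFSet.{u}) : FT X → ZFSet.{u}
  | .base x => x.1
  | .sd _ _ => ∅
  | .fn c t => eval δ P c (t.val δ P)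
  | .pr s t => ZFSet.pair (s.val δ P) (t.val δ P)

end FT

/-- The code of `x ↦ if x < δ then x else ∅`. -/
def clipL : Code := .comp (.sep (.comp .ltd .snd)) (.pair .id .id)

/-- The syntactical part of a pre-algebra of terms: the truth predicate is a parameter. -/
noncomputable def termPA {X : Set ZFSet.{u}} (h1 : (one : ZFSet.{u}) ∈ X) (T : FT X → Prop) : PA (FT X) where
  fn := .fn
  pr := .pr
  tt := .base ⟨one, h1⟩
  T := T

section

variable {X : Set ZFSet.{u}} (h1 : (one : ZFSet.{u}) ∈ X)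

open Classical in
/-- The name (for the ultrapower at stage `ξ`) of a term `t` with `mx t ≤ ξ`.  (Does not depend
on the truth predicate.) -/
noncomputable def nf (ξ : I1.{u}) : FT X → FT X × FT X
  | .base x => jn (termPA h1 fun _ => False) (.base x)
  | .sd ζ η =>
    if max (ζ : WithBot I1.{u}) η.mx < ξ then jn (termPA h1 fun _ => False) (.sd ζ η)
    else if ζ = ξ ∧ η.mx < ξ then sdn (termPA h1 fun _ => False) (.fn clipL η)
    else jn (termPA h1 fun _ => False) (.base ⟨one, h1⟩)
  | .fn c t =>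
    if t.mx < ξ then jn (termPA h1 fun _ => False) (.fn c t)
    else (ult (termPA h1 fun _ => False) ∅).fn c (nf ξ t)
  | .pr s t =>
    if max s.mx t.mx < ξ then jn (termPA h1 fun _ => False) (.pr s t)
    else (ult (termPA h1 fun _ => False) ∅).pr (nf ξ s) (nf ξ t)

/-- The value of the truth predicate at the term `t`, computed from the ultrafilters `U ξ`. -/
noncomputable def truthOf (δ : Ordinal.{u}) (P : ℕ → ZFSet.{u} → ZFSet.{u})
    (U : I1.{u} → FT X → FT X → Prop) (t : FT X) : Prop :=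
  match t.mx with
  | ⊥ => t.val δ P = one
  | (ξ : I1.{u}) => U ξ (nf h1 ξ t).1
      (.fn (.sep (.comp .eq (.pair (.comp .app (.pair .snd .fst)) .one)))
        (.pr (.fn .dom (nf h1 ξ t).1) (nf h1 ξ t).2))

/-- The part of the pre-algebra below `ξ`. -/
def cut (ξ : I1.{u}) (T : FT X → Prop) : FT X → Prop := fun t => t.mx < ξ ∧ T t

theorem cut_cut {ξ ζ : I1.{u}} (h : ζ ≤ ξ) (T : FT X → Prop) : cut ζ (cut ξ T) = cut ζ T := by
  funext t
  unfold cut
  apply propext
  constructor
  · rintro ⟨h2, _, h3⟩; exact ⟨h2, h3⟩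
  · rintro ⟨h2, h3⟩; exact ⟨h2, lt_of_lt_of_le h2 (WithBot.coe_le_coe.2 h), h3⟩

/-- The recursion: given a rule `Φ` which chooses a set of conditions for each `ξ` from the truth
predicate below `ξ` there are a truth predicate `T` and sets `G ξ` that fit together. -/
theorem exists_truth (δ : Ordinal.{u}) (P : ℕ → ZFSet.{u} → ZFSet.{u})
    (Φ : I1.{u} → (FT X → Prop) → Set (FT X)) :
    ∃ (T : FT X → Prop) (G : I1.{u} → Set (FT X)),
      (∀ ξ, G ξ = Φ ξ (cut ξ T)) ∧
      (∀ t, t.mx = ⊥ → (T t ↔ t.val δ P = one)) ∧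
      ∀ (ξ : I1.{u}) t, t.mx = (ξ : WithBot I1.{u}) →
        (T t ↔ GU (termPA h1 (cut ξ T)) (G ξ) (nf h1 ξ t).1
          (.fn (.sep (.comp .eq (.pair (.comp .app (.pair .snd .fst)) .one)))
            (.pr (.fn .dom (nf h1 ξ t).1) (nf h1 ξ t).2))) := by
  classical
  let step : (ξ : I1.{u}) → ((ζ : I1.{u}) → ζ < ξ → FT X → FT X → Prop) → FT X → FT X → Prop :=
    fun ξ rec =>
      let U' : I1.{u} → FT X → FT X → Prop := fun ζ => if h : ζ < ξ then rec ζ h else fun _ _ => False
      let T' := cut ξ (truthOf h1 δ P U')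
      GU (termPA h1 T') (Φ ξ T')
  let U : I1.{u} → FT X → FT X → Prop := fun ξ => WellFounded.fix (wellFounded_lt (α := I1.{u})) step ξ
  have hcut : ∀ ξ : I1.{u}, cut ξ (truthOf h1 δ P fun ζ => if h : ζ < ξ then U ζ else fun _ _ => False)
      = cut ξ (truthOf h1 δ P U) := by
    intro ξ
    funext t
    unfold cut
    apply propext
    apply and_congr_right
    intro ht
    unfold truthOf
    cases hm : t.mx with
    | bot => simp only
    | coe ζ =>
      rw [hm] at ht
      have hζ : ζ < ξ := WithBot.coe_lt_coe.1 ht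
      simp only [dif_pos hζ]
  have hU : ∀ ξ, U ξ = GU (termPA h1 (cut ξ (truthOf h1 δ P U)))
      (Φ ξ (cut ξ (truthOf h1 δ P U))) := by
    intro ξ
    have e1 : U ξ = step ξ (fun ζ _ => U ζ) :=
      WellFounded.fix_eq (wellFounded_lt (α := I1.{u})) step ξ
    rw [e1]
    have e2 := hcut ξ
    show GU (termPA h1 (cut ξ (truthOf h1 δ P fun ζ => if h : ζ < ξ then U ζ else fun _ _ => False)))
      (Φ ξ (cut ξ (truthOf h1 δ P fun ζ => if h : ζ < ξ then U ζ else fun _ _ => False))) = _
    rw [e2]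
  refine ⟨truthOf h1 δ P U, fun ξ => Φ ξ (cut ξ (truthOf h1 δ P U)), fun _ => rfl, ?_, ?_⟩
  · intro t ht
    unfold truthOf
    rw [ht]
  · intro ξ t ht
    rw [← hU ξ]
    conv_lhs => unfold truthOf
    rw [ht]

end

end H94W
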