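import Pool.Agent.Lib.H94W.SubPI

/-!
# Project Woodin, chunk I: absoluteness by a tree argument

Nodes: pairs `(c, w)` of `c : List ℕ` of length `n` and a tuple
`w = wt pair ζ y n = ⟨y_{n-1}, ⟨y_{n-2}, … ⟨y_0, ζ⟩⟩⟩ ∈ Z` with `ζ ∈ η`, `y_i ∈ Z`, such that all
the constraints `κ (c|m)` at `⟨p, w|m⟩`, `m ≤ n`, hold.  By `hno` there is no infinite branch, so
there is a rank function on the nodes; let `R_c` be the function (set of pairs) which maps `w ∈ Z`
to the successor of the rank of the node `(c, w)` (to `∅` if this is not a node).  Then in every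
algebra containing `p, Z, η` and all `R_c` an infinite branch gives a descending sequence of
ordinals.
-/

set_option autoImplicit false

namespace H94W

open Ordinal Cardinal ZFSet

universe u v w

/-- The tuple `⟨y_{n-1}, ⟨y_{n-2}, … ⟨y_0, a⟩⟩⟩`. -/
def wt {α : Type w} (pr : α → α → α) (a : α) (y : ℕ → α) : ℕ → α
  | 0 => a
  | n + 1 => pr (y n) (wt pr a y n)

/-- The initial segment of length `n` of `c`. -/
def pre (c : ℕ → ℕ) (n : ℕ) : List ℕ := (List.range n).map c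

theorem pre_succ (c : ℕ → ℕ) (n : ℕ) : pre c (n + 1) = pre c n ++ [c n] := by
  simp [pre, List.range_succ]

/-! ### The tree and its rank function -/

section TreeNodes

variable (C : List ℕ → ZFSet.{u} → Prop) (Z η : ZFSet.{u})

/-- Nodes of the tree. -/
inductive Nd : List ℕ → ZFSet.{u} → Prop
  | nil (ζ : ZFSet.{u}) (h : ζ ∈ η) (hC : C [] ζ) : Nd [] ζ
  | snoc (l : List ℕ) (w : ZFSet.{u}) (k : ℕ) (y : ZFSet.{u}) (h : Nd l w) (hy : y ∈ Z)
      (hC : C (l ++ [k]) (pair y w)) : Nd (l ++ [k]) (pair y w)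

theorem Nd.con {C : List ℕ → ZFSet.{u} → Prop} {Z η : ZFSet.{u}} {l : List ℕ} {w : ZFSet.{u}}
    (h : Nd C Z η l w) : C l w := by
  cases h with
  | nil ζ h hC => exact hC
  | snoc l w k y h hy hC => exact hC

/-- The relation of being a child. -/
def Ch (s t : List ℕ × ZFSet.{u}) : Prop :=
  Nd C Z η s.1 s.2 ∧ Nd C Z η t.1 t.2 ∧ ∃ k, ∃ y ∈ Z, s.1 = t.1 ++ [k] ∧ s.2 = pair y t.2

theorem wf_Ch (hno : ∀ ζ ∈ η, ¬ ∃ (c : ℕ → ℕ) (y : ℕ → ZFSet.{u}), (∀ i, y i ∈ Z) ∧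
    ∀ n, C (pre c n) (wt pair ζ y n)) : WellFounded (Ch C Z η) := by
  have key : ∀ l w, Nd C Z η l w → Acc (Ch C Z η) (l, w) := by
    intro l w h
    induction h with
    | nil ζ h hC =>
      by_contra hacc
      obtain ⟨f, hf0, hf⟩ := not_acc_iff_exists_descending_chain.1 hacc
      choose k y hy using fun n => (hf n).2.2
      have e : ∀ n, f n = (pre k n, wt pair ζ y n) := by
        intro n
        induction n with
        | zero => exact hf0
        | succ n ih =>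
          have h1 := (hy n).2
          rw [ih] at h1
          refine Prod.ext ?_ ?_
          · rw [h1.1, pre_succ]
          · exact h1.2
      refine hno ζ h ⟨k, y, fun n => (hy n).1, fun n => ?_⟩
      have h2 := (hf n).2.1.con
      rw [e n] at h2
      exact h2
    | snoc l w k y h hy hC ih =>
      exact ih.inv ⟨Nd.snoc l w k y h hy hC, h, k, y, hy, rfl, rfl⟩
  refine ⟨fun s => ?_⟩
  by_cases hs : Nd C Z η s.1 s.2
  · exact key _ _ hs
  · exact ⟨_, fun t ht => absurd ht.2.1 hs⟩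

theorem exists_rk (hno : ∀ ζ ∈ η, ¬ ∃ (c : ℕ → ℕ) (y : ℕ → ZFSet.{u}), (∀ i, y i ∈ Z) ∧
    ∀ n, C (pre c n) (wt pair ζ y n)) :
    ∃ ρ : List ℕ → ZFSet.{u} → Ordinal.{u}, ∀ l w k y, Nd C Z η l w →
      Nd C Z η (l ++ [k]) (pair y w) → y ∈ Z → w ∈ Z → pair y w ∈ Z →
        ρ (l ++ [k]) (pair y w) < ρ l w := by
  classical
  let T := List ℕ × Shrink.{u} {w // w ∈ Z}
  let r : T → T → Prop := fun s t =>
    Ch C Z η (s.1, ((equivShrink _).symm s.2).1) (t.1, ((equivShrink _).symm t.2).1)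
  have hr : WellFounded r :=
    InvImage.wf (fun s : T => (s.1, ((equivShrink _).symm s.2).1)) (wf_Ch C Z η hno)
  have : IsWellFounded T r := ⟨hr⟩
  refine ⟨fun l w => if h : w ∈ Z then IsWellFounded.rank r (l, equivShrink _ ⟨w, h⟩) else 0, ?_⟩
  intro l w k y h1 h2 hy hw hyw
  simp only [dif_pos hw, dif_pos hyw]
  apply IsWellFounded.rank_lt_of_rel
  show Ch C Z η _ _
  simp only [Equiv.symm_apply_apply]
  exact ⟨h2, h1, k, y, hy, rfl, rfl⟩

end TreeNodes

/-! ### Upward transfer with two bounded quantifiers -/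

section Ball

variable {δ : Ordinal.{u}} {P : ℕ → ZFSet.{u} → ZFSet.{u}} {M : Type v}

theorem Emb.ball2 {A : Alg δ P M} {X : Set ZFSet.{u}} {e : ZFSet.{u} → M} (h : Emb A X e)
    {z z' p : ZFSet.{u}} (hz : z ∈ X) (hz' : z' ∈ X) (hp : p ∈ X) (c : Code)
    (hc : ∀ x ∈ z, ∀ y ∈ z', eval δ P c (pair y (pair x p)) = one) (x y : M)
    (hx : A.mem x (e z)) (hy : A.mem y (e z')) :
    A.T (A.fn c (A.pr y (A.pr x (e p)))) := by
  let d : Code := .comp .eq (.pair (.comp (.sep c) (.pair (.comp .fst .snd)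
    (.pair .fst (.comp .snd .snd)))) (.comp .fst .snd))
  have h1 : A.T (A.fn d (A.pr x (e (pair z' p)))) := by
    refine h.ball hz (h.cl_pair _ hz' _ hp) d ?_ x hx
    intro x hx
    simp only [d, eval, zfst_pair, zsnd_pair, zb_eq_one]
    ext y
    rw [mem_sep]
    exact ⟨fun h => h.1, fun h => ⟨h, hc x hx y h⟩⟩
  rw [h.pr _ hz' _ hp] at h1
  simp only [d, A.fn_comp, A.fn_pair, A.fn_fst, A.fn_snd, A.T_eq] at h1
  have h2 := A.transfer (.imp (.mem (.v 0) (.f (.sep c) (.p (.v 1) (.v 2))))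
    (.tr (.f c (.p (.v 0) (.v 2))))) (by
      intro ρ
      simp only [QF.evU, Tm.evU, eval, zfst_pair, zsnd_pair, mem_sep]
      exact fun h => h.2) (fun i => match i with | 0 => y | 1 => e z' | _ => A.pr x (e p))
  refine h2 ?_
  show A.mem y (A.fn (.sep c) (A.pr (e z') (A.pr x (e p))))
  rw [h1]
  exact hy

/-- The sequence `y, x, ρ 0, ρ 1, …`. -/
def cons2 {α : Type w} (y x : α) (ρ : ℕ → α) : ℕ → α
  | 0 => y
  | 1 => x
  | n + 2 => ρ n

theorem Emb.tup {A : Alg δ P M} {X : Set ZFSet.{u}} {e : ZFSet.{u} → M} (h : Emb A X e) :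
    ∀ (k : ℕ) (ρ : ℕ → ZFSet.{u}), (∀ i, ρ i ∈ X) →
      (univAlg δ P).tup k ρ ∈ X ∧ e ((univAlg δ P).tup k ρ) = A.tup k (fun i => e (ρ i))
  | 0, _, _ => h.tt
  | k + 1, ρ, hρ => by
    have ih := Emb.tup h k (fun i => ρ (i + 1)) (fun i => hρ (i + 1))
    refine ⟨h.cl_pair _ (hρ 0) _ ih.1, ?_⟩
    show e (pair (ρ 0) ((univAlg δ P).tup k fun i => ρ (i + 1))) =
      A.pr (e (ρ 0)) (A.tup k (fun i => e (ρ (i + 1))))
    rw [h.pr _ (hρ 0) _ ih.1, ih.2]

theorem Emb.ballQ {A : Alg δ P M} {X : Set ZFSet.{u}} {e : ZFSet.{u} → M} (h : Emb A X e)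
    (φ : QF) (ρ : ℕ → ZFSet.{u}) (hρ : ∀ i, ρ i ∈ X) {z z' : ZFSet.{u}} (hz : z ∈ X)
    (hz' : z' ∈ X) (hφ : ∀ x ∈ z, ∀ y ∈ z', φ.evU δ P (cons2 y x ρ)) (x y : M)
    (hx : A.mem x (e z)) (hy : A.mem y (e z')) : A.evQ (cons2 y x (fun i => e (ρ i))) φ := by
  obtain ⟨h1, h2⟩ := h.tup φ.nv ρ hρ
  have hb : φ.bd (φ.nv + 2) := QF.bd_mono (Nat.le_add_right _ _) φ φ.bd_nv
  rw [← A.T_code (φ.nv + 2) _ φ hb]
  have h3 := h.ball2 hz hz' h1 φ.code (by
    intro x hx y hy
    have := (univAlg δ P).T_code (φ.nv + 2) (cons2 y x ρ) φ hb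
    rw [univ_evQ] at this
    exact this.2 (hφ x hx y hy)) x y hx hy
  rw [h2] at h3
  exact h3

end Ball

/-- The empty set, as a term. -/
def emT : Tm := .f (.comp .not .one) (.v 0)

theorem evU_emT (δ : Ordinal.{u}) (P : ℕ → ZFSet.{u} → ZFSet.{u}) (ρ : ℕ → ZFSet.{u}) :
    emT.evU δ P ρ = ∅ := by
  show zb (one ≠ one) = ∅
  exact zb_false (by simp)

theorem succ_toZFSet_ne (α : Ordinal.{u}) : (Order.succ α).toZFSet ≠ ∅ := by
  intro h
  have h1 : α.toZFSet ∈ (Order.succ α).toZFSet :=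
    Ordinal.mem_toZFSet_iff.2 ⟨α, Order.lt_succ α, rfl⟩
  rw [h] at h1
  exact ZFSet.notMem_empty _ h1

theorem tree_lemma (δ : Ordinal.{u}) (P : ℕ → ZFSet.{u} → ZFSet.{u}) (κ : List ℕ → Code)
    (p Z η : ZFSet.{u}) (hZ : ∃ θ : Ordinal.{u}, Order.IsSuccLimit θ ∧ Z = V_ θ) (hη : η ∈ Z)
    (hno : ∀ ζ ∈ η, ¬ ∃ (c : ℕ → ℕ) (y : ℕ → ZFSet.{u}), (∀ i, y i ∈ Z) ∧
      ∀ n, eval δ P (κ (pre c n)) (pair p (wt pair ζ y n)) = one) :
    ∃ R : ℕ → ZFSet.{u}, ∀ (X : Set ZFSet.{u}), p ∈ X → Z ∈ X → η ∈ X → (∀ n, R n ∈ X) →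
      ∀ (M : Type v) (A : Alg δ P M) (e : ZFSet.{u} → M), Emb A X e →
        ∀ W : Set M, (∀ x ∈ W, ∀ c, A.fn c x ∈ W) → (∀ x ∈ W, ∀ y ∈ W, A.pr x y ∈ W) →
          (∀ x ∈ X, e x ∈ W) → Wf A W → ∀ ζ ∈ W, A.mem ζ (e η) →
            ¬ ∃ (c : ℕ → ℕ) (y : ℕ → M), (∀ i, y i ∈ W ∧ A.mem (y i) (e Z)) ∧
              ∀ n, A.T (A.fn (κ (pre c n)) (A.pr (e p) (wt A.pr ζ y n))) := by
  classical
  -- `Z` is transitive and closed under pairs
  have hZt : ∀ x ∈ η, x ∈ Z := by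
    intro x hx
    obtain ⟨θ, _, rfl⟩ := hZ
    exact (isTransitive_vonNeumann θ).mem_trans hx hη
  have hZp : ∀ x ∈ Z, ∀ y ∈ Z, pair x y ∈ Z := by
    obtain ⟨θ, hθ, rfl⟩ := hZ
    intro x hx y hy
    rw [mem_vonNeumann] at hx hy ⊢
    have h1 : rank (pair x y) = rank ({{x}, {x, y}} : ZFSet.{u}) := rfl
    rw [h1]
    rw [rank_pair, rank_singleton, rank_pair]
    exact max_lt (hθ.succ_lt (hθ.succ_lt hx))
      (hθ.succ_lt (max_lt (hθ.succ_lt hx) (hθ.succ_lt hy)))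
  let C : List ℕ → ZFSet.{u} → Prop := fun l w => eval δ P (κ l) (pair p w) = one
  obtain ⟨ρ, hρ⟩ := exists_rk C Z η hno
  let RR : List ℕ → ZFSet.{u} := fun l =>
    zlam Z (fun w => if Nd C Z η l w then (Order.succ (ρ l w)).toZFSet else ∅)
  have hRn : ∀ l, ∀ w ∈ Z, zapp (RR l) w ≠ ∅ ↔ Nd C Z η l w := by
    intro l w hw
    simp only [RR, zapp_zlam hw]
    split
    · rename_i h
      exact ⟨fun _ => h, fun _ => succ_toZFSet_ne _⟩
    · rename_i h
      simp [h]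
  refine ⟨fun n => match (Encodable.decode n : Option (List ℕ)) with
    | some l => RR l
    | none => p, ?_⟩
  intro X hp hZX hηX hRX M A e he W hWf hWp hXW hwf ζ hζW hζ
  rintro ⟨c, y, hy, hcy⟩
  have hRX' : ∀ l, RR l ∈ X := by
    intro l
    have := hRX (Encodable.encode l)
    simpa using this
  -- elements of `η` are elements of `Z`
  have hζZ : A.mem ζ (e Z) := by
    have := he.ballQ (.mem (.v 0) (.v 2)) (fun _ => Z) (fun _ => hZX) hηX hηX
      (by intro x hx y hy; exact hZt y hy) ζ ζ hζ hζ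
    exact this
  -- closure under pairs
  have hpZ : ∀ x y : M, A.mem x (e Z) → A.mem y (e Z) → A.mem (A.pr y x) (e Z) := by
    intro x y hx hy
    have := he.ballQ (.mem (.p (.v 0) (.v 1)) (.v 2)) (fun _ => Z) (fun _ => hZX) hZX hZX
      (by intro x hx y hy; exact hZp y hy x hx) x y hx hy
    exact this
  have hwZ : ∀ n, A.mem (wt A.pr ζ y n) (e Z) := by
    intro n
    induction n with
    | zero => exact hζZ
    | succ n ih => exact hpZ _ _ ih (hy n).2
  have hwW : ∀ n, wt A.pr ζ y n ∈ W := by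
    intro n
    induction n with
    | zero => exact hζW
    | succ n ih => exact hWp _ (hy n).1 _ ih
  -- the first node
  have h0 : A.fn .app (A.pr (e (RR [])) ζ) ≠ A.fn (.comp .not .one) ζ := by
    have := he.ballQ (.imp (.tr (.f (κ []) (.p (.v 2) (.v 0))))
      (.not (.eq (.f .app (.p (.v 3) (.v 0))) emT)))
      (fun i => match i with | 0 => p | _ => RR []) (by
        intro i
        match i with
        | 0 => exact hp
        | i + 1 => exact hRX' [])
      hηX hηX (by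
        intro x hx y hy
        show eval δ P (κ []) (pair p y) = one → ¬ (zapp (zfst (pair (RR []) y))
          (zsnd (pair (RR []) y)) = emT.evU δ P _)
        intro h1
        rw [evU_emT, zfst_pair, zsnd_pair]
        exact (hRn [] y (hZt y hy)).2 (Nd.nil y hy h1)) ζ ζ hζ hζ
    exact this (hcy 0)
  -- the successor steps
  have h1 : ∀ n, A.fn .app (A.pr (e (RR (pre c n))) (wt A.pr ζ y n)) ≠
      A.fn (.comp .not .one) ζ →
      A.fn .app (A.pr (e (RR (pre c (n + 1)))) (wt A.pr ζ y (n + 1))) ≠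
      A.fn (.comp .not .one) ζ ∧
      A.mem (A.fn .app (A.pr (e (RR (pre c (n + 1)))) (wt A.pr ζ y (n + 1))))
        (A.fn .app (A.pr (e (RR (pre c n))) (wt A.pr ζ y n))) := by
    intro n hn
    have em : ∀ x : M, A.fn (.comp .not .one) x = A.fn (.comp .not .one) ζ := by
      intro x
      rw [A.fn_comp, A.fn_comp, A.fn_one, A.fn_one]
    have := he.ballQ (.imp (.and
        (.not (.eq (.f .app (.p (.v 3) (.v 1))) emT))
        (.tr (.f (κ (pre c (n + 1))) (.p (.v 2) (.p (.v 0) (.v 1))))))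
      (.and (.not (.eq (.f .app (.p (.v 4) (.p (.v 0) (.v 1)))) emT))
        (.mem (.f .app (.p (.v 4) (.p (.v 0) (.v 1)))) (.f .app (.p (.v 3) (.v 1))))))
      (fun i => match i with | 0 => p | 1 => RR (pre c n) | _ => RR (pre c (n + 1))) (by
        intro i
        match i with
        | 0 => exact hp
        | 1 => exact hRX' _
        | i + 2 => exact hRX' _)
      hZX hZX (by
        intro x hx y hy
        show (¬ (zapp (zfst (pair (RR (pre c n)) x)) (zsnd (pair (RR (pre c n)) x)) =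
            emT.evU δ P _) ∧ eval δ P (κ (pre c (n + 1))) (pair p (pair y x)) = one) →
          (¬ (zapp (zfst (pair (RR (pre c (n + 1))) (pair y x)))
            (zsnd (pair (RR (pre c (n + 1))) (pair y x))) = emT.evU δ P _)) ∧
          zapp (zfst (pair (RR (pre c (n + 1))) (pair y x)))
            (zsnd (pair (RR (pre c (n + 1))) (pair y x))) ∈
            zapp (zfst (pair (RR (pre c n)) x)) (zsnd (pair (RR (pre c n)) x))
        rw [evU_emT]
        simp only [zfst_pair, zsnd_pair]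
        rintro ⟨h1, h2⟩
        have n1 := (hRn _ x hx).1 h1
        have hyx := hZp y hy x hx
        have n2 : Nd C Z η (pre c (n + 1)) (pair y x) := by
          rw [pre_succ] at h2 ⊢
          exact Nd.snoc _ _ _ _ n1 hy h2
        refine ⟨(hRn _ _ hyx).2 n2, ?_⟩
        simp only [RR, zapp_zlam hx, zapp_zlam hyx, if_pos n1, if_pos n2]
        rw [Ordinal.mem_toZFSet_iff]
        refine ⟨_, ?_, rfl⟩
        rw [pre_succ] at n2 ⊢
        exact Order.succ_lt_succ (hρ _ _ _ _ n1 n2 hy hx hyx))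
      (wt A.pr ζ y n) (y n) (hwZ n) (hy n).2
    have h2 := this ⟨by
      show A.fn .app (A.pr (e (RR (pre c n))) (wt A.pr ζ y n)) ≠ A.fn (.comp .not .one) (y n)
      rw [em]
      exact hn, hcy (n + 1)⟩
    refine ⟨?_, h2.2⟩
    have h3 := h2.1
    have h4 : A.fn .app (A.pr (e (RR (pre c (n + 1)))) (wt A.pr ζ y (n + 1))) ≠
        A.fn (.comp .not .one) (y n) := h3
    rwa [em] at h4
  have h2 : ∀ n, A.fn .app (A.pr (e (RR (pre c n))) (wt A.pr ζ y n)) ≠
      A.fn (.comp .not .one) ζ := by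
    intro n
    induction n with
    | zero => exact h0
    | succ n ih => exact (h1 n ih).1
  exact hwf ⟨fun n => A.fn .app (A.pr (e (RR (pre c n))) (wt A.pr ζ y n)),
    fun n => hWf _ (hWp _ (hXW _ (hRX' _)) _ (hwW n)) _, fun n => (h1 n (h2 n)).2⟩

end H94W
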