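import Pool.Agent.Lib.H94W.PreAlg

/-!
# Project Woodin, chunk L: the generic ultrapower on names

`G` is a generic filter on the conditions of the model `S` (inside the pre-algebra `B`).  Names
are pairs `(η, f)` with `η, f ∈ S`, `η < δ`, interpreted as the value of `f` at the seed of `η`.
Everything reduces to statements `U η a` (`a` is in the ultrafilter at level `η`), and the latter
is `∃ t ∈ G, t ≤ (η, a)`.  All proofs use `valid` (facts that hold in the universe) for `B` on `S`.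
The prime property of `U` comes from the predense set of all conditions `t` with `t ≤ (η, a)` or
`t ≤ (η, DOM η ∖ a)`, given by a class function in `E`.
-/

set_option autoImplicit false

namespace H94W

open Ordinal Cardinal ZFSet

universe u v w

/-- A code for `Le`. -/
def leC : Code :=
  .comp .and (.pair
    (.comp .eq (.pair
      (.comp (.sep (.comp .not (.comp .mem (.pair .fst (.comp .fst (.comp .fst .snd))))))
        (.pair (.comp .fst .snd) .id))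
      (.comp .not .one)))
    (.comp .eq (.pair
      (.comp (.sep (.comp .not (.comp .mem (.pair
        (.comp .restr (.pair .fst (.comp .fst (.comp .snd .snd))))
        (.comp .snd (.comp .snd .snd))))))
        (.pair (.comp .snd .fst) .id))
      (.comp .not .one))))

theorem sep_eq_empty_iff (p : ZFSet.{u} → Prop) (x : ZFSet.{u}) :
    ZFSet.sep p x = ∅ ↔ ∀ y ∈ x, ¬ p y := by
  rw [ZFSet.eq_empty]
  simp only [mem_sep, not_and]

theorem eval_leC (δ : Ordinal.{u}) (P : ℕ → ZFSet.{u} → ZFSet.{u})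
    (t' t : ZFSet.{u}) : eval δ P leC (pair t' t) = one ↔ Le t' t := by
  have h0 : (zb (¬ True) : ZFSet.{u}) = ∅ := zb_false (by simp)
  simp only [leC, eval, zfst_pair, zsnd_pair, zb_eq_one, ne_eq, Le, h0, sep_eq_empty_iff, not_not]
  exact Iff.rfl

/-- `G` is a generic filter on the conditions of the model `S`. -/
structure GenF {M : Type v} (B : PA M) (S : Set M) (G : Set M) : Prop where
  sub : G ⊆ S
  cond : ∀ t ∈ G, B.T (B.fn .cond t)
  dir : ∀ t ∈ G, ∀ t' ∈ G, ∃ s ∈ G, B.T (B.fn leC (B.pr s t)) ∧ B.T (B.fn leC (B.pr s t'))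
  ne : G.Nonempty
  gen : ∀ E ∈ S, B.T (B.fn .pred E) → ∃ t ∈ G, ∃ d ∈ S, B.mem d E ∧ B.T (B.fn leC (B.pr t d))

/-- `(η, a)` is in the filter generated by `G`. -/
def GU {M : Type v} (B : PA M) (G : Set M) (η a : M) : Prop :=
  ∃ t ∈ G, B.T (B.fn leC (B.pr t (B.pr η a)))

/-- Code of `(y, ((η, f), (ζ, g))) ↦ (f (y ∩ V_η), g (y ∩ V_ζ))`. -/
def prC : Code :=
  .pair
    (.comp .app (.pair (.comp .snd (.comp .fst .snd))
      (.comp .restr (.pair .fst (.comp .fst (.comp .fst .snd))))))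
    (.comp .app (.pair (.comp .snd (.comp .snd .snd))
      (.comp .restr (.pair .fst (.comp .fst (.comp .snd .snd))))))

/-- The generic ultrapower, as a pre-algebra of names. -/
def ult {M : Type v} (B : PA M) (G : Set M) : PA (M × M) where
  fn c u := (u.1, B.fn (.lam (.comp c (.comp .app (.pair .snd .fst)))) (B.pr (B.fn .dom u.1) u.2))
  pr u w := (B.fn .un (B.pr u.1 w.1),
    B.fn (.lam prC) (B.pr (B.fn .dom (B.fn .un (B.pr u.1 w.1)))
      (B.pr (B.pr u.1 u.2) (B.pr w.1 w.2))))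
  tt := (B.fn (.comp .not .one) B.tt,
    B.fn (.lam .one) (B.pr (B.fn .dom (B.fn (.comp .not .one) B.tt)) B.tt))
  T u := GU B G u.1 (B.fn (.sep (.comp .eq (.pair (.comp .app (.pair .snd .fst)) .one)))
    (B.pr (B.fn .dom u.1) u.2))

/-- The names over `S`. -/
def names {M : Type v} (B : PA M) (S : Set M) : Set (M × M) :=
  {u | u.1 ∈ S ∧ u.2 ∈ S ∧ B.T (B.fn .ltd u.1)}

/-- The name of the element `x` of the ground model. -/
def jn {M : Type v} (B : PA M) (x : M) : M × M :=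
  (B.fn (.comp .not .one) B.tt,
    B.fn (.lam .snd) (B.pr (B.fn .dom (B.fn (.comp .not .one) B.tt)) x))

/-- The name of the seed at level `η`. -/
def sdn {M : Type v} (B : PA M) (η : M) : M × M :=
  (η, B.fn (.lam .fst) (B.pr (B.fn .dom η) B.tt))

/-- The properties of the generic ultrapower. -/
structure UltProps {M : Type v} (δ : Ordinal.{u}) (P : ℕ → ZFSet.{u} → ZFSet.{u}) (B : PA M)
    (S G : Set M) : Prop where
  isOn : (ult B G).IsOn δ P (names B S)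
  jn_mem : ∀ x ∈ S, jn B x ∈ names B S
  sdn_mem_names : ∀ η ∈ S, B.T (B.fn .ltd η) → sdn B η ∈ names B S
  T_jn : ∀ x ∈ S, ((ult B G).T (jn B x) ↔ B.T x)
  jn_fn : ∀ x ∈ S, ∀ c, (ult B G).eq (jn B (B.fn c x)) ((ult B G).fn c (jn B x))
  jn_pr : ∀ x ∈ S, ∀ y ∈ S, (ult B G).eq (jn B (B.pr x y)) ((ult B G).pr (jn B x) (jn B y))
  jn_tt : (ult B G).eq (jn B B.tt) (ult B G).tt
  name_eq : ∀ u ∈ names B S,
    (ult B G).eq u ((ult B G).fn .app ((ult B G).pr (jn B u.2) (sdn B u.1)))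
  sdn_congr : ∀ η ∈ S, ∀ ζ ∈ S, B.T (B.fn .ltd η) → B.eq η ζ → (ult B G).eq (sdn B η) (sdn B ζ)
  sdn_mem : ∀ η ∈ S, B.T (B.fn .ltd η) →
    (ult B G).mem (sdn B η) ((ult B G).fn .dom (jn B η))
  sdn_coh : ∀ η ∈ S, ∀ ζ ∈ S, B.T (B.fn .ltd η) → B.T (B.fn .ltd ζ) →
    (ult B G).eq ((ult B G).fn .restr ((ult B G).pr (sdn B (B.fn .un (B.pr η ζ))) (jn B ζ)))
      (sdn B ζ)
  sdn_ultra : ∀ η ∈ S, ∀ a ∈ S, B.T (B.fn .ltd η) → (ult B G).mem (sdn B η) (jn B a) →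
    B.T (B.fn .stat (B.pr η a))
  sdn_gen : ∀ E ∈ S, B.T (B.fn .pred E) →
    ∃ t ∈ S, B.mem t E ∧ (ult B G).mem (sdn B (B.fn .fst t)) (jn B (B.fn .snd t))
  sdn_cond : ∀ t ∈ G, (ult B G).mem (sdn B (B.fn .fst t)) (jn B (B.fn .snd t))

/-! ### Facts in the universe -/

section universe_facts

theorem restr_restr {x η ζ : ZFSet.{u}} (h : rank η ≤ rank ζ) :
    restr (restr x ζ) η = restr x η := by
  ext y
  rw [mem_restr, mem_restr, mem_restr]
  constructor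
  · rintro ⟨⟨h1, _⟩, h3⟩; exact ⟨h1, h3⟩
  · rintro ⟨h1, h2⟩
    refine ⟨⟨h1, ?_⟩, h2⟩
    rw [mem_vonNeumann] at h2 ⊢
    exact lt_of_lt_of_le h2 h

theorem restr_mem_DOM {x : ZFSet.{u}} (hx : Ctbl x) (η : ZFSet.{u}) : restr x η ∈ DOM η := by
  unfold DOM
  rw [mem_sep, mem_powerset]
  refine ⟨fun y hy => (mem_restr.1 hy).2, ?_⟩
  exact Set.Countable.mono (fun y hy => (mem_restr.1 hy).1) hx

theorem ctbl_of_mem_DOM {x η : ZFSet.{u}} (h : x ∈ DOM η) : Ctbl x := by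
  unfold DOM at h
  rw [mem_sep] at h
  exact h.2

theorem restr_of_mem_DOM {x η : ZFSet.{u}} (h : x ∈ DOM η) : restr x η = x := by
  unfold DOM at h
  rw [mem_sep, mem_powerset] at h
  ext y
  rw [mem_restr]
  exact ⟨fun h1 => h1.1, fun h1 => ⟨h1, h.1 h1⟩⟩

theorem rank_le_union_left (η ζ : ZFSet.{u}) : rank η ≤ rank (η ∪ ζ) :=
  rank_mono fun _ hx => mem_union.2 (Or.inl hx)

theorem rank_le_union_right (η ζ : ZFSet.{u}) : rank ζ ≤ rank (η ∪ ζ) :=
  rank_mono fun _ hx => mem_union.2 (Or.inr hx)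

variable {δ : Ordinal.{u}}

theorem IsCond.sub {t : ZFSet.{u}} (ht : IsCond δ t) : zsnd t ⊆ DOM (zfst t) := by
  obtain ⟨η, a, h1, h2, h3, rfl⟩ := ht
  rw [zfst_pair, zsnd_pair]; exact h2

theorem IsCond.stat {t : ZFSet.{u}} (ht : IsCond δ t) : Stat (zfst t) (zsnd t) := by
  obtain ⟨η, a, h1, h2, h3, rfl⟩ := ht
  rw [zfst_pair, zsnd_pair]; exact h3

theorem IsCond.ltd {t : ZFSet.{u}} (ht : IsCond δ t) : Ltd δ (zfst t) := by
  obtain ⟨η, a, h1, h2, h3, rfl⟩ := ht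
  rw [zfst_pair]; exact h1

theorem IsCond.eta {t : ZFSet.{u}} (ht : IsCond δ t) : pair (zfst t) (zsnd t) = t := by
  obtain ⟨η, a, h1, h2, h3, rfl⟩ := ht
  rw [zfst_pair, zsnd_pair]

theorem IsCond.ctbl {t x : ZFSet.{u}} (ht : IsCond δ t) (hx : x ∈ zsnd t) : Ctbl x :=
  ctbl_of_mem_DOM (ht.sub hx)

theorem IsCond.nonempty {t : ZFSet.{u}} (ht : IsCond δ t) : ∃ x, x ∈ zsnd t := by
  obtain ⟨X, _, h⟩ := ht.stat (fun _ => id)
  exact ⟨_, h⟩

theorem Le.trans {s t r : ZFSet.{u}} (h1 : Le s t) (h2 : Le t r) : Le s r := by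
  refine ⟨fun x hx => h1.1 (h2.1 hx), fun x hx => ?_⟩
  have h3 := h2.2 _ (h1.2 x hx)
  rwa [restr_restr (rank_mono h2.1)] at h3

/-- The value of the name `u` at `x`. -/
noncomputable def val (x : ZFSet.{u}) (u : ZFSet.{u} × ZFSet.{u}) : ZFSet.{u} :=
  zapp u.2 (restr x u.1)

/-- The condition `t` forces `u` to be true. -/
def Frc (t : ZFSet.{u}) (u : ZFSet.{u} × ZFSet.{u}) : Prop :=
  Le t (pair u.1 (ZFSet.sep (fun y => zapp u.2 y = one) (DOM u.1)))

theorem IsCond.frc_iff {t : ZFSet.{u}} (ht : IsCond δ t) (u : ZFSet.{u} × ZFSet.{u}) :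
    Frc t u ↔ u.1 ⊆ zfst t ∧ ∀ x ∈ zsnd t, val x u = one := by
  unfold Frc Le val
  rw [zfst_pair, zsnd_pair]
  refine and_congr Iff.rfl (forall₂_congr fun x hx => ?_)
  rw [mem_sep]
  exact and_iff_right (restr_mem_DOM (ht.ctbl hx) _)

/-- The predense set `{(ζ, DOM ζ)}`. -/
noncomputable def predLev (ζ : ZFSet.{u}) : ZFSet.{u} := {pair ζ (DOM ζ)}

theorem isCond_top {ζ : ZFSet.{u}} (h : Ltd δ ζ) : IsCond δ (pair ζ (DOM ζ)) :=
  ⟨ζ, DOM ζ, h, fun _ h => h, stat_DOM ζ, rfl⟩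

theorem pred_predLev {ζ : ZFSet.{u}} (h : Ltd δ ζ) : Pred δ (predLev ζ) := by
  unfold predLev
  refine ⟨fun t ht => ?_, fun t ht => ⟨pair ζ (DOM ζ), by simp, fun F => ?_⟩⟩
  · rw [mem_singleton] at ht
    subst ht
    exact isCond_top h
  · obtain ⟨X, hX, hXt⟩ := ht.stat F
    refine ⟨X, hX, hXt, ?_⟩
    unfold In
    rw [zfst_pair, zsnd_pair]
    exact trc_mem_DOM hX.1 ζ

/-- The predense set of the conditions among `(η, a)`, `(η, DOM η ∖ a)`. -/
noncomputable def predSpl (δ : Ordinal.{u}) (p : ZFSet.{u}) : ZFSet.{u} :=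
  ZFSet.sep (fun t => IsCond δ t) {pair (zfst p) (zsnd p), pair (zfst p) (DOM (zfst p) \ zsnd p)}

theorem pred_predSpl {η a : ZFSet.{u}} (h : Ltd δ η) (ha : a ⊆ DOM η) :
    Pred δ (predSpl δ (pair η a)) := by
  unfold predSpl
  rw [zfst_pair, zsnd_pair]
  refine ⟨fun t ht => (mem_sep.1 ht).2, fun t ht => ?_⟩
  have hc : ∀ b, b ⊆ DOM η → Compat t (pair η b) → IsCond δ (pair η b) := by
    intro b hb hcb
    refine ⟨η, b, h, hb, fun F => ?_, rfl⟩
    obtain ⟨X, hX, _, hX2⟩ := hcb F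
    unfold In at hX2
    rw [zfst_pair, zsnd_pair] at hX2
    exact ⟨X, hX, hX2⟩
  by_contra hno
  push Not at hno
  have h1 : ¬ Compat t (pair η a) := fun hcp =>
    hno _ (mem_sep.2 ⟨by simp, hc a ha hcp⟩) hcp
  have h2 : ¬ Compat t (pair η (DOM η \ a)) := fun hcp =>
    hno _ (mem_sep.2 ⟨by simp, hc _ (fun x hx => (mem_sdiff.1 hx).1) hcp⟩) hcp
  unfold Compat at h1 h2
  push Not at h1 h2
  obtain ⟨F₁, h1⟩ := h1
  obtain ⟨F₂, h2⟩ := h2
  let F : ℕ → ZFSet.{u} → ZFSet.{u} := fun n => if n % 2 = 0 then F₁ (n / 2) else F₂ (n / 2)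
  obtain ⟨X, hX, hXt⟩ := ht.stat F
  have g1 : Good F₁ X := ⟨hX.1, hX.2.1, fun n x hx => by
    have := hX.2.2.1 (2 * n) x hx
    simpa [F] using this, hX.2.2.2⟩
  have g2 : Good F₂ X := ⟨hX.1, hX.2.1, fun n x hx => by
    have := hX.2.2.1 (2 * n + 1) x hx
    have e1 : (2 * n + 1) % 2 = 1 := by omega
    have e2 : (2 * n + 1) / 2 = n := by omega
    simpa [F, e1, e2] using this, hX.2.2.2⟩
  have i1 := h1 X g1 hXt
  have i2 := h2 X g2 hXt
  unfold In at i1 i2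
  rw [zfst_pair, zsnd_pair] at i1 i2
  exact i2 (mem_sdiff.2 ⟨trc_mem_DOM hX.1 η, i1⟩)

theorem stat_of_le {t η a : ZFSet.{u}} (ht : IsCond δ t) (h : Le t (pair η a)) : Stat η a := by
  intro F
  obtain ⟨X, hX, hXt⟩ := ht.stat F
  refine ⟨X, hX, ?_⟩
  have h1 := h.2 _ hXt
  rw [zfst_pair, zsnd_pair] at h1
  have h2 := h.1
  rw [zfst_pair] at h2
  rwa [restr_trc (rank_mono h2)] at h1

end universe_facts

/-! ### Syntactic names -/

section syntactic

/-- Value of a syntactic name in the universe. -/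
noncomputable def uEv (δ : Ordinal.{u}) (P : ℕ → ZFSet.{u} → ZFSet.{u}) (ρ : ℕ → ZFSet.{u})
    (u : Tm × Tm) : ZFSet.{u} × ZFSet.{u} := (u.1.evU δ P ρ, u.2.evU δ P ρ)

/-- Value of a syntactic name in a pre-algebra. -/
def bEv {M : Type v} (B : PA M) (ρ : ℕ → M) (u : Tm × Tm) : M × M :=
  (B.evT ρ u.1, B.evT ρ u.2)

def sFn (c : Code) (u : Tm × Tm) : Tm × Tm :=
  (u.1, .f (.lam (.comp c (.comp .app (.pair .snd .fst)))) (.p (.f .dom u.1) u.2))

def sPr (u w : Tm × Tm) : Tm × Tm :=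
  (.f .un (.p u.1 w.1), .f (.lam prC) (.p (.f .dom (.f .un (.p u.1 w.1)))
    (.p (.p u.1 u.2) (.p w.1 w.2))))

def sTt (a : Tm) : Tm × Tm :=
  (.f (.comp .not .one) a, .f (.lam .one) (.p (.f .dom (.f (.comp .not .one) a)) a))

def sJn (a e : Tm) : Tm × Tm :=
  (.f (.comp .not .one) a, .f (.lam .snd) (.p (.f .dom (.f (.comp .not .one) a)) e))

def sSd (a e : Tm) : Tm × Tm :=
  (e, .f (.lam .fst) (.p (.f .dom e) a))

/-- The formula `t` forces `u`. -/
def sF (t : Tm) (u : Tm × Tm) : QF :=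
  .tr (.f leC (.p t (.p u.1 (.f (.sep (.comp .eq (.pair (.comp .app (.pair .snd .fst)) .one)))
    (.p (.f .dom u.1) u.2)))))

variable {δ : Ordinal.{u}} {P : ℕ → ZFSet.{u} → ZFSet.{u}} {ρ : ℕ → ZFSet.{u}}

theorem evU_sF (t : Tm) (u : Tm × Tm) :
    (sF t u).evU δ P ρ ↔ Frc (t.evU δ P ρ) (uEv δ P ρ u) := by
  unfold sF Frc uEv
  simp only [QF.evU, Tm.evU, eval_leC]
  simp only [eval, zfst_pair, zsnd_pair, zb_eq_one]

theorem val_sFn (c : Code) (u : Tm × Tm) {x : ZFSet.{u}} (hx : Ctbl x) :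
    val x (uEv δ P ρ (sFn c u)) = eval δ P c (val x (uEv δ P ρ u)) := by
  unfold val uEv sFn
  simp only [Tm.evU, eval, zfst_pair, zsnd_pair]
  rw [zapp_zlam (restr_mem_DOM hx _)]

theorem val_sPr (u w : Tm × Tm) {x : ZFSet.{u}} (hx : Ctbl x) :
    val x (uEv δ P ρ (sPr u w)) = pair (val x (uEv δ P ρ u)) (val x (uEv δ P ρ w)) := by
  unfold val uEv sPr prC
  simp only [Tm.evU, eval, zfst_pair, zsnd_pair]
  rw [zapp_zlam (restr_mem_DOM hx _), restr_restr (rank_le_union_left _ _),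
    restr_restr (rank_le_union_right _ _)]

theorem val_sTt (a : Tm) {x : ZFSet.{u}} (hx : Ctbl x) :
    val x (uEv δ P ρ (sTt a)) = one := by
  unfold val uEv sTt
  simp only [Tm.evU, eval, zfst_pair]
  rw [zapp_zlam (restr_mem_DOM hx _)]

theorem val_sJn (a e : Tm) {x : ZFSet.{u}} (hx : Ctbl x) :
    val x (uEv δ P ρ (sJn a e)) = e.evU δ P ρ := by
  unfold val uEv sJn
  simp only [Tm.evU, eval, zfst_pair, zsnd_pair]
  rw [zapp_zlam (restr_mem_DOM hx _)]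

theorem val_sSd (a e : Tm) {x : ZFSet.{u}} (hx : Ctbl x) :
    val x (uEv δ P ρ (sSd a e)) = restr x (e.evU δ P ρ) := by
  unfold val uEv sSd
  simp only [Tm.evU, eval, zfst_pair, zsnd_pair]
  rw [zapp_zlam (restr_mem_DOM hx _)]

/-- Shift of the variables by one. -/
def Tm.sh : Tm → Tm
  | .v i => .v (i + 1)
  | .f c t => .f c t.sh
  | .p s t => .p s.sh t.sh

def QF.sh : QF → QF
  | .tr t => .tr t.sh
  | .eq s t => .eq s.sh t.sh
  | .mem s t => .mem s.sh t.sh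
  | .not φ => .not φ.sh
  | .and φ ψ => .and φ.sh ψ.sh
  | .or φ ψ => .or φ.sh ψ.sh
  | .imp φ ψ => .imp φ.sh ψ.sh

theorem Tm.evU_sh (ρ : ℕ → ZFSet.{u}) : ∀ t : Tm, t.sh.evU δ P ρ = t.evU δ P (fun i => ρ (i + 1))
  | .v _ => rfl
  | .f c t => congrArg (eval δ P c) (Tm.evU_sh ρ t)
  | .p s t => congrArg₂ ZFSet.pair (Tm.evU_sh ρ s) (Tm.evU_sh ρ t)

theorem QF.evU_sh (ρ : ℕ → ZFSet.{u}) : ∀ φ : QF,
    φ.sh.evU δ P ρ ↔ φ.evU δ P (fun i => ρ (i + 1))
  | .tr t => by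
    show t.sh.evU δ P ρ = one ↔ _
    rw [Tm.evU_sh]; exact Iff.rfl
  | .eq s t => by
    show s.sh.evU δ P ρ = t.sh.evU δ P ρ ↔ _
    rw [Tm.evU_sh, Tm.evU_sh]; exact Iff.rfl
  | .mem s t => by
    show s.sh.evU δ P ρ ∈ t.sh.evU δ P ρ ↔ _
    rw [Tm.evU_sh, Tm.evU_sh]; exact Iff.rfl
  | .not φ => not_congr (QF.evU_sh ρ φ)
  | .and φ ψ => and_congr (QF.evU_sh ρ φ) (QF.evU_sh ρ ψ)
  | .or φ ψ => or_congr (QF.evU_sh ρ φ) (QF.evU_sh ρ ψ)
  | .imp φ ψ => imp_congr (QF.evU_sh ρ φ) (QF.evU_sh ρ ψ)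

theorem PA.evT_sh {M : Type v} (B : PA M) (ρ : ℕ → M) :
    ∀ t : Tm, B.evT ρ t.sh = B.evT (fun i => ρ (i + 1)) t
  | .v _ => rfl
  | .f c t => congrArg (B.fn c) (B.evT_sh ρ t)
  | .p s t => congrArg₂ B.pr (B.evT_sh ρ s) (B.evT_sh ρ t)

theorem PA.evQ_sh {M : Type v} (B : PA M) (ρ : ℕ → M) :
    ∀ φ : QF, B.evQ ρ φ.sh ↔ B.evQ (fun i => ρ (i + 1)) φ
  | .tr t => by
    show B.T (B.evT ρ t.sh) ↔ _
    rw [B.evT_sh]; exact Iff.rfl
  | .eq s t => by
    show B.eq (B.evT ρ s.sh) (B.evT ρ t.sh) ↔ _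
    rw [B.evT_sh, B.evT_sh]; exact Iff.rfl
  | .mem s t => by
    show B.mem (B.evT ρ s.sh) (B.evT ρ t.sh) ↔ _
    rw [B.evT_sh, B.evT_sh]; exact Iff.rfl
  | .not φ => not_congr (B.evQ_sh ρ φ)
  | .and φ ψ => and_congr (B.evQ_sh ρ φ) (B.evQ_sh ρ ψ)
  | .or φ ψ => or_congr (B.evQ_sh ρ φ) (B.evQ_sh ρ ψ)
  | .imp φ ψ => imp_congr (B.evQ_sh ρ φ) (B.evQ_sh ρ ψ)

/-- Prepend a value. -/
def cons' {M : Type v} (a : M) (ρ : ℕ → M) : ℕ → M
  | 0 => a
  | i + 1 => ρ i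

theorem cons'_mem {M : Type v} {S : Set M} {a : M} {ρ : ℕ → M} (ha : a ∈ S)
    (hρ : ∀ i, ρ i ∈ S) : ∀ i, cons' a ρ i ∈ S
  | 0 => ha
  | i + 1 => hρ i

end syntactic

/-! ### The main lemmas -/

section main

variable {δ : Ordinal.{u}} {P : ℕ → ZFSet.{u} → ZFSet.{u}} {M : Type v} {B : PA M} {S G : Set M}

theorem PA.IsOn.evT_mem (hB : B.IsOn δ P S) {ρ : ℕ → M} (hρ : ∀ i, ρ i ∈ S) :
    ∀ t : Tm, B.evT ρ t ∈ S
  | .v i => hρ i
  | .f c t => hB.fn _ (hB.evT_mem hρ t) c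
  | .p s t => hB.pr _ (hB.evT_mem hρ s) _ (hB.evT_mem hρ t)

theorem PA.IsOn.le_trans (hB : B.IsOn δ P S) {s t r : M} (hs : s ∈ S) (ht : t ∈ S) (hr : r ∈ S)
    (h1 : B.T (B.fn leC (B.pr s t))) (h2 : B.T (B.fn leC (B.pr t r))) :
    B.T (B.fn leC (B.pr s r)) :=
  hB.valid (.imp (.tr (.f leC (.p (.v 0) (.v 1)))) (.imp (.tr (.f leC (.p (.v 1) (.v 2))))
    (.tr (.f leC (.p (.v 0) (.v 2)))))) (by
      intro ρ
      simp only [QF.evU, Tm.evU, eval_leC]
      exact Le.trans) (as4 s t r r) (as4_mem hs ht hr hr) h1 h2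

/-- The truth predicate of the ultrapower, in terms of syntactic names. -/
theorem ult_T_iff (ρ : ℕ → M) (u : Tm × Tm) :
    (ult B G).T (bEv B ρ u) ↔ ∃ t ∈ G, B.evQ (cons' t ρ) (sF (.v 0) (u.1.sh, u.2.sh)) := by
  show (∃ t ∈ G, _) ↔ _
  refine exists_congr fun t => and_congr Iff.rfl ?_
  show _ ↔ B.T (B.fn leC (B.pr t (B.pr (B.evT (cons' t ρ) u.1.sh)
    (B.fn _ (B.pr (B.fn .dom (B.evT (cons' t ρ) u.1.sh)) (B.evT (cons' t ρ) u.2.sh))))))
  rw [B.evT_sh, B.evT_sh]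
  exact Iff.rfl

/-- `t` forces `u`, in the pre-algebra. -/
def BF (B : PA M) (t : M) (u : M × M) : Prop :=
  B.T (B.fn leC (B.pr t (B.pr u.1 (B.fn (.sep (.comp .eq (.pair (.comp .app (.pair .snd .fst)) .one)))
    (B.pr (B.fn .dom u.1) u.2)))))

theorem ult_T (u : M × M) : (ult B G).T u ↔ ∃ t ∈ G, BF B t u := Iff.rfl

theorem BF_iff (t : M) (ρ : ℕ → M) (u : Tm × Tm) :
    BF B t (bEv B ρ u) ↔ B.evQ (cons' t ρ) (sF (.v 0) (u.1.sh, u.2.sh)) := by
  show _ ↔ B.T (B.fn leC (B.pr t (B.pr (B.evT (cons' t ρ) u.1.sh)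
    (B.fn _ (B.pr (B.fn .dom (B.evT (cons' t ρ) u.1.sh)) (B.evT (cons' t ρ) u.2.sh))))))
  rw [B.evT_sh, B.evT_sh]
  exact Iff.rfl

theorem BF.mono (hB : B.IsOn δ P S) {s t : M} {u : M × M} (hs : s ∈ S) (ht : t ∈ S)
    (hu1 : u.1 ∈ S) (hu2 : u.2 ∈ S) (h1 : B.T (B.fn leC (B.pr s t))) (h2 : BF B t u) :
    BF B s u :=
  hB.le_trans hs ht (hB.pr _ hu1 _ (hB.fn _ (hB.pr _ (hB.fn _ hu1 _) _ hu2) _)) h1 h2

/-- Below every condition of `G` there are conditions of `G` of large level. -/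
theorem GenF.lev (hB : B.IsOn δ P S) (hG : GenF B S G) {k : ℕ} (hk : P k = predLev) {ζ : M}
    (hζ : ζ ∈ S) (hl : B.T (B.fn .ltd ζ)) : ∃ t ∈ G,
      B.T (B.fn leC (B.pr t (B.pr ζ (B.fn .dom ζ)))) := by
  have h1 : B.T (B.fn .pred (B.fn (.prim k) ζ)) :=
    hB.valid (.imp (.tr (.f .ltd (.v 0))) (.tr (.f .pred (.f (.prim k) (.v 0))))) (by
      intro ρ
      simp only [QF.evU, Tm.evU, eval, zb_eq_one, hk]
      exact pred_predLev) (as4 ζ ζ ζ ζ) (as4_mem hζ hζ hζ hζ) hl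
  obtain ⟨t, ht, d, hd, hd2, htd⟩ := hG.gen _ (hB.fn _ hζ _) h1
  refine ⟨t, ht, ?_⟩
  exact hB.valid (.imp (.mem (.v 1) (.f (.prim k) (.v 0))) (.imp (.tr (.f leC (.p (.v 2) (.v 1))))
    (.tr (.f leC (.p (.v 2) (.p (.v 0) (.f .dom (.v 0)))))))) (by
      intro ρ
      simp only [QF.evU, Tm.evU, eval_leC, eval, hk, predLev, mem_singleton]
      intro h1 h2
      rwa [h1] at h2) (as4 ζ d t t) (as4_mem hζ hd (hG.sub ht) (hG.sub ht)) hd2 htd

/-- **Main lemma**: implications between statements on names which hold pointwise. -/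
theorem ult_T_of2 (hB : B.IsOn δ P S) (hG : GenF B S G) {k : ℕ} (hk : P k = predLev)
    (ψ : QF) (u₁ u₂ u : Tm × Tm) (ρ : ℕ → M) (hρ : ∀ i, ρ i ∈ S) (hψ : B.evQ ρ ψ)
    (hu : bEv B ρ u ∈ names B S)
    (h : ∀ (σ : ℕ → ZFSet.{u}) (x : ZFSet.{u}), Ctbl x → ψ.evU δ P σ →
      val x (uEv δ P σ u₁) = one → val x (uEv δ P σ u₂) = one → val x (uEv δ P σ u) = one)
    (h1 : (ult B G).T (bEv B ρ u₁)) (h2 : (ult B G).T (bEv B ρ u₂)) :
    (ult B G).T (bEv B ρ u) := by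
  obtain ⟨t₁, ht₁, h1⟩ := h1
  obtain ⟨t₂, ht₂, h2⟩ := h2
  obtain ⟨t₃, ht₃, h3⟩ := hG.lev hB hk hu.1 hu.2.2
  obtain ⟨s', hs', hs1, hs2⟩ := hG.dir t₁ ht₁ t₂ ht₂
  obtain ⟨s, hs, hss, hs3⟩ := hG.dir s' hs' t₃ ht₃
  have hsS := hG.sub hs
  have e1 : BF B s (bEv B ρ u₁) := BF.mono hB hsS (hG.sub ht₁) (hB.evT_mem hρ _)
    (hB.evT_mem hρ _) (hB.le_trans hsS (hG.sub hs') (hG.sub ht₁) hss hs1) h1
  have e2 : BF B s (bEv B ρ u₂) := BF.mono hB hsS (hG.sub ht₂) (hB.evT_mem hρ _)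
    (hB.evT_mem hρ _) (hB.le_trans hsS (hG.sub hs') (hG.sub ht₂) hss hs2) h2
  have e3 := hB.le_trans hsS (hG.sub ht₃) (hB.pr _ hu.1 _ (hB.fn _ hu.1 _)) hs3 h3
  have e4 := hG.cond s hs
  refine ⟨s, hs, ?_⟩
  show BF B s (bEv B ρ u)
  rw [BF_iff] at e1 e2 ⊢
  have key := hB.valid (.imp (.tr (.f .cond (.v 0))) (.imp ψ.sh
    (.imp (sF (.v 0) (u₁.1.sh, u₁.2.sh)) (.imp (sF (.v 0) (u₂.1.sh, u₂.2.sh))
    (.imp (.tr (.f leC (.p (.v 0) (.p u.1.sh (.f .dom u.1.sh)))))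
      (sF (.v 0) (u.1.sh, u.2.sh))))))) (by
      intro σ g1 g2 g3 g4 g5
      rw [evU_sF] at g3 g4 ⊢
      rw [QF.evU_sh] at g2
      have g1' : IsCond δ (σ 0) := zb_eq_one.1 g1
      change Frc (σ 0) _ at g3 g4
      change Frc (σ 0) _
      rw [g1'.frc_iff] at g3 g4 ⊢
      have g5' : Le (σ 0) (pair (u.1.sh.evU δ P σ) (DOM (u.1.sh.evU δ P σ))) :=
        (eval_leC δ P _ _).1 g5
      refine ⟨?_, fun x hx => ?_⟩
      · have := g5'.1
        rw [zfst_pair] at this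
        exact this
      · have g3' := g3.2 x hx
        have g4' := g4.2 x hx
        unfold uEv at g3' g4' ⊢
        rw [Tm.evU_sh, Tm.evU_sh] at g3' g4' ⊢
        exact h (fun i => σ (i + 1)) x (g1'.ctbl hx) g2 g3' g4')
    (cons' s ρ) (cons'_mem hsS hρ)
  refine key e4 ((B.evQ_sh _ _).2 hψ) e1 e2 ?_
  show B.T (B.fn leC (B.pr s (B.pr (B.evT (cons' s ρ) u.1.sh) (B.fn .dom (B.evT (cons' s ρ) u.1.sh)))))
  rw [B.evT_sh]
  exact e3

end main

/-! ### Closure of the set of names -/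

section names

variable {δ : Ordinal.{u}} {P : ℕ → ZFSet.{u} → ZFSet.{u}} {M : Type v} {B : PA M} {S G : Set M}

theorem names_fn (hB : B.IsOn δ P S) {u : M × M} (hu : u ∈ names B S) (c : Code) :
    (ult B G).fn c u ∈ names B S :=
  ⟨hu.1, hB.fn _ (hB.pr _ (hB.fn _ hu.1 _) _ hu.2.1) _, hu.2.2⟩

theorem PA.IsOn.ltd_un (hB : B.IsOn δ P S) {η ζ : M} (hη : η ∈ S) (hζ : ζ ∈ S)
    (h1 : B.T (B.fn .ltd η)) (h2 : B.T (B.fn .ltd ζ)) : B.T (B.fn .ltd (B.fn .un (B.pr η ζ))) :=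
  hB.valid (.imp (.tr (.f .ltd (.v 0))) (.imp (.tr (.f .ltd (.v 1)))
    (.tr (.f .ltd (.f .un (.p (.v 0) (.v 1))))))) (by
      intro ρ
      simp only [QF.evU, Tm.evU, eval, zb_eq_one, zfst_pair, zsnd_pair]
      exact Ltd.union) (as4 η ζ η η) (as4_mem hη hζ hη hη) h1 h2

theorem names_pr (hB : B.IsOn δ P S) {u w : M × M} (hu : u ∈ names B S) (hw : w ∈ names B S) :
    (ult B G).pr u w ∈ names B S :=
  ⟨hB.fn _ (hB.pr _ hu.1 _ hw.1) _,
    hB.fn _ (hB.pr _ (hB.fn _ (hB.fn _ (hB.pr _ hu.1 _ hw.1) _) _) _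
      (hB.pr _ (hB.pr _ hu.1 _ hu.2.1) _ (hB.pr _ hw.1 _ hw.2.1))) _,
    hB.ltd_un hu.1 hw.1 hu.2.2 hw.2.2⟩

theorem PA.IsOn.ltd_zero (hB : B.IsOn δ P S) (hδ : 0 < δ) :
    B.T (B.fn .ltd (B.fn (.comp .not .one) B.tt)) :=
  hB.valid (.tr (.f .ltd (.f (.comp .not .one) (.v 0)))) (by
      intro ρ
      simp only [QF.evU, Tm.evU, eval, zb_eq_one]
      refine ⟨0, hδ, ?_⟩
      rw [zb_false (by simp)]
      simp) (as4 B.tt B.tt B.tt B.tt) (as4_mem hB.tt hB.tt hB.tt hB.tt)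

theorem names_tt (hB : B.IsOn δ P S) (hδ : 0 < δ) : (ult B G).tt ∈ names B S :=
  ⟨hB.fn _ hB.tt _, hB.fn _ (hB.pr _ (hB.fn _ (hB.fn _ hB.tt _) _) _ hB.tt) _,
    hB.ltd_zero hδ⟩

theorem names_jn (hB : B.IsOn δ P S) (hδ : 0 < δ) {x : M} (hx : x ∈ S) : jn B x ∈ names B S :=
  ⟨hB.fn _ hB.tt _, hB.fn _ (hB.pr _ (hB.fn _ (hB.fn _ hB.tt _) _) _ hx) _, hB.ltd_zero hδ⟩

theorem names_sdn (hB : B.IsOn δ P S) {η : M} (hη : η ∈ S) (hl : B.T (B.fn .ltd η)) :
    sdn B η ∈ names B S :=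
  ⟨hη, hB.fn _ (hB.pr _ (hB.fn _ hη _) _ hB.tt) _, hl⟩

/-- Assignment given by `tt` and four names. -/
def asN {M : Type v} (a : M) (x y z w : M × M) : ℕ → M
  | 0 => a
  | 1 => x.1
  | 2 => x.2
  | 3 => y.1
  | 4 => y.2
  | 5 => z.1
  | 6 => z.2
  | 7 => w.1
  | _ => w.2

theorem asN_mem {a : M} {x y z w : M × M} (ha : a ∈ S) (hx : x ∈ names B S) (hy : y ∈ names B S)
    (hz : z ∈ names B S) (hw : w ∈ names B S) : ∀ i, asN a x y z w i ∈ S
  | 0 => ha
  | 1 => hx.1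
  | 2 => hx.2.1
  | 3 => hy.1
  | 4 => hy.2.1
  | 5 => hz.1
  | 6 => hz.2.1
  | 7 => hw.1
  | _ + 8 => hw.2.1

/-- The syntactic names for the four names of `asN`. -/
def nx : Tm × Tm := (.v 1, .v 2)
def ny : Tm × Tm := (.v 3, .v 4)
def nz : Tm × Tm := (.v 5, .v 6)
def nw : Tm × Tm := (.v 7, .v 8)

/-- A trivially true name. -/
def sTrue : Tm × Tm := sTt (.v 0)

variable (hB : B.IsOn δ P S) (hG : GenF B S G) {k : ℕ} (hk : P k = predLev)

include hB hG hk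

/-- Statements on names which hold pointwise. -/
theorem ult_T_of0 (ψ : QF) (u : Tm × Tm) (ρ : ℕ → M) (hρ : ∀ i, ρ i ∈ S)
    (hψ : B.evQ ρ ψ) (hu : bEv B ρ u ∈ names B S)
    (h : ∀ (σ : ℕ → ZFSet.{u}) (x : ZFSet.{u}), Ctbl x → ψ.evU δ P σ →
      val x (uEv δ P σ u) = one) :
    (ult B G).T (bEv B ρ u) := by
  obtain ⟨t, ht, h3⟩ := hG.lev hB hk hu.1 hu.2.2
  have hsS := hG.sub ht
  have e4 := hG.cond t ht
  refine ⟨t, ht, ?_⟩
  show BF B t (bEv B ρ u)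
  rw [BF_iff]
  have key := hB.valid (.imp (.tr (.f .cond (.v 0))) (.imp ψ.sh
    (.imp (.tr (.f leC (.p (.v 0) (.p u.1.sh (.f .dom u.1.sh)))))
      (sF (.v 0) (u.1.sh, u.2.sh))))) (by
      intro σ g1 g2 g5
      rw [evU_sF]
      rw [QF.evU_sh] at g2
      have g1' : IsCond δ (σ 0) := zb_eq_one.1 g1
      change Frc (σ 0) _
      rw [g1'.frc_iff]
      have g5' : Le (σ 0) (pair (u.1.sh.evU δ P σ) (DOM (u.1.sh.evU δ P σ))) :=
        (eval_leC δ P _ _).1 g5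
      refine ⟨?_, fun x hx => ?_⟩
      · have := g5'.1
        rw [zfst_pair] at this
        exact this
      · unfold uEv
        rw [Tm.evU_sh, Tm.evU_sh]
        exact h (fun i => σ (i + 1)) x (g1'.ctbl hx) g2)
    (cons' t ρ) (cons'_mem hsS hρ)
  refine key e4 ((B.evQ_sh _ _).2 hψ) ?_
  show B.T (B.fn leC (B.pr t (B.pr (B.evT (cons' t ρ) u.1.sh) (B.fn .dom (B.evT (cons' t ρ) u.1.sh)))))
  rw [B.evT_sh]
  exact h3

omit hk in
/-- What is forced has consequences. -/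
theorem ult_T_imp (ψ χ : QF) (u : Tm × Tm) (ρ : ℕ → M) (hρ : ∀ i, ρ i ∈ S)
    (hψ : B.evQ ρ ψ) (h1 : (ult B G).T (bEv B ρ u))
    (h : ∀ (σ : ℕ → ZFSet.{u}) (t : ZFSet.{u}), IsCond δ t → ψ.evU δ P σ →
      (uEv δ P σ u).1 ⊆ zfst t → (∀ x ∈ zsnd t, val x (uEv δ P σ u) = one) → χ.evU δ P σ) :
    B.evQ ρ χ := by
  obtain ⟨t, ht, h1⟩ := h1
  have e1 : BF B t (bEv B ρ u) := h1
  rw [BF_iff] at e1
  have key := hB.valid (.imp (.tr (.f .cond (.v 0))) (.imp ψ.sh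
    (.imp (sF (.v 0) (u.1.sh, u.2.sh)) χ.sh))) (by
      intro σ g1 g2 g3
      rw [evU_sF] at g3
      rw [QF.evU_sh] at g2 ⊢
      have g1' : IsCond δ (σ 0) := zb_eq_one.1 g1
      change Frc (σ 0) _ at g3
      rw [g1'.frc_iff] at g3
      unfold uEv at g3
      rw [Tm.evU_sh, Tm.evU_sh] at g3
      exact h _ _ g1' g2 g3.1 g3.2)
    (cons' t ρ) (cons'_mem (hG.sub ht) hρ)
  exact (B.evQ_sh _ _).1 (key (hG.cond t ht) ((B.evQ_sh _ _).2 hψ) e1)

end names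

/-! ### The axioms -/

section axioms'

variable {δ : Ordinal.{u}} {P : ℕ → ZFSet.{u} → ZFSet.{u}} {M : Type v} {B : PA M} {S G : Set M}

/-- A trivial formula. -/
def trueQ : QF := .imp (.tr (.v 0)) (.tr (.v 0))

theorem trueQ_ev (ρ : ℕ → M) : B.evQ ρ trueQ := fun h => h

/-- The prime property. -/
theorem ult_prime (hB : B.IsOn δ P S) (hG : GenF B S G) {k₂ : ℕ} (hk₂ : P k₂ = predSpl δ)
    {u : M × M} (hu : u ∈ names B S) : (ult B G).T u ∨ (ult B G).T ((ult B G).fn .not u) := by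
  have ha : B.fn (.sep (.comp .eq (.pair (.comp .app (.pair .snd .fst)) .one)))
    (B.pr (B.fn .dom u.1) u.2) ∈ S := hB.fn _ (hB.pr _ (hB.fn _ hu.1 _) _ hu.2.1) _
  set a := B.fn (.sep (.comp .eq (.pair (.comp .app (.pair .snd .fst)) .one)))
    (B.pr (B.fn .dom u.1) u.2) with hadef
  have hpred : B.T (B.fn .pred (B.fn (.prim k₂) (B.pr u.1 a))) :=
    hB.valid (.imp (.tr (.f .ltd (.v 0))) (.tr (.f .pred (.f (.prim k₂) (.p (.v 0)
      (.f (.sep (.comp .eq (.pair (.comp .app (.pair .snd .fst)) .one)))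
        (.p (.f .dom (.v 0)) (.v 1)))))))) (by
      intro σ
      simp only [QF.evU, Tm.evU, eval, zb_eq_one, zfst_pair, zsnd_pair, hk₂]
      intro h
      exact pred_predSpl h fun x hx => (mem_sep.1 hx).1)
      (as4 u.1 u.2 u.1 u.1) (as4_mem hu.1 hu.2.1 hu.1 hu.1) hu.2.2
  obtain ⟨t, ht, d, hd, hdE, htd⟩ := hG.gen _ (hB.fn _ (hB.pr _ hu.1 _ ha) _) hpred
  have key := hB.valid (.imp (.tr (.f .cond (.v 2))) (.imp (.mem (.v 3) (.f (.prim k₂) (.p (.v 0)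
      (.f (.sep (.comp .eq (.pair (.comp .app (.pair .snd .fst)) .one)))
        (.p (.f .dom (.v 0)) (.v 1)))))) (.imp (.tr (.f leC (.p (.v 2) (.v 3))))
          (.or (sF (.v 2) (.v 0, .v 1)) (sF (.v 2) (sFn .not (.v 0, .v 1))))))) (by
      intro σ h1 h2 h3
      have h1' : IsCond δ (σ 2) := zb_eq_one.1 h1
      have h3' : Le (σ 2) (σ 3) := (eval_leC δ P _ _).1 h3
      have h2' : σ 3 ∈ predSpl δ (pair (σ 0) (ZFSet.sep (fun y => zapp (σ 1) y = one)
        (DOM (σ 0)))) := by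
        simpa only [QF.evU, Tm.evU, eval, zb_eq_one, zfst_pair, zsnd_pair, hk₂] using h2
      show QF.evU _ _ _ _ ∨ QF.evU _ _ _ _
      rw [evU_sF, evU_sF]
      unfold predSpl at h2'
      rw [mem_sep, zfst_pair, zsnd_pair, mem_pair] at h2'
      rcases h2'.1 with h4 | h4
      · left
        rw [h4] at h3'
        exact h3'
      · right
        rw [h4] at h3'
        change Frc (σ 2) _
        rw [h1'.frc_iff]
        refine ⟨?_, fun x hx => ?_⟩
        · have := h3'.1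
          rw [zfst_pair] at this
          exact this
        · have h5 := h3'.2 x hx
          rw [zfst_pair, zsnd_pair, mem_sdiff, mem_sep] at h5
          rw [val_sFn _ _ (h1'.ctbl hx)]
          simp only [eval, zb_eq_one]
          intro h6
          exact h5.2 ⟨h5.1, h6⟩) (as4 u.1 u.2 t d) (as4_mem hu.1 hu.2.1 (hG.sub ht) hd)
  rcases key (hG.cond t ht) hdE htd with h | h
  · exact Or.inl ⟨t, ht, h⟩
  · exact Or.inr ⟨t, ht, h⟩

theorem ult_ax (hδ : 0 < δ) (hB : B.IsOn δ P S) (hG : GenF B S G) {k k₂ : ℕ} (hk : P k = predLev)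
    (hk₂ : P k₂ = predSpl δ) : (ult B G).Ax δ P (names B S) := by
  have F := fun {u : M × M} (hu : u ∈ names B S) (c : Code) => names_fn (G := G) hB hu c
  have R := fun {u w : M × M} (hu : u ∈ names B S) (hw : w ∈ names B S) =>
    names_pr (G := G) hB hu hw
  have Tt : (ult B G).tt ∈ names B S := names_tt hB hδ
  have I := fun {x y z w : M × M} (hx : x ∈ names B S) (hy : y ∈ names B S)
    (hz : z ∈ names B S) (hw : w ∈ names B S) => asN_mem (B := B) hB.tt hx hy hz hw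
  refine
    { h_tt := Tt
      h_fn := fun x hx c => F hx c
      h_pr := fun x hx y hy => R hx hy
      T_tt := ?_
      T_iff := ?_
      refl := ?_
      symm := ?_
      trans := ?_
      fn_congr := ?_
      pr_congr := ?_
      fn_id := ?_
      fn_fst := ?_
      fn_snd := ?_
      fn_one := ?_
      fn_comp := ?_
      fn_pair := ?_
      fn_not := ?_
      fn_valid := ?_ }
  · exact ult_T_of0 hB hG hk trueQ (sTt (.v 0)) (asN B.tt _ _ _ _) (I Tt Tt Tt Tt) (trueQ_ev _) Tt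
      (fun σ x hx _ => val_sTt _ hx)
  · intro x hx
    constructor
    · intro h
      exact ult_T_of2 hB hG hk trueQ nx nx (sFn .eq (sPr nx (sTt (.v 0)))) (asN B.tt x x x x)
        (I hx hx hx hx) (trueQ_ev _) (F (R hx Tt) _)
        (fun σ x hx _ h1 _ => by
          rw [val_sFn _ _ hx, val_sPr _ _ hx, val_sTt _ hx]
          simp only [eval, zfst_pair, zsnd_pair, zb_eq_one]
          exact h1) h h
    · intro h
      exact ult_T_of2 hB hG hk trueQ (sFn .eq (sPr nx (sTt (.v 0))))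
        (sFn .eq (sPr nx (sTt (.v 0)))) nx (asN B.tt x x x x)
        (I hx hx hx hx) (trueQ_ev _) hx
        (fun σ x hx _ h1 _ => by
          rw [val_sFn _ _ hx, val_sPr _ _ hx, val_sTt _ hx] at h1
          simp only [eval, zfst_pair, zsnd_pair, zb_eq_one] at h1
          exact h1) h h
  · intro x hx
    exact ult_T_of0 hB hG hk trueQ (sFn .eq (sPr nx nx)) (asN B.tt x x x x) (I hx hx hx hx)
      (trueQ_ev _) (F (R hx hx) _) (fun σ x hx _ => by
        rw [val_sFn _ _ hx, val_sPr _ _ hx]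
        simp only [eval, zfst_pair, zsnd_pair, zb_eq_one])
  · intro x hx y hy h
    exact ult_T_of2 hB hG hk trueQ (sFn .eq (sPr nx ny)) (sFn .eq (sPr nx ny))
      (sFn .eq (sPr ny nx)) (asN B.tt x y x x)
      (I hx hy hx hx) (trueQ_ev _) (F (R hy hx) _)
      (fun σ x hx _ h1 _ => by
        rw [val_sFn _ _ hx, val_sPr _ _ hx] at h1 ⊢
        simp only [eval, zfst_pair, zsnd_pair, zb_eq_one] at h1 ⊢
        exact h1.symm) h h
  · intro x hx y hy z hz h h'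
    exact ult_T_of2 hB hG hk trueQ (sFn .eq (sPr nx ny)) (sFn .eq (sPr ny nz))
      (sFn .eq (sPr nx nz)) (asN B.tt x y z x)
      (I hx hy hz hx) (trueQ_ev _) (F (R hx hz) _)
      (fun σ x hx _ h1 h2 => by
        rw [val_sFn _ _ hx, val_sPr _ _ hx] at h1 h2 ⊢
        simp only [eval, zfst_pair, zsnd_pair, zb_eq_one] at h1 h2 ⊢
        exact h1.trans h2) h h'
  · intro x hx y hy c h
    exact ult_T_of2 hB hG hk trueQ (sFn .eq (sPr nx ny)) (sFn .eq (sPr nx ny))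
      (sFn .eq (sPr (sFn c nx) (sFn c ny))) (asN B.tt x y x x)
      (I hx hy hx hx) (trueQ_ev _) (F (R (F hx _) (F hy _)) _)
      (fun σ x hx _ h1 _ => by
        rw [val_sFn _ _ hx, val_sPr _ _ hx] at h1 ⊢
        rw [val_sFn _ _ hx, val_sFn _ _ hx]
        simp only [eval, zfst_pair, zsnd_pair, zb_eq_one] at h1 ⊢
        rw [h1]) h h
  · intro x hx y hy x' hx' y' hy' h h'
    exact ult_T_of2 hB hG hk trueQ (sFn .eq (sPr nx nz)) (sFn .eq (sPr ny nw))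
      (sFn .eq (sPr (sPr nx ny) (sPr nz nw))) (asN B.tt x y x' y')
      (I hx hy hx' hy') (trueQ_ev _) (F (R (R hx hy) (R hx' hy')) _)
      (fun σ x hx _ h1 h2 => by
        rw [val_sFn _ _ hx, val_sPr _ _ hx] at h1 h2 ⊢
        rw [val_sPr _ _ hx, val_sPr _ _ hx]
        simp only [eval, zfst_pair, zsnd_pair, zb_eq_one] at h1 h2 ⊢
        rw [h1, h2]) h h'
  · intro x hx
    exact ult_T_of0 hB hG hk trueQ (sFn .eq (sPr (sFn .id nx) nx)) (asN B.tt x x x x)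
      (I hx hx hx hx) (trueQ_ev _) (F (R (F hx _) hx) _) (fun σ x hx _ => by
        rw [val_sFn _ _ hx, val_sPr _ _ hx, val_sFn _ _ hx]
        simp only [eval, zfst_pair, zsnd_pair, zb_eq_one])
  · intro x hx y hy
    exact ult_T_of0 hB hG hk trueQ (sFn .eq (sPr (sFn .fst (sPr nx ny)) nx)) (asN B.tt x y x x)
      (I hx hy hx hx) (trueQ_ev _) (F (R (F (R hx hy) _) hx) _) (fun σ x hx _ => by
        rw [val_sFn _ _ hx, val_sPr _ _ hx, val_sFn _ _ hx, val_sPr _ _ hx]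
        simp only [eval, zfst_pair, zsnd_pair, zb_eq_one])
  · intro x hx y hy
    exact ult_T_of0 hB hG hk trueQ (sFn .eq (sPr (sFn .snd (sPr nx ny)) ny)) (asN B.tt x y x x)
      (I hx hy hx hx) (trueQ_ev _) (F (R (F (R hx hy) _) hy) _) (fun σ x hx _ => by
        rw [val_sFn _ _ hx, val_sPr _ _ hx, val_sFn _ _ hx, val_sPr _ _ hx]
        simp only [eval, zfst_pair, zsnd_pair, zb_eq_one])
  · intro x hx
    exact ult_T_of0 hB hG hk trueQ (sFn .eq (sPr (sFn .one nx) (sTt (.v 0)))) (asN B.tt x x x x)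
      (I hx hx hx hx) (trueQ_ev _) (F (R (F hx _) Tt) _) (fun σ x hx _ => by
        rw [val_sFn _ _ hx, val_sPr _ _ hx, val_sFn _ _ hx, val_sTt _ hx]
        simp only [eval, zfst_pair, zsnd_pair, zb_eq_one])
  · intro a b x hx
    exact ult_T_of0 hB hG hk trueQ (sFn .eq (sPr (sFn (.comp a b) nx) (sFn a (sFn b nx))))
      (asN B.tt x x x x)
      (I hx hx hx hx) (trueQ_ev _) (F (R (F hx _) (F (F hx _) _)) _) (fun σ x hx _ => by
        rw [val_sFn _ _ hx, val_sPr _ _ hx, val_sFn _ _ hx, val_sFn _ _ hx, val_sFn _ _ hx]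
        simp only [eval, zfst_pair, zsnd_pair, zb_eq_one])
  · intro a b x hx
    exact ult_T_of0 hB hG hk trueQ (sFn .eq (sPr (sFn (.pair a b) nx) (sPr (sFn a nx) (sFn b nx))))
      (asN B.tt x x x x)
      (I hx hx hx hx) (trueQ_ev _) (F (R (F hx _) (R (F hx _) (F hx _))) _) (fun σ x hx _ => by
        rw [val_sFn _ _ hx, val_sPr _ _ hx, val_sFn _ _ hx, val_sPr _ _ hx, val_sFn _ _ hx,
          val_sFn _ _ hx]
        simp only [eval, zfst_pair, zsnd_pair, zb_eq_one])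
  · intro x hx
    constructor
    · intro h h'
      have h1 := ult_T_of2 hB hG hk trueQ nx (sFn .not nx) (sFn (.comp .not .one) nx)
        (asN B.tt x x x x)
        (I hx hx hx hx) (trueQ_ev _) (F hx _)
        (fun σ x hx _ h1 h2 => by
          rw [val_sFn _ _ hx] at h2
          simp only [eval, zb_eq_one] at h2
          exact absurd h1 h2) h' h
      have h2 := ult_T_imp hB hG trueQ (.not trueQ) _ (asN B.tt x x x x) (I hx hx hx hx)
        (trueQ_ev _) h1 (by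
          intro σ t ht _ _ h3
          obtain ⟨y, hy⟩ := ht.nonempty
          have h4 := h3 y hy
          rw [val_sFn _ _ (ht.ctbl hy)] at h4
          simp [eval] at h4)
      exact h2 (trueQ_ev _)
    · intro h
      exact (ult_prime hB hG hk₂ hx).resolve_left h
  · intro c hc x hx
    exact ult_T_of0 hB hG hk trueQ (sFn c nx) (asN B.tt x x x x) (I hx hx hx hx)
      (trueQ_ev _) (F hx _) (fun σ x hx _ => by
        rw [val_sFn _ _ hx]
        exact hc _)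

end axioms'

theorem ult_props {δ : Ordinal.{u}} (hδ : 0 < δ) :
    ∃ E : ℕ → ZFSet.{u} → ZFSet.{u}, ∀ P, Has P E → ∀ (M : Type v) (B : PA M) (S G : Set M),
      B.IsOn δ P S → GenF B S G → UltProps δ P B S G := by
  refine ⟨fun n => if n = 0 then predLev else predSpl δ, ?_⟩
  intro P hP M B S G hB hG
  obtain ⟨k, hk⟩ := hP 0
  obtain ⟨k₂, hk₂⟩ := hP 1
  replace hk : P k = predLev := by simpa using hk
  replace hk₂ : P k₂ = predSpl δ := by simpa using hk₂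
  have hax := ult_ax hδ hB hG hk hk₂
  have F := fun {u : M × M} (hu : u ∈ names B S) (c : Code) => names_fn (G := G) hB hu c
  have R := fun {u w : M × M} (hu : u ∈ names B S) (hw : w ∈ names B S) =>
    names_pr (G := G) hB hu hw
  have Tt : (ult B G).tt ∈ names B S := names_tt hB hδ
  have J := fun {x : M} (hx : x ∈ S) => names_jn (B := B) hB hδ hx
  have I := fun {x y : M} (hx : x ∈ S) (hy : y ∈ S) => as4_mem hB.tt hx hy hy
  refine
    { isOn := hax.isOn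
      jn_mem := fun x hx => J hx
      sdn_mem_names := fun η hη hl => names_sdn hB hη hl
      T_jn := ?_
      jn_fn := ?_
      jn_pr := ?_
      jn_tt := ?_
      name_eq := ?_
      sdn_congr := ?_
      sdn_mem := ?_
      sdn_coh := ?_
      sdn_ultra := ?_
      sdn_gen := ?_
      sdn_cond := ?_ }
  · intro x hx
    constructor
    · intro h
      exact ult_T_imp hB hG trueQ (.tr (.v 1)) (sJn (.v 0) (.v 1)) (as4 B.tt x x x) (I hx hx)
        (trueQ_ev _) h (by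
          intro σ t ht _ _ h3
          obtain ⟨y, hy⟩ := ht.nonempty
          have h4 := h3 y hy
          rw [val_sJn _ _ (ht.ctbl hy)] at h4
          exact h4)
    · intro h
      exact ult_T_of0 hB hG hk (.tr (.v 1)) (sJn (.v 0) (.v 1)) (as4 B.tt x x x) (I hx hx)
        h (J hx) (fun σ x hx h => by
          rw [val_sJn _ _ hx]
          exact h)
  · intro x hx c
    exact ult_T_of0 hB hG hk trueQ (sFn .eq (sPr (sJn (.v 0) (.f c (.v 1)))
      (sFn c (sJn (.v 0) (.v 1))))) (as4 B.tt x x x) (I hx hx)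
      (trueQ_ev _) (F (R (J (hB.fn _ hx _)) (F (J hx) _)) _) (fun σ x hx h => by
        rw [val_sFn _ _ hx, val_sPr _ _ hx, val_sJn _ _ hx, val_sFn _ _ hx, val_sJn _ _ hx]
        simp only [eval, zfst_pair, zsnd_pair, zb_eq_one]
        rfl)
  · intro x hx y hy
    exact ult_T_of0 hB hG hk trueQ (sFn .eq (sPr (sJn (.v 0) (.p (.v 1) (.v 2)))
      (sPr (sJn (.v 0) (.v 1)) (sJn (.v 0) (.v 2))))) (as4 B.tt x y y) (I hx hy)
      (trueQ_ev _) (F (R (J (hB.pr _ hx _ hy)) (R (J hx) (J hy))) _) (fun σ x hx h => by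
        rw [val_sFn _ _ hx, val_sPr _ _ hx, val_sJn _ _ hx, val_sPr _ _ hx, val_sJn _ _ hx,
          val_sJn _ _ hx]
        simp only [eval, zfst_pair, zsnd_pair, zb_eq_one]
        rfl)
  · exact ult_T_of0 hB hG hk (.tr (.v 0)) (sFn .eq (sPr (sJn (.v 0) (.v 0))
      (sTt (.v 0)))) (as4 B.tt B.tt B.tt B.tt) (I hB.tt hB.tt)
      hB.T_tt (F (R (J hB.tt) Tt) _) (fun σ x hx h => by
        rw [val_sFn _ _ hx, val_sPr _ _ hx, val_sJn _ _ hx, val_sTt _ hx]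
        simp only [eval, zfst_pair, zsnd_pair, zb_eq_one]
        exact h)
  · intro u hu
    exact ult_T_of0 hB hG hk trueQ (sFn .eq (sPr (.v 1, .v 2)
      (sFn .app (sPr (sJn (.v 0) (.v 2)) (sSd (.v 0) (.v 1)))))) (as4 B.tt u.1 u.2 u.2)
      (I hu.1 hu.2.1) (trueQ_ev _) (F (R hu (F (R (J hu.2.1) (names_sdn hB hu.1 hu.2.2)) _)) _)
      (fun σ x hx h => by
        rw [val_sFn _ _ hx, val_sPr _ _ hx, val_sFn _ _ hx, val_sPr _ _ hx, val_sJn _ _ hx,
          val_sSd _ _ hx]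
        simp only [eval, zfst_pair, zsnd_pair, zb_eq_one]
        rfl)
  · intro η hη ζ hζ hl h
    have hl2 : B.T (B.fn .ltd ζ) := hB.valid (.imp (.tr (.f .ltd (.v 0))) (.imp (.eq (.v 0) (.v 1))
      (.tr (.f .ltd (.v 1))))) (by
        intro σ h1 h2
        have h2' : σ 0 = σ 1 := h2
        have h1' : eval δ P .ltd (σ 0) = one := h1
        rw [h2'] at h1'
        exact h1') (as4 η ζ η η) (as4_mem hη hζ hη hη) hl h
    exact ult_T_of0 hB hG hk (.eq (.v 1) (.v 2)) (sFn .eq (sPr (sSd (.v 0) (.v 1))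
      (sSd (.v 0) (.v 2)))) (as4 B.tt η ζ ζ)
      (I hη hζ) h (F (R (names_sdn hB hη hl) (names_sdn hB hζ hl2)) _)
      (fun σ x hx h => by
        rw [val_sFn _ _ hx, val_sPr _ _ hx, val_sSd _ _ hx, val_sSd _ _ hx]
        simp only [eval, zfst_pair, zsnd_pair, zb_eq_one]
        have h' : σ 1 = σ 2 := h
        show restr x (σ 1) = restr x (σ 2)
        rw [h'])
  · intro η hη hl
    exact ult_T_of0 hB hG hk trueQ (sFn .mem (sPr (sSd (.v 0) (.v 1))
      (sFn .dom (sJn (.v 0) (.v 1))))) (as4 B.tt η η η)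
      (I hη hη) (trueQ_ev _) (F (R (names_sdn hB hη hl) (F (J hη) _)) _)
      (fun σ x hx h => by
        rw [val_sFn _ _ hx, val_sPr _ _ hx, val_sSd _ _ hx, val_sFn _ _ hx, val_sJn _ _ hx]
        simp only [eval, zfst_pair, zsnd_pair, zb_eq_one]
        exact restr_mem_DOM hx _)
  · intro η hη ζ hζ hl hl2
    have hU : B.fn .un (B.pr η ζ) ∈ S := hB.fn _ (hB.pr _ hη _ hζ) _
    exact ult_T_of0 hB hG hk trueQ (sFn .eq (sPr (sFn .restr (sPr
      (sSd (.v 0) (.f .un (.p (.v 1) (.v 2)))) (sJn (.v 0) (.v 2))))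
      (sSd (.v 0) (.v 2)))) (as4 B.tt η ζ ζ)
      (I hη hζ) (trueQ_ev _) (F (R (F (R (names_sdn hB hU (hB.ltd_un hη hζ hl hl2)) (J hζ)) _)
        (names_sdn hB hζ hl2)) _)
      (fun σ x hx h => by
        rw [val_sFn _ _ hx, val_sPr _ _ hx, val_sFn _ _ hx, val_sPr _ _ hx, val_sSd _ _ hx,
          val_sSd _ _ hx, val_sJn _ _ hx]
        simp only [eval, zfst_pair, zsnd_pair, zb_eq_one, Tm.evU]
        exact restr_restr (rank_le_union_right _ _))
  · intro η hη a ha hl h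
    exact ult_T_imp hB hG (.tr (.f .ltd (.v 1))) (.tr (.f .stat (.p (.v 1) (.v 2))))
      (sFn .mem (sPr (sSd (.v 0) (.v 1)) (sJn (.v 0) (.v 2)))) (as4 B.tt η a a) (I hη ha)
        hl h (by
          intro σ t ht h1 h2 h3
          simp only [QF.evU, Tm.evU, eval, zb_eq_one, zfst_pair, zsnd_pair] at h1 ⊢
          refine ⟨h1, stat_of_le ht ⟨?_, fun x hx => ?_⟩⟩
          · rw [zfst_pair]
            exact fun y hy => h2 (mem_union.2 (Or.inl (by
              simpa only [sSd, Tm.evU, zfst_pair] using hy)))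
          · have h4 := h3 x hx
            have hc := ht.ctbl hx
            rw [val_sFn _ _ hc, val_sPr _ _ hc, val_sSd _ _ hc, val_sJn _ _ hc] at h4
            simp only [eval, zfst_pair, zsnd_pair, zb_eq_one] at h4
            rw [zfst_pair, zsnd_pair]
            exact h4)
  · intro E hE hpred
    obtain ⟨t, ht, d, hd, hdE, htd⟩ := hG.gen E hE hpred
    refine ⟨d, hd, hdE, ?_⟩
    have key := hB.valid (.imp (.tr (.f .pred (.v 1))) (.imp (.mem (.v 2) (.v 1))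
      (.imp (.tr (.f .cond (.v 3))) (.imp (.tr (.f leC (.p (.v 3) (.v 2))))
      (sF (.v 3) (sFn .mem (sPr (sSd (.v 0) (.f .fst (.v 2))) (sJn (.v 0)
        (.f .snd (.v 2)))))))))) (by
        intro σ h1 h2 h3 h4
        rw [evU_sF]
        have h3' : IsCond δ (σ 3) := zb_eq_one.1 h3
        have h4' : Le (σ 3) (σ 2) := (eval_leC δ P _ _).1 h4
        change Frc (σ 3) _
        rw [h3'.frc_iff]
        refine ⟨?_, fun x hx => ?_⟩
        · intro y hy
          have hy' : y ∈ zfst (σ 2) ∪ zb (one ≠ one) := by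
            simpa only [uEv, sFn, sPr, sSd, sJn, Tm.evU, eval, zfst_pair, zsnd_pair] using hy
          rw [zb_false (by simp), mem_union] at hy'
          rcases hy' with hy' | hy'
          · exact h4'.1 hy'
          · exact absurd hy' (ZFSet.notMem_empty _)
        · have hc := h3'.ctbl hx
          rw [val_sFn _ _ hc, val_sPr _ _ hc, val_sSd _ _ hc, val_sJn _ _ hc]
          simp only [eval, zfst_pair, zsnd_pair, zb_eq_one]
          exact h4'.2 x hx) (as4 B.tt E d t) (as4_mem hB.tt hE hd (hG.sub ht))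
    exact ⟨t, ht, key hpred hdE (hG.cond t ht) htd⟩
  · intro t ht
    have key := hB.valid (.imp (.tr (.f .cond (.v 3)))
      (sF (.v 3) (sFn .mem (sPr (sSd (.v 0) (.f .fst (.v 3))) (sJn (.v 0)
        (.f .snd (.v 3))))))) (by
        intro σ h3
        rw [evU_sF]
        have h3' : IsCond δ (σ 3) := zb_eq_one.1 h3
        change Frc (σ 3) _
        rw [h3'.frc_iff]
        refine ⟨?_, fun x hx => ?_⟩
        · intro y hy
          have hy' : y ∈ zfst (σ 3) ∪ zb (one ≠ one) := by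
            simpa only [uEv, sFn, sPr, sSd, sJn, Tm.evU, eval, zfst_pair, zsnd_pair] using hy
          rw [zb_false (by simp), mem_union] at hy'
          rcases hy' with hy' | hy'
          · exact hy'
          · exact absurd hy' (ZFSet.notMem_empty _)
        · have hc := h3'.ctbl hx
          rw [val_sFn _ _ hc, val_sPr _ _ hc, val_sSd _ _ hc, val_sJn _ _ hc]
          simp only [eval, zfst_pair, zsnd_pair, zb_eq_one]
          show restr x (zfst (σ 3)) ∈ zsnd (σ 3)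
          rw [restr_of_mem_DOM (h3'.sub hx)]
          exact hx) (as4 B.tt t t t) (as4_mem hB.tt (hG.sub ht) (hG.sub ht) (hG.sub ht))
    exact ⟨t, ht, key (hG.cond t ht)⟩

end H94W
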